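import Pool.Agent.LibNU53.Mod

/-! Row A1 (real analysis). `∑_j 2^(-αj/2) min(1,(2^j/x)^η) ≤ C x^(-α/2)` for all `x > 0`, `α/2 < η`.
PLAN. `min(1,y^η) ≤ y^θ` for `α/2 < θ ≤ η`... split: for `2^j ≤ x` the terms are
`x^(-η) 2^(j(η-α/2))`, geometric, total `≤ C x^(-α/2)`; for `2^j > x` the terms are `2^(-jα/2)`, total
`≤ x^(-α/2)/(1-2^(-α/2))`. SHORT/MEDIUM. -/

namespace NU53

private theorem a1_summ {r : ℝ} (hr : 0 ≤ r) (hr1 : r < 1) :
    Summable fun k : ℤ => r ^ k.natAbs := by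
  rw [summable_int_iff_summable_nat_and_neg]
  constructor
  · simpa using summable_geometric_of_lt_one hr hr1
  · simpa using summable_geometric_of_lt_one hr hr1

private theorem a1_sum {r : ℝ} (hr : 0 ≤ r) (hr1 : r < 1) (m : ℤ) (J : ℕ) :
    ∑ j ∈ Finset.range (J + 1), r ^ ((j : ℤ) - m).natAbs ≤ ∑' k : ℤ, r ^ k.natAbs := by
  have hinj : Set.InjOn (fun j : ℕ => (j : ℤ) - m) (Finset.range (J + 1)) := by
    intro a _ b _ hab
    have : (a : ℤ) - m = (b : ℤ) - m := hab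
    omega
  have h1 : ∑ j ∈ Finset.range (J + 1), r ^ ((j : ℤ) - m).natAbs =
      ∑ k ∈ (Finset.range (J + 1)).image (fun j : ℕ => (j : ℤ) - m), r ^ k.natAbs := by
    rw [Finset.sum_image hinj]
  rw [h1]
  exact (a1_summ hr hr1).sum_le_tsum _ fun k _ => pow_nonneg hr _

theorem geo_sum {α η : ℝ} (hα : 0 < α) (hη : α / 2 < η) : ∃ C8 : ℝ, 0 < C8 ∧
    ∀ (x : ℝ), 0 < x → ∀ J : ℕ,
    ∑ j ∈ Finset.range (J + 1), sg α j * min 1 (((2 : ℝ) ^ j / x) ^ η) ≤ C8 * x ^ (-(α / 2)) := by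
  obtain ⟨β, hβ⟩ : ∃ β, β = α / 2 := ⟨_, rfl⟩
  rw [← hβ] at hη
  have hβ0 : 0 < β := by rw [hβ]; linarith
  obtain ⟨δ, hδ⟩ : ∃ δ, δ = min β (η - β) := ⟨_, rfl⟩
  have hδ0 : 0 < δ := by
    rw [hδ]
    exact lt_min hβ0 (by linarith)
  have hδ1 : δ ≤ β := by rw [hδ]; exact min_le_left _ _
  have hδ2 : δ ≤ η - β := by rw [hδ]; exact min_le_right _ _
  obtain ⟨r, hr⟩ : ∃ r : ℝ, r = (2 : ℝ) ^ (-δ) := ⟨_, rfl⟩
  have hr0 : 0 < r := by rw [hr]; positivity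
  have hr1 : r < 1 := by
    rw [hr]
    exact Real.rpow_lt_one_of_one_lt_of_neg (by norm_num) (by linarith)
  obtain ⟨Z, hZ⟩ : ∃ Z : ℝ, Z = ∑' k : ℤ, r ^ k.natAbs := ⟨_, rfl⟩
  have hZ0 : 0 < Z := by
    rw [hZ]
    refine (a1_summ hr0.le hr1).tsum_pos (fun k => pow_nonneg hr0.le _) 0 ?_
    simp
  refine ⟨(2 : ℝ) ^ β * Z, by positivity, fun x hx J => ?_⟩
  obtain ⟨s, hs⟩ : ∃ s : ℝ, s = Real.logb 2 x := ⟨_, rfl⟩
  have hxs : x = (2 : ℝ) ^ s := by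
    rw [hs, Real.rpow_logb (by norm_num) (by norm_num) hx]
  obtain ⟨m, hm⟩ : ∃ m : ℤ, m = ⌊s⌋ := ⟨_, rfl⟩
  have hm1 : (m : ℝ) ≤ s := by rw [hm]; exact Int.floor_le s
  have hm2 : s < m + 1 := by rw [hm]; exact Int.lt_floor_add_one s
  have hpow : ∀ n : ℕ, r ^ n = (2 : ℝ) ^ (-(δ * n)) := by
    intro n
    rw [hr, ← Real.rpow_natCast, ← Real.rpow_mul (by norm_num)]
    congr 1
    ring
  have h12 : (1 : ℝ) ≤ 2 := by norm_num
  have key : ∀ j : ℕ, sg α j * min 1 (((2 : ℝ) ^ j / x) ^ η) ≤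
      (2 : ℝ) ^ β * x ^ (-β) * r ^ ((j : ℤ) - m).natAbs := by
    intro j
    have e1 : sg α j = (2 : ℝ) ^ (-(β * j)) := by
      unfold sg
      rw [hβ]
      congr 1
      ring
    have e2 : ((2 : ℝ) ^ j / x) ^ η = (2 : ℝ) ^ (η * (j - s)) := by
      rw [hxs, ← Real.rpow_natCast, ← Real.rpow_sub (by norm_num),
        ← Real.rpow_mul (by norm_num)]
      congr 1
      ring
    have e3 : x ^ (-β) = (2 : ℝ) ^ (-(β * s)) := by
      rw [hxs, ← Real.rpow_mul (by norm_num)]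
      congr 1
      ring
    rw [e1, e2, e3, hpow, ← Real.rpow_add (by norm_num), ← Real.rpow_add (by norm_num)]
    rcases lt_or_ge (m : ℤ) (j : ℤ) with hj | hj
    · have h1 : ((((j : ℤ) - m).natAbs : ℕ) : ℝ) = j - m := by
        rw [Nat.cast_natAbs, abs_of_pos (by omega : 0 < (j : ℤ) - m)]
        push_cast
        ring
      have h4 : (0 : ℝ) < j - m := by
        have : (m : ℝ) < ((j : ℤ) : ℝ) := by exact_mod_cast hj
        push_cast at this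
        linarith
      calc (2 : ℝ) ^ (-(β * j)) * min 1 ((2 : ℝ) ^ (η * (j - s)))
          ≤ (2 : ℝ) ^ (-(β * j)) * 1 := by gcongr; exact min_le_left _ _
        _ = (2 : ℝ) ^ (-(β * j)) := mul_one _
        _ ≤ _ := by
            apply Real.rpow_le_rpow_of_exponent_le h12
            rw [h1]
            nlinarith
    · have h1 : ((((j : ℤ) - m).natAbs : ℕ) : ℝ) = m - j := by
        rw [Nat.cast_natAbs, abs_of_nonpos (by omega : (j : ℤ) - m ≤ 0)]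
        push_cast
        ring
      have h4 : (0 : ℝ) ≤ m - j := by
        have : ((j : ℤ) : ℝ) ≤ (m : ℝ) := by exact_mod_cast hj
        push_cast at this
        linarith
      calc (2 : ℝ) ^ (-(β * j)) * min 1 ((2 : ℝ) ^ (η * (j - s)))
          ≤ (2 : ℝ) ^ (-(β * j)) * (2 : ℝ) ^ (η * (j - s)) := by gcongr; exact min_le_right _ _
        _ = (2 : ℝ) ^ (-(β * j) + η * (j - s)) := by rw [← Real.rpow_add (by norm_num)]
        _ ≤ _ := by
            apply Real.rpow_le_rpow_of_exponent_le h12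
            rw [h1]
            nlinarith
  rw [← hβ]
  calc ∑ j ∈ Finset.range (J + 1), sg α j * min 1 (((2 : ℝ) ^ j / x) ^ η)
      ≤ ∑ j ∈ Finset.range (J + 1), (2 : ℝ) ^ β * x ^ (-β) * r ^ ((j : ℤ) - m).natAbs :=
        Finset.sum_le_sum fun j _ => key j
    _ = (2 : ℝ) ^ β * x ^ (-β) * ∑ j ∈ Finset.range (J + 1), r ^ ((j : ℤ) - m).natAbs := by
        rw [Finset.mul_sum]
    _ ≤ (2 : ℝ) ^ β * x ^ (-β) * Z := by
        rw [hZ]
        gcongr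
        exact a1_sum hr0.le hr1 m J
    _ = (2 : ℝ) ^ β * Z * x ^ (-β) := by ring

end NU53
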