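import Pool.Agent.LibNU53.Lat0

/-! Row HexU. Discrete duality (uniqueness): a left-right path of `S` and a bottom-top path of `Sᶜ`
in the same rectangle cannot both exist (union-jack lattice = triangulation).
PLAN. Let `p 0, …, p N` be the LR path (sequence of vertices of `S`, consecutive ones adjacent,
`(p 0).1 = a`, `(p N).1 = b`), continued by one virtual step to `(b+1, (p N).2)`.
For a vertex `v = (x,y)`, `a ≤ x ≤ b`, not on `p`, let `N(v) : ZMod 2` be the number of steps
(in either direction) between a vertex `(x, s)` and a vertex `(x+1, s')` with `s > y`.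
* `v` on the top row: `N(v) = 0` (`s > d` impossible).
* `v` on the bottom row `y = c`, not on `p`: all crossing steps between columns `x` and `x+1`
  count (`s ≥ c`, `s ≠ c`): their number is odd since `p` goes from column `a ≤ x` to column `b+1`.
* `v`, `v'` adjacent, both not on `p`: `N(v) = N(v')`. Vertical move: the only candidate is `s = y+1`
  i.e. `v' ∈ p`. Horizontal move `v' = (x+1,y)`: let `A = {(x+1,s) : s > y}`; the path starts and
  ends outside `A`, so it enters/leaves `A` an even number of times; steps between `A` and its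
  complement are: to column `x`, to column `x+2`, or vertical to `v' ∉ p` (none); hence
  #(col x – A) = #(A – col x+2) = N(v') mod 2, and #(col x - A) = N(v) because a step
  `(x,s)-(x+1,s')` with exactly one of `s > y`, `s' > y` would use `v` or `v'` (`|s-s'| ≤ 1`).
  Diagonal move `v' = (x+1, y±1)` (`v`, `v'` even): same, the only new candidate is the other
  diagonal of the unit square, which joins odd vertices: not an edge.
Hence along a bottom-top path avoiding `p`, `1 = N = 0`: contradiction. (Any other proof is fine,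
e.g. induction, or a Sperner type count.) Only Mathlib + `Lat0`. STRONG. -/

namespace NU53

/-- The step `w - w'` crosses the ray above `v` (between the columns `v.1` and `v.1 + 1`). -/
private def cr (v w w' : V) : Prop :=
  (w.1 = v.1 ∧ w'.1 = v.1 + 1 ∧ v.2 < w.2) ∨ (w'.1 = v.1 ∧ w.1 = v.1 + 1 ∧ v.2 < w'.2)

/-- The region between the two rays. -/
private def rg (v v' w : V) : Prop :=
  (v'.1 = v.1 + 1 ∧ w.1 = v'.1 ∧ v'.2 < w.2) ∨ (v.1 = v'.1 + 1 ∧ w.1 = v.1 ∧ v.2 < w.2)

open Classical in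
private noncomputable def ic (P : Prop) : ZMod 2 := if P then 1 else 0

private theorem ic_t {P : Prop} (h : P) : ic P = 1 := by simp [ic, h]
private theorem ic_f {P : Prop} (h : ¬ P) : ic P = 0 := by simp [ic, h]
private theorem ic_c {P Q : Prop} (h : P ↔ Q) : ic P = ic Q := by rw [propext h]
private theorem ic_2 (P : Prop) : ic P + ic P = 0 := CharTwo.add_self_eq_zero _

private theorem cr_comm (v w w' : V) : ic (cr v w w') = ic (cr v w' w) :=
  ic_c (by unfold cr; exact Or.comm)

private theorem rg_comm (v v' w : V) : ic (rg v v' w) = ic (rg v' v w) :=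
  ic_c (by unfold rg; exact Or.comm)

private theorem coreHH {x y y' s t t' : ℤ} (hv : Adj (x, y) (x + 1, y'))
    (hw : Adj (s, t) (s + 1, t')) (h1 : ¬ (x = s ∧ y = t)) (h4 : ¬ (x = s ∧ y' = t')) :
    ic (cr (x, y) (s, t) (s + 1, t')) + ic (cr (x + 1, y') (s, t) (s + 1, t')) =
      ic (rg (x, y) (x + 1, y') (s, t)) + ic (rg (x, y) (x + 1, y') (s + 1, t')) := by
  have e1 : ic (cr (x, y) (s, t) (s + 1, t')) = ic (rg (x, y) (x + 1, y') (s + 1, t')) := by
    apply ic_c
    simp only [cr, rg, true_and, and_true]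
    simp only [Adj, Int.even_iff] at hv hw
    constructor
    · intro h
      omega
    · intro h
      omega
  have e2 : ic (cr (x + 1, y') (s, t) (s + 1, t')) = ic (rg (x, y) (x + 1, y') (s, t)) := by
    apply ic_c
    simp only [cr, rg, true_and, and_true]
    omega
  rw [e1, e2, add_comm]

private theorem coreHV {x y y' s t : ℤ} (h3 : ¬ (x + 1 = s ∧ y' = t)) :
    ic (cr (x, y) (s, t) (s, t + 1)) + ic (cr (x + 1, y') (s, t) (s, t + 1)) =
      ic (rg (x, y) (x + 1, y') (s, t)) + ic (rg (x, y) (x + 1, y') (s, t + 1)) := by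
  have e1 : ¬ cr (x, y) (s, t) (s, t + 1) := by simp only [cr]; omega
  have e2 : ¬ cr (x + 1, y') (s, t) (s, t + 1) := by simp only [cr]; omega
  have e3 : ic (rg (x, y) (x + 1, y') (s, t)) = ic (rg (x, y) (x + 1, y') (s, t + 1)) := by
    apply ic_c
    simp only [rg, true_and, and_true]
    omega
  rw [ic_f e1, ic_f e2, e3, ic_2, add_zero]

private theorem coreVH {x y s t t' : ℤ} (h3 : ¬ (x = s ∧ y + 1 = t)) :
    ic (cr (x, y) (s, t) (s + 1, t')) + ic (cr (x, y + 1) (s, t) (s + 1, t')) =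
      ic (rg (x, y) (x, y + 1) (s, t)) + ic (rg (x, y) (x, y + 1) (s + 1, t')) := by
  have e1 : ¬ rg (x, y) (x, y + 1) (s, t) := by simp only [rg]; omega
  have e2 : ¬ rg (x, y) (x, y + 1) (s + 1, t') := by simp only [rg]; omega
  have e3 : ic (cr (x, y) (s, t) (s + 1, t')) = ic (cr (x, y + 1) (s, t) (s + 1, t')) := by
    apply ic_c
    simp only [cr]
    omega
  rw [ic_f e1, ic_f e2, e3, ic_2, add_zero]

private theorem coreVV {x y s t : ℤ} :
    ic (cr (x, y) (s, t) (s, t + 1)) + ic (cr (x, y + 1) (s, t) (s, t + 1)) =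
      ic (rg (x, y) (x, y + 1) (s, t)) + ic (rg (x, y) (x, y + 1) (s, t + 1)) := by
  have e1 : ¬ rg (x, y) (x, y + 1) (s, t) := by simp only [rg]; omega
  have e2 : ¬ rg (x, y) (x, y + 1) (s, t + 1) := by simp only [rg]; omega
  have e3 : ¬ cr (x, y) (s, t) (s, t + 1) := by simp only [cr]; omega
  have e4 : ¬ cr (x, y + 1) (s, t) (s, t + 1) := by simp only [cr]; omega
  rw [ic_f e1, ic_f e2, ic_f e3, ic_f e4]

private theorem adj_or {v w : V} (h : Adj v w) :
    (∃ x y y', v = (x, y) ∧ w = (x + 1, y')) ∨ (∃ x y y', w = (x, y) ∧ v = (x + 1, y')) ∨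
    (∃ x y, v = (x, y) ∧ w = (x, y + 1)) ∨ (∃ x y, w = (x, y) ∧ v = (x, y + 1)) := by
  obtain ⟨x, y⟩ := v
  obtain ⟨x', y'⟩ := w
  have h0 : x' = x + 1 ∨ x = x' + 1 ∨ (x = x' ∧ y' = y + 1) ∨ (x = x' ∧ y = y' + 1) := by
    simp only [Adj] at h
    omega
  rcases h0 with h | h | ⟨h, h'⟩ | ⟨h, h'⟩
  · left; exact ⟨x, y, y', rfl, by rw [h]⟩
  · right; left; exact ⟨x', y', y, rfl, by rw [h]⟩
  · right; right; left; exact ⟨x, y, rfl, by rw [h, h']⟩
  · right; right; right; exact ⟨x', y', rfl, by rw [h, h']⟩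

/-- first reduction: the step -/
private theorem step_w {v v' w w' : V} (hv : Adj v v') (hw : Adj w w') (h1 : v ≠ w)
    (h2 : v ≠ w') (h3 : v' ≠ w) (h4 : v' ≠ w')
    (hvv : (∃ x y y', v = (x, y) ∧ v' = (x + 1, y')) ∨ (∃ x y, v = (x, y) ∧ v' = (x, y + 1))) :
    ic (cr v w w') + ic (cr v' w w') = ic (rg v v' w) + ic (rg v v' w') := by
  rcases hvv with ⟨x, y, y', rfl, rfl⟩ | ⟨x, y, rfl, rfl⟩
  · rcases adj_or hw with ⟨s, t, t', rfl, rfl⟩ | ⟨s, t, t', rfl, rfl⟩ | ⟨s, t, rfl, rfl⟩ |
      ⟨s, t, rfl, rfl⟩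
    · apply coreHH hv hw
      · rintro ⟨rfl, rfl⟩; exact h1 rfl
      · rintro ⟨rfl, rfl⟩; exact h4 rfl
    · rw [cr_comm, cr_comm (x + 1, y'), add_comm (ic (rg _ _ _))]
      apply coreHH hv hw.symm
      · rintro ⟨rfl, rfl⟩; exact h2 rfl
      · rintro ⟨rfl, rfl⟩; exact h3 rfl
    · apply coreHV
      rintro ⟨rfl, rfl⟩; exact h3 rfl
    · rw [cr_comm, cr_comm (x + 1, y'), add_comm (ic (rg _ _ _))]
      apply coreHV
      rintro ⟨rfl, rfl⟩; exact h4 rfl
  · rcases adj_or hw with ⟨s, t, t', rfl, rfl⟩ | ⟨s, t, t', rfl, rfl⟩ | ⟨s, t, rfl, rfl⟩ |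
      ⟨s, t, rfl, rfl⟩
    · apply coreVH
      rintro ⟨rfl, rfl⟩; exact h3 rfl
    · rw [cr_comm, cr_comm (x, y + 1), add_comm (ic (rg _ _ _))]
      apply coreVH
      rintro ⟨rfl, rfl⟩; exact h4 rfl
    · apply coreVV
    · rw [cr_comm, cr_comm (x, y + 1), add_comm (ic (rg _ _ _))]
      apply coreVV

private theorem step_loc {v v' w w' : V} (hv : Adj v v') (hw : Adj w w') (h1 : v ≠ w)
    (h2 : v ≠ w') (h3 : v' ≠ w) (h4 : v' ≠ w') :
    ic (cr v w w') + ic (cr v' w w') = ic (rg v v' w) + ic (rg v v' w') := by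
  rcases adj_or hv with h | h | h | h
  · exact step_w hv hw h1 h2 h3 h4 (Or.inl h)
  · rw [rg_comm, rg_comm v v' w', add_comm (ic (cr _ _ _))]
    exact step_w hv.symm hw h3 h4 h1 h2 (Or.inl h)
  · exact step_w hv hw h1 h2 h3 h4 (Or.inr h)
  · rw [rg_comm, rg_comm v v' w', add_comm (ic (cr _ _ _))]
    exact step_w hv.symm hw h3 h4 h1 h2 (Or.inr h)

/-- the number of steps crossing the ray above `v`, modulo 2 -/
private theorem key {S : Set V} {u w : V} (h : Conn S u w) : ∃ N : V → ZMod 2,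
    (∀ v v', v ∉ S → v' ∉ S → Adj v v' → N v + N v' = ic (rg v v' u) + ic (rg v v' w)) ∧
    (∀ v, (∀ s ∈ S, s.2 ≤ v.2) → N v = 0) ∧
    (∀ v, v ∉ S → (∀ s ∈ S, v.2 ≤ s.2) → N v = ic (u.1 ≤ v.1) + ic (w.1 ≤ v.1)) := by
  induction h with
  | refl hu =>
    refine ⟨fun _ => 0, ?_, ?_, ?_⟩
    · intro v v' _ _ _
      rw [ic_2, add_zero]
    · intro v _; rfl
    · intro v _ _
      rw [ic_2]
  | @tail w w' hc ha hm ih =>
    obtain ⟨N, n1, n2, n3⟩ := ih
    refine ⟨fun v => N v + ic (cr v w w'), ?_, ?_, ?_⟩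
    · intro v v' hv hv' hvv
      have h1 := n1 v v' hv hv' hvv
      have hwS := hc.right_mem
      have h2 := step_loc hvv ha (fun h => hv (h ▸ hwS)) (fun h => hv (h ▸ hm))
        (fun h => hv' (h ▸ hwS)) (fun h => hv' (h ▸ hm))
      have h3 := ic_2 (rg v v' w)
      linear_combination h1 + h2 + h3
    · intro v hv
      show N v + ic (cr v w w') = 0
      rw [n2 v hv, zero_add]
      apply ic_f
      have h1 := hv w hc.right_mem
      have h2 := hv w' hm
      unfold cr
      omega
    · intro v hv hs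
      show N v + ic (cr v w w') = _
      rw [n3 v hv hs]
      have hwS := hc.right_mem
      have h1 := hs w hwS
      have h2 := hs w' hm
      have g1 : ¬ (v.1 = w.1 ∧ v.2 = w.2) := fun h => hv ((Prod.ext h.1 h.2 : v = w) ▸ hwS)
      have g2 : ¬ (v.1 = w'.1 ∧ v.2 = w'.2) := fun h => hv ((Prod.ext h.1 h.2 : v = w') ▸ hm)
      have hstep : ic (cr v w w') = ic (w.1 ≤ v.1) + ic (w'.1 ≤ v.1) := by
        by_cases c1 : w.1 ≤ v.1 <;> by_cases c2 : w'.1 ≤ v.1
        · rw [ic_t c1, ic_t c2, show (1 : ZMod 2) + 1 = 0 by decide]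
          apply ic_f
          unfold cr
          omega
        · rw [ic_t c1, ic_f c2, add_zero]
          apply ic_t
          unfold cr
          simp only [Adj] at ha
          omega
        · rw [ic_f c1, ic_t c2, zero_add]
          apply ic_t
          unfold cr
          simp only [Adj] at ha
          omega
        · rw [ic_f c1, ic_f c2, add_zero]
          apply ic_f
          unfold cr
          omega
      have h3 := ic_2 (w.1 ≤ v.1)
      linear_combination hstep + h3

theorem hex_unique {a b c d : ℤ} (S : Set V) (h1 : LR a b c d S) (h2 : TB a b c d Sᶜ) : False := by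
  obtain ⟨u, w, hu, hw, huw⟩ := h1
  obtain ⟨p, q, hp, hq, hpq⟩ := h2
  set w' : V := (b + 1, w.2) with hw'
  set S' : Set V := insert w' (S ∩ Box a b c d) with hS'
  have hc : Conn S' u w' := by
    refine Conn.tail (huw.mono (Set.subset_insert _ _)) ?_ (Set.mem_insert _ _)
    exact Or.inl ⟨rfl, Or.inl (by simp only [hw']; rw [hw])⟩
  obtain ⟨N, n1, n2, n3⟩ := key hc
  have hwb := huw.right_mem.2
  have hub := huw.left_mem.2
  have hout : ∀ v, v ∈ Sᶜ ∩ Box a b c d → v ∉ S' := by
    rintro v ⟨hv1, hv2⟩ hv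
    rcases hv with rfl | hv
    · have := hv2.1.2
      simp only [hw'] at this
      omega
    · exact hv1 hv.1
  have hS2 : ∀ s ∈ S', c ≤ s.2 ∧ s.2 ≤ d := by
    intro s hs
    rcases hs with rfl | hs
    · exact hwb.2
    · exact hs.2.2
  have hconst : ∀ v, Conn (Sᶜ ∩ Box a b c d) p v → N v = N p := by
    intro v hv
    induction hv with
    | refl _ => rfl
    | @tail v v' hpv hvv hm ih =>
      have e1 := n1 v v' (hout v hpv.right_mem) (hout v' hm) hvv
      have b1 := hpv.right_mem.2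
      have b2 := hm.2
      have e2 : ¬ rg v v' u := by
        unfold rg
        have := b1.1.1
        have := b2.1.1
        omega
      have e3 : ¬ rg v v' w' := by
        unfold rg
        simp only [hw']
        have := b1.1.2
        have := b2.1.2
        omega
      rw [ic_f e2, ic_f e3, add_zero] at e1
      have e4 : N v + N v = 0 := CharTwo.add_self_eq_zero _
      rw [← ih]
      linear_combination e1 - e4
  have hq1 : N q = 0 := n2 q (fun s hs => by rw [hq]; exact (hS2 s hs).2)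
  have hp1 := n3 p (hout p hpq.left_mem) (fun s hs => by rw [hp]; exact (hS2 s hs).1)
  have hpb := hpq.left_mem.2
  rw [ic_t (by have := hpb.1.1; omega : u.1 ≤ p.1), ic_f (by
    have := hpb.1.2
    simp only [hw']
    omega : ¬ w'.1 ≤ p.1), add_zero] at hp1
  have := hconst q hpq
  rw [hq1, hp1] at this
  exact absurd this (by decide)

end NU53
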