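import Pool.Agent.LibNU53.HexE
import Pool.Agent.LibNU53.HexU

/-! Row Det. Determination by the explored set. `Q` = asked vertices, `S` = black vertices.
PLAN. `Wb` = vertices of the box outside `Q` adjacent to a vertex of `Q ∩ S`; `Wr` = same with
`Q ∩ Sᶜ`; they are disjoint. Suppose `¬ LR (Q ∩ S)`. Let `S1 := (Q ∩ S) ∪ (box \ Q \ Wb)` (black set of the
colouring `e1`). A LR path of `S1` has a vertex on the column `u` (a path from abscissa `0` to `n`, steps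
`≤ 1`), which is in `Q`, hence in `Q ∩ S`; its neighbours in `S1` are in `Q ∩ S` (a neighbour outside `Q` is in
`Wb`), so all its vertices are in `Q ∩ S` (in both directions): contradiction. So by `hex_exists` there is a
TB crossing of `S1ᶜ`, i.e. inside the box of `(Q ∩ Sᶜ) ∪ Wb`. Symmetrically, if `¬ TB (Q ∩ Sᶜ)` there is a
LR crossing of `(Q ∩ S) ∪ Wr`. The two sets are disjoint: contradiction with `hex_unique`
(`(Q∩Sᶜ) ∪ Wb ⊆ ((Q∩S) ∪ Wr)ᶜ`). MEDIUM/STRONG. -/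

namespace NU53

lemma adj_fst {u v : V} (h : Adj u v) : v.1 ≤ u.1 + 1 := by
  rcases h with ⟨_, h | h⟩ | ⟨h, _⟩ | ⟨_, h | h, _⟩ <;> omega

lemma adj_snd {u v : V} (h : Adj u v) : v.2 ≤ u.2 + 1 := by
  rcases h with ⟨h, _⟩ | ⟨_, h | h⟩ | ⟨_, _, h | h⟩ <;> omega

/-- A path passes through every intermediate value of a coordinate. -/
lemma Conn.inter {T : Set V} {f : V → ℤ} (hf : ∀ u v : V, Adj u v → f v ≤ f u + 1) {a b : V}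
    {u : ℤ} (h : Conn T a b) (ha : f a ≤ u) (hb : u ≤ f b) :
    ∃ z, f z = u ∧ Conn T a z ∧ Conn T z b := by
  induction h with
  | refl h => exact ⟨a, by omega, Conn.refl h, Conn.refl h⟩
  | @tail v w hc hadj hw ih =>
    by_cases hv : u ≤ f v
    · obtain ⟨z, h1, h2, h3⟩ := ih hv
      exact ⟨z, h1, h2, Conn.tail h3 hadj hw⟩
    · have h1 := hf v w hadj
      exact ⟨w, by omega, Conn.tail hc hadj hw, Conn.refl hw⟩

/-- A path of `S1` which starts in `Q ∩ S` stays in `Q ∩ S`. -/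
lemma Conn.stay {B Q S S1 : Set V}
    (hS1 : ∀ v ∈ B, v ∈ S1 → v ∉ Q ∩ S → v ∉ Q ∧ ¬ ∃ w ∈ Q ∩ S, Adj v w) {z w : V}
    (h : Conn (S1 ∩ B) z w) (hz : z ∈ Q ∩ S) : Conn ((Q ∩ S) ∩ B) z w := by
  induction h with
  | refl h => exact Conn.refl ⟨hz, h.2⟩
  | @tail v w hc hadj hw ih =>
    refine Conn.tail ih hadj ⟨?_, hw.2⟩
    by_contra hw'
    exact (hS1 w hw.2 hw.1 hw').2 ⟨v, ih.right_mem.1, hadj.symm⟩

theorem det {n u t : ℤ} (hu : 0 ≤ u ∧ u ≤ n) (ht : 0 ≤ t ∧ t ≤ n) {Q S : Set V}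
    (hQ : Q ⊆ Box 0 n 0 n) (hcol : ∀ v ∈ Box 0 n 0 n, v.1 = u → v ∈ Q)
    (hrow : ∀ v ∈ Box 0 n 0 n, v.2 = t → v ∈ Q)
    (hcl : ∀ v ∈ Box 0 n 0 n, v ∉ Q →
      ¬ ((∃ w ∈ Q ∩ S, Adj v w) ∧ (∃ w ∈ Q ∩ Sᶜ, Adj v w))) :
    LR 0 n 0 n (Q ∩ S) ∨ TB 0 n 0 n (Q ∩ Sᶜ) := by
  have hn : (0 : ℤ) ≤ n := hu.1.trans hu.2
  by_contra hcon
  push Not at hcon
  obtain ⟨hL, hT⟩ := hcon
  -- the black part
  let S1 : Set V := (Q ∩ S) ∪ {v | v ∉ Q ∧ ¬ ∃ w ∈ Q ∩ S, Adj v w}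
  have hS1 : ∀ v ∈ Box 0 n 0 n, v ∈ S1 → v ∉ Q ∩ S → v ∉ Q ∧ ¬ ∃ w ∈ Q ∩ S, Adj v w := by
    rintro v - (h | h) hv
    · exact absurd h hv
    · exact h
  have h1 : ¬ LR 0 n 0 n S1 := by
    rintro ⟨a, b, ha, hb, hc⟩
    have hau : a.1 ≤ u := by omega
    have hbu : u ≤ b.1 := by omega
    obtain ⟨z, hz, hz1, hz2⟩ := Conn.inter (f := Prod.fst) (fun _ _ h => adj_fst h) hc hau hbu
    have hzm := hz1.right_mem
    have hzQ : z ∈ Q ∩ S := by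
      by_contra hcon
      exact (hS1 z hzm.2 hzm.1 hcon).1 (hcol z hzm.2 hz)
    have h2 := Conn.stay hS1 hz1.symm hzQ
    have h3 := Conn.stay hS1 hz2 hzQ
    exact hL ⟨a, b, ha, hb, h2.symm.trans h3⟩
  let S2 : Set V := (Q ∩ Sᶜ) ∪ {v | v ∉ Q ∧ ¬ ∃ w ∈ Q ∩ Sᶜ, Adj v w}
  have hS2 : ∀ v ∈ Box 0 n 0 n, v ∈ S2 → v ∉ Q ∩ Sᶜ → v ∉ Q ∧ ¬ ∃ w ∈ Q ∩ Sᶜ, Adj v w := by
    rintro v - (h | h) hv
    · exact absurd h hv
    · exact h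
  have h2 : ¬ TB 0 n 0 n S2 := by
    rintro ⟨a, b, ha, hb, hc⟩
    have hat : a.2 ≤ t := by omega
    have hbt : t ≤ b.2 := by omega
    obtain ⟨z, hz, hz1, hz2⟩ := Conn.inter (f := Prod.snd) (fun _ _ h => adj_snd h) hc hat hbt
    have hzm := hz1.right_mem
    have hzQ : z ∈ Q ∩ Sᶜ := by
      by_contra hcon
      exact (hS2 z hzm.2 hzm.1 hcon).1 (hrow z hzm.2 hz)
    have h2 := Conn.stay hS2 hz1.symm hzQ
    have h3 := Conn.stay hS2 hz2 hzQ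
    exact hT ⟨a, b, ha, hb, h2.symm.trans h3⟩
  have h3 : TB 0 n 0 n S1ᶜ := (hex_exists hn hn S1).resolve_left h1
  have h4 : LR 0 n 0 n S2ᶜ := by
    rcases hex_exists hn hn S2ᶜ with h | h
    · exact h
    · rw [compl_compl] at h
      exact absurd h h2
  obtain ⟨a, b, ha, hb, hc⟩ := h4
  obtain ⟨a', b', ha', hb', hc'⟩ := h3
  let P : Set V := (Q ∩ S) ∪ {v | v ∉ Q ∧ ∃ w ∈ Q ∩ Sᶜ, Adj v w}
  refine hex_unique (a := 0) (b := n) (c := 0) (d := n) P ⟨a, b, ha, hb, hc.mono ?_⟩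
    ⟨a', b', ha', hb', hc'.mono ?_⟩
  · rintro v ⟨hv, hvB⟩
    refine ⟨?_, hvB⟩
    by_cases hvQ : v ∈ Q
    · left
      refine ⟨hvQ, ?_⟩
      by_contra hvS
      exact hv (Or.inl ⟨hvQ, hvS⟩)
    · right
      refine ⟨hvQ, ?_⟩
      by_contra hcon
      exact hv (Or.inr ⟨hvQ, hcon⟩)
  · rintro v ⟨hv, hvB⟩
    refine ⟨?_, hvB⟩
    rintro (h | h)
    · exact hv (Or.inl h)
    · have h5 : ∃ w ∈ Q ∩ S, Adj v w := by
        by_contra hcon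
        exact hv (Or.inr ⟨h.1, hcon⟩)
      exact hcl v hvB h.1 ⟨h5, h.2⟩

end NU53
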