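import Pool.Agent.LibNU53.Lat0

/-! Row Expl. The exploration as a tree of questions. `QT`: binary trees whose nodes are labelled by
vertices; `asked T S` = the set of vertices asked along the branch of the black set `S`.
PLAN. By strong induction on the number of vertices of the box not yet asked: for every finite set
`Q0 ⊆ box` of already asked vertices with colours given by a set `S0` (only `S0 ∩ Q0` matters) build the tree
which asks next any vertex of `box \ Q0` which is on the column `u` or on the row `t`, or adjacent to both a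
vertex of `Q0 ∩ S0` and a vertex of `Q0 \ S0`; stop when there is none; branch `true` continues with
`(Q0 ∪ {v}, S0 ∪ {v})`, branch `false` with `(Q0 ∪ {v}, S0 \ {v})`. Ask first all vertices of the lines (or
strengthen the invariant: every vertex of `Q0` off the lines satisfies (4)). (4) passes to larger `Q`:
`Conn` is monotone. MEDIUM/STRONG, only Mathlib + `Lat0`. -/

namespace NU53

/-- Trees of questions. -/
inductive QT : Type
  | leaf : QT
  | node : V → QT → QT → QT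

open Classical in
/-- The vertices asked when the black set is `S` (first subtree: black, second: white). -/
noncomputable def QT.asked : QT → Set V → Set V
  | QT.leaf, _ => ∅
  | QT.node v l r, S => insert v (if v ∈ S then QT.asked l S else QT.asked r S)

/-- The column `u` and the row `t` of the box `[0,n]²`. -/
def Lines (n u t : ℤ) : Set V := {v | v ∈ Box 0 n 0 n ∧ (v.1 = u ∨ v.2 = t)}

/-- The invariant: every asked vertex off the lines touches a black and a white path to the lines. -/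
def EInv (n u t : ℤ) (Q S : Set V) : Prop :=
  ∀ v ∈ Q, v ∉ Lines n u t →
      (∃ w p, Adj v w ∧ p ∈ Lines n u t ∧ Conn (Q ∩ S) w p) ∧
      (∃ w p, Adj v w ∧ p ∈ Lines n u t ∧ Conn (Q ∩ Sᶜ) w p)

lemma EInv.black {n u t : ℤ} {Q S : Set V} (h : EInv n u t Q S) {w : V} (hw : w ∈ Q ∩ S) :
    ∃ p ∈ Lines n u t, Conn (Q ∩ S) w p := by
  by_cases hl : w ∈ Lines n u t
  · exact ⟨w, hl, Conn.refl hw⟩
  · obtain ⟨⟨x, p, hx, hp, hc⟩, -⟩ := h w hw.1 hl
    exact ⟨p, hp, (Conn.tail (Conn.refl hw) hx hc.left_mem).trans hc⟩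

lemma EInv.white {n u t : ℤ} {Q S : Set V} (h : EInv n u t Q S) {w : V} (hw : w ∈ Q ∩ Sᶜ) :
    ∃ p ∈ Lines n u t, Conn (Q ∩ Sᶜ) w p := by
  by_cases hl : w ∈ Lines n u t
  · exact ⟨w, hl, Conn.refl hw⟩
  · obtain ⟨-, ⟨x, p, hx, hp, hc⟩⟩ := h w hw.1 hl
    exact ⟨p, hp, (Conn.tail (Conn.refl hw) hx hc.left_mem).trans hc⟩

/-- The invariant passes to `insert v Q` and any colouring which agrees on `Q`. -/
lemma EInv.step {n u t : ℤ} {Q S S' : Set V} (h : EInv n u t Q S) {v : V}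
    (hb : Q ∩ S ⊆ S') (hw : Q ∩ Sᶜ ⊆ S'ᶜ)
    (hv : v ∈ Lines n u t ∨ ((∃ w ∈ Q ∩ S, Adj v w) ∧ (∃ w ∈ Q ∩ Sᶜ, Adj v w))) :
    EInv n u t (insert v Q) S' := by
  have hb' : Q ∩ S ⊆ insert v Q ∩ S' := fun x hx => ⟨Or.inr hx.1, hb hx⟩
  have hw' : Q ∩ Sᶜ ⊆ insert v Q ∩ S'ᶜ := fun x hx => ⟨Or.inr hx.1, hw hx⟩
  rintro x (rfl | hx) hl
  · obtain ⟨⟨w1, h1, a1⟩, ⟨w2, h2, a2⟩⟩ := hv.resolve_left hl
    obtain ⟨p1, hp1, c1⟩ := h.black h1
    obtain ⟨p2, hp2, c2⟩ := h.white h2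
    exact ⟨⟨w1, p1, a1, hp1, c1.mono hb'⟩, ⟨w2, p2, a2, hp2, c2.mono hw'⟩⟩
  · obtain ⟨⟨w1, p1, a1, hp1, c1⟩, ⟨w2, p2, a2, hp2, c2⟩⟩ := h x hx hl
    exact ⟨⟨w1, p1, a1, hp1, c1.mono hb'⟩, ⟨w2, p2, a2, hp2, c2.mono hw'⟩⟩

theorem expl_aux (n u t : ℤ) : ∀ (k : ℕ) (Q0 S0 : Set V), Q0 ⊆ Box 0 n 0 n →
    (Box 0 n 0 n \ Q0).ncard ≤ k → EInv n u t Q0 S0 →
    ∃ T : QT, ∀ S : Set V, Q0 ∩ S = Q0 ∩ S0 → Q0 ∩ Sᶜ = Q0 ∩ S0ᶜ →
    (Q0 ∪ T.asked S ⊆ Box 0 n 0 n) ∧ (Lines n u t ⊆ Q0 ∪ T.asked S) ∧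
    (∀ v ∈ Box 0 n 0 n, v ∉ Q0 ∪ T.asked S →
      ¬ ((∃ w ∈ (Q0 ∪ T.asked S) ∩ S, Adj v w) ∧ (∃ w ∈ (Q0 ∪ T.asked S) ∩ Sᶜ, Adj v w))) ∧
    EInv n u t (Q0 ∪ T.asked S) S := by
  intro k
  induction k with
  | zero =>
    intro Q0 S0 hQ hk hI
    have hBQ : Box 0 n 0 n ⊆ Q0 := by
      have h1 : (Box 0 n 0 n \ Q0) = ∅ := by
        rw [← Set.ncard_eq_zero ((Box_finite 0 n 0 n).subset Set.sdiff_subset)]
        omega
      exact Set.sdiff_eq_empty.mp h1
    refine ⟨QT.leaf, fun S hb hw => ?_⟩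
    have h0 : Q0 ∪ QT.leaf.asked S = Q0 := by simp [QT.asked]
    rw [h0]
    refine ⟨hQ, fun v hv => hBQ hv.1, fun v hv hv' => absurd (hBQ hv) hv', ?_⟩
    unfold EInv
    rw [hb, hw]
    exact hI
  | succ k ih =>
    intro Q0 S0 hQ hk hI
    by_cases hex : ∃ v ∈ Box 0 n 0 n, v ∉ Q0 ∧
        (v ∈ Lines n u t ∨ ((∃ w ∈ Q0 ∩ S0, Adj v w) ∧ (∃ w ∈ Q0 ∩ S0ᶜ, Adj v w)))
    · obtain ⟨v, hvB, hvQ, hv⟩ := hex
      have hQ' : insert v Q0 ⊆ Box 0 n 0 n := Set.insert_subset hvB hQ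
      have hk' : (Box 0 n 0 n \ insert v Q0).ncard ≤ k := by
        have h1 : (Box 0 n 0 n \ insert v Q0).ncard < (Box 0 n 0 n \ Q0).ncard := by
          apply Set.ncard_lt_ncard _ ((Box_finite 0 n 0 n).subset Set.sdiff_subset)
          refine ⟨fun x hx => ⟨hx.1, fun h => hx.2 (Or.inr h)⟩, fun h => ?_⟩
          exact (h ⟨hvB, hvQ⟩).2 (Or.inl rfl)
        omega
      have hne : ∀ x ∈ Q0, x ≠ v := fun x hx h => hvQ (h ▸ hx)
      have hI1 : EInv n u t (insert v Q0) (insert v S0) :=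
        hI.step (fun x hx => Or.inr hx.2)
          (fun x hx h => h.elim (hne x hx.1) hx.2) hv
      have hI2 : EInv n u t (insert v Q0) (S0 \ {v}) :=
        hI.step (fun x hx => ⟨hx.2, hne x hx.1⟩) (fun x hx h => hx.2 h.1) hv
      obtain ⟨T1, hT1⟩ := ih _ _ hQ' hk' hI1
      obtain ⟨T2, hT2⟩ := ih _ _ hQ' hk' hI2
      refine ⟨QT.node v T1 T2, fun S hb hw => ?_⟩
      have hb0 : ∀ x ∈ Q0, x ∈ S ↔ x ∈ S0 := by
        intro x hx
        constructor
        · intro h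
          exact (hb ▸ (⟨hx, h⟩ : x ∈ Q0 ∩ S) : x ∈ Q0 ∩ S0).2
        · intro h
          exact (hb.symm ▸ (⟨hx, h⟩ : x ∈ Q0 ∩ S0) : x ∈ Q0 ∩ S).2
      by_cases hvS : v ∈ S
      · have h0 : Q0 ∪ (QT.node v T1 T2).asked S = insert v Q0 ∪ T1.asked S := by
          simp only [QT.asked, if_pos hvS]
          ext x
          simp only [Set.mem_union, Set.mem_insert_iff]
          tauto
        rw [h0]
        apply hT1 S
        · ext x
          constructor
          · rintro ⟨rfl | hx, h⟩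
            · exact ⟨Or.inl rfl, Or.inl rfl⟩
            · exact ⟨Or.inr hx, Or.inr ((hb0 x hx).1 h)⟩
          · rintro ⟨rfl | hx, h⟩
            · exact ⟨Or.inl rfl, hvS⟩
            · exact ⟨Or.inr hx, (hb0 x hx).2 (h.resolve_left (hne x hx))⟩
        · ext x
          constructor
          · rintro ⟨rfl | hx, h⟩
            · exact absurd hvS h
            · exact ⟨Or.inr hx, fun h' => h ((hb0 x hx).2 (h'.resolve_left (hne x hx)))⟩
          · rintro ⟨rfl | hx, h⟩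
            · exact absurd (Or.inl rfl) h
            · exact ⟨Or.inr hx, fun h' => h (Or.inr ((hb0 x hx).1 h'))⟩
      · have h0 : Q0 ∪ (QT.node v T1 T2).asked S = insert v Q0 ∪ T2.asked S := by
          simp only [QT.asked, if_neg hvS]
          ext x
          simp only [Set.mem_union, Set.mem_insert_iff]
          tauto
        rw [h0]
        apply hT2 S
        · ext x
          constructor
          · rintro ⟨rfl | hx, h⟩
            · exact absurd h hvS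
            · exact ⟨Or.inr hx, (hb0 x hx).1 h, hne x hx⟩
          · rintro ⟨rfl | hx, h⟩
            · exact absurd rfl h.2
            · exact ⟨Or.inr hx, (hb0 x hx).2 h.1⟩
        · ext x
          constructor
          · rintro ⟨rfl | hx, h⟩
            · exact ⟨Or.inl rfl, fun h' => h'.2 rfl⟩
            · exact ⟨Or.inr hx, fun h' => h ((hb0 x hx).2 h'.1)⟩
          · rintro ⟨rfl | hx, h⟩
            · exact ⟨Or.inl rfl, hvS⟩
            · exact ⟨Or.inr hx, fun h' => h ⟨(hb0 x hx).1 h', hne x hx⟩⟩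
    · refine ⟨QT.leaf, fun S hb hw => ?_⟩
      have h0 : Q0 ∪ QT.leaf.asked S = Q0 := by simp [QT.asked]
      rw [h0]
      push Not at hex
      refine ⟨hQ, ?_, ?_, ?_⟩
      · intro v hv
        by_contra hcon
        exact (hex v hv.1 hcon).1 hv
      · intro v hv hv' h
        rw [hb, hw] at h
        obtain ⟨⟨w1, h1, a1⟩, ⟨w2, h2, a2⟩⟩ := h
        exact (hex v hv hv').2 ⟨w1, h1, a1⟩ w2 h2 a2
      · unfold EInv
        rw [hb, hw]
        exact hI

theorem expl (n u t : ℤ) : ∃ T : QT, ∀ S : Set V,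
    (T.asked S ⊆ Box 0 n 0 n) ∧ (Lines n u t ⊆ T.asked S) ∧
    (∀ v ∈ Box 0 n 0 n, v ∉ T.asked S →
      ¬ ((∃ w ∈ T.asked S ∩ S, Adj v w) ∧ (∃ w ∈ T.asked S ∩ Sᶜ, Adj v w))) ∧
    (∀ v ∈ T.asked S, v ∉ Lines n u t →
      (∃ w p, Adj v w ∧ p ∈ Lines n u t ∧ Conn (T.asked S ∩ S) w p) ∧
      (∃ w p, Adj v w ∧ p ∈ Lines n u t ∧ Conn (T.asked S ∩ Sᶜ) w p)) := by
  obtain ⟨T, hT⟩ := expl_aux n u t (Box 0 n 0 n \ ∅).ncard ∅ ∅ (Set.empty_subset _) le_rfl
    (fun v hv => absurd hv (Set.notMem_empty v))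
  refine ⟨T, fun S => ?_⟩
  have h := hT S (by simp) (by simp)
  rw [Set.empty_union] at h
  exact h

end NU53
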