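import Pool.Agent.LibNU53.Lat0

/-! Row T5. Extraction of crossings of strips from a path: the coordinates change by at most one at
each step; take the last visit of `{x = a'}` before the first visit of `{x = b'}`.
(Induction on the path: e.g. prove first: if `u.1 ≤ a'` and `b' ≤ v.1` there is a first vertex with
abscissa `b'`, then the last one with abscissa `a'` before it.) SHORT/MEDIUM, only Mathlib. -/

namespace NU53

private theorem t5_gen (f : V → ℤ) (hf : ∀ u v, Adj u v → f u ≤ f v + 1 ∧ f v ≤ f u + 1)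
    {S : Set V} {u v : V} {a' b' : ℤ} (hab : a' ≤ b') (h : Conn S u v) (hu : f u ≤ a')
    (hv : b' ≤ f v) : ∃ u' v' : V, f u' = a' ∧ f v' = b' ∧
      Conn (S ∩ {w | a' ≤ f w ∧ f w ≤ b'}) u' v' ∧ Conn S u u' ∧ Conn S v' v := by
  have key : (∃ u' v' : V, f u' = a' ∧ f v' = b' ∧
      Conn (S ∩ {w | a' ≤ f w ∧ f w ≤ b'}) u' v' ∧ Conn S u u' ∧ Conn S v' v) ∨ f v < a' ∨
      ∃ u' : V, f u' = a' ∧ Conn (S ∩ {w | a' ≤ f w ∧ f w ≤ b'}) u' v ∧ Conn S u u' := by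
    clear hv
    induction h with
    | refl h0 =>
      rcases lt_or_eq_of_le hu with h1 | h1
      · exact Or.inr (Or.inl h1)
      · exact Or.inr (Or.inr ⟨u, h1, Conn.refl ⟨h0, h1.symm.le, h1.le.trans hab⟩, Conn.refl h0⟩)
    | @tail v w hc ha hm ih =>
      obtain ⟨h2, h3⟩ := hf v w ha
      rcases ih with ⟨u', v', e1, e2, e3, e4, e5⟩ | h4 | ⟨u', e1, e2, e3⟩
      · exact Or.inl ⟨u', v', e1, e2, e3, e4, Conn.tail e5 ha hm⟩
      · rcases lt_or_ge (f w) a' with h5 | h5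
        · exact Or.inr (Or.inl h5)
        · have h6 : f w = a' := by omega
          exact Or.inr (Or.inr ⟨w, h6, Conn.refl ⟨hm, h6.symm.le, h6.le.trans hab⟩,
            Conn.tail hc ha hm⟩)
      · obtain ⟨-, h7, h8⟩ := e2.right_mem
        rcases lt_or_ge (f w) a' with h5 | h5
        · exact Or.inr (Or.inl h5)
        · rcases lt_or_ge b' (f w) with h6 | h6
          · have h9 : f v = b' := by omega
            exact Or.inl ⟨u', v, e1, h9, e2, e3, Conn.tail (Conn.refl hc.right_mem) ha hm⟩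
          · exact Or.inr (Or.inr ⟨u', e1, Conn.tail e2 ha ⟨hm, h5, h6⟩, e3⟩)
  rcases key with h1 | h1 | ⟨u', e1, e2, e3⟩
  · exact h1
  · omega
  · obtain ⟨-, h7, h8⟩ := e2.right_mem
    exact ⟨u', v, e1, le_antisymm h8 hv, e2, e3, Conn.refl h.right_mem⟩

private theorem t5_adj1 (u v : V) (h : Adj u v) : u.1 ≤ v.1 + 1 ∧ v.1 ≤ u.1 + 1 := by
  unfold Adj at h
  rcases h with ⟨h1, h2⟩ | ⟨h1, h2⟩ | ⟨h0, h1, h2⟩ <;> omega

private theorem t5_adj2 (u v : V) (h : Adj u v) : u.2 ≤ v.2 + 1 ∧ v.2 ≤ u.2 + 1 := by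
  unfold Adj at h
  rcases h with ⟨h1, h2⟩ | ⟨h1, h2⟩ | ⟨h0, h1, h2⟩ <;> omega

theorem t5x {S : Set V} {u v : V} {a' b' : ℤ} (hab : a' ≤ b') (h : Conn S u v) (hu : u.1 ≤ a')
    (hv : b' ≤ v.1) : ∃ u' v' : V, u'.1 = a' ∧ v'.1 = b' ∧
      Conn (S ∩ {w | a' ≤ w.1 ∧ w.1 ≤ b'}) u' v' ∧ Conn S u u' ∧ Conn S v' v := by
  exact t5_gen (fun w => w.1) t5_adj1 hab h hu hv

theorem t5y {S : Set V} {u v : V} {a' b' : ℤ} (hab : a' ≤ b') (h : Conn S u v) (hu : u.2 ≤ a')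
    (hv : b' ≤ v.2) : ∃ u' v' : V, u'.2 = a' ∧ v'.2 = b' ∧
      Conn (S ∩ {w | a' ≤ w.2 ∧ w.2 ≤ b'}) u' v' ∧ Conn S u u' ∧ Conn S v' v := by
  exact t5_gen (fun w => w.2) t5_adj2 hab h hu hv

end NU53
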