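import Pool.Agent.LibNU53.T4
import Pool.Agent.LibNU53.T5

/-! Row F1a. Three clusters stacked vertically. `r = 2h`.
PLAN. The cluster of `Xc r h 0` has a path from the left-bottom window (`v.2 ≤ -h`) to the right-top
window (`h ≤ v.2`); the cluster of `Xc r h (0,r)` has a path from its left-bottom window
(`v.2 ≤ r - h = h` and `v.2 ≥ 0` since it is in `Sq (0,r) r`) to its right-bottom window
(`0 ≤ v.2 ≤ h`). In the rectangle `[-r,r] × [-r,3r]` these are two left-right paths with exchanged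
ends: connected by `t4`. Same for the second and third cluster. So there is a path in
`S ∩ [-r,r]×[-r,3r]` from a vertex with `v.2 ≤ -h` to a vertex with `v.2 ≥ 2r + h = 5h`; conclude by
`t5y`. MEDIUM. -/

namespace NU53

theorem f1a {r h : ℤ} (hr : r = 2 * h) (hh : 0 < h) {S : Set V} (h0 : Xc r h 0 S)
    (h1 : Xc r h (0, r) S) (h2 : Xc r h (0, 2 * r) S) : TB (-r) r (-h) (5 * h) S := by
  obtain ⟨u1, u2, u3, u4, ⟨a1, a2⟩, ⟨a3, a4⟩, ⟨a5, a6⟩, ⟨a7, a8⟩, c12, c13, c14⟩ := h0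
  obtain ⟨w1, w2, w3, w4, ⟨b1, b2⟩, ⟨b3, b4⟩, ⟨b5, b6⟩, ⟨b7, b8⟩, d12, d13, d14⟩ := h1
  obtain ⟨y1, y2, y3, y4, ⟨e1, e2⟩, ⟨e3, e4⟩, ⟨e5, e6⟩, ⟨e7, e8⟩, f12, f13, f14⟩ := h2
  simp only [Prod.fst_zero, Prod.snd_zero] at a1 a2 a3 a4 a5 a6 a7 a8
  dsimp only at b1 b2 b3 b4 b5 b6 b7 b8 e1 e2 e3 e4 e5 e6 e7 e8
  have m0 : S ∩ Sq (0 : V) r ⊆ S ∩ Box (-r) r (-r) (3 * r) := by
    apply Set.inter_subset_inter_right
    rintro v ⟨⟨x1, x2⟩, x3, x4⟩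
    simp only [Prod.fst_zero, Prod.snd_zero] at x1 x2 x3 x4
    exact ⟨⟨by omega, by omega⟩, by omega, by omega⟩
  have m1 : S ∩ Sq ((0, r) : V) r ⊆ S ∩ Box (-r) r (-r) (3 * r) := by
    apply Set.inter_subset_inter_right
    rintro v ⟨⟨x1, x2⟩, x3, x4⟩
    dsimp only at x1 x2 x3 x4
    exact ⟨⟨by omega, by omega⟩, by omega, by omega⟩
  have m2 : S ∩ Sq ((0, 2 * r) : V) r ⊆ S ∩ Box (-r) r (-r) (3 * r) := by
    apply Set.inter_subset_inter_right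
    rintro v ⟨⟨x1, x2⟩, x3, x4⟩
    dsimp only at x1 x2 x3 x4
    exact ⟨⟨by omega, by omega⟩, by omega, by omega⟩
  have hw2 : 0 ≤ w2.2 := by
    obtain ⟨_, ⟨_, _⟩, x3, _⟩ := d12.right_mem
    dsimp only at x3
    omega
  have hy2 : r ≤ y2.2 := by
    obtain ⟨_, ⟨_, _⟩, x3, _⟩ := f12.right_mem
    dsimp only at x3
    omega
  have k1 : Conn (S ∩ Box (-r) r (-r) (3 * r)) u2 w2 :=
    t4 (u := u2) (v := u3) (p := w2) (q := w4) (by omega) (by omega)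
      ((c12.symm.trans c13).mono m0) (by omega) (by omega) ((d12.symm.trans d14).mono m1)
      (by omega) (by omega)
  have k2 : Conn (S ∩ Box (-r) r (-r) (3 * r)) w2 y2 :=
    t4 (u := w2) (v := w3) (p := y2) (q := y4) (by omega) (by omega)
      ((d12.symm.trans d13).mono m1) (by omega) (by omega) ((f12.symm.trans f14).mono m2)
      (by omega) (by omega)
  have k3 : Conn (S ∩ Box (-r) r (-r) (3 * r)) u2 y1 :=
    (k1.trans k2).trans (f12.symm.mono m2)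
  obtain ⟨p, q, hp, hq, hc, _, _⟩ := t5y (a' := -h) (b' := 5 * h) (by omega) k3 (by omega)
    (by omega)
  refine ⟨p, q, hp, hq, hc.mono ?_⟩
  rintro v ⟨⟨hS, ⟨x1, x2⟩, _, _⟩, x3, x4⟩
  exact ⟨hS, ⟨x1, x2⟩, x3, x4⟩

end NU53
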