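import Pool.Agent.LibNU53.Lat0

/-! Row Sym. Invariance of the crossing properties under the lattice symmetries: translations by even
vectors, reflections `(x,y) ↦ (-x,y)`, `(x,y) ↦ (x,-y)`, exchange `(x,y) ↦ (y,x)`. All from: these maps
preserve `Adj`, hence `Conn` (`Conn (τ⁻¹' S) u v ↔ Conn S (τ u) (τ v)`). EASY, many short lemmas. -/

namespace NU53

/-- reflection in the vertical axis -/
def fx (v : V) : V := (-v.1, v.2)
/-- reflection in the horizontal axis -/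
def fy (v : V) : V := (v.1, -v.2)
/-- translation -/
def tr (w v : V) : V := v + w

private theorem sym_map {τ : V → V} (ha : ∀ u v, Adj u v ↔ Adj (τ u) (τ v)) {S : Set V}
    {u v : V} (h : Conn (τ ⁻¹' S) u v) : Conn S (τ u) (τ v) := by
  induction h with
  | refl h => exact Conn.refl h
  | tail _ h1 h2 ih => exact Conn.tail ih ((ha _ _).1 h1) h2

private theorem sym_comap {τ : V → V} (hτ : Function.Injective τ)
    (ha : ∀ u v, Adj u v ↔ Adj (τ u) (τ v)) (hs : Function.Surjective τ) {S : Set V}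
    {u y : V} (h : Conn S (τ u) y) : ∀ {v : V}, τ v = y → Conn (τ ⁻¹' S) u v := by
  induction h with
  | refl h =>
    intro v hv
    rw [hτ hv]
    exact Conn.refl h
  | @tail y z _ h1 h2 ih =>
    intro v hv
    obtain ⟨y', rfl⟩ := hs y
    subst hv
    exact Conn.tail (ih rfl) ((ha _ _).2 h1) h2

theorem conn_iff {τ : V → V} (hτ : Function.Injective τ) (ha : ∀ u v, Adj u v ↔ Adj (τ u) (τ v))
    (hs : Function.Surjective τ) {S : Set V} {u v : V} :
    Conn (τ ⁻¹' S) u v ↔ Conn S (τ u) (τ v) := by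
  constructor
  · exact sym_map ha
  · intro h
    exact sym_comap hτ ha hs h rfl

theorem adj_fx (u v : V) : Adj u v ↔ Adj (fx u) (fx v) := by
  have hE : Even (u.1 + u.2) ↔ Even (-u.1 + u.2) := by
    rw [Int.even_iff, Int.even_iff]; omega
  unfold Adj fx
  simp only
  rw [← hE]
  constructor <;> rintro (⟨h1, h2⟩ | ⟨h1, h2⟩ | ⟨h0, h1, h2⟩)
  · left; omega
  · right; left; omega
  · right; right; exact ⟨h0, by omega, by omega⟩
  · left; omega
  · right; left; omega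
  · right; right; exact ⟨h0, by omega, by omega⟩

theorem adj_fy (u v : V) : Adj u v ↔ Adj (fy u) (fy v) := by
  have hE : Even (u.1 + u.2) ↔ Even (u.1 + -u.2) := by
    rw [Int.even_iff, Int.even_iff]; omega
  unfold Adj fy
  simp only
  rw [← hE]
  constructor <;> rintro (⟨h1, h2⟩ | ⟨h1, h2⟩ | ⟨h0, h1, h2⟩)
  · left; omega
  · right; left; omega
  · right; right; exact ⟨h0, by omega, by omega⟩
  · left; omega
  · right; left; omega
  · right; right; exact ⟨h0, by omega, by omega⟩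

theorem adj_swap (u v : V) : Adj u v ↔ Adj u.swap v.swap := by
  have hE : Even (u.1 + u.2) ↔ Even (u.2 + u.1) := by rw [add_comm]
  unfold Adj
  simp only [Prod.fst_swap, Prod.snd_swap]
  rw [← hE]
  constructor <;> rintro (⟨h1, h2⟩ | ⟨h1, h2⟩ | ⟨h0, h1, h2⟩)
  · right; left; exact ⟨h1, h2⟩
  · left; exact ⟨h1, h2⟩
  · right; right; exact ⟨h0, h2, h1⟩
  · right; left; exact ⟨h1, h2⟩
  · left; exact ⟨h1, h2⟩
  · right; right; exact ⟨h0, h2, h1⟩

theorem adj_tr {w : V} (hw : Ev w) (u v : V) : Adj u v ↔ Adj (tr w u) (tr w v) := by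
  have hE : Even (u.1 + u.2) ↔ Even (u.1 + w.1 + (u.2 + w.2)) := by
    unfold Ev at hw
    rw [Int.even_iff] at hw
    rw [Int.even_iff, Int.even_iff]; omega
  unfold Adj tr
  simp only [Prod.fst_add, Prod.snd_add]
  rw [← hE]
  constructor <;> rintro (⟨h1, h2⟩ | ⟨h1, h2⟩ | ⟨h0, h1, h2⟩)
  · left; omega
  · right; left; omega
  · right; right; exact ⟨h0, by omega, by omega⟩
  · left; omega
  · right; left; omega
  · right; right; exact ⟨h0, by omega, by omega⟩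

private theorem sym_conn {τ : V → V} (hτ : Function.Injective τ)
    (ha : ∀ u v, Adj u v ↔ Adj (τ u) (τ v)) (hs : Function.Surjective τ) {S B B' : Set V}
    (hB : ∀ v, v ∈ B ↔ τ v ∈ B') {u v : V} :
    Conn (τ ⁻¹' S ∩ B) u v ↔ Conn (S ∩ B') (τ u) (τ v) := by
  have h : τ ⁻¹' S ∩ B = τ ⁻¹' (S ∩ B') := by
    ext z
    simp only [Set.mem_inter_iff, Set.mem_preimage, hB z]
  rw [h]
  exact conn_iff hτ ha hs

private theorem sym_tr_inj (w : V) : Function.Injective (tr w) := fun _ _ h => add_right_cancel h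

private theorem sym_tr_sub (w u : V) : tr w (u - w) = u := sub_add_cancel u w

private theorem sym_tr_surj (w : V) : Function.Surjective (tr w) := fun u =>
  ⟨u - w, sym_tr_sub w u⟩

private theorem sym_fx_fx (u : V) : fx (fx u) = u := by
  simp [fx]

private theorem sym_fy_fy (u : V) : fy (fy u) = u := by
  simp [fy]

private theorem sym_conn_tr {w : V} (hw : Ev w) {S B B' : Set V}
    (hB : ∀ v, v ∈ B ↔ tr w v ∈ B') {u v : V} :
    Conn (tr w ⁻¹' S ∩ B) u v ↔ Conn (S ∩ B') (tr w u) (tr w v) :=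
  sym_conn (sym_tr_inj w) (adj_tr hw) (sym_tr_surj w) hB

private theorem sym_box_tr (w : V) (a b c d : ℤ) (v : V) :
    v ∈ Box a b c d ↔ tr w v ∈ Box (a + w.1) (b + w.1) (c + w.2) (d + w.2) := by
  simp only [Box, Set.mem_setOf_eq, tr, Prod.fst_add, Prod.snd_add]
  constructor
  · rintro ⟨⟨h1, h2⟩, h3, h4⟩
    exact ⟨⟨by omega, by omega⟩, by omega, by omega⟩
  · rintro ⟨⟨h1, h2⟩, h3, h4⟩
    exact ⟨⟨by omega, by omega⟩, by omega, by omega⟩

theorem lr_tr {w : V} (hw : Ev w) (a b c d : ℤ) (S : Set V) :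
    LR (a + w.1) (b + w.1) (c + w.2) (d + w.2) S ↔ LR a b c d (tr w ⁻¹' S) := by
  have hB := sym_box_tr w a b c d
  constructor
  · rintro ⟨u, v, h1, h2, h3⟩
    rw [← sym_tr_sub w u, ← sym_tr_sub w v, ← sym_conn_tr hw hB] at h3
    refine ⟨u - w, v - w, ?_, ?_, h3⟩
    · rw [Prod.fst_sub]; omega
    · rw [Prod.fst_sub]; omega
  · rintro ⟨u, v, h1, h2, h3⟩
    rw [sym_conn_tr hw hB] at h3
    refine ⟨tr w u, tr w v, ?_, ?_, h3⟩
    · simp only [tr, Prod.fst_add]; omega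
    · simp only [tr, Prod.fst_add]; omega

theorem tb_tr {w : V} (hw : Ev w) (a b c d : ℤ) (S : Set V) :
    TB (a + w.1) (b + w.1) (c + w.2) (d + w.2) S ↔ TB a b c d (tr w ⁻¹' S) := by
  have hB := sym_box_tr w a b c d
  constructor
  · rintro ⟨u, v, h1, h2, h3⟩
    rw [← sym_tr_sub w u, ← sym_tr_sub w v, ← sym_conn_tr hw hB] at h3
    refine ⟨u - w, v - w, ?_, ?_, h3⟩
    · rw [Prod.snd_sub]; omega
    · rw [Prod.snd_sub]; omega
  · rintro ⟨u, v, h1, h2, h3⟩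
    rw [sym_conn_tr hw hB] at h3
    refine ⟨tr w u, tr w v, ?_, ?_, h3⟩
    · simp only [tr, Prod.snd_add]; omega
    · simp only [tr, Prod.snd_add]; omega

theorem tb_swap (a b c d : ℤ) (S : Set V) :
    TB a b c d S ↔ LR c d a b (Prod.swap ⁻¹' S) := by
  have hB : ∀ v : V, v ∈ Box c d a b ↔ v.swap ∈ Box a b c d := by
    intro v
    simp only [Box, Set.mem_setOf_eq, Prod.fst_swap, Prod.snd_swap]
    tauto
  have hc : ∀ u v : V, Conn (Prod.swap ⁻¹' S ∩ Box c d a b) u v ↔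
      Conn (S ∩ Box a b c d) u.swap v.swap := fun u v =>
    sym_conn Prod.swap_injective adj_swap Prod.swap_surjective hB
  constructor
  · rintro ⟨u, v, h1, h2, h3⟩
    refine ⟨u.swap, v.swap, h1, h2, ?_⟩
    rw [hc, Prod.swap_swap, Prod.swap_swap]
    exact h3
  · rintro ⟨u, v, h1, h2, h3⟩
    rw [hc] at h3
    exact ⟨u.swap, v.swap, h1, h2, h3⟩

theorem lr_fx (a b c d : ℤ) (S : Set V) :
    LR a b c d S ↔ LR (-b) (-a) c d (fx ⁻¹' S) := by
  have hB : ∀ v : V, v ∈ Box (-b) (-a) c d ↔ fx v ∈ Box a b c d := by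
    intro v
    simp only [Box, Set.mem_setOf_eq, fx]
    constructor
    · rintro ⟨⟨h1, h2⟩, h3, h4⟩
      exact ⟨⟨by omega, by omega⟩, by omega, by omega⟩
    · rintro ⟨⟨h1, h2⟩, h3, h4⟩
      exact ⟨⟨by omega, by omega⟩, by omega, by omega⟩
  have hc : ∀ u v : V, Conn (fx ⁻¹' S ∩ Box (-b) (-a) c d) u v ↔
      Conn (S ∩ Box a b c d) (fx u) (fx v) := fun u v =>
    sym_conn (Function.LeftInverse.injective sym_fx_fx) adj_fx
      (Function.RightInverse.surjective sym_fx_fx) hB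
  constructor
  · rintro ⟨u, v, h1, h2, h3⟩
    refine ⟨fx v, fx u, by simp only [fx]; omega, by simp only [fx]; omega, ?_⟩
    rw [hc, sym_fx_fx, sym_fx_fx]
    exact h3.symm
  · rintro ⟨u, v, h1, h2, h3⟩
    rw [hc] at h3
    exact ⟨fx v, fx u, by simp only [fx]; omega, by simp only [fx]; omega, h3.symm⟩

theorem lr_fy (a b c d : ℤ) (S : Set V) :
    LR a b c d S ↔ LR a b (-d) (-c) (fy ⁻¹' S) := by
  have hB : ∀ v : V, v ∈ Box a b (-d) (-c) ↔ fy v ∈ Box a b c d := by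
    intro v
    simp only [Box, Set.mem_setOf_eq, fy]
    constructor
    · rintro ⟨⟨h1, h2⟩, h3, h4⟩
      exact ⟨⟨by omega, by omega⟩, by omega, by omega⟩
    · rintro ⟨⟨h1, h2⟩, h3, h4⟩
      exact ⟨⟨by omega, by omega⟩, by omega, by omega⟩
  have hc : ∀ u v : V, Conn (fy ⁻¹' S ∩ Box a b (-d) (-c)) u v ↔
      Conn (S ∩ Box a b c d) (fy u) (fy v) := fun u v =>
    sym_conn (Function.LeftInverse.injective sym_fy_fy) adj_fy
      (Function.RightInverse.surjective sym_fy_fy) hB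
  constructor
  · rintro ⟨u, v, h1, h2, h3⟩
    refine ⟨fy u, fy v, h1, h2, ?_⟩
    rw [hc, sym_fy_fy, sym_fy_fy]
    exact h3
  · rintro ⟨u, v, h1, h2, h3⟩
    rw [hc] at h3
    exact ⟨fy u, fy v, h1, h2, h3⟩

theorem circ_tr {w : V} (hw : Ev w) (e : ℕ) (x : V) (S : Set V) :
    Circ e (x + w) S ↔ Circ e x (tr w ⁻¹' S) := by
  unfold Circ
  rw [← lr_tr hw, ← lr_tr hw, ← tb_tr hw, ← tb_tr hw]
  have e1 : (x + w).1 - 3 * 2 ^ e = x.1 - 3 * 2 ^ e + w.1 := by rw [Prod.fst_add]; ring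
  have e2 : (x + w).1 + 3 * 2 ^ e = x.1 + 3 * 2 ^ e + w.1 := by rw [Prod.fst_add]; ring
  have e3 : (x + w).2 + 2 ^ e = x.2 + 2 ^ e + w.2 := by rw [Prod.snd_add]; ring
  have e4 : (x + w).2 + 3 * 2 ^ e = x.2 + 3 * 2 ^ e + w.2 := by rw [Prod.snd_add]; ring
  have e5 : (x + w).2 - 3 * 2 ^ e = x.2 - 3 * 2 ^ e + w.2 := by rw [Prod.snd_add]; ring
  have e6 : (x + w).2 - 2 ^ e = x.2 - 2 ^ e + w.2 := by rw [Prod.snd_add]; ring
  have e7 : (x + w).1 - 2 ^ e = x.1 - 2 ^ e + w.1 := by rw [Prod.fst_add]; ring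
  have e8 : (x + w).1 + 2 ^ e = x.1 + 2 ^ e + w.1 := by rw [Prod.fst_add]; ring
  rw [e1, e2, e3, e4, e5, e6, e7, e8]

theorem xc_tr {w : V} (hw : Ev w) (r s : ℤ) (z : V) (S : Set V) :
    Xc r s (z + w) S ↔ Xc r s z (tr w ⁻¹' S) := by
  have hB : ∀ v : V, v ∈ Sq z r ↔ tr w v ∈ Sq (z + w) r := by
    intro v
    simp only [Sq, Box, Set.mem_setOf_eq, tr, Prod.fst_add, Prod.snd_add]
    constructor
    · rintro ⟨⟨h1, h2⟩, h3, h4⟩
      exact ⟨⟨by omega, by omega⟩, by omega, by omega⟩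
    · rintro ⟨⟨h1, h2⟩, h3, h4⟩
      exact ⟨⟨by omega, by omega⟩, by omega, by omega⟩
  have hc : ∀ u v : V, Conn (tr w ⁻¹' S ∩ Sq z r) u v ↔ Conn (S ∩ Sq (z + w) r) (tr w u) (tr w v) :=
    fun u v => sym_conn_tr hw hB
  constructor
  · rintro ⟨u1, u2, u3, u4, h1, h2, h3, h4, h5, h6, h7⟩
    simp only [Prod.fst_add, Prod.snd_add] at h1 h2 h3 h4
    refine ⟨u1 - w, u2 - w, u3 - w, u4 - w, ?_, ?_, ?_, ?_, ?_, ?_, ?_⟩
    · simp only [Prod.fst_sub, Prod.snd_sub]; omega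
    · simp only [Prod.fst_sub, Prod.snd_sub]; omega
    · simp only [Prod.fst_sub, Prod.snd_sub]; omega
    · simp only [Prod.fst_sub, Prod.snd_sub]; omega
    · rw [hc, sym_tr_sub, sym_tr_sub]; exact h5
    · rw [hc, sym_tr_sub, sym_tr_sub]; exact h6
    · rw [hc, sym_tr_sub, sym_tr_sub]; exact h7
  · rintro ⟨u1, u2, u3, u4, h1, h2, h3, h4, h5, h6, h7⟩
    rw [hc] at h5 h6 h7
    refine ⟨tr w u1, tr w u2, tr w u3, tr w u4, ?_, ?_, ?_, ?_, h5, h6, h7⟩
    · simp only [tr, Prod.fst_add, Prod.snd_add]; omega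
    · simp only [tr, Prod.fst_add, Prod.snd_add]; omega
    · simp only [tr, Prod.fst_add, Prod.snd_add]; omega
    · simp only [tr, Prod.fst_add, Prod.snd_add]; omega

end NU53
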