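import Pool.Agent.LibNU53.T2
import Pool.Agent.LibNU53.Sym

/-! Row F1b. `r = 2h`; window `[t1,t3] ⊆ [y0-s, y0+s]`; the `Xc`-square has centre `(h,y0)` and half-side
`h`, it is `[0,r] × [y0-h,y0+h] ⊆ [-r,r]×[-r,r] ∩ [0,2r]×[-r,r]`.
`M v = (r - v.1, v.2)` is the reflection which exchanges the squares `[-r,r]²` and `[0,2r]×[-r,r]`.
PLAN. The `Xc`-cluster contains a path between its right-top window (`v.1 = r`, `v.2 ≥ y0+s`) and its
right-bottom window, and its left-top and left-bottom windows (`v.1 = 0`). The path of `Hc r t1 t2 S`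
goes from `{-r}` to `(r, y)`, `y ∈ [t1,t2]`: `t2` in `[-r,r]²`. The mirrored path goes from
`{2r}` to `(0,y)`: `t2'` in `[0,2r]×[-r,r]`. So a vertex with abscissa `-r` is connected to a vertex with
abscissa `2r` in `S ∩ [-r,2r]×[-r,r]`. MEDIUM. -/

namespace NU53

private theorem f1b_map {T X : Set V} (τ : V → V) (hτ : ∀ u v, Adj u v → Adj (τ u) (τ v))
    (hX : ∀ w ∈ T, τ w ∈ X) {u v : V} (h : Conn T u v) : Conn X (τ u) (τ v) := by
  induction h with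
  | refl h => exact Conn.refl (hX _ h)
  | tail _ ha hm ih => exact Conn.tail ih (hτ _ _ ha) (hX _ hm)

private theorem f1b_adj {r h : ℤ} (hr : r = 2 * h) (u v : V) (huv : Adj u v) :
    Adj (r - u.1, u.2) (r - v.1, v.2) := by
  rcases huv with ⟨h1, h2⟩ | ⟨h1, h2⟩ | ⟨⟨k, hk⟩, h1, h2⟩
  · refine Or.inl ⟨h1, ?_⟩
    change r - v.1 = r - u.1 + 1 ∨ r - u.1 = r - v.1 + 1
    omega
  · refine Or.inr (Or.inl ⟨?_, h2⟩)
    change r - v.1 = r - u.1
    rw [h1]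
  · refine Or.inr (Or.inr ⟨⟨h - u.1 + k, ?_⟩, ?_, h2⟩)
    · change r - u.1 + u.2 = h - u.1 + k + (h - u.1 + k)
      omega
    · change r - v.1 = r - u.1 + 1 ∨ r - u.1 = r - v.1 + 1
      omega

theorem f1b {r h s t1 t3 y0 : ℤ} (hr : r = 2 * h) (hh : 0 < h) (hs : 0 ≤ s) (hy : |y0| + h ≤ r)
    (ht1 : y0 - s ≤ t1) (ht2 : t3 ≤ y0 + s) {S : Set V} (hX : Xc h s (h, y0) S)
    (hH : Hc r t1 t3 S) (hH' : Hc r t1 t3 ((fun v : V => (r - v.1, v.2)) ⁻¹' S)) :
    LR (-r) (2 * r) (-r) r S := by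
  have hy1 : y0 ≤ |y0| := le_abs_self y0
  have hy2 : -y0 ≤ |y0| := neg_le_abs y0
  obtain ⟨u1, u2, u3, u4, ⟨h11, h12⟩, ⟨h21, h22⟩, ⟨h31, h32⟩, ⟨h41, h42⟩, k12, k13, k14⟩ := hX
  obtain ⟨u, v, hu, hv, hv1, hv2, hc⟩ := hH
  obtain ⟨u', v', hu', hv', hv1', hv2', hc'⟩ := hH'
  change u1.1 = h - h at h11
  change y0 + s ≤ u1.2 at h12
  change u2.1 = h - h at h21
  change u2.2 ≤ y0 - s at h22
  change u3.1 = h + h at h31
  change y0 + s ≤ u3.2 at h32
  change u4.1 = h + h at h41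
  change u4.2 ≤ y0 - s at h42
  have hs1 : S ∩ Sq (h, y0) h ⊆ S ∩ Box (-r) r (-r) r := by
    refine Set.inter_subset_inter_right _ (Box_subset ?_ ?_ ?_ ?_)
    · change -r ≤ h - h
      omega
    · change h + h ≤ r
      omega
    · change -r ≤ y0 - h
      omega
    · change y0 + h ≤ r
      omega
  have hs2 : S ∩ Sq (h, y0) h ⊆ S ∩ Box 0 (2 * r) (-r) r := by
    refine Set.inter_subset_inter_right _ (Box_subset ?_ ?_ ?_ ?_)
    · change 0 ≤ h - h
      omega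
    · change h + h ≤ 2 * r
      omega
    · change -r ≤ y0 - h
      omega
    · change y0 + h ≤ r
      omega
  have hs3 : S ∩ Box (-r) r (-r) r ⊆ S ∩ Box (-r) (2 * r) (-r) r :=
    Set.inter_subset_inter_right _ (Box_subset le_rfl (by omega) le_rfl le_rfl)
  have hs4 : S ∩ Box 0 (2 * r) (-r) r ⊆ S ∩ Box (-r) (2 * r) (-r) r :=
    Set.inter_subset_inter_right _ (Box_subset (by omega) le_rfl le_rfl le_rfl)
  have c1 : Conn (S ∩ Box (-r) r (-r) r) u u3 :=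
    t2 hu hv hc (by omega) (by omega : u4.1 = r) (Conn.trans (k13.mono hs1).symm (k14.mono hs1))
      (by omega) (by omega)
  have hm : Conn (S ∩ Box 0 (2 * r) (-r) r) (r - u'.1, u'.2) (r - v'.1, v'.2) := by
    refine f1b_map (fun v : V => (r - v.1, v.2)) (f1b_adj hr) (fun w hw => ?_) hc'
    obtain ⟨hw1, ⟨hw2, hw3⟩, hw4, hw5⟩ := hw
    refine ⟨hw1, ⟨?_, ?_⟩, hw4, hw5⟩
    · change 0 ≤ r - w.1
      omega
    · change r - w.1 ≤ 2 * r
      omega
  have c2 : Conn (S ∩ Box 0 (2 * r) (-r) r) (r - u'.1, u'.2) u1 := by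
    refine t2' ?_ ?_ hm (by omega : u1.1 = 0) (by omega : u2.1 = 0) (k12.mono hs2) ?_ ?_
    · change r - u'.1 = 2 * r
      omega
    · change r - v'.1 = 0
      omega
    · change u2.2 ≤ v'.2
      omega
    · change v'.2 ≤ u1.2
      omega
  refine ⟨u, (r - u'.1, u'.2), hu, ?_, ?_⟩
  · change r - u'.1 = 2 * r
    omega
  · exact Conn.trans (c1.mono hs3) (Conn.trans ((k13.mono hs1).mono hs3).symm (c2.mono hs4).symm)

end NU53
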