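import Pool.Agent.LibNU53.HexU

/-! Row T1. A left-right path and a bottom-top path of `S` in the same rectangle are connected in `S`.
PLAN. `S1 := {w | Conn (S ∩ Box a b c d) u w}`. `LR a b c d S1` holds (the path from `u` to `v` stays
in `S1`). If `¬ Conn (S ∩ Box) u p` then no vertex of the path from `p` to `q` is in `S1`, so
`TB a b c d S1ᶜ`, contradiction with `hex_unique`. SHORT/MEDIUM. -/

namespace NU53

private theorem t1_restrict {T X : Set V} {u v : V} (h : Conn T u v)
    (hX : ∀ w, Conn T u w → w ∈ X) : Conn X u v := by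
  induction h with
  | refl h => exact Conn.refl (hX _ (Conn.refl h))
  | tail hc ha hm ih => exact Conn.tail ih ha (hX _ (Conn.tail hc ha hm))

theorem t1 {a b c d : ℤ} {S : Set V} {u v p q : V} (hu : u.1 = a) (hv : v.1 = b)
    (h1 : Conn (S ∩ Box a b c d) u v) (hp : p.2 = c) (hq : q.2 = d)
    (h2 : Conn (S ∩ Box a b c d) p q) : Conn (S ∩ Box a b c d) u p := by
  by_contra hn
  refine hex_unique (a := a) (b := b) (c := c) (d := d) {w | Conn (S ∩ Box a b c d) u w}
    ⟨u, v, hu, hv, t1_restrict h1 fun w hw => ⟨hw, hw.right_mem.2⟩⟩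
    ⟨p, q, hp, hq, t1_restrict h2 fun w hw => ⟨fun h3 => hn ?_, hw.right_mem.2⟩⟩
  exact Conn.trans h3 hw.symm

end NU53
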