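import Pool.Agent.LibNU53.T6
import Pool.Agent.LibNU53.T1
import Pool.Agent.LibNU53.Sym

/-! Row F2t. Two mirrored paths into a small window of the line `{x = r}` are joined by a circuit around
the window. `M v = (2r - v.1, v.2)`.
PLAN. The path of `Hc r 0 (2^e') S` in `[-r,r]²` ends in `Sq (r,0) (2^e')` and starts at distance
`2r ≥ 3·2^e'`: by `t6` (from its end) a piece of it crosses one of the four rectangles the short way, so by
`t1` it is connected to the long crossing of this rectangle given by `Circ`. The same for the mirrored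
path in `[r,3r]×[-r,r]`. The four long crossings of `Circ` are connected to each other (corner squares:
`t5x`, `t5y`, `t1`). Everything is in `S ∩ [-r,3r]×[-r,r]`, as `3·2^e' ≤ r`. MEDIUM/STRONG.
The first lemma (the four crossings of a circuit are in one cluster) is useful elsewhere. -/

namespace NU53

/-- A horizontal and a vertical path which cross a rectangle are connected. -/
theorem F2t_join {a b c d : ℤ} {S Λ : Set V} (hab : a ≤ b) (hcd : c ≤ d) (hΛ : Box a b c d ⊆ Λ)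
    {u v p q : V} (h1 : Conn (S ∩ Λ ∩ {w | c ≤ w.2 ∧ w.2 ≤ d}) u v) (hu : u.1 ≤ a) (hv : b ≤ v.1)
    (h2 : Conn (S ∩ Λ ∩ {w | a ≤ w.1 ∧ w.1 ≤ b}) p q) (hp : p.2 ≤ c) (hq : d ≤ q.2) :
    Conn (S ∩ Λ) u p := by
  obtain ⟨u', v', hu', hv', k1, k2, _⟩ := t5x hab h1 hu hv
  obtain ⟨p', q', hp', hq', k3, k4, _⟩ := t5y hcd h2 hp hq
  have k1' : Conn (S ∩ Box a b c d) u' v' := k1.mono (by
    rintro w ⟨⟨⟨hS, _⟩, x1, x2⟩, x3, x4⟩
    exact ⟨hS, ⟨x3, x4⟩, x1, x2⟩)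
  have k3' : Conn (S ∩ Box a b c d) p' q' := k3.mono (by
    rintro w ⟨⟨⟨hS, _⟩, x1, x2⟩, x3, x4⟩
    exact ⟨hS, ⟨x1, x2⟩, x3, x4⟩)
  have k5 := t1 hu' hv' k1' hp' hq' k3'
  exact ((k2.mono Set.inter_subset_left).trans (k5.mono (Set.inter_subset_inter_right _ hΛ))).trans
    (k4.mono Set.inter_subset_left).symm

/-- All long crossings of a circuit are in one cluster: for any vertex `p` on a long crossing... -/
theorem circ_cluster {e : ℕ} {x : V} {S : Set V} (hc : Circ e x S) :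
    ∃ o : V, ∀ u v : V,
      ((u.1 = x.1 + 2 ^ e ∧ v.1 = x.1 + 3 * 2 ^ e ∧ Conn (S ∩ Box (x.1 + 2 ^ e)
          (x.1 + 3 * 2 ^ e) (x.2 - 3 * 2 ^ e) (x.2 + 3 * 2 ^ e)) u v) ∨
        (u.1 = x.1 - 3 * 2 ^ e ∧ v.1 = x.1 - 2 ^ e ∧ Conn (S ∩ Box (x.1 - 3 * 2 ^ e)
          (x.1 - 2 ^ e) (x.2 - 3 * 2 ^ e) (x.2 + 3 * 2 ^ e)) u v) ∨
        (u.2 = x.2 + 2 ^ e ∧ v.2 = x.2 + 3 * 2 ^ e ∧ Conn (S ∩ Box (x.1 - 3 * 2 ^ e)
          (x.1 + 3 * 2 ^ e) (x.2 + 2 ^ e) (x.2 + 3 * 2 ^ e)) u v) ∨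
        (u.2 = x.2 - 3 * 2 ^ e ∧ v.2 = x.2 - 2 ^ e ∧ Conn (S ∩ Box (x.1 - 3 * 2 ^ e)
          (x.1 + 3 * 2 ^ e) (x.2 - 3 * 2 ^ e) (x.2 - 2 ^ e)) u v)) →
      Conn (S ∩ Sq x (3 * 2 ^ e)) u o := by
  obtain ⟨⟨aL, aR, ha1, ha2, hA⟩, ⟨bL, bR, hb1, hb2, hB⟩, ⟨cB, cT, hc1, hc2, hC⟩,
    ⟨dB, dT, hd1, hd2, hD⟩⟩ := hc
  have hR : (0 : ℤ) < 2 ^ e := by positivity
  generalize (2 : ℤ) ^ e = R at *
  have jAD : Conn (S ∩ Sq x (3 * R)) aL dB := by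
    refine F2t_join (a := x.1 + R) (b := x.1 + 3 * R) (c := x.2 + R) (d := x.2 + 3 * R)
      (v := aR) (q := dT) (by omega) (by omega) ?_ (hA.mono ?_) (by omega) (by omega)
      (hD.mono ?_) (by omega) (by omega)
    · rintro w ⟨⟨x1, x2⟩, x3, x4⟩
      exact ⟨⟨by omega, by omega⟩, by omega, by omega⟩
    · rintro w ⟨hS, ⟨x1, x2⟩, x3, x4⟩
      exact ⟨⟨hS, ⟨by omega, by omega⟩, by omega, by omega⟩, by omega, by omega⟩
    · rintro w ⟨hS, ⟨x1, x2⟩, x3, x4⟩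
      exact ⟨⟨hS, ⟨by omega, by omega⟩, by omega, by omega⟩, by omega, by omega⟩
  have jAC : Conn (S ∩ Sq x (3 * R)) aL cB := by
    refine F2t_join (a := x.1 - 3 * R) (b := x.1 - R) (c := x.2 + R) (d := x.2 + 3 * R)
      (v := aR) (q := cT) (by omega) (by omega) ?_ (hA.mono ?_) (by omega) (by omega)
      (hC.mono ?_) (by omega) (by omega)
    · rintro w ⟨⟨x1, x2⟩, x3, x4⟩
      exact ⟨⟨by omega, by omega⟩, by omega, by omega⟩
    · rintro w ⟨hS, ⟨x1, x2⟩, x3, x4⟩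
      exact ⟨⟨hS, ⟨by omega, by omega⟩, by omega, by omega⟩, by omega, by omega⟩
    · rintro w ⟨hS, ⟨x1, x2⟩, x3, x4⟩
      exact ⟨⟨hS, ⟨by omega, by omega⟩, by omega, by omega⟩, by omega, by omega⟩
  have jBD : Conn (S ∩ Sq x (3 * R)) bL dB := by
    refine F2t_join (a := x.1 + R) (b := x.1 + 3 * R) (c := x.2 - 3 * R) (d := x.2 - R)
      (v := bR) (q := dT) (by omega) (by omega) ?_ (hB.mono ?_) (by omega) (by omega)
      (hD.mono ?_) (by omega) (by omega)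
    · rintro w ⟨⟨x1, x2⟩, x3, x4⟩
      exact ⟨⟨by omega, by omega⟩, by omega, by omega⟩
    · rintro w ⟨hS, ⟨x1, x2⟩, x3, x4⟩
      exact ⟨⟨hS, ⟨by omega, by omega⟩, by omega, by omega⟩, by omega, by omega⟩
    · rintro w ⟨hS, ⟨x1, x2⟩, x3, x4⟩
      exact ⟨⟨hS, ⟨by omega, by omega⟩, by omega, by omega⟩, by omega, by omega⟩
  refine ⟨dB, ?_⟩
  rintro u v (⟨h1, h2, h3⟩ | ⟨h1, h2, h3⟩ | ⟨h1, h2, h3⟩ | ⟨h1, h2, h3⟩)
  · refine (t1 h1 h2 h3 hd1 hd2 hD).mono ?_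
    rintro w ⟨hS, ⟨x1, x2⟩, x3, x4⟩
    exact ⟨hS, ⟨by omega, by omega⟩, by omega, by omega⟩
  · have k : Conn (S ∩ Sq x (3 * R)) u cB := (t1 h1 h2 h3 hc1 hc2 hC).mono (by
      rintro w ⟨hS, ⟨x1, x2⟩, x3, x4⟩
      exact ⟨hS, ⟨by omega, by omega⟩, by omega, by omega⟩)
    exact (k.trans jAC.symm).trans jAD
  · have k : Conn (S ∩ Sq x (3 * R)) aL u := (t1 ha1 ha2 hA h1 h2 h3).mono (by
      rintro w ⟨hS, ⟨x1, x2⟩, x3, x4⟩
      exact ⟨hS, ⟨by omega, by omega⟩, by omega, by omega⟩)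
    exact k.symm.trans jAD
  · have k : Conn (S ∩ Sq x (3 * R)) bL u := (t1 hb1 hb2 hB h1 h2 h3).mono (by
      rintro w ⟨hS, ⟨x1, x2⟩, x3, x4⟩
      exact ⟨hS, ⟨by omega, by omega⟩, by omega, by omega⟩)
    exact k.symm.trans jBD

theorem f2t {r : ℤ} {e' : ℕ} (h3 : 3 * 2 ^ e' ≤ r) {S : Set V} (hc : Circ e' (r, 0) S)
    (h1 : Hc r 0 (2 ^ e') S) (h2 : Hc r 0 (2 ^ e') ((fun v : V => (2 * r - v.1, v.2)) ⁻¹' S)) :
    LR (-r) (3 * r) (-r) r S := by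
  have hR : (0 : ℤ) < 2 ^ e' := by positivity
  obtain ⟨o, ho⟩ := circ_cluster hc
  obtain ⟨u, v, hu, hv, v1, v2, huv⟩ := h1
  obtain ⟨u', v', hu', hv', v1', v2', huv'⟩ := h2
  -- the mirrored path
  have hadj : ∀ a b : V, Adj a b ↔ Adj ((fun v : V => (2 * r - v.1, v.2)) a)
      ((fun v : V => (2 * r - v.1, v.2)) b) := by
    intro a b
    have hw : Ev ((2 * r, 0) : V) := ⟨r, by dsimp only; ring⟩
    have e1 : ∀ c : V, tr (2 * r, 0) (fx c) = (2 * r - c.1, c.2) := by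
      intro c
      refine Prod.ext ?_ ?_
      · show -c.1 + 2 * r = 2 * r - c.1
        ring
      · show c.2 + 0 = c.2
        ring
    rw [adj_fx a b, adj_tr hw (fx a) (fx b), e1, e1]
  have hinv : Function.Involutive (fun v : V => (2 * r - v.1, v.2)) := by
    intro c
    refine Prod.ext ?_ rfl
    show 2 * r - (2 * r - c.1) = c.1
    ring
  have hset : (fun v : V => (2 * r - v.1, v.2)) ⁻¹' S ∩ Box (-r) r (-r) r ⊆
      (fun v : V => (2 * r - v.1, v.2)) ⁻¹' (S ∩ Box r (3 * r) (-r) r) := by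
    rintro w ⟨hS, ⟨x1, x2⟩, x3, x4⟩
    refine ⟨hS, ⟨?_, ?_⟩, ?_, ?_⟩ <;> dsimp only <;> omega
  have hM : Conn (S ∩ Box r (3 * r) (-r) r) (2 * r - u'.1, u'.2) (2 * r - v'.1, v'.2) :=
    (conn_iff hinv.injective hadj hinv.surjective).1 (huv'.mono hset)
  -- inclusions in the big box
  have hsq : S ∩ Sq ((r, 0) : V) (3 * 2 ^ e') ⊆ S ∩ Box (-r) (3 * r) (-r) r := by
    rintro w ⟨hS, ⟨x1, x2⟩, x3, x4⟩
    dsimp only at x1 x2 x3 x4
    exact ⟨hS, ⟨by omega, by omega⟩, by omega, by omega⟩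
  have hb1 : S ∩ Box (-r) r (-r) r ⊆ S ∩ Box (-r) (3 * r) (-r) r := by
    rintro w ⟨hS, ⟨x1, x2⟩, x3, x4⟩
    exact ⟨hS, ⟨by omega, by omega⟩, by omega, by omega⟩
  have hb2 : S ∩ Box r (3 * r) (-r) r ⊆ S ∩ Box (-r) (3 * r) (-r) r := by
    rintro w ⟨hS, ⟨x1, x2⟩, x3, x4⟩
    exact ⟨hS, ⟨by omega, by omega⟩, by omega, by omega⟩
  have key : ∀ (T : Set V) (a b : V), T ⊆ S → T ⊆ S ∩ Box (-r) (3 * r) (-r) r → Conn T a b →
      a ∈ Sq ((r, 0) : V) (2 ^ e') → 3 * 2 ^ e' ≤ |b.1 - r| →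
      Conn (S ∩ Box (-r) (3 * r) (-r) r) a o := by
    intro T a b hTS hTB hab ha hb
    obtain ⟨p, q, hp, _, hpq⟩ := t6 (x := ((r, 0) : V)) hR hab ha (Or.inl hb)
    have hm : ∀ B : Set V, T ∩ B ⊆ S ∩ B := fun B => Set.inter_subset_inter_left _ hTS
    have hpo : Conn (S ∩ Sq ((r, 0) : V) (3 * 2 ^ e')) p o := by
      apply ho p q
      rcases hpq with ⟨k1, k2, k3⟩ | ⟨k1, k2, k3⟩ | ⟨k1, k2, k3⟩ | ⟨k1, k2, k3⟩
      · exact Or.inl ⟨k1, k2, k3.mono (hm _)⟩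
      · exact Or.inr (Or.inl ⟨k1, k2, k3.mono (hm _)⟩)
      · exact Or.inr (Or.inr (Or.inl ⟨k1, k2, k3.mono (hm _)⟩))
      · exact Or.inr (Or.inr (Or.inr ⟨k1, k2, k3.mono (hm _)⟩))
    exact (hp.mono hTB).trans (hpo.mono hsq)
  have hr : 0 < r := by omega
  have c1 : Conn (S ∩ Box (-r) (3 * r) (-r) r) v o := by
    refine key _ v u Set.inter_subset_left hb1 huv.symm ?_ ?_
    · exact ⟨⟨by dsimp only; omega, by dsimp only; omega⟩, by dsimp only; omega,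
        by dsimp only; omega⟩
    · rw [hu, abs_of_nonpos (by omega)]
      omega
  have c2 : Conn (S ∩ Box (-r) (3 * r) (-r) r) (2 * r - v'.1, v'.2) o := by
    refine key _ _ (2 * r - u'.1, u'.2) Set.inter_subset_left hb2 hM.symm ?_ ?_
    · exact ⟨⟨by dsimp only; omega, by dsimp only; omega⟩, by dsimp only; omega,
        by dsimp only; omega⟩
    · dsimp only
      rw [hu', abs_of_nonneg (by omega)]
      omega
  refine ⟨u, (2 * r - u'.1, u'.2), hu, by dsimp only; omega, ?_⟩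
  exact ((huv.mono hb1).trans c1).trans (c2.symm.trans (hM.symm.mono hb2))

end NU53
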