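import Pool.Agent.LibNU53.T7
import Pool.Agent.LibNU53.T1

/-! Row F3t. A black circuit around `(r,0)` turns a black path from the left side of `[-r,r]²` into the
window `{r}×[0,t]` (`t ≤ 2^e'`) into a black path to `{r} × [2^e', 3·2^e']`.
PLAN (`ρ = 2^e'`). Inside `B = [-r,r]²`: the left rectangle `[r-3ρ,r-ρ]×[-3ρ,3ρ]` has a TB crossing `λ`
(it is inside `B` because `3ρ ≤ r`). The top rectangle crossing, cut at the line `x = r` (`t5x`), gives a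
LR crossing `τ` of `[r-3ρ,r]×[ρ,3ρ]`; the bottom one a LR crossing `β` of `[r-3ρ,r]×[-3ρ,-ρ]`.
`λ` meets `τ` and `β` (corner squares `[r-3ρ,r-ρ]×[ρ,3ρ]`, ...: `t5`, `t1`), connections inside `S ∩ B`.
The path of `Hc`, from its end (in `Sq (r,0) ρ`) to its start (distance `2r ≥ 3ρ`), stays in `B`; `t6`
applied to `S ∩ B` gives a crossing of one of the four rectangles the short way inside `B`; the right
rectangle is impossible (`x ≥ r+ρ > r`); in the other cases `t1` gives the connection to `λ`, `τ` or `β`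
(in the top case restrict to `[r-3ρ,r]×[ρ,3ρ]`). So the left side is connected to the end `(r,y)` of `τ`,
`ρ ≤ y ≤ 3ρ ≤ r`. MEDIUM/STRONG. `f3_white` = `block'`. -/

namespace NU53

private lemma f3t_meet {S B : Set V} {a b c d a' b' c' d' : ℤ} {x1 x2 y1 y2 : V}
    (h1 : Conn (S ∩ Box a b c d) x1 x2) (hx1 : x1.1 = a) (hx2 : x2.1 = b)
    (h2 : Conn (S ∩ Box a' b' c' d') y1 y2) (hy1 : y1.2 = c') (hy2 : y2.2 = d')
    (ha : a ≤ a') (hab : a' ≤ b') (hb : b' ≤ b) (hc : c' ≤ c) (hcd : c ≤ d) (hd : d ≤ d')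
    (hB1 : Box a b c d ⊆ B) (hB2 : Box a' b' c' d' ⊆ B) : Conn (S ∩ B) x1 y1 := by
  obtain ⟨u', v', hu', hv', hc1, hl1, -⟩ := t5x hab h1 (by omega) (by omega)
  obtain ⟨p', q', hp', hq', hc2, hl2, -⟩ := t5y hcd h2 (by omega) (by omega)
  have e1 : Conn (S ∩ Box a' b' c d) u' v' := by
    refine hc1.mono ?_
    rintro w ⟨⟨hw1, hw2⟩, hw3⟩
    exact ⟨hw1, hw3, hw2.2⟩
  have e2 : Conn (S ∩ Box a' b' c d) p' q' := by
    refine hc2.mono ?_
    rintro w ⟨⟨hw1, hw2⟩, hw3⟩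
    exact ⟨hw1, hw2.1, hw3⟩
  have e3 := t1 hu' hv' e1 hp' hq' e2
  have i1 : S ∩ Box a b c d ⊆ S ∩ B := Set.inter_subset_inter_right _ hB1
  have i2 : S ∩ Box a' b' c' d' ⊆ S ∩ B := Set.inter_subset_inter_right _ hB2
  have i3 : S ∩ Box a' b' c d ⊆ S ∩ B :=
    Set.inter_subset_inter_right _ ((Box_subset ha hb le_rfl le_rfl).trans hB1)
  exact (hl1.mono i1).trans ((e3.mono i3).trans (hl2.mono i2).symm)

theorem f3_black {r t : ℤ} {e' : ℕ} (h3 : 3 * 2 ^ e' ≤ r) (h0 : 0 ≤ t) (ht : t ≤ 2 ^ e')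
    {S : Set V} (hc : Circ e' (r, 0) S) (h : Hc r 0 t S) : Hc r t r S := by
  have hpos : (0 : ℤ) < 2 ^ e' := by positivity
  have c1 : LR (r - 3 * 2 ^ e') (r + 3 * 2 ^ e') (0 + 2 ^ e') (0 + 3 * 2 ^ e') S := hc.1
  have c2 : LR (r - 3 * 2 ^ e') (r + 3 * 2 ^ e') (0 - 3 * 2 ^ e') (0 - 2 ^ e') S := hc.2.1
  have c3 : TB (r - 3 * 2 ^ e') (r - 2 ^ e') (0 - 3 * 2 ^ e') (0 + 3 * 2 ^ e') S := hc.2.2.1
  obtain ⟨ρ, hρ⟩ : ∃ ρ : ℤ, ρ = 2 ^ e' := ⟨_, rfl⟩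
  rw [← hρ] at h3 ht hpos c1 c2 c3
  rw [zero_add, zero_add] at c1
  rw [zero_sub, zero_sub] at c2
  rw [zero_sub, zero_add] at c3
  -- the top crossing, cut at `x = r`
  obtain ⟨a1, b1, ha1, hb1, hab1⟩ := c1
  obtain ⟨τ1, τ2, hτ1, hτ2, hτ0, -, -⟩ := t5x (a' := r - 3 * ρ) (b' := r) (by omega) hab1
    (by omega) (by omega)
  have hτ : Conn (S ∩ Box (r - 3 * ρ) r ρ (3 * ρ)) τ1 τ2 := by
    refine hτ0.mono ?_
    rintro w ⟨⟨hw1, hw2⟩, hw3⟩
    exact ⟨hw1, hw3, hw2.2⟩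
  obtain ⟨a2, b2, ha2, hb2, hab2⟩ := c2
  obtain ⟨β1, β2, hβ1, hβ2, hβ0, -, -⟩ := t5x (a' := r - 3 * ρ) (b' := r) (by omega) hab2
    (by omega) (by omega)
  have hβ : Conn (S ∩ Box (r - 3 * ρ) r (-(3 * ρ)) (-ρ)) β1 β2 := by
    refine hβ0.mono ?_
    rintro w ⟨⟨hw1, hw2⟩, hw3⟩
    exact ⟨hw1, hw3, hw2.2⟩
  obtain ⟨l1, l2, hl1, hl2, hl⟩ := c3
  -- inclusions in the big square
  have b1B : Box (r - 3 * ρ) r ρ (3 * ρ) ⊆ Box (-r) r (-r) r :=
    Box_subset (by omega) (by omega) (by omega) (by omega)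
  have b2B : Box (r - 3 * ρ) r (-(3 * ρ)) (-ρ) ⊆ Box (-r) r (-r) r :=
    Box_subset (by omega) (by omega) (by omega) (by omega)
  have b3B : Box (r - 3 * ρ) (r - ρ) (-(3 * ρ)) (3 * ρ) ⊆ Box (-r) r (-r) r :=
    Box_subset (by omega) (by omega) (by omega) (by omega)
  have m1 : Conn (S ∩ Box (-r) r (-r) r) τ1 l1 :=
    f3t_meet hτ hτ1 hτ2 hl hl1 hl2 (by omega) (by omega) (by omega) (by omega) (by omega) (by omega)
      b1B b3B
  have m2 : Conn (S ∩ Box (-r) r (-r) r) β1 l1 :=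
    f3t_meet hβ hβ1 hβ2 hl hl1 hl2 (by omega) (by omega) (by omega) (by omega) (by omega) (by omega)
      b2B b3B
  -- the path
  obtain ⟨u, v, hu, hv, hv1, hv2, huv⟩ := h
  have hvS : v ∈ Sq ((r, 0) : V) ρ := by
    refine ⟨⟨?_, ?_⟩, ?_, ?_⟩
    · show r - ρ ≤ v.1
      omega
    · show v.1 ≤ r + ρ
      omega
    · show 0 - ρ ≤ v.2
      omega
    · show v.2 ≤ 0 + ρ
      omega
  have hfar : 3 * ρ ≤ |u.1 - ((r, 0) : V).1| ∨ 3 * ρ ≤ |u.2 - ((r, 0) : V).2| := by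
    left
    show 3 * ρ ≤ |u.1 - r|
    rw [hu]
    have h5 : r + r ≤ |-r - r| := by
      rw [show -r - r = -(r + r) by ring, abs_neg]
      exact le_abs_self _
    omega
  obtain ⟨p, q, hvp, hvq, hcases⟩ := t6 hpos huv.symm hvS hfar
  have hvl : Conn (S ∩ Box (-r) r (-r) r) v l1 := by
    rcases hcases with ⟨hp, hq, hpq⟩ | ⟨hp, hq, hpq⟩ | ⟨hp, hq, hpq⟩ | ⟨hp, hq, hpq⟩
    · exfalso
      have h5 : p.1 = r + ρ := hp
      have h6 := hvp.right_mem.2.1.2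
      omega
    · have hp' : p.1 = r - 3 * ρ := hp
      have hq' : q.1 = r - ρ := hq
      have hpq' : Conn (S ∩ Box (r - 3 * ρ) (r - ρ) (-(3 * ρ)) (3 * ρ)) p q := by
        refine hpq.mono ?_
        rintro w ⟨⟨hw1, hw2⟩, hw3, hw4⟩
        refine ⟨hw1, hw3, ?_, ?_⟩
        · have h7 : (0 : ℤ) - 3 * ρ ≤ w.2 := hw4.1
          omega
        · have h7 : w.2 ≤ (0 : ℤ) + 3 * ρ := hw4.2
          omega
      have h8 := t1 hp' hq' hpq' hl1 hl2 hl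
      exact hvp.trans (h8.mono (Set.inter_subset_inter_right _ b3B))
    · have hp' : p.2 = ρ := by
        have h5 : p.2 = 0 + ρ := hp
        omega
      have hq' : q.2 = 3 * ρ := by
        have h5 : q.2 = 0 + 3 * ρ := hq
        omega
      have hpq' : Conn (S ∩ Box (r - 3 * ρ) r ρ (3 * ρ)) p q := by
        refine hpq.mono ?_
        rintro w ⟨⟨hw1, hw2⟩, hw3, hw4⟩
        refine ⟨hw1, ⟨hw3.1, hw2.1.2⟩, ?_, ?_⟩
        · have h7 : (0 : ℤ) + ρ ≤ w.2 := hw4.1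
          omega
        · have h7 : w.2 ≤ (0 : ℤ) + 3 * ρ := hw4.2
          omega
      have h8 := t1 hτ1 hτ2 hτ hp' hq' hpq'
      exact (hvp.trans (h8.mono (Set.inter_subset_inter_right _ b1B)).symm).trans m1
    · have hp' : p.2 = -(3 * ρ) := by
        have h5 : p.2 = 0 - 3 * ρ := hp
        omega
      have hq' : q.2 = -ρ := by
        have h5 : q.2 = 0 - ρ := hq
        omega
      have hpq' : Conn (S ∩ Box (r - 3 * ρ) r (-(3 * ρ)) (-ρ)) p q := by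
        refine hpq.mono ?_
        rintro w ⟨⟨hw1, hw2⟩, hw3, hw4⟩
        refine ⟨hw1, ⟨hw3.1, hw2.1.2⟩, ?_, ?_⟩
        · have h7 : (0 : ℤ) - 3 * ρ ≤ w.2 := hw4.1
          omega
        · have h7 : w.2 ≤ (0 : ℤ) - ρ := hw4.2
          omega
      have h8 := t1 hβ1 hβ2 hβ hp' hq' hpq'
      exact (hvp.trans (h8.mono (Set.inter_subset_inter_right _ b2B)).symm).trans m2
  have hτb := hτ.right_mem.2.2
  refine ⟨u, τ2, hu, hτ2, by omega, by omega, ?_⟩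
  exact huv.trans (hvl.trans (m1.symm.trans (hτ.mono (Set.inter_subset_inter_right _ b1B))))

theorem f3_white {r t : ℤ} {e' : ℕ} (h3 : 3 * 2 ^ e' ≤ r) (ht : t ≤ 2 ^ e')
    {S : Set V} (hc : Circ e' (r, 0) Sᶜ) (h : Hc r 0 t S) : False := by
  have hpos : (0 : ℤ) < 2 ^ e' := by positivity
  obtain ⟨u, v, hu, hv, hv1, hv2, huv⟩ := h
  refine block' hc (huv.symm.mono Set.inter_subset_left) ?_ ?_
  · refine ⟨⟨?_, ?_⟩, ?_, ?_⟩
    · show r - 2 ^ e' ≤ v.1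
      omega
    · show v.1 ≤ r + 2 ^ e'
      omega
    · show 0 - 2 ^ e' ≤ v.2
      omega
    · show v.2 ≤ 0 + 2 ^ e'
      omega
  · left
    show 3 * 2 ^ e' ≤ |u.1 - r|
    rw [hu]
    have h5 : r + r ≤ |-r - r| := by
      rw [show -r - r = -(r + r) by ring, abs_neg]
      exact le_abs_self _
    omega

end NU53
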