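import Pool.Agent.LibNU53.T1
import Pool.Agent.LibNU53.T5

/-! Row Glue. Four crossings of `3r × 2r` rectangles shifted by `r`, and three square crossings, give a
crossing of `6r × 2r`. PLAN. Consecutive LR crossings both cross the square between them, whose TB
crossing joins them (`t5x`, `t1`). SHORT/MEDIUM. -/

namespace NU53

/-- A left-right crossing of a long rectangle is connected to a bottom-top crossing of a part of it. -/
private lemma glue_aux {S T : Set V} {a b a0 b0 c d : ℤ} (h1 : a0 ≤ a) (hab : a ≤ b) (h2 : b ≤ b0)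
    (hT : S ∩ Box a0 b0 c d ⊆ T) {u v : V} (hu : u.1 = a0) (hv : v.1 = b0)
    (h : Conn (S ∩ Box a0 b0 c d) u v) {p q : V} (hp : p.2 = c) (hq : q.2 = d)
    (hpq : Conn (S ∩ Box a b c d) p q) : Conn T u p := by
  obtain ⟨u', v', hu', hv', h3, h4, _⟩ := t5x hab h (by omega) (by omega)
  have h5 : Conn (S ∩ Box a b c d) u' v' := by
    refine h3.mono ?_
    rintro w ⟨⟨w1, w2⟩, w3⟩
    exact ⟨w1, ⟨w3, w2.2⟩⟩
  have h6 := t1 hu' hv' h5 hp hq hpq
  refine (h4.mono hT).trans (h6.mono ?_)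
  exact (Set.inter_subset_inter_right _ (Box_subset h1 h2 le_rfl le_rfl)).trans hT

theorem glue {r : ℤ} (hr : 0 < r) {S : Set V}
    (h0 : LR 0 (3 * r) 0 (2 * r) S) (h1 : LR r (4 * r) 0 (2 * r) S)
    (h2 : LR (2 * r) (5 * r) 0 (2 * r) S) (h3 : LR (3 * r) (6 * r) 0 (2 * r) S)
    (k0 : TB r (3 * r) 0 (2 * r) S) (k1 : TB (2 * r) (4 * r) 0 (2 * r) S)
    (k2 : TB (3 * r) (5 * r) 0 (2 * r) S) : LR 0 (6 * r) 0 (2 * r) S := by
  obtain ⟨u0, v0, a0, b0, c0⟩ := h0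
  obtain ⟨u1, v1, a1, b1, c1⟩ := h1
  obtain ⟨u2, v2, a2, b2, c2⟩ := h2
  obtain ⟨u3, v3, a3, b3, c3⟩ := h3
  obtain ⟨p0, q0, d0, e0, f0⟩ := k0
  obtain ⟨p1, q1, d1, e1, f1⟩ := k1
  obtain ⟨p2, q2, d2, e2, f2⟩ := k2
  have hT : ∀ {a b : ℤ}, 0 ≤ a → b ≤ 6 * r →
      S ∩ Box a b 0 (2 * r) ⊆ S ∩ Box 0 (6 * r) 0 (2 * r) := fun h h' =>
    Set.inter_subset_inter_right _ (Box_subset h h' le_rfl le_rfl)
  have x00 := glue_aux (by omega) (by omega) le_rfl (hT le_rfl (by omega)) a0 b0 c0 d0 e0 f0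
  have x10 := glue_aux le_rfl (by omega) (by omega) (hT (by omega) (by omega)) a1 b1 c1 d0 e0 f0
  have x11 := glue_aux (by omega) (by omega) le_rfl (hT (by omega) (by omega)) a1 b1 c1 d1 e1 f1
  have x21 := glue_aux le_rfl (by omega) (by omega) (hT (by omega) (by omega)) a2 b2 c2 d1 e1 f1
  have x22 := glue_aux (by omega) (by omega) le_rfl (hT (by omega) (by omega)) a2 b2 c2 d2 e2 f2
  have x32 := glue_aux le_rfl (by omega) (by omega) (hT (by omega) le_rfl) a3 b3 c3 d2 e2 f2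
  refine ⟨u0, v3, a0, b3, ?_⟩
  exact (((((x00.trans x10.symm).trans x11).trans x21.symm).trans x22).trans x32.symm).trans
    (c3.mono (hT (by omega) le_rfl))

end NU53
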