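import Pool.Agent.LibNU53.Lat0

/-! Row HexE. Discrete duality (existence), same method as `LibGFPerc/Hex.lean` (theorem `hex`,
parity of `12`-edges over the triangles), for the union-jack triangulation of a rectangle:
label 1 = vertex of `S` joined to the left side inside `S`, label 2 = vertex of `Sᶜ` joined to the
bottom side inside `Sᶜ`. If there is no LR crossing and no TB crossing then the number of
`12`-edges on the boundary of the rectangle is odd (corner bottom-left), while every triangle has an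
even number of them. Each unit square `[x,x+1]×[y,y+1]` is cut by its even-even diagonal:
`(x,y)-(x+1,y+1)` if `x+y` is even, `(x+1,y)-(x,y+1)` if `x+y` is odd. Degenerate cases `a = b` or
`c = d` are allowed (a translation to `ℕ × ℕ` may help). Only Mathlib + `Lat0`. MEDIUM/STRONG. -/

namespace NU53

/-- Telescoping over one strip. -/
private theorem strip (eh0 eh1 ev : ℕ → ZMod 2) (n : ℕ)
    (h : ∀ i, i < n → eh0 i + eh1 i + ev i + ev (i + 1) = 0) :
    ∑ i ∈ Finset.range n, eh0 i + ∑ i ∈ Finset.range n, eh1 i + ev 0 + ev n = 0 := by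
  induction n with
  | zero => simp; exact CharTwo.add_self_eq_zero _
  | succ n ih =>
    have h1 := ih (fun i hi => h i (by omega))
    have h2 := h n (by omega)
    rw [Finset.sum_range_succ, Finset.sum_range_succ]
    have h3 : ev n + ev n = 0 := CharTwo.add_self_eq_zero _
    linear_combination h1 + h2 - h3

private theorem green (eh ev : ℕ → ℕ → ZMod 2) (n m : ℕ)
    (h : ∀ i j, i < n → j < m → eh i j + eh i (j + 1) + ev i j + ev (i + 1) j = 0) :
    ∑ i ∈ Finset.range n, eh i 0 + ∑ i ∈ Finset.range n, eh i m +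
      ∑ j ∈ Finset.range m, ev 0 j + ∑ j ∈ Finset.range m, ev n j = 0 := by
  induction m with
  | zero => simp; exact CharTwo.add_self_eq_zero _
  | succ m ih =>
    have h1 := ih (fun i j hi hj => h i j hi (by omega))
    have h2 := strip (fun i => eh i m) (fun i => eh i (m + 1)) (fun i => ev i m) n
      (fun i hi => h i m hi (by omega))
    rw [Finset.sum_range_succ, Finset.sum_range_succ]
    have h3 : ∑ i ∈ Finset.range n, eh i m + ∑ i ∈ Finset.range n, eh i m = 0 :=
      CharTwo.add_self_eq_zero _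
    linear_combination h1 + h2 - h3

private theorem tele (g : ℕ → ZMod 2) (n : ℕ) :
    ∑ i ∈ Finset.range n, (g i + g (i + 1)) = g 0 + g n := by
  induction n with
  | zero => simp; exact (CharTwo.add_self_eq_zero _).symm
  | succ n ih =>
    rw [Finset.sum_range_succ, ih]
    have h3 : g n + g n = 0 := CharTwo.add_self_eq_zero _
    linear_combination h3

theorem hex_exists {a b c d : ℤ} (hab : a ≤ b) (hcd : c ≤ d) (S : Set V) :
    LR a b c d S ∨ TB a b c d Sᶜ := by
  classical
  by_contra hcon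
  rw [not_or] at hcon
  obtain ⟨hLR, hTB⟩ := hcon
  obtain ⟨n, hn⟩ := Int.le.dest hab
  obtain ⟨m, hm⟩ := Int.le.dest hcd
  set L1 : V → Prop := fun v => ∃ u, u.1 = a ∧ Conn (S ∩ Box a b c d) u v with hL1
  set L2 : V → Prop := fun v => ∃ u, u.2 = c ∧ Conn (Sᶜ ∩ Box a b c d) u v with hL2
  have l1S : ∀ v, L1 v → v ∈ S := fun v ⟨u, _, h⟩ => h.right_mem.1
  have l2S : ∀ v, L2 v → v ∉ S := fun v ⟨u, _, h⟩ => h.right_mem.1
  have a1 : ∀ v w, v ∈ Box a b c d → w ∈ Box a b c d → Adj v w → v ∈ S → w ∈ S →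
      (L1 v ↔ L1 w) := by
    intro v w hv hw hvw hvS hwS
    constructor
    · rintro ⟨u, hu, h⟩
      exact ⟨u, hu, h.tail hvw ⟨hwS, hw⟩⟩
    · rintro ⟨u, hu, h⟩
      exact ⟨u, hu, h.tail hvw.symm ⟨hvS, hv⟩⟩
  have a2 : ∀ v w, v ∈ Box a b c d → w ∈ Box a b c d → Adj v w → v ∉ S → w ∉ S →
      (L2 v ↔ L2 w) := by
    intro v w hv hw hvw hvS hwS
    constructor
    · rintro ⟨u, hu, h⟩
      exact ⟨u, hu, h.tail hvw ⟨hwS, hw⟩⟩
    · rintro ⟨u, hu, h⟩
      exact ⟨u, hu, h.tail hvw.symm ⟨hvS, hv⟩⟩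
  set e : V → V → ZMod 2 := fun v w => if (L1 v ∧ L2 w) ∨ (L2 v ∧ L1 w) then 1 else 0 with he
  have tri : ∀ v1 v2 v3, v1 ∈ Box a b c d → v2 ∈ Box a b c d → v3 ∈ Box a b c d →
      Adj v1 v2 → Adj v2 v3 → Adj v1 v3 → e v1 v2 + e v2 v3 + e v1 v3 = 0 := by
    intro v1 v2 v3 h1 h2 h3 h12 h23 h13
    have p1 := l1S v1
    have p2 := l1S v2
    have p3 := l1S v3
    have q1 := l2S v1
    have q2 := l2S v2
    have q3 := l2S v3
    have r1 := a1 v1 v2 h1 h2 h12
    have r2 := a1 v2 v3 h2 h3 h23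
    have r3 := a1 v1 v3 h1 h3 h13
    have s1 := a2 v1 v2 h1 h2 h12
    have s2 := a2 v2 v3 h2 h3 h23
    have s3 := a2 v1 v3 h1 h3 h13
    have two : (1 : ZMod 2) + 1 = 0 := by decide
    clear_value L1 L2
    clear a1 a2 l1S l2S hLR hTB hL1 hL2
    simp only [he]
    by_cases t1 : v1 ∈ S <;> by_cases t2 : v2 ∈ S <;> by_cases t3 : v3 ∈ S <;>
      simp only [t1, t2, t3, not_true_eq_false, not_false_eq_true, forall_true_left, false_imp_iff,
        imp_false, implies_true] at p1 p2 p3 q1 q2 q3 r1 r2 r3 s1 s2 s3 <;>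
      simp [*] <;> split_ifs <;> first | rfl | (exact two) | (simp_all) | tauto
  -- the two families of edges
  set P : ℕ → ℕ → V := fun i j => (a + i, c + j) with hP
  have hPb : ∀ i j, i ≤ n → j ≤ m → P i j ∈ Box a b c d := by
    intro i j hi hj
    simp only [hP, Box, Set.mem_setOf_eq]
    omega
  have adjH : ∀ i j, Adj (P i j) (P (i + 1) j) := by
    intro i j
    refine Or.inl ⟨rfl, Or.inl ?_⟩
    simp only [hP]
    push_cast
    ring
  have adjV : ∀ i j, Adj (P i j) (P i (j + 1)) := by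
    intro i j
    refine Or.inr (Or.inl ⟨rfl, Or.inl ?_⟩)
    simp only [hP]
    push_cast
    ring
  have sq : ∀ i j, i < n → j < m → e (P i j) (P (i + 1) j) + e (P i (j + 1)) (P (i + 1) (j + 1)) +
      e (P i j) (P i (j + 1)) + e (P (i + 1) j) (P (i + 1) (j + 1)) = 0 := by
    intro i j hi hj
    rcases Int.even_or_odd (a + i + (c + j)) with hev | hod
    · have hd : Adj (P i j) (P (i + 1) (j + 1)) := by
        right; right
        simp only [hP]
        push_cast
        exact ⟨hev, by omega, by omega⟩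
      have k1 := tri (P i j) (P (i + 1) j) (P (i + 1) (j + 1)) (hPb _ _ (by omega) (by omega))
        (hPb _ _ (by omega) (by omega)) (hPb _ _ (by omega) (by omega)) (adjH _ _) (adjV _ _) hd
      have k2 := tri (P i j) (P i (j + 1)) (P (i + 1) (j + 1)) (hPb _ _ (by omega) (by omega))
        (hPb _ _ (by omega) (by omega)) (hPb _ _ (by omega) (by omega)) (adjV _ _) (adjH _ _) hd
      have k3 : e (P i j) (P (i + 1) (j + 1)) + e (P i j) (P (i + 1) (j + 1)) = 0 :=
        CharTwo.add_self_eq_zero _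
      linear_combination k1 + k2 - k3
    · have hd : Adj (P (i + 1) j) (P i (j + 1)) := by
        right; right
        simp only [hP]
        push_cast
        refine ⟨?_, by omega, by omega⟩
        obtain ⟨k, hk⟩ := hod
        exact ⟨k + 1, by omega⟩
      have k1 := tri (P i j) (P (i + 1) j) (P i (j + 1)) (hPb _ _ (by omega) (by omega))
        (hPb _ _ (by omega) (by omega)) (hPb _ _ (by omega) (by omega)) (adjH _ _) hd (adjV _ _)
      have k2 := tri (P (i + 1) j) (P i (j + 1)) (P (i + 1) (j + 1)) (hPb _ _ (by omega) (by omega))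
        (hPb _ _ (by omega) (by omega)) (hPb _ _ (by omega) (by omega)) hd (adjH _ _) (adjV _ _)
      have k3 : e (P (i + 1) j) (P i (j + 1)) + e (P (i + 1) j) (P i (j + 1)) = 0 :=
        CharTwo.add_self_eq_zero _
      linear_combination k1 + k2 - k3
  have hg := green (fun i j => e (P i j) (P (i + 1) j)) (fun i j => e (P i j) (P i (j + 1))) n m sq
  -- right side: no label 1
  have hr : ∑ j ∈ Finset.range m, e (P n j) (P n (j + 1)) = 0 := by
    apply Finset.sum_eq_zero
    intro j _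
    have h1 : ∀ j : ℕ, ¬ L1 (P n j) := by
      rintro j ⟨u, hu, h⟩
      exact hLR ⟨u, P n j, hu, hn, h⟩
    simp [he, h1]
  have ht : ∑ i ∈ Finset.range n, e (P i m) (P (i + 1) m) = 0 := by
    apply Finset.sum_eq_zero
    intro j _
    have h1 : ∀ j : ℕ, ¬ L2 (P j m) := by
      rintro j ⟨u, hu, h⟩
      exact hTB ⟨u, P j m, hu, hm, h⟩
    simp [he, h1]
  have hl : ∑ j ∈ Finset.range m, e (P 0 j) (P 0 (j + 1)) = if L2 (P 0 0) then 1 else 0 := by
    have h1 : ∀ j ∈ Finset.range m, e (P 0 j) (P 0 (j + 1)) =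
        (if L2 (P 0 j) then 1 else 0) + (if L2 (P 0 (j + 1)) then 1 else 0) := by
      intro j hj
      rw [Finset.mem_range] at hj
      have b1 := hPb 0 j (by omega) (by omega)
      have b2 := hPb 0 (j + 1) (by omega) (by omega)
      have c1 : P 0 j ∈ S → L1 (P 0 j) := fun hs => ⟨P 0 j, by simp [hP], Conn.refl ⟨hs, b1⟩⟩
      have c2 : P 0 (j + 1) ∈ S → L1 (P 0 (j + 1)) :=
        fun hs => ⟨P 0 (j + 1), by simp [hP], Conn.refl ⟨hs, b2⟩⟩
      have d1 := a2 _ _ b1 b2 (adjV 0 j)
      have p1 := l1S (P 0 j)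
      have p2 := l1S (P 0 (j + 1))
      have q1 := l2S (P 0 j)
      have q2 := l2S (P 0 (j + 1))
      have two : (1 : ZMod 2) + 1 = 0 := by decide
      generalize P 0 j = x at *
      generalize P 0 (j + 1) = y at *
      simp only [he]
      by_cases t1 : x ∈ S <;> by_cases t2 : y ∈ S <;>
        simp_all <;> split_ifs <;> simp_all
    rw [Finset.sum_congr rfl h1, tele (fun j => if L2 (P 0 j) then (1 : ZMod 2) else 0)]
    have h2 : ¬ L2 (P 0 m) := by
      rintro ⟨u, hu, h⟩
      exact hTB ⟨u, P 0 m, hu, hm, h⟩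
    simp [h2]
  have hb : ∑ i ∈ Finset.range n, e (P i 0) (P (i + 1) 0) = if L1 (P 0 0) then 1 else 0 := by
    have h1 : ∀ i ∈ Finset.range n, e (P i 0) (P (i + 1) 0) =
        (if L1 (P i 0) then 1 else 0) + (if L1 (P (i + 1) 0) then 1 else 0) := by
      intro i hi
      rw [Finset.mem_range] at hi
      have b1 := hPb i 0 (by omega) (by omega)
      have b2 := hPb (i + 1) 0 (by omega) (by omega)
      have c1 : P i 0 ∉ S → L2 (P i 0) := fun hs => ⟨P i 0, by simp [hP], Conn.refl ⟨hs, b1⟩⟩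
      have c2 : P (i + 1) 0 ∉ S → L2 (P (i + 1) 0) :=
        fun hs => ⟨P (i + 1) 0, by simp [hP], Conn.refl ⟨hs, b2⟩⟩
      have d1 := a1 _ _ b1 b2 (adjH i 0)
      have p1 := l1S (P i 0)
      have p2 := l1S (P (i + 1) 0)
      have q1 := l2S (P i 0)
      have q2 := l2S (P (i + 1) 0)
      have two : (1 : ZMod 2) + 1 = 0 := by decide
      generalize P i 0 = x at *
      generalize P (i + 1) 0 = y at *
      simp only [he]
      by_cases t1 : x ∈ S <;> by_cases t2 : y ∈ S <;>
        simp_all <;> split_ifs <;> simp_all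
    rw [Finset.sum_congr rfl h1, tele (fun j => if L1 (P j 0) then (1 : ZMod 2) else 0)]
    have h2 : ¬ L1 (P n 0) := by
      rintro ⟨u, hu, h⟩
      exact hLR ⟨u, P n 0, hu, hn, h⟩
    simp [h2]
  rw [hr, ht, hl, hb] at hg
  have b0 := hPb 0 0 (by omega) (by omega)
  by_cases h0 : P 0 0 ∈ S
  · have h1 : L1 (P 0 0) := ⟨P 0 0, by simp [hP], Conn.refl ⟨h0, b0⟩⟩
    have h2 : ¬ L2 (P 0 0) := fun h => l2S _ h h0
    simp [h1, h2] at hg
  · have h1 : L2 (P 0 0) := ⟨P 0 0, by simp [hP], Conn.refl ⟨h0, b0⟩⟩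
    have h2 : ¬ L1 (P 0 0) := fun h => h0 (l1S _ h)
    simp [h1, h2] at hg

end NU53
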