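import Pool.Agent.LibNU53.Mod
import Pool.Agent.LibGFPerc.Defs

/-! # The covariances (definitions)
`Prof φ a`: radial profile `x ↦ φ ‖x‖`, nonnegative, of class `C²`, zero outside the disc of radius `a`,
positive at `0`. `kap φ r`: convolution square of the profile at distance `r`. `Kfull φ α`: the covariance
`∫_1^∞ s^(-1-α) kap (r/s) ds`. `Kj φ α j`: the part `2^j < s ≤ 2^(j+1)`. -/

open MeasureTheory ProbabilityTheory

namespace NU53

open GFPerc (E2)

/-- A radial profile. -/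
structure Prof (φ : ℝ → ℝ) (a : ℝ) : Prop where
  ha : 0 < a
  nonneg : ∀ r, 0 ≤ φ r
  pos0 : 0 < φ 0
  supp : ∀ r, a ≤ r → φ r = 0
  smooth : ContDiff ℝ 2 (fun x : E2 => φ ‖x‖)

/-- The convolution square of the profile, at distance `r`. -/
noncomputable def kap (φ : ℝ → ℝ) (r : ℝ) : ℝ := ∫ z : E2, φ ‖z‖ * φ ‖z - !₂[r, 0]‖

/-- The covariance. -/
noncomputable def Kfull (φ : ℝ → ℝ) (α r : ℝ) : ℝ :=
  ∫ s in Set.Ioi (1 : ℝ), s ^ (-1 - α) * kap φ (r / s)

/-- The part of the scales `(2^j, 2^(j+1)]`. -/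
noncomputable def Kj (φ : ℝ → ℝ) (α : ℝ) (j : ℕ) (r : ℝ) : ℝ :=
  ∫ s in Set.Ioc ((2 : ℝ) ^ j) (2 ^ (j + 1)), s ^ (-1 - α) * kap φ (r / s)

/-- The point `η v` of the plane. -/
noncomputable def gpt (η : ℝ) (v : V) : E2 := !₂[η * v.1, η * v.2]

/-- The point `η (v - z / N)` of the plane. -/
noncomputable def pt (η : ℝ) (N : ℕ) (z v : V) : E2 :=
  !₂[η * (v.1 - z.1 / N), η * (v.2 - z.2 / N)]

/-- The scale number `i` of the level `j`: `2^j (1 + i/N)`. -/
noncomputable def sc (N j i : ℕ) : ℝ := 2 ^ j * (1 + i / N)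

/-- The weight of the noise. -/
noncomputable def wt (α η : ℝ) (N j i : ℕ) : ℝ := sc N j i ^ (-(3 + α)) * (η ^ 2 * 2 ^ j / N ^ 3)

/-- The coefficient of the Gaussian number `(j, i, z)` at the vertex `v`. -/
noncomputable def co (φ : ℝ → ℝ) (α η : ℝ) (N j i : ℕ) (z v : V) : ℝ :=
  Real.sqrt (wt α η N j i) * φ (‖pt η N z v‖ / sc N j i)

/-- The square `[-L, L]²` as a finite set. -/
noncomputable def SQ (L : ℤ) : Finset V := Finset.Icc (-L) L ×ˢ Finset.Icc (-L) L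

/-- The covariance of the level `j` of the discretized field. -/
noncomputable def kN (φ : ℝ → ℝ) (α η : ℝ) (q N j : ℕ) (w : V) : ℝ :=
  ∑ i ∈ Finset.range N, ∑ z ∈ SQ (N * 2 ^ (q + j)), co φ α η N j i z 0 * co φ α η N j i z w

end NU53
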