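import Pool.Agent.LibNU53.K1

/-! Row K1a. Elementary properties of `kap`. PLAN. `x ↦ φ ‖x‖` is continuous with compact support (radius `a`).
`kap_rad`: reflection which exchanges `x` and `(‖x‖, 0)` (`reflection_sub`), a measure preserving isometry.
`kap_scale`: `Measure.integral_comp_smul` (dimension 2) and `kap_rad`. `kap_cont`: dominated convergence (or
`MeasureTheory.continuous_of_dominated`; the integrand is bounded by `M φ ‖z‖`). `kap_bdd` idem.
`kap_zero`: if `2a ≤ r`, `‖z‖ < a` and `‖z - (r,0)‖ < a` are incompatible. `kap_pos`: integral of a continuous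
nonnegative function, positive at `0`. `kap_neg` : not needed. MEDIUM. -/

open MeasureTheory ProbabilityTheory

namespace NU53

open GFPerc (E2)

variable {φ : ℝ → ℝ} {a : ℝ}

private theorem k1a_cs (h : Prof φ a) : HasCompactSupport (fun x : E2 => φ ‖x‖) := by
  refine HasCompactSupport.of_support_subset_isCompact (isCompact_closedBall (0 : E2) a) fun x hx => ?_
  rw [mem_closedBall_zero_iff]
  by_contra hc
  exact hx (h.supp _ (le_of_lt (not_le.1 hc)))

private theorem k1a_bd (h : Prof φ a) : ∃ M : ℝ, 0 ≤ M ∧ ∀ x : E2, φ ‖x‖ ≤ M := by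
  obtain ⟨C, hC⟩ := (k1a_cs h).exists_bound_of_continuous h.smooth.continuous
  exact ⟨C, le_trans (norm_nonneg _) (hC 0), fun x => le_trans (le_abs_self _) (hC x)⟩

private theorem k1a_int (h : Prof φ a) : Integrable (fun x : E2 => φ ‖x‖) :=
  h.smooth.continuous.integrable_of_hasCompactSupport (k1a_cs h)

private theorem k1a_norm (r : ℝ) : ‖(!₂[r, 0] : E2)‖ = |r| := by
  rw [EuclideanSpace.norm_eq, Fin.sum_univ_two]
  simp [Real.sqrt_sq_eq_abs]

private theorem k1a_cont2 (h : Prof φ a) (y : E2) : Continuous (fun z : E2 => φ ‖z‖ * φ ‖z - y‖) :=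
  h.smooth.continuous.mul (h.smooth.continuous.comp (continuous_id.sub continuous_const))

private theorem k1a_int2 (h : Prof φ a) (y : E2) :
    Integrable (fun z : E2 => φ ‖z‖ * φ ‖z - y‖) :=
  (k1a_cont2 h y).integrable_of_hasCompactSupport (k1a_cs h).mul_right

theorem kap_nonneg (h : Prof φ a) (r : ℝ) : 0 ≤ kap φ r :=
  integral_nonneg fun _ => mul_nonneg (h.nonneg _) (h.nonneg _)

theorem kap_rad (h : Prof φ a) (x : E2) : ∫ z : E2, φ ‖z‖ * φ ‖z - x‖ = kap φ ‖x‖ := by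
  obtain ⟨y, hy⟩ : ∃ y : E2, y = !₂[‖x‖, 0] := ⟨_, rfl⟩
  have hxy : ‖x‖ = ‖y‖ := by rw [hy, k1a_norm, abs_of_nonneg (norm_nonneg x)]
  obtain ⟨ρ, hρ⟩ : ∃ ρ : E2 ≃ₗᵢ[ℝ] E2, ρ x = y := ⟨_, Submodule.reflection_sub hxy⟩
  have h1 := ρ.measurePreserving.integral_comp ρ.toHomeomorph.measurableEmbedding
    (fun z : E2 => φ ‖z‖ * φ ‖z - y‖)
  rw [kap, ← hy, ← h1]
  refine integral_congr_ae (Filter.Eventually.of_forall fun z => ?_)
  change φ ‖z‖ * φ ‖z - x‖ = φ ‖ρ z‖ * φ ‖ρ z - y‖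
  rw [← hρ, ← map_sub, LinearIsometryEquiv.norm_map, LinearIsometryEquiv.norm_map]

theorem kap_scale (h : Prof φ a) {s : ℝ} (hs : 0 < s) (x : E2) :
    ∫ z : E2, φ (‖z‖ / s) * φ (‖z - x‖ / s) = s ^ 2 * kap φ (‖x‖ / s) := by
  have h1 := Measure.integral_comp_inv_smul (volume : Measure E2)
    (fun w : E2 => φ ‖w‖ * φ ‖w - s⁻¹ • x‖) s
  have h2 : Module.finrank ℝ E2 = 2 := by simp
  rw [h2, kap_rad h, norm_smul, norm_inv, Real.norm_eq_abs, abs_of_pos hs, smul_eq_mul,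
    abs_of_pos (pow_pos hs 2), inv_mul_eq_div] at h1
  rw [← h1]
  refine integral_congr_ae (Filter.Eventually.of_forall fun z => ?_)
  change φ (‖z‖ / s) * φ (‖z - x‖ / s) = φ ‖s⁻¹ • z‖ * φ ‖s⁻¹ • z - s⁻¹ • x‖
  rw [← smul_sub, norm_smul, norm_smul, norm_inv, Real.norm_eq_abs, abs_of_pos hs, inv_mul_eq_div,
    inv_mul_eq_div]

theorem kap_cont (h : Prof φ a) : Continuous (kap φ) := by
  obtain ⟨M, hM0, hM⟩ := k1a_bd h
  have hc : Continuous fun r : ℝ => (!₂[r, 0] : E2) := by fun_prop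
  refine continuous_of_dominated (bound := fun z : E2 => φ ‖z‖ * M)
    (fun r => (k1a_cont2 h _).aestronglyMeasurable) (fun r => ?_) ((k1a_int h).mul_const M) ?_
  · refine Filter.Eventually.of_forall fun z => ?_
    rw [Real.norm_eq_abs, abs_of_nonneg (mul_nonneg (h.nonneg _) (h.nonneg _))]
    exact mul_le_mul_of_nonneg_left (hM _) (h.nonneg _)
  · refine Filter.Eventually.of_forall fun z => ?_
    exact continuous_const.mul (h.smooth.continuous.comp (continuous_const.sub hc))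

theorem kap_bdd (h : Prof φ a) : ∃ M : ℝ, 0 ≤ M ∧ ∀ r, kap φ r ≤ M := by
  obtain ⟨M, hM0, hM⟩ := k1a_bd h
  refine ⟨∫ z : E2, φ ‖z‖ * M, integral_nonneg fun z => mul_nonneg (h.nonneg _) hM0, fun r => ?_⟩
  exact integral_mono (k1a_int2 h _) ((k1a_int h).mul_const M)
    fun z => mul_le_mul_of_nonneg_left (hM _) (h.nonneg _)

theorem kap_zero (h : Prof φ a) {r : ℝ} (hr : 2 * a ≤ r) : kap φ r = 0 := by
  have h0 := h.ha
  refine integral_eq_zero_of_ae (Filter.Eventually.of_forall fun z => ?_)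
  change φ ‖z‖ * φ ‖z - !₂[r, 0]‖ = 0
  rcases le_or_gt a ‖z‖ with h1 | h1
  · rw [h.supp _ h1, zero_mul]
  · rw [h.supp ‖z - !₂[r, 0]‖ ?_, mul_zero]
    have h2 : ‖(!₂[r, 0] : E2)‖ = r := by rw [k1a_norm, abs_of_pos (by linarith)]
    have h3 := norm_sub_norm_le (!₂[r, 0] : E2) z
    rw [norm_sub_rev]
    linarith

theorem kap_pos (h : Prof φ a) : 0 < kap φ 0 := by
  refine (k1a_cont2 h _).integral_pos_of_hasCompactSupport_nonneg_nonzero (k1a_cs h).mul_right
    (fun z => mul_nonneg (h.nonneg _) (h.nonneg _)) (x := (0 : E2)) ?_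
  have h1 : ‖(0 : E2) - !₂[(0 : ℝ), 0]‖ = 0 := by
    rw [zero_sub, norm_neg, k1a_norm, abs_zero]
  rw [h1, norm_zero]
  exact (mul_pos h.pos0 h.pos0).ne'

end NU53
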