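import Pool.Agent.LibNU53.K1

/-! Row K1b. Bounds for the profile. PLAN. `Φ x = φ ‖x‖` is `C²` with compact support, so `Φ`, `fderiv Φ` and
`fderiv (fderiv Φ)` are bounded (`HasCompactSupport`, continuity); mean value inequality
(`Convex.norm_image_sub_le_of_norm_fderiv_le`) for `Φ` and for `x ↦ Φ(x+k) - Φ x`. `prof_near`: continuity at
`0`. MEDIUM/SHORT. -/

open MeasureTheory ProbabilityTheory

namespace NU53

open GFPerc (E2)

variable {φ : ℝ → ℝ} {a : ℝ}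

theorem prof_bdd (h : Prof φ a) : ∃ M : ℝ, 1 ≤ M ∧ (∀ x : E2, φ ‖x‖ ≤ M) ∧
    (∀ x k : E2, |φ ‖x + k‖ - φ ‖x‖| ≤ M * ‖k‖) ∧
    (∀ x k l : E2, |φ ‖x + k + l‖ - φ ‖x + k‖ - φ ‖x + l‖ + φ ‖x‖| ≤ M * (‖k‖ * ‖l‖)) := by
  obtain ⟨Φ, hΦ⟩ : ∃ Φ : E2 → ℝ, Φ = fun x => φ ‖x‖ := ⟨_, rfl⟩
  have hv : ∀ x, φ ‖x‖ = Φ x := fun x => by rw [hΦ]
  have hC : ContDiff ℝ 2 Φ := by
    rw [hΦ]
    exact h.smooth
  have hs : HasCompactSupport Φ := by
    rw [hΦ]
    refine HasCompactSupport.of_support_subset_isCompact (isCompact_closedBall (0 : E2) a)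
      fun x hx => ?_
    rw [mem_closedBall_zero_iff]
    by_contra hc
    exact hx (h.supp _ (le_of_lt (not_le.1 hc)))
  have hC1 : ContDiff ℝ 1 (fderiv ℝ Φ) := hC.fderiv_right (by norm_num)
  have hs1 : HasCompactSupport (fderiv ℝ Φ) := hs.fderiv (𝕜 := ℝ)
  have e0 : ∃ M0 : ℝ, ∀ x, ‖Φ x‖ ≤ M0 := hs.exists_bound_of_continuous hC.continuous
  obtain ⟨M0, h0⟩ := e0
  obtain ⟨M1, h1⟩ := ContDiff.lipschitzWith_of_hasCompactSupport hs hC (by norm_num)
  obtain ⟨M2, h2⟩ := ContDiff.lipschitzWith_of_hasCompactSupport hs1 hC1 (by norm_num)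
  have hd : Differentiable ℝ Φ := hC.differentiable (by norm_num)
  have hl : ∀ x k : E2, ‖Φ (x + k) - Φ x‖ ≤ M1 * ‖k‖ := by
    intro x k
    have h3 := h1.norm_sub_le (x + k) x
    rwa [add_sub_cancel_left] at h3
  have hl1 : ∀ x k : E2, ‖fderiv ℝ Φ (x + k) - fderiv ℝ Φ x‖ ≤ M2 * ‖k‖ := by
    intro x k
    have h3 := h2.norm_sub_le (x + k) x
    rwa [add_sub_cancel_left] at h3
  have hl2 : ∀ x k l : E2, ‖(Φ (x + k + l) - Φ (x + k)) - (Φ (x + l) - Φ x)‖ ≤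
      M2 * ‖l‖ * ‖k‖ := by
    intro x k l
    have hdl : Differentiable ℝ (fun y : E2 => Φ (y + l)) :=
      hd.comp (differentiable_id.add_const l)
    have h3 := convex_univ.norm_image_sub_le_of_norm_fderiv_le (𝕜 := ℝ)
      (f := fun y : E2 => Φ (y + l) - Φ y) (C := M2 * ‖l‖)
      (fun y _ => (hdl y).sub (hd y)) (fun y _ => by
        rw [fderiv_fun_sub (hdl y) (hd y), fderiv_comp_add_right]
        exact hl1 y l) (Set.mem_univ x) (Set.mem_univ (x + k))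
    rwa [add_sub_cancel_left] at h3
  refine ⟨max 1 (max M0 (max M1 M2)), le_max_left _ _, fun x => ?_, fun x k => ?_,
    fun x k l => ?_⟩
  · rw [hv]
    exact le_trans (le_abs_self _) (le_trans (h0 x) (le_trans (le_max_left _ _) (le_max_right _ _)))
  · rw [hv, hv]
    exact le_trans (hl x k) (mul_le_mul_of_nonneg_right (le_trans (le_max_left _ _)
      (le_trans (le_max_right _ _) (le_max_right _ _))) (norm_nonneg _))
  · rw [hv, hv, hv, hv]
    have h3 := hl2 x k l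
    rw [Real.norm_eq_abs] at h3
    have h4 : Φ (x + k + l) - Φ (x + k) - Φ (x + l) + Φ x =
        (Φ (x + k + l) - Φ (x + k)) - (Φ (x + l) - Φ x) := by ring
    rw [h4]
    refine le_trans h3 ?_
    rw [mul_assoc, mul_comm ‖l‖]
    exact mul_le_mul_of_nonneg_right (le_trans (le_max_right _ _)
      (le_trans (le_max_right _ _) (le_max_right _ _))) (by positivity)

theorem prof_near (h : Prof φ a) : ∃ ρ : ℝ, 0 < ρ ∧ ρ ≤ a ∧ ∀ r, 0 ≤ r → r ≤ ρ → φ 0 / 2 ≤ φ r := by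
  have hc : Continuous fun r : ℝ => (!₂[r, 0] : E2) := by fun_prop
  have hn : ∀ r : ℝ, ‖(!₂[r, 0] : E2)‖ = |r| := by
    intro r
    rw [EuclideanSpace.norm_eq, Fin.sum_univ_two]
    simp [Real.sqrt_sq_eq_abs]
  have hc2 : Continuous fun r : ℝ => φ |r| := by
    have h1 := h.smooth.continuous.comp hc
    refine h1.congr fun r => ?_
    change φ ‖(!₂[r, 0] : E2)‖ = φ |r|
    rw [hn]
  have h1 : ∀ᶠ r in nhds (0 : ℝ), φ 0 / 2 < φ |r| := by
    refine hc2.continuousAt.eventually (lt_mem_nhds ?_)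
    change φ 0 / 2 < φ |(0 : ℝ)|
    rw [abs_zero]
    have := h.pos0
    linarith
  obtain ⟨δ, hδ, h2⟩ := Metric.eventually_nhds_iff.1 h1
  have ha := h.ha
  refine ⟨min (δ / 2) a, lt_min (by linarith) ha, min_le_right _ _, fun r hr hr2 => ?_⟩
  have h3 := h2 (y := r) (by
    rw [Real.dist_eq, sub_zero, abs_of_nonneg hr]
    have := le_trans hr2 (min_le_left _ _)
    linarith)
  rw [abs_of_nonneg hr] at h3
  exact h3.le

end NU53
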