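import Pool.Agent.LibNU53.K1

/-! Row K2b. Symmetries and translation invariance of the discrete covariance. `co … z v` only depends on
`|N v.1 - z.1|`, `|N v.2 - z.2|`, and vanishes unless both are `≤ N 2^(q+j)` (`co_supp`):
`‖pt‖ < a s < a 2^(j+1)`, `2a/η ≤ 2^q`. `kN_trans`: substitution `z = N u + z'` in the sum (only nonzero terms
matter), then `z' ↦ -z'`. `kN_flip`: substitution `z.1 ↦ -z.1`; `kN_swap`: `z ↦ z.swap`. MEDIUM. -/

open MeasureTheory ProbabilityTheory

namespace NU53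

variable {φ : ℝ → ℝ} {a α η : ℝ} {q N : ℕ}

lemma k2b_sc_pos (N j i : ℕ) : 0 < sc N j i := by
  unfold sc
  positivity

lemma k2b_sc_lt {N : ℕ} (j : ℕ) {i : ℕ} (hi : i < N) : sc N j i < 2 ^ (j + 1) := by
  unfold sc
  have hN : (0 : ℝ) < N := by
    have : 0 < N := by omega
    exact_mod_cast this
  have h1 : (i : ℝ) / N < 1 := by
    rw [div_lt_one hN]; exact_mod_cast hi
  rw [pow_succ]
  have h2 : (0 : ℝ) < 2 ^ j := by positivity
  nlinarith

lemma k2b_norm (η : ℝ) (N : ℕ) (z v : V) :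
    ‖pt η N z v‖ = Real.sqrt ((η * (v.1 - z.1 / N)) ^ 2 + (η * (v.2 - z.2 / N)) ^ 2) := by
  unfold pt
  rw [EuclideanSpace.norm_eq, Fin.sum_univ_two]
  simp only [Real.norm_eq_abs, sq_abs]
  rfl

/-- `co` only depends on the squares of the coordinates of `v - z/N`. -/
lemma k2b_congr {z v z' v' : V} (j i : ℕ)
    (h1 : ((v.1 : ℝ) - z.1 / N) ^ 2 = ((v'.1 : ℝ) - z'.1 / N) ^ 2)
    (h2 : ((v.2 : ℝ) - z.2 / N) ^ 2 = ((v'.2 : ℝ) - z'.2 / N) ^ 2) :
    co φ α η N j i z v = co φ α η N j i z' v' := by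
  unfold co
  rw [k2b_norm, k2b_norm, mul_pow, mul_pow, mul_pow, mul_pow, h1, h2]

theorem co_nonneg (h : Prof φ a) (j i : ℕ) (z v : V) : 0 ≤ co φ α η N j i z v :=
  mul_nonneg (Real.sqrt_nonneg _) (h.nonneg _)

theorem co_supp (h : Prof φ a) (hη : 0 < η) (hq : 2 * a / η ≤ 2 ^ q) (hN : 1 ≤ N) {j i : ℕ}
    (hi : i < N) {z v : V} (hc : co φ α η N j i z v ≠ 0) :
    |N * v.1 - z.1| < N * 2 ^ (q + j) ∧ |N * v.2 - z.2| < N * 2 ^ (q + j) := by
  have hNpos : (0 : ℝ) < N := by exact_mod_cast hN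
  have hs := k2b_sc_pos N j i
  have hφ : φ (‖pt η N z v‖ / sc N j i) ≠ 0 := by
    intro h0
    apply hc
    unfold co
    rw [h0, mul_zero]
  have h1 : ‖pt η N z v‖ / sc N j i < a := by
    by_contra hcon
    push Not at hcon
    exact hφ (h.supp _ hcon)
  rw [div_lt_iff₀ hs] at h1
  have h2 : ‖pt η N z v‖ < a * 2 ^ (j + 1) :=
    h1.trans (mul_lt_mul_of_pos_left (k2b_sc_lt j hi) h.ha)
  rw [div_le_iff₀ hη] at hq
  have key : ∀ x y : ℤ, |η * ((x : ℝ) - y / N)| ≤ ‖pt η N z v‖ → |N * x - y| < N * 2 ^ (q + j) := by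
    intro x y hxy
    have h3 : |η * ((x : ℝ) - y / N)| < a * 2 ^ (j + 1) := hxy.trans_lt h2
    rw [abs_mul, abs_of_pos hη] at h3
    have h4 : |((N * x - y : ℤ) : ℝ)| = N * |(x : ℝ) - y / N| := by
      rw [← abs_of_pos hNpos, ← abs_mul, abs_of_pos hNpos]
      push_cast
      congr 1
      field_simp
    have h5 : η * |((N * x - y : ℤ) : ℝ)| < η * (N * 2 ^ (q + j)) := by
      rw [h4]
      calc η * (N * |(x : ℝ) - y / N|) = N * (η * |(x : ℝ) - y / N|) := by ring
        _ < N * (a * 2 ^ (j + 1)) := mul_lt_mul_of_pos_left h3 hNpos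
        _ = N * (2 * a) * 2 ^ j := by ring
        _ ≤ N * (2 ^ q * η) * 2 ^ j := by gcongr
        _ = η * (N * 2 ^ (q + j)) := by rw [pow_add]; ring
    have h6 := lt_of_mul_lt_mul_left h5 hη.le
    have h7 : ((|N * x - y| : ℤ) : ℝ) < ((N * 2 ^ (q + j) : ℤ) : ℝ) := by
      push_cast
      push_cast at h6
      exact h6
    exact_mod_cast h7
  have e1 : |η * ((v.1 : ℝ) - z.1 / N)| ≤ ‖pt η N z v‖ := by
    rw [k2b_norm, ← Real.sqrt_sq_eq_abs]
    apply Real.sqrt_le_sqrt
    have := sq_nonneg (η * ((v.2 : ℝ) - z.2 / N))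
    linarith
  have e2 : |η * ((v.2 : ℝ) - z.2 / N)| ≤ ‖pt η N z v‖ := by
    rw [k2b_norm, ← Real.sqrt_sq_eq_abs]
    apply Real.sqrt_le_sqrt
    have := sq_nonneg (η * ((v.1 : ℝ) - z.1 / N))
    linarith
  exact ⟨key _ _ e1, key _ _ e2⟩

lemma k2b_mem {L : ℤ} {z : V} : z ∈ SQ L ↔ |z.1| ≤ L ∧ |z.2| ≤ L := by
  unfold SQ
  rw [Finset.mem_product, Finset.mem_Icc, Finset.mem_Icc, abs_le, abs_le]

theorem kN_trans (h : Prof φ a) (hη : 0 < η) (hq : 2 * a / η ≤ 2 ^ q) (hN : 1 ≤ N) {j L : ℕ}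
    {D : ℤ} (hL : N * (D + 2 ^ (q + j)) ≤ L) {u v : V} (hu : u ∈ Sq 0 D) (hv : v ∈ Sq 0 D) :
    ∑ i ∈ Finset.range N, ∑ z ∈ SQ L, co φ α η N j i z u * co φ α η N j i z v =
      kN φ α η q N j (u - v) := by
  have hNpos : (0 : ℝ) < N := by exact_mod_cast hN
  have hNZ : (0 : ℤ) < N := by exact_mod_cast hN
  unfold kN
  apply Finset.sum_congr rfl
  intro i hi
  have hi' : i < N := Finset.mem_range.1 hi
  -- substitution z ↦ N u - z
  refine Finset.sum_bij_ne_zero (fun z _ _ => ((N * u.1 - z.1, N * u.2 - z.2) : V)) ?_ ?_ ?_ ?_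
  · intro z _ hz
    have h1 := co_supp h hη hq hN hi' (left_ne_zero_of_mul hz)
    rw [k2b_mem]
    exact ⟨h1.1.le, h1.2.le⟩
  · intro z1 _ _ z2 _ _ he
    have h1 := congrArg Prod.fst he
    have h2 := congrArg Prod.snd he
    simp only at h1 h2
    ext
    · omega
    · omega
  · intro w _ hw
    have hw1 := co_supp h hη hq hN hi' (left_ne_zero_of_mul hw)
    have e1 : co φ α η N j i ((N * u.1 - w.1, N * u.2 - w.2) : V) u = co φ α η N j i w 0 := by
      apply k2b_congr
      · simp only [Prod.fst_zero]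
        push_cast
        field_simp
        ring
      · simp only [Prod.snd_zero]
        push_cast
        field_simp
        ring
    have e2 : co φ α η N j i ((N * u.1 - w.1, N * u.2 - w.2) : V) v =
        co φ α η N j i w (u - v) := by
      apply k2b_congr
      · simp only [Prod.fst_sub]
        push_cast
        field_simp
        ring
      · simp only [Prod.snd_sub]
        push_cast
        field_simp
        ring
    refine ⟨((N * u.1 - w.1, N * u.2 - w.2) : V), ?_, ?_, ?_⟩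
    · rw [k2b_mem]
      obtain ⟨⟨u1, u2⟩, u3, u4⟩ := hu
      simp only [Prod.fst_zero, Prod.snd_zero, zero_sub, zero_add] at u1 u2 u3 u4
      have hw2 := hw1
      simp only [Prod.fst_zero, Prod.snd_zero, mul_zero, zero_sub, abs_neg] at hw2
      obtain ⟨w1, w2⟩ := hw2
      rw [abs_lt] at w1 w2
      have a1 : N * u.1 ≤ N * D := mul_le_mul_of_nonneg_left u2 hNZ.le
      have a2 : N * (-D) ≤ N * u.1 := mul_le_mul_of_nonneg_left u1 hNZ.le
      have a3 : N * u.2 ≤ N * D := mul_le_mul_of_nonneg_left u4 hNZ.le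
      have a4 : N * (-D) ≤ N * u.2 := mul_le_mul_of_nonneg_left u3 hNZ.le
      rw [mul_add] at hL
      rw [mul_neg] at a2 a4
      constructor
      · rw [abs_le]; constructor <;> simp only <;> linarith
      · rw [abs_le]; constructor <;> simp only <;> linarith
    · rw [e1, e2]; exact hw
    · ext
      · simp
      · simp
  · intro z _ _
    congr 1
    · apply k2b_congr
      · simp only [Prod.fst_zero]
        push_cast
        field_simp
        ring
      · simp only [Prod.snd_zero]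
        push_cast
        field_simp
        ring
    · apply k2b_congr
      · simp only [Prod.fst_sub]
        push_cast
        field_simp
        ring
      · simp only [Prod.snd_sub]
        push_cast
        field_simp
        ring

theorem kN_flip (h : Prof φ a) (j : ℕ) (x y : ℤ) : kN φ α η q N j (-x, y) = kN φ α η q N j (x, y) := by
  unfold kN
  apply Finset.sum_congr rfl
  intro i _
  refine Finset.sum_bij (fun z _ => ((-z.1, z.2) : V)) ?_ ?_ ?_ ?_
  · intro z hz
    rw [k2b_mem] at hz ⊢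
    simp only [abs_neg]
    exact hz
  · intro z1 _ z2 _ he
    have h1 := congrArg Prod.fst he
    have h2 := congrArg Prod.snd he
    simp only at h1 h2
    ext
    · omega
    · omega
  · intro z hz
    refine ⟨(-z.1, z.2), ?_, ?_⟩
    · rw [k2b_mem] at hz ⊢
      simp only [abs_neg]
      exact hz
    · ext <;> simp
  · intro z _
    congr 1
    · apply k2b_congr
      · simp only [Prod.fst_zero]
        push_cast
        ring
      · rfl
    · apply k2b_congr
      · simp only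
        push_cast
        ring
      · rfl

theorem kN_swap (h : Prof φ a) (j : ℕ) (x y : ℤ) : kN φ α η q N j (y, x) = kN φ α η q N j (x, y) := by
  unfold kN
  apply Finset.sum_congr rfl
  intro i _
  have hsw : ∀ z v : V, co φ α η N j i z.swap v.swap = co φ α η N j i z v := by
    intro z v
    unfold co
    rw [k2b_norm, k2b_norm, add_comm]
    rfl
  refine Finset.sum_bij (fun z _ => z.swap) ?_ ?_ ?_ ?_
  · intro z hz
    rw [k2b_mem] at hz ⊢
    exact ⟨hz.2, hz.1⟩
  · intro z1 _ z2 _ he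
    exact Prod.swap_injective he
  · intro z hz
    refine ⟨z.swap, ?_, Prod.swap_swap z⟩
    rw [k2b_mem] at hz ⊢
    exact ⟨hz.2, hz.1⟩
  · intro z _
    rw [← hsw z (y, x), ← hsw z 0]
    rfl

end NU53
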