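import Pool.Agent.LibNU53.K2a
import Pool.Agent.LibNU53.K2b

/-! Row K2e. Locality, overlaps and non-degeneracy of the discretized model.
`mdl_loc`: `co_supp` and `|z/N - 2^(q+j) blk z|_∞ ≤ 2^(q+j)`. `mdl_ovl`: at most 5 values per coordinate.
`mdl_nd`: `u ≠ v` in `Sq 0 D`. Look at level `0`, `i = 0` (`sc = 1`), `z = N (u + k (u - v))`, `k = 0, 1, …`: the
coefficient at `u` is `√wt · φ(η k ‖u-v‖)`, the coefficient at `v` is `√wt · φ(η (k+1) ‖u-v‖)`. For `k = 0` the
first is positive; for `k` large it is `0`. Take the largest `k` with `φ(η k ‖u-v‖) ≠ 0`: then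
`|k (u-v)|_∞ < 2^q`, so `z ∈ SQ L`, and the two coefficients differ. MEDIUM. -/

open MeasureTheory ProbabilityTheory

namespace NU53

variable {φ : ℝ → ℝ} {a α η : ℝ} {q N : ℕ}

lemma k2e_loc1 {N M x y p : ℤ} (hN : 0 < N) (hM : 0 < M) (h1 : |N * x - y| < N * M)
    (h2 : y / (N * M) = p) : |x - M * p| < 2 * M := by
  have hNM : 0 < N * M := mul_pos hN hM
  have h3 : N * M * p ≤ y := by
    rw [← h2]; exact Int.mul_ediv_self_le hNM.ne'
  have h4 : y < N * M * p + N * M := by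
    rw [← h2]; exact Int.lt_mul_ediv_self_add hNM
  rw [abs_lt] at h1 ⊢
  constructor
  · have : N * (-(2 * M)) < N * (x - M * p) := by nlinarith
    exact lt_of_mul_lt_mul_left this hN.le
  · have : N * (x - M * p) < N * (2 * M) := by nlinarith
    exact lt_of_mul_lt_mul_left this hN.le

theorem mdl_loc (h : Prof φ a) (hη : 0 < η) (hq : 2 * a / η ≤ 2 ^ q) (hN : 1 ≤ N) (J L : ℕ)
    (b : (mdl φ α η q N J L).B) (k) (v : V) (hb : (mdl φ α η q N J L).a b k v ≠ 0) :
    v ∈ Sq ((mdl φ α η q N J L).pos b) (2 ^ (q + (mdl φ α η q N J L).lev b + 1)) := by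
  have hNZ : (0 : ℤ) < N := by exact_mod_cast hN
  set j := b.1.1 with hj
  set iz := ((Idx N L).equivFin.symm k).1 with hiz
  have hmem : iz ∈ Idx N L := ((Idx N L).equivFin.symm k).2
  have hi : iz.1 < N := by
    have := (Finset.mem_product.1 hmem).1
    exact Finset.mem_range.1 this
  have hb1 : blk q N j iz.2 = b.1.2 ∧ co φ α η N j iz.1 iz.2 v ≠ 0 := by
    by_cases hc : blk q N j iz.2 = b.1.2
    · refine ⟨hc, ?_⟩
      intro h0
      apply hb
      show (if blk q N j iz.2 = b.1.2 then co φ α η N j iz.1 iz.2 v else 0) = 0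
      rw [if_pos hc, h0]
    · exfalso
      apply hb
      show (if blk q N j iz.2 = b.1.2 then co φ α η N j iz.1 iz.2 v else 0) = 0
      rw [if_neg hc]
  obtain ⟨hc, hco⟩ := hb1
  have hs := co_supp h hη hq hN hi hco
  have hM : (0 : ℤ) < 2 ^ (q + j) := by positivity
  have c1 : iz.2.1 / (N * 2 ^ (q + j)) = b.1.2.1 := congrArg Prod.fst hc
  have c2 : iz.2.2 / (N * 2 ^ (q + j)) = b.1.2.2 := congrArg Prod.snd hc
  have r1 := k2e_loc1 hNZ hM hs.1 c1
  have r2 := k2e_loc1 hNZ hM hs.2 c2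
  rw [abs_lt] at r1 r2
  show v ∈ Box (2 ^ (q + j) * b.1.2.1 - 2 ^ (q + j + 1)) (2 ^ (q + j) * b.1.2.1 + 2 ^ (q + j + 1))
    (2 ^ (q + j) * b.1.2.2 - 2 ^ (q + j + 1)) (2 ^ (q + j) * b.1.2.2 + 2 ^ (q + j + 1))
  rw [pow_succ]
  refine ⟨⟨?_, ?_⟩, ?_, ?_⟩ <;> linarith

theorem mdl_ovl (q N J L : ℕ) (j : ℕ) (v : V) :
    (((mdl φ α η q N J L).eq j ∩ (mdl φ α η q N J L).near q v).card : ℝ) ≤ 25 := by
  classical
  set m := mdl φ α η q N J L with hm
  set M : ℤ := 2 ^ (q + j) with hM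
  have hMpos : 0 < M := by positivity
  set T : Finset (ℕ × V) := ({j} : Finset ℕ) ×ˢ
    (Finset.Icc (v.1 / M - 2) (v.1 / M + 2) ×ˢ Finset.Icc (v.2 / M - 2) (v.2 / M + 2)) with hT
  have key : ∀ x p : ℤ, |x - M * p| ≤ 2 * M → x / M - 2 ≤ p ∧ p ≤ x / M + 2 := by
    intro x p hxp
    rw [abs_le] at hxp
    have h1 : M * (x / M) ≤ x := Int.mul_ediv_self_le hMpos.ne'
    have h2 : x < M * (x / M) + M := Int.lt_mul_ediv_self_add hMpos
    constructor
    · have : M * (x / M - 2) ≤ M * p := by nlinarith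
      exact le_of_mul_le_mul_left this hMpos
    · have : M * p < M * (x / M + 3) := by nlinarith
      have := lt_of_mul_lt_mul_left this hMpos.le
      omega
  have hcard : (m.eq j ∩ m.near q v).card ≤ T.card := by
    apply Finset.card_le_card_of_injOn (fun b : m.B => (b.1 : ℕ × V))
    · intro b hb
      have hb' := Finset.mem_inter.1 hb
      have hj : b.1.1 = j := (Finset.mem_filter.1 hb'.1).2
      have hn : v ∈ Sq (m.pos b) (2 ^ (q + m.lev b + 1)) := (Finset.mem_filter.1 hb'.2).2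
      have hn2 : v ∈ Box (2 ^ (q + b.1.1) * b.1.2.1 - 2 ^ (q + b.1.1 + 1))
        (2 ^ (q + b.1.1) * b.1.2.1 + 2 ^ (q + b.1.1 + 1))
        (2 ^ (q + b.1.1) * b.1.2.2 - 2 ^ (q + b.1.1 + 1))
        (2 ^ (q + b.1.1) * b.1.2.2 + 2 ^ (q + b.1.1 + 1)) := hn
      rw [hj, pow_succ, ← hM] at hn2
      obtain ⟨⟨n1, n2⟩, n3, n4⟩ := hn2
      have k1 := key v.1 b.1.2.1 (by rw [abs_le]; constructor <;> linarith)
      have k2 := key v.2 b.1.2.2 (by rw [abs_le]; constructor <;> linarith)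
      show (b.1 : ℕ × V) ∈ (T : Set (ℕ × V))
      rw [Finset.mem_coe, hT, Finset.mem_product, Finset.mem_product, Finset.mem_Icc,
        Finset.mem_Icc, Finset.mem_singleton]
      exact ⟨hj, k1, k2⟩
    · intro b1 _ b2 _ he
      exact Subtype.ext he
  have hTc : T.card = 25 := by
    rw [hT, Finset.card_product, Finset.card_product, Finset.card_singleton, Int.card_Icc,
      Int.card_Icc]
    have e1 : v.1 / M + 2 + 1 - (v.1 / M - 2) = 5 := by ring
    have e2 : v.2 / M + 2 + 1 - (v.2 / M - 2) = 5 := by ring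
    rw [e1, e2]
    rfl
  rw [hTc] at hcard
  exact_mod_cast hcard

lemma k2e_blk {N L : ℕ} (hN : 1 ≤ N) (q j : ℕ) {z : V} (hz : z ∈ SQ L) : blk q N j z ∈ SQ L := by
  rw [k2b_mem] at hz ⊢
  have hM : (1 : ℤ) ≤ N * 2 ^ (q + j) := by
    have h1 : (1 : ℤ) ≤ N := by exact_mod_cast hN
    have h2 : (1 : ℤ) ≤ 2 ^ (q + j) := one_le_pow₀ (by norm_num)
    nlinarith
  have key : ∀ x : ℤ, |x| ≤ L → |x / (N * 2 ^ (q + j))| ≤ L := by
    intro x hx
    rw [abs_le] at hx ⊢
    have hL : (0 : ℤ) ≤ L := by positivity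
    constructor
    · apply Int.le_ediv_of_mul_le (by linarith)
      nlinarith
    · have : x / (N * 2 ^ (q + j)) ≤ L / (N * 2 ^ (q + j)) :=
        Int.ediv_le_ediv (by linarith) hx.2
      refine this.trans ?_
      exact Int.ediv_le_self _ hL
  exact ⟨key _ hz.1, key _ hz.2⟩

theorem mdl_nd (h : Prof φ a) (hη : 0 < η) (hq : 2 * a / η ≤ 2 ^ q) (hN : 1 ≤ N) (J L : ℕ)
    {D : ℤ} (hL : N * (D + 2 ^ q) ≤ L) {u v : V} (hu : u ∈ Sq 0 D) (hv : v ∈ Sq 0 D)
    (huv : u ≠ v) :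
    ∃ b ∈ (mdl φ α η q N J L).eq 0, ∃ i,
      (mdl φ α η q N J L).a b i u ≠ (mdl φ α η q N J L).a b i v := by
  classical
  have hNpos : (0 : ℝ) < N := by exact_mod_cast hN
  have hNZ : (0 : ℤ) < N := by exact_mod_cast hN
  set z : ℕ → V := fun k => (N * (u.1 + k * (u.1 - v.1)), N * (u.2 + k * (u.2 - v.2))) with hz
  -- the coefficient at `v` is the next coefficient at `u`
  have hshift : ∀ k : ℕ, co φ α η N 0 0 (z k) v = co φ α η N 0 0 (z (k + 1)) u := by
    intro k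
    apply k2b_congr
    · simp only [hz]
      push_cast
      field_simp
      ring
    · simp only [hz]
      push_cast
      field_simp
      ring
  -- support
  have hsup : ∀ k : ℕ, co φ α η N 0 0 (z k) u ≠ 0 →
      |(k : ℤ) * (u.1 - v.1)| < 2 ^ q ∧ |(k : ℤ) * (u.2 - v.2)| < 2 ^ q := by
    intro k hk
    have h1 := co_supp h hη hq hN (by omega : 0 < N) hk
    simp only [hz, add_zero] at h1
    have e1 : N * u.1 - N * (u.1 + k * (u.1 - v.1)) = -(N * (k * (u.1 - v.1))) := by ring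
    have e2 : N * u.2 - N * (u.2 + k * (u.2 - v.2)) = -(N * (k * (u.2 - v.2))) := by ring
    rw [e1, e2, abs_neg, abs_neg, abs_mul (N : ℤ), abs_mul (N : ℤ), abs_of_pos hNZ] at h1
    exact ⟨lt_of_mul_lt_mul_left h1.1 hNZ.le, lt_of_mul_lt_mul_left h1.2 hNZ.le⟩
  have h0 : co φ α η N 0 0 (z 0) u ≠ 0 := by
    unfold co
    apply mul_ne_zero
    · apply (Real.sqrt_pos.2 _).ne'
      unfold wt
      have := k2b_sc_pos N 0 0
      positivity
    · have e : ‖pt η N (z 0) u‖ = 0 := by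
        rw [k2b_norm]
        simp only [hz]
        push_cast
        rw [Real.sqrt_eq_zero']
        have e1 : (u.1 : ℝ) - N * (u.1 + 0 * (u.1 - v.1)) / N = 0 := by field_simp; ring
        have e2 : (u.2 : ℝ) - N * (u.2 + 0 * (u.2 - v.2)) / N = 0 := by field_simp; ring
        rw [e1, e2]
        simp
      rw [e, zero_div]
      exact h.pos0.ne'
  have hex : ∃ k : ℕ, co φ α η N 0 0 (z k) u = 0 := by
    refine ⟨2 ^ q, ?_⟩
    by_contra hcon
    have h1 := hsup _ hcon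
    apply huv
    have key : ∀ x : ℤ, |((2 ^ q : ℕ) : ℤ) * x| < 2 ^ q → x = 0 := by
      intro x hx
      push_cast at hx
      rw [abs_mul, abs_of_pos (by positivity : (0 : ℤ) < 2 ^ q)] at hx
      have h2 : |x| < 1 := by
        by_contra hc
        push Not at hc
        have : (2 : ℤ) ^ q * 1 ≤ 2 ^ q * |x| := mul_le_mul_of_nonneg_left hc (by positivity)
        linarith
      exact Int.abs_lt_one_iff.1 h2
    have k1 := key _ h1.1
    have k2 := key _ h1.2
    ext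
    · omega
    · omega
  set k0 := Nat.find hex with hk0
  have hk0s : co φ α η N 0 0 (z k0) u = 0 := Nat.find_spec hex
  have hk0pos : k0 ≠ 0 := by
    intro hc
    rw [hc] at hk0s
    exact h0 hk0s
  obtain ⟨k, hk⟩ : ∃ k, k0 = k + 1 := ⟨k0 - 1, by omega⟩
  have hku : co φ α η N 0 0 (z k) u ≠ 0 := Nat.find_min hex (by omega)
  have hkv : co φ α η N 0 0 (z k) v = 0 := by rw [hshift, ← hk]; exact hk0s
  have hs := hsup k hku
  have hzL : z k ∈ SQ (L : ℤ) := by
    rw [k2b_mem]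
    obtain ⟨⟨u1, u2⟩, u3, u4⟩ := hu
    simp only [Prod.fst_zero, Prod.snd_zero, zero_sub, zero_add] at u1 u2 u3 u4
    obtain ⟨s1, s2⟩ := hs
    rw [abs_lt] at s1 s2
    constructor
    · rw [abs_le]
      constructor
      · have : N * (-(D + 2 ^ q)) ≤ N * (u.1 + k * (u.1 - v.1)) :=
          mul_le_mul_of_nonneg_left (by linarith) hNZ.le
        simp only [hz]
        linarith
      · have : N * (u.1 + k * (u.1 - v.1)) ≤ N * (D + 2 ^ q) :=
          mul_le_mul_of_nonneg_left (by linarith) hNZ.le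
        simp only [hz]
        linarith
    · rw [abs_le]
      constructor
      · have : N * (-(D + 2 ^ q)) ≤ N * (u.2 + k * (u.2 - v.2)) :=
          mul_le_mul_of_nonneg_left (by linarith) hNZ.le
        simp only [hz]
        linarith
      · have : N * (u.2 + k * (u.2 - v.2)) ≤ N * (D + 2 ^ q) :=
          mul_le_mul_of_nonneg_left (by linarith) hNZ.le
        simp only [hz]
        linarith
  have hidx : ((0, z k) : ℕ × V) ∈ Idx N L := by
    unfold Idx
    rw [Finset.mem_product]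
    exact ⟨Finset.mem_range.2 (by omega), hzL⟩
  have hbB : ((0, blk q N 0 (z k)) : ℕ × V) ∈ Finset.range (J + 1) ×ˢ SQ (L : ℤ) := by
    rw [Finset.mem_product]
    exact ⟨Finset.mem_range.2 (by omega), k2e_blk hN q 0 hzL⟩
  refine ⟨⟨(0, blk q N 0 (z k)), hbB⟩, ?_, (Idx N L).equivFin ⟨(0, z k), hidx⟩, ?_⟩
  · exact Finset.mem_filter.2 ⟨Finset.mem_univ _, rfl⟩
  · have ha : ∀ w : V, (mdl φ α η q N J L).a ⟨(0, blk q N 0 (z k)), hbB⟩
        ((Idx N L).equivFin ⟨(0, z k), hidx⟩) w = co φ α η N 0 0 (z k) w := by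
      intro w
      show (if blk q N 0 ((Idx N L).equivFin.symm
          ((Idx N L).equivFin ⟨(0, z k), hidx⟩)).1.2 = blk q N 0 (z k) then
        co φ α η N 0 ((Idx N L).equivFin.symm ((Idx N L).equivFin ⟨(0, z k), hidx⟩)).1.1
          ((Idx N L).equivFin.symm ((Idx N L).equivFin ⟨(0, z k), hidx⟩)).1.2 w
      else 0) = co φ α η N 0 0 (z k) w
      rw [Equiv.symm_apply_apply, if_pos rfl]
    rw [ha, ha, hkv]
    exact hku

end NU53
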