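import Pool.Agent.LibNU53.K2d
import Pool.Agent.LibNU53.K2e

/-! Row K2. Existence of the models, with constants which only depend on the profile.
PLAN. `L` natural with `N * (D + 2^(q+J)) ≤ L`; `m = mdl φ α η q N J L`; `C` = maximum of `25` and the three
constants of `kN_var`, `kN_d1`, `kN_d12`; `c` from `kN_ge`. `cov`: `mdl_sum` with `T g = g u * g v`, `kN_trans`.
`d12`: `mdl_sum` with `T g` = square of the second difference. `pos_even`: `1 ≤ q`. SHORT/MEDIUM. -/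

open MeasureTheory ProbabilityTheory

namespace NU53

theorem mdl_ex {φ : ℝ → ℝ} {a : ℝ} (h : Prof φ a) : ∃ C c : ℝ, 0 < c ∧
    ∀ α : ℝ, 0 < α → α ≤ 1 → ∀ (η : ℝ) (q : ℕ), 0 < η → 1 ≤ q → 2 * a / η ≤ 2 ^ q →
    (2 : ℝ) ^ q ≤ 4 * a / η → ∀ (N J : ℕ) (D : ℤ), 1 ≤ N →
    ∃ m : Mdl, IsMdl C c α q J D (kN φ α η q N) m := by
  obtain ⟨C₁, hC1, hvar⟩ := kN_var h
  obtain ⟨C₂, hC2, hd1⟩ := kN_d1 h
  obtain ⟨C₃, hC3, hd12⟩ := kN_d12 h
  obtain ⟨c, hc0, hc1, hge⟩ := kN_ge h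
  set C : ℝ := max (max 25 C₁) (max C₂ C₃) with hC
  have e0 : (25 : ℝ) ≤ C := (le_max_left _ _).trans (le_max_left _ _)
  have e1 : C₁ ≤ C := (le_max_right _ _).trans (le_max_left _ _)
  have e2 : C₂ ≤ C := (le_max_left _ _).trans (le_max_right _ _)
  have e3 : C₃ ≤ C := (le_max_right _ _).trans (le_max_right _ _)
  refine ⟨C, c, hc0, ?_⟩
  intro α hα hα1 η q hη hq hq1 hq2 N J D hN
  have hsg : ∀ j, 0 ≤ sg α j ^ 2 := fun j => sq_nonneg _
  set L : ℕ := N * (D.toNat + 2 ^ (q + J)) with hL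
  have hLj : ∀ j, j ≤ J → (N : ℤ) * (D + 2 ^ (q + j)) ≤ (L : ℤ) := by
    intro j hj
    rw [hL]
    push_cast
    apply mul_le_mul_of_nonneg_left _ (by positivity)
    have h1 : D ≤ (D.toNat : ℤ) := Int.self_le_toNat D
    have h2 : (2 : ℤ) ^ (q + j) ≤ 2 ^ (q + J) := pow_le_pow_right₀ (by norm_num) (by omega)
    have h3 : max D 0 = (D.toNat : ℤ) := (Int.toNat_eq_max D).symm
    omega
  refine ⟨mdl φ α η q N J L, ?_⟩
  have hlev : ∀ b : (mdl φ α η q N J L).B, (mdl φ α η q N J L).lev b ≤ J := by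
    intro b
    have h1 := (Finset.mem_product.1 b.2).1
    rw [Finset.mem_range] at h1
    change b.1.1 ≤ J
    omega
  constructor
  · exact hq
  · exact ⟨hα.le, hα1⟩
  · exact ⟨hc0, hc1⟩
  · linarith
  · exact hlev
  · intro b
    obtain ⟨q', rfl⟩ : ∃ q', q = q' + 1 := ⟨q - 1, by omega⟩
    change Even ((2 : ℤ) ^ (q' + 1 + b.1.1) * b.1.2.1 + 2 ^ (q' + 1 + b.1.1) * b.1.2.2)
    rw [← mul_add, even_iff_two_dvd]
    exact (dvd_pow_self 2 (by omega)).mul_right _
  · intro b i v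
    change 0 ≤ ite _ _ _
    split_ifs
    · exact co_nonneg h _ _ _ _
    · exact le_rfl
  · exact fun b i v hb => mdl_loc h hη hq1 hN J L b i v hb
  · intro j hj u hu v hv
    have h1 := mdl_sum φ α η q N J L hN hj (fun g => g u * g v) (by simp)
    refine h1.trans ?_
    exact kN_trans h hη hq1 hN (hLj j hj) hu hv
  · exact fun j x y => kN_flip h j x y
  · exact fun j x y => kN_swap h j x y
  · intro j _
    exact (hvar α hα hα1 η q N hη hq1 hq2 hN j).trans (mul_le_mul_of_nonneg_right e1 (hsg j))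
  · intro j _ w h1 h2
    exact hge α hα hα1 η q N hη hq1 hq2 hN j w h1 h2
  · intro j _
    exact (hd1 α hα hα1 η q N hη hq1 hq2 hN j).trans
      (div_le_div_of_nonneg_right (mul_le_mul_of_nonneg_right e2 (hsg j)) (by positivity))
  · intro j hj v
    have h1 := mdl_sum φ α η q N J L hN hj (fun g => (g (v + (1, 1)) - g (v + (1, 0)) -
      g (v + (0, 1)) + g v) ^ 2) (by simp)
    refine h1.le.trans ((hd12 α hα hα1 η q N hη hq1 hq2 hN j L v).trans ?_)
    exact div_le_div_of_nonneg_right (mul_le_mul_of_nonneg_right e3 (hsg j)) (by positivity)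
  · exact fun j _ v => (mdl_ovl q N J L j v).trans e0
  · intro u hu v hv huv
    have h0 := hLj 0 (Nat.zero_le _)
    rw [add_zero] at h0
    exact mdl_nd h hη hq1 hN J L h0 hu hv huv

end NU53
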