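import Pool.Agent.LibNU53.K1

/-! Row K2a. The discretized model as a `Mdl`, and the summation formula.
Blocks: pairs `(j, p)`, `j ≤ J`, `p ∈ SQ L`; position `2^(q+j) p`. The Gaussians of a block are numbered by
all pairs `(i, z)`, `i < N`, `z ∈ SQ L`; the coefficient is `co … j i z v` if `z` belongs to the block
(`z / (N 2^(q+j)) = p`, integer division, coordinate by coordinate) and `0` otherwise.
`mdl_sum`: every `(i,z)` belongs to exactly one block of level `j` (`|z / M| ≤ |z|` for `M ≥ 1`, so the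
quotient is in `SQ L`). MEDIUM/SHORT. -/

open MeasureTheory ProbabilityTheory

namespace NU53

/-- The indices `(i, z)`. -/
noncomputable def Idx (N : ℕ) (L : ℕ) : Finset (ℕ × V) := Finset.range N ×ˢ SQ L

/-- The block of `z` at the level `j`. -/
def blk (q N j : ℕ) (z : V) : V := (z.1 / (N * 2 ^ (q + j)), z.2 / (N * 2 ^ (q + j)))

/-- The discretized model. -/
noncomputable def mdl (φ : ℝ → ℝ) (α η : ℝ) (q N J L : ℕ) : Mdl where
  B := {b : ℕ × V // b ∈ Finset.range (J + 1) ×ˢ SQ L}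
  fB := inferInstance
  dB := inferInstance
  M := (Idx N L).card
  lev := fun b => b.1.1
  pos := fun b => (2 ^ (q + b.1.1) * b.1.2.1, 2 ^ (q + b.1.1) * b.1.2.2)
  a := fun b k v =>
    if blk q N b.1.1 ((Idx N L).equivFin.symm k).1.2 = b.1.2 then
      co φ α η N b.1.1 ((Idx N L).equivFin.symm k).1.1 ((Idx N L).equivFin.symm k).1.2 v
    else 0

private theorem k2a_div {L M z : ℤ} (hM : 1 ≤ M) (h1 : -L ≤ z) (h2 : z ≤ L) (_hL : 0 ≤ L) :
    -L ≤ z / M ∧ z / M ≤ L := by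
  have hM0 : 0 < M := by omega
  constructor
  · rw [Int.le_ediv_iff_mul_le hM0]
    nlinarith
  · rw [← Int.lt_add_one_iff, Int.ediv_lt_iff_lt_mul hM0]
    nlinarith

private theorem k2a_blk {q N j L : ℕ} (hN : 1 ≤ N) {z : V} (hz : z ∈ SQ L) :
    blk q N j z ∈ SQ L := by
  unfold SQ at hz ⊢
  rw [Finset.mem_product, Finset.mem_Icc, Finset.mem_Icc] at hz ⊢
  have hM : (1 : ℤ) ≤ N * 2 ^ (q + j) := by
    have h1 : (1 : ℤ) ≤ N := by exact_mod_cast hN
    have h2 : (1 : ℤ) ≤ 2 ^ (q + j) := one_le_pow₀ (by norm_num)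
    nlinarith
  exact ⟨k2a_div hM hz.1.1 hz.1.2 (by positivity), k2a_div hM hz.2.1 hz.2.2 (by positivity)⟩

theorem mdl_sum (φ : ℝ → ℝ) (α η : ℝ) (q N J L : ℕ) (hN : 1 ≤ N) {j : ℕ} (hj : j ≤ J)
    (T : (V → ℝ) → ℝ) (hT : T 0 = 0) :
    ∑ b ∈ (mdl φ α η q N J L).eq j, ∑ k, T ((mdl φ α η q N J L).a b k) =
      ∑ i ∈ Finset.range N, ∑ z ∈ SQ L, T (co φ α η N j i z) := by
  have h1 : ∀ b ∈ (mdl φ α η q N J L).eq j, ∑ k, T ((mdl φ α η q N J L).a b k) =
      ∑ x ∈ Idx N L, if blk q N j x.2 = b.1.2 then T (co φ α η N j x.1 x.2) else 0 := by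
    intro b hb
    have hbj : b.1.1 = j := (Finset.mem_filter.1 hb).2
    have h2 : ∑ k : Fin (Idx N L).card, T ((mdl φ α η q N J L).a b k) =
        ∑ k : Fin (Idx N L).card, (fun x : {x // x ∈ Idx N L} =>
          if blk q N j x.1.2 = b.1.2 then T (co φ α η N j x.1.1 x.1.2) else 0)
          ((Idx N L).equivFin.symm k) := by
      refine Finset.sum_congr rfl fun k _ => ?_
      dsimp only
      have h3 : (mdl φ α η q N J L).a b k = fun v =>
          if blk q N b.1.1 ((Idx N L).equivFin.symm k).1.2 = b.1.2 then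
            co φ α η N b.1.1 ((Idx N L).equivFin.symm k).1.1 ((Idx N L).equivFin.symm k).1.2 v
          else 0 := rfl
      rw [h3, hbj]
      split_ifs with h4
      · rfl
      · exact hT
    refine h2.trans ?_
    rw [Equiv.sum_comp (Idx N L).equivFin.symm (fun x : {x // x ∈ Idx N L} =>
      if blk q N j x.1.2 = b.1.2 then T (co φ α η N j x.1.1 x.1.2) else 0)]
    exact Finset.sum_coe_sort (Idx N L) (fun x =>
      if blk q N j x.2 = b.1.2 then T (co φ α η N j x.1 x.2) else 0)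
  rw [Finset.sum_congr rfl h1, Finset.sum_comm]
  unfold Idx
  rw [Finset.sum_product]
  refine Finset.sum_congr rfl fun i _ => Finset.sum_congr rfl fun z hz => ?_
  dsimp only
  have hmem : (j, blk q N j z) ∈ Finset.range (J + 1) ×ˢ SQ L :=
    Finset.mem_product.2 ⟨Finset.mem_range.2 (by omega), k2a_blk hN hz⟩
  obtain ⟨b₀, hb₀⟩ : ∃ b₀ : (mdl φ α η q N J L).B, b₀ = ⟨(j, blk q N j z), hmem⟩ := ⟨_, rfl⟩
  have hb1 : (mdl φ α η q N J L).lev b₀ = j := by rw [hb₀]; rfl
  have hb2 : b₀.1.2 = blk q N j z := by rw [hb₀]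
  have hb3 : b₀ ∈ (mdl φ α η q N J L).eq j := Finset.mem_filter.2 ⟨Finset.mem_univ _, hb1⟩
  refine (Finset.sum_eq_single b₀ ?_ fun hnot => absurd hb3 hnot).trans ?_
  · intro b hb hne
    refine if_neg fun h4 => ?_
    have hbj : b.1.1 = j := (Finset.mem_filter.1 hb).2
    refine hne (Subtype.ext (Prod.ext ?_ ?_))
    · exact hbj.trans hb1.symm
    · exact h4.symm.trans hb2.symm
  · exact if_pos hb2.symm

end NU53
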