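import Pool.Agent.LibNU53.K1b
import Pool.Agent.LibNU53.K2b

/-! Row K2c. Size of the discrete covariances, uniformly in `α ∈ (0,1]`, `η`, `q`, `N`, `j`.
`wsum_le`: if `|h i z| ≤ M` and `h i z = 0` unless `z` is in one of four squares of side `2 N 2^(q+j)`
(centres `N u`, `u ∈ U`, `card U ≤ 4`) then
`∑_{i<N} ∑_{z ∈ SQ L} wt · h ≤ N · (4 · 9 N² 4^(q+j)) · M · 2^(-j(3+α)) η² 2^j / N³ = 36 M (2^q η)² σ_j²
 ≤ 36·16 a² M σ_j²` (`sc ≥ 2^j`, `2^q ≤ 4a/η`, `(2K+1)² ≤ 9K²`).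
`kN_var`: `wsum_le` with `h = φ² ≤ M²`. `kN_ge`: with `ρ` of `prof_near`, for `|w|_∞ ≤ c 2^(q+j)`,
`c ≤ ρ/(32a)`, and `|z|_∞ ≤ N r1`, `r1 = ρ 2^j/(4η)`: both factors are `≥ φ 0/2`; there are at least `(N r1)²`
such `z` (all in the square of the definition), `sc ≤ 2^(j+1)`:
`kN ≥ N · 2^(-(j+1)(3+α)) η² 2^j/N³ · (N ρ 2^j/(4η))² · (φ 0)²/4 ≥ (ρ φ 0)²/1024 · σ_j²`.
(`sg α j ^ 2 = 2^(-α j)`.) MEDIUM/STRONG. -/

open MeasureTheory ProbabilityTheory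

namespace NU53

open GFPerc (E2)

variable {φ : ℝ → ℝ} {a : ℝ}

private theorem k2c_sg (α : ℝ) (j : ℕ) : sg α j ^ 2 = (2 : ℝ) ^ (-(α * j)) := by
  unfold sg
  rw [← Real.rpow_natCast, ← Real.rpow_mul (by norm_num)]
  congr 1
  push_cast
  ring

private theorem k2c_sc {N j i : ℕ} (hN : 1 ≤ N) (hi : i < N) :
    (2 : ℝ) ^ j ≤ sc N j i ∧ sc N j i ≤ 2 * 2 ^ j := by
  unfold sc
  have hN' : (0 : ℝ) < N := by exact_mod_cast hN
  have h1 : (0 : ℝ) ≤ (i : ℝ) / N := by positivity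
  have h2 : (i : ℝ) / N ≤ 1 := by
    rw [div_le_one hN']
    exact_mod_cast hi.le
  have h3 : (0 : ℝ) < 2 ^ j := by positivity
  constructor <;> nlinarith

private theorem k2c_pow (α : ℝ) (j : ℕ) :
    ((2 : ℝ) ^ j) ^ (-(3 + α)) = (2 : ℝ) ^ (-(α * j)) / (2 ^ j) ^ 3 := by
  have h2 : (0 : ℝ) < 2 ^ j := by positivity
  rw [neg_add, Real.rpow_add h2]
  have e1 : ((2 : ℝ) ^ j) ^ (-3 : ℝ) = 1 / (2 ^ j) ^ 3 := by
    rw [Real.rpow_neg h2.le]
    norm_num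
  have e2 : ((2 : ℝ) ^ j) ^ (-α) = (2 : ℝ) ^ (-(α * j)) := by
    rw [← Real.rpow_natCast, ← Real.rpow_mul (by norm_num)]
    congr 1
    ring
  rw [e1, e2]
  ring

private theorem k2c_wt_le {α η : ℝ} {N j i : ℕ} (hα : 0 < α) (hN : 1 ≤ N) (hi : i < N) :
    wt α η N j i ≤ (2 : ℝ) ^ (-(α * j)) / (2 ^ j) ^ 3 * (η ^ 2 * 2 ^ j / N ^ 3) := by
  unfold wt
  rw [← k2c_pow]
  apply mul_le_mul_of_nonneg_right _ (by positivity)
  exact Real.rpow_le_rpow_of_nonpos (by positivity) (k2c_sc hN hi).1 (by linarith)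

private theorem k2c_wt_ge {α η : ℝ} {N j i : ℕ} (hα : 0 < α) (hα1 : α ≤ 1) (hN : 1 ≤ N) (hi : i < N) :
    1 / 16 * ((2 : ℝ) ^ (-(α * j)) / (2 ^ j) ^ 3) * (η ^ 2 * 2 ^ j / N ^ 3) ≤ wt α η N j i := by
  unfold wt
  rw [← k2c_pow]
  apply mul_le_mul_of_nonneg_right _ (by positivity)
  have hsc := k2c_sc (j := j) hN hi
  have h0 : (0 : ℝ) < 2 ^ j := by positivity
  have h1 : (2 * (2 : ℝ) ^ j) ^ (-(3 + α)) ≤ sc N j i ^ (-(3 + α)) :=
    Real.rpow_le_rpow_of_nonpos (lt_of_lt_of_le h0 hsc.1) hsc.2 (by linarith)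
  refine le_trans ?_ h1
  rw [Real.mul_rpow (by norm_num) h0.le]
  apply mul_le_mul_of_nonneg_right _ (by positivity)
  have h2 : (2 : ℝ) ^ (-4 : ℝ) ≤ (2 : ℝ) ^ (-(3 + α)) :=
    Real.rpow_le_rpow_of_exponent_le (by norm_num) (by linarith)
  refine le_trans (le_of_eq ?_) h2
  rw [Real.rpow_neg (by norm_num)]
  norm_num

private theorem k2c_wt_nonneg (α η : ℝ) (N j i : ℕ) : 0 ≤ wt α η N j i := by
  unfold wt sc
  positivity

private theorem k2c_wt_pos {α η : ℝ} (hη : 0 < η) {N : ℕ} (hN : 1 ≤ N) (j i : ℕ) :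
    0 < wt α η N j i := by
  unfold wt sc
  have hN' : (0 : ℝ) < N := by exact_mod_cast hN
  positivity

private theorem k2c_card {N q j : ℕ} (hN : 1 ≤ N) (U : Finset V) (hU : U.card ≤ 4) (E : Finset V)
    (hE : ∀ z ∈ E, ∃ u ∈ U, |N * u.1 - z.1| ≤ N * 2 ^ (q + j) ∧ |N * u.2 - z.2| ≤ N * 2 ^ (q + j)) :
    (E.card : ℝ) ≤ 36 * (N * 2 ^ (q + j) : ℝ) ^ 2 := by
  classical
  set K : ℕ := N * 2 ^ (q + j) with hK
  have hK1 : 1 ≤ K := Nat.one_le_iff_ne_zero.2 (by positivity)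
  have hKz : ((N : ℤ) * 2 ^ (q + j)) = (K : ℤ) := by rw [hK]; push_cast; ring
  let Q : V → Finset V := fun u =>
    Finset.Icc ((N : ℤ) * u.1 - K) (N * u.1 + K) ×ˢ Finset.Icc ((N : ℤ) * u.2 - K) (N * u.2 + K)
  have hQ : ∀ u, (Q u).card = (2 * K + 1) * (2 * K + 1) := by
    intro u
    have h1 : ∀ c : ℤ, (Finset.Icc (c - K) (c + K)).card = 2 * K + 1 := by
      intro c
      rw [Int.card_Icc]
      omega
    show (Finset.Icc ((N : ℤ) * u.1 - K) (N * u.1 + K) ×ˢ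
      Finset.Icc ((N : ℤ) * u.2 - K) (N * u.2 + K)).card = _
    rw [Finset.card_product, h1, h1]
  have hsub : E ⊆ U.biUnion Q := by
    intro z hz
    obtain ⟨u, hu, h1, h2⟩ := hE z hz
    rw [hKz] at h1 h2
    rw [abs_le] at h1 h2
    rw [Finset.mem_biUnion]
    refine ⟨u, hu, ?_⟩
    show z ∈ Finset.Icc ((N : ℤ) * u.1 - K) (N * u.1 + K) ×ˢ
      Finset.Icc ((N : ℤ) * u.2 - K) (N * u.2 + K)
    rw [Finset.mem_product, Finset.mem_Icc, Finset.mem_Icc]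
    omega
  have h1 : E.card ≤ 4 * ((2 * K + 1) * (2 * K + 1)) := by
    calc E.card ≤ (U.biUnion Q).card := Finset.card_le_card hsub
      _ ≤ ∑ u ∈ U, (Q u).card := Finset.card_biUnion_le
      _ = U.card * ((2 * K + 1) * (2 * K + 1)) := by
        rw [Finset.sum_congr rfl (fun u _ => hQ u), Finset.sum_const, smul_eq_mul]
      _ ≤ 4 * ((2 * K + 1) * (2 * K + 1)) := Nat.mul_le_mul_right _ hU
  have h2 : (E.card : ℝ) ≤ 4 * ((2 * K + 1) * (2 * K + 1)) := by exact_mod_cast h1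
  have h3 : (1 : ℝ) ≤ K := by exact_mod_cast hK1
  have h4 : ((N : ℝ) * 2 ^ (q + j)) = (K : ℝ) := by rw [hK]; push_cast; ring
  rw [h4]
  nlinarith

theorem wsum_le {a α η : ℝ} {q N : ℕ} (ha : 0 < a) (hα : 0 < α) (hα1 : α ≤ 1) (hη : 0 < η)
    (hq : (2 : ℝ) ^ q ≤ 4 * a / η) (hN : 1 ≤ N) (j : ℕ) (L : ℤ) {M : ℝ} (hM : 0 ≤ M)
    (h : ℕ → V → ℝ) (hM1 : ∀ i, i < N → ∀ z, |h i z| ≤ M) (U : Finset V) (hU : U.card ≤ 4)
    (hs : ∀ i, i < N → ∀ z, h i z ≠ 0 → ∃ u ∈ U, |N * u.1 - z.1| ≤ N * 2 ^ (q + j) ∧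
      |N * u.2 - z.2| ≤ N * 2 ^ (q + j)) :
    ∑ i ∈ Finset.range N, ∑ z ∈ SQ L, wt α η N j i * h i z ≤ 576 * a ^ 2 * M * sg α j ^ 2 := by
  classical
  have hN' : (0 : ℝ) < N := by exact_mod_cast hN
  set w : ℝ := (2 : ℝ) ^ (-(α * j)) with hw
  have hw0 : 0 < w := by positivity
  set W : ℝ := w / (2 ^ j) ^ 3 * (η ^ 2 * 2 ^ j / N ^ 3) with hW
  have hW0 : 0 ≤ W := by positivity
  set B : ℝ := 36 * (N * 2 ^ (q + j) : ℝ) ^ 2 * (W * M) with hB
  have hrow : ∀ i ∈ Finset.range N, ∑ z ∈ SQ L, wt α η N j i * h i z ≤ B := by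
    intro i hi
    rw [Finset.mem_range] at hi
    have h1 : ∑ z ∈ SQ L, wt α η N j i * h i z =
        ∑ z ∈ (SQ L).filter (fun z => h i z ≠ 0), wt α η N j i * h i z := by
      symm
      apply Finset.sum_subset (Finset.filter_subset _ _)
      intro z hz hz'
      have : h i z = 0 := by
        by_contra hne
        exact hz' (Finset.mem_filter.2 ⟨hz, hne⟩)
      rw [this, mul_zero]
    rw [h1]
    have h2 : ∀ z ∈ (SQ L).filter (fun z => h i z ≠ 0), wt α η N j i * h i z ≤ W * M := by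
      intro z _
      calc wt α η N j i * h i z ≤ wt α η N j i * |h i z| :=
            mul_le_mul_of_nonneg_left (le_abs_self _) (k2c_wt_nonneg _ _ _ _ _)
        _ ≤ W * M := mul_le_mul (k2c_wt_le hα hN hi) (hM1 i hi z) (abs_nonneg _) hW0
    have h3 := Finset.sum_le_card_nsmul _ _ _ h2
    rw [nsmul_eq_mul] at h3
    refine h3.trans ?_
    apply mul_le_mul_of_nonneg_right _ (by positivity)
    apply k2c_card hN U hU
    intro z hz
    exact hs i hi z (Finset.mem_filter.1 hz).2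
  have h4 := Finset.sum_le_card_nsmul _ _ _ hrow
  rw [nsmul_eq_mul, Finset.card_range] at h4
  refine h4.trans ?_
  rw [k2c_sg, ← hw, hB, hW]
  have h5 : (N : ℝ) * (36 * (N * 2 ^ (q + j) : ℝ) ^ 2 * (w / (2 ^ j) ^ 3 * (η ^ 2 * 2 ^ j / N ^ 3) * M)) =
      36 * (2 ^ q * η) ^ 2 * M * w := by
    rw [pow_add]
    field_simp
  rw [h5]
  have h6 : 2 ^ q * η ≤ 4 * a := by rwa [le_div_iff₀ hη] at hq
  have h7 : (2 ^ q * η) ^ 2 ≤ (4 * a) ^ 2 := pow_le_pow_left₀ (by positivity) h6 2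
  calc 36 * (2 ^ q * η) ^ 2 * M * w ≤ 36 * (4 * a) ^ 2 * M * w := by gcongr
    _ = 576 * a ^ 2 * M * w := by ring

private theorem k2c_co (α η : ℝ) (N j i : ℕ) (z u v : V) :
    co φ α η N j i z u * co φ α η N j i z v =
      wt α η N j i * (φ (‖pt η N z u‖ / sc N j i) * φ (‖pt η N z v‖ / sc N j i)) := by
  unfold co
  have h := Real.mul_self_sqrt (k2c_wt_nonneg α η N j i)
  calc _ = (Real.sqrt (wt α η N j i) * Real.sqrt (wt α η N j i)) *
        (φ (‖pt η N z u‖ / sc N j i) * φ (‖pt η N z v‖ / sc N j i)) := by ring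
    _ = _ := by rw [h]

private theorem k2c_phi_le {M : ℝ} (hM : ∀ x : E2, φ ‖x‖ ≤ M) {r : ℝ} (hr : 0 ≤ r) : φ r ≤ M := by
  have h := hM !₂[r, 0]
  have e : ‖(!₂[r, 0] : E2)‖ = r := by
    rw [EuclideanSpace.norm_eq]
    simp [abs_of_nonneg hr, Real.sqrt_sq hr]
  rwa [e] at h

theorem kN_var (h : Prof φ a) : ∃ C : ℝ, 1 ≤ C ∧ ∀ (α : ℝ), 0 < α → α ≤ 1 →
    ∀ (η : ℝ) (q N : ℕ), 0 < η → 2 * a / η ≤ 2 ^ q → (2 : ℝ) ^ q ≤ 4 * a / η → 1 ≤ N → ∀ j : ℕ,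
    kN φ α η q N j 0 ≤ C * sg α j ^ 2 := by
  obtain ⟨M, hM1, hM, -, -⟩ := prof_bdd h
  refine ⟨max 1 (576 * a ^ 2 * M ^ 2), le_max_left _ _, ?_⟩
  intro α hα hα1 η q N hη hq1 hq2 hN j
  have hsc0 : ∀ i, 0 ≤ sc N j i := fun i => by unfold sc; positivity
  have h1 := wsum_le h.ha hα hα1 hη hq2 hN j (N * 2 ^ (q + j)) (M := M ^ 2) (by positivity)
    (fun i z => φ (‖pt η N z 0‖ / sc N j i) * φ (‖pt η N z 0‖ / sc N j i)) (by
      intro i hi z
      have h2 := k2c_phi_le hM (show 0 ≤ ‖pt η N z 0‖ / sc N j i from div_nonneg (norm_nonneg _) (hsc0 i))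
      have h3 := h.nonneg (‖pt η N z 0‖ / sc N j i)
      show |φ (‖pt η N z 0‖ / sc N j i) * φ (‖pt η N z 0‖ / sc N j i)| ≤ M ^ 2
      rw [abs_of_nonneg (mul_nonneg h3 h3)]
      nlinarith) {0} (by simp) (by
      intro i hi z hz
      refine ⟨0, Finset.mem_singleton_self _, ?_⟩
      have h2 : co φ α η N j i z 0 ≠ 0 := by
        unfold co
        apply mul_ne_zero
        · exact (Real.sqrt_pos.2 (k2c_wt_pos hη hN j i)).ne'
        · intro h0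
          apply hz
          show φ (‖pt η N z 0‖ / sc N j i) * φ (‖pt η N z 0‖ / sc N j i) = 0
          rw [h0, mul_zero]
      obtain ⟨h3, h4⟩ := co_supp h hη hq1 hN hi h2
      exact ⟨h3.le, h4.le⟩)
  have h2 : kN φ α η q N j 0 ≤ 576 * a ^ 2 * M ^ 2 * sg α j ^ 2 := by
    refine le_trans (le_of_eq ?_) h1
    unfold kN
    apply Finset.sum_congr rfl
    intro i _
    apply Finset.sum_congr rfl
    intro z _
    exact k2c_co α η N j i z 0 0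
  refine h2.trans ?_
  exact mul_le_mul_of_nonneg_right (le_max_right _ _) (sq_nonneg _)

private theorem k2c_norm (x y : ℝ) : ‖(!₂[x, y] : E2)‖ ≤ |x| + |y| := by
  rw [EuclideanSpace.norm_eq]
  simp only [Fin.sum_univ_two, Real.norm_eq_abs]
  apply Real.sqrt_le_iff.2
  refine ⟨by positivity, ?_⟩
  have h1 : (![x, y] : Fin 2 → ℝ) 0 = x := rfl
  have h2 : (![x, y] : Fin 2 → ℝ) 1 = y := rfl
  rw [h1, h2]
  nlinarith [mul_nonneg (abs_nonneg x) (abs_nonneg y)]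

theorem kN_ge (h : Prof φ a) : ∃ c : ℝ, 0 < c ∧ c ≤ 1 ∧ ∀ (α : ℝ), 0 < α → α ≤ 1 →
    ∀ (η : ℝ) (q N : ℕ), 0 < η → 2 * a / η ≤ 2 ^ q → (2 : ℝ) ^ q ≤ 4 * a / η → 1 ≤ N →
    ∀ (j : ℕ) (w : V), |(w.1 : ℝ)| ≤ c * 2 ^ (q + j) → |(w.2 : ℝ)| ≤ c * 2 ^ (q + j) →
    c * sg α j ^ 2 ≤ kN φ α η q N j w := by
  classical
  obtain ⟨ρ, hρ, hρa, hnear⟩ := prof_near h
  have ha := h.ha
  have hφ0 := h.pos0
  refine ⟨min 1 (min (ρ / (16 * a)) ((ρ * φ 0) ^ 2 / 1024)),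
    lt_min one_pos (lt_min (by positivity) (by positivity)), min_le_left _ _, ?_⟩
  set c : ℝ := min 1 (min (ρ / (16 * a)) ((ρ * φ 0) ^ 2 / 1024)) with hc
  have hc1 : c ≤ ρ / (16 * a) := (min_le_right _ _).trans (min_le_left _ _)
  have hc2 : c ≤ (ρ * φ 0) ^ 2 / 1024 := (min_le_right _ _).trans (min_le_right _ _)
  intro α hα hα1 η q N hη hq1 hq2 hN j w hw1 hw2
  have hN' : (0 : ℝ) < N := by exact_mod_cast hN
  have h2q : 2 ^ q * η ≤ 4 * a := by rwa [le_div_iff₀ hη] at hq2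
  have h2q' : 2 * a ≤ 2 ^ q * η := by rwa [div_le_iff₀ hη] at hq1
  have h2j : (0 : ℝ) < 2 ^ j := by positivity
  have h2q0 : (0 : ℝ) < 2 ^ q := by positivity
  set r1 : ℝ := ρ * 2 ^ j / (4 * η) with hr1
  have hr10 : 0 < r1 := by positivity
  set m : ℤ := ⌊(N : ℝ) * r1⌋ with hm
  have hm0 : 0 ≤ m := Int.floor_nonneg.2 (by positivity)
  have hmle : (m : ℝ) ≤ N * r1 := Int.floor_le _
  -- the small square is contained in the square of the definition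
  have hr1' : r1 ≤ 2 ^ (q + j) := by
    rw [hr1, div_le_iff₀ (by positivity), pow_add]
    have h1 : ρ ≤ 2 ^ q * η := by linarith
    have h3 : ρ * 2 ^ j ≤ (2 ^ q * η) * 2 ^ j := mul_le_mul_of_nonneg_right h1 h2j.le
    have h4 : 0 < 2 ^ q * η * 2 ^ j := by positivity
    nlinarith
  have hsub : SQ m ⊆ SQ (N * 2 ^ (q + j)) := by
    have hmm : m ≤ N * 2 ^ (q + j) := by
      have h1 : (m : ℝ) ≤ N * 2 ^ (q + j) := hmle.trans (mul_le_mul_of_nonneg_left hr1' hN'.le)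
      exact_mod_cast h1
    intro z hz
    unfold SQ at hz ⊢
    rw [Finset.mem_product, Finset.mem_Icc, Finset.mem_Icc] at hz ⊢
    omega
  have hzm : ∀ z ∈ SQ m, |(z.1 : ℝ)| / N ≤ r1 ∧ |(z.2 : ℝ)| / N ≤ r1 := by
    intro z hz
    unfold SQ at hz
    rw [Finset.mem_product, Finset.mem_Icc, Finset.mem_Icc] at hz
    have h1 : |z.1| ≤ m := abs_le.2 hz.1
    have h2 : |z.2| ≤ m := abs_le.2 hz.2
    have h1' : |(z.1 : ℝ)| ≤ m := by exact_mod_cast h1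
    have h2' : |(z.2 : ℝ)| ≤ m := by exact_mod_cast h2
    constructor
    · rw [div_le_iff₀ hN']; linarith
    · rw [div_le_iff₀ hN']; linarith
  -- lower bound of the profile
  have hprof : ∀ i, i < N → ∀ z ∈ SQ m, ∀ v : V, |(v.1 : ℝ)| ≤ c * 2 ^ (q + j) →
      |(v.2 : ℝ)| ≤ c * 2 ^ (q + j) → φ 0 / 2 ≤ φ (‖pt η N z v‖ / sc N j i) := by
    intro i hi z hz v hv1 hv2
    obtain ⟨hs1, hs2⟩ := k2c_sc (j := j) hN hi
    have hs0 : 0 < sc N j i := lt_of_lt_of_le h2j hs1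
    apply hnear
    · positivity
    · rw [div_le_iff₀ hs0]
      obtain ⟨hz1, hz2⟩ := hzm z hz
      have h3 : ∀ x y : ℝ, |x| ≤ c * 2 ^ (q + j) → |y| / N ≤ r1 →
          |η * (x - y / N)| ≤ η * (c * 2 ^ (q + j) + r1) := by
        intro x y hx hy
        rw [abs_mul, abs_of_pos hη]
        apply mul_le_mul_of_nonneg_left _ hη.le
        calc |x - y / N| ≤ |x| + |y / N| := abs_sub _ _
          _ = |x| + |y| / N := by rw [abs_div, abs_of_pos hN']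
          _ ≤ _ := by linarith
      have h4 : ‖pt η N z v‖ ≤ 2 * (η * (c * 2 ^ (q + j) + r1)) := by
        unfold pt
        refine (k2c_norm _ _).trans ?_
        have := h3 _ _ hv1 hz1
        have := h3 _ _ hv2 hz2
        linarith
      have h5 : η * r1 = ρ * 2 ^ j / 4 := by
        rw [hr1]
        field_simp
      have h6 : η * (c * 2 ^ (q + j)) ≤ ρ * 2 ^ j / 4 := by
        have h7 : η * (c * 2 ^ (q + j)) = c * (2 ^ q * η) * 2 ^ j := by rw [pow_add]; ring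
        rw [h7]
        have h8 : c * (2 ^ q * η) ≤ ρ / (16 * a) * (4 * a) :=
          mul_le_mul hc1 h2q (by positivity) (by positivity)
        have h9 : ρ / (16 * a) * (4 * a) = ρ / 4 := by
          field_simp
          norm_num
        rw [h9] at h8
        have := mul_le_mul_of_nonneg_right h8 h2j.le
        linarith
      calc ‖pt η N z v‖ ≤ 2 * (η * (c * 2 ^ (q + j) + r1)) := h4
        _ = 2 * (η * (c * 2 ^ (q + j))) + 2 * (η * r1) := by ring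
        _ ≤ 2 * (ρ * 2 ^ j / 4) + 2 * (ρ * 2 ^ j / 4) := by rw [h5]; linarith
        _ = ρ * 2 ^ j := by ring
        _ ≤ ρ * sc N j i := mul_le_mul_of_nonneg_left hs1 hρ.le
  have hzero : |((0 : V).1 : ℝ)| ≤ c * 2 ^ (q + j) ∧ |((0 : V).2 : ℝ)| ≤ c * 2 ^ (q + j) := by
    have hcpos : 0 < c := lt_min one_pos (lt_min (by positivity) (by positivity))
    have h0 : (0 : ℝ) ≤ c * 2 ^ (q + j) := by positivity
    simp [h0]
  set W : ℝ := 1 / 16 * ((2 : ℝ) ^ (-(α * j)) / (2 ^ j) ^ 3) * (η ^ 2 * 2 ^ j / N ^ 3) with hW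
  have hW0 : 0 ≤ W := by positivity
  have hrow : ∀ i ∈ Finset.range N, (N * r1) ^ 2 * (W * (φ 0 / 2 * (φ 0 / 2))) ≤
      ∑ z ∈ SQ (N * 2 ^ (q + j)), co φ α η N j i z 0 * co φ α η N j i z w := by
    intro i hi
    rw [Finset.mem_range] at hi
    have h1 : ∑ z ∈ SQ m, co φ α η N j i z 0 * co φ α η N j i z w ≤
        ∑ z ∈ SQ (N * 2 ^ (q + j)), co φ α η N j i z 0 * co φ α η N j i z w := by
      apply Finset.sum_le_sum_of_subset_of_nonneg hsub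
      intro z _ _
      exact mul_nonneg (co_nonneg h _ _ _ _) (co_nonneg h _ _ _ _)
    refine le_trans ?_ h1
    have h2 : ∀ z ∈ SQ m, W * (φ 0 / 2 * (φ 0 / 2)) ≤ co φ α η N j i z 0 * co φ α η N j i z w := by
      intro z hz
      rw [k2c_co]
      apply mul_le_mul (k2c_wt_ge hα hα1 hN hi) _ (by positivity) (k2c_wt_nonneg _ _ _ _ _)
      exact mul_le_mul (hprof i hi z hz 0 hzero.1 hzero.2) (hprof i hi z hz w hw1 hw2) (by positivity)
        (h.nonneg _)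
    have h3 := Finset.card_nsmul_le_sum _ _ _ h2
    rw [nsmul_eq_mul] at h3
    refine le_trans ?_ h3
    apply mul_le_mul_of_nonneg_right _ (by positivity)
    have hcard : (SQ m).card = (2 * m + 1).toNat * (2 * m + 1).toNat := by
      unfold SQ
      rw [Finset.card_product, Int.card_Icc]
      have : m + 1 - -m = 2 * m + 1 := by ring
      rw [this]
    have h4 : (((2 * m + 1).toNat : ℕ) : ℝ) = 2 * m + 1 := by
      have : (((2 * m + 1).toNat : ℕ) : ℤ) = 2 * m + 1 := Int.toNat_of_nonneg (by omega)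
      exact_mod_cast this
    rw [hcard]
    push_cast
    rw [h4]
    have h5 : (N : ℝ) * r1 < m + 1 := Int.lt_floor_add_one _
    have h6 : (N : ℝ) * r1 ≤ 2 * m + 1 := by
      have : (0 : ℝ) ≤ m := by exact_mod_cast hm0
      linarith
    have h7 : (0 : ℝ) ≤ N * r1 := by positivity
    nlinarith
  have h8 := Finset.card_nsmul_le_sum _ _ _ hrow
  rw [nsmul_eq_mul, Finset.card_range] at h8
  refine le_trans ?_ h8
  have h9 : (N : ℝ) * ((N * r1) ^ 2 * (W * (φ 0 / 2 * (φ 0 / 2)))) =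
      (ρ * φ 0) ^ 2 / 1024 * sg α j ^ 2 * (16 / 16) := by
    rw [k2c_sg, hW, hr1]
    field_simp
    ring
  rw [h9]
  have h10 := mul_le_mul_of_nonneg_right hc2 (sq_nonneg (sg α j))
  linarith

end NU53
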