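import Pool.Agent.LibNU53.K2c

/-! Row K2d. First and second differences.
`kN_d1`: `2 (kN 0 - kN (1,0)) = ∑ (co z 0 - co z (1,0))²` (`kN_trans` with `D = 1` and a large `L`, expand the
square) and `|φ(‖x‖/s) - φ(‖x'‖/s)| ≤ M η/s ≤ M η / 2^j` (`prof_bdd`, `‖x‖/s = ‖x/s‖`), `η ≤ 4a/2^q`:
`wsum_le` with the bound `M² η²/4^j ≤ 16 a² M²/4^(q+j)`. `kN_d12`: same with the second difference,
bound `M² (η/s)^4 ≤ 256 a^4 M²/16^(q+j)`. MEDIUM. -/

open MeasureTheory ProbabilityTheory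

namespace NU53

open GFPerc (E2)

variable {φ : ℝ → ℝ} {a : ℝ}

private theorem k2d_sc (N j i : ℕ) : (2 : ℝ) ^ j ≤ sc N j i := by
  unfold sc
  have h1 : (0 : ℝ) ≤ (i : ℝ) / N := by positivity
  have h2 : (0 : ℝ) < (2 : ℝ) ^ j := by positivity
  nlinarith

private theorem k2d_sc_pos (N j i : ℕ) : 0 < sc N j i := lt_of_lt_of_le (by positivity) (k2d_sc N j i)

private theorem k2d_wt (α η : ℝ) (N j i : ℕ) : 0 ≤ wt α η N j i := by
  unfold wt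
  have h1 := k2d_sc_pos N j i
  positivity

private theorem k2d_scale (φ : ℝ → ℝ) (x : E2) {s : ℝ} (hs : 0 < s) :
    φ (‖x‖ / s) = φ ‖s⁻¹ • x‖ := by
  rw [norm_smul, norm_inv, Real.norm_eq_abs, abs_of_pos hs, inv_mul_eq_div]

private theorem k2d_n1 {η : ℝ} (hη : 0 < η) : ‖(!₂[η, 0] : E2)‖ = η := by
  rw [EuclideanSpace.norm_eq, Fin.sum_univ_two]
  simp [Real.sqrt_sq_eq_abs, abs_of_pos hη]

private theorem k2d_n2 {η : ℝ} (hη : 0 < η) : ‖(!₂[0, η] : E2)‖ = η := by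
  rw [EuclideanSpace.norm_eq, Fin.sum_univ_two]
  simp [Real.sqrt_sq_eq_abs, abs_of_pos hη]

private theorem k2d_p1 (η : ℝ) (N : ℕ) (z v : V) :
    pt η N z (v + (1, 0)) = pt η N z v + !₂[η, 0] := by
  ext i
  fin_cases i <;> simp [pt]; ring

private theorem k2d_p2 (η : ℝ) (N : ℕ) (z v : V) :
    pt η N z (v + (0, 1)) = pt η N z v + !₂[0, η] := by
  ext i
  fin_cases i <;> simp [pt]; ring

private theorem k2d_p3 (η : ℝ) (N : ℕ) (z v : V) :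
    pt η N z (v + (1, 1)) = pt η N z v + !₂[η, 0] + !₂[0, η] := by
  ext i
  fin_cases i <;> simp [pt] <;> ring

private theorem k2d_co {α η : ℝ} {N j i : ℕ} {z v : V} (hη : 0 < η) (hN : 1 ≤ N)
    (h : φ (‖pt η N z v‖ / sc N j i) ≠ 0) : co φ α η N j i z v ≠ 0 := by
  unfold co
  refine mul_ne_zero ?_ h
  refine (Real.sqrt_pos.2 ?_).ne'
  unfold wt
  have h1 := k2d_sc_pos N j i
  have h2 : (0 : ℝ) < N := by exact_mod_cast hN
  positivity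

theorem kN_d1 (h : Prof φ a) : ∃ C : ℝ, 1 ≤ C ∧ ∀ (α : ℝ), 0 < α → α ≤ 1 →
    ∀ (η : ℝ) (q N : ℕ), 0 < η → 2 * a / η ≤ 2 ^ q → (2 : ℝ) ^ q ≤ 4 * a / η → 1 ≤ N → ∀ j : ℕ,
    2 * (kN φ α η q N j 0 - kN φ α η q N j (1, 0)) ≤ C * sg α j ^ 2 / 4 ^ (q + j) := by
  obtain ⟨M, hM1, -, hMl, -⟩ := prof_bdd h
  have ha := h.ha
  refine ⟨max 1 (576 * a ^ 2 * (M ^ 2 * (16 * a ^ 2))), le_max_left _ _, ?_⟩
  intro α hα hα1 η q N hη hq hq2 hN j
  have h0D : (0 : V) ∈ Sq 0 (1 : ℤ) := by simp [Sq, Box]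
  have h1D : ((1, 0) : V) ∈ Sq 0 (1 : ℤ) := by simp [Sq, Box]
  obtain ⟨L, hL⟩ : ∃ L : ℕ, (N : ℤ) * (1 + 2 ^ (q + j)) ≤ L := ⟨N * (1 + 2 ^ (q + j)), by push_cast; rfl⟩
  have e1 := kN_trans (α := α) h hη hq hN (j := j) (L := L) hL h0D h0D
  have e2 := kN_trans (α := α) h hη hq hN (j := j) (L := L) hL h1D h1D
  have e3 := kN_trans (α := α) h hη hq hN (j := j) (L := L) hL h1D h0D
  rw [sub_self] at e1 e2
  rw [sub_zero] at e3
  have e4 : 2 * (kN φ α η q N j 0 - kN φ α η q N j (1, 0)) =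
      ∑ i ∈ Finset.range N, ∑ z ∈ SQ L, wt α η N j i *
        (φ (‖pt η N z (0 + (1, 0))‖ / sc N j i) - φ (‖pt η N z 0‖ / sc N j i)) ^ 2 := by
    have e5 : 2 * (kN φ α η q N j 0 - kN φ α η q N j (1, 0)) =
        kN φ α η q N j 0 + kN φ α η q N j 0 - 2 * kN φ α η q N j (1, 0) := by ring
    rw [e5]
    nth_rewrite 1 [← e1]
    rw [← e2, ← e3, Finset.mul_sum, ← Finset.sum_add_distrib, ← Finset.sum_sub_distrib]
    refine Finset.sum_congr rfl fun i _ => ?_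
    rw [Finset.mul_sum, ← Finset.sum_add_distrib, ← Finset.sum_sub_distrib]
    refine Finset.sum_congr rfl fun z _ => ?_
    rw [zero_add]
    unfold co
    have e6 := Real.mul_self_sqrt (k2d_wt α η N j i)
    linear_combination (φ (‖pt η N z (1, 0)‖ / sc N j i) - φ (‖pt η N z 0‖ / sc N j i)) ^ 2 * e6
  rw [e4]
  have hb : η * 2 ^ q ≤ 4 * a := by
    rw [le_div_iff₀ hη] at hq2
    linarith
  have h4 : (4 : ℝ) ^ (q + j) = (2 ^ q) ^ 2 * (2 ^ j) ^ 2 := by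
    rw [show (4 : ℝ) = 2 ^ 2 by norm_num, ← pow_mul, mul_comm 2 (q + j), pow_mul, pow_add, mul_pow]
  have h5 := wsum_le (M := M ^ 2 * (16 * a ^ 2) / 4 ^ (q + j)) ha hα hα1 hη hq2 hN j L
    (by positivity)
    (fun i z => (φ (‖pt η N z (0 + (1, 0))‖ / sc N j i) - φ (‖pt η N z 0‖ / sc N j i)) ^ 2) ?_
    {(1, 0), 0} ?_ ?_
  · refine le_trans h5 ?_
    rw [mul_assoc, mul_comm (_ / _) (sg α j ^ 2), mul_div_assoc', mul_div_assoc', ]
    refine div_le_div_of_nonneg_right ?_ (by positivity)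
    calc 576 * a ^ 2 * (sg α j ^ 2 * (M ^ 2 * (16 * a ^ 2))) =
        576 * a ^ 2 * (M ^ 2 * (16 * a ^ 2)) * sg α j ^ 2 := by ring
      _ ≤ _ := mul_le_mul_of_nonneg_right (le_max_right _ _) (by positivity)
  · intro i _ z
    have hs := k2d_sc_pos N j i
    rw [abs_of_nonneg (sq_nonneg _), k2d_p1, k2d_scale φ _ hs, k2d_scale φ _ hs, smul_add, ← sq_abs]
    have h6 := hMl ((sc N j i)⁻¹ • pt η N z 0) ((sc N j i)⁻¹ • !₂[η, 0])
    rw [norm_smul (sc N j i)⁻¹ !₂[η, 0], norm_inv, Real.norm_eq_abs, abs_of_pos hs,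
      k2d_n1 hη] at h6
    have h7 : (sc N j i)⁻¹ ≤ ((2 : ℝ) ^ j)⁻¹ := inv_anti₀ (by positivity) (k2d_sc N j i)
    have h8 : |φ ‖(sc N j i)⁻¹ • pt η N z 0 + (sc N j i)⁻¹ • !₂[η, 0]‖ -
        φ ‖(sc N j i)⁻¹ • pt η N z 0‖| ≤ M * (4 * a / (2 ^ q * 2 ^ j)) := by
      refine le_trans h6 (mul_le_mul_of_nonneg_left ?_ (by linarith))
      calc (sc N j i)⁻¹ * η ≤ ((2 : ℝ) ^ j)⁻¹ * η := mul_le_mul_of_nonneg_right h7 hη.le
        _ = η * 2 ^ q / (2 ^ q * 2 ^ j) := by field_simp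
        _ ≤ _ := div_le_div_of_nonneg_right hb (by positivity)
    refine le_trans (pow_le_pow_left₀ (abs_nonneg _) h8 2) (le_of_eq ?_)
    rw [h4]
    field_simp
    ring
  · exact le_trans Finset.card_le_two (by norm_num)
  · intro i hi z hne
    by_cases h6 : φ (‖pt η N z 0‖ / sc N j i) = 0
    · have h7 : φ (‖pt η N z (0 + (1, 0))‖ / sc N j i) ≠ 0 := by
        intro h8
        apply hne
        change (φ (‖pt η N z (0 + (1, 0))‖ / sc N j i) - φ (‖pt η N z 0‖ / sc N j i)) ^ 2 = 0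
        rw [h6, h8]
        ring
      rw [zero_add] at h7
      have h9 := co_supp h hη hq hN hi (k2d_co (α := α) hη hN h7)
      exact ⟨(1, 0), by simp, h9.1.le, h9.2.le⟩
    · have h9 := co_supp h hη hq hN hi (k2d_co (α := α) hη hN h6)
      exact ⟨0, by simp, h9.1.le, h9.2.le⟩

theorem kN_d12 (h : Prof φ a) : ∃ C : ℝ, 1 ≤ C ∧ ∀ (α : ℝ), 0 < α → α ≤ 1 →
    ∀ (η : ℝ) (q N : ℕ), 0 < η → 2 * a / η ≤ 2 ^ q → (2 : ℝ) ^ q ≤ 4 * a / η → 1 ≤ N →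
    ∀ (j : ℕ) (L : ℤ) (v : V),
    ∑ i ∈ Finset.range N, ∑ z ∈ SQ L, (co φ α η N j i z (v + (1, 1)) -
      co φ α η N j i z (v + (1, 0)) - co φ α η N j i z (v + (0, 1)) + co φ α η N j i z v) ^ 2 ≤
      C * sg α j ^ 2 / 16 ^ (q + j) := by
  obtain ⟨M, hM1, -, -, hMd⟩ := prof_bdd h
  have ha := h.ha
  refine ⟨max 1 (576 * a ^ 2 * (M ^ 2 * (256 * a ^ 4))), le_max_left _ _, ?_⟩
  intro α hα hα1 η q N hη hq hq2 hN j L v
  have e4 : ∑ i ∈ Finset.range N, ∑ z ∈ SQ L, (co φ α η N j i z (v + (1, 1)) -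
      co φ α η N j i z (v + (1, 0)) - co φ α η N j i z (v + (0, 1)) + co φ α η N j i z v) ^ 2 =
      ∑ i ∈ Finset.range N, ∑ z ∈ SQ L, wt α η N j i *
        (φ (‖pt η N z (v + (1, 1))‖ / sc N j i) - φ (‖pt η N z (v + (1, 0))‖ / sc N j i) -
          φ (‖pt η N z (v + (0, 1))‖ / sc N j i) + φ (‖pt η N z v‖ / sc N j i)) ^ 2 := by
    refine Finset.sum_congr rfl fun i _ => Finset.sum_congr rfl fun z _ => ?_
    unfold co
    have e6 := Real.mul_self_sqrt (k2d_wt α η N j i)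
    linear_combination (φ (‖pt η N z (v + (1, 1))‖ / sc N j i) -
      φ (‖pt η N z (v + (1, 0))‖ / sc N j i) - φ (‖pt η N z (v + (0, 1))‖ / sc N j i) +
      φ (‖pt η N z v‖ / sc N j i)) ^ 2 * e6
  rw [e4]
  have hb : η * 2 ^ q ≤ 4 * a := by
    rw [le_div_iff₀ hη] at hq2
    linarith
  have h4 : (16 : ℝ) ^ (q + j) = (2 ^ q) ^ 4 * (2 ^ j) ^ 4 := by
    rw [show (16 : ℝ) = 2 ^ 4 by norm_num, ← pow_mul, mul_comm 4 (q + j), pow_mul, pow_add, mul_pow]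
  have h5 := wsum_le (M := M ^ 2 * (256 * a ^ 4) / 16 ^ (q + j)) ha hα hα1 hη hq2 hN j L
    (by positivity)
    (fun i z => (φ (‖pt η N z (v + (1, 1))‖ / sc N j i) - φ (‖pt η N z (v + (1, 0))‖ / sc N j i) -
          φ (‖pt η N z (v + (0, 1))‖ / sc N j i) + φ (‖pt η N z v‖ / sc N j i)) ^ 2) ?_
    {v + (1, 1), v + (1, 0), v + (0, 1), v} Finset.card_le_four ?_
  · refine le_trans h5 ?_
    rw [mul_assoc, mul_comm (_ / _) (sg α j ^ 2), mul_div_assoc', mul_div_assoc', ]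
    refine div_le_div_of_nonneg_right ?_ (by positivity)
    calc 576 * a ^ 2 * (sg α j ^ 2 * (M ^ 2 * (256 * a ^ 4))) =
        576 * a ^ 2 * (M ^ 2 * (256 * a ^ 4)) * sg α j ^ 2 := by ring
      _ ≤ _ := mul_le_mul_of_nonneg_right (le_max_right _ _) (by positivity)
  · intro i _ z
    have hs := k2d_sc_pos N j i
    rw [abs_of_nonneg (sq_nonneg _), k2d_p1, k2d_p2, k2d_p3, k2d_scale φ _ hs, k2d_scale φ _ hs,
      k2d_scale φ _ hs, k2d_scale φ _ hs, smul_add, smul_add, smul_add, ← sq_abs]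
    have h6 := hMd ((sc N j i)⁻¹ • pt η N z v) ((sc N j i)⁻¹ • !₂[η, 0])
      ((sc N j i)⁻¹ • !₂[0, η])
    rw [norm_smul (sc N j i)⁻¹ !₂[η, 0], norm_smul (sc N j i)⁻¹ !₂[0, η], norm_inv,
      Real.norm_eq_abs, abs_of_pos hs, k2d_n1 hη, k2d_n2 hη] at h6
    have h7 : (sc N j i)⁻¹ ≤ ((2 : ℝ) ^ j)⁻¹ := inv_anti₀ (by positivity) (k2d_sc N j i)
    have h9 : (sc N j i)⁻¹ * η ≤ 4 * a / (2 ^ q * 2 ^ j) := by
      calc (sc N j i)⁻¹ * η ≤ ((2 : ℝ) ^ j)⁻¹ * η := mul_le_mul_of_nonneg_right h7 hη.le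
        _ = η * 2 ^ q / (2 ^ q * 2 ^ j) := by field_simp
        _ ≤ _ := div_le_div_of_nonneg_right hb (by positivity)
    have h10 : 0 ≤ (sc N j i)⁻¹ * η := by positivity
    have h8 := le_trans h6 (mul_le_mul_of_nonneg_left (mul_le_mul h9 h9 h10 (by positivity))
      (by linarith : (0 : ℝ) ≤ M))
    refine le_trans (pow_le_pow_left₀ (abs_nonneg _) h8 2) (le_of_eq ?_)
    rw [h4]
    field_simp
    ring
  · intro i hi z hne
    by_contra hc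
    apply hne
    have h6 : ∀ u ∈ ({v + (1, 1), v + (1, 0), v + (0, 1), v} : Finset V),
        φ (‖pt η N z u‖ / sc N j i) = 0 := by
      intro u hu
      by_contra h7
      have h9 := co_supp h hη hq hN hi (k2d_co (α := α) hη hN h7)
      exact hc ⟨u, hu, h9.1.le, h9.2.le⟩
    change (φ (‖pt η N z (v + (1, 1))‖ / sc N j i) - φ (‖pt η N z (v + (1, 0))‖ / sc N j i) -
          φ (‖pt η N z (v + (0, 1))‖ / sc N j i) + φ (‖pt η N z v‖ / sc N j i)) ^ 2 = 0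
    rw [h6 _ (by simp), h6 (v + (1, 0)) (by simp), h6 (v + (0, 1)) (by simp), h6 v (by simp)]
    ring

end NU53
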