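import Pool.Agent.LibNU53.K1a

/-! Row K3. Sum over the levels, and asymptotics of the covariance.
`kfull_hasSum`: `(1,∞)` is the disjoint union of the `(2^j, 2^(j+1)]` (`hasSum_integral_iUnion`); the integrand is
bounded by `M s^(-1-α)` (`kap_bdd`), integrable on `(1,∞)`.
`kfull_asymp`: substitution `u = r/s`: `Kfull φ α r * r^α = ∫_0^r u^(α-1) kap u du`, which is constant and
positive for `r ≥ 2a` (`kap_zero`, `kap_pos`, `kap_cont`). E.g. `integral_comp_div_Ioi`-like lemmas, or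
`MeasureTheory.integral_image_eq_integral_abs_deriv_smul`. MEDIUM. -/

open MeasureTheory ProbabilityTheory Filter Topology

namespace NU53

variable {φ : ℝ → ℝ} {a : ℝ}

private theorem k3_int (h : Prof φ a) {α : ℝ} (hα : 0 < α) (r : ℝ) :
    IntegrableOn (fun s : ℝ => s ^ (-1 - α) * kap φ (r / s)) (Set.Ioi 1) := by
  obtain ⟨M, hM0, hM⟩ := kap_bdd h
  have h1 : IntegrableOn (fun s : ℝ => s ^ (-1 - α) * M) (Set.Ioi 1) :=
    (integrableOn_Ioi_rpow_of_lt (by linarith) one_pos).mul_const M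
  refine h1.mono' ?_ ?_
  · refine ContinuousOn.aestronglyMeasurable (fun s hs => ?_) measurableSet_Ioi
    have hs0 : s ≠ 0 := (lt_trans one_pos hs).ne'
    refine ContinuousAt.continuousWithinAt ?_
    refine ContinuousAt.mul (Real.continuousAt_rpow_const _ _ (Or.inl hs0)) ?_
    exact (kap_cont h).continuousAt.comp (continuousAt_const.div continuousAt_id hs0)
  · refine (ae_restrict_mem measurableSet_Ioi).mono fun s hs => ?_
    have hs0 : 0 ≤ s := (lt_trans one_pos hs).le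
    rw [Real.norm_eq_abs, abs_of_nonneg (mul_nonneg (Real.rpow_nonneg hs0 _) (kap_nonneg h _))]
    exact mul_le_mul_of_nonneg_left (hM _) (Real.rpow_nonneg hs0 _)

theorem kfull_hasSum (h : Prof φ a) {α : ℝ} (hα : 0 < α) {r : ℝ} (hr : 0 ≤ r) :
    HasSum (fun j => Kj φ α j r) (Kfull φ α r) := by
  have hu : (⋃ j : ℕ, Set.Ioc ((2 : ℝ) ^ j) (2 ^ (j + 1))) = Set.Ioi 1 := by
    have h1 := iUnion_Ioc_map_succ_eq_Ioi (f := fun j : ℕ => (2 : ℝ) ^ j)
      (fun j => by simpa using one_le_pow₀ (one_le_two (α := ℝ)) (n := j)) (by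
        rintro ⟨C, hC⟩
        obtain ⟨n, hn⟩ := pow_unbounded_of_one_lt C (one_lt_two (α := ℝ))
        exact absurd (hC ⟨n, rfl⟩) (not_le.2 hn))
    simpa using h1
  have hm : Monotone fun j : ℕ => (2 : ℝ) ^ j := pow_right_mono₀ one_le_two
  have h2 := hasSum_integral_iUnion (μ := volume)
    (f := fun s : ℝ => s ^ (-1 - α) * kap φ (r / s))
    (s := fun j : ℕ => Set.Ioc ((2 : ℝ) ^ j) (2 ^ (j + 1)))
    (fun j => measurableSet_Ioc) (hm.pairwise_disjoint_on_Ioc_succ) (by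
      rw [hu]
      exact k3_int h hα r)
  rw [hu] at h2
  exact h2

private theorem k3_int0 (h : Prof φ a) {α : ℝ} (hα : 0 < α) :
    IntegrableOn (fun u : ℝ => u ^ (α - 1) * kap φ u) (Set.Ioi 0) := by
  obtain ⟨M, hM0, hM⟩ := kap_bdd h
  have ha := h.ha
  have hm : AEStronglyMeasurable (fun u : ℝ => u ^ (α - 1) * kap φ u)
      (volume.restrict (Set.Ioi 0)) := by
    refine ContinuousOn.aestronglyMeasurable (fun s hs => ?_) measurableSet_Ioi
    have hs0 : s ≠ 0 := ne_of_gt hs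
    refine ContinuousAt.continuousWithinAt ?_
    exact ContinuousAt.mul (Real.continuousAt_rpow_const _ _ (Or.inl hs0))
      (kap_cont h).continuousAt
  have h1 : IntegrableOn (fun u : ℝ => u ^ (α - 1)) (Set.Ioc 0 (2 * a)) := by
    have h2 := intervalIntegral.intervalIntegrable_rpow' (a := 0) (b := 2 * a)
      (r := α - 1) (by linarith)
    rwa [intervalIntegrable_iff_integrableOn_Ioc_of_le (by linarith)] at h2
  have h3 : IntegrableOn (fun u : ℝ => u ^ (α - 1) * kap φ u) (Set.Ioc 0 (2 * a)) := by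
    refine (h1.mul_const M).mono' (hm.mono_measure (Measure.restrict_mono
      (fun u hu => hu.1) le_rfl)) ?_
    refine (ae_restrict_mem measurableSet_Ioc).mono fun s hs => ?_
    rw [Real.norm_eq_abs, abs_of_nonneg (mul_nonneg (Real.rpow_nonneg hs.1.le _)
      (kap_nonneg h _))]
    exact mul_le_mul_of_nonneg_left (hM _) (Real.rpow_nonneg hs.1.le _)
  have h4 : IntegrableOn (fun u : ℝ => u ^ (α - 1) * kap φ u) (Set.Ioi (2 * a)) := by
    refine (integrableOn_zero (s := Set.Ioi (2 * a)) (μ := volume)).congr_fun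
      (fun u hu => ?_) measurableSet_Ioi
    change (0 : ℝ) = u ^ (α - 1) * kap φ u
    rw [kap_zero h (le_of_lt hu), mul_zero]
  rw [← Set.Ioc_union_Ioi_eq_Ioi (by linarith : (0 : ℝ) ≤ 2 * a)]
  exact h3.union h4

private theorem k3_sub (h : Prof φ a) {α : ℝ} {r : ℝ} (hr : 2 * a ≤ r) :
    Kfull φ α r * r ^ α = ∫ u in Set.Ioi (0 : ℝ), u ^ (α - 1) * kap φ u := by
  have ha := h.ha
  have hr0 : 0 < r := by linarith
  -- the integrand on the right, cut at `r`
  obtain ⟨g, hg⟩ : ∃ g : ℝ → ℝ, g = fun u : ℝ => (Set.Iio r).indicator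
    (fun u => u ^ (α - 1) * kap φ u) u := ⟨_, rfl⟩
  have h1 : ∫ u in Set.Ioi (0 : ℝ), u ^ (α - 1) * kap φ u = ∫ u in Set.Ioi (0 : ℝ), g u := by
    refine setIntegral_congr_fun measurableSet_Ioi fun u _ => ?_
    change u ^ (α - 1) * kap φ u = g u
    rw [hg]
    change _ = (Set.Iio r).indicator (fun u => u ^ (α - 1) * kap φ u) u
    by_cases hu : u < r
    · rw [Set.indicator_of_mem (Set.mem_Iio.2 hu)]
    · rw [Set.indicator_of_notMem (fun h' => hu (Set.mem_Iio.1 h')),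
        kap_zero h (by linarith [not_lt.1 hu]), mul_zero]
  have h2 := integral_comp_mul_left_Ioi g 0 hr0
  rw [mul_zero, smul_eq_mul] at h2
  have h3 := integral_comp_rpow_Ioi (fun x => g (r * x)) (p := -1) (by norm_num)
  rw [h2] at h3
  have h4 : ∫ x in Set.Ioi (0 : ℝ), (|(-1 : ℝ)| * x ^ ((-1 : ℝ) - 1)) • g (r * x ^ (-1 : ℝ)) =
      ∫ x in Set.Ioi (0 : ℝ), (Set.Ioi (1 : ℝ)).indicator
        (fun s => r ^ (α - 1) * (s ^ (-1 - α) * kap φ (r / s))) x := by
    refine setIntegral_congr_fun measurableSet_Ioi fun x hx => ?_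
    have hx0 : (0 : ℝ) < x := hx
    change (|(-1 : ℝ)| * x ^ ((-1 : ℝ) - 1)) • g (r * x ^ (-1 : ℝ)) =
      (Set.Ioi (1 : ℝ)).indicator (fun s => r ^ (α - 1) * (s ^ (-1 - α) * kap φ (r / s))) x
    rw [Real.rpow_neg_one, ← div_eq_mul_inv, hg]
    change (|(-1 : ℝ)| * x ^ ((-1 : ℝ) - 1)) •
      (Set.Iio r).indicator (fun u => u ^ (α - 1) * kap φ u) (r / x) = _
    have hiff : r / x < r ↔ 1 < x := by
      rw [div_lt_iff₀ hx0]
      exact lt_mul_iff_one_lt_right hr0
    by_cases hx1 : 1 < x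
    · rw [Set.indicator_of_mem (Set.mem_Iio.2 (hiff.2 hx1)), Set.indicator_of_mem
        (Set.mem_Ioi.2 hx1), abs_neg, abs_one, one_mul, smul_eq_mul,
        Real.div_rpow hr0.le hx0.le, ← mul_assoc, ← mul_assoc]
      congr 1
      rw [mul_div_assoc', mul_comm (x ^ ((-1 : ℝ) - 1)), mul_div_assoc, ← Real.rpow_sub hx0]
      congr 2
      ring
    · rw [Set.indicator_of_notMem (fun h' => hx1 (hiff.1 (Set.mem_Iio.1 h'))),
        Set.indicator_of_notMem (fun h' => hx1 (Set.mem_Ioi.1 h')), smul_zero]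
  rw [h4, setIntegral_indicator measurableSet_Ioi,
    Set.inter_eq_self_of_subset_right (Set.Ioi_subset_Ioi zero_le_one),
    integral_const_mul] at h3
  have h5 : r ^ (α - 1) * Kfull φ α r = r⁻¹ * ∫ u in Set.Ioi (0 : ℝ), g u := h3
  rw [h1]
  have h6 : r ^ α = r * r ^ (α - 1) := by
    rw [Real.rpow_sub_one hr0.ne']
    field_simp
  rw [h6]
  calc Kfull φ α r * (r * r ^ (α - 1)) = r * (r ^ (α - 1) * Kfull φ α r) := by ring
    _ = _ := by
        rw [h5, ← mul_assoc, mul_inv_cancel₀ hr0.ne', one_mul]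

theorem kfull_asymp (h : Prof φ a) {α : ℝ} (hα : 0 < α) :
    ∃ c : ℝ, 0 < c ∧ Tendsto (fun r => Kfull φ α r * r ^ α) atTop (𝓝 c) := by
  refine ⟨∫ u in Set.Ioi (0 : ℝ), u ^ (α - 1) * kap φ u, ?_, ?_⟩
  · rw [setIntegral_pos_iff_support_of_nonneg_ae ?_ (k3_int0 h hα)]
    · obtain ⟨δ, hδ, hk⟩ : ∃ δ : ℝ, 0 < δ ∧ ∀ u, |u| < δ → 0 < kap φ u := by
        have h1 : ∀ᶠ u in 𝓝 (0 : ℝ), 0 < kap φ u :=
          (kap_cont h).continuousAt.eventually (lt_mem_nhds (kap_pos h))
        obtain ⟨δ, hδ, h2⟩ := Metric.eventually_nhds_iff.1 h1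
        refine ⟨δ, hδ, fun u hu => h2 ?_⟩
        rwa [Real.dist_eq, sub_zero]
      refine lt_of_lt_of_le ?_ (measure_mono (μ := volume) (s := Set.Ioo 0 δ) fun u hu => ?_)
      · rw [Real.volume_Ioo, sub_zero]
        exact ENNReal.ofReal_pos.2 hδ
      · refine ⟨?_, hu.1⟩
        rw [Function.mem_support]
        exact (mul_pos (Real.rpow_pos_of_pos hu.1 _) (hk u (by
          rw [abs_of_pos hu.1]
          exact hu.2))).ne'
    · refine (ae_restrict_mem measurableSet_Ioi).mono fun u hu => ?_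
      exact mul_nonneg (Real.rpow_nonneg (le_of_lt hu) _) (kap_nonneg h _)
  · refine tendsto_const_nhds.congr' ?_
    filter_upwards [eventually_ge_atTop (2 * a)] with r hr
    exact (k3_sub h hr).symm

end NU53
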