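import Pool.Agent.LibNU53.K5a
import Pool.Agent.LibNU53.K1a

/-! Row K5. The discrete covariance converges. PLAN. `riem` with `R = 2^(q+j)` and
`F s x = S^(-(3+α)) η² 2^j φ(‖η x‖/S) φ(‖η (w - x)‖/S)`, `S = 2^j (1 + max 0 (min s 1))` (continuous, `S ≥ 2^j`;
`S ≤ 2^(j+1)` gives the support condition); the sum is exactly `kN`. The limit: inner integral, substitution
`y = η x` (`integral_comp_smul`, factor `η²`) and `kap_scale`: `2^j S^(-(3+α)) S² kap(‖gpt η w‖/S)`; outer integral,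
substitution `S = 2^j (1+s)`. MEDIUM. -/

open MeasureTheory ProbabilityTheory Filter Topology

namespace NU53

open GFPerc (E2)

/-- the scale as a function of the parameter -/
noncomputable def SS5 (j : ℕ) (s : ℝ) : ℝ := 2 ^ j * (1 + max 0 (min s 1))

theorem SS5_ge (j : ℕ) (s : ℝ) : (2 : ℝ) ^ j ≤ SS5 j s := by
  unfold SS5
  have h1 : (0 : ℝ) ≤ max 0 (min s 1) := le_max_left _ _
  have h2 : (0 : ℝ) < 2 ^ j := by positivity
  nlinarith

theorem SS5_pos (j : ℕ) (s : ℝ) : 0 < SS5 j s :=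
  lt_of_lt_of_le (by positivity) (SS5_ge j s)

theorem SS5_le (j : ℕ) (s : ℝ) : SS5 j s ≤ 2 ^ (j + 1) := by
  unfold SS5
  have h1 : max 0 (min s 1) ≤ (1 : ℝ) := max_le (by norm_num) (min_le_right _ _)
  have h2 : (0 : ℝ) < 2 ^ j := by positivity
  rw [pow_succ]
  nlinarith

theorem SS5_eq (j : ℕ) {s : ℝ} (h0 : 0 ≤ s) (h1 : s ≤ 1) : SS5 j s = 2 ^ j * (1 + s) := by
  unfold SS5
  rw [min_eq_left h1, max_eq_right h0]

theorem SS5_cont (j : ℕ) : Continuous (SS5 j) := by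
  unfold SS5
  fun_prop

/-- the function of the Riemann sum -/
noncomputable def FF5 (φ : ℝ → ℝ) (α η : ℝ) (j : ℕ) (w : V) (s : ℝ) (x : E2) : ℝ :=
  SS5 j s ^ (-(3 + α)) * (η ^ 2 * 2 ^ j) * (φ (‖η • x‖ / SS5 j s) * φ (‖η • x - gpt η w‖ / SS5 j s))

theorem norm_div_eq {S : ℝ} (hS : 0 < S) (x : E2) : ‖x‖ / S = ‖S⁻¹ • x‖ := by
  rw [norm_smul, Real.norm_eq_abs, abs_of_pos (inv_pos.2 hS)]
  ring

theorem FF5_cont {φ : ℝ → ℝ} {a : ℝ} (h : Prof φ a) (α η : ℝ) (j : ℕ) (w : V) :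
    Continuous (fun p : ℝ × E2 => FF5 φ α η j w p.1 p.2) := by
  have hΦ : Continuous (fun x : E2 => φ ‖x‖) := h.smooth.continuous
  have hS : Continuous (fun p : ℝ × E2 => SS5 j p.1) := (SS5_cont j).comp continuous_fst
  have hSi : Continuous (fun p : ℝ × E2 => (SS5 j p.1)⁻¹) :=
    hS.inv₀ fun p => (SS5_pos j p.1).ne'
  unfold FF5
  refine ((hS.rpow_const fun p => Or.inl (SS5_pos j p.1).ne').mul continuous_const).mul ?_
  refine Continuous.mul ?_ ?_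
  · have h1 : (fun p : ℝ × E2 => φ (‖η • p.2‖ / SS5 j p.1)) =
        fun p : ℝ × E2 => φ ‖(SS5 j p.1)⁻¹ • (η • p.2)‖ := by
      funext p
      rw [norm_div_eq (SS5_pos j p.1)]
    rw [h1]
    have h2 : Continuous (fun p : ℝ × E2 => (SS5 j p.1)⁻¹ • (η • p.2)) :=
      hSi.smul (continuous_snd.const_smul η)
    exact hΦ.comp h2
  · have h1 : (fun p : ℝ × E2 => φ (‖η • p.2 - gpt η w‖ / SS5 j p.1)) =
        fun p : ℝ × E2 => φ ‖(SS5 j p.1)⁻¹ • (η • p.2 - gpt η w)‖ := by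
      funext p
      rw [norm_div_eq (SS5_pos j p.1)]
    rw [h1]
    have h2 : Continuous (fun p : ℝ × E2 => (SS5 j p.1)⁻¹ • (η • p.2 - gpt η w)) :=
      hSi.smul ((continuous_snd.const_smul η).sub continuous_const)
    exact hΦ.comp h2

theorem FF5_supp {φ : ℝ → ℝ} {a : ℝ} (h : Prof φ a) {α η : ℝ} (hη : 0 < η) {q : ℕ}
    (hq : 2 * a / η ≤ 2 ^ q) (j : ℕ) (w : V) (s : ℝ) (x : E2) (hx : FF5 φ α η j w s x ≠ 0) :
    ‖x‖ ≤ ((2 ^ (q + j) : ℕ) : ℝ) := by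
  by_contra hcon
  push Not at hcon
  apply hx
  have h1 : φ (‖η • x‖ / SS5 j s) = 0 := by
    apply h.supp
    rw [le_div_iff₀ (SS5_pos j s), norm_smul, Real.norm_eq_abs, abs_of_pos hη]
    rw [div_le_iff₀ hη] at hq
    push_cast at hcon
    rw [pow_add] at hcon
    have h2 := SS5_le j s
    rw [pow_succ] at h2
    have h3 : (0 : ℝ) < 2 ^ j := by positivity
    have h4 : (0 : ℝ) < 2 ^ q := by positivity
    calc a * SS5 j s ≤ a * (2 ^ j * 2) := mul_le_mul_of_nonneg_left h2 h.ha.le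
      _ = 2 * a * 2 ^ j := by ring
      _ ≤ 2 ^ q * η * 2 ^ j := mul_le_mul_of_nonneg_right hq h3.le
      _ = η * (2 ^ q * 2 ^ j) := by ring
      _ ≤ η * ‖x‖ := mul_le_mul_of_nonneg_left hcon.le hη.le
  unfold FF5
  rw [h1]
  ring

theorem FF5_int {φ : ℝ → ℝ} {a : ℝ} (h : Prof φ a) {α η : ℝ} (hη : 0 < η) (j : ℕ) (w : V)
    (s : ℝ) : ∫ x : E2, FF5 φ α η j w s x =
      2 ^ j * (SS5 j s ^ (-1 - α) * kap φ (‖gpt η w‖ / SS5 j s)) := by
  have hS := SS5_pos j s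
  unfold FF5
  rw [integral_const_mul]
  rw [Measure.integral_comp_smul volume
    (fun y : E2 => φ (‖y‖ / SS5 j s) * φ (‖y - gpt η w‖ / SS5 j s)) η]
  rw [kap_scale h hS (gpt η w)]
  have h1 : Module.finrank ℝ E2 = 2 := by simp [E2]
  rw [h1, smul_eq_mul, abs_of_pos (inv_pos.2 (pow_pos hη 2))]
  have h2 : SS5 j s ^ (-(3 + α)) * SS5 j s ^ 2 = SS5 j s ^ (-1 - α) := by
    rw [← Real.rpow_natCast, ← Real.rpow_add hS]
    congr 1
    push_cast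
    ring
  rw [← h2]
  field_simp

theorem FF5_lim {φ : ℝ → ℝ} {a : ℝ} (h : Prof φ a) {α η : ℝ} (hη : 0 < η) (j : ℕ) (w : V) :
    ∫ s in Set.Ioc (0 : ℝ) 1, ∫ x : E2, FF5 φ α η j w s x = Kj φ α j ‖gpt η w‖ := by
  have h1 : ∫ s in Set.Ioc (0 : ℝ) 1, ∫ x : E2, FF5 φ α η j w s x =
      ∫ s in Set.Ioc (0 : ℝ) 1, 2 ^ j * ((fun u : ℝ => u ^ (-1 - α) * kap φ (‖gpt η w‖ / u))
        (2 ^ j + 2 ^ j * s)) := by
    apply setIntegral_congr_fun measurableSet_Ioc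
    intro s hs
    show ∫ x : E2, FF5 φ α η j w s x = _
    rw [FF5_int h hη, SS5_eq j hs.1.le hs.2]
    have : (2 : ℝ) ^ j * (1 + s) = 2 ^ j + 2 ^ j * s := by ring
    rw [this]
  rw [h1, ← intervalIntegral.integral_of_le (by norm_num), intervalIntegral.integral_const_mul]
  have h2 := intervalIntegral.smul_integral_comp_add_mul (a := 0) (b := 1)
    (fun u : ℝ => u ^ (-1 - α) * kap φ (‖gpt η w‖ / u)) ((2 : ℝ) ^ j) ((2 : ℝ) ^ j)
  rw [smul_eq_mul] at h2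
  rw [h2]
  have h3 : (2 : ℝ) ^ j + 2 ^ j * 0 = 2 ^ j := by ring
  have h4 : (2 : ℝ) ^ j + 2 ^ j * 1 = 2 ^ (j + 1) := by ring
  rw [h3, h4, intervalIntegral.integral_of_le (by
    rw [pow_succ]
    have : (0 : ℝ) < 2 ^ j := by positivity
    linarith)]
  rfl

theorem kN_eq_FF5 {φ : ℝ → ℝ} {α η : ℝ} (hη : 0 < η) (q j : ℕ) (w : V) (N : ℕ) :
    (∑ i ∈ Finset.range N, ∑ z ∈ SQ (N * ((2 ^ (q + j) : ℕ) : ℤ)),
      FF5 φ α η j w (i / N) !₂[(z.1 : ℝ) / N, (z.2 : ℝ) / N]) / (N : ℝ) ^ 3 =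
      kN φ α η q N j w := by
  unfold kN
  rw [Finset.sum_div]
  have hc : ((2 ^ (q + j) : ℕ) : ℤ) = 2 ^ (q + j) := by push_cast; rfl
  rw [hc]
  refine Finset.sum_congr rfl fun i hi => ?_
  rw [Finset.sum_div]
  refine Finset.sum_congr rfl fun z _ => ?_
  have hN : (0 : ℝ) < N := by
    have : i < N := Finset.mem_range.1 hi
    exact_mod_cast (by omega : 0 < N)
  have hiN : (i : ℝ) / N ≤ 1 := by
    rw [div_le_one hN]
    exact_mod_cast (Finset.mem_range.1 hi).le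
  have hi0 : (0 : ℝ) ≤ (i : ℝ) / N := by positivity
  have hS : SS5 j (i / N) = sc N j i := SS5_eq j hi0 hiN
  have hsc : 0 < sc N j i := hS ▸ SS5_pos j _
  have hwt : 0 ≤ wt α η N j i := by
    unfold wt
    have := Real.rpow_nonneg hsc.le (-(3 + α))
    positivity
  unfold FF5 co
  rw [hS]
  have h1 : ‖η • (!₂[(z.1 : ℝ) / N, (z.2 : ℝ) / N] : E2)‖ = ‖pt η N z 0‖ := by
    rw [← norm_neg]
    congr 1
    ext k
    fin_cases k <;> simp [pt]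
  have h2 : ‖η • (!₂[(z.1 : ℝ) / N, (z.2 : ℝ) / N] : E2) - gpt η w‖ = ‖pt η N z w‖ := by
    rw [← norm_neg]
    congr 1
    ext k
    fin_cases k <;> simp [pt, gpt] <;> ring
  rw [h1, h2]
  have h3 : Real.sqrt (wt α η N j i) * Real.sqrt (wt α η N j i) = wt α η N j i :=
    Real.mul_self_sqrt hwt
  calc _ = wt α η N j i * (φ (‖pt η N z 0‖ / sc N j i) * φ (‖pt η N z w‖ / sc N j i)) := by
        unfold wt
        ring
    _ = (Real.sqrt (wt α η N j i) * Real.sqrt (wt α η N j i)) *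
          (φ (‖pt η N z 0‖ / sc N j i) * φ (‖pt η N z w‖ / sc N j i)) := by rw [h3]
    _ = _ := by ring

theorem kN_tendsto {φ : ℝ → ℝ} {a : ℝ} (h : Prof φ a) {α η : ℝ} (hα : 0 < α) (hη : 0 < η) {q : ℕ}
    (hq : 2 * a / η ≤ 2 ^ q) (j : ℕ) (w : V) :
    Tendsto (fun N : ℕ => kN φ α η q N j w) atTop (𝓝 (Kj φ α j ‖gpt η w‖)) := by
  have hR : ∀ s x, FF5 φ α η j w s x ≠ 0 →
      |x 0| ≤ ((2 ^ (q + j) : ℕ) : ℝ) ∧ |x 1| ≤ ((2 ^ (q + j) : ℕ) : ℝ) := by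
    intro s x hx
    have h1 := FF5_supp h hη hq j w s x hx
    exact ⟨(PiLp.norm_apply_le x 0).trans h1, (PiLp.norm_apply_le x 1).trans h1⟩
  have h2 := riem (FF5 φ α η j w) (FF5_cont h α η j w) (2 ^ (q + j)) hR
  rw [FF5_lim h hη] at h2
  refine h2.congr fun N => ?_
  exact kN_eq_FF5 hη q j w N

end NU53
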