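import Pool.Agent.LibNU53.K1

/-! Row K5a. Riemann sums in dimension 3. PLAN. For example
`BoxIntegral.unitPartition.tendsto_tsum_div_pow_atTop_integral` (file
`Mathlib/Analysis/BoxIntegral/UnitPartition.lean`) with `ι = Fin 3`, the set
`{x | 0 ≤ x 0 < 1, |x 1| ≤ R, |x 2| ≤ R}` (bounded, measurable, convex: frontier of measure zero), and the
function `x ↦ F (x 0) !₂[x 1, x 2]`; the points of the set in `N⁻¹ ℤ³` are exactly `(i/N, z.1/N, z.2/N)` with
`i < N`, `z ∈ SQ (N R)`. Then Fubini (`ℝ³ ≃ ℝ × E2` measure preserving). Or directly: the sum is the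
integral of a step function, uniformly bounded with bounded support, converging pointwise (floor functions):
dominated convergence. MEDIUM/STRONG. Only Mathlib. -/

open MeasureTheory ProbabilityTheory Filter Topology

namespace NU53

open GFPerc (E2)

/-- rounding to a multiple of `1/N` -/
private noncomputable def k5a_fl (N : ℕ) (x : ℝ) : ℝ := (⌊(N : ℝ) * x⌋ : ℝ) / N

private theorem k5a_meas (g : ℝ → ℝ) (N : ℕ) : Measurable (fun x => g (k5a_fl N x)) := by
  have h1 : Measurable (fun x : ℝ => ⌊(N : ℝ) * x⌋) :=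
    Int.measurable_floor.comp (measurable_const.mul measurable_id)
  have h2 : Measurable (fun z : ℤ => g ((z : ℝ) / N)) := Measurable.of_discrete
  exact h2.comp h1

private theorem k5a_fl_const {N : ℕ} (hN : 1 ≤ N) (z : ℤ) {x : ℝ} (h1 : (z : ℝ) / N ≤ x)
    (h2 : x < ((z : ℝ) + 1) / N) : k5a_fl N x = (z : ℝ) / N := by
  have hN' : (0 : ℝ) < N := by exact_mod_cast hN
  have h3 : ⌊(N : ℝ) * x⌋ = z := by
    rw [Int.floor_eq_iff]
    rw [div_le_iff₀ hN'] at h1
    rw [lt_div_iff₀ hN'] at h2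
    constructor <;> linarith
  unfold k5a_fl
  rw [h3]

private theorem k5a_le {N : ℕ} (hN : 1 ≤ N) (z : ℤ) {x : ℝ} (h1 : (z : ℝ) / N ≤ x) :
    (z : ℝ) / N ≤ k5a_fl N x := by
  have hN' : (0 : ℝ) < N := by exact_mod_cast hN
  unfold k5a_fl
  apply div_le_div_of_nonneg_right _ hN'.le
  rw [div_le_iff₀ hN'] at h1
  have : z ≤ ⌊(N : ℝ) * x⌋ := Int.le_floor.2 (by linarith)
  exact_mod_cast this

private theorem k5a_fl_le {N : ℕ} (hN : 1 ≤ N) (x : ℝ) : k5a_fl N x ≤ x := by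
  have hN' : (0 : ℝ) < N := by exact_mod_cast hN
  unfold k5a_fl
  rw [div_le_iff₀ hN']
  have := Int.floor_le ((N : ℝ) * x)
  linarith

private theorem k5a_lim (x : ℝ) : Tendsto (fun N : ℕ => k5a_fl N x) atTop (𝓝 x) := by
  have h1 : Tendsto (fun N : ℕ => x - 1 / (N : ℝ)) atTop (𝓝 x) := by
    have := (tendsto_const_nhds (x := x)).sub (tendsto_one_div_atTop_nhds_zero_nat (𝕜 := ℝ))
    simpa using this
  refine tendsto_of_tendsto_of_tendsto_of_le_of_le' h1 tendsto_const_nhds ?_ ?_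
  · filter_upwards [eventually_ge_atTop 1] with N hN
    have hN' : (0 : ℝ) < N := by exact_mod_cast hN
    unfold k5a_fl
    have := Int.lt_floor_add_one ((N : ℝ) * x)
    rw [le_div_iff₀ hN', sub_mul, one_div, inv_mul_cancel₀ hN'.ne']
    linarith
  · filter_upwards [eventually_ge_atTop 1] with N hN
    exact k5a_fl_le hN x

private theorem k5a_piece (g : ℝ → ℝ) {N : ℕ} (hN : 1 ≤ N) (z : ℤ) :
    IntervalIntegrable (fun x => g (k5a_fl N x)) volume ((z : ℝ) / N) (((z : ℝ) + 1) / N) ∧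
    ∫ x in (z : ℝ) / N..((z : ℝ) + 1) / N, g (k5a_fl N x) = g ((z : ℝ) / N) / N := by
  have hN' : (0 : ℝ) < N := by exact_mod_cast hN
  have hle : (z : ℝ) / N ≤ ((z : ℝ) + 1) / N := by
    apply div_le_div_of_nonneg_right _ hN'.le
    linarith
  have heq : Set.EqOn (fun _ : ℝ => g ((z : ℝ) / N)) (fun x => g (k5a_fl N x))
      (Set.Ioo ((z : ℝ) / N) (((z : ℝ) + 1) / N)) := by
    intro x hx
    show g ((z : ℝ) / N) = g (k5a_fl N x)
    rw [k5a_fl_const hN z hx.1.le hx.2]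
  constructor
  · rw [intervalIntegrable_iff_integrableOn_Ioo_of_le hle]
    refine IntegrableOn.congr_fun ?_ heq measurableSet_Ioo
    exact integrableOn_const (by simp) 
  · rw [intervalIntegral.integral_of_le hle, integral_Ioc_eq_integral_Ioo,
      ← setIntegral_congr_fun measurableSet_Ioo heq, setIntegral_const]
    rw [smul_eq_mul, Real.volume_real_Ioo_of_le hle]
    have : ((z : ℝ) + 1) / N - (z : ℝ) / N = 1 / N := by ring
    rw [this]
    ring

private theorem k5a_one (g : ℝ → ℝ) {N : ℕ} (hN : 1 ≤ N) (A : ℤ) (n : ℕ) :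
    IntervalIntegrable (fun x => g (k5a_fl N x)) volume ((A : ℝ) / N) (((A : ℝ) + n) / N) ∧
    ∫ x in (A : ℝ) / N..((A : ℝ) + n) / N, g (k5a_fl N x) =
      (∑ i ∈ Finset.range n, g (((A : ℝ) + i) / N)) / N := by
  induction n with
  | zero =>
    simp
  | succ n ih =>
    obtain ⟨ih1, ih2⟩ := ih
    obtain ⟨h1, h2⟩ := k5a_piece g hN (A + n)
    have e1 : (((A + n : ℤ) : ℝ)) = (A : ℝ) + n := by push_cast; ring
    rw [e1] at h1 h2
    have e2 : (A : ℝ) + ((n + 1 : ℕ) : ℝ) = (A : ℝ) + n + 1 := by push_cast; ring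
    rw [e2]
    refine ⟨ih1.trans h1, ?_⟩
    rw [← intervalIntegral.integral_add_adjacent_intervals ih1 h1, ih2, h2, Finset.sum_range_succ]
    ring

private theorem k5a_box (H : ℝ → ℝ → ℝ → ℝ) {N : ℕ} (R : ℕ) (hN : 1 ≤ N) :
    ∫ s in (0 : ℝ)..1, ∫ x in (-(R : ℝ))..R, ∫ y in (-(R : ℝ))..R,
      H (k5a_fl N s) (k5a_fl N x) (k5a_fl N y) =
    (∑ i ∈ Finset.range N, ∑ k ∈ Finset.range (2 * (N * R)), ∑ l ∈ Finset.range (2 * (N * R)),
      H ((i : ℝ) / N) (((-((N * R : ℕ) : ℤ) : ℤ) + k : ℝ) / N) (((-((N * R : ℕ) : ℤ) : ℤ) + l : ℝ) / N)) /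
      (N : ℝ) ^ 3 := by
  have hN' : (0 : ℝ) < N := by exact_mod_cast hN
  set A : ℤ := -((N * R : ℕ) : ℤ) with hA
  have eA : (A : ℝ) / N = -(R : ℝ) := by
    rw [hA]
    push_cast
    field_simp
  have eB : ((A : ℝ) + (2 * (N * R) : ℕ)) / N = R := by
    rw [hA]
    push_cast
    field_simp
    ring
  have h1 : ∀ g : ℝ → ℝ, ∫ x in (-(R : ℝ))..R, g (k5a_fl N x) =
      (∑ i ∈ Finset.range (2 * (N * R)), g (((A : ℝ) + i) / N)) / N := by
    intro g
    have := (k5a_one g hN A (2 * (N * R))).2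
    rwa [eA, eB] at this
  have h0 : ∀ g : ℝ → ℝ, ∫ x in (0 : ℝ)..1, g (k5a_fl N x) =
      (∑ i ∈ Finset.range N, g ((i : ℝ) / N)) / N := by
    intro g
    have := (k5a_one g hN 0 N).2
    have e1 : (((0 : ℤ) : ℝ) + N) / N = 1 := by
      rw [Int.cast_zero, zero_add, div_self hN'.ne']
    rw [e1] at this
    simpa using this
  rw [h0 (fun s' => ∫ x in (-(R : ℝ))..R, ∫ y in (-(R : ℝ))..R, H s' (k5a_fl N x) (k5a_fl N y))]
  have h2 : ∀ s' : ℝ, ∫ x in (-(R : ℝ))..R, ∫ y in (-(R : ℝ))..R, H s' (k5a_fl N x) (k5a_fl N y) =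
      (∑ k ∈ Finset.range (2 * (N * R)), ∑ l ∈ Finset.range (2 * (N * R)),
        H s' (((A : ℝ) + k) / N) (((A : ℝ) + l) / N)) / (N : ℝ) ^ 2 := by
    intro s'
    rw [h1 (fun x' => ∫ y in (-(R : ℝ))..R, H s' x' (k5a_fl N y))]
    have h3 : ∀ x' : ℝ, ∫ y in (-(R : ℝ))..R, H s' x' (k5a_fl N y) =
        (∑ l ∈ Finset.range (2 * (N * R)), H s' x' (((A : ℝ) + l) / N)) / N := fun x' =>
      h1 (fun y' => H s' x' y')
    simp only [h3]
    rw [← Finset.sum_div, div_div, pow_two]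
  simp only [h2]
  rw [← Finset.sum_div, div_div]
  congr 1

private theorem k5a_sum (f : ℤ → ℝ) (K K' : ℕ) (h : K < K') (hf : ∀ z : ℤ, f z ≠ 0 → |z| ≤ K) :
    ∑ z ∈ Finset.Icc (-(K : ℤ)) K, f z = ∑ i ∈ Finset.range (2 * K'), f (-(K' : ℤ) + i) := by
  apply Finset.sum_of_injOn (fun z : ℤ => (z + K').toNat)
  · intro z hz z' hz' hzz
    have h1 : z ∈ Finset.Icc (-(K : ℤ)) K := hz
    have h2 : z' ∈ Finset.Icc (-(K : ℤ)) K := hz'
    rw [Finset.mem_Icc] at h1 h2
    have h3 : (z + K').toNat = (z' + K').toNat := hzz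
    omega
  · intro z hz
    have h1 : z ∈ Finset.Icc (-(K : ℤ)) K := hz
    rw [Finset.mem_Icc] at h1
    show (z + K').toNat ∈ Finset.range (2 * K')
    rw [Finset.mem_range]
    omega
  · intro i hi hni
    by_contra hne
    have h1 := hf _ hne
    rw [abs_le] at h1
    apply hni
    refine ⟨-(K' : ℤ) + i, ?_, ?_⟩
    · show -(K' : ℤ) + i ∈ Finset.Icc (-(K : ℤ)) K
      rw [Finset.mem_Icc]
      exact h1
    · show (-(K' : ℤ) + i + K').toNat = i
      omega
  · intro z hz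
    rw [Finset.mem_Icc] at hz
    show f z = f (-(K' : ℤ) + ((z + K').toNat : ℕ))
    congr 1
    omega

private theorem k5a_E2 (f : E2 → ℝ) :
    ∫ p : ℝ × ℝ, f !₂[p.1, p.2] = ∫ x : E2, f x := by
  have h1 : MeasurePreserving
      ((MeasurableEquiv.finTwoArrow (α := ℝ)).symm.trans (MeasurableEquiv.toLp 2 (Fin 2 → ℝ)))
      volume volume :=
    ((volume_preserving_finTwoArrow ℝ).symm).trans (PiLp.volume_preserving_toLp (Fin 2))
  exact h1.integral_comp (MeasurableEquiv.measurableEmbedding _) f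

theorem riem (F : ℝ → E2 → ℝ) (hF : Continuous (fun p : ℝ × E2 => F p.1 p.2)) (R : ℕ)
    (hR : ∀ s x, F s x ≠ 0 → |x 0| ≤ R ∧ |x 1| ≤ R) :
    Tendsto (fun N : ℕ => (∑ i ∈ Finset.range N, ∑ z ∈ SQ (N * R),
      F (i / N) !₂[(z.1 : ℝ) / N, (z.2 : ℝ) / N]) / (N : ℝ) ^ 3) atTop
      (𝓝 (∫ s in Set.Ioc (0 : ℝ) 1, ∫ x : E2, F s x)) := by
  set H : ℝ → ℝ → ℝ → ℝ := fun s x y => F s !₂[x, y] with hH
  have hHR : ∀ s x y, H s x y ≠ 0 → |x| ≤ R ∧ |y| ≤ R := fun s x y h => hR s _ h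
  have hHc : Continuous (fun p : ℝ × ℝ × ℝ => H p.1 p.2.1 p.2.2) := by
    have h1 : Continuous (fun p : ℝ × ℝ × ℝ => (p.1, (!₂[p.2.1, p.2.2] : E2))) := by
      refine continuous_fst.prodMk ?_
      refine (PiLp.continuous_toLp 2 _).comp (continuous_pi ?_)
      intro i
      fin_cases i
      · exact continuous_snd.fst
      · exact continuous_snd.snd
    exact hF.comp h1
  set R' : ℕ := R + 1 with hR'
  have hR'R : (R : ℝ) < R' := by rw [hR']; push_cast; linarith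
  have hR'0 : (0 : ℝ) ≤ R' := by positivity
  -- the bound
  obtain ⟨M, hM0, hM⟩ : ∃ M : ℝ, 0 ≤ M ∧ ∀ s, 0 ≤ s → s ≤ 1 → ∀ x y, |H s x y| ≤ M := by
    have hK : IsCompact (Set.Icc (0 : ℝ) 1 ×ˢ (Set.Icc (-(R : ℝ)) R ×ˢ Set.Icc (-(R : ℝ)) R)) :=
      isCompact_Icc.prod (isCompact_Icc.prod isCompact_Icc)
    obtain ⟨C, hC⟩ := hK.exists_bound_of_continuousOn hHc.continuousOn
    refine ⟨max C 0, le_max_right _ _, ?_⟩
    intro s hs0 hs1 x y
    by_cases h0 : H s x y = 0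
    · rw [h0, abs_zero]
      exact le_max_right _ _
    · obtain ⟨hx, hy⟩ := hHR s x y h0
      rw [abs_le] at hx hy
      exact (hC (s, x, y) ⟨⟨hs0, hs1⟩, hx, hy⟩).trans (le_max_left _ _)
  -- the sum is an integral
  have hsumint : ∀ᶠ N : ℕ in atTop,
      ∫ s in (0 : ℝ)..1, ∫ x in (-(R' : ℝ))..R', ∫ y in (-(R' : ℝ))..R',
        H (k5a_fl N s) (k5a_fl N x) (k5a_fl N y) =
      (∑ i ∈ Finset.range N, ∑ z ∈ SQ (N * R),
        F (i / N) !₂[(z.1 : ℝ) / N, (z.2 : ℝ) / N]) / (N : ℝ) ^ 3 := by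
    filter_upwards [eventually_ge_atTop 1] with N hN
    have hN' : (0 : ℝ) < N := by exact_mod_cast hN
    rw [k5a_box H R' hN]
    congr 1
    apply Finset.sum_congr rfl
    intro i _
    have hlt : N * R < N * R' := by
      apply Nat.mul_lt_mul_of_pos_left _ hN
      omega
    have hdiv : ∀ z : ℤ, |(z : ℝ) / N| ≤ R → |z| ≤ ((N * R : ℕ) : ℤ) := by
      intro z hz
      rw [abs_div, abs_of_pos hN', div_le_iff₀ hN'] at hz
      have : ((|z| : ℤ) : ℝ) ≤ ((N * R : ℕ) : ℤ) := by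
        push_cast
        linarith
      exact_mod_cast this
    have eSQ : SQ ((N : ℤ) * R) = Finset.Icc (-((N * R : ℕ) : ℤ)) ((N * R : ℕ) : ℤ) ×ˢ
        Finset.Icc (-((N * R : ℕ) : ℤ)) ((N * R : ℕ) : ℤ) := by
      unfold SQ
      push_cast
      rfl
    rw [eSQ, Finset.sum_product]
    have h1 : ∀ z1 : ℤ, ∑ z2 ∈ Finset.Icc (-((N * R : ℕ) : ℤ)) ((N * R : ℕ) : ℤ),
        H ((i : ℝ) / N) ((z1 : ℝ) / N) ((z2 : ℝ) / N) =
        ∑ l ∈ Finset.range (2 * (N * R')),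
          H ((i : ℝ) / N) ((z1 : ℝ) / N) (((-((N * R' : ℕ) : ℤ) + l : ℤ) : ℝ) / N) := by
      intro z1
      exact k5a_sum (fun z2 => H ((i : ℝ) / N) ((z1 : ℝ) / N) ((z2 : ℝ) / N)) _ _ hlt
        (fun z hz => hdiv z (hHR _ _ _ hz).2)
    have h2 := k5a_sum (fun z1 => ∑ l ∈ Finset.range (2 * (N * R')),
          H ((i : ℝ) / N) ((z1 : ℝ) / N) (((-((N * R' : ℕ) : ℤ) + l : ℤ) : ℝ) / N)) _ _ hlt
        (by
          intro z hz
          obtain ⟨l, _, hl⟩ := Finset.exists_ne_zero_of_sum_ne_zero hz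
          exact hdiv z (hHR _ _ _ hl).1)
    have h3 : ∑ z1 ∈ Finset.Icc (-((N * R : ℕ) : ℤ)) ((N * R : ℕ) : ℤ),
        ∑ z2 ∈ Finset.Icc (-((N * R : ℕ) : ℤ)) ((N * R : ℕ) : ℤ),
        H ((i : ℝ) / N) ((z1 : ℝ) / N) ((z2 : ℝ) / N) =
        ∑ k ∈ Finset.range (2 * (N * R')), ∑ l ∈ Finset.range (2 * (N * R')),
          H ((i : ℝ) / N) (((-((N * R' : ℕ) : ℤ) + k : ℤ) : ℝ) / N)
            (((-((N * R' : ℕ) : ℤ) + l : ℤ) : ℝ) / N) := by
      rw [Finset.sum_congr rfl (fun z1 _ => h1 z1)]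
      exact h2
    refine Eq.trans ?_ h3.symm
    apply Finset.sum_congr rfl
    intro k _
    apply Finset.sum_congr rfl
    intro l _
    push_cast
    rfl
  refine Tendsto.congr' hsumint ?_
  -- the limit of the integrals
  have hfl01 : ∀ᶠ N : ℕ in atTop, ∀ s ∈ Set.Ioc (0 : ℝ) 1, 0 ≤ k5a_fl N s ∧ k5a_fl N s ≤ 1 := by
    filter_upwards [eventually_ge_atTop 1] with N hN s hs
    refine ⟨?_, (k5a_fl_le hN s).trans hs.2⟩
    have := k5a_le hN 0 (x := s) (by simpa using hs.1.le)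
    simpa using this
  have hlim3 : ∀ s ∈ Set.Ioc (0 : ℝ) 1, ∀ x : ℝ, Tendsto (fun N : ℕ =>
      ∫ y in (-(R' : ℝ))..R', H (k5a_fl N s) (k5a_fl N x) (k5a_fl N y)) atTop
      (𝓝 (∫ y in (-(R' : ℝ))..R', H s x y)) := by
    intro s hs x
    apply intervalIntegral.tendsto_integral_filter_of_dominated_convergence (fun _ => M)
    · exact Eventually.of_forall fun N =>
        (k5a_meas (fun y' => H (k5a_fl N s) (k5a_fl N x) y') N).aestronglyMeasurable
    · filter_upwards [hfl01] with N hN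
      exact Eventually.of_forall fun y _ => hM _ (hN s hs).1 (hN s hs).2 _ _
    · exact intervalIntegrable_const
    · refine Eventually.of_forall fun y _ => ?_
      have h1 : Tendsto (fun N : ℕ => (k5a_fl N s, k5a_fl N x, k5a_fl N y)) atTop (𝓝 (s, x, y)) :=
        (k5a_lim s).prodMk_nhds ((k5a_lim x).prodMk_nhds (k5a_lim y))
      exact (hHc.tendsto (s, x, y)).comp h1
  have hb3 : ∀ s, 0 ≤ s → s ≤ 1 → ∀ x : ℝ, ∀ g : ℝ → ℝ,
      |∫ y in (-(R' : ℝ))..R', H s x (g y)| ≤ M * (2 * R') := by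
    intro s hs0 hs1 x g
    have h1 := intervalIntegral.norm_integral_le_of_norm_le_const (a := -(R' : ℝ)) (b := R')
      (f := fun y => H s x (g y)) (C := M) (fun y _ => hM s hs0 hs1 x (g y))
    rw [Real.norm_eq_abs] at h1
    refine h1.trans (le_of_eq ?_)
    rw [abs_of_nonneg (by linarith)]
    ring
  have hlim2 : ∀ s ∈ Set.Ioc (0 : ℝ) 1, Tendsto (fun N : ℕ =>
      ∫ x in (-(R' : ℝ))..R', ∫ y in (-(R' : ℝ))..R', H (k5a_fl N s) (k5a_fl N x) (k5a_fl N y)) atTop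
      (𝓝 (∫ x in (-(R' : ℝ))..R', ∫ y in (-(R' : ℝ))..R', H s x y)) := by
    intro s hs
    apply intervalIntegral.tendsto_integral_filter_of_dominated_convergence (fun _ => M * (2 * R'))
    · exact Eventually.of_forall fun N =>
        (k5a_meas (fun x' => ∫ y in (-(R' : ℝ))..R', H (k5a_fl N s) x' (k5a_fl N y)) N).aestronglyMeasurable
    · filter_upwards [hfl01] with N hN
      exact Eventually.of_forall fun x _ => hb3 _ (hN s hs).1 (hN s hs).2 _ _
    · exact intervalIntegrable_const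
    · exact Eventually.of_forall fun x _ => hlim3 s hs x
  have hb2 : ∀ s, 0 ≤ s → s ≤ 1 → ∀ g : ℝ → ℝ,
      |∫ x in (-(R' : ℝ))..R', ∫ y in (-(R' : ℝ))..R', H s (g x) (g y)| ≤ M * (2 * R') * (2 * R') := by
    intro s hs0 hs1 g
    have h1 := intervalIntegral.norm_integral_le_of_norm_le_const (a := -(R' : ℝ)) (b := R')
      (f := fun x => ∫ y in (-(R' : ℝ))..R', H s (g x) (g y)) (C := M * (2 * R'))
      (fun x _ => hb3 s hs0 hs1 (g x) g)
    rw [Real.norm_eq_abs] at h1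
    refine h1.trans (le_of_eq ?_)
    rw [abs_of_nonneg (by linarith)]
    ring
  have hlim1 : Tendsto (fun N : ℕ => ∫ s in (0 : ℝ)..1,
      ∫ x in (-(R' : ℝ))..R', ∫ y in (-(R' : ℝ))..R', H (k5a_fl N s) (k5a_fl N x) (k5a_fl N y)) atTop
      (𝓝 (∫ s in (0 : ℝ)..1, ∫ x in (-(R' : ℝ))..R', ∫ y in (-(R' : ℝ))..R', H s x y)) := by
    apply intervalIntegral.tendsto_integral_filter_of_dominated_convergence
      (fun _ => M * (2 * R') * (2 * R'))
    · exact Eventually.of_forall fun N =>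
        (k5a_meas (fun s' => ∫ x in (-(R' : ℝ))..R', ∫ y in (-(R' : ℝ))..R',
          H s' (k5a_fl N x) (k5a_fl N y)) N).aestronglyMeasurable
    · filter_upwards [hfl01] with N hN
      refine Eventually.of_forall fun s hs => ?_
      rw [Set.uIoc_of_le zero_le_one] at hs
      exact hb2 _ (hN s hs).1 (hN s hs).2 _
    · exact intervalIntegrable_const
    · refine Eventually.of_forall fun s hs => ?_
      rw [Set.uIoc_of_le zero_le_one] at hs
      exact hlim2 s hs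
  have hfin : ∫ s in (0 : ℝ)..1, ∫ x in (-(R' : ℝ))..R', ∫ y in (-(R' : ℝ))..R', H s x y =
      ∫ s in Set.Ioc (0 : ℝ) 1, ∫ x : E2, F s x := by
    rw [intervalIntegral.integral_of_le zero_le_one]
    congr 1
    funext s
    rw [← k5a_E2 (F s)]
    have hint : Integrable (fun p : ℝ × ℝ => F s !₂[p.1, p.2]) (volume.prod volume) := by
      have hc : Continuous (fun p : ℝ × ℝ => F s !₂[p.1, p.2]) :=
        hHc.comp (continuous_const.prodMk continuous_id)
      apply hc.integrable_of_hasCompactSupport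
      apply HasCompactSupport.intro
        ((isCompact_Icc (a := -(R : ℝ)) (b := R)).prod (isCompact_Icc (a := -(R : ℝ)) (b := R)))
      intro p hp
      by_contra hne
      obtain ⟨h1, h2⟩ := hHR s p.1 p.2 hne
      rw [abs_le] at h1 h2
      exact hp ⟨h1, h2⟩
    have hIoc : ∀ x : ℝ, |x| ≤ R → x ∈ Set.Ioc (-(R' : ℝ)) R' := by
      intro x hx
      rw [abs_le] at hx
      constructor <;> linarith
    have h1 : ∫ p : ℝ × ℝ, F s !₂[p.1, p.2] = ∫ x : ℝ, ∫ y : ℝ, H s x y :=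
      integral_prod _ hint
    rw [h1]
    have h2 : ∀ x : ℝ, ∫ y in (-(R' : ℝ))..R', H s x y = ∫ y : ℝ, H s x y := by
      intro x
      apply intervalIntegral.integral_eq_integral_of_support_subset
      intro y hy
      exact hIoc y (hHR s x y hy).2
    simp only [h2]
    apply intervalIntegral.integral_eq_integral_of_support_subset
    intro x hx
    apply hIoc
    by_contra hlt
    apply hx
    have h3 : ∀ y, H s x y = 0 := by
      intro y
      by_contra hne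
      exact hlt (hHR s x y hne).1
    simp [h3]
  rw [hfin] at hlim1
  exact hlim1

end NU53
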