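import Pool.Agent.LibNU53.K2
import Pool.Agent.LibNU53.K3
import Pool.Agent.LibNU53.K5

/-! Row K6. Approximation of the covariance by models. PLAN. First `J ≥ J0` with
`|∑_{j ≤ J} Kj - Kfull| ≤ ε/2` for all `w ∈ W` (`kfull_hasSum`, finitely many `w`), then `N ≥ 1` with
`|∑_{j ≤ J} kN - ∑_{j ≤ J} Kj| ≤ ε/2` for all `w ∈ W` (`kN_tendsto`), then the model of `hm`. SHORT/MEDIUM. -/

open MeasureTheory ProbabilityTheory Filter Topology

namespace NU53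

theorem approx {φ : ℝ → ℝ} {a : ℝ} (h : Prof φ a) {C c α η : ℝ} {q : ℕ} (hα : 0 < α)
    (hη : 0 < η) (hq : 2 * a / η ≤ 2 ^ q)
    (hm : ∀ (N J : ℕ) (D : ℤ), 1 ≤ N → ∃ m : Mdl, IsMdl C c α q J D (kN φ α η q N) m)
    (W : Finset V) (J0 : ℕ) (D : ℤ) {ε : ℝ} (hε : 0 < ε) :
    ∃ (J : ℕ) (κ : ℕ → V → ℝ) (m : Mdl), J0 ≤ J ∧ IsMdl C c α q J D κ m ∧
      ∀ w ∈ W, |(∑ j ∈ Finset.range (J + 1), κ j w) - Kfull φ α ‖gpt η w‖| ≤ ε := by
  have h1 : ∀ᶠ n : ℕ in atTop, ∀ w ∈ W,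
      |(∑ j ∈ Finset.range n, Kj φ α j ‖gpt η w‖) - Kfull φ α ‖gpt η w‖| < ε / 2 := by
    rw [eventually_all_finset]
    intro w _
    have h2 := (kfull_hasSum h hα (norm_nonneg (gpt η w))).tendsto_sum_nat
    filter_upwards [Metric.tendsto_nhds.1 h2 (ε / 2) (by linarith)] with n hn
    rwa [Real.dist_eq] at hn
  obtain ⟨n, hn, hnJ⟩ := (h1.and (eventually_ge_atTop (J0 + 1))).exists
  obtain ⟨J, rfl⟩ : ∃ J, n = J + 1 := ⟨n - 1, by omega⟩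
  have h3 : ∀ᶠ N : ℕ in atTop, ∀ w ∈ W, |(∑ j ∈ Finset.range (J + 1), kN φ α η q N j w) -
      ∑ j ∈ Finset.range (J + 1), Kj φ α j ‖gpt η w‖| < ε / 2 := by
    rw [eventually_all_finset]
    intro w _
    have h4 : Tendsto (fun N : ℕ => ∑ j ∈ Finset.range (J + 1), kN φ α η q N j w) atTop
        (𝓝 (∑ j ∈ Finset.range (J + 1), Kj φ α j ‖gpt η w‖)) :=
      tendsto_finsetSum _ fun j _ => kN_tendsto h hα hη hq j w
    filter_upwards [Metric.tendsto_nhds.1 h4 (ε / 2) (by linarith)] with N hN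
    rwa [Real.dist_eq] at hN
  obtain ⟨N, hN, hN1⟩ := (h3.and (eventually_ge_atTop 1)).exists
  obtain ⟨m, hmm⟩ := hm N J D hN1
  refine ⟨J, kN φ α η q N, m, by omega, hmm, fun w hw => ?_⟩
  have h5 := hn w hw
  have h6 := hN w hw
  rw [abs_lt] at h5 h6
  rw [abs_le]
  constructor <;> linarith

end NU53
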