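import Mathlib

/-! Row L1 (LEVY + PORTMANTEAU). Convergence of the covariances of centred Gaussian vectors implies
`P(X ∈ U) ≤ sup P_n(Y_n ∈ U)` for open `U`. PLAN. Transport to `EuclideanSpace ℝ ι`
(`WithLp.equiv`/`EuclideanSpace.equiv`, homeomorphism); characteristic function of a centred Gaussian vector:
`exp(-½ ∑ t_i t_k Cov(i,k))` (`IsGaussian.charFun_eq` or `HasGaussianLaw.charFun…`, look at
`Mathlib/Probability/Distributions/Gaussian`; it is computed in `LibGFPerc/Shift.lean`,
`gaussian_map_eq`); `ProbabilityMeasure.tendsto_iff_tendsto_charFun`;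
`ProbabilityMeasure.le_liminf_measure_open_of_tendsto`. Only Mathlib. MEDIUM. -/

open MeasureTheory ProbabilityTheory Filter Topology

namespace NU53

/-- The characteristic functional of a centred Gaussian vector. -/
private theorem l1_dual {ι : Type*} [Fintype ι] [DecidableEq ι] {Ω : Type*} [MeasurableSpace Ω]
    {P : Measure Ω} (H : ι → Ω → ℝ) (hH : HasGaussianLaw (fun ω i => H i ω) P)
    (hH0 : ∀ i, ∫ ω, H i ω ∂P = 0) (L : StrongDual ℝ (ι → ℝ)) :
    charFunDual (P.map fun ω i => H i ω) L = Complex.exp (((-(∑ i, ∑ j, L (Pi.single i 1) *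
      (L (Pi.single j 1) * covariance (H i) (H j) P)) / 2 : ℝ) : ℂ)) := by
  have hP : IsProbabilityMeasure P := hH.isProbabilityMeasure
  have hexp : ∀ ω, L (fun i => H i ω) = ∑ i, L (Pi.single i 1) * H i ω := by
    intro ω
    have : (fun i => H i ω) = ∑ i, H i ω • (Pi.single i (1 : ℝ) : ι → ℝ) := by
      ext j
      simp [Finset.sum_apply, Pi.single_apply]
    rw [this, map_sum]
    apply Finset.sum_congr rfl
    intro i _
    rw [map_smul, smul_eq_mul, mul_comm]
  have hint : ∀ i, Integrable (H i) P := fun i => (hH.eval i).integrable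
  have hL2 : ∀ i, MemLp (H i) 2 P := fun i => (hH.eval i).memLp_two
  have hfun : (fun ω => L (fun i => H i ω)) = fun ω => ∑ i, L (Pi.single i 1) * H i ω := by
    funext ω
    exact hexp ω
  have h1 : ∫ ω, L (fun i => H i ω) ∂P = 0 := by
    rw [hfun, integral_finsetSum _ (fun i _ => (hint i).const_mul _)]
    apply Finset.sum_eq_zero
    intro i _
    rw [integral_const_mul, hH0 i, mul_zero]
  have h2 : Var[fun ω => L (fun i => H i ω); P] =
      ∑ i, ∑ j, L (Pi.single i 1) * (L (Pi.single j 1) * covariance (H i) (H j) P) := by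
    rw [hfun, ← covariance_self, covariance_fun_sum_fun_sum]
    · apply Finset.sum_congr rfl; intro i _
      apply Finset.sum_congr rfl; intro j _
      rw [covariance_const_mul_left, covariance_const_mul_right]
    · intro i; exact (hL2 i).const_mul _
    · intro i; exact (hL2 i).const_mul _
    · apply Finset.aemeasurable_fun_sum
      intro i _
      exact (hint i).aemeasurable.const_mul _
  rw [hH.charFunDual_map_eq_fun, h1, h2]
  congr 1
  push_cast
  ring

theorem weak_lim {ι : Type*} [Fintype ι] {Ω : Type*} [MeasurableSpace Ω] {P : Measure Ω}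
    (X : ι → Ω → ℝ) (hX : HasGaussianLaw (fun ω i => X i ω) P) (hX0 : ∀ i, ∫ ω, X i ω ∂P = 0)
    (Ωn : ℕ → Type) [∀ n, MeasurableSpace (Ωn n)] (Pn : ∀ n, Measure (Ωn n))
    (Y : ∀ n, ι → Ωn n → ℝ) (hY : ∀ n, HasGaussianLaw (fun ω i => Y n i ω) (Pn n))
    (hY0 : ∀ n i, ∫ ω, Y n i ω ∂(Pn n) = 0)
    (hc : ∀ i k, Tendsto (fun n => covariance (Y n i) (Y n k) (Pn n)) atTop
      (𝓝 (covariance (X i) (X k) P)))
    (U : Set (ι → ℝ)) (hU : IsOpen U) (b : ENNReal)
    (hb : ∀ n, Pn n {ω | (fun i => Y n i ω) ∈ U} ≤ b) :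
    P {ω | (fun i => X i ω) ∈ U} ≤ b := by
  classical
  let T : (ι → ℝ) ≃L[ℝ] EuclideanSpace ℝ ι := (EuclideanSpace.equiv ι ℝ).symm
  have hP : IsProbabilityMeasure P := hX.isProbabilityMeasure
  have hPn : ∀ n, IsProbabilityMeasure (Pn n) := fun n => (hY n).isProbabilityMeasure
  have hXm : AEMeasurable (fun ω i => X i ω) P := hX.aemeasurable
  have hYm : ∀ n, AEMeasurable (fun ω i => Y n i ω) (Pn n) := fun n => (hY n).aemeasurable
  have hTm : Measurable T := T.continuous.measurable
  have hp0 : IsProbabilityMeasure (P.map fun ω i => X i ω) :=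
    Measure.isProbabilityMeasure_map hXm
  have hpn : ∀ n, IsProbabilityMeasure ((Pn n).map fun ω i => Y n i ω) := fun n =>
    Measure.isProbabilityMeasure_map (hYm n)
  let μ0 : ProbabilityMeasure (EuclideanSpace ℝ ι) :=
    ⟨(P.map fun ω i => X i ω).map T, Measure.isProbabilityMeasure_map hTm.aemeasurable⟩
  let μ : ℕ → ProbabilityMeasure (EuclideanSpace ℝ ι) := fun n =>
    ⟨((Pn n).map fun ω i => Y n i ω).map T, Measure.isProbabilityMeasure_map hTm.aemeasurable⟩
  have hchar : ∀ (ν : Measure (ι → ℝ)) (t : EuclideanSpace ℝ ι),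
      charFun (ν.map T) t = charFunDual ν
        ((InnerProductSpace.toDualMap ℝ (EuclideanSpace ℝ ι) t).comp
          (T : (ι → ℝ) →L[ℝ] EuclideanSpace ℝ ι)) := by
    intro ν t
    rw [charFun_eq_charFunDual_toDualMap]
    exact charFunDual_map (T : (ι → ℝ) →L[ℝ] EuclideanSpace ℝ ι) _
  have hlim : Tendsto μ atTop (𝓝 μ0) := by
    refine ProbabilityMeasure.tendsto_iff_tendsto_charFun.2 fun t => ?_
    show Tendsto (fun n => charFun (((Pn n).map fun ω i => Y n i ω).map T) t) atTop
      (𝓝 (charFun ((P.map fun ω i => X i ω).map T) t))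
    rw [hchar, l1_dual X hX hX0]
    simp_rw [hchar, fun n => l1_dual (Y n) (hY n) (hY0 n)]
    refine (Complex.continuous_exp.tendsto _).comp
      ((Complex.continuous_ofReal.tendsto _).comp ?_)
    refine Tendsto.div_const (Tendsto.neg ?_) 2
    exact tendsto_finsetSum _ fun i _ => tendsto_finsetSum _ fun j _ =>
      ((hc i j).const_mul _).const_mul _
  let V : Set (EuclideanSpace ℝ ι) := T.symm ⁻¹' U
  have hV : IsOpen V := hU.preimage T.symm.continuous
  have hT : ∀ x : ι → ℝ, T x ∈ V ↔ x ∈ U := fun x => by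
    show T.symm (T x) ∈ U ↔ x ∈ U
    rw [T.symm_apply_apply]
  have hport := ProbabilityMeasure.le_liminf_measure_open_of_tendsto hlim hV
  have h0 : (μ0 : Measure (EuclideanSpace ℝ ι)) V = P {ω | (fun i => X i ω) ∈ U} := by
    show ((P.map fun ω i => X i ω).map T) V = _
    rw [Measure.map_apply hTm hV.measurableSet,
      Measure.map_apply_of_aemeasurable hXm (hTm hV.measurableSet)]
    congr 1
  have hn : ∀ n, (μ n : Measure (EuclideanSpace ℝ ι)) V ≤ b := by
    intro n
    show (((Pn n).map fun ω i => Y n i ω).map T) V ≤ b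
    rw [Measure.map_apply hTm hV.measurableSet,
      Measure.map_apply_of_aemeasurable (hYm n) (hTm hV.measurableSet)]
    refine le_trans (le_of_eq ?_) (hb n)
    congr 1
  rw [h0] at hport
  refine hport.trans ?_
  refine (liminf_le_liminf (Eventually.of_forall hn)).trans ?_
  simp

end NU53
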