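import Pool.Agent.LibNU53.O5
import Pool.Agent.LibNU53.A1
import Pool.Agent.LibNU53.K6
import Pool.Agent.LibNU53.L1
import Pool.Agent.LibGFPerc.Grid

/-! Row L2 (BOUND FOR THE TRUE FIELD ON A MESH). PLAN. `mdl_ex` gives `C, c`; `disc C c` gives
`η₀, C7, s1, q0`; `α0 = min 1 (2 η₀)`, so that `α/2 < η₀`; `geo_sum` gives `C8`. For `R > 0` and `n` even, large:
`η = R/n`, `q` the least natural with `2a n/R ≤ 2^q` (so `1 ≤ q`, `q0 ≤ q`, `2^(q-1) < 2a n/R`, hence
`2^q ≤ 4a n/R`). For `i : ℕ` take from `approx` (with `W` = differences of vertices of the box, `ε = 1/(i+1)`,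
`D = 2^s1 n`, `J0` with `2^s1 n ≤ 2^(q+J0)`) models `m_i`; `disc` + `geo_sum` with `x = n/2^q ≥ R/(4a)`:
`P(Tn n (F J ω) ≤ -t) ≤ C7 C8 /t · (R/(4a))^(-α/2)`. `weak_lim` with `ι` = the vertices of the box, the open set
`U = {y | Tn n (extension of y) < -t}` (`tn_lip`: continuous), covariances of the model: `cov_F`, `gauss_fl`,
`mean_fl`; of the field: `IsPlanarField.cov_eq`, `‖gpt η u - gpt η v‖ = ‖gpt η (u-v)‖`;
Gaussianity: `GFPerc.gaussian_vec_law`. STRONG/MEDIUM. -/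

open MeasureTheory ProbabilityTheory Filter Topology

namespace NU53

open GFPerc (E2 IsPlanarField)

/-- extension by zero of a function on the box -/
noncomputable def l2_ext (n : ℤ) (y : {v : V // v ∈ BoxF n} → ℝ) (v : V) : ℝ :=
  if hv : v ∈ BoxF n then y ⟨v, hv⟩ else 0

lemma l2_mem {n : ℤ} {v : V} : v ∈ BoxF n ↔ v ∈ Box 0 n 0 n := by
  unfold BoxF Box
  simp [Finset.mem_product]

lemma l2_open {n : ℤ} (hn : 0 ≤ n) (t : ℝ) :
    IsOpen {y : {v : V // v ∈ BoxF n} → ℝ | Tn n (l2_ext n y) < -t} := by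
  have hL : LipschitzWith 1 (fun y : {v : V // v ∈ BoxF n} → ℝ => Tn n (l2_ext n y)) := by
    apply LipschitzWith.of_dist_le_mul
    intro y y'
    rw [NNReal.coe_one, one_mul, Real.dist_eq]
    apply tn_lip hn
    intro v hv
    have hv' : v ∈ BoxF n := l2_mem.2 hv
    unfold l2_ext
    rw [dif_pos hv', dif_pos hv', ← Real.dist_eq]
    exact dist_le_pi_dist y y' ⟨v, hv'⟩
  exact isOpen_lt hL.continuous continuous_const

lemma l2_gpt (η : ℝ) (u v : V) : ‖gpt η u - gpt η v‖ = ‖gpt η (u - v)‖ := by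
  congr 1
  ext i
  fin_cases i
  · simp [gpt]; ring
  · simp [gpt]; ring

theorem mesh_bound {φ : ℝ → ℝ} {a : ℝ} (h : Prof φ a) : ∃ α0 : ℝ, 0 < α0 ∧ ∀ α : ℝ, 0 < α →
    α < α0 → ∃ C : ℝ, 0 < C ∧ ∀ {Ω : Type*} [MeasurableSpace Ω] (P : Measure Ω)
    (f : E2 → Ω → ℝ), IsPlanarField P f (Kfull φ α) → ∀ R : ℝ, 0 < R → ∃ n0 : ℕ,
    ∀ n : ℕ, n0 ≤ n → Even n → ∀ t : ℝ, 0 < t →
    P {ω | Tn n (fun v => f (gpt (R / n) v) ω) < -t} ≤
      ENNReal.ofReal (C / (t * R ^ (α / 2))) := by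
  obtain ⟨C, c, hc, hm⟩ := mdl_ex h
  obtain ⟨η₀, C7, s1, q0, hη0, hη1, hC7, hdisc⟩ := disc C c hc
  refine ⟨min 1 (2 * η₀), lt_min one_pos (by positivity), fun α hα hα0 => ?_⟩
  have hα1 : α ≤ 1 := (hα0.trans_le (min_le_left _ _)).le
  have hαη : α / 2 < η₀ := by
    have := hα0.trans_le (min_le_right _ _)
    linarith
  obtain ⟨C8, hC8, hgeo⟩ := geo_sum hα hαη
  have ha := h.ha
  refine ⟨C7 * C8 * (4 * a) ^ (α / 2), by positivity, ?_⟩
  intro Ω _ P f hf R hR
  obtain ⟨n0, hn0⟩ := exists_nat_gt (R * 2 ^ q0 / (2 * a))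
  refine ⟨n0 + 1, fun n hn hev t ht => ?_⟩
  have hn1 : 1 ≤ n := by omega
  have hnpos : (0 : ℝ) < n := by exact_mod_cast hn1
  set η : ℝ := R / n with hη
  have hηpos : 0 < η := by positivity
  have h2a : 2 * a / η = 2 * a * n / R := by
    rw [hη]; field_simp
  have h4a : 4 * a / η = 4 * a * n / R := by
    rw [hη]; field_simp
  -- the level q
  have hex : ∃ q : ℕ, 2 * a / η ≤ 2 ^ q := by
    obtain ⟨q, hq⟩ := pow_unbounded_of_one_lt (2 * a / η) (by norm_num : (1 : ℝ) < 2)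
    exact ⟨q, hq.le⟩
  classical
  obtain ⟨q, hq, hqmin⟩ : ∃ q : ℕ, 2 * a / η ≤ 2 ^ q ∧ ∀ k < q, ¬ (2 * a / η ≤ 2 ^ k) :=
    ⟨Nat.find hex, Nat.find_spec hex, fun k hk => Nat.find_min hex hk⟩
  have hqq : q0 < q := by
    by_contra hcon
    push Not at hcon
    have h1 : (2 : ℝ) ^ q ≤ 2 ^ q0 := pow_le_pow_right₀ (by norm_num) hcon
    have h2 : 2 * a * n / R ≤ 2 ^ q0 := by rw [← h2a]; exact hq.trans h1
    rw [div_le_iff₀ hR] at h2
    have h3 : (n0 : ℝ) < n := by exact_mod_cast hn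
    rw [div_lt_iff₀ (by positivity)] at hn0
    have h4 : (n0 : ℝ) * (2 * a) < n * (2 * a) := by
      apply mul_lt_mul_of_pos_right h3; positivity
    linarith
  have hq1 : 1 ≤ q := by omega
  have hq4 : (2 : ℝ) ^ q ≤ 4 * a / η := by
    obtain ⟨k, rfl⟩ : ∃ k, q = k + 1 := ⟨q - 1, by omega⟩
    have h1 := hqmin k (by omega)
    push Not at h1
    rw [pow_succ]
    have : 4 * a / η = 2 * a / η * 2 := by ring
    rw [this]
    linarith
  -- the models
  set D : ℤ := 2 ^ s1 * n with hD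
  set W : Finset V := (BoxF n ×ˢ BoxF n).image (fun p : V × V => p.1 - p.2) with hW
  have hmod : ∀ i : ℕ, ∃ (J : ℕ) (κ : ℕ → V → ℝ) (m : Mdl), s1 + n ≤ J ∧
      IsMdl C c α q J D κ m ∧
      ∀ w ∈ W, |(∑ j ∈ Finset.range (J + 1), κ j w) - Kfull φ α ‖gpt η w‖| ≤ 1 / ((i : ℝ) + 1) :=
    fun i => approx h hα hηpos hq (fun N J D hN => hm α hα hα1 η q hηpos hq1 hq hq4 N J D hN)
      W (s1 + n) D (by positivity)
  choose J κ m hJ hM hWm using hmod
  have hnZ : (0 : ℤ) ≤ (n : ℤ) := by positivity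
  have hDn : (n : ℤ) ≤ D := by
    rw [hD]
    have : (1 : ℤ) ≤ 2 ^ s1 := one_le_pow₀ (by norm_num)
    nlinarith
  have hbox : ∀ v : V, v ∈ BoxF (n : ℤ) → v ∈ Sq 0 D := by
    intro v hv
    obtain ⟨⟨h1, h2⟩, h3, h4⟩ := l2_mem.1 hv
    refine ⟨⟨?_, ?_⟩, ?_, ?_⟩ <;> simp <;> omega
  have hcongr : ∀ g : V → ℝ, Tn n (l2_ext n (fun v : {v : V // v ∈ BoxF (n : ℤ)} => g v.1)) =
      Tn n g := by
    intro g
    apply tn_congr hnZ
    intro v hv
    unfold l2_ext
    rw [dif_pos (l2_mem.2 hv)]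
  have hfin := weak_lim (P := P)
    (X := fun (v : {v : V // v ∈ BoxF (n : ℤ)}) ω => f (gpt η v.1) ω)
    (GFPerc.gaussian_vec_law hf.gaussian (fun v : {v : V // v ∈ BoxF (n : ℤ)} => gpt η v.1))
    (fun v => hf.centred _)
    (fun i => (m i).Om) (fun i => (m i).mu)
    (fun i v ω => (m i).F (J i) ω v.1)
    (fun i => gauss_fl (m i) (fun _ => (m i).le (J i)) (fun v : {v : V // v ∈ BoxF (n : ℤ)} => v.1))
    (fun i v => mean_fl (m i) _ _)
    (by
      intro u v
      have h1 : ∀ i, covariance (fun ω => (m i).F (J i) ω u.1) (fun ω => (m i).F (J i) ω v.1)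
          (m i).mu = ∑ j ∈ Finset.range (J i + 1), κ i j (u.1 - v.1) := fun i =>
        cov_F (hM i) le_rfl (hbox _ u.2) (hbox _ v.2)
      have h2 : covariance (f (gpt η u.1)) (f (gpt η v.1)) P =
          Kfull φ α ‖gpt η (u.1 - v.1)‖ := by
        rw [hf.cov_eq, l2_gpt]
      have h3 : u.1 - v.1 ∈ W := by
        rw [hW]
        apply Finset.mem_image.2
        exact ⟨(u.1, v.1), Finset.mem_product.2 ⟨u.2, v.2⟩, rfl⟩
      show Tendsto (fun i => covariance (fun ω => (m i).F (J i) ω u.1)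
        (fun ω => (m i).F (J i) ω v.1) (m i).mu) atTop
        (𝓝 (covariance (f (gpt η u.1)) (f (gpt η v.1)) P))
      simp_rw [h1, h2]
      rw [tendsto_iff_dist_tendsto_zero]
      refine squeeze_zero (fun _ => dist_nonneg) (fun i => ?_)
        (tendsto_one_div_add_atTop_nhds_zero_nat (𝕜 := ℝ))
      rw [Real.dist_eq]
      exact hWm i _ h3)
    {y | Tn n (l2_ext n y) < -t} (l2_open hnZ t)
    (ENNReal.ofReal (C7 * C8 * (4 * a) ^ (α / 2) / (t * R ^ (α / 2))))
    (by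
      intro i
      have h1 : {ω | (fun v : {v : V // v ∈ BoxF (n : ℤ)} => (m i).F (J i) ω v.1) ∈
          {y : {v : V // v ∈ BoxF (n : ℤ)} → ℝ | Tn n (l2_ext n y) < -t}} ⊆
          {ω | Tn n ((m i).F (J i) ω) ≤ -t} := by
        intro ω hω
        have h2 : Tn n (l2_ext n (fun v : {v : V // v ∈ BoxF (n : ℤ)} =>
          (m i).F (J i) ω v.1)) < -t := hω
        rw [hcongr (fun v => (m i).F (J i) ω v)] at h2
        exact h2.le
      refine (measure_mono h1).trans ?_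
      rw [← ENNReal.ofReal_toReal (measure_ne_top (m i).mu _)]
      apply ENNReal.ofReal_le_ofReal
      have hnn : (n : ℤ) ≤ 2 ^ n := by
        exact_mod_cast (Nat.lt_two_pow_self (n := n)).le
      have h3 := hdisc α q (J i) D (κ i) (m i) (hM i) hqq.le n (by exact_mod_cast hn1)
        (by exact_mod_cast hev)
        (by
          calc (2 : ℤ) ^ s1 * n ≤ 2 ^ s1 * 2 ^ n := by
                apply mul_le_mul_of_nonneg_left hnn; positivity
            _ = 2 ^ (s1 + n) := by rw [pow_add]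
            _ ≤ 2 ^ (q + J i) := by
                apply pow_le_pow_right₀ (by norm_num)
                have := hJ i
                omega) le_rfl t ht
      refine h3.trans ?_
      set x : ℝ := n / 2 ^ q with hx
      have hxpos : 0 < x := by positivity
      have h4 : ∀ j : ℕ, (2 : ℝ) ^ (q + j) / ((n : ℤ) : ℝ) = 2 ^ j / x := by
        intro j
        rw [hx, pow_add]
        push_cast
        field_simp
      simp_rw [h4]
      have h5 := hgeo x hxpos (J i)
      have h6 : R / (4 * a) ≤ x := by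
        rw [hx, div_le_div_iff₀ (by positivity) (by positivity)]
        rw [h4a, le_div_iff₀ hR] at hq4
        linarith
      have h7 : x ^ (-(α / 2)) ≤ (R / (4 * a)) ^ (-(α / 2)) :=
        Real.rpow_le_rpow_of_nonpos (by positivity) h6 (by linarith)
      have h8 : (R / (4 * a)) ^ (-(α / 2)) = (4 * a) ^ (α / 2) / R ^ (α / 2) := by
        rw [Real.rpow_neg (by positivity), Real.div_rpow hR.le (by positivity), inv_div]
      calc C7 / t * ∑ j ∈ Finset.range (J i + 1), sg α j * min 1 ((2 ^ j / x) ^ η₀)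
          ≤ C7 / t * (C8 * x ^ (-(α / 2))) := by
            apply mul_le_mul_of_nonneg_left h5; positivity
        _ ≤ C7 / t * (C8 * ((4 * a) ^ (α / 2) / R ^ (α / 2))) := by
            rw [← h8]; gcongr
        _ = C7 * C8 * (4 * a) ^ (α / 2) / (t * R ^ (α / 2)) := by
            have : 0 < R ^ (α / 2) := by positivity
            field_simp)
  refine le_trans (le_of_eq ?_) hfin
  congr 1
  ext ω
  show Tn n (fun v => f (gpt η v) ω) < -t ↔
    Tn n (l2_ext n (fun v : {v : V // v ∈ BoxF (n : ℤ)} => f (gpt η v.1) ω)) < -t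
  rw [hcongr (fun v => f (gpt η v) ω)]

end NU53
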