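import Pool.Agent.LibNU53.T8
import Pool.Agent.LibNU53.K1
import Pool.Agent.LibGFPerc.Path

/-! Row L3 (FROM THE CONTINUOUS PATH TO THE LATTICE PATH). PLAN. `γ : [0,1] → [0,R]²` the path of `Cross`
(`JoinedIn`), `g ≤ ℓ` on it. `g` is uniformly continuous on the compact `[0,R]²`: `ρ > 0` such that
`|g x - g y| ≤ δ` if `|x - y| ≤ ρ` there. Let `η = R/n` with `4η ≤ ρ`. `v(t) = (⌊γ₁(t)/η⌋, ⌊γ₂(t)/η⌋) ∈ [0,n]²`.
`S` = vertices of the box with `|γ_i(t) - η v_i| ≤ 2η`, `i = 1,2`, for some `t`; `S ⊆ {v | g(η v) ≤ ℓ + δ}`.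
If `|γ(t) - γ(t')|_∞ < η` then `v(t)`, `v(t')` differ by at most one in each coordinate, and
`v(t) → (v(t')₁, v(t)₂) → v(t')` is a lattice path in `S`. Uniform continuity of `γ` and induction over a
partition of `[0,1]`: `v(0)` (abscissa `0`) is connected to `v(1)` (abscissa `n`) in `S`. Then `lr_iff`.
MEDIUM/STRONG. -/

open Filter Topology

namespace NU53

open GFPerc (E2)

private theorem l3_floor {x y : ℝ} (h : |x - y| < 1) :
    ⌊x⌋ = ⌊y⌋ ∨ ⌊y⌋ = ⌊x⌋ + 1 ∨ ⌊x⌋ = ⌊y⌋ + 1 := by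
  have h1 := Int.floor_le x
  have h2 := Int.lt_floor_add_one x
  have h3 := Int.floor_le y
  have h4 := Int.lt_floor_add_one y
  obtain ⟨h5, h6⟩ := abs_lt.1 h
  have h7 : ⌊x⌋ < ⌊y⌋ + 2 := by
    have : (⌊x⌋ : ℝ) < ⌊y⌋ + 2 := by linarith
    exact_mod_cast this
  have h8 : ⌊y⌋ < ⌊x⌋ + 2 := by
    have : (⌊y⌋ : ℝ) < ⌊x⌋ + 2 := by linarith
    exact_mod_cast this
  omega

/-- a horizontal step -/
private theorem l3_hstep {T : Set V} {a b y : ℤ} (h1 : (a, y) ∈ T) (h2 : (b, y) ∈ T)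
    (h : a = b ∨ b = a + 1 ∨ a = b + 1) : Conn T (a, y) (b, y) := by
  rcases h with h | h
  · subst h
    exact Conn.refl h1
  · exact Conn.tail (Conn.refl h1) (Or.inl ⟨rfl, h⟩) h2

/-- a vertical step -/
private theorem l3_vstep {T : Set V} {a y z : ℤ} (h1 : (a, y) ∈ T) (h2 : (a, z) ∈ T)
    (h : y = z ∨ z = y + 1 ∨ y = z + 1) : Conn T (a, y) (a, z) := by
  rcases h with h | h
  · subst h
    exact Conn.refl h1
  · exact Conn.tail (Conn.refl h1) (Or.inr (Or.inl ⟨rfl, h⟩)) h2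

private theorem l3_fl {x η : ℝ} (hη : 0 < η) : 0 ≤ x - η * ⌊x / η⌋ ∧ x - η * ⌊x / η⌋ < η := by
  have h1 := Int.floor_le (x / η)
  have h2 := Int.lt_floor_add_one (x / η)
  rw [le_div_iff₀ hη] at h1
  rw [div_lt_iff₀ hη] at h2
  constructor
  · linarith
  · linarith

theorem path_lat {g : E2 → ℝ} (hg : Continuous g) {ℓ R : ℝ} (hR : 0 < R)
    (h : GFPerc.Cross g ℓ R) {δ : ℝ} (hδ : 0 < δ) : ∃ n0 : ℕ, ∀ n : ℕ, n0 ≤ n → 0 < n →
    Tn n (fun v => g (gpt (R / n) v)) ≤ ℓ + δ := by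
  obtain ⟨p, q, hp, hq, hj⟩ := h
  obtain ⟨γ, hγ⟩ : ∃ γ : Path p q, ∀ t, γ t ∈ {x | x ∈ GFPerc.box R ∧ g x ≤ ℓ} :=
    ⟨hj.somePath, hj.somePath_mem⟩
  have huc := (GFPerc.box_compact R).uniformContinuousOn_of_continuous hg.continuousOn
  rw [Metric.uniformContinuousOn_iff] at huc
  obtain ⟨ρ, hρ, huc⟩ := huc δ hδ
  obtain ⟨N, hN⟩ := exists_nat_gt (3 * R / ρ)
  refine ⟨N, fun n hn hn0 => ?_⟩
  have hn' : (0 : ℝ) < n := by exact_mod_cast hn0
  obtain ⟨η, hη⟩ : ∃ η, η = R / n := ⟨_, rfl⟩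
  have hη0 : 0 < η := by rw [hη]; positivity
  have hηn : η * n = R := by rw [hη]; field_simp
  have hmesh : 3 * η < ρ := by
    have h1 : 3 * R / ρ < n := lt_of_lt_of_le hN (by exact_mod_cast hn)
    rw [div_lt_iff₀ hρ] at h1
    rw [hη, ← mul_div_assoc, div_lt_iff₀ hn']
    linarith
  rw [← hη]
  have hcoord : ∀ x y : E2, ∀ i, |x i - y i| ≤ dist x y := by
    intro x y i
    rw [dist_eq_norm]
    exact PiLp.norm_apply_le (x - y) i
  -- the vertices
  let v : unitInterval → V := fun t => (⌊γ t 0 / η⌋, ⌊γ t 1 / η⌋)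
  let S : Set V := {w | ∃ t : unitInterval, |γ t 0 - η * w.1| ≤ 2 * η ∧ |γ t 1 - η * w.2| ≤ 2 * η}
  have hbox : ∀ t, v t ∈ Box 0 n 0 n := by
    intro t
    have h1 := (hγ t).1
    have h2 : ∀ i, 0 ≤ ⌊γ t i / η⌋ ∧ ⌊γ t i / η⌋ ≤ n := by
      intro i
      obtain ⟨h3, h4⟩ := h1 i
      constructor
      · exact Int.floor_nonneg.2 (div_nonneg h3 hη0.le)
      · have h5 : γ t i / η ≤ n := by
          rw [div_le_iff₀ hη0]
          linarith
        exact (Int.floor_mono h5).trans (le_of_eq (Int.floor_natCast n))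
    exact ⟨h2 0, h2 1⟩
  have hstep : ∀ t t' : unitInterval, dist (γ t) (γ t') < η →
      Conn (S ∩ Box 0 n 0 n) (v t) (v t') := by
    intro t t' hd
    have h0 := lt_of_le_of_lt (hcoord (γ t) (γ t') 0) hd
    have h1 := lt_of_le_of_lt (hcoord (γ t) (γ t') 1) hd
    have a0 := l3_fl (x := γ t 0) hη0
    have a1 := l3_fl (x := γ t 1) hη0
    have b0 := l3_fl (x := γ t' 0) hη0
    have b1 := l3_fl (x := γ t' 1) hη0
    have c0 : |γ t 0 / η - γ t' 0 / η| < 1 := by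
      rw [← sub_div, abs_div, abs_of_pos hη0, div_lt_one hη0]
      exact h0
    have c1 : |γ t 1 / η - γ t' 1 / η| < 1 := by
      rw [← sub_div, abs_div, abs_of_pos hη0, div_lt_one hη0]
      exact h1
    have m1 : (⌊γ t 0 / η⌋, ⌊γ t 1 / η⌋) ∈ S ∩ Box 0 n 0 n := by
      refine ⟨⟨t, ?_, ?_⟩, hbox t⟩
      · rw [abs_le]
        constructor <;> linarith
      · rw [abs_le]
        constructor <;> linarith
    have m3 : (⌊γ t' 0 / η⌋, ⌊γ t' 1 / η⌋) ∈ S ∩ Box 0 n 0 n := by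
      refine ⟨⟨t', ?_, ?_⟩, hbox t'⟩
      · rw [abs_le]
        constructor <;> linarith
      · rw [abs_le]
        constructor <;> linarith
    have m2 : (⌊γ t' 0 / η⌋, ⌊γ t 1 / η⌋) ∈ S ∩ Box 0 n 0 n := by
      refine ⟨⟨t, ?_, ?_⟩, (hbox t').1, (hbox t).2⟩
      · rw [abs_lt] at h0
        rw [abs_le]
        constructor <;> linarith
      · rw [abs_le]
        constructor <;> linarith
    exact (l3_hstep m1 m2 (l3_floor c0)).trans (l3_vstep m2 m3 (l3_floor c1))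
  -- the partition
  have hγu := CompactSpace.uniformContinuous_of_continuous γ.continuous
  rw [Metric.uniformContinuous_iff] at hγu
  obtain ⟨ε, hε, hγu⟩ := hγu η hη0
  obtain ⟨K, hK⟩ := exists_nat_gt (1 / ε)
  have hK0 : (0 : ℝ) < K := lt_trans (by positivity) hK
  have hKε : 1 / (K : ℝ) < ε := by
    rw [div_lt_iff₀ hε] at hK
    rw [div_lt_iff₀ hK0]
    linarith
  have hmem : ∀ k : ℕ, k ≤ K → (k : ℝ) / K ∈ unitInterval := by
    intro k hk
    refine ⟨by positivity, ?_⟩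
    rw [div_le_one hK0]
    exact_mod_cast hk
  have hconn : ∀ k : ℕ, ∀ hk : k ≤ K, Conn (S ∩ Box 0 n 0 n) (v 0) (v ⟨(k : ℝ) / K, hmem k hk⟩) := by
    intro k
    induction k with
    | zero =>
      intro hk
      refine hstep _ _ ?_
      have e1 : (⟨((0 : ℕ) : ℝ) / K, hmem 0 hk⟩ : unitInterval) = 0 := by
        apply Subtype.ext
        simp
      rw [e1, dist_self]
      exact hη0
    | succ k ih =>
      intro hk
      refine (ih (by omega)).trans (hstep _ _ (hγu ?_))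
      rw [Subtype.dist_eq, Real.dist_eq]
      have e1 : (k : ℝ) / K - ((k + 1 : ℕ) : ℝ) / K = -(1 / K) := by
        push_cast
        ring
      change |(k : ℝ) / K - ((k + 1 : ℕ) : ℝ) / K| < ε
      rw [e1, abs_neg, abs_of_pos (by positivity)]
      exact hKε
  have hlast := hconn K le_rfl
  have e1 : (⟨(K : ℝ) / K, hmem K le_rfl⟩ : unitInterval) = 1 := by
    apply Subtype.ext
    change (K : ℝ) / K = 1
    exact div_self hK0.ne'
  rw [e1] at hlast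
  have hv0 : (v 0).1 = 0 := by
    change ⌊γ 0 0 / η⌋ = 0
    rw [γ.source, hp, zero_div, Int.floor_zero]
  have hv1 : (v 1).1 = n := by
    change ⌊γ 1 0 / η⌋ = n
    rw [γ.target, hq, ← hηn, mul_div_cancel_left₀ _ hη0.ne', Int.floor_natCast]
  refine (lr_iff (by positivity) _ _).1 ⟨v 0, v 1, hv0, hv1, hlast.mono ?_⟩
  rintro w ⟨⟨t, ht0, ht1⟩, hw⟩
  refine ⟨?_, hw⟩
  change g (gpt η w) ≤ ℓ + δ
  have hwb : gpt η w ∈ GFPerc.box R := by
    have key : ∀ k : ℤ, 0 ≤ k → k ≤ n → 0 ≤ η * k ∧ η * k ≤ R := by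
      intro k hk1 hk2
      have hk1' : (0 : ℝ) ≤ k := by exact_mod_cast hk1
      have hk2' : (k : ℝ) ≤ n := by exact_mod_cast hk2
      exact ⟨by positivity, by rw [← hηn]; exact mul_le_mul_of_nonneg_left hk2' hη0.le⟩
    intro i
    fin_cases i
    · exact key w.1 hw.1.1 hw.1.2
    · exact key w.2 hw.2.1 hw.2.2
  have hdist : dist (γ t) (gpt η w) ≤ 3 * η := by
    rw [dist_eq_norm, EuclideanSpace.norm_eq]
    apply Real.sqrt_le_iff.2
    constructor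
    · positivity
    · rw [Fin.sum_univ_two]
      have f0 : (γ t - gpt η w) 0 = γ t 0 - η * w.1 := rfl
      have f1 : (γ t - gpt η w) 1 = γ t 1 - η * w.2 := rfl
      rw [f0, f1, Real.norm_eq_abs, Real.norm_eq_abs]
      have g0 := pow_le_pow_left₀ (abs_nonneg _) ht0 2
      have g1 := pow_le_pow_left₀ (abs_nonneg _) ht1 2
      nlinarith
  have h3 := huc (γ t) (hγ t).1 (gpt η w) hwb (lt_of_le_of_lt hdist hmesh)
  rw [Real.dist_eq] at h3
  have h4 := (abs_lt.1 h3).1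
  have h5 : g (γ t) ≤ ℓ := (hγ t).2
  linarith

end NU53
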