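import Pool.Agent.LibNU53.L2
import Pool.Agent.LibNU53.L3

/-! Row L4 (CROSSING PROBABILITIES). PLAN. `t = |ℓ|/2`, `δ = |ℓ|/4`. For almost every `ω` (continuous paths) of
the crossing event, `path_lat`: for all large even `n`, `ω ∈ A_n := {Tn n (…) < -t}` (`ℓ + δ < -t`). So the
crossing event is contained, up to a null set, in `⋃_k ⋂_{n ≥ k} A_{2n}`, an increasing union of sets of measure
`≤ b` (`mesh_bound`): measure `≤ b` (outer measure: `measure_iUnion_eq_iSup`/`measure_mono`). Constant `2C`.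
SHORT/MEDIUM. -/

open MeasureTheory ProbabilityTheory Filter Topology

namespace NU53

open GFPerc (E2 IsPlanarField crossEvent)

theorem cross_le {φ : ℝ → ℝ} {a : ℝ} (h : Prof φ a) : ∃ α0 : ℝ, 0 < α0 ∧ ∀ α : ℝ, 0 < α →
    α < α0 → ∃ C : ℝ, 0 < C ∧ ∀ {Ω : Type*} [MeasurableSpace Ω] (P : Measure Ω)
    (f : E2 → Ω → ℝ), IsPlanarField P f (Kfull φ α) → ∀ ℓ : ℝ, ℓ < 0 → ∀ R : ℝ, 0 < R →
    P (crossEvent f ℓ R) ≤ ENNReal.ofReal (C / (|ℓ| * R ^ (α / 2))) := by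
  obtain ⟨α0, hα0, hm⟩ := mesh_bound h
  refine ⟨α0, hα0, fun α hα hαα => ?_⟩
  obtain ⟨C, hC, hmesh⟩ := hm α hα hαα
  refine ⟨2 * C, by positivity, fun {Ω} _ P f hf ℓ hℓ R hR => ?_⟩
  obtain ⟨n0, hn0⟩ := hmesh P f hf R hR
  have hl : |ℓ| = -ℓ := abs_of_neg hℓ
  have ht : 0 < |ℓ| / 2 := by rw [hl]; linarith
  obtain ⟨A, hA⟩ : ∃ A : ℕ → Set Ω, A = fun k => {ω | ∀ n : ℕ, k ≤ n →
      Tn ((2 * n : ℕ) : ℤ) (fun v => f (gpt (R / ((2 * n : ℕ) : ℝ)) v) ω) < -(|ℓ| / 2)} := ⟨_, rfl⟩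
  have hmono : Monotone A := by
    intro k k' hk ω hω
    rw [hA] at hω ⊢
    exact fun n hn => hω n (hk.trans hn)
  have hsub : crossEvent f ℓ R ⊆ (⋃ k, A k) ∪ {ω | ¬ Continuous fun x => f x ω} := by
    intro ω hω
    by_cases hc : Continuous fun x => f x ω
    · left
      obtain ⟨n1, hn1⟩ := path_lat hc hR hω (δ := |ℓ| / 4) (by rw [hl]; linarith)
      rw [Set.mem_iUnion]
      refine ⟨n1 + 1, ?_⟩
      rw [hA]
      intro n hn
      have h1 := hn1 (2 * n) (by omega) (by omega)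
      refine lt_of_le_of_lt h1 ?_
      rw [hl]
      linarith
    · right
      exact hc
  have hbound : ∀ k, P (A k) ≤ ENNReal.ofReal (C / (|ℓ| / 2 * R ^ (α / 2))) := by
    intro k
    refine le_trans (measure_mono fun ω hω => ?_)
      (hn0 (2 * max k n0) (by omega) (even_two_mul _) (|ℓ| / 2) ht)
    rw [hA] at hω
    exact hω (max k n0) (le_max_left _ _)
  have hnull : P {ω | ¬ Continuous fun x => f x ω} = 0 := hf.continuous
  calc P (crossEvent f ℓ R) ≤ P ((⋃ k, A k) ∪ {ω | ¬ Continuous fun x => f x ω}) :=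
        measure_mono hsub
    _ ≤ P (⋃ k, A k) + P {ω | ¬ Continuous fun x => f x ω} := measure_union_le _ _
    _ = P (⋃ k, A k) := by rw [hnull, add_zero]
    _ = ⨆ k, P (A k) := hmono.measure_iUnion
    _ ≤ ENNReal.ofReal (C / (|ℓ| / 2 * R ^ (α / 2))) := iSup_le hbound
    _ = ENNReal.ofReal (2 * C / (|ℓ| * R ^ (α / 2))) := by
        congr 1
        have h1 : |ℓ| ≠ 0 := (by linarith : 0 < |ℓ|).ne'
        have h2 : R ^ (α / 2) ≠ 0 := (Real.rpow_pos_of_pos hR _).ne'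
        field_simp

end NU53
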