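import Pool.Agent.LibGFPerc.Main

/-! Row L5 (CORRELATION LENGTH). Abstract consequences of the bound for the crossing probabilities.
`xi_le`: `R = (2C/(ε|ℓ|))^(2/α)` gives `P ≤ ε/2 < ε`, so `ξ(ℓ) ≤ R = (2C/ε)^(2/α) |ℓ|^(-2/α)` (`xi` is an
infimum). `hasExp`: for small `|ℓ|`, `|ℓ|^(-2/α+δ) ≤ c' |ℓ|^(-2/α)` and `C' |ℓ|^(-2/α) ≤ |ℓ|^(-2/α-δ)`.
`scale_field`, `scale_cross`: division of the field by a positive constant. SHORT/MEDIUM. -/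

open MeasureTheory ProbabilityTheory Filter Topology

namespace NU53

open GFPerc (E2 IsPlanarField crossEvent xi)

theorem xi_le {Ω : Type*} [MeasurableSpace Ω] {P : Measure Ω} {f : E2 → Ω → ℝ} {α C : ℝ}
    (hα : 0 < α) (hC : 0 < C)
    (hb : ∀ ℓ : ℝ, ℓ < 0 → ∀ R : ℝ, 0 < R →
      P (crossEvent f ℓ R) ≤ ENNReal.ofReal (C / (|ℓ| * R ^ (α / 2)))) {ε : ℝ} (hε : 0 < ε) :
    ∃ C' : ℝ, 0 < C' ∧ ∀ ℓ : ℝ, ℓ < 0 →
      xi P f ε ℓ ≤ ENNReal.ofReal (C' * |ℓ| ^ (-(2 / α))) := by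
  refine ⟨(2 * C / ε) ^ (2 / α), by positivity, fun ℓ hℓ => ?_⟩
  have hl : 0 < |ℓ| := abs_pos.2 hℓ.ne
  have hR : 0 < (2 * C / ε) ^ (2 / α) * |ℓ| ^ (-(2 / α)) := by positivity
  refine sInf_le ⟨_, hR.le, rfl, ?_⟩
  refine (hb ℓ hℓ _ hR).trans_lt ?_
  rw [ENNReal.ofReal_lt_ofReal_iff hε]
  have h1 : ((2 * C / ε) ^ (2 / α) * |ℓ| ^ (-(2 / α))) ^ (α / 2) = 2 * C / ε * |ℓ|⁻¹ := by
    rw [Real.mul_rpow (by positivity) (by positivity), ← Real.rpow_mul (by positivity),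
      ← Real.rpow_mul hl.le]
    have e1 : 2 / α * (α / 2) = 1 := by field_simp
    have e2 : -(2 / α) * (α / 2) = -1 := by
      rw [neg_mul, e1]
    rw [e1, e2, Real.rpow_one, Real.rpow_neg_one]
  rw [h1]
  have h2 : C / (|ℓ| * (2 * C / ε * |ℓ|⁻¹)) = ε / 2 := by
    field_simp
  rw [h2]
  linarith

theorem hasExp {Ω : Type*} [MeasurableSpace Ω] {P : Measure Ω} {f : E2 → Ω → ℝ} {ν ε c' C' : ℝ}
    (hc : 0 < c') (hC : 0 < C')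
    (h1 : ∀ᶠ ℓ in 𝓝[<] (0 : ℝ), ENNReal.ofReal (c' * |ℓ| ^ (-ν)) ≤ xi P f ε ℓ)
    (h2 : ∀ᶠ ℓ in 𝓝[<] (0 : ℝ), xi P f ε ℓ ≤ ENNReal.ofReal (C' * |ℓ| ^ (-ν))) :
    ∀ δ : ℝ, 0 < δ → ∀ᶠ ℓ in 𝓝[<] (0 : ℝ),
      ENNReal.ofReal (|ℓ| ^ (-ν + δ)) ≤ xi P f ε ℓ ∧
        xi P f ε ℓ ≤ ENNReal.ofReal (|ℓ| ^ (-ν - δ)) := by
  intro δ hδ
  have hlim : Tendsto (fun ℓ : ℝ => |ℓ| ^ δ) (𝓝[<] 0) (𝓝 0) := by
    have h3 : Tendsto (fun ℓ : ℝ => |ℓ|) (𝓝[<] 0) (𝓝 0) := by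
      have h4 : Tendsto (fun ℓ : ℝ => |ℓ|) (𝓝 0) (𝓝 |(0 : ℝ)|) := continuous_abs.tendsto 0
      rw [abs_zero] at h4
      exact h4.mono_left nhdsWithin_le_nhds
    have h5 : Tendsto (fun x : ℝ => x ^ δ) (𝓝 0) (𝓝 (0 ^ δ)) :=
      (Real.continuousAt_rpow_const 0 δ (Or.inr hδ.le)).tendsto
    rw [Real.zero_rpow hδ.ne'] at h5
    exact h5.comp h3
  filter_upwards [h1, h2, hlim.eventually (gt_mem_nhds hc),
    hlim.eventually (gt_mem_nhds (inv_pos.2 hC)), self_mem_nhdsWithin] with ℓ a1 a2 a3 a4 a5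
  have hl : 0 < |ℓ| := abs_pos.2 (ne_of_lt a5)
  constructor
  · refine le_trans (ENNReal.ofReal_le_ofReal ?_) a1
    rw [Real.rpow_add hl, mul_comm]
    exact mul_le_mul_of_nonneg_right a3.le (by positivity)
  · refine a2.trans (ENNReal.ofReal_le_ofReal ?_)
    have e1 : |ℓ| ^ (-ν - δ) = (|ℓ| ^ δ)⁻¹ * |ℓ| ^ (-ν) := by
      rw [Real.rpow_sub hl, div_eq_mul_inv, mul_comm]
    rw [e1]
    refine mul_le_mul_of_nonneg_right ?_ (by positivity)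
    have hp : 0 < |ℓ| ^ δ := by positivity
    rw [← inv_inv C']
    exact inv_anti₀ hp a4.le

theorem scale_field {Ω : Type*} [MeasurableSpace Ω] {P : Measure Ω} {f : E2 → Ω → ℝ}
    {κ : ℝ → ℝ} {b : ℝ} (hb : 0 < b) (h : IsPlanarField P f (fun r => b * κ r)) :
    IsPlanarField P (fun x ω => f x ω / Real.sqrt b) κ := by
  have hs : 0 < Real.sqrt b := Real.sqrt_pos.2 hb
  refine ⟨?_, fun x => ?_, fun x y => ?_, ?_⟩
  · have h1 := h.gaussian.smul fun _ => (Real.sqrt b)⁻¹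
    have e1 : (fun (x : E2) (ω : Ω) => f x ω / Real.sqrt b) =
        fun x ω => (Real.sqrt b)⁻¹ • f x ω := by
      funext x ω
      rw [smul_eq_mul, div_eq_inv_mul]
    rw [e1]
    exact h1
  · rw [integral_div, h.centred x, zero_div]
  · have e1 : ∀ z : E2, (fun ω => f z ω / Real.sqrt b) = fun ω => (Real.sqrt b)⁻¹ * f z ω := by
      intro z
      funext ω
      rw [div_eq_inv_mul]
    rw [e1, e1, covariance_const_mul_left, covariance_const_mul_right, h.cov_eq]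
    have h2 : (Real.sqrt b)⁻¹ * ((Real.sqrt b)⁻¹ * (b * κ ‖x - y‖)) =
        b / (Real.sqrt b * Real.sqrt b) * κ ‖x - y‖ := by
      field_simp
    rw [h2, Real.mul_self_sqrt hb.le, div_self hb.ne', one_mul]
  · filter_upwards [h.continuous] with ω hω
    exact hω.div_const _

theorem scale_cross {Ω : Type*} (f : E2 → Ω → ℝ) {b : ℝ} (hb : 0 < b) (ℓ R : ℝ) :
    crossEvent (fun x ω => f x ω / b) (ℓ / b) R = crossEvent f ℓ R := by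
  ext ω
  have h1 : {x : E2 | x ∈ GFPerc.box R ∧ f x ω / b ≤ ℓ / b} =
      {x : E2 | x ∈ GFPerc.box R ∧ f x ω ≤ ℓ} := by
    ext x
    simp only [Set.mem_ofPred_eq]
    rw [div_le_div_iff_of_pos_right hb]
  show GFPerc.Cross (fun x => f x ω / b) (ℓ / b) R ↔ GFPerc.Cross (fun x => f x ω) ℓ R
  unfold GFPerc.Cross
  rw [h1]

end NU53
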