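import Mathlib

/-!
# Lattice percolation on the union-jack lattice (definitions)
`V = ℤ × ℤ`; orthogonal neighbours, and diagonal neighbours when the sum of the coordinates is even.
-/

namespace NU53

/-- Vertices. -/
abbrev V := ℤ × ℤ

/-- Union-jack adjacency. -/
def Adj (u v : V) : Prop :=
  (v.2 = u.2 ∧ (v.1 = u.1 + 1 ∨ u.1 = v.1 + 1)) ∨
  (v.1 = u.1 ∧ (v.2 = u.2 + 1 ∨ u.2 = v.2 + 1)) ∨
  (Even (u.1 + u.2) ∧ (v.1 = u.1 + 1 ∨ u.1 = v.1 + 1) ∧ (v.2 = u.2 + 1 ∨ u.2 = v.2 + 1))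

/-- The rectangle `[a,b] × [c,d]`. -/
def Box (a b c d : ℤ) : Set V := {v | (a ≤ v.1 ∧ v.1 ≤ b) ∧ (c ≤ v.2 ∧ v.2 ≤ d)}

/-- The square of centre `x` and half-side `N`. -/
def Sq (x : V) (N : ℤ) : Set V := Box (x.1 - N) (x.1 + N) (x.2 - N) (x.2 + N)

/-- `Conn S u v`: a lattice path from `u` to `v` inside `S`. -/
inductive Conn (S : Set V) (u : V) : V → Prop
  | refl : u ∈ S → Conn S u u
  | tail {v w : V} : Conn S u v → Adj v w → w ∈ S → Conn S u w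

/-- Left-right crossing of `[a,b] × [c,d]` inside `S`. -/
def LR (a b c d : ℤ) (S : Set V) : Prop :=
  ∃ u v : V, u.1 = a ∧ v.1 = b ∧ Conn (S ∩ Box a b c d) u v

/-- Bottom-top crossing of `[a,b] × [c,d]` inside `S`. -/
def TB (a b c d : ℤ) (S : Set V) : Prop :=
  ∃ u v : V, u.2 = c ∧ v.2 = d ∧ Conn (S ∩ Box a b c d) u v

/-- The four rectangles `6r × 2r` (`r = 2^e`) around `x` are crossed in their long direction. -/
def Circ (e : ℕ) (x : V) (S : Set V) : Prop :=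
  LR (x.1 - 3 * 2 ^ e) (x.1 + 3 * 2 ^ e) (x.2 + 2 ^ e) (x.2 + 3 * 2 ^ e) S ∧
  LR (x.1 - 3 * 2 ^ e) (x.1 + 3 * 2 ^ e) (x.2 - 3 * 2 ^ e) (x.2 - 2 ^ e) S ∧
  TB (x.1 - 3 * 2 ^ e) (x.1 - 2 ^ e) (x.2 - 3 * 2 ^ e) (x.2 + 3 * 2 ^ e) S ∧
  TB (x.1 + 2 ^ e) (x.1 + 3 * 2 ^ e) (x.2 - 3 * 2 ^ e) (x.2 + 3 * 2 ^ e) S

/-- `Hc r s t S`: in the square `[-r,r]²` the left side is connected to `{r} × [s,t]` in `S`. -/
def Hc (r s t : ℤ) (S : Set V) : Prop :=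
  ∃ u v : V, u.1 = -r ∧ v.1 = r ∧ s ≤ v.2 ∧ v.2 ≤ t ∧ Conn (S ∩ Box (-r) r (-r) r) u v

/-- `Xc r s z S`: in the square of centre `z` and half-side `r` one cluster of `S` touches the four
windows `z + {±r} × ±[s,r]`. -/
def Xc (r s : ℤ) (z : V) (S : Set V) : Prop :=
  ∃ u1 u2 u3 u4 : V,
    (u1.1 = z.1 - r ∧ z.2 + s ≤ u1.2) ∧ (u2.1 = z.1 - r ∧ u2.2 ≤ z.2 - s) ∧
    (u3.1 = z.1 + r ∧ z.2 + s ≤ u3.2) ∧ (u4.1 = z.1 + r ∧ u4.2 ≤ z.2 - s) ∧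
    Conn (S ∩ Sq z r) u1 u2 ∧ Conn (S ∩ Sq z r) u1 u3 ∧ Conn (S ∩ Sq z r) u1 u4

/-- Even vertices (the sum of the coordinates is even). -/
def Ev (w : V) : Prop := Even (w.1 + w.2)

/-- A property of sets of vertices is increasing. -/
def Inc (E : Set V → Prop) : Prop := ∀ S S' : Set V, S ⊆ S' → E S → E S'

/-- A property of sets of vertices depends on `S ∩ Λ` only. -/
def Loc (Λ : Set V) (E : Set V → Prop) : Prop :=
  ∀ S S' : Set V, S ∩ Λ = S' ∩ Λ → (E S → E S')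

end NU53
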