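import Pool.Agent.LibNU53.Lat

/-! # Basic lemmas on connections -/

namespace NU53

lemma Adj.symm {u v : V} (h : Adj u v) : Adj v u := by
  unfold Adj at *
  rcases h with ⟨h1, h2⟩ | ⟨h1, h2⟩ | ⟨h0, h1, h2⟩
  · left; exact ⟨h1.symm, h2.symm⟩
  · right; left; exact ⟨h1.symm, h2.symm⟩
  · right; right
    refine ⟨?_, h1.symm, h2.symm⟩
    rcases h0 with ⟨k, hk⟩
    rcases h1 with h1 | h1 <;> rcases h2 with h2 | h2
    · exact ⟨k + 1, by omega⟩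
    · exact ⟨k, by omega⟩
    · exact ⟨k, by omega⟩
    · exact ⟨k - 1, by omega⟩

lemma Conn.left_mem {S : Set V} {u v : V} (h : Conn S u v) : u ∈ S := by
  induction h with
  | refl h => exact h
  | tail _ _ _ ih => exact ih

lemma Conn.right_mem {S : Set V} {u v : V} (h : Conn S u v) : v ∈ S := by
  cases h with
  | refl h => exact h
  | tail _ _ h => exact h

lemma Conn.trans {S : Set V} {u v w : V} (h1 : Conn S u v) (h2 : Conn S v w) : Conn S u w := by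
  induction h2 with
  | refl _ => exact h1
  | tail _ ha hm ih => exact Conn.tail ih ha hm

lemma Conn.symm {S : Set V} {u v : V} (h : Conn S u v) : Conn S v u := by
  induction h with
  | refl h => exact Conn.refl h
  | tail hc ha hm ih =>
    exact Conn.trans (Conn.tail (Conn.refl hm) ha.symm hc.right_mem) ih

lemma Conn.mono {S S' : Set V} (hS : S ⊆ S') {u v : V} (h : Conn S u v) : Conn S' u v := by
  induction h with
  | refl h => exact Conn.refl (hS h)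
  | tail _ ha hm ih => exact Conn.tail ih ha (hS hm)

lemma LR.mono {a b c d : ℤ} {S S' : Set V} (hS : S ⊆ S') (h : LR a b c d S) : LR a b c d S' := by
  obtain ⟨u, v, h1, h2, h3⟩ := h
  exact ⟨u, v, h1, h2, h3.mono (Set.inter_subset_inter_left _ hS)⟩

lemma TB.mono {a b c d : ℤ} {S S' : Set V} (hS : S ⊆ S') (h : TB a b c d S) : TB a b c d S' := by
  obtain ⟨u, v, h1, h2, h3⟩ := h
  exact ⟨u, v, h1, h2, h3.mono (Set.inter_subset_inter_left _ hS)⟩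

lemma Circ.mono {e : ℕ} {x : V} {S S' : Set V} (hS : S ⊆ S') (h : Circ e x S) : Circ e x S' :=
  ⟨h.1.mono hS, h.2.1.mono hS, h.2.2.1.mono hS, h.2.2.2.mono hS⟩

lemma Hc.mono {r s t : ℤ} {S S' : Set V} (hS : S ⊆ S') (h : Hc r s t S) : Hc r s t S' := by
  obtain ⟨u, v, h1, h2, h3, h4, h5⟩ := h
  exact ⟨u, v, h1, h2, h3, h4, h5.mono (Set.inter_subset_inter_left _ hS)⟩

lemma Xc.mono {r s : ℤ} {z : V} {S S' : Set V} (hS : S ⊆ S') (h : Xc r s z S) : Xc r s z S' := by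
  obtain ⟨u1, u2, u3, u4, h1, h2, h3, h4, h5, h6, h7⟩ := h
  exact ⟨u1, u2, u3, u4, h1, h2, h3, h4, h5.mono (Set.inter_subset_inter_left _ hS),
    h6.mono (Set.inter_subset_inter_left _ hS), h7.mono (Set.inter_subset_inter_left _ hS)⟩

lemma LR.inc (a b c d : ℤ) : Inc (LR a b c d) := fun _ _ hS h => h.mono hS
lemma TB.inc (a b c d : ℤ) : Inc (TB a b c d) := fun _ _ hS h => h.mono hS
lemma Circ.inc (e : ℕ) (x : V) : Inc (Circ e x) := fun _ _ hS h => h.mono hS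
lemma Hc.inc (r s t : ℤ) : Inc (Hc r s t) := fun _ _ hS h => h.mono hS
lemma Xc.inc (r s : ℤ) (z : V) : Inc (Xc r s z) := fun _ _ hS h => h.mono hS

/-- A connection inside `S ∩ Λ'` only depends on `S ∩ Λ`, `Λ' ⊆ Λ`. -/
lemma inter_eq_of_loc {Λ Λ' S S' : Set V} (hΛ : Λ' ⊆ Λ) (h : S ∩ Λ = S' ∩ Λ) :
    S ∩ Λ' = S' ∩ Λ' := by
  ext v
  constructor
  · rintro ⟨h1, h2⟩
    have : v ∈ S' ∩ Λ := h ▸ ⟨h1, hΛ h2⟩
    exact ⟨this.1, h2⟩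
  · rintro ⟨h1, h2⟩
    have : v ∈ S ∩ Λ := h ▸ (⟨h1, hΛ h2⟩ : v ∈ S' ∩ Λ)
    exact ⟨this.1, h2⟩

lemma LR.loc {a b c d : ℤ} {Λ : Set V} (hΛ : Box a b c d ⊆ Λ) : Loc Λ (LR a b c d) := by
  rintro S S' h ⟨u, v, h1, h2, h3⟩
  exact ⟨u, v, h1, h2, (inter_eq_of_loc hΛ h) ▸ h3⟩

lemma TB.loc {a b c d : ℤ} {Λ : Set V} (hΛ : Box a b c d ⊆ Λ) : Loc Λ (TB a b c d) := by
  rintro S S' h ⟨u, v, h1, h2, h3⟩
  exact ⟨u, v, h1, h2, (inter_eq_of_loc hΛ h) ▸ h3⟩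

lemma Hc.loc {r s t : ℤ} {Λ : Set V} (hΛ : Box (-r) r (-r) r ⊆ Λ) : Loc Λ (Hc r s t) := by
  rintro S S' h ⟨u, v, h1, h2, h3, h4, h5⟩
  exact ⟨u, v, h1, h2, h3, h4, (inter_eq_of_loc hΛ h) ▸ h5⟩

lemma Xc.loc {r s : ℤ} {z : V} {Λ : Set V} (hΛ : Sq z r ⊆ Λ) : Loc Λ (Xc r s z) := by
  rintro S S' h ⟨u1, u2, u3, u4, h1, h2, h3, h4, h5, h6, h7⟩
  have e := inter_eq_of_loc hΛ h
  exact ⟨u1, u2, u3, u4, h1, h2, h3, h4, e ▸ h5, e ▸ h6, e ▸ h7⟩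

lemma Box_subset {a b c d a' b' c' d' : ℤ} (h1 : a' ≤ a) (h2 : b ≤ b') (h3 : c' ≤ c)
    (h4 : d ≤ d') : Box a b c d ⊆ Box a' b' c' d' := by
  rintro v ⟨⟨x1, x2⟩, x3, x4⟩
  exact ⟨⟨by omega, by omega⟩, by omega, by omega⟩

lemma Circ.loc {e : ℕ} {x : V} {Λ : Set V} (hΛ : Sq x (3 * 2 ^ e) ⊆ Λ) : Loc Λ (Circ e x) := by
  have h0 : (0 : ℤ) < 2 ^ e := by positivity
  rintro S S' h ⟨h1, h2, h3, h4⟩
  refine ⟨LR.loc (fun v hv => hΛ ?_) S S' h h1, LR.loc (fun v hv => hΛ ?_) S S' h h2,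
    TB.loc (fun v hv => hΛ ?_) S S' h h3, TB.loc (fun v hv => hΛ ?_) S S' h h4⟩ <;>
  · obtain ⟨⟨x1, x2⟩, x3, x4⟩ := hv
    refine ⟨⟨?_, ?_⟩, ?_, ?_⟩ <;> omega

lemma Box_finite (a b c d : ℤ) : (Box a b c d).Finite := by
  have : Box a b c d ⊆ (Set.Icc a b) ×ˢ (Set.Icc c d) := by
    rintro v ⟨h1, h2⟩
    exact ⟨h1, h2⟩
  exact ((Set.finite_Icc a b).prod (Set.finite_Icc c d)).subset this

lemma Sq_finite (x : V) (N : ℤ) : (Sq x N).Finite := Box_finite _ _ _ _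

lemma Loc.mono {Λ Λ' : Set V} {E : Set V → Prop} (h : Loc Λ E) (hΛ : Λ ⊆ Λ') : Loc Λ' E :=
  fun S S' he => h S S' (inter_eq_of_loc hΛ he)

lemma Loc.iff {Λ : Set V} {E : Set V → Prop} (h : Loc Λ E) {S S' : Set V}
    (he : S ∩ Λ = S' ∩ Λ) : E S ↔ E S' := ⟨h S S' he, h S' S he.symm⟩

end NU53
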