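import Pool.Agent.LibNU53.L4
import Pool.Agent.LibNU53.L5

/-! # Assembly -/

open MeasureTheory ProbabilityTheory Filter Topology

namespace NU53

open GFPerc (E2 IsPlanarField crossEvent xi)

/-- Crossing probabilities and correlation length for the fields with covariance `b Kfull φ α`. -/
theorem nu_main {φ : ℝ → ℝ} {a : ℝ} (h : Prof φ a) : ∃ α0 : ℝ, 0 < α0 ∧ ∀ α : ℝ, 0 < α → α < α0 →
    (∃ c : ℝ, 0 < c ∧ Tendsto (fun r => Kfull φ α r * r ^ α) atTop (𝓝 c)) ∧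
    ∀ b : ℝ, 0 < b → ∀ {Ω : Type*} [MeasurableSpace Ω] (P : Measure Ω) (f : E2 → Ω → ℝ),
      IsPlanarField P f (fun r => b * Kfull φ α r) →
      (∃ C : ℝ, 0 < C ∧ ∀ ℓ : ℝ, ℓ < 0 → ∀ R : ℝ, 0 < R →
        P (crossEvent f ℓ R) ≤ ENNReal.ofReal (C / (|ℓ| * R ^ (α / 2)))) ∧
      ∀ ε : ℝ, 0 < ε → ε < 1 / 2 →
        (∃ c' C' : ℝ, 0 < c' ∧ 0 < C' ∧ ∀ᶠ ℓ in 𝓝[<] (0 : ℝ),
          ENNReal.ofReal (c' * |ℓ| ^ (-(2 / α))) ≤ xi P f ε ℓ ∧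
          xi P f ε ℓ ≤ ENNReal.ofReal (C' * |ℓ| ^ (-(2 / α)))) ∧
        ∀ δ : ℝ, 0 < δ → ∀ᶠ ℓ in 𝓝[<] (0 : ℝ),
          ENNReal.ofReal (|ℓ| ^ (-(2 / α) + δ)) ≤ xi P f ε ℓ ∧
            xi P f ε ℓ ≤ ENNReal.ofReal (|ℓ| ^ (-(2 / α) - δ)) := by
  obtain ⟨α1, hα1, h1⟩ := cross_le h
  refine ⟨min α1 2, lt_min hα1 two_pos, fun α hα hα0 => ?_⟩
  obtain ⟨c, hc, hK⟩ := kfull_asymp h hα
  refine ⟨⟨c, hc, hK⟩, ?_⟩
  intro b hb Ω _ P f hf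
  have hlt1 : α < α1 := hα0.trans_le (min_le_left _ _)
  have hlt2 : α < 2 := hα0.trans_le (min_le_right _ _)
  obtain ⟨C, hC, hC1⟩ := h1 α hα hlt1
  have hsb : 0 < Real.sqrt b := Real.sqrt_pos.2 hb
  have hP : IsProbabilityMeasure P := hf.gaussian.isProbabilityMeasure
  have hcr : ∀ ℓ : ℝ, ℓ < 0 → ∀ R : ℝ, 0 < R →
      P (crossEvent f ℓ R) ≤ ENNReal.ofReal ((C * Real.sqrt b) / (|ℓ| * R ^ (α / 2))) := by
    intro ℓ hℓ R hR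
    have h2 := hC1 P _ (scale_field hb hf) (ℓ / Real.sqrt b) (div_neg_of_neg_of_pos hℓ hsb) R hR
    rw [scale_cross f hsb] at h2
    refine h2.trans (le_of_eq ?_)
    congr 1
    rw [abs_div, abs_of_pos hsb]
    have : 0 < |ℓ| := abs_pos.2 hℓ.ne
    have h3 : 0 < R ^ (α / 2) := by positivity
    field_simp
  refine ⟨⟨C * Real.sqrt b, by positivity, hcr⟩, ?_⟩
  intro ε hε hε2
  obtain ⟨C', hC', hup⟩ := xi_le hα (by positivity : 0 < C * Real.sqrt b) hcr hε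
  have hK' : Tendsto (fun r => (b * Kfull φ α r) * r ^ α) atTop (𝓝 (b * c)) := by
    have := hK.const_mul b
    refine this.congr fun r => by ring
  obtain ⟨C2, hC2, hcb⟩ := GFPerc.crossing_bound hf hα hlt2 (by positivity : 0 < b * c) hK'
  obtain ⟨c', hc', hlow⟩ := GFPerc.xi_bound hα hC2 hcb hε hε2
  have hup' : ∀ᶠ ℓ in 𝓝[<] (0 : ℝ), xi P f ε ℓ ≤ ENNReal.ofReal (C' * |ℓ| ^ (-(2 / α))) := by
    filter_upwards [eventually_mem_nhdsWithin] with ℓ hℓ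
    exact hup ℓ hℓ
  exact ⟨⟨c', C', hc', hC', hlow.and hup'⟩, hasExp hc' hC' hlow hup'⟩

end NU53
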