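import Pool.Agent.LibNU53.Lat0

/-!
# The finite Gaussian model
Finitely many independent standard Gaussians, grouped in blocks; every block has a level and a
position; the field at a vertex is a nonnegative combination of the Gaussians of the nearby blocks.
-/

open MeasureTheory ProbabilityTheory

namespace NU53

/-- Data of a finite model. -/
structure Mdl where
  /-- blocks -/
  B : Type
  /-- finiteness -/
  fB : Fintype B
  /-- decidable equality -/
  dB : DecidableEq B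
  /-- number of Gaussians in a block -/
  M : ℕ
  /-- level of a block -/
  lev : B → ℕ
  /-- position of a block -/
  pos : B → V
  /-- coefficients -/
  a : B → Fin M → V → ℝ

attribute [instance] Mdl.fB Mdl.dB

/-- Amplitude of the level `j`. -/
noncomputable def sg (α : ℝ) (j : ℕ) : ℝ := (2 : ℝ) ^ (-(α * j / 2))

/-- The noise space. -/
abbrev Mdl.Om (m : Mdl) : Type := m.B → (Fin m.M → ℝ)

/-- The law of the noise of one block. -/
noncomputable def gam (M : ℕ) : Measure (Fin M → ℝ) := Measure.pi fun _ => gaussianReal 0 1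

instance (M : ℕ) : IsProbabilityMeasure (gam M) := by unfold gam; infer_instance

/-- The law of the noise. -/
noncomputable def Mdl.mu (m : Mdl) : Measure m.Om := Measure.pi fun _ => gam m.M

instance (m : Mdl) : IsProbabilityMeasure m.mu := by unfold Mdl.mu; infer_instance

/-- The part of the field due to the blocks of `A`. -/
noncomputable def Mdl.fl (m : Mdl) (A : Finset m.B) (ω : m.Om) (v : V) : ℝ :=
  ∑ b ∈ A, ∑ i, m.a b i v * ω b i

/-- Blocks of level `≤ k`. -/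
def Mdl.le (m : Mdl) (k : ℕ) : Finset m.B := Finset.univ.filter fun b => m.lev b ≤ k

/-- Blocks of level `j`. -/
def Mdl.eq (m : Mdl) (j : ℕ) : Finset m.B := Finset.univ.filter fun b => m.lev b = j

/-- The field of the levels `≤ k`. -/
noncomputable def Mdl.F (m : Mdl) (k : ℕ) (ω : m.Om) (v : V) : ℝ := m.fl (m.le k) ω v

/-- The field of the level `j`. -/
noncomputable def Mdl.f (m : Mdl) (j : ℕ) (ω : m.Om) (v : V) : ℝ := m.fl (m.eq j) ω v

/-- The set of vertices where the field of the levels `≤ k` is larger than `t`. -/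
def Mdl.Sk (m : Mdl) (k : ℕ) (t : ℝ) (ω : m.Om) : Set V := {v | t < m.F k ω v}

/-- Probability that the set where the field of the levels `≤ k` is larger than `t` has the
property `E`. -/
noncomputable def Mdl.Pr (m : Mdl) (k : ℕ) (t : ℝ) (E : Set V → Prop) : ℝ :=
  m.mu.real {ω | E (m.Sk k t ω)}

open Classical in
/-- The blocks whose Gaussians may influence the field at `v`. -/
noncomputable def Mdl.near (m : Mdl) (q : ℕ) (v : V) : Finset m.B :=
  Finset.univ.filter fun b => v ∈ Sq (m.pos b) (2 ^ (q + m.lev b + 1))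

/-- Replace the blocks of `G` of `ω` by those of `ω'`. -/
def mg {B E : Type*} [DecidableEq B] (G : Finset B) (ω ω' : B → E) : B → E :=
  fun b => if b ∈ G then ω' b else ω b

/-- The hypotheses on the model; `q`: the level `j` has range `2^(q+j)`; `J`: top level;
`D`: half-side of the region where the covariance is stationary; `κ j`: covariance of the
level `j`. -/
structure IsMdl (C c α : ℝ) (q J : ℕ) (D : ℤ) (κ : ℕ → V → ℝ) (m : Mdl) : Prop where
  hq : 1 ≤ q
  hα : 0 ≤ α ∧ α ≤ 1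
  hc : 0 < c ∧ c ≤ 1
  hC : 1 ≤ C
  lev_le : ∀ b, m.lev b ≤ J
  pos_even : ∀ b, Ev (m.pos b)
  nonneg : ∀ b i v, 0 ≤ m.a b i v
  loc : ∀ b i v, m.a b i v ≠ 0 → v ∈ Sq (m.pos b) (2 ^ (q + m.lev b + 1))
  cov : ∀ j, j ≤ J → ∀ u ∈ Sq 0 D, ∀ v ∈ Sq 0 D,
    ∑ b ∈ m.eq j, ∑ i, m.a b i u * m.a b i v = κ j (u - v)
  flip : ∀ j, ∀ x y : ℤ, κ j (-x, y) = κ j (x, y)
  swap : ∀ j, ∀ x y : ℤ, κ j (y, x) = κ j (x, y)
  var_le : ∀ j, j ≤ J → κ j 0 ≤ C * sg α j ^ 2
  cov_ge : ∀ j, j ≤ J → ∀ w : V, |(w.1 : ℝ)| ≤ c * 2 ^ (q + j) → |(w.2 : ℝ)| ≤ c * 2 ^ (q + j) →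
    c * sg α j ^ 2 ≤ κ j w
  d1 : ∀ j, j ≤ J → 2 * (κ j 0 - κ j (1, 0)) ≤ C * sg α j ^ 2 / 4 ^ (q + j)
  d12 : ∀ j, j ≤ J → ∀ v : V,
    ∑ b ∈ m.eq j, ∑ i, (m.a b i (v + (1, 1)) - m.a b i (v + (1, 0)) - m.a b i (v + (0, 1)) +
      m.a b i v) ^ 2 ≤ C * sg α j ^ 2 / 16 ^ (q + j)
  ovl : ∀ j, j ≤ J → ∀ v : V,
    ((m.eq j ∩ m.near q v).card : ℝ) ≤ C
  nd : ∀ u ∈ Sq 0 D, ∀ v ∈ Sq 0 D, u ≠ v → ∃ b ∈ m.eq 0, ∃ i, m.a b i u ≠ m.a b i v

end NU53
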