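import Pool.Agent.LibNU53.R5
import Pool.Agent.LibNU53.Expl

/-! Row O1 (OSSS, L¹ form). Product space `B → E`, law `μ = Measure.pi ν`; question `v` has a yes/no answer
`ans v ω` which depends only on the coordinates in `N v`; `T` a tree of questions; revealed coordinates
`Rv = {b | ∃ asked v, b ∈ N v}`; `f` is determined by the revealed coordinates. Then
`E|f(ω) - f(ω')| ≤ ∑_b P(b revealed) E|f(ω) - f(ω with b resampled)|`.
PROOF (induction on the tree; generalize). For a tree `T`, a finite set `S` of already revealed coordinates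
and `ω0` (values on `S`), run `T` with answers computed from `mg S ω ω0`; let
`R(ω)` = newly revealed coordinates (outside `S`) and `Z(ω,ω')` = `ω` on `R(ω)`, `ω'` elsewhere.
(L) for every `S`, `ω0`, `T`: under `μ ⊗ μ`, `Z(ω,ω')` has law `μ` (induction).
(I) for every bounded measurable `g`: `∫∫ |g(Z(ω,ω')) - g(ω')| ≤ ∑_{b ∉ S} P(b ∈ R) I_b(g)`,
`I_b(g) = ∫∫ |g(ω) - g(mg {b} ω ω')|`. Leaf: `Z = ω'`. Node `v` with subtrees `T₁, T₂`: new coordinates
`N = N v \ S`; given `ω` on `N` the subtree `T_i` runs with `S ∪ N`. Then `Z_T` and `Z_{T_i}` (for `S ∪ N`) differ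
only on `N` (`ω` versus `ω'`); change the coordinates of `N` one at a time: each step costs exactly
`I_b(g)`, because conditionally on `(ω, ω')` on `N` the rest of the configuration has law `μ` off `N` (by
(L)), so the pair (before, after) has the law of `(ω, mg {b} ω ω')`. Add the induction hypothesis.
At the end take `S = ∅`, `g = f`: `f(Z) = f(ω)` by `hdet` since `Z = ω` on the revealed set.
(Any other rigorous proof is fine; finite trees, everything measurable.) STRONG. -/

open MeasureTheory ProbabilityTheory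

namespace NU53

/-- revealed coordinates -/
def Rev {B E : Type*} (N : V → Finset B) (ans : V → (B → E) → Prop) (T : QT) (ω : B → E) : Set B :=
  {b | ∃ v ∈ T.asked {v | ans v ω}, b ∈ N v}

theorem o1_rev_leaf {B E : Type*} (N : V → Finset B) (ans : V → (B → E) → Prop) (ω : B → E)
    (b : B) : ¬ b ∈ Rev N ans QT.leaf ω := by
  rintro ⟨v, hv, -⟩
  exact hv

theorem o1_rev_node {B E : Type*} (N : V → Finset B) (ans : V → (B → E) → Prop) (v : V)
    (l r : QT) (ω : B → E) (b : B) : b ∈ Rev N ans (QT.node v l r) ω ↔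
      b ∈ N v ∨ ((ans v ω ∧ b ∈ Rev N ans l ω) ∨ (¬ ans v ω ∧ b ∈ Rev N ans r ω)) := by
  classical
  unfold Rev
  by_cases h : ans v ω
  · have h1 : (QT.node v l r).asked {v | ans v ω} = insert v (QT.asked l {v | ans v ω}) :=
      congrArg (insert v) (if_pos h)
    simp only [Set.mem_ofPred_eq, h1, Set.mem_insert_iff, exists_eq_or_imp]
    simp only [h, true_and, not_true_eq_false, false_and, or_false]
  · have h1 : (QT.node v l r).asked {v | ans v ω} = insert v (QT.asked r {v | ans v ω}) :=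
      congrArg (insert v) (if_neg h)
    simp only [Set.mem_ofPred_eq, h1, Set.mem_insert_iff, exists_eq_or_imp]
    simp only [h, false_and, not_false_eq_true, true_and, false_or]

theorem o1_rev_meas {B E : Type*} [Fintype B] [MeasurableSpace E] (N : V → Finset B)
    (ans : V → (B → E) → Prop) (hm : ∀ v, MeasurableSet {ω | ans v ω}) (T : QT) (b : B) :
    MeasurableSet {ω : B → E | b ∈ Rev N ans T ω} := by
  induction T with
  | leaf =>
    have h1 : {ω : B → E | b ∈ Rev N ans QT.leaf ω} = ∅ :=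
      Set.eq_empty_of_forall_notMem fun ω hω => o1_rev_leaf N ans ω b hω
    rw [h1]
    exact MeasurableSet.empty
  | node v l r hl hr =>
    have h1 : {ω : B → E | b ∈ Rev N ans (QT.node v l r) ω} =
        {_ω | b ∈ N v} ∪ (({ω | ans v ω} ∩ {ω | b ∈ Rev N ans l ω}) ∪
          ({ω | ans v ω}ᶜ ∩ {ω | b ∈ Rev N ans r ω})) := by
      ext ω
      exact o1_rev_node N ans v l r ω b
    rw [h1]
    exact (MeasurableSet.const _).union (((hm v).inter hl).union ((hm v).compl.inter hr))

section

variable {B E : Type*} [Fintype B] [DecidableEq B] [MeasurableSpace E] (ν : Measure E)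
  [IsProbabilityMeasure ν]

omit [Fintype B] in
theorem o1_mg_meas (G : Finset B) :
    Measurable fun p : (B → E) × (B → E) => mg G p.1 p.2 := by
  refine measurable_pi_iff.2 fun b => ?_
  by_cases h : b ∈ G
  · have h1 : (fun p : (B → E) × (B → E) => mg G p.1 p.2 b) = fun p => p.2 b :=
      funext fun p => if_pos h
    rw [h1]
    exact (measurable_pi_apply b).comp measurable_snd
  · have h1 : (fun p : (B → E) × (B → E) => mg G p.1 p.2 b) = fun p => p.1 b :=
      funext fun p => if_neg h
    rw [h1]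
    exact (measurable_pi_apply b).comp measurable_fst

/-- the swap of the coordinates in `G` -/
theorem o1_swap (G : Finset B) :
    MeasurePreserving (fun p : (B → E) × (B → E) => (mg G p.1 p.2, mg G p.2 p.1))
      ((Measure.pi fun _ : B => ν).prod (Measure.pi fun _ : B => ν))
      ((Measure.pi fun _ : B => ν).prod (Measure.pi fun _ : B => ν)) := by
  have h1 := measurePreserving_arrowProdEquivProdArrow E E B (fun _ => ν) (fun _ => ν)
  have h2 : MeasurePreserving (fun (a : B → E × E) b => if b ∈ G then (a b).swap else a b)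
      (Measure.pi fun _ : B => ν.prod ν) (Measure.pi fun _ : B => ν.prod ν) := by
    refine measurePreserving_pi (fun _ : B => ν.prod ν) (fun _ : B => ν.prod ν)
      (f := fun b (x : E × E) => if b ∈ G then x.swap else x) fun b => ?_
    by_cases h : b ∈ G
    · have h3 : (fun x : E × E => if b ∈ G then x.swap else x) = Prod.swap :=
        funext fun x => if_pos h
      rw [h3]
      exact Measure.measurePreserving_swap
    · have h3 : (fun x : E × E => if b ∈ G then x.swap else x) = id :=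
        funext fun x => if_neg h
      rw [h3]
      exact MeasurePreserving.id _
  have h4 := (h1.comp h2).comp (h1.symm _)
  have h5 : (fun p : (B → E) × (B → E) => (mg G p.1 p.2, mg G p.2 p.1)) =
      (⇑(MeasurableEquiv.arrowProdEquivProdArrow E E B) ∘
        fun (a : B → E × E) b => if b ∈ G then (a b).swap else a b) ∘
          ⇑(MeasurableEquiv.arrowProdEquivProdArrow E E B).symm := by
    funext p
    refine Prod.ext (funext fun b => ?_) (funext fun b => ?_)
    · change (if b ∈ G then p.2 b else p.1 b) =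
        (if b ∈ G then ((p.1 b, p.2 b) : E × E).swap else (p.1 b, p.2 b)).1
      split_ifs <;> rfl
    · change (if b ∈ G then p.1 b else p.2 b) =
        (if b ∈ G then ((p.1 b, p.2 b) : E × E).swap else (p.1 b, p.2 b)).2
      split_ifs <;> rfl
  rw [h5]
  exact h4

theorem o1_mg_mp (G : Finset B) :
    MeasurePreserving (fun p : (B → E) × (B → E) => mg G p.1 p.2)
      ((Measure.pi fun _ : B => ν).prod (Measure.pi fun _ : B => ν))
      (Measure.pi fun _ : B => ν) :=
  measurePreserving_fst.comp (o1_swap ν G)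

/-- integration in two steps: first the coordinates off `G`, then those of `G` -/
theorem o1_split (G : Finset B) {F : (B → E) → ENNReal} (hF : Measurable F) :
    ∫⁻ ω, F ω ∂(Measure.pi fun _ : B => ν) =
      ∫⁻ a, ∫⁻ ζ, F (mg G ζ a) ∂(Measure.pi fun _ : B => ν) ∂(Measure.pi fun _ : B => ν) := by
  rw [← (o1_mg_mp ν G).lintegral_comp hF]
  exact lintegral_prod_symm (fun p : (B → E) × (B → E) => F (mg G p.1 p.2))
    (hF.comp (o1_mg_meas G)).aemeasurable

/-- the influence -/
noncomputable def o1_I (g : (B → E) → ℝ) (b : B) : ENNReal :=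
  ∫⁻ a, ∫⁻ η, edist (g (mg {b} η a)) (g η) ∂(Measure.pi fun _ : B => ν)
    ∂(Measure.pi fun _ : B => ν)

omit [Fintype B] [MeasurableSpace E] in
theorem o1_mg_insert (G : Finset B) (b : B) (hb : b ∉ G) (η a : B → E) :
    mg (insert b G) η a = mg {b} (mg G η a) (mg G a η) := by
  funext x
  unfold mg
  by_cases hx : x = b
  · subst hx
    simp [hb]
  · simp [hx]

/-- the hybrid argument -/
theorem o1_hyb (g : (B → E) → ℝ) (hg : Measurable g) (G : Finset B) :
    ∫⁻ a, ∫⁻ η, edist (g (mg G η a)) (g η) ∂(Measure.pi fun _ : B => ν)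
      ∂(Measure.pi fun _ : B => ν) ≤ ∑ b ∈ G, o1_I ν g b := by
  have hd : ∀ G : Finset B, Measurable fun p : (B → E) × (B → E) =>
      edist (g (mg G p.1 p.2)) (g p.1) := fun G =>
    (hg.comp (o1_mg_meas G)).edist (hg.comp measurable_fst)
  have h0 : ∀ G : Finset B, ∫⁻ a, ∫⁻ η, edist (g (mg G η a)) (g η)
      ∂(Measure.pi fun _ : B => ν) ∂(Measure.pi fun _ : B => ν) =
      ∫⁻ p : (B → E) × (B → E), edist (g (mg G p.1 p.2)) (g p.1)
        ∂((Measure.pi fun _ : B => ν).prod (Measure.pi fun _ : B => ν)) := fun G =>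
    (lintegral_prod_symm _ (hd G).aemeasurable).symm
  have hI : ∀ b, o1_I ν g b = _ := fun b => h0 {b}
  rw [h0]
  induction G using Finset.induction_on with
  | empty =>
    have h1 : ∀ p : (B → E) × (B → E), edist (g (mg ∅ p.1 p.2)) (g p.1) = 0 := by
      intro p
      have h2 : mg ∅ p.1 p.2 = p.1 := funext fun b => if_neg (Finset.notMem_empty b)
      rw [h2, edist_self]
    simp only [h1, lintegral_zero, Finset.sum_empty, le_refl]
  | insert b G hb ih =>
    rw [Finset.sum_insert hb]
    have hA : Measurable fun p : (B → E) × (B → E) =>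
        edist (g (mg {b} (mg G p.1 p.2) (mg G p.2 p.1))) (g (mg G p.1 p.2)) :=
      (hd {b}).comp (o1_swap ν G).measurable
    have hB : ∫⁻ p : (B → E) × (B → E),
        edist (g (mg {b} (mg G p.1 p.2) (mg G p.2 p.1))) (g (mg G p.1 p.2))
          ∂((Measure.pi fun _ : B => ν).prod (Measure.pi fun _ : B => ν)) = o1_I ν g b :=
      ((o1_swap ν G).lintegral_comp (hd {b})).trans (hI b).symm
    refine le_trans ?_ (add_le_add hB.le ih)
    rw [← lintegral_add_left hA]
    refine lintegral_mono fun p => ?_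
    change edist (g (mg (insert b G) p.1 p.2)) (g p.1) ≤ _
    rw [o1_mg_insert G b hb]
    exact edist_triangle _ _ _

variable (N : V → Finset B) (ans : V → (B → E) → Prop)

/-- newly revealed coordinates -/
def o1_R (T : QT) (S : Finset B) (ω0 ω : B → E) (b : B) : Prop :=
  b ∉ S ∧ b ∈ Rev N ans T (mg S ω ω0)

open scoped Classical in
/-- the hybrid configuration -/
noncomputable def o1_Z (T : QT) (S : Finset B) (ω0 ω ω' : B → E) : B → E :=
  fun b => if o1_R N ans T S ω0 ω b then ω b else ω' b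

variable {N ans}

omit [Fintype B] [MeasurableSpace E] in
theorem o1_R_node
    (hN : ∀ v, ∀ ω ω' : B → E, (∀ b ∈ N v, ω b = ω' b) → (ans v ω ↔ ans v ω')) (v : V)
    (l r : QT) (S : Finset B) (ω0 a ζ : B → E) (b : B) :
    o1_R N ans (QT.node v l r) S ω0 (mg (N v \ S) ζ a) b ↔
      b ∈ N v \ S ∨ (ans v (mg S a ω0) ∧ o1_R N ans l (S ∪ N v) (mg S a ω0) ζ b) ∨
        (¬ ans v (mg S a ω0) ∧ o1_R N ans r (S ∪ N v) (mg S a ω0) ζ b) := by
  have h1 : mg S (mg (N v \ S) ζ a) ω0 = mg (S ∪ N v) ζ (mg S a ω0) := by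
    funext x
    unfold mg
    by_cases h2 : x ∈ S
    · simp [h2]
    · by_cases h3 : x ∈ N v
      · simp [h2, h3]
      · simp [h2, h3]
  have h2 : ans v (mg (S ∪ N v) ζ (mg S a ω0)) ↔ ans v (mg S a ω0) := by
    refine hN v _ _ fun x hx => ?_
    exact if_pos (Finset.mem_union_right _ hx)
  unfold o1_R
  rw [h1, o1_rev_node, h2, Finset.mem_sdiff, Finset.mem_union]
  tauto

omit [Fintype B] [MeasurableSpace E] in
theorem o1_Z_node
    (hN : ∀ v, ∀ ω ω' : B → E, (∀ b ∈ N v, ω b = ω' b) → (ans v ω ↔ ans v ω')) (v : V)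
    (l r : QT) (S : Finset B) (ω0 a ζ ω' : B → E) (t : QT)
    (ht : (ans v (mg S a ω0) ∧ t = l) ∨ (¬ ans v (mg S a ω0) ∧ t = r)) :
    o1_Z N ans (QT.node v l r) S ω0 (mg (N v \ S) ζ a) ω' =
      mg (N v \ S) (o1_Z N ans t (S ∪ N v) (mg S a ω0) ζ ω') a := by
  classical
  funext b
  have h0 : o1_R N ans (QT.node v l r) S ω0 (mg (N v \ S) ζ a) b ↔
      b ∈ N v \ S ∨ o1_R N ans t (S ∪ N v) (mg S a ω0) ζ b := by
    rw [o1_R_node hN]
    rcases ht with ⟨h, rfl⟩ | ⟨h, rfl⟩
    · simp only [h, true_and, not_true_eq_false, false_and, or_false]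
    · simp only [h, false_and, not_false_eq_true, true_and, false_or]
  unfold o1_Z
  by_cases h1 : b ∈ N v \ S
  · rw [if_pos (h0.2 (Or.inl h1))]
    exact (if_pos h1).trans (if_pos h1).symm
  · have h2 : mg (N v \ S) (fun b => if o1_R N ans t (S ∪ N v) (mg S a ω0) ζ b then ζ b
        else ω' b) a b = if o1_R N ans t (S ∪ N v) (mg S a ω0) ζ b then ζ b else ω' b :=
      if_neg h1
    rw [h2]
    by_cases h3 : o1_R N ans t (S ∪ N v) (mg S a ω0) ζ b
    · rw [if_pos (h0.2 (Or.inr h3)), if_pos h3]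
      exact if_neg h1
    · rw [if_neg (fun h => (h0.1 h).elim h1 h3), if_neg h3]

theorem o1_R_meas (hm : ∀ v, MeasurableSet {ω | ans v ω}) (T : QT) (S : Finset B) (ω0 : B → E)
    (b : B) : MeasurableSet {ω : B → E | o1_R N ans T S ω0 ω b} := by
  have h1 : Measurable fun ω : B → E => mg S ω ω0 :=
    (o1_mg_meas S).comp (measurable_id.prodMk measurable_const)
  exact (MeasurableSet.const (b ∉ S)).inter (h1 (o1_rev_meas N ans hm T b))

theorem o1_Z_meas (hm : ∀ v, MeasurableSet {ω | ans v ω}) (T : QT) (S : Finset B)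
    (ω0 : B → E) : Measurable fun p : (B → E) × (B → E) => o1_Z N ans T S ω0 p.1 p.2 := by
  classical
  refine measurable_pi_iff.2 fun b => ?_
  exact Measurable.ite (measurable_fst (o1_R_meas hm T S ω0 b))
    ((measurable_pi_apply b).comp measurable_fst) ((measurable_pi_apply b).comp measurable_snd)

theorem o1_Z_meas' (hm : ∀ v, MeasurableSet {ω | ans v ω}) (T : QT) (S : Finset B)
    (ω0 ζ : B → E) : Measurable fun ω' : B → E => o1_Z N ans T S ω0 ζ ω' :=
  (o1_Z_meas hm T S ω0).comp (measurable_prodMk_left (x := ζ))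

omit [Fintype B] [MeasurableSpace E] in
theorem o1_Z_leaf (S : Finset B) (ω0 ω ω' : B → E) :
    o1_Z N ans QT.leaf S ω0 ω ω' = ω' := by
  classical
  funext b
  exact if_neg fun h => o1_rev_leaf N ans _ b h.2

/-- **(L)** the law of the hybrid -/
theorem o1_law
    (hN : ∀ v, ∀ ω ω' : B → E, (∀ b ∈ N v, ω b = ω' b) → (ans v ω ↔ ans v ω'))
    (hm : ∀ v, MeasurableSet {ω | ans v ω}) (T : QT) (S : Finset B) (ω0 : B → E)
    {h : (B → E) → ENNReal} (hh : Measurable h) :
    ∫⁻ ω, ∫⁻ ω', h (o1_Z N ans T S ω0 ω ω') ∂(Measure.pi fun _ : B => ν)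
      ∂(Measure.pi fun _ : B => ν) = ∫⁻ ω, h ω ∂(Measure.pi fun _ : B => ν) := by
  induction T generalizing S ω0 h with
  | leaf =>
    simp only [o1_Z_leaf, lintegral_const, measure_univ, mul_one]
  | node v l r hl hr =>
    have hF : Measurable fun ω : B → E => ∫⁻ ω', h (o1_Z N ans (QT.node v l r) S ω0 ω ω')
        ∂(Measure.pi fun _ : B => ν) :=
      Measurable.lintegral_prod_right' (f := fun p : (B → E) × (B → E) =>
        h (o1_Z N ans (QT.node v l r) S ω0 p.1 p.2)) (hh.comp (o1_Z_meas hm _ S ω0))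
    rw [o1_split ν (N v \ S) hF, o1_split ν (N v \ S) hh]
    refine lintegral_congr fun a => ?_
    have h1 : Measurable fun η : B → E => h (mg (N v \ S) η a) :=
      hh.comp ((o1_mg_meas (N v \ S)).comp (measurable_id.prodMk measurable_const))
    by_cases hv : ans v (mg S a ω0)
    · rw [← hl (S ∪ N v) (mg S a ω0) h1]
      refine lintegral_congr fun ζ => lintegral_congr fun ω' => ?_
      rw [← o1_Z_node hN v l r S ω0 a ζ ω' l (Or.inl ⟨hv, rfl⟩)]
    · rw [← hr (S ∪ N v) (mg S a ω0) h1]
      refine lintegral_congr fun ζ => lintegral_congr fun ω' => ?_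
      rw [← o1_Z_node hN v l r S ω0 a ζ ω' r (Or.inr ⟨hv, rfl⟩)]

/-- **(I)** the hybrid inequality -/
theorem o1_ineq
    (hN : ∀ v, ∀ ω ω' : B → E, (∀ b ∈ N v, ω b = ω' b) → (ans v ω ↔ ans v ω'))
    (hm : ∀ v, MeasurableSet {ω | ans v ω}) (g : (B → E) → ℝ) (hg : Measurable g) (T : QT)
    (S : Finset B) (ω0 : B → E) :
    ∫⁻ ω, ∫⁻ ω', edist (g (o1_Z N ans T S ω0 ω ω')) (g ω') ∂(Measure.pi fun _ : B => ν)
      ∂(Measure.pi fun _ : B => ν) ≤
      ∑ b, (Measure.pi fun _ : B => ν) {ω | o1_R N ans T S ω0 ω b} * o1_I ν g b := by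
  induction T generalizing S ω0 with
  | leaf =>
    simp only [o1_Z_leaf, edist_self, lintegral_zero]
    exact zero_le
  | node v l r hl hr =>
    have hF : Measurable fun p : (B → E) × (B → E) =>
        edist (g (o1_Z N ans (QT.node v l r) S ω0 p.1 p.2)) (g p.2) :=
      (hg.comp (o1_Z_meas hm _ S ω0)).edist (hg.comp measurable_snd)
    have hmg : Measurable fun p : (B → E) × (B → E) =>
        edist (g (mg (N v \ S) p.2 p.1)) (g p.2) :=
      (hg.comp ((o1_mg_meas (N v \ S)).comp measurable_swap)).edist (hg.comp measurable_snd)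
    have hF' : Measurable fun ω : B → E => ∫⁻ ω', edist
        (g (o1_Z N ans (QT.node v l r) S ω0 ω ω')) (g ω') ∂(Measure.pi fun _ : B => ν) :=
      Measurable.lintegral_prod_right' (f := fun p : (B → E) × (B → E) =>
        edist (g (o1_Z N ans (QT.node v l r) S ω0 p.1 p.2)) (g p.2)) hF
    rw [o1_split ν (N v \ S) hF']
    -- the measure of the revealed sets
    have hp : ∀ b, (Measure.pi fun _ : B => ν) {ω | o1_R N ans (QT.node v l r) S ω0 ω b} =
        ∫⁻ a, (Measure.pi fun _ : B => ν)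
          {ζ | o1_R N ans (QT.node v l r) S ω0 (mg (N v \ S) ζ a) b}
            ∂(Measure.pi fun _ : B => ν) := by
      intro b
      have h1 := o1_R_meas (N := N) (ans := ans) hm (QT.node v l r) S ω0 b
      rw [← lintegral_indicator_one h1, o1_split ν (N v \ S) (measurable_one.indicator h1)]
      refine lintegral_congr fun a => ?_
      have h2 : Measurable fun ζ : B → E => mg (N v \ S) ζ a :=
        (o1_mg_meas (N v \ S)).comp (measurable_id.prodMk measurable_const)
      exact lintegral_indicator_one (h2 h1)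
    have hq : ∀ b, Measurable fun a : B → E => (Measure.pi fun _ : B => ν)
        {ζ | o1_R N ans (QT.node v l r) S ω0 (mg (N v \ S) ζ a) b} := by
      intro b
      have h1 := o1_R_meas (N := N) (ans := ans) hm (QT.node v l r) S ω0 b
      have h2 : MeasurableSet {p : (B → E) × (B → E) |
          o1_R N ans (QT.node v l r) S ω0 (mg (N v \ S) p.2 p.1) b} :=
        ((o1_mg_meas (N v \ S)).comp measurable_swap) h1
      exact measurable_measure_prodMk_left h2
    have hfix : ∀ a : B → E, ∫⁻ ζ, ∫⁻ ω', edist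
        (g (o1_Z N ans (QT.node v l r) S ω0 (mg (N v \ S) ζ a) ω')) (g ω')
          ∂(Measure.pi fun _ : B => ν) ∂(Measure.pi fun _ : B => ν) ≤
        ∫⁻ η, edist (g (mg (N v \ S) η a)) (g η) ∂(Measure.pi fun _ : B => ν) +
          ∑ b ∈ (N v \ S)ᶜ, (Measure.pi fun _ : B => ν)
            {ζ | o1_R N ans (QT.node v l r) S ω0 (mg (N v \ S) ζ a) b} * o1_I ν g b := by
      intro a
      obtain ⟨t, ht, hti⟩ : ∃ t : QT, ((ans v (mg S a ω0) ∧ t = l) ∨
          (¬ ans v (mg S a ω0) ∧ t = r)) ∧ ∀ (S : Finset B) (ω0 : B → E),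
          ∫⁻ ω, ∫⁻ ω', edist (g (o1_Z N ans t S ω0 ω ω')) (g ω') ∂(Measure.pi fun _ : B => ν)
            ∂(Measure.pi fun _ : B => ν) ≤
            ∑ b, (Measure.pi fun _ : B => ν) {ω | o1_R N ans t S ω0 ω b} * o1_I ν g b := by
        by_cases hv : ans v (mg S a ω0)
        · exact ⟨l, Or.inl ⟨hv, rfl⟩, hl⟩
        · exact ⟨r, Or.inr ⟨hv, rfl⟩, hr⟩
      have hR : ∀ ζ b, o1_R N ans (QT.node v l r) S ω0 (mg (N v \ S) ζ a) b ↔
          b ∈ N v \ S ∨ o1_R N ans t (S ∪ N v) (mg S a ω0) ζ b := by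
        intro ζ b
        rw [o1_R_node hN]
        rcases ht with ⟨h, rfl⟩ | ⟨h, rfl⟩
        · simp only [h, true_and, not_true_eq_false, false_and, or_false]
        · simp only [h, false_and, not_false_eq_true, true_and, false_or]
      have hZ := fun ζ ω' => o1_Z_node (N := N) (ans := ans) hN v l r S ω0 a ζ ω' t ht
      simp only [hZ]
      have h1 : Measurable fun η : B → E => edist (g (mg (N v \ S) η a)) (g η) :=
        hmg.comp (measurable_const.prodMk measurable_id)
      have h2 := o1_law ν hN hm t (S ∪ N v) (mg S a ω0) h1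
      have h3 := hti (S ∪ N v) (mg S a ω0)
      have h4 : ∑ b, (Measure.pi fun _ : B => ν)
          {ω | o1_R N ans t (S ∪ N v) (mg S a ω0) ω b} * o1_I ν g b ≤
          ∑ b ∈ (N v \ S)ᶜ, (Measure.pi fun _ : B => ν)
            {ζ | o1_R N ans (QT.node v l r) S ω0 (mg (N v \ S) ζ a) b} * o1_I ν g b := by
        rw [← Finset.sum_add_sum_compl (N v \ S)]
        have h5 : ∑ b ∈ N v \ S, (Measure.pi fun _ : B => ν)
            {ω | o1_R N ans t (S ∪ N v) (mg S a ω0) ω b} * o1_I ν g b = 0 := by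
          refine Finset.sum_eq_zero fun b hb => ?_
          have h6 : {ω : B → E | o1_R N ans t (S ∪ N v) (mg S a ω0) ω b} = ∅ :=
            Set.eq_empty_of_forall_notMem fun ω hω =>
              hω.1 (Finset.mem_union_right _ (Finset.mem_sdiff.1 hb).1)
          rw [h6, measure_empty, zero_mul]
        rw [h5, zero_add]
        refine Finset.sum_le_sum fun b _ => ?_
        refine mul_le_mul' (measure_mono fun ζ hζ => ?_) le_rfl
        exact (hR ζ b).2 (Or.inr hζ)
      refine le_trans ?_ (add_le_add h2.le (h3.trans h4))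
      have h7 : Measurable fun p : (B → E) × (B → E) =>
          edist (g (mg (N v \ S) (o1_Z N ans t (S ∪ N v) (mg S a ω0) p.1 p.2) a))
            (g (o1_Z N ans t (S ∪ N v) (mg S a ω0) p.1 p.2)) :=
        h1.comp (o1_Z_meas hm t (S ∪ N v) (mg S a ω0))
      have h8 : Measurable fun ζ : B → E => ∫⁻ ω', edist
          (g (mg (N v \ S) (o1_Z N ans t (S ∪ N v) (mg S a ω0) ζ ω') a))
            (g (o1_Z N ans t (S ∪ N v) (mg S a ω0) ζ ω')) ∂(Measure.pi fun _ : B => ν) :=
        Measurable.lintegral_prod_right' h7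
      rw [← lintegral_add_left h8]
      refine lintegral_mono fun ζ => ?_
      have h9 : Measurable fun ω' : B → E => edist
          (g (mg (N v \ S) (o1_Z N ans t (S ∪ N v) (mg S a ω0) ζ ω') a))
            (g (o1_Z N ans t (S ∪ N v) (mg S a ω0) ζ ω')) :=
        h1.comp (o1_Z_meas' (N := N) (ans := ans) hm t (S ∪ N v) (mg S a ω0) ζ)
      rw [← lintegral_add_left h9]
      exact lintegral_mono fun ω' => edist_triangle _ _ _
    refine (lintegral_mono hfix).trans ?_
    have hmg' : Measurable fun a : B → E => ∫⁻ η, edist (g (mg (N v \ S) η a)) (g η)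
        ∂(Measure.pi fun _ : B => ν) :=
      Measurable.lintegral_prod_right' (f := fun p : (B → E) × (B → E) =>
        edist (g (mg (N v \ S) p.2 p.1)) (g p.2)) hmg
    rw [lintegral_add_left hmg', lintegral_finsetSum _ fun b _ => (hq b).mul_const _]
    rw [← Finset.sum_add_sum_compl (N v \ S) (fun b => (Measure.pi fun _ : B => ν)
      {ω | o1_R N ans (QT.node v l r) S ω0 ω b} * o1_I ν g b)]
    refine add_le_add ((o1_hyb ν g hg (N v \ S)).trans (Finset.sum_le_sum fun b hb => ?_))
      (Finset.sum_le_sum fun b _ => ?_)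
    · have h1 : (Measure.pi fun _ : B => ν) {ω | o1_R N ans (QT.node v l r) S ω0 ω b} = 1 := by
        have h2 : {ω : B → E | o1_R N ans (QT.node v l r) S ω0 ω b} = Set.univ := by
          refine Set.eq_univ_of_forall fun ω => ?_
          exact ⟨(Finset.mem_sdiff.1 hb).2, (o1_rev_node N ans v l r _ b).2
            (Or.inl (Finset.mem_sdiff.1 hb).1)⟩
        rw [h2, measure_univ]
      rw [h1, one_mul]
    · rw [lintegral_mul_const _ (hq b), ← hp]

end

theorem osss {B E : Type*} [Fintype B] [DecidableEq B] [MeasurableSpace E] (ν : Measure E)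
    [IsProbabilityMeasure ν] (N : V → Finset B) (ans : V → (B → E) → Prop)
    (hN : ∀ v, ∀ ω ω' : B → E, (∀ b ∈ N v, ω b = ω' b) → (ans v ω ↔ ans v ω'))
    (hm : ∀ v, MeasurableSet {ω | ans v ω}) (T : QT) (f : (B → E) → ℝ) (hf : Measurable f)
    (hb : ∀ ω, 0 ≤ f ω ∧ f ω ≤ 1)
    (hdet : ∀ ω ω' : B → E, (∀ b ∈ Rev N ans T ω, ω b = ω' b) → f ω = f ω') :
    ∫ ω, ∫ ω', |f ω - f ω'| ∂(Measure.pi fun _ : B => ν) ∂(Measure.pi fun _ : B => ν) ≤
      ∑ b, (Measure.pi fun _ : B => ν).real {ω | b ∈ Rev N ans T ω} *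
        ∫ ω, ∫ ω', |f ω - f (mg {b} ω ω')| ∂(Measure.pi fun _ : B => ν)
          ∂(Measure.pi fun _ : B => ν) := by
  classical
  have hne : Nonempty E := ν.nonempty_of_neZero
  obtain ⟨ω0⟩ : Nonempty (B → E) := inferInstance
  have h1 := o1_ineq ν hN hm f hf T ∅ ω0
  have hR : ∀ ω b, o1_R N ans T ∅ ω0 ω b ↔ b ∈ Rev N ans T ω := by
    intro ω b
    have h2 : mg ∅ ω ω0 = ω := funext fun b => if_neg (Finset.notMem_empty b)
    unfold o1_R
    rw [h2]
    exact ⟨fun h => h.2, fun h => ⟨Finset.notMem_empty b, h⟩⟩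
  have hZ : ∀ ω ω', f (o1_Z N ans T ∅ ω0 ω ω') = f ω := by
    intro ω ω'
    refine (hdet _ _ fun b hb => ?_).symm
    exact (if_pos ((hR ω b).2 hb)).symm
  simp only [hR, hZ] at h1
  -- from the lower integrals to the integrals
  have hconv : ∀ F : (B → E) × (B → E) → ℝ, Measurable F → (∀ p, |F p| ≤ 1) →
      ∫ ω, ∫ ω', |F (ω, ω')| ∂(Measure.pi fun _ : B => ν) ∂(Measure.pi fun _ : B => ν) =
        (∫⁻ p, ENNReal.ofReal |F p|
          ∂((Measure.pi fun _ : B => ν).prod (Measure.pi fun _ : B => ν))).toReal := by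
    intro F hF hF1
    have h2 : Integrable (fun p => |F p|)
        ((Measure.pi fun _ : B => ν).prod (Measure.pi fun _ : B => ν)) :=
      Integrable.of_bound hF.abs.aestronglyMeasurable 1
        (Filter.Eventually.of_forall fun p => by
          rw [Real.norm_eq_abs, abs_abs]
          exact hF1 p)
    rw [← integral_prod (fun p => |F p|) h2]
    exact integral_eq_lintegral_of_nonneg_ae (Filter.Eventually.of_forall fun p => abs_nonneg _)
      hF.abs.aestronglyMeasurable
  have hfb : ∀ ω ω', |f ω - f ω'| ≤ 1 := by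
    intro ω ω'
    have h2 := hb ω
    have h3 := hb ω'
    rw [abs_le]
    constructor <;> linarith
  have hm1 : Measurable fun p : (B → E) × (B → E) => f p.1 - f p.2 :=
    (hf.comp measurable_fst).sub (hf.comp measurable_snd)
  have hm2 : ∀ b, Measurable fun p : (B → E) × (B → E) => f p.1 - f (mg {b} p.1 p.2) := fun b =>
    (hf.comp measurable_fst).sub (hf.comp (o1_mg_meas {b}))
  have e1 := hconv (fun p => f p.1 - f p.2) hm1 fun p => hfb _ _
  have e2 : ∀ b, _ := fun b => hconv (fun p => f p.1 - f (mg {b} p.1 p.2)) (hm2 b)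
    fun p => hfb _ _
  have hI : ∀ b, o1_I ν f b = ∫⁻ p, ENNReal.ofReal |f p.1 - f (mg {b} p.1 p.2)|
      ∂((Measure.pi fun _ : B => ν).prod (Measure.pi fun _ : B => ν)) := by
    intro b
    rw [lintegral_prod_symm _ (hm2 b).abs.ennreal_ofReal.aemeasurable]
    refine lintegral_congr fun a => lintegral_congr fun η => ?_
    rw [edist_comm, edist_dist, Real.dist_eq]
  have hIt : ∀ b, o1_I ν f b ≠ ⊤ := by
    intro b
    rw [hI]
    refine ne_of_lt (lt_of_le_of_lt (lintegral_mono (g := fun _ => 1) fun p => ?_) ?_)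
    · exact ENNReal.ofReal_le_one.2 (hfb _ _)
    · rw [lintegral_one]
      exact measure_lt_top _ _
  have h2 : ∫⁻ ω, ∫⁻ ω', edist (f ω) (f ω') ∂(Measure.pi fun _ : B => ν)
      ∂(Measure.pi fun _ : B => ν) = ∫⁻ p, ENNReal.ofReal |f p.1 - f p.2|
        ∂((Measure.pi fun _ : B => ν).prod (Measure.pi fun _ : B => ν)) := by
    rw [lintegral_prod _ hm1.abs.ennreal_ofReal.aemeasurable]
    refine lintegral_congr fun a => lintegral_congr fun η => ?_
    rw [edist_dist, Real.dist_eq]
  rw [h2] at h1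
  refine e1.le.trans ?_
  refine (ENNReal.toReal_mono ?_ h1).trans ?_
  · exact ENNReal.sum_ne_top.2 fun b _ => ENNReal.mul_ne_top (measure_ne_top _ _) (hIt b)
  · rw [ENNReal.toReal_sum fun b _ => ENNReal.mul_ne_top (measure_ne_top _ _) (hIt b)]
    refine Finset.sum_le_sum fun b _ => ?_
    rw [ENNReal.toReal_mul, hI b]
    exact le_of_eq (congrArg₂ (· * ·) rfl (e2 b).symm)

end NU53
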