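import Pool.Agent.LibNU53.T9

/-! Row T10. Sum of the block influences over a level.
PLAN. `infl`, exchange the sums: for fixed `v`, `∑_{b ∈ eq j} √(∑ i, a b i v ^ 2)`: only blocks of
`eq j ∩ near q v` contribute (`loc`), at most `C` of them (`ovl`), each at most
`√(κ j 0) ≤ √C σ_j` (`cov` with `u = v`, `var_le`); `∑_v μ{T = F v} ≤ 1` because a.s. there are no ties
(the events are a.s. disjoint). `C √C ≤ C²`. SHORT/MEDIUM. -/

open MeasureTheory ProbabilityTheory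

namespace NU53

/-- the block coefficients of one level at a vertex -/
private theorem t10_coef {C c α : ℝ} {q J : ℕ} {D : ℤ} {κ : ℕ → V → ℝ} {m : Mdl}
    (h : IsMdl C c α q J D κ m) {j : ℕ} (hj : j ≤ J) {v : V} (hv : v ∈ Sq 0 D) :
    ∑ b ∈ m.eq j, Real.sqrt (∑ i, m.a b i v ^ 2) ≤ C ^ 2 * sg α j := by
  have hC := h.hC
  have hsg : 0 < sg α j := Real.rpow_pos_of_pos two_pos _
  have hκ : κ j 0 ≤ (C * sg α j) ^ 2 := by
    refine (h.var_le j hj).trans ?_
    rw [mul_pow]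
    exact mul_le_mul_of_nonneg_right (by nlinarith) (sq_nonneg _)
  have h1 : ∀ b ∈ m.eq j, Real.sqrt (∑ i, m.a b i v ^ 2) ≤ C * sg α j := by
    intro b hb
    rw [Real.sqrt_le_left (mul_pos (by linarith) hsg).le]
    refine le_trans ?_ hκ
    have h2 := h.cov j hj v hv v hv
    rw [sub_self] at h2
    rw [← h2]
    have h3 : ∑ i, m.a b i v ^ 2 = ∑ i, m.a b i v * m.a b i v :=
      Finset.sum_congr rfl fun i _ => sq _
    rw [h3]
    exact Finset.single_le_sum (f := fun b => ∑ i, m.a b i v * m.a b i v)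
      (fun b _ => Finset.sum_nonneg fun i _ => mul_self_nonneg _) hb
  have h4 : ∑ b ∈ m.eq j, Real.sqrt (∑ i, m.a b i v ^ 2) =
      ∑ b ∈ m.eq j ∩ m.near q v, Real.sqrt (∑ i, m.a b i v ^ 2) := by
    symm
    refine Finset.sum_subset Finset.inter_subset_left fun b hb hb' => ?_
    have h5 : ∀ i, m.a b i v = 0 := by
      intro i
      by_contra h6
      apply hb'
      rw [Finset.mem_inter]
      refine ⟨hb, ?_⟩
      simp only [Mdl.near, Finset.mem_filter, Finset.mem_univ, true_and]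
      exact h.loc b i v h6
    have h7 : ∑ i, m.a b i v ^ 2 = 0 := Finset.sum_eq_zero fun i _ => by rw [h5 i]; ring
    rw [h7, Real.sqrt_zero]
  rw [h4]
  calc ∑ b ∈ m.eq j ∩ m.near q v, Real.sqrt (∑ i, m.a b i v ^ 2)
      ≤ ∑ _b ∈ m.eq j ∩ m.near q v, C * sg α j :=
        Finset.sum_le_sum fun b hb => h1 b (Finset.mem_inter.1 hb).1
    _ = ((m.eq j ∩ m.near q v).card : ℝ) * (C * sg α j) := by
        rw [Finset.sum_const, nsmul_eq_mul]
    _ ≤ C * (C * sg α j) :=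
        mul_le_mul_of_nonneg_right (h.ovl j hj v) (mul_pos (by linarith) hsg).le
    _ = C ^ 2 * sg α j := by ring

private theorem t10_prob {C c α : ℝ} {q J : ℕ} {D : ℤ} {κ : ℕ → V → ℝ} {m : Mdl}
    (h : IsMdl C c α q J D κ m) {n : ℤ} (hn : 0 ≤ n) (hD : Box 0 n 0 n ⊆ Sq 0 D) {K : ℕ}
    (hK : K ≤ J) : ∑ v ∈ BoxF n, m.mu.real {ω | Tn n (m.F K ω) = m.F K ω v} ≤ 1 := by
  have hmem : ∀ v ∈ BoxF n, v ∈ Sq 0 D := by
    intro v hv
    apply hD
    unfold BoxF at hv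
    rw [Finset.mem_product, Finset.mem_Icc, Finset.mem_Icc] at hv
    exact hv
  have hF : ∀ v, Measurable fun ω => m.F K ω v := fun v => meas_fl m _ v
  have hT : Measurable fun ω => Tn n (m.F K ω) := tn_meas hn (fun v ω => m.F K ω v) hF
  rw [← measureReal_biUnion_finset₀ (μ := m.mu)
    (f := fun v => {ω | Tn n (m.F K ω) = m.F K ω v})]
  · exact measureReal_le_one
  · intro u hu v hv huv
    have h1 := no_tie h hK (hmem u hu) (hmem v hv) huv
    refine measure_mono_null (fun ω hω => ?_) h1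
    have h2 : Tn n (m.F K ω) = m.F K ω u := hω.1
    have h3 : Tn n (m.F K ω) = m.F K ω v := hω.2
    exact h2.symm.trans h3
  · intro v _
    exact (measurableSet_eq_fun hT (hF v)).nullMeasurableSet

theorem infl_level {C c α : ℝ} {q J : ℕ} {D : ℤ} {κ : ℕ → V → ℝ} {m : Mdl}
    (h : IsMdl C c α q J D κ m) {n : ℤ} (hn : 0 ≤ n) (hD : Box 0 n 0 n ⊆ Sq 0 D) {K j : ℕ}
    (hK : K ≤ J) (hj : j ≤ J) :
    ∑ b ∈ m.eq j, ∫ ω, ∫ ω', |Tn n (m.F K ω) - Tn n (m.F K (mg {b} ω ω'))| ∂m.mu ∂m.mu ≤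
      Real.sqrt (Real.pi / 2) * C ^ 2 * sg α j := by
  have hmem : ∀ v ∈ BoxF n, v ∈ Sq 0 D := by
    intro v hv
    apply hD
    unfold BoxF at hv
    rw [Finset.mem_product, Finset.mem_Icc, Finset.mem_Icc] at hv
    exact hv
  have hsg : 0 < sg α j := Real.rpow_pos_of_pos two_pos _
  have hC := h.hC
  calc ∑ b ∈ m.eq j, ∫ ω, ∫ ω', |Tn n (m.F K ω) - Tn n (m.F K (mg {b} ω ω'))| ∂m.mu ∂m.mu
      ≤ ∑ b ∈ m.eq j, Real.sqrt (Real.pi / 2) * ∑ v ∈ BoxF n, Real.sqrt (∑ i, m.a b i v ^ 2) *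
        m.mu.real {ω | Tn n (m.F K ω) = m.F K ω v} :=
        Finset.sum_le_sum fun b _ => infl h hn hD hK b
    _ = Real.sqrt (Real.pi / 2) * ∑ v ∈ BoxF n, (∑ b ∈ m.eq j, Real.sqrt (∑ i, m.a b i v ^ 2)) *
        m.mu.real {ω | Tn n (m.F K ω) = m.F K ω v} := by
        rw [← Finset.mul_sum, Finset.sum_comm]
        congr 1
        exact Finset.sum_congr rfl fun v _ => (Finset.sum_mul _ _ _).symm
    _ ≤ Real.sqrt (Real.pi / 2) * ∑ v ∈ BoxF n, (C ^ 2 * sg α j) *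
        m.mu.real {ω | Tn n (m.F K ω) = m.F K ω v} := by
        refine mul_le_mul_of_nonneg_left (Finset.sum_le_sum fun v hv => ?_) (Real.sqrt_nonneg _)
        exact mul_le_mul_of_nonneg_right (t10_coef h hj (hmem v hv)) measureReal_nonneg
    _ = Real.sqrt (Real.pi / 2) * C ^ 2 * sg α j *
        ∑ v ∈ BoxF n, m.mu.real {ω | Tn n (m.F K ω) = m.F K ω v} := by
        rw [← Finset.mul_sum]
        ring
    _ ≤ Real.sqrt (Real.pi / 2) * C ^ 2 * sg α j * 1 :=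
        mul_le_mul_of_nonneg_left (t10_prob h hn hD hK)
          (mul_nonneg (mul_nonneg (Real.sqrt_nonneg _) (sq_nonneg _)) hsg.le)
    _ = Real.sqrt (Real.pi / 2) * C ^ 2 * sg α j := mul_one _

end NU53
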