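import Pool.Agent.LibNU53.O1
import Pool.Agent.LibNU53.Det
import Pool.Agent.LibNU53.T10

/-! Row O2. OSSS for the crossing of level `l`, integrated over the level.
`Tree n u t` = the tree of `expl`; question `v`: is `F J ω v ≤ l`; `N v = near q v`.
`rvl`: probability that the block `b` is revealed.
PLAN. For fixed `l`, `(u,t)`: `osss` with `f = 1{LR {F ≤ l}}`; `hdet`: if `ω = ω'` on the revealed blocks then by
induction along the branch the asked sets are equal (`QT.asked S` only depends on `S` on the asked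
vertices: small lemma), `S ∩ Q = S' ∩ Q`, and `det` + `hex_unique` + monotonicity give
`LR S ↔ LR S'`. Average over `(u,t) ∈ [0,n]²` (finite set `BoxF n`, cardinality `(n+1)²`), use
`hδ`, integrate over `l ∈ ℝ`: `∫ |1(T ≤ l) - 1(T' ≤ l)| dl = |T - T'|` and `lr_iff`. All integrals of
nonnegative functions; `T` is bounded by `∑ |F v|`, integrable. STRONG/MEDIUM. -/

open MeasureTheory ProbabilityTheory

namespace NU53

/-- the exploration tree -/
noncomputable def Tree (n u t : ℤ) : QT := Classical.choose (expl n u t)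

/-- probability that the block `b` is revealed by the exploration with lines `(u,t)` at the level `l` -/
noncomputable def rvl (m : Mdl) (q J : ℕ) (n u t : ℤ) (l : ℝ) (b : m.B) : ℝ :=
  m.mu.real {ω | b ∈ Rev (m.near q) (fun v ω => m.F J ω v ≤ l) (Tree n u t) ω}

private lemma o2_asked (T : QT) (S S' : Set V) (h : ∀ v ∈ T.asked S, (v ∈ S ↔ v ∈ S')) :
    T.asked S = T.asked S' := by
  induction T with
  | leaf => rfl
  | node v l r ihl ihr =>
    simp only [QT.asked] at h ⊢
    have hv : v ∈ S ↔ v ∈ S' := h v (Set.mem_insert _ _)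
    by_cases hS : v ∈ S
    · have hS' : v ∈ S' := hv.mp hS
      rw [if_pos hS] at h
      rw [if_pos hS, if_pos hS', ihl fun w hw => h w (Set.mem_insert_of_mem _ hw)]
    · have hS' : v ∉ S' := fun h1 => hS (hv.mpr h1)
      rw [if_neg hS] at h
      rw [if_neg hS, if_neg hS', ihr fun w hw => h w (Set.mem_insert_of_mem _ hw)]

/-- the length of the interval between two numbers as an integral over the level -/
private lemma o2_int1 (a b : ℝ) :
    Integrable (fun l : ℝ => |(if a ≤ l then (1 : ℝ) else 0) - (if b ≤ l then 1 else 0)|) ∧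
    ∫ l : ℝ, |(if a ≤ l then (1 : ℝ) else 0) - (if b ≤ l then 1 else 0)| = |a - b| := by
  have key : ∀ a b : ℝ, a ≤ b →
      Integrable (fun l : ℝ => |(if a ≤ l then (1 : ℝ) else 0) - (if b ≤ l then 1 else 0)|) ∧
      ∫ l : ℝ, |(if a ≤ l then (1 : ℝ) else 0) - (if b ≤ l then 1 else 0)| = |a - b| := by
    intro a b hab
    have e : (fun l : ℝ => |(if a ≤ l then (1 : ℝ) else 0) - (if b ≤ l then 1 else 0)|) =
        (Set.Ico a b).indicator (fun _ => (1 : ℝ)) := by
      funext l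
      by_cases h1 : a ≤ l
      · by_cases h2 : b ≤ l
        · rw [if_pos h1, if_pos h2, Set.indicator_of_notMem (fun h => absurd h2 (not_le.mpr h.2))]
          simp
        · rw [if_pos h1, if_neg h2,
            Set.indicator_of_mem (show l ∈ Set.Ico a b from ⟨h1, not_le.mp h2⟩)]
          simp
      · have h2 : ¬ b ≤ l := fun h => h1 (hab.trans h)
        rw [if_neg h1, if_neg h2, Set.indicator_of_notMem (fun h => h1 h.1)]
        simp
    rw [e]
    constructor
    · rw [integrable_indicator_iff measurableSet_Ico]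
      exact integrableOn_const (by simp)
    · rw [integral_indicator measurableSet_Ico, setIntegral_const]
      simp only [measureReal_def, Real.volume_Ico, smul_eq_mul, mul_one]
      rw [ENNReal.toReal_ofReal (by linarith), abs_sub_comm, abs_of_nonneg (by linarith)]
  rcases le_total a b with h | h
  · exact key a b h
  · have h1 := key b a h
    have e : (fun l : ℝ => |(if a ≤ l then (1 : ℝ) else 0) - (if b ≤ l then 1 else 0)|) =
        (fun l : ℝ => |(if b ≤ l then (1 : ℝ) else 0) - (if a ≤ l then 1 else 0)|) := by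
      funext l
      exact abs_sub_comm _ _
    rw [e, abs_sub_comm a b]
    exact h1

private lemma o2_layer {Ω : Type*} [MeasurableSpace Ω] (P : Measure Ω) [IsProbabilityMeasure P]
    (X Y : Ω → ℝ) (hX : Measurable X) (hY : Measurable Y) (iX : Integrable X P)
    (iY : Integrable Y P) :
    Integrable (fun l : ℝ => ∫ p, |(if X p ≤ l then (1 : ℝ) else 0) -
      (if Y p ≤ l then 1 else 0)| ∂P) ∧
    ∫ l : ℝ, ∫ p, |(if X p ≤ l then (1 : ℝ) else 0) - (if Y p ≤ l then 1 else 0)| ∂P =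
      ∫ p, |X p - Y p| ∂P := by
  set h : ℝ × Ω → ℝ := fun z => |(if X z.2 ≤ z.1 then (1 : ℝ) else 0) -
    (if Y z.2 ≤ z.1 then 1 else 0)| with hh
  have hm : Measurable h := by
    have h1 : Measurable (fun z : ℝ × Ω => if X z.2 ≤ z.1 then (1 : ℝ) else 0) :=
      Measurable.ite (measurableSet_le (hX.comp measurable_snd) measurable_fst)
        measurable_const measurable_const
    have h2 : Measurable (fun z : ℝ × Ω => if Y z.2 ≤ z.1 then (1 : ℝ) else 0) :=
      Measurable.ite (measurableSet_le (hY.comp measurable_snd) measurable_fst)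
        measurable_const measurable_const
    exact (h1.sub h2).abs
  have hint : Integrable h ((volume : Measure ℝ).prod P) := by
    rw [integrable_prod_iff' hm.aestronglyMeasurable]
    refine ⟨Filter.Eventually.of_forall fun p => (o2_int1 (X p) (Y p)).1, ?_⟩
    have e : (fun p => ∫ l : ℝ, ‖h (l, p)‖) = fun p => |X p - Y p| := by
      funext p
      rw [← (o2_int1 (X p) (Y p)).2]
      refine integral_congr_ae (Filter.Eventually.of_forall fun l => ?_)
      simp only [hh, Real.norm_eq_abs, abs_abs]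
    rw [e]
    exact (iX.sub iY).abs
  refine ⟨hint.integral_prod_left, ?_⟩
  have hsw := integral_integral_swap (f := fun (l : ℝ) (p : Ω) => h (l, p)) hint
  have e2 : ∫ p, (∫ l : ℝ, h (l, p)) ∂P = ∫ p, |X p - Y p| ∂P := by
    refine integral_congr_ae (Filter.Eventually.of_forall fun p => ?_)
    exact (o2_int1 (X p) (Y p)).2
  exact hsw.trans e2

private lemma o2_coord (m : Mdl) (b : m.B) (i : Fin m.M) :
    Integrable (fun ω : m.Om => ω b i) m.mu := by
  have h1 : Integrable (fun x : ℝ => x) (gaussianReal 0 1) := by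
    have := (memLp_id_gaussianReal (μ := 0) (v := 1) 1).integrable (by simp)
    exact this
  have h2 : Integrable (fun y : Fin m.M → ℝ => y i) (gam m.M) := by
    unfold gam
    exact (measurePreserving_eval (fun _ : Fin m.M => gaussianReal 0 1) i).integrable_comp_of_integrable h1
  unfold Mdl.mu
  exact (measurePreserving_eval (fun _ : m.B => gam m.M) b).integrable_comp_of_integrable h2

private lemma o2_F (m : Mdl) (J : ℕ) (v : V) : Integrable (fun ω : m.Om => m.F J ω v) m.mu := by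
  unfold Mdl.F Mdl.fl
  refine integrable_finsetSum _ fun b _ => integrable_finsetSum _ fun i _ => ?_
  exact (o2_coord m b i).const_mul _

private lemma o2_Tmeas (m : Mdl) (J : ℕ) {n : ℤ} (hn : 0 ≤ n) :
    Measurable (fun ω : m.Om => Tn n (m.F J ω)) :=
  tn_meas hn (fun v ω => m.F J ω v) fun v => meas_fl m (m.le J) v

private lemma o2_T (m : Mdl) (J : ℕ) {n : ℤ} (hn : 0 ≤ n) :
    Integrable (fun ω : m.Om => Tn n (m.F J ω)) m.mu := by
  have h1 : Integrable (fun ω : m.Om => ∑ v ∈ BoxF n, |m.F J ω v|) m.mu :=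
    integrable_finsetSum _ fun v _ => (o2_F m J v).abs
  refine h1.mono' (o2_Tmeas m J hn).aestronglyMeasurable (Filter.Eventually.of_forall fun ω => ?_)
  obtain ⟨v, hv, hval⟩ := tn_val hn (m.F J ω)
  rw [Real.norm_eq_abs, ← hval]
  have hvF : v ∈ BoxF n := by
    obtain ⟨⟨a1, a2⟩, a3, a4⟩ := hv
    unfold BoxF
    rw [Finset.mem_product, Finset.mem_Icc, Finset.mem_Icc]
    exact ⟨⟨a1, a2⟩, a3, a4⟩
  exact Finset.single_le_sum (f := fun v => |m.F J ω v|) (fun _ _ => abs_nonneg _) hvF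

private lemma o2_near {C c α : ℝ} {q J : ℕ} {D : ℤ} {κ : ℕ → V → ℝ} {m : Mdl}
    (h : IsMdl C c α q J D κ m) (v : V) (ω ω' : m.Om) (he : ∀ b ∈ m.near q v, ω b = ω' b) :
    m.F J ω v = m.F J ω' v := by
  unfold Mdl.F Mdl.fl
  refine Finset.sum_congr rfl fun b _ => Finset.sum_congr rfl fun i _ => ?_
  by_cases ha : m.a b i v = 0
  · rw [ha, zero_mul, zero_mul]
  · have hb : b ∈ m.near q v := by
      classical
      unfold Mdl.near
      rw [Finset.mem_filter]
      exact ⟨Finset.mem_univ _, h.loc b i v ha⟩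
    rw [he b hb]

/-- the crossing is determined by the revealed blocks -/
private lemma o2_det {C c α : ℝ} {q J : ℕ} {D : ℤ} {κ : ℕ → V → ℝ} {m : Mdl}
    (h : IsMdl C c α q J D κ m) {n u t : ℤ} (hu : 0 ≤ u ∧ u ≤ n) (ht : 0 ≤ t ∧ t ≤ n) (l : ℝ)
    (ω ω' : m.Om)
    (hR : ∀ b ∈ Rev (m.near q) (fun v ω => m.F J ω v ≤ l) (Tree n u t) ω, ω b = ω' b) :
    LR 0 n 0 n {v | m.F J ω v ≤ l} ↔ LR 0 n 0 n {v | m.F J ω' v ≤ l} := by
  set S : Set V := {v | m.F J ω v ≤ l} with hS
  set S' : Set V := {v | m.F J ω' v ≤ l} with hS'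
  obtain ⟨hQ, hL, hcl, _⟩ := Classical.choose_spec (expl n u t) S
  change (Tree n u t).asked S ⊆ Box 0 n 0 n at hQ
  change Lines n u t ⊆ (Tree n u t).asked S at hL
  set Q : Set V := (Tree n u t).asked S with hQdef
  have hcl' : ∀ v ∈ Box 0 n 0 n, v ∉ Q →
      ¬ ((∃ w ∈ Q ∩ S, Adj v w) ∧ (∃ w ∈ Q ∩ Sᶜ, Adj v w)) := hcl
  have hval : ∀ v ∈ Q, m.F J ω v = m.F J ω' v := by
    intro v hv
    refine o2_near h v ω ω' fun b hb => hR b ⟨v, hv, hb⟩
  have hmem : ∀ v ∈ Q, (v ∈ S ↔ v ∈ S') := by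
    intro v hv
    simp only [hS, hS', Set.mem_setOf_eq]
    rw [hval v hv]
  have hQS : Q ∩ S = Q ∩ S' := by
    ext v
    constructor
    · rintro ⟨h1, h2⟩
      exact ⟨h1, (hmem v h1).mp h2⟩
    · rintro ⟨h1, h2⟩
      exact ⟨h1, (hmem v h1).mpr h2⟩
  have hQS' : Q ∩ Sᶜ = Q ∩ S'ᶜ := by
    ext v
    constructor
    · rintro ⟨h1, h2⟩
      exact ⟨h1, fun h3 => h2 ((hmem v h1).mpr h3)⟩
    · rintro ⟨h1, h2⟩
      exact ⟨h1, fun h3 => h2 ((hmem v h1).mp h3)⟩
  rcases det hu ht (Q := Q) (S := S) hQ (fun v hv h1 => hL ⟨hv, Or.inl h1⟩)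
    (fun v hv h1 => hL ⟨hv, Or.inr h1⟩) hcl' with h1 | h1
  · have h2 : LR 0 n 0 n S := h1.mono Set.inter_subset_right
    have h3 : LR 0 n 0 n S' := by
      rw [hQS] at h1
      exact h1.mono Set.inter_subset_right
    exact ⟨fun _ => h3, fun _ => h2⟩
  · have h2 : TB 0 n 0 n Sᶜ := h1.mono Set.inter_subset_right
    have h3 : TB 0 n 0 n S'ᶜ := by
      rw [hQS'] at h1
      exact h1.mono Set.inter_subset_right
    exact ⟨fun h4 => (hex_unique S h4 h2).elim, fun h4 => (hex_unique S' h4 h3).elim⟩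

theorem osss_T {C c α : ℝ} {q J : ℕ} {D : ℤ} {κ : ℕ → V → ℝ} {m : Mdl}
    (h : IsMdl C c α q J D κ m) {n : ℤ} (hn : 0 ≤ n) (hD : Box 0 n 0 n ⊆ Sq 0 D)
    (δ : m.B → ℝ)
    (hδ : ∀ (l : ℝ) (b : m.B), ∑ p ∈ BoxF n, rvl m q J n p.1 p.2 l b ≤ (n + 1) ^ 2 * δ b) :
    ∫ ω, ∫ ω', |Tn n (m.F J ω) - Tn n (m.F J ω')| ∂m.mu ∂m.mu ≤
      ∑ b, δ b * ∫ ω, ∫ ω', |Tn n (m.F J ω) - Tn n (m.F J (mg {b} ω ω'))| ∂m.mu ∂m.mu := by
  set T : m.Om → ℝ := fun ω => Tn n (m.F J ω) with hT
  have hTm : Measurable T := o2_Tmeas m J hn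
  have hTi : Integrable T m.mu := o2_T m J hn
  set f : ℝ → m.Om → ℝ := fun l ω => if T ω ≤ l then (1 : ℝ) else 0 with hf
  have hfm : ∀ l, Measurable (f l) := fun l =>
    Measurable.ite (measurableSet_le hTm measurable_const) measurable_const measurable_const
  have hf01 : ∀ l ω, 0 ≤ f l ω ∧ f l ω ≤ 1 := by
    intro l ω
    simp only [hf]
    split_ifs <;> norm_num
  -- the product space
  set P : Measure (m.Om × m.Om) := m.mu.prod m.mu with hP
  have hmgm : ∀ b : m.B, MeasurePreserving (fun p : m.Om × m.Om => mg {b} p.1 p.2) P m.mu :=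
    fun b => mg_mp (gam m.M) {b}
  have hX : Integrable (fun p : m.Om × m.Om => T p.1) P := hTi.comp_fst m.mu
  have hX' : Integrable (fun p : m.Om × m.Om => T p.2) P := hTi.comp_snd m.mu
  have hXm : Measurable (fun p : m.Om × m.Om => T p.1) := hTm.comp measurable_fst
  have hXm' : Measurable (fun p : m.Om × m.Om => T p.2) := hTm.comp measurable_snd
  have hYm : ∀ b : m.B, Measurable (fun p : m.Om × m.Om => T (mg {b} p.1 p.2)) := fun b =>
    hTm.comp (hmgm b).measurable
  have hY : ∀ b : m.B, Integrable (fun p : m.Om × m.Om => T (mg {b} p.1 p.2)) P := fun b =>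
    (hmgm b).integrable_comp_of_integrable hTi
  have hb1 : ∀ (Φ : m.Om × m.Om → ℝ), Measurable Φ → (∀ p, |Φ p| ≤ 1) → Integrable Φ P := by
    intro Φ hΦ hb
    refine (integrable_const (1 : ℝ)).mono' hΦ.aestronglyMeasurable
      (Filter.Eventually.of_forall fun p => ?_)
    rw [Real.norm_eq_abs]
    exact hb p
  have hd1 : ∀ l (ω ω' : m.Om), |(|f l ω - f l ω'|)| ≤ 1 := by
    intro l ω ω'
    have h1 := hf01 l ω
    have h2 := hf01 l ω'
    rw [abs_abs, abs_le]
    constructor <;> linarith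
  have hG : ∀ l, Integrable (fun p : m.Om × m.Om => |f l p.1 - f l p.2|) P := fun l =>
    hb1 _ (((hfm l).comp measurable_fst).sub ((hfm l).comp measurable_snd)).abs
      fun p => hd1 l p.1 p.2
  have hI : ∀ l (b : m.B), Integrable (fun p : m.Om × m.Om => |f l p.1 - f l (mg {b} p.1 p.2)|) P :=
    fun l b => hb1 _ (((hfm l).comp measurable_fst).sub
      ((hfm l).comp (hmgm b).measurable)).abs fun p => hd1 l p.1 _
  -- the inequality at a fixed level
  have hlev : ∀ l : ℝ, ∫ p, |f l p.1 - f l p.2| ∂P ≤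
      ∑ b, δ b * ∫ p, |f l p.1 - f l (mg {b} p.1 p.2)| ∂P := by
    intro l
    have hone : ∀ p ∈ BoxF n, ∫ z, |f l z.1 - f l z.2| ∂P ≤
        ∑ b, rvl m q J n p.1 p.2 l b * ∫ z, |f l z.1 - f l (mg {b} z.1 z.2)| ∂P := by
      intro p hp
      unfold BoxF at hp
      rw [Finset.mem_product, Finset.mem_Icc, Finset.mem_Icc] at hp
      have ho := osss (gam m.M) (m.near q) (fun v ω => m.F J ω v ≤ l)
        (fun v ω ω' he => by
          have := o2_near h v ω ω' he
          rw [this])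
        (fun v => measurableSet_le (meas_fl m (m.le J) v) measurable_const)
        (Tree n p.1 p.2) (f l) (hfm l) (hf01 l)
        (fun ω ω' hR => by
          have h1 := o2_det h hp.1 hp.2 l ω ω' hR
          rw [lr_iff hn, lr_iff hn] at h1
          simp only [hf]
          by_cases h2 : T ω ≤ l
          · rw [if_pos h2, if_pos (h1.mp h2)]
          · rw [if_neg h2, if_neg fun h3 => h2 (h1.mpr h3)])
      change ∫ ω, ∫ ω', |f l ω - f l ω'| ∂m.mu ∂m.mu ≤
        ∑ b, rvl m q J n p.1 p.2 l b *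
          ∫ ω, ∫ ω', |f l ω - f l (mg {b} ω ω')| ∂m.mu ∂m.mu at ho
      rw [hP, integral_prod _ (hG l)]
      refine ho.trans (le_of_eq ?_)
      refine Finset.sum_congr rfl fun b _ => ?_
      rw [integral_prod _ (hI l b)]
    have hs := Finset.sum_le_sum hone
    rw [Finset.sum_const, nsmul_eq_mul, Finset.sum_comm] at hs
    have hcard : ((BoxF n).card : ℝ) = (n + 1) ^ 2 := by
      unfold BoxF
      rw [Finset.card_product, Int.card_Icc]
      have e1 : (((n + 1 - 0).toNat : ℕ) : ℤ) = n + 1 := by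
        rw [Int.toNat_of_nonneg (by omega)]
        ring
      have e2 : (((n + 1 - 0).toNat : ℕ) : ℝ) = (n : ℝ) + 1 := by
        exact_mod_cast e1
      push_cast
      rw [e2]
      ring
    rw [hcard] at hs
    have hpos : (0 : ℝ) < ((n : ℝ) + 1) ^ 2 := by
      have : (0 : ℝ) ≤ (n : ℝ) := by exact_mod_cast hn
      positivity
    have hs2 : ∑ b, ∑ p ∈ BoxF n, rvl m q J n p.1 p.2 l b *
        ∫ z, |f l z.1 - f l (mg {b} z.1 z.2)| ∂P ≤
        ((n : ℝ) + 1) ^ 2 * ∑ b, δ b * ∫ z, |f l z.1 - f l (mg {b} z.1 z.2)| ∂P := by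
      rw [Finset.mul_sum]
      refine Finset.sum_le_sum fun b _ => ?_
      rw [← Finset.sum_mul, ← mul_assoc]
      exact mul_le_mul_of_nonneg_right (hδ l b)
        (integral_nonneg fun z => abs_nonneg _)
    exact le_of_mul_le_mul_left (hs.trans hs2) hpos
  -- integration over the level
  have hLX := o2_layer P (fun p => T p.1) (fun p => T p.2) hXm hXm' hX hX'
  have hLY := fun b : m.B => o2_layer P (fun p => T p.1) (fun p => T (mg {b} p.1 p.2)) hXm (hYm b)
    hX (hY b)
  have e1 : ∫ ω, ∫ ω', |T ω - T ω'| ∂m.mu ∂m.mu = ∫ p, |T p.1 - T p.2| ∂P := by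
    have hi : Integrable (fun p : m.Om × m.Om => |T p.1 - T p.2|) P := (hX.sub hX').abs
    rw [hP, integral_prod _ hi]
  have e2 : ∀ b : m.B, ∫ ω, ∫ ω', |T ω - T (mg {b} ω ω')| ∂m.mu ∂m.mu =
      ∫ p, |T p.1 - T (mg {b} p.1 p.2)| ∂P := by
    intro b
    have hi : Integrable (fun p : m.Om × m.Om => |T p.1 - T (mg {b} p.1 p.2)|) P :=
      (hX.sub (hY b)).abs
    rw [hP, integral_prod _ hi]
  change ∫ ω, ∫ ω', |T ω - T ω'| ∂m.mu ∂m.mu ≤
    ∑ b, δ b * ∫ ω, ∫ ω', |T ω - T (mg {b} ω ω')| ∂m.mu ∂m.mu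
  rw [e1, ← hLX.2]
  simp only [e2]
  have e3 : ∑ b, δ b * ∫ p, |T p.1 - T (mg {b} p.1 p.2)| ∂P =
      ∫ l : ℝ, ∑ b, δ b * ∫ p, |(if T p.1 ≤ l then (1 : ℝ) else 0) -
        (if T (mg {b} p.1 p.2) ≤ l then 1 else 0)| ∂P := by
    rw [integral_finsetSum _ fun b _ => (hLY b).1.const_mul (δ b)]
    refine Finset.sum_congr rfl fun b _ => ?_
    rw [integral_const_mul, (hLY b).2]
  rw [e3]
  exact integral_mono hLX.1 (integrable_finsetSum _ fun b _ => (hLY b).1.const_mul (δ b)) hlev

end NU53
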