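import Pool.Agent.LibNU53.T6
import Pool.Agent.LibNU53.HexU

/-! Row T7 (BLOCK). A circuit of `S` blocks the paths of `Sᶜ`. PLAN. `t6` for `Sᶜ`, then
`hex_unique` in the corresponding rectangle (for the last two cases with `S` and `Sᶜ`, TB and LR
exchanged: apply `hex_unique Sᶜ`, `Sᶜᶜ = S`). SHORT. -/

namespace NU53

theorem block {e : ℕ} {x u v : V} {S : Set V} (hc : Circ e x S) (h : Conn Sᶜ u v)
    (hu : u ∈ Sq x (2 ^ e)) (hv : 3 * 2 ^ e ≤ |v.1 - x.1| ∨ 3 * 2 ^ e ≤ |v.2 - x.2|) : False := by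
  have hr : (0 : ℤ) < 2 ^ e := by positivity
  obtain ⟨c1, c2, c3, c4⟩ := hc
  obtain ⟨p, q, -, -, h1⟩ := t6 hr h hu hv
  rcases h1 with ⟨hp, hq, hpq⟩ | ⟨hp, hq, hpq⟩ | ⟨hp, hq, hpq⟩ | ⟨hp, hq, hpq⟩
  · refine hex_unique Sᶜ ⟨p, q, hp, hq, hpq⟩ ?_
    rw [compl_compl]
    exact c4
  · refine hex_unique Sᶜ ⟨p, q, hp, hq, hpq⟩ ?_
    rw [compl_compl]
    exact c3
  · exact hex_unique S c1 ⟨p, q, hp, hq, hpq⟩
  · exact hex_unique S c2 ⟨p, q, hp, hq, hpq⟩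

theorem block' {e : ℕ} {x u v : V} {S : Set V} (hc : Circ e x Sᶜ) (h : Conn S u v)
    (hu : u ∈ Sq x (2 ^ e)) (hv : 3 * 2 ^ e ≤ |v.1 - x.1| ∨ 3 * 2 ^ e ≤ |v.2 - x.2|) : False := by
  refine block hc (u := u) (v := v) ?_ hu hv
  rw [compl_compl]
  exact h

end NU53
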