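import Mathlib
import Pool.Agent.LibNU53.Mod

/-! Row R5 (MERGE). `mg G ω ω' = ω'` on `G`, `ω` off `G`. For a finite product `μ` of copies of a
probability measure, `(ω, ω') ↦ mg G ω ω'` sends `μ ⊗ μ` to `μ`.
PLAN. `Measure.pi_eq` on rectangles: the preimage of `∏ s_b` is
`(∏_{b ∉ G} s_b × univ) × (∏_{b ∈ G} s_b × univ)`. Then the Fubini forms. SHORT/MEDIUM. -/

open MeasureTheory ProbabilityTheory

namespace NU53

variable {B E : Type*} [Fintype B] [DecidableEq B] [MeasurableSpace E]

omit [Fintype B] in
private theorem r5_meas (G : Finset B) :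
    Measurable fun p : (B → E) × (B → E) => mg G p.1 p.2 := by
  rw [measurable_pi_iff]
  intro b
  unfold mg
  by_cases hb : b ∈ G
  · simp only [hb, if_true]
    exact (measurable_pi_apply b).comp measurable_snd
  · simp only [hb, if_false]
    exact (measurable_pi_apply b).comp measurable_fst

theorem mg_mp (ν : Measure E) [IsProbabilityMeasure ν] (G : Finset B) :
    MeasurePreserving (fun p : (B → E) × (B → E) => mg G p.1 p.2)
      ((Measure.pi fun _ : B => ν).prod (Measure.pi fun _ : B => ν)) (Measure.pi fun _ => ν) := by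
  refine ⟨r5_meas G, ?_⟩
  refine (Measure.pi_eq fun s hs => ?_).symm
  rw [Measure.map_apply (r5_meas G) (MeasurableSet.univ_pi hs)]
  have h1 : (fun p : (B → E) × (B → E) => mg G p.1 p.2) ⁻¹' Set.univ.pi s =
      (Set.univ.pi fun b => if b ∈ G then Set.univ else s b) ×ˢ
        (Set.univ.pi fun b => if b ∈ G then s b else Set.univ) := by
    ext p
    simp only [Set.mem_preimage, Set.mem_pi, Set.mem_univ, true_implies, Set.mem_prod, mg]
    constructor
    · intro h
      constructor
      · intro b
        have h2 := h b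
        by_cases hb : b ∈ G
        · simp [hb]
        · simpa [hb] using h2
      · intro b
        have h2 := h b
        by_cases hb : b ∈ G
        · simpa [hb] using h2
        · simp [hb]
    · rintro ⟨h2, h3⟩ b
      by_cases hb : b ∈ G
      · have := h3 b
        simpa [hb] using this
      · have := h2 b
        simpa [hb] using this
  rw [h1, Measure.prod_prod, Measure.pi_pi, Measure.pi_pi, ← Finset.prod_mul_distrib]
  refine Finset.prod_congr rfl fun b _ => ?_
  by_cases hb : b ∈ G
  · simp [hb]
  · simp [hb]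

/-- Fubini: integrate first the coordinates of `G`. -/
theorem mg_int (ν : Measure E) [IsProbabilityMeasure ν] (G : Finset B) (X : (B → E) → ℝ)
    (hX : Integrable X (Measure.pi fun _ : B => ν)) :
    ∫ ω, X ω ∂(Measure.pi fun _ : B => ν) =
      ∫ ω, ∫ ω', X (mg G ω ω') ∂(Measure.pi fun _ : B => ν) ∂(Measure.pi fun _ : B => ν) := by
  have hmp := mg_mp ν G
  have h1 : Integrable (fun p : (B → E) × (B → E) => X (mg G p.1 p.2))
      ((Measure.pi fun _ : B => ν).prod (Measure.pi fun _ : B => ν)) :=
    hmp.integrable_comp_of_integrable hX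
  have h2 : ∫ ω, X ω ∂(Measure.pi fun _ : B => ν) =
      ∫ p, X (mg G p.1 p.2) ∂((Measure.pi fun _ : B => ν).prod (Measure.pi fun _ : B => ν)) := by
    have h3 : AEStronglyMeasurable X (((Measure.pi fun _ : B => ν).prod
        (Measure.pi fun _ : B => ν)).map fun p : (B → E) × (B → E) => mg G p.1 p.2) := by
      rw [hmp.map_eq]
      exact hX.aestronglyMeasurable
    have h4 := integral_map hmp.measurable.aemeasurable h3
    rw [hmp.map_eq] at h4
    exact h4
  rw [h2, integral_prod _ h1]

/-- If `U` does not depend on the coordinates of `G` and `X` depends only on them, the integral of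
the product is the product of the integrals. -/
theorem mg_mul (ν : Measure E) [IsProbabilityMeasure ν] (G : Finset B) (U X : (B → E) → ℝ)
    (hU : Integrable U (Measure.pi fun _ : B => ν)) (hX : Integrable X (Measure.pi fun _ : B => ν))
    (dU : ∀ ω ω' : B → E, (∀ b, b ∉ G → ω b = ω' b) → U ω = U ω')
    (dX : ∀ ω ω' : B → E, (∀ b, b ∈ G → ω b = ω' b) → X ω = X ω') :
    ∫ ω, U ω * X ω ∂(Measure.pi fun _ : B => ν) =
      (∫ ω, U ω ∂(Measure.pi fun _ : B => ν)) * ∫ ω, X ω ∂(Measure.pi fun _ : B => ν) := by
  have hmp := mg_mp ν G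
  have h3 : AEStronglyMeasurable (fun ω => U ω * X ω) (((Measure.pi fun _ : B => ν).prod
      (Measure.pi fun _ : B => ν)).map fun p : (B → E) × (B → E) => mg G p.1 p.2) := by
    rw [hmp.map_eq]
    exact hU.aestronglyMeasurable.mul hX.aestronglyMeasurable
  have h4 := integral_map hmp.measurable.aemeasurable h3
  rw [hmp.map_eq] at h4
  rw [h4, ← integral_prod_mul]
  refine integral_congr_ae (Filter.Eventually.of_forall fun p => ?_)
  have e1 : U (mg G p.1 p.2) = U p.1 := dU _ _ fun b hb => by simp [mg, hb]
  have e2 : X (mg G p.1 p.2) = X p.2 := dX _ _ fun b hb => by simp [mg, hb]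
  simp only [e1, e2]

end NU53
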