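import Pool.Agent.LibNU53.R6

/-! Row R6b. The coarse field (levels in `(k, K]`, `k = e + s0 - q`) is flat on the scale `2^e`: the
probability that its total oscillation bound on `Sq x (3·2^e)` exceeds `δ σ_k` tends to `0` as `s0 → ∞`,
uniformly. PLAN. `∑_{j>k} E Osc(f_j) ≤ ∑_{j>k} C6 · 2^(e-q-j) σ_j ≤ C6 σ_k 2^(-s0) ∑ 2^(k-j)` and Markov
(`x ≤ exp x`). `2^e/2^(q+j) = 2^(-s0) 2^(k-j)` for `k = e+s0-q`. SHORT/MEDIUM. -/

open MeasureTheory ProbabilityTheory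

namespace NU53

/-- Sum of the oscillation bounds of the levels `j` with `k < j ≤ K`. -/
noncomputable def OscS (m : Mdl) (k K : ℕ) (ω : m.Om) (x : V) (N : ℕ) : ℝ :=
  ∑ j ∈ Finset.Ioc k K, Osc (m.f j ω) x N

private theorem r6b_sum (k K : ℕ) : ∑ j ∈ Finset.Ioc k K, (1 / 2 : ℝ) ^ (j - k) ≤ 1 := by
  have h : ∀ n : ℕ, ∑ j ∈ Finset.Ioc k (k + n), (1 / 2 : ℝ) ^ (j - k) = 1 - (1 / 2) ^ n := by
    intro n
    induction n with
    | zero => simp
    | succ n ih =>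
      rw [← add_assoc, ← Finset.insert_Ioc_right_eq_Ioc_add_one (by omega : k ≤ k + n),
        Finset.sum_insert (by simp), ih]
      have h1 : k + n + 1 - k = n + 1 := by omega
      rw [h1, pow_succ]
      ring
  by_cases hK : K ≤ k
  · rw [Finset.Ioc_eq_empty (by omega), Finset.sum_empty]
    norm_num
  · obtain ⟨n, rfl⟩ := Nat.exists_eq_add_of_le (not_le.1 hK).le
    rw [h n]
    have : (0 : ℝ) < (1 / 2) ^ n := by positivity
    linarith

theorem oscS_small (C c ε δ : ℝ) (hε : 0 < ε) (hδ : 0 < δ) : ∃ s00 : ℕ, ∀ s0 : ℕ, s00 ≤ s0 →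
    ∀ (α : ℝ) (q J : ℕ) (D : ℤ) (κ : ℕ → V → ℝ) (m : Mdl), IsMdl C c α q J D κ m →
    ∀ (e K : ℕ), q ≤ e + s0 → K ≤ J → ∀ x : V, Sq x (3 * 2 ^ e + 1) ⊆ Sq 0 D →
    m.mu.real {ω | δ * sg α (e + s0 - q) < OscS m (e + s0 - q) K ω x (3 * 2 ^ e)} ≤ ε := by
  obtain ⟨C6, hC6, hexp⟩ := osc_exp C c
  obtain ⟨s00, hs00⟩ := pow_unbounded_of_one_lt (C6 / (δ * ε)) (one_lt_two : (1 : ℝ) < 2)
  refine ⟨s00, fun s0 hs0 α q J D κ m hm e K hq hK x hx => ?_⟩
  have hkq : q + (e + s0 - q) = e + s0 := by omega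
  generalize e + s0 - q = k at hkq
  have hsg : ∀ j, 0 < sg α j := fun j => Real.rpow_pos_of_pos two_pos _
  set t : ℕ → ℝ := fun j => 2 ^ e / 2 ^ (q + j) * sg α j with ht
  have ht0 : ∀ j, 0 < t j := fun j => mul_pos (by positivity) (hsg j)
  have hsgk : ∀ j, k ≤ j → sg α j ≤ sg α k := by
    intro j hj
    refine Real.rpow_le_rpow_of_exponent_le one_le_two ?_
    have h1 : (k : ℝ) ≤ j := by exact_mod_cast hj
    have h2 : α * (k : ℝ) ≤ α * j := mul_le_mul_of_nonneg_left h1 hm.hα.1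
    linarith
  have htk : ∀ j, k ≤ j → t j ≤ sg α k * (1 / 2) ^ s0 * (1 / 2) ^ (j - k) := by
    intro j hj
    have h1 : (2 : ℝ) ^ e / 2 ^ (q + j) = (1 / 2) ^ s0 * (1 / 2) ^ (j - k) := by
      have h2 : q + j = e + s0 + (j - k) := by omega
      rw [h2, pow_add, pow_add, one_div_pow, one_div_pow]
      field_simp
    change 2 ^ e / 2 ^ (q + j) * sg α j ≤ _
    rw [h1]
    calc (1 / 2 : ℝ) ^ s0 * (1 / 2) ^ (j - k) * sg α j
        ≤ (1 / 2 : ℝ) ^ s0 * (1 / 2) ^ (j - k) * sg α k :=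
          mul_le_mul_of_nonneg_left (hsgk j hj) (by positivity)
      _ = sg α k * (1 / 2) ^ s0 * (1 / 2) ^ (j - k) := by ring
  have hE : ∀ j ∈ Finset.Ioc k K,
      Integrable (fun ω => Real.exp (Osc (m.f j ω) x (3 * 2 ^ e) / t j)) m.mu ∧
      ∫ ω, Real.exp (Osc (m.f j ω) x (3 * 2 ^ e) / t j) ∂m.mu ≤ C6 := by
    intro j hj
    have hj' := Finset.mem_Ioc.1 hj
    exact hexp α q J D κ m hm j e (by omega) (by omega) x hx
  have hYint : Integrable (fun ω => ∑ j ∈ Finset.Ioc k K,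
      t j * Real.exp (Osc (m.f j ω) x (3 * 2 ^ e) / t j)) m.mu :=
    integrable_finsetSum _ fun j hj => (hE j hj).1.const_mul _
  have hYle : ∫ ω, ∑ j ∈ Finset.Ioc k K,
      t j * Real.exp (Osc (m.f j ω) x (3 * 2 ^ e) / t j) ∂m.mu ≤
      C6 * (sg α k * (1 / 2) ^ s0) := by
    rw [integral_finsetSum _ fun j hj => (hE j hj).1.const_mul _]
    calc ∑ j ∈ Finset.Ioc k K, ∫ ω, t j * Real.exp (Osc (m.f j ω) x (3 * 2 ^ e) / t j) ∂m.mu
        ≤ ∑ j ∈ Finset.Ioc k K, (sg α k * (1 / 2) ^ s0 * (1 / 2) ^ (j - k)) * C6 := by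
          refine Finset.sum_le_sum fun j hj => ?_
          rw [integral_const_mul]
          have hj' := Finset.mem_Ioc.1 hj
          exact mul_le_mul (htk j hj'.1.le) (hE j hj).2
            (integral_nonneg fun _ => (Real.exp_pos _).le) (by
              have := (hsg k).le
              positivity)
      _ = C6 * (sg α k * (1 / 2) ^ s0) * ∑ j ∈ Finset.Ioc k K, (1 / 2 : ℝ) ^ (j - k) := by
          rw [Finset.mul_sum]
          exact Finset.sum_congr rfl fun j _ => by ring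
      _ ≤ C6 * (sg α k * (1 / 2) ^ s0) * 1 :=
          mul_le_mul_of_nonneg_left (r6b_sum k K) (by
            have := (hsg k).le
            positivity)
      _ = C6 * (sg α k * (1 / 2) ^ s0) := mul_one _
  have hOsc : ∀ ω, OscS m k K ω x (3 * 2 ^ e) ≤ ∑ j ∈ Finset.Ioc k K,
      t j * Real.exp (Osc (m.f j ω) x (3 * 2 ^ e) / t j) := by
    intro ω
    refine Finset.sum_le_sum fun j _ => ?_
    have h1 := Real.add_one_le_exp (Osc (m.f j ω) x (3 * 2 ^ e) / t j)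
    have h2 : Osc (m.f j ω) x (3 * 2 ^ e) / t j ≤
        Real.exp (Osc (m.f j ω) x (3 * 2 ^ e) / t j) := by linarith
    have h3 := mul_le_mul_of_nonneg_left h2 (ht0 j).le
    rwa [mul_div_cancel₀ _ (ht0 j).ne'] at h3
  have hY0 : ∀ ω, 0 ≤ ∑ j ∈ Finset.Ioc k K,
      t j * Real.exp (Osc (m.f j ω) x (3 * 2 ^ e) / t j) := fun ω =>
    Finset.sum_nonneg fun j _ => mul_nonneg (ht0 j).le (Real.exp_pos _).le
  have hM := mul_meas_ge_le_integral_of_nonneg (Filter.Eventually.of_forall hY0) hYint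
    (δ * sg α k)
  have hsub : m.mu.real {ω | δ * sg α k < OscS m k K ω x (3 * 2 ^ e)} ≤
      m.mu.real {ω | δ * sg α k ≤ ∑ j ∈ Finset.Ioc k K,
        t j * Real.exp (Osc (m.f j ω) x (3 * 2 ^ e) / t j)} :=
    measureReal_mono fun ω hω => (le_of_lt hω).trans (hOsc ω)
  have hpos : 0 < δ * sg α k := mul_pos hδ (hsg k)
  have hfin : C6 * (sg α k * (1 / 2) ^ s0) ≤ δ * sg α k * ε := by
    have h1 : C6 / (δ * ε) ≤ 2 ^ s0 :=
      hs00.le.trans (pow_le_pow_right₀ one_le_two hs0)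
    rw [div_le_iff₀ (by positivity)] at h1
    have h2 : C6 * (1 / 2) ^ s0 ≤ δ * ε := by
      rw [one_div_pow, mul_one_div, div_le_iff₀ (by positivity)]
      linarith
    calc C6 * (sg α k * (1 / 2) ^ s0) = sg α k * (C6 * (1 / 2) ^ s0) := by ring
      _ ≤ sg α k * (δ * ε) := mul_le_mul_of_nonneg_left h2 (hsg k).le
      _ = δ * sg α k * ε := by ring
  have hall := (mul_le_mul_of_nonneg_left hsub hpos.le).trans (hM.trans (hYle.trans hfin))
  exact le_of_mul_le_mul_left hall hpos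

end NU53
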