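import Pool.Agent.LibNU53.R4
import Pool.Agent.LibNU53.R5
import Pool.Agent.LibNU53.R6b
import Pool.Agent.LibNU53.Sym

/-! Row P2 (GEOMETRY OF THE CONDITIONING).
`Gb m k x N` = blocks of level `≤ k` with position in `Sq x N`. With `k = e+s0-q` and `N = 2^(e+s0+2)`:
(1) on `Sq x (3·2^e)` the levels `≤ k` only use blocks of `Gb`: the range is
`2^(q+k+1) = 2^(e+s0+1)` and `3·2^e + 2^(e+s0+1) ≤ 2^(e+s0+2)` (`s0 ≥ 2`), so
`F K (mg Gb ω ω') v = H ω v + F k ω' v`, `H` = levels in `(k,K]`;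
(2) at sup-distance `≥ 2^(e+s0+4)` from `x` nothing depends on `Gb`:
`2^(e+s0+2) + 2^(e+s0+1) < 2^(e+s0+4)`.
(3) if the oscillation of the coarse part at `ω` is at most `δ σ_k`, then over fresh `ω'` a monochromatic
circuit of level `l` at scale `e` around `x` exists with probability `≥ ρ - C₄ δ`: if `H ω x ≥ l` then
`{F K > l} ⊇ {F k ω' > δσ_k}` on the square, otherwise `{F K ≤ l} ⊇ {F k ω' < -δσ_k}` (`pr_neg`);
`P(Circ e x) = P(Circ e 0)` (`circ_tr`, `pr_map`), `shift` with `N = 3·2^e ≤ c 2^(e+s0)`. MEDIUM/STRONG. -/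

open MeasureTheory ProbabilityTheory

namespace NU53

open Classical in
/-- Blocks of level at most `k` near `x`. -/
noncomputable def Mdl.Gb (m : Mdl) (k : ℕ) (x : V) (N : ℤ) : Finset m.B :=
  Finset.univ.filter fun b => m.lev b ≤ k ∧ m.pos b ∈ Sq x N

/-- The field of the levels in `(k, K]`. -/
noncomputable def Mdl.H (m : Mdl) (k K : ℕ) (ω : m.Om) (v : V) : ℝ :=
  m.fl (m.le K \ m.le k) ω v

/-- A monochromatic circuit of level `l` at scale `e` around `x`. -/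
def Mono (m : Mdl) (K : ℕ) (e : ℕ) (x : V) (l : ℝ) : Set m.Om :=
  {ω | Circ e x {v | l < m.F K ω v} ∨ Circ e x {v | m.F K ω v ≤ l}}

variable {C c α : ℝ} {q J : ℕ} {D : ℤ} {κ : ℕ → V → ℝ} {m : Mdl}

/-- positivity of the amplitude -/
private lemma p2_sg_pos (α : ℝ) (j : ℕ) : 0 < sg α j := Real.rpow_pos_of_pos (by norm_num) _

/-- the range of a block of low level -/
private lemma p2_range (h : IsMdl C c α q J D κ m) {e s0 : ℕ} (hq : q ≤ e + s0) {b : m.B}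
    (hb : m.lev b ≤ e + s0 - q) {i : Fin m.M} {v : V} (ha : m.a b i v ≠ 0) :
    |v.1 - (m.pos b).1| ≤ 2 ^ (e + s0 + 1) ∧ |v.2 - (m.pos b).2| ≤ 2 ^ (e + s0 + 1) := by
  have h1 := h.loc b i v ha
  have h2 : (2 : ℤ) ^ (q + m.lev b + 1) ≤ 2 ^ (e + s0 + 1) :=
    pow_le_pow_right₀ (by norm_num) (by omega)
  obtain ⟨⟨x1, x2⟩, x3, x4⟩ := h1
  exact ⟨abs_le.2 ⟨by omega, by omega⟩, abs_le.2 ⟨by omega, by omega⟩⟩

private lemma p2_mem_Gb {k : ℕ} {x : V} {N : ℤ} {b : m.B} :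
    b ∈ m.Gb k x N ↔ m.lev b ≤ k ∧ m.pos b ∈ Sq x N := by
  simp only [Mdl.Gb, Finset.mem_filter, Finset.mem_univ, true_and]

private lemma p2_mem_le {k : ℕ} {b : m.B} : b ∈ m.le k ↔ m.lev b ≤ k := by
  unfold Mdl.le
  rw [Finset.mem_filter]
  exact ⟨fun h => h.2, fun h => ⟨Finset.mem_univ _, h⟩⟩

private lemma p2_mem_eq {k : ℕ} {b : m.B} : b ∈ m.eq k ↔ m.lev b = k := by
  unfold Mdl.eq
  rw [Finset.mem_filter]
  exact ⟨fun h => h.2, fun h => ⟨Finset.mem_univ _, h⟩⟩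

theorem F_merge (h : IsMdl C c α q J D κ m) {e s0 K : ℕ} (hs : 2 ≤ s0) (hq : q ≤ e + s0)
    (hK : e + s0 - q ≤ K) {x v : V} (hv : v ∈ Sq x (3 * 2 ^ e)) (ω ω' : m.Om) :
    m.F K (mg (m.Gb (e + s0 - q) x (2 ^ (e + s0 + 2))) ω ω') v =
      m.H (e + s0 - q) K ω v + m.F (e + s0 - q) ω' v := by
  have hsub : m.le (e + s0 - q) ⊆ m.le K := fun b hb =>
    p2_mem_le.2 ((p2_mem_le.1 hb).trans hK)
  unfold Mdl.F Mdl.H Mdl.fl
  rw [← Finset.sum_sdiff hsub]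
  congr 1
  · refine Finset.sum_congr rfl fun b hb => Finset.sum_congr rfl fun i _ => ?_
    have h1 : b ∉ m.Gb (e + s0 - q) x (2 ^ (e + s0 + 2)) := fun h1 =>
      (Finset.mem_sdiff.1 hb).2 (p2_mem_le.2 (p2_mem_Gb.1 h1).1)
    unfold mg
    rw [if_neg h1]
  · refine Finset.sum_congr rfl fun b hb => Finset.sum_congr rfl fun i _ => ?_
    by_cases h1 : b ∈ m.Gb (e + s0 - q) x (2 ^ (e + s0 + 2))
    · unfold mg
      rw [if_pos h1]
    · have h2 : m.a b i v = 0 := by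
        by_contra h3
        apply h1
        refine p2_mem_Gb.2 ⟨p2_mem_le.1 hb, ?_⟩
        obtain ⟨h4, h5⟩ := p2_range h hq (p2_mem_le.1 hb) h3
        have h6 : (2 : ℤ) ^ (e + s0 + 1) = 2 ^ e * 2 ^ (s0 + 1) := by rw [← pow_add]; rfl
        have h7 : (8 : ℤ) ≤ 2 ^ (s0 + 1) := by
          calc (8 : ℤ) = 2 ^ 3 := by norm_num
            _ ≤ 2 ^ (s0 + 1) := pow_le_pow_right₀ (by norm_num) (by omega)
        have h8 : (0 : ℤ) < 2 ^ e := by positivity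
        have h9 : 3 * (2 : ℤ) ^ e ≤ 2 ^ (e + s0 + 1) := by
          rw [h6]
          nlinarith
        have h10 : (2 : ℤ) ^ (e + s0 + 2) = 2 * 2 ^ (e + s0 + 1) := by rw [pow_succ']
        obtain ⟨⟨x1, x2⟩, x3, x4⟩ := hv
        have y1 := abs_le.1 h4
        have y2 := abs_le.1 h5
        refine ⟨⟨?_, ?_⟩, ?_, ?_⟩ <;> omega
      rw [h2, zero_mul, zero_mul]

theorem F_indep (h : IsMdl C c α q J D κ m) {e s0 K : ℕ} (hs : 2 ≤ s0) (hq : q ≤ e + s0)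
    {x v : V} (hv : 2 ^ (e + s0 + 4) ≤ |v.1 - x.1| ∨ 2 ^ (e + s0 + 4) ≤ |v.2 - x.2|)
    (ω ω' : m.Om)
    (he : ∀ b, b ∉ m.Gb (e + s0 - q) x (2 ^ (e + s0 + 2)) → ω b = ω' b) :
    m.F K ω v = m.F K ω' v := by
  unfold Mdl.F Mdl.fl
  refine Finset.sum_congr rfl fun b _ => Finset.sum_congr rfl fun i _ => ?_
  by_cases h1 : b ∈ m.Gb (e + s0 - q) x (2 ^ (e + s0 + 2))
  · have h2 : m.a b i v = 0 := by
      by_contra h3
      obtain ⟨h4, h5⟩ := p2_mem_Gb.1 h1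
      obtain ⟨h6, h7⟩ := p2_range h hq h4 h3
      have h8 : (0 : ℤ) < 2 ^ (e + s0 + 1) := by positivity
      have h9 : (2 : ℤ) ^ (e + s0 + 2) = 2 * 2 ^ (e + s0 + 1) := by rw [pow_succ']
      have h10 : (2 : ℤ) ^ (e + s0 + 4) = 8 * 2 ^ (e + s0 + 1) := by
        rw [show e + s0 + 4 = (e + s0 + 1) + 3 by omega, pow_add]
        ring
      rw [h9] at h5
      rw [h10] at hv
      obtain ⟨⟨x1, x2⟩, x3, x4⟩ := h5
      have y1 := abs_le.1 h6
      have y2 := abs_le.1 h7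
      rcases hv with hv | hv
      · rcases le_abs.1 hv with hv | hv <;> omega
      · rcases le_abs.1 hv with hv | hv <;> omega
    rw [h2, zero_mul, zero_mul]
  · rw [he b h1]

/-- `Mono` at the scale `e'` does not depend on the inner blocks. -/
theorem mono_indep (h : IsMdl C c α q J D κ m) {e e' s0 K : ℕ} (hs : 2 ≤ s0)
    (hq : q ≤ e + s0) (he : e + s0 + 4 ≤ e') (x : V) (l : ℝ) (ω ω' : m.Om)
    (hb : ∀ b, b ∉ m.Gb (e + s0 - q) x (2 ^ (e + s0 + 2)) → ω b = ω' b) :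
    ω ∈ Mono m K e' x l ↔ ω' ∈ Mono m K e' x l := by
  have hp : (0 : ℤ) < 2 ^ (e + s0 + 4) := by positivity
  have hle : (2 : ℤ) ^ (e + s0 + 4) ≤ 2 ^ e' := pow_le_pow_right₀ (by norm_num) he
  obtain ⟨Λ, hΛ⟩ : ∃ Λ : Set V, Λ = {v | 2 ^ (e + s0 + 4) ≤ |v.1 - x.1| ∨
    2 ^ (e + s0 + 4) ≤ |v.2 - x.2|} := ⟨_, rfl⟩
  have hloc : Loc Λ (Circ e' x) := by
    rintro S S' hSS ⟨h1, h2, h3, h4⟩
    refine ⟨LR.loc (fun v hv => ?_) S S' hSS h1, LR.loc (fun v hv => ?_) S S' hSS h2,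
      TB.loc (fun v hv => ?_) S S' hSS h3, TB.loc (fun v hv => ?_) S S' hSS h4⟩
    · rw [hΛ]
      exact Or.inr (le_abs.2 (Or.inl (by have := hv.2.1; omega)))
    · rw [hΛ]
      exact Or.inr (le_abs.2 (Or.inr (by have := hv.2.2; omega)))
    · rw [hΛ]
      exact Or.inl (le_abs.2 (Or.inr (by have := hv.1.2; omega)))
    · rw [hΛ]
      exact Or.inl (le_abs.2 (Or.inl (by have := hv.1.1; omega)))
  have hF : ∀ v ∈ Λ, m.F K ω v = m.F K ω' v := fun v hv =>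
    F_indep h hs hq (by rw [hΛ] at hv; exact hv) ω ω' hb
  have e1 : {v | l < m.F K ω v} ∩ Λ = {v | l < m.F K ω' v} ∩ Λ := by
    ext v
    constructor
    · rintro ⟨h1, h2⟩
      exact ⟨by rw [Set.mem_ofPred_eq, ← hF v h2]; exact h1, h2⟩
    · rintro ⟨h1, h2⟩
      exact ⟨by rw [Set.mem_ofPred_eq, hF v h2]; exact h1, h2⟩
  have e2 : {v | m.F K ω v ≤ l} ∩ Λ = {v | m.F K ω' v ≤ l} ∩ Λ := by
    ext v
    constructor
    · rintro ⟨h1, h2⟩
      exact ⟨by rw [Set.mem_ofPred_eq, ← hF v h2]; exact h1, h2⟩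
    · rintro ⟨h1, h2⟩
      exact ⟨by rw [Set.mem_ofPred_eq, hF v h2]; exact h1, h2⟩
  exact or_congr (hloc.iff e1) (hloc.iff e2)

/-- `OscS` does not depend on the inner blocks. -/
theorem osc_indep (h : IsMdl C c α q J D κ m) {e s0 K : ℕ} (x y : V) (N : ℕ) (L : ℤ)
    (ω ω' : m.Om) (hb : ∀ b, b ∉ m.Gb (e + s0 - q) x L → ω b = ω' b) :
    OscS m (e + s0 - q) K ω y N = OscS m (e + s0 - q) K ω' y N := by
  unfold OscS
  refine Finset.sum_congr rfl fun j hj => ?_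
  have h1 : m.f j ω = m.f j ω' := by
    funext v
    unfold Mdl.f Mdl.fl
    refine Finset.sum_congr rfl fun b hbj => ?_
    have h2 : b ∉ m.Gb (e + s0 - q) x L := by
      intro h3
      have h4 := (p2_mem_Gb.1 h3).1
      have h5 := p2_mem_eq.1 hbj
      have h6 := (Finset.mem_Ioc.1 hj).1
      omega
    rw [hb b h2]
  rw [h1]

theorem mono_meas (m : Mdl) (K e : ℕ) (x : V) (l : ℝ) : MeasurableSet (Mono m K e x l) := by
  have h1 : MeasurableSet {ω : m.Om | Circ e x {v | l < m.F K ω v}} :=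
    meas_gt (Sq_finite x (3 * 2 ^ e)) (Circ.loc le_rfl) (fun v ω => m.F K ω v)
      (fun v _ => meas_fl m (m.le K) v) l
  have h2 : MeasurableSet {ω : m.Om | Circ e x {v | m.F K ω v ≤ l}} :=
    meas_le (Sq_finite x (3 * 2 ^ e)) (Circ.loc le_rfl) (fun v ω => m.F K ω v)
      (fun v _ => meas_fl m (m.le K) v) l
  exact h1.union h2

/-- the field of the levels in `(k, K]` is the sum of the fields of the levels -/
private lemma p2_H (m : Mdl) (k K : ℕ) (ω : m.Om) (v : V) :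
    m.H k K ω v = ∑ j ∈ Finset.Ioc k K, m.f j ω v := by
  unfold Mdl.H Mdl.f Mdl.fl
  have hmaps : ∀ b ∈ m.le K \ m.le k, m.lev b ∈ Finset.Ioc k K := by
    intro b hb
    obtain ⟨h1, h2⟩ := Finset.mem_sdiff.1 hb
    rw [p2_mem_le] at h1 h2
    exact Finset.mem_Ioc.2 ⟨by omega, h1⟩
  rw [← Finset.sum_fiberwise_of_maps_to hmaps]
  refine Finset.sum_congr rfl fun j hj => ?_
  have h3 : (m.le K \ m.le k).filter (fun b => m.lev b = j) = m.eq j := by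
    ext b
    rw [Finset.mem_filter, Finset.mem_sdiff, p2_mem_le, p2_mem_le, p2_mem_eq]
    have h4 := Finset.mem_Ioc.1 hj
    constructor
    · exact fun h => h.2
    · intro h
      exact ⟨⟨by omega, by omega⟩, h⟩
  rw [h3]

private lemma p2_H_osc (m : Mdl) (k K : ℕ) (ω : m.Om) {x v : V} {N : ℕ} (hv : v ∈ Sq x N) :
    |m.H k K ω v - m.H k K ω x| ≤ OscS m k K ω x N := by
  rw [p2_H, p2_H, ← Finset.sum_sub_distrib]
  exact (Finset.abs_sum_le_sum_abs _ _).trans (Finset.sum_le_sum fun j _ => osc_le _ _ _ hv)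

theorem cond (C c ρ : ℝ) (hc : 0 < c) (hρ : 0 < ρ) (hρ1 : ρ ≤ 1) : ∃ δ : ℝ, 0 < δ ∧ ∃ s00 : ℕ,
    2 ≤ s00 ∧ ∀ s0 : ℕ, s00 ≤ s0 → ∀ (α : ℝ) (q J : ℕ) (D : ℤ) (κ : ℕ → V → ℝ) (m : Mdl),
    IsMdl C c α q J D κ m → ∀ (e K : ℕ), q ≤ e + s0 → e + s0 - q ≤ K → K ≤ J → ∀ x : V, Ev x →
    Sq x (3 * 2 ^ e + 1) ⊆ Sq 0 D → Sq 0 (3 * 2 ^ e + 1) ⊆ Sq 0 D →
    ρ ≤ m.Pr (e + s0 - q) 0 (Circ e 0) → ∀ (l : ℝ) (ω : m.Om),
    OscS m (e + s0 - q) K ω x (3 * 2 ^ e) ≤ δ * sg α (e + s0 - q) →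
    ρ / 2 ≤ m.mu.real
      {ω' | mg (m.Gb (e + s0 - q) x (2 ^ (e + s0 + 2))) ω ω' ∈ Mono m K e x l} := by
  obtain ⟨C4, hC4, hshift⟩ := shift C c
  obtain ⟨n, hn⟩ := pow_unbounded_of_one_lt (3 / c) (by norm_num : (1 : ℝ) < 2)
  refine ⟨ρ / (2 * C4), by positivity, max n 2, le_max_right _ _, ?_⟩
  intro s0 hs0 α q J D κ m hm e K hq hK hKJ x hx hxD h0D hcirc l ω hosc
  have hs2 : 2 ≤ s0 := (le_max_right _ _).trans hs0
  have hkJ : e + s0 - q ≤ J := hK.trans hKJ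
  have hσ := p2_sg_pos α (e + s0 - q)
  have hδσ : 0 ≤ ρ / (2 * C4) * sg α (e + s0 - q) := by positivity
  -- the squares
  have hsq : ∀ y : V, Sq y (3 * 2 ^ e) ⊆ Sq y (3 * 2 ^ e + 1) := fun y =>
    Box_subset (by omega) (by omega) (by omega) (by omega)
  have h3e : (0 : ℤ) < 3 * 2 ^ e := by positivity
  have hxD' : Sq x (3 * 2 ^ e) ⊆ Sq 0 D := (hsq x).trans hxD
  have hx0 : x ∈ Sq 0 D := hxD' ⟨⟨by omega, by omega⟩, by omega, by omega⟩
  -- scale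
  have hscale : ((3 * 2 ^ e : ℤ) : ℝ) ≤ c * 2 ^ (q + (e + s0 - q)) := by
    rw [show q + (e + s0 - q) = e + s0 by omega]
    push_cast
    have h1 : 3 / c ≤ (2 : ℝ) ^ s0 := hn.le.trans
      (pow_le_pow_right₀ (by norm_num) ((le_max_left _ _).trans hs0))
    rw [div_le_iff₀ hc] at h1
    calc (3 : ℝ) * 2 ^ e ≤ (2 ^ s0 * c) * 2 ^ e := mul_le_mul_of_nonneg_right h1 (by positivity)
      _ = c * 2 ^ (e + s0) := by rw [pow_add]; ring
  -- translation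
  have htr : m.Pr (e + s0 - q) 0 (Circ e x) = m.Pr (e + s0 - q) 0 (Circ e 0) := by
    have h1 : (Circ e x) = fun S => Circ e 0 (tr x ⁻¹' S) := by
      funext S
      have h2 := circ_tr hx e 0 S
      rw [zero_add] at h2
      exact propext h2
    rw [h1]
    refine pr_map hm hkJ 0 (Circ.loc (le_refl (Sq 0 (3 * 2 ^ e)))) ((hsq 0).trans h0D) (tr x) ?_ ?_
    · intro u hu
      apply hxD'
      obtain ⟨⟨u1, u2⟩, u3, u4⟩ := hu
      have z1 : ((0 : V)).1 = 0 := rfl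
      have z2 : ((0 : V)).2 = 0 := rfl
      rw [z1] at u1 u2
      rw [z2] at u3 u4
      have t1 : (tr x u).1 = u.1 + x.1 := rfl
      have t2 : (tr x u).2 = u.2 + x.2 := rfl
      refine ⟨⟨?_, ?_⟩, ?_, ?_⟩ <;> omega
    · intro j u _ v _
      congr 1
      show u + x - (v + x) = u - v
      abel
  have hsh := hshift α q J D κ m hm (e + s0 - q) hkJ x (3 * 2 ^ e) hscale hxD' hx0 (Circ e x)
    (Circ.inc e x) (Circ.loc le_rfl) _ hδσ
  have hval : C4 * (ρ / (2 * C4) * sg α (e + s0 - q) / sg α (e + s0 - q)) = ρ / 2 := by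
    rw [mul_div_assoc, div_self hσ.ne', mul_one]
    field_simp
  rw [htr, hval] at hsh
  have hlow : ρ / 2 ≤ m.Pr (e + s0 - q) (ρ / (2 * C4) * sg α (e + s0 - q)) (Circ e x) := by
    linarith
  -- the flat part
  have hflat : ∀ v ∈ Sq x (3 * 2 ^ e), |m.H (e + s0 - q) K ω v - m.H (e + s0 - q) K ω x| ≤
      ρ / (2 * C4) * sg α (e + s0 - q) := by
    intro v hv
    refine (p2_H_osc m _ K ω ?_).trans hosc
    push_cast
    exact hv
  have hcirc2 : ∀ S S' : Set V, S ∩ Sq x (3 * 2 ^ e) ⊆ S' → Circ e x S → Circ e x S' := by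
    intro S S' hSS hS
    have h1 : Circ e x (S ∩ Sq x (3 * 2 ^ e)) :=
      Circ.loc (le_refl (Sq x (3 * 2 ^ e))) S _ (by
        rw [Set.inter_assoc, Set.inter_self]) hS
    exact h1.mono hSS
  by_cases hl : l ≤ m.H (e + s0 - q) K ω x
  · refine hlow.trans (measureReal_mono ?_)
    intro ω' hω'
    left
    refine hcirc2 _ _ ?_ hω'
    rintro v ⟨hv1, hv2⟩
    show l < m.F K _ v
    rw [F_merge hm hs2 hq hK hv2]
    have h1 := (abs_le.1 (hflat v hv2)).1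
    have h2 : ρ / (2 * C4) * sg α (e + s0 - q) < m.F (e + s0 - q) ω' v := hv1
    linarith
  · push Not at hl
    rw [← pr_neg hm hkJ _ (Circ.loc (le_refl (Sq x (3 * 2 ^ e)))) hxD'] at hlow
    refine hlow.trans (measureReal_mono ?_)
    intro ω' hω'
    right
    refine hcirc2 _ _ ?_ hω'
    rintro v ⟨hv1, hv2⟩
    show m.F K _ v ≤ l
    rw [F_merge hm hs2 hq hK hv2]
    have h1 := (abs_le.1 (hflat v hv2)).2
    have h2 : m.F (e + s0 - q) ω' v < -(ρ / (2 * C4) * sg α (e + s0 - q)) := hv1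
    linarith

end NU53
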