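import Pool.Agent.LibNU53.R6b
import Pool.Agent.LibNU53.R5

/-! Row P3 (COUNTING THE SCALES WITH LARGE OSCILLATION). `e i` strictly increasing scales,
`k i = e i + s0 - q`. The number of `i < n` with `OscS (k i) K … > δ σ_{k i}` exceeds `n/2` with
probability at most `exp (-n)`, if `s0` is large.
PLAN. With `V i j = Osc (f_j) x (3·2^(e i)) / (2^(e i)/2^(q+j) σ_j)` (`osc_exp`: `E exp V ≤ C6`),
`OscS ≤ σ_{k i} 2^(-s0) ∑_{j > k i} 2^(-(j-k i)) V i j` (`σ_j ≤ σ_{k i}`,
`2^(e i)/2^(q+j) = 2^(-s0) 2^(-(j - k i))`). So the number is at most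
`(2^(-s0)/δ) ∑_j ∑_{i : k i < j} 2^(-(j-k i)) V i j`. For fixed `j` the weights
`2^(-(j-k i))` have sum `w_j ≤ 1` (the `k i` are distinct) and `∑_j w_j ≤ n`. By convexity of `exp`
(`exp(∑ w_i V_i) ≤ 1 - w + ∑ w_i exp V_i` for weights of sum `w ≤ 1`) the expectation of
`exp(∑_i 2^(-(j-k i)) V i j)` is `≤ 1 + w_j (C6 - 1) ≤ exp(w_j C6)`. The levels are independent
(`mg_mul`, induction on `j`): the expectation of the product over `j ≤ K` is `≤ exp(C6 n)`. Markov:
`P ≤ exp(C6 n - δ 2^(s0) n/2) ≤ exp(-n)` for `2^(s0) ≥ 2(C6+1)/δ`. STRONG. -/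

open MeasureTheory ProbabilityTheory

namespace NU53

private theorem p3_w1 (n j : ℕ) (k : ℕ → ℕ) (hk : StrictMono k) :
    ∑ i ∈ (Finset.range n).filter (fun i => k i < j), (1 / 2 : ℝ) ^ (j - k i) ≤ 1 := by
  have h1 : ∑ i ∈ (Finset.range n).filter (fun i => k i < j), 2 ^ (k i) < 2 ^ j := by
    rw [← Finset.sum_image (f := fun t : ℕ => 2 ^ t) (g := k)
      (fun a _ b _ h => hk.injective h)]
    refine Nat.geomSum_lt (le_refl 2) ?_
    intro t ht
    rw [Finset.mem_image] at ht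
    obtain ⟨i, hi, rfl⟩ := ht
    exact (Finset.mem_filter.mp hi).2
  have h2 : ∑ i ∈ (Finset.range n).filter (fun i => k i < j), (2 : ℝ) ^ (k i) ≤ 2 ^ j := by
    exact_mod_cast h1.le
  have h3 : ∀ i ∈ (Finset.range n).filter (fun i => k i < j),
      (1 / 2 : ℝ) ^ (j - k i) = 2 ^ (k i) / 2 ^ j := by
    intro i hi
    have hlt := (Finset.mem_filter.mp hi).2
    obtain ⟨t, rfl⟩ : ∃ t, j = k i + t := ⟨j - k i, by omega⟩
    rw [Nat.add_sub_cancel_left, pow_add, one_div, inv_pow]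
    field_simp
  rw [Finset.sum_congr rfl h3, ← Finset.sum_div, div_le_one (by positivity)]
  exact h2

private theorem p3_w2 (k K : ℕ) :
    ∑ j ∈ (Finset.range (K + 1)).filter (fun j => k < j), (1 / 2 : ℝ) ^ (j - k) ≤
      1 - (1 / 2 : ℝ) ^ (K - k) := by
  induction K with
  | zero =>
    have h0 : (Finset.range (0 + 1)).filter (fun j => k < j) = ∅ := by
      refine Finset.filter_eq_empty_iff.mpr ?_
      intro j hj
      have := Finset.mem_range.mp hj
      omega
    rw [h0]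
    simp
  | succ K ih =>
    rw [Finset.range_add_one, Finset.filter_insert]
    by_cases h : k < K + 1
    · rw [if_pos h, Finset.sum_insert (by simp)]
      have h1 : K + 1 - k = (K - k) + 1 := by omega
      rw [h1, pow_succ]
      linarith
    · rw [if_neg h]
      have h1 : K + 1 - k = 0 := by omega
      have h2 : K - k = 0 := by omega
      rw [h1]
      rw [h2] at ih
      exact ih

private theorem p3_conv {ι : Type*} (s : Finset ι) (w v : ι → ℝ) (hw : ∀ i ∈ s, 0 ≤ w i)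
    (hw1 : ∑ i ∈ s, w i ≤ 1) :
    Real.exp (∑ i ∈ s, w i * v i) ≤ 1 - ∑ i ∈ s, w i + ∑ i ∈ s, w i * Real.exp (v i) := by
  set S := ∑ i ∈ s, w i * v i with hS
  have h1 : ∀ i ∈ s, w i * (Real.exp S * (1 + v i - S)) ≤ w i * Real.exp (v i) := by
    intro i hi
    refine mul_le_mul_of_nonneg_left ?_ (hw i hi)
    have h2 := Real.add_one_le_exp (v i - S)
    have h3 : Real.exp (v i) = Real.exp S * Real.exp (v i - S) := by
      rw [← Real.exp_add]
      congr 1
      ring
    rw [h3]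
    refine mul_le_mul_of_nonneg_left ?_ (Real.exp_pos _).le
    linarith
  have h2 := Finset.sum_le_sum h1
  have h3 : ∑ i ∈ s, w i * (Real.exp S * (1 + v i - S)) =
      Real.exp S * (∑ i ∈ s, w i + S - (∑ i ∈ s, w i) * S) := by
    have : ∀ i ∈ s, w i * (Real.exp S * (1 + v i - S)) =
        Real.exp S * (w i + w i * v i - w i * S) := fun i _ => by ring
    rw [Finset.sum_congr rfl this, ← Finset.mul_sum, Finset.sum_sub_distrib,
      Finset.sum_add_distrib, ← hS, Finset.sum_mul]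
  have h4 : Real.exp S * (1 - S) ≤ 1 := by
    have h5 := Real.add_one_le_exp (-S)
    have h6 : Real.exp S * Real.exp (-S) = 1 := by
      rw [← Real.exp_add]
      simp
    calc Real.exp S * (1 - S) ≤ Real.exp S * Real.exp (-S) :=
          mul_le_mul_of_nonneg_left (by linarith) (Real.exp_pos _).le
      _ = 1 := h6
  have h5 : (1 - ∑ i ∈ s, w i) * (Real.exp S * (1 - S)) ≤ (1 - ∑ i ∈ s, w i) * 1 :=
    mul_le_mul_of_nonneg_left h4 (by linarith)
  rw [h3] at h2
  nlinarith

private theorem p3_int {Ω ι : Type*} [MeasurableSpace Ω] (μ : Measure Ω) [IsProbabilityMeasure μ]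
    (s : Finset ι) (w : ι → ℝ) (v : ι → Ω → ℝ) (hw : ∀ i ∈ s, 0 ≤ w i)
    (hw1 : ∑ i ∈ s, w i ≤ 1) (C6 : ℝ)
    (hm : ∀ i ∈ s, Measurable (v i)) (hi : ∀ i ∈ s, Integrable (fun ω => Real.exp (v i ω)) μ)
    (hb : ∀ i ∈ s, ∫ ω, Real.exp (v i ω) ∂μ ≤ C6) :
    Integrable (fun ω => Real.exp (∑ i ∈ s, w i * v i ω)) μ ∧
      ∫ ω, Real.exp (∑ i ∈ s, w i * v i ω) ∂μ ≤ Real.exp (C6 * ∑ i ∈ s, w i) := by
  have hI : Integrable (fun ω => 1 - ∑ i ∈ s, w i + ∑ i ∈ s, w i * Real.exp (v i ω)) μ := by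
    refine (integrable_const _).add ?_
    exact integrable_finsetSum _ (fun i h => (hi i h).const_mul _)
  have hle : ∀ ω, Real.exp (∑ i ∈ s, w i * v i ω) ≤
      1 - ∑ i ∈ s, w i + ∑ i ∈ s, w i * Real.exp (v i ω) := fun ω => p3_conv s w _ hw hw1
  have hmeas : Measurable (fun ω => Real.exp (∑ i ∈ s, w i * v i ω)) :=
    Real.measurable_exp.comp (Finset.measurable_fun_sum _ (fun i h => (hm i h).const_mul _))
  have hint : Integrable (fun ω => Real.exp (∑ i ∈ s, w i * v i ω)) μ := by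
    refine hI.mono' hmeas.aestronglyMeasurable (Filter.Eventually.of_forall fun ω => ?_)
    rw [Real.norm_eq_abs, abs_of_pos (Real.exp_pos _)]
    exact hle ω
  refine ⟨hint, ?_⟩
  calc ∫ ω, Real.exp (∑ i ∈ s, w i * v i ω) ∂μ
      ≤ ∫ ω, (1 - ∑ i ∈ s, w i + ∑ i ∈ s, w i * Real.exp (v i ω)) ∂μ :=
        integral_mono hint hI hle
    _ = 1 - ∑ i ∈ s, w i + ∑ i ∈ s, w i * ∫ ω, Real.exp (v i ω) ∂μ := by
        rw [integral_add (integrable_const _)
          (integrable_finsetSum _ (fun i h => (hi i h).const_mul _)),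
          integral_finsetSum _ (fun i h => (hi i h).const_mul _)]
        simp only [integral_const, probReal_univ, one_smul, integral_const_mul]
    _ ≤ 1 - ∑ i ∈ s, w i + ∑ i ∈ s, w i * C6 := by
        have : ∑ i ∈ s, w i * ∫ ω, Real.exp (v i ω) ∂μ ≤ ∑ i ∈ s, w i * C6 :=
          Finset.sum_le_sum fun i h => mul_le_mul_of_nonneg_left (hb i h) (hw i h)
        linarith
    _ ≤ C6 * ∑ i ∈ s, w i + 1 := by
        rw [← Finset.sum_mul]
        have := Finset.sum_nonneg hw
        linarith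
    _ ≤ _ := Real.add_one_le_exp _

private theorem p3_meas (m : Mdl) (j : ℕ) (x : V) (N : ℕ) :
    Measurable (fun ω : m.Om => Osc (m.f j ω) x N) := by
  have hf : ∀ v, Measurable (fun ω : m.Om => m.f j ω v) := by
    intro v
    unfold Mdl.f Mdl.fl
    fun_prop
  unfold Osc dd
  refine Measurable.add (Measurable.div_const ?_ _) (Measurable.const_mul ?_ _)
  · refine Finset.measurable_fun_sum _ fun v _ => ?_
    exact (((hf _).sub (hf _)).abs).add (((hf _).sub (hf _)).abs)
  · refine Finset.measurable_fun_sum _ fun v _ => ?_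
    exact ((((hf _).sub (hf _)).sub (hf _)).add (hf _)).abs

private theorem p3_dep (m : Mdl) (j : ℕ) (ω ω' : m.Om) (h : ∀ b ∈ m.eq j, ω b = ω' b) :
    m.f j ω = m.f j ω' := by
  funext v
  unfold Mdl.f Mdl.fl
  refine Finset.sum_congr rfl fun b hb => ?_
  rw [h b hb]

private theorem p3_sg {α : ℝ} (hα : 0 ≤ α) {k j : ℕ} (h : k ≤ j) : sg α j ≤ sg α k := by
  unfold sg
  refine Real.rpow_le_rpow_of_exponent_le (by norm_num) ?_
  have : (k : ℝ) ≤ j := by exact_mod_cast h
  nlinarith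

private theorem p3_sg_pos (α : ℝ) (j : ℕ) : 0 < sg α j := by
  unfold sg
  positivity

open Classical in
theorem counting (C c δ : ℝ) (hδ : 0 < δ) : ∃ s00 : ℕ, ∀ s0 : ℕ, s00 ≤ s0 →
    ∀ (α : ℝ) (q J : ℕ) (D : ℤ) (κ : ℕ → V → ℝ) (m : Mdl), IsMdl C c α q J D κ m →
    ∀ (n : ℕ) (e : ℕ → ℕ), StrictMono e → q ≤ e 0 + s0 → ∀ K : ℕ, K ≤ J → ∀ x : V,
    (∀ i, i < n → Sq x (3 * 2 ^ (e i) + 1) ⊆ Sq 0 D) →
    m.mu.real {ω | n < 2 * ((Finset.range n).filter fun i =>
      ¬ (OscS m (e i + s0 - q) K ω x (3 * 2 ^ (e i)) ≤ δ * sg α (e i + s0 - q))).card} ≤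
      Real.exp (-n) := by
  obtain ⟨C6, hC61, hC6⟩ := osc_exp C c
  obtain ⟨s00, hs00⟩ := pow_unbounded_of_one_lt (2 * (C6 + 1) / δ) (one_lt_two (α := ℝ))
  refine ⟨s00, ?_⟩
  intro s0 hs0 α q J D κ m hm n e he hqe K hKJ x hx
  have hqi : ∀ i, q ≤ e i + s0 := fun i => by
    have := he.monotone (Nat.zero_le i)
    omega
  set k : ℕ → ℕ := fun i => e i + s0 - q with hk
  have hki : ∀ i, k i + q = e i + s0 := fun i => by
    have := hqi i
    simp only [hk]
    omega
  have hkm : StrictMono k := by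
    intro a b hab
    have h1 := he hab
    have h2 := hki a
    have h3 := hki b
    omega
  set Vv : ℕ → ℕ → m.Om → ℝ := fun i j ω =>
    Osc (m.f j ω) x (3 * 2 ^ (e i)) / (2 ^ (e i) / 2 ^ (q + j) * sg α j) with hVv
  have hVnn : ∀ i j ω, 0 ≤ Vv i j ω := by
    intro i j ω
    have := p3_sg_pos α j
    exact div_nonneg (osc_nonneg _ _ _) (by positivity)
  set I : ℕ → Finset ℕ := fun j => (Finset.range n).filter (fun i => k i < j) with hI
  set Z : ℕ → m.Om → ℝ := fun j ω => ∑ i ∈ I j, (1 / 2 : ℝ) ^ (j - k i) * Vv i j ω with hZ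
  set W : ℕ → ℝ := fun j => ∑ i ∈ I j, (1 / 2 : ℝ) ^ (j - k i) with hW
  have hZj : ∀ j, j ≤ K → Integrable (fun ω => Real.exp (Z j ω)) m.mu ∧
      ∫ ω, Real.exp (Z j ω) ∂m.mu ≤ Real.exp (C6 * W j) := by
    intro j hj
    refine p3_int m.mu (I j) (fun i => (1 / 2 : ℝ) ^ (j - k i)) (fun i => Vv i j)
      (fun i _ => by positivity) (p3_w1 n j k hkm) C6 ?_ ?_ ?_
    · intro i _
      exact (p3_meas m j x _).div_const _
    · intro i hi
      obtain ⟨h1, h2⟩ := Finset.mem_filter.mp hi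
      have h3 := hki i
      exact (hC6 α q J D κ m hm j (e i) (hj.trans hKJ) (by omega) x
        (hx i (Finset.mem_range.mp h1))).1
    · intro i hi
      obtain ⟨h1, h2⟩ := Finset.mem_filter.mp hi
      have h3 := hki i
      exact (hC6 α q J D κ m hm j (e i) (hj.trans hKJ) (by omega) x
        (hx i (Finset.mem_range.mp h1))).2
  have hZdep : ∀ j (ω ω' : m.Om), (∀ b ∈ m.eq j, ω b = ω' b) → Z j ω = Z j ω' := by
    intro j ω ω' h
    simp only [hZ, hVv]
    rw [p3_dep m j ω ω' h]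
  -- the product over the levels
  have hprod : ∀ T, T ≤ K + 1 →
      Integrable (fun ω => Real.exp (∑ j ∈ Finset.range T, Z j ω)) m.mu ∧
      ∫ ω, Real.exp (∑ j ∈ Finset.range T, Z j ω) ∂m.mu ≤
        Real.exp (C6 * ∑ j ∈ Finset.range T, W j) := by
    intro T
    induction T with
    | zero => intro _; simp
    | succ T ih =>
      intro hT
      obtain ⟨ih1, ih2⟩ := ih (by omega)
      obtain ⟨hT1, hT2⟩ := hZj T (by omega)
      have hmul := mg_mul (gam m.M) (m.eq T)
        (fun ω => Real.exp (∑ j ∈ Finset.range T, Z j ω)) (fun ω => Real.exp (Z T ω)) ih1 hT1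
        (by
          intro ω ω' h
          refine congrArg Real.exp (Finset.sum_congr rfl fun j hj => hZdep j ω ω' ?_)
          intro b hb
          refine h b fun hb' => ?_
          have h1 := (Finset.mem_filter.mp hb).2
          have h2 := (Finset.mem_filter.mp hb').2
          have h3 := Finset.mem_range.mp hj
          omega)
        (by
          intro ω ω' h
          exact congrArg Real.exp (hZdep T ω ω' h))
      have heq : ∀ ω, Real.exp (∑ j ∈ Finset.range (T + 1), Z j ω) =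
          Real.exp (∑ j ∈ Finset.range T, Z j ω) * Real.exp (Z T ω) := by
        intro ω
        rw [Finset.sum_range_succ, Real.exp_add]
      have hpos : 0 < (∫ ω, Real.exp (∑ j ∈ Finset.range T, Z j ω) ∂m.mu) *
          ∫ ω, Real.exp (Z T ω) ∂m.mu := by
        refine mul_pos ?_ ?_
        · exact integral_exp_pos ih1
        · exact integral_exp_pos hT1
      have hval : ∫ ω, Real.exp (∑ j ∈ Finset.range (T + 1), Z j ω) ∂m.mu =
          (∫ ω, Real.exp (∑ j ∈ Finset.range T, Z j ω) ∂m.mu) *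
          ∫ ω, Real.exp (Z T ω) ∂m.mu := by
        simp only [heq]
        exact hmul
      constructor
      · by_contra hni
        rw [integral_undef hni] at hval
        linarith
      · rw [hval, Finset.sum_range_succ, mul_add, Real.exp_add]
        exact mul_le_mul ih2 hT2 (integral_exp_pos hT1).le (Real.exp_pos _).le
  obtain ⟨hX1, hX2⟩ := hprod (K + 1) le_rfl
  set X : m.Om → ℝ := fun ω => ∑ j ∈ Finset.range (K + 1), Z j ω with hX
  -- total weight
  have hWn : ∑ j ∈ Finset.range (K + 1), W j ≤ n := by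
    have h1 : ∑ j ∈ Finset.range (K + 1), W j =
        ∑ i ∈ Finset.range n, ∑ j ∈ (Finset.range (K + 1)).filter (fun j => k i < j),
          (1 / 2 : ℝ) ^ (j - k i) := by
      simp only [hW, hI]
      simp only [Finset.sum_filter]
      rw [Finset.sum_comm]
    rw [h1]
    calc ∑ i ∈ Finset.range n, ∑ j ∈ (Finset.range (K + 1)).filter (fun j => k i < j),
          (1 / 2 : ℝ) ^ (j - k i) ≤ ∑ i ∈ Finset.range n, (1 : ℝ) := by
          refine Finset.sum_le_sum fun i _ => ?_
          have h2 := p3_w2 (k i) K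
          have h3 : (0 : ℝ) < (1 / 2 : ℝ) ^ (K - k i) := by positivity
          linarith
      _ = n := by simp
  -- the deterministic bound
  have hdet : ∀ ω, (((Finset.range n).filter fun i =>
      ¬ (OscS m (k i) K ω x (3 * 2 ^ (e i)) ≤ δ * sg α (k i))).card : ℝ) * (δ * 2 ^ s0) ≤ X ω := by
    intro ω
    have h1 : X ω = ∑ i ∈ Finset.range n,
        ∑ j ∈ (Finset.range (K + 1)).filter (fun j => k i < j),
          (1 / 2 : ℝ) ^ (j - k i) * Vv i j ω := by
      simp only [hX, hZ, hI]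
      simp only [Finset.sum_filter]
      rw [Finset.sum_comm]
    have h2 : ∀ i, OscS m (k i) K ω x (3 * 2 ^ (e i)) ≤ sg α (k i) / 2 ^ s0 *
        ∑ j ∈ (Finset.range (K + 1)).filter (fun j => k i < j),
          (1 / 2 : ℝ) ^ (j - k i) * Vv i j ω := by
      intro i
      have hset : (Finset.range (K + 1)).filter (fun j => k i < j) = Finset.Ioc (k i) K := by
        ext j
        simp only [Finset.mem_filter, Finset.mem_range, Finset.mem_Ioc]
        omega
      rw [hset, OscS, Finset.mul_sum]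
      refine Finset.sum_le_sum fun j hj => ?_
      obtain ⟨hj1, hj2⟩ := Finset.mem_Ioc.mp hj
      have hσ := p3_sg hm.hα.1 hj1.le
      have hσj := p3_sg_pos α j
      have hki' := hki i
      have hpw : (2 : ℝ) ^ (e i) / 2 ^ (q + j) = (1 / 2) ^ (j - k i) / 2 ^ s0 := by
        obtain ⟨t, rfl⟩ : ∃ t, j = k i + t := ⟨j - k i, by omega⟩
        rw [Nat.add_sub_cancel_left, one_div, inv_pow,
          show q + (k i + t) = (k i + q) + t by ring, hki', pow_add, pow_add]
        field_simp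
      have hval : Osc (m.f j ω) x (3 * 2 ^ (e i)) =
          ((1 / 2 : ℝ) ^ (j - k i) / 2 ^ s0 * sg α j) * Vv i j ω := by
        simp only [hVv]
        rw [hpw]
        field_simp
      rw [hval]
      have hv := hVnn i j ω
      have hp : (0 : ℝ) ≤ (1 / 2 : ℝ) ^ (j - k i) / 2 ^ s0 * Vv i j ω := by positivity
      calc ((1 / 2 : ℝ) ^ (j - k i) / 2 ^ s0 * sg α j) * Vv i j ω
          = ((1 / 2 : ℝ) ^ (j - k i) / 2 ^ s0 * Vv i j ω) * sg α j := by ring
        _ ≤ ((1 / 2 : ℝ) ^ (j - k i) / 2 ^ s0 * Vv i j ω) * sg α (k i) :=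
            mul_le_mul_of_nonneg_left hσ hp
        _ = _ := by ring
    rw [h1]
    have h3 : ∀ i ∈ (Finset.range n).filter (fun i =>
        ¬ (OscS m (k i) K ω x (3 * 2 ^ (e i)) ≤ δ * sg α (k i))),
        δ * 2 ^ s0 ≤ ∑ j ∈ (Finset.range (K + 1)).filter (fun j => k i < j),
          (1 / 2 : ℝ) ^ (j - k i) * Vv i j ω := by
      intro i hi
      have h4 := (Finset.mem_filter.mp hi).2
      rw [not_le] at h4
      have h5 := h4.trans_le (h2 i)
      have hσ := p3_sg_pos α (k i)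
      have h6 : sg α (k i) * (δ * 2 ^ s0) < sg α (k i) *
          ∑ j ∈ (Finset.range (K + 1)).filter (fun j => k i < j),
          (1 / 2 : ℝ) ^ (j - k i) * Vv i j ω := by
        rw [div_mul_eq_mul_div, lt_div_iff₀ (by positivity)] at h5
        linarith
      exact (lt_of_mul_lt_mul_left h6 hσ.le).le
    calc (((Finset.range n).filter fun i =>
        ¬ (OscS m (k i) K ω x (3 * 2 ^ (e i)) ≤ δ * sg α (k i))).card : ℝ) * (δ * 2 ^ s0)
        = ∑ i ∈ (Finset.range n).filter (fun i =>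
          ¬ (OscS m (k i) K ω x (3 * 2 ^ (e i)) ≤ δ * sg α (k i))), (δ * 2 ^ s0) := by
          rw [Finset.sum_const, nsmul_eq_mul]
      _ ≤ ∑ i ∈ (Finset.range n).filter (fun i =>
          ¬ (OscS m (k i) K ω x (3 * 2 ^ (e i)) ≤ δ * sg α (k i))),
          ∑ j ∈ (Finset.range (K + 1)).filter (fun j => k i < j),
          (1 / 2 : ℝ) ^ (j - k i) * Vv i j ω := Finset.sum_le_sum h3
      _ ≤ _ := by
          refine Finset.sum_le_sum_of_subset_of_nonneg (Finset.filter_subset _ _) ?_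
          intro i _ _
          exact Finset.sum_nonneg fun j _ => mul_nonneg (by positivity) (hVnn i j ω)
  have hbig : 2 * (C6 + 1) ≤ δ * 2 ^ s0 := by
    have h1 : (2 : ℝ) ^ s00 ≤ 2 ^ s0 := pow_le_pow_right₀ (by norm_num) hs0
    have h2 := hs00.le.trans h1
    rw [div_le_iff₀ hδ] at h2
    linarith
  have hsub : {ω | n < 2 * ((Finset.range n).filter fun i =>
      ¬ (OscS m (e i + s0 - q) K ω x (3 * 2 ^ (e i)) ≤ δ * sg α (e i + s0 - q))).card} ⊆
      {ω | (C6 + 1) * n ≤ X ω} := by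
    intro ω hω
    have h1 : (n : ℝ) < 2 * (((Finset.range n).filter fun i =>
      ¬ (OscS m (k i) K ω x (3 * 2 ^ (e i)) ≤ δ * sg α (k i))).card : ℝ) := by
      exact_mod_cast hω
    have h2 := hdet ω
    have h3 : (0 : ℝ) ≤ (((Finset.range n).filter fun i =>
      ¬ (OscS m (k i) K ω x (3 * 2 ^ (e i)) ≤ δ * sg α (k i))).card : ℝ) := Nat.cast_nonneg _
    have h4 : (0 : ℝ) ≤ n := Nat.cast_nonneg _
    show (C6 + 1) * n ≤ X ω
    nlinarith
  calc m.mu.real _ ≤ m.mu.real {ω | (C6 + 1) * n ≤ X ω} := measureReal_mono hsub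
    _ ≤ Real.exp (-1 * ((C6 + 1) * n)) * mgf X m.mu 1 := by
        refine measure_ge_le_exp_mul_mgf _ (by norm_num) ?_
        simpa only [one_mul] using hX1
    _ ≤ Real.exp (-1 * ((C6 + 1) * n)) * Real.exp (C6 * n) := by
        refine mul_le_mul_of_nonneg_left ?_ (Real.exp_pos _).le
        simp only [mgf, one_mul]
        refine hX2.trans (Real.exp_le_exp.mpr ?_)
        exact mul_le_mul_of_nonneg_left hWn (by linarith)
    _ = Real.exp (-n) := by
        rw [← Real.exp_add]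
        congr 1
        ring

end NU53
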