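import Pool.Agent.LibNU53.P1
import Pool.Agent.LibNU53.P2
import Pool.Agent.LibNU53.P3

/-! Row P4 (POLYCHROMATIC LEMMA, assembly).
PLAN. `cond` gives `δ`; `Y i = Mono m K (e i) x l`, `O i = {OscS (k i) ≤ δσ_{k i}}`,
`G i = Gb (k i) x (2^(e i + s0 + 2))` (monotone in `i`: levels and radii increase; for `i ≥ n` extend the
sequence constantly or use `min i (n-1)`), `supermart` with `p = ρ/2`, `k = n/2`: if at most `n/2` of the `O i`
fail, at least `n - n/2 ≥ n/2` hold. `counting` for the rest. MEDIUM. -/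

open MeasureTheory ProbabilityTheory

namespace NU53

private theorem p4_osc_meas (m : Mdl) (k K N : ℕ) (x : V) :
    Measurable fun ω => OscS m k K ω x N := by
  have hf : ∀ (j : ℕ) (v : V), Measurable fun ω => m.f j ω v := fun j v => meas_fl m (m.eq j) v
  unfold OscS Osc dd
  refine Finset.measurable_sum _ fun j _ => ?_
  refine Measurable.add (Measurable.div_const (Finset.measurable_sum _ fun v _ => ?_) _)
    (Measurable.const_mul (Finset.measurable_sum _ fun v _ => ?_) _)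
  · exact (measurable_abs.comp ((hf j _).sub (hf j _))).add
      (measurable_abs.comp ((hf j _).sub (hf j _)))
  · exact measurable_abs.comp ((((hf j _).sub (hf j _)).sub (hf j _)).add (hf j _))

private theorem p4_Gb_mono (m : Mdl) (x : V) (s0 q : ℕ) {a b : ℕ} (h : a ≤ b) :
    m.Gb (a + s0 - q) x (2 ^ (a + s0 + 2)) ⊆ m.Gb (b + s0 - q) x (2 ^ (b + s0 + 2)) := by
  classical
  intro y hy
  unfold Mdl.Gb at hy ⊢
  rw [Finset.mem_filter] at hy ⊢
  have h1 : (2 : ℤ) ^ (a + s0 + 2) ≤ 2 ^ (b + s0 + 2) :=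
    pow_le_pow_right₀ (by norm_num) (by omega)
  obtain ⟨_, h2, ⟨h3, h4⟩, h5, h6⟩ := hy
  exact ⟨Finset.mem_univ _, by omega, ⟨by omega, by omega⟩, by omega, by omega⟩

theorem poly (C c ρ : ℝ) (hc : 0 < c) (hρ : 0 < ρ) (hρ1 : ρ ≤ 1) : ∃ s00 : ℕ, ∀ s0 : ℕ,
    s00 ≤ s0 → ∀ (α : ℝ) (q J : ℕ) (D : ℤ) (κ : ℕ → V → ℝ) (m : Mdl), IsMdl C c α q J D κ m →
    ∀ (n : ℕ) (e : ℕ → ℕ), (∀ i, e i + (s0 + 4) ≤ e (i + 1)) → q ≤ e 0 + s0 → ∀ K : ℕ, K ≤ J →
    (∀ i, i < n → e i + s0 - q ≤ K) → ∀ x : V, Ev x →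
    (∀ i, i < n → Sq x (3 * 2 ^ (e i) + 1) ⊆ Sq 0 D) →
    (∀ i, i < n → Sq 0 (3 * 2 ^ (e i) + 1) ⊆ Sq 0 D) →
    (∀ i, i < n → ρ ≤ m.Pr (e i + s0 - q) 0 (Circ (e i) 0)) → ∀ l : ℝ,
    m.mu.real {ω | ∀ i, i < n → ω ∉ Mono m K (e i) x l} ≤
      (1 - ρ / 2) ^ (n / 2) + Real.exp (-n) := by
  classical
  obtain ⟨δ, hδ, s1, hs1, hcond⟩ := cond C c ρ hc hρ hρ1
  obtain ⟨s2, hcount⟩ := counting C c δ hδ
  refine ⟨max s1 s2, fun s0 hs0 α q J D κ m hm n e he hq K hKJ hK x hx hx1 hx2 hρe l => ?_⟩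
  have hs01 : s1 ≤ s0 := (le_max_left _ _).trans hs0
  have hs02 : s2 ≤ s0 := (le_max_right _ _).trans hs0
  have hs2 : 2 ≤ s0 := hs1.trans hs01
  have hmono : StrictMono e := strictMono_nat_of_lt_succ fun i => by
    have := he i
    omega
  have hqe : ∀ i, q ≤ e i + s0 := fun i => by
    have := hmono.monotone (Nat.zero_le i)
    omega
  have hB := hcount s0 hs02 α q J D κ m hm n e hmono hq K hKJ x hx1
  have hA := supermart (gam m.M) n (fun i => m.Gb (e i + s0 - q) x (2 ^ (e i + s0 + 2)))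
    (fun i j hij => p4_Gb_mono m x s0 q (hmono.monotone hij))
    (fun i => Mono m K (e i) x l)
    (fun i => {ω | OscS m (e i + s0 - q) K ω x (3 * 2 ^ (e i)) ≤ δ * sg α (e i + s0 - q)})
    (fun i => mono_meas m K (e i) x l)
    (fun i => measurableSet_le (p4_osc_meas m _ _ _ _) measurable_const)
    (fun i _ ω ω' hb => mono_indep hm hs2 (hqe i) (by have := he i; omega) x l ω ω' hb)
    (fun i _ ω ω' hb => by
      have h1 := osc_indep hm (K := K) x x (3 * 2 ^ (e i)) _ ω ω' hb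
      change OscS m (e i + s0 - q) K ω x (3 * 2 ^ (e i)) ≤ δ * sg α (e i + s0 - q) ↔
        OscS m (e i + s0 - q) K ω' x (3 * 2 ^ (e i)) ≤ δ * sg α (e i + s0 - q)
      rw [h1])
    (p := ρ / 2) (by linarith) (by linarith)
    (fun i hi ω hω => hcond s0 hs01 α q J D κ m hm (e i) K (hqe i) (hK i hi) hKJ x hx
      (hx1 i hi) (hx2 i hi) (hρe i hi) l ω hω) (n / 2)
  have hsub : {ω | ∀ i, i < n → ω ∉ Mono m K (e i) x l} ⊆
      {ω | (∀ i < n, ω ∉ Mono m K (e i) x l) ∧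
        n / 2 ≤ ((Finset.range n).filter fun i => ω ∈ {ω | OscS m (e i + s0 - q) K ω x
          (3 * 2 ^ (e i)) ≤ δ * sg α (e i + s0 - q)}).card} ∪
      {ω | n < 2 * ((Finset.range n).filter fun i =>
        ¬ (OscS m (e i + s0 - q) K ω x (3 * 2 ^ (e i)) ≤ δ * sg α (e i + s0 - q))).card} := by
    intro ω hω
    by_cases h2 : n < 2 * ((Finset.range n).filter fun i =>
        ¬ (OscS m (e i + s0 - q) K ω x (3 * 2 ^ (e i)) ≤ δ * sg α (e i + s0 - q))).card
    · exact Or.inr h2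
    · refine Or.inl ⟨hω, ?_⟩
      have h3 := Finset.card_filter_add_card_filter_not (s := Finset.range n)
        (fun i => OscS m (e i + s0 - q) K ω x (3 * 2 ^ (e i)) ≤ δ * sg α (e i + s0 - q))
      rw [Finset.card_range] at h3
      change n / 2 ≤ ((Finset.range n).filter fun i => OscS m (e i + s0 - q) K ω x
          (3 * 2 ^ (e i)) ≤ δ * sg α (e i + s0 - q)).card
      omega
  refine (measureReal_mono hsub).trans ((measureReal_union_le _ _).trans ?_)
  exact add_le_add hA hB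

end NU53
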