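import Pool.Agent.LibNU53.W11
import Pool.Agent.LibNU53.P4

/-! Row W12 (ARMS). Exponential bound for the absence of monochromatic circuits, uniform in the level.
PLAN. `s0` beyond the thresholds of `good` and `poly C c (cG c2)`; `w = m0 + s0 + 5`. In every interval
`[e1 + w i, e1 + w i + m0]` there is a good scale `e_i`, `e_{i+1} ≥ e_i + s0 + 4`; `n ≈ (e2 - e1)/w` of them
are `≤ e2` (for `i ≥ n` define the sequence arbitrarily with the same gaps). `poly` with `K = J`: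
`≤ (1-ρ/2)^(n/2) + exp(-n) ≤ 2·max(...)^{n/2} ≤ C5 2^(-η (e2-e1))`. The bound `1` when `n = 0`.
MEDIUM. -/

open MeasureTheory ProbabilityTheory

namespace NU53

private theorem w12_cG : 0 < cG c2 ∧ cG c2 ≤ 1 := by
  unfold cG c2
  constructor
  · positivity
  · norm_num

/-- The arithmetic of the bound. -/
private theorem w12_bound {θ : ℝ} (hθ : 1 / 2 ≤ θ) (hθ1 : θ < 1) {w : ℕ} (hw : 1 ≤ w) (t n : ℕ)
    (hn : n = t / w) :
    θ ^ (n / 2) + Real.exp (-n) ≤
      5 * (2 : ℝ) ^ (-((-Real.log θ / (2 * w * Real.log 2)) * (t : ℝ))) := by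
  have hθ0 : 0 < θ := by linarith
  have hl2 : 0 < Real.log 2 := Real.log_pos (by norm_num)
  have hl2' : Real.log 2 ≤ 1 := by
    have := Real.log_two_lt_d9
    linarith
  set L : ℝ := -Real.log θ with hL
  have hL0 : 0 < L := by
    rw [hL]
    have := Real.log_neg hθ0 hθ1
    linarith
  have hLle : L ≤ Real.log 2 := by
    rw [hL, ← Real.log_inv]
    apply Real.log_le_log (by positivity)
    rw [inv_le_comm₀ hθ0 (by norm_num)]
    linarith
  have hwR : (1 : ℝ) ≤ (w : ℝ) := by exact_mod_cast hw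
  have hw0 : (0 : ℝ) < (w : ℝ) := by linarith
  have e1 : (2 : ℝ) ^ (-((L / (2 * w * Real.log 2)) * (t : ℝ))) =
      Real.exp (-(L * t / (2 * w))) := by
    rw [Real.rpow_def_of_pos (by norm_num)]
    congr 1
    field_simp
  rw [e1]
  -- the number n
  have hn1 : t < w * (n + 1) := by
    rw [hn]
    exact Nat.lt_mul_div_succ t (by omega)
  have hn1R : (t : ℝ) ≤ w * ((n : ℝ) + 1) := by
    have : (t : ℝ) < w * ((n : ℝ) + 1) := by exact_mod_cast hn1
    exact this.le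
  have hn2 : n ≤ 2 * (n / 2) + 1 := by omega
  have hn2R : (n : ℝ) ≤ 2 * ((n / 2 : ℕ) : ℝ) + 1 := by exact_mod_cast hn2
  have htw : (t : ℝ) / w ≤ n + 1 := by
    rw [div_le_iff₀ hw0]
    linarith
  have e2 : L * t / (2 * w) = L * ((t : ℝ) / w) / 2 := by
    field_simp
  have hb1 : θ ^ (n / 2) ≤ 2 * Real.exp (-(L * t / (2 * w))) := by
    have h1 : θ ^ (n / 2) = Real.exp (((n / 2 : ℕ) : ℝ) * Real.log θ) := by
      rw [Real.exp_nat_mul, Real.exp_log hθ0]
    have h2 : 2 * Real.exp (-(L * t / (2 * w))) =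
        Real.exp (Real.log 2 + -(L * t / (2 * w))) := by
      rw [Real.exp_add, Real.exp_log (by norm_num)]
    rw [h1, h2, Real.exp_le_exp]
    have h3 : Real.log θ = -L := by rw [hL]; ring
    rw [h3, e2]
    have h4 : (t : ℝ) / w / 2 ≤ ((n / 2 : ℕ) : ℝ) + 1 := by linarith
    nlinarith
  have hb2 : Real.exp (-(n : ℝ)) ≤ 3 * Real.exp (-(L * t / (2 * w))) := by
    have h1 : Real.exp (-(n : ℝ)) ≤ Real.exp 1 * Real.exp (-(L * t / (2 * w))) := by
      rw [← Real.exp_add, Real.exp_le_exp, e2]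
      have h2 : 0 ≤ (t : ℝ) / w := by positivity
      nlinarith
    have h3 : Real.exp 1 ≤ 3 := by
      have := Real.exp_one_lt_d9
      linarith
    exact h1.trans (mul_le_mul_of_nonneg_right h3 (Real.exp_pos _).le)
  linarith

theorem arms (C c : ℝ) (hc : 0 < c) : ∃ (η C5 : ℝ) (s1 q0 : ℕ), 0 < η ∧ η ≤ 1 / 2 ∧ 1 ≤ C5 ∧
    ∀ (α : ℝ) (q J : ℕ) (D : ℤ) (κ : ℕ → V → ℝ) (m : Mdl), IsMdl C c α q J D κ m → q0 ≤ q →
    ∀ e1 e2 : ℕ, q ≤ e1 → e1 ≤ e2 → e2 + s1 ≤ q + J → (2 : ℤ) ^ (e2 + s1) ≤ D → ∀ x : V, Ev x →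
    Sq x (2 ^ (e2 + 2)) ⊆ Sq 0 D → ∀ l : ℝ,
    m.mu.real {ω | ∀ e, e1 ≤ e → e ≤ e2 → ω ∉ Mono m J e x l} ≤
      C5 * (2 : ℝ) ^ (-(η * ((e2 : ℝ) - e1))) := by
  obtain ⟨hρ, hρ1⟩ := w12_cG
  obtain ⟨s00a, hgood⟩ := good C c hc
  obtain ⟨s00b, hpoly⟩ := poly C c (cG c2) hc hρ hρ1
  set s0 : ℕ := max s00a s00b with hs0
  obtain ⟨m0, q0, hg⟩ := hgood s0 (le_max_left _ _)
  set w : ℕ := m0 + s0 + 5 with hw
  set θ : ℝ := 1 - cG c2 / 2 with hθ
  have hθ2 : 1 / 2 ≤ θ := by rw [hθ]; linarith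
  have hθ1 : θ < 1 := by rw [hθ]; linarith
  have hθ0 : 0 < θ := by linarith
  have hl2 : 0 < Real.log 2 := Real.log_pos (by norm_num)
  have hL0 : 0 < -Real.log θ := by
    have := Real.log_neg hθ0 hθ1
    linarith
  have hLle : -Real.log θ ≤ Real.log 2 := by
    rw [← Real.log_inv]
    apply Real.log_le_log (by positivity)
    rw [inv_le_comm₀ hθ0 (by norm_num)]
    linarith
  have hw5 : (5 : ℝ) ≤ (w : ℝ) := by
    have : 5 ≤ w := by omega
    exact_mod_cast this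
  refine ⟨-Real.log θ / (2 * w * Real.log 2), 5, s0 + 4, q0, by positivity, ?_, by norm_num, ?_⟩
  · rw [div_le_iff₀ (by positivity)]
    nlinarith
  intro α q J D κ m h hq0 e1 e2 hq1 h12 hJ hD x hx hxD l
  set n : ℕ := (e2 - e1) / w with hn
  have hnw : n * w ≤ e2 - e1 := Nat.div_mul_le_self _ _
  have hin : ∀ i, i < n → e1 + w * i + w ≤ e2 := by
    intro i hi
    have h1 : (i + 1) * w ≤ n * w := Nat.mul_le_mul_right _ hi
    have h2 : (i + 1) * w = w * i + w := by ring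
    omega
  have hpowle : ∀ a : ℕ, a ≤ e2 + (s0 + 4) → (2 : ℤ) ^ a ≤ D := fun a ha =>
    (pow_le_pow_right₀ (by norm_num) ha).trans hD
  have hex : ∀ i, ∃ e, e1 + w * i ≤ e ∧ e ≤ e1 + w * i + m0 ∧
      (i < n → cG c2 ≤ m.Pr (e + s0 - q) 0 (Circ e 0)) := by
    intro i
    by_cases hi : i < n
    · have h1 := hin i hi
      obtain ⟨e, h2, h3, h4⟩ := hg α q J D κ m h hq0 (e1 + w * i) (by omega) (by omega)
        (hpowle _ (by omega))
      exact ⟨e, h2, h3, fun _ => h4⟩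
    · exact ⟨e1 + w * i, le_rfl, by omega, fun h => absurd h hi⟩
  choose e he1 he2 he3 using hex
  have hee2 : ∀ i, i < n → e i ≤ e2 := by
    intro i hi
    have h1 := hin i hi
    have h2 := he2 i
    omega
  have hgap : ∀ i, e i + (s0 + 4) ≤ e (i + 1) := by
    intro i
    have h1 := he2 i
    have h2 := he1 (i + 1)
    have h3 : w * (i + 1) = w * i + w := by ring
    omega
  have hsz : ∀ i, i < n → 3 * 2 ^ (e i) + 1 ≤ (2 : ℤ) ^ (e2 + 2) := by
    intro i hi
    have h1 : (2 : ℤ) ^ (e i) ≤ 2 ^ e2 := pow_le_pow_right₀ (by norm_num) (hee2 i hi)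
    have h2 : (1 : ℤ) ≤ 2 ^ (e2) := one_le_pow₀ (by norm_num)
    have h3 : (2 : ℤ) ^ (e2 + 2) = 4 * 2 ^ e2 := by rw [pow_add]; ring
    linarith
  have hpol := hpoly s0 (le_max_right _ _) α q J D κ m h n e hgap
    (by have := he1 0; omega) J le_rfl
    (by intro i hi; have := hee2 i hi; omega) x hx
    (by
      intro i hi
      refine Set.Subset.trans ?_ hxD
      have h1 := hsz i hi
      exact Box_subset (by linarith) (by linarith) (by linarith) (by linarith))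
    (by
      intro i hi
      have h1 := (hsz i hi).trans (hpowle (e2 + 2) (by omega))
      exact Box_subset (by linarith) (by linarith) (by linarith) (by linarith))
    (fun i hi => he3 i hi) l
  refine le_trans (measureReal_mono (fun ω hω i hi =>
    hω (e i) (by have := he1 i; omega) (hee2 i hi))) (hpol.trans ?_)
  have hb := w12_bound hθ2 hθ1 (w := w) (by omega) (e2 - e1) n rfl
  rw [Nat.cast_sub h12] at hb
  exact hb

end NU53
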