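import Pool.Agent.LibNU53.O2
import Pool.Agent.LibNU53.W12
import Pool.Agent.LibNU53.T7

/-! Row O3 (REVEALMENT of a block, fixed lines). `b` of level `j`, `x = pos b`,
`d ≤ |x.1 - u|`, `d ≤ |x.2 - t|`, `d ≥ 1`.
PLAN. If `b` is revealed then some asked `v` has `|v - x|_∞ ≤ 2^(q+j+1)` (`near`). If `d ≤ 2^(q+j+1)` use the
trivial bound `1`. Otherwise `v` is not on the lines, so by `expl` (4) there are paths from neighbours
`w`, `w'` of `v` (at distance `≤ 2^(q+j+1) + 1 ≤ 2^(q+j+2)`) to the lines (distance `≥ d`) inside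
`{F ≤ l}` and `{F > l}`; so for every `e` with `q+j+2 ≤ e` and `3·2^e ≤ d` there is no monochromatic circuit
(`block`, `block'`): `ω ∉ Mono m J e x l`. `arms` with `e1 = q+j+2`, `e2 = ⌊log₂(d/3)⌋`:
`C5 2^(-η(e2-e1)) ≤ C5 (24·2^(q+j)/d)^η`, and if `e2 < e1` the right side is `≥ 1`. Region:
`x ∈ Sq 0 (2^?)`: if `b` is revealed `|x|_∞ ≤ n + 2^(q+j+1)`; so we may assume `|x|_∞ ≤ 3n` or the event
is empty; `d ≤ 4n`. MEDIUM/STRONG. -/

open MeasureTheory ProbabilityTheory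

namespace NU53

private lemma o3_meas_le {m : Mdl} {A B : Set m.Om} (h : A ⊆ B) : m.mu.real A ≤ m.mu.real B :=
  measureReal_mono h

/-- geometry: a revealed block excludes monochromatic circuits -/
private lemma o3_geom {m : Mdl} {q J : ℕ} {n u t : ℤ} {b : m.B} {d : ℤ}
    (hd1 : d ≤ |(m.pos b).1 - u|) (hd2 : d ≤ |(m.pos b).2 - t|)
    {l : ℝ} {ω : m.Om} {v : V}
    (hv : v ∈ (Tree n u t).asked {v | m.F J ω v ≤ l})
    (hvb : v ∈ Sq (m.pos b) (2 ^ (q + m.lev b + 1))) {e : ℕ} (he1 : q + m.lev b + 2 ≤ e)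
    (he2 : 3 * (2 : ℤ) ^ e ≤ d) : ω ∉ Mono m J e (m.pos b) l := by
  have hspec := Classical.choose_spec (expl n u t) {v | m.F J ω v ≤ l}
  change (((Tree n u t).asked {v | m.F J ω v ≤ l}) ⊆ Box 0 n 0 n) ∧ _ at hspec
  obtain ⟨-, -, -, h4⟩ := hspec
  have hR : (2 : ℤ) ^ (q + m.lev b + 2) = 2 * 2 ^ (q + m.lev b + 1) := by
    rw [pow_succ]; ring
  have hRe : (2 : ℤ) ^ (q + m.lev b + 2) ≤ 2 ^ e := pow_le_pow_right₀ (by norm_num) he1
  have hR1 : (2 : ℤ) ≤ 2 ^ (q + m.lev b + 1) := by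
    rw [pow_succ]
    have : (1 : ℤ) ≤ 2 ^ (q + m.lev b) := one_le_pow₀ (by norm_num)
    linarith
  set R2 : ℤ := 2 ^ (q + m.lev b + 1) with hR2
  obtain ⟨⟨v1, v2⟩, v3, v4⟩ := hvb
  have a1 : |(m.pos b).1 - v.1| ≤ R2 := by rw [abs_le]; constructor <;> linarith
  have a2 : |(m.pos b).2 - v.2| ≤ R2 := by rw [abs_le]; constructor <;> linarith
  have hnl : v ∉ Lines n u t := by
    rintro ⟨-, h | h⟩
    · rw [h] at a1; linarith
    · rw [h] at a2; linarith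
  have hw : ∀ w : V, Adj v w → w ∈ Sq (m.pos b) (2 ^ e) := by
    intro w hw
    have hw' : |w.1 - v.1| ≤ 1 ∧ |w.2 - v.2| ≤ 1 := by
      rw [abs_le, abs_le]
      unfold Adj at hw
      omega
    obtain ⟨w1, w2⟩ := hw'
    rw [abs_le] at w1 w2
    refine ⟨⟨?_, ?_⟩, ?_, ?_⟩ <;> linarith
  have hp : ∀ p : V, p ∈ Lines n u t →
      3 * 2 ^ e ≤ |p.1 - (m.pos b).1| ∨ 3 * 2 ^ e ≤ |p.2 - (m.pos b).2| := by
    rintro p ⟨-, h | h⟩
    · left; rw [h, abs_sub_comm]; linarith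
    · right; rw [h, abs_sub_comm]; linarith
  obtain ⟨⟨w, p, hw1, hp1, hc1⟩, ⟨w', p', hw2, hp2, hc2⟩⟩ := h4 v hv hnl
  rintro (hm | hm)
  · have e1 : {v | l < m.F J ω v} = ({v | m.F J ω v ≤ l})ᶜ := by
      ext v
      simp
    rw [e1] at hm
    exact block' hm (hc1.mono Set.inter_subset_right) (hw w hw1) (hp p hp1)
  · exact block hm (hc2.mono Set.inter_subset_right) (hw w' hw2) (hp p' hp2)

theorem rvl_le (C c : ℝ) (hc : 0 < c) : ∃ (η C5 : ℝ) (s1 q0 : ℕ), 0 < η ∧ η ≤ 1 / 2 ∧ 1 ≤ C5 ∧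
    ∀ (α : ℝ) (q J : ℕ) (D : ℤ) (κ : ℕ → V → ℝ) (m : Mdl), IsMdl C c α q J D κ m → q0 ≤ q →
    ∀ n : ℤ, 1 ≤ n → 2 ^ s1 * n ≤ 2 ^ (q + J) → 2 ^ s1 * n ≤ D → ∀ (b : m.B),
    (2 : ℤ) ^ (q + m.lev b) ≤ n → ∀ u t : ℤ, 0 ≤ u → u ≤ n → 0 ≤ t → t ≤ n → ∀ d : ℤ, 1 ≤ d →
    d ≤ |(m.pos b).1 - u| → d ≤ |(m.pos b).2 - t| → ∀ l : ℝ,
    rvl m q J n u t l b ≤ C5 * ((2 : ℝ) ^ (q + m.lev b) / d) ^ η := by
  obtain ⟨η, C5, s1, q0, hη, hη2, hC5, harms⟩ := arms C c hc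
  refine ⟨η, 24 * C5, s1 + 3, q0, hη, hη2, by linarith, ?_⟩
  intro α q J D κ m h hq0 n hn hnJ hnD b hbn u t hu hun ht htn d hd hd1 hd2 l
  set j := m.lev b with hj
  have hd0 : (0 : ℝ) < d := by exact_mod_cast (by omega : 0 < d)
  have hRpos : (0 : ℝ) < 2 ^ (q + j) := by positivity
  have hx0 : 0 < (2 : ℝ) ^ (q + j) / d := by positivity
  have hrpow0 : 0 ≤ ((2 : ℝ) ^ (q + j) / d) ^ η := Real.rpow_nonneg hx0.le _
  have hrvl1 : rvl m q J n u t l b ≤ 1 := measureReal_le_one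
  by_cases hbig : (2 : ℤ) ^ (q + j + 2) * 3 ≤ d
  swap
  · -- trivial bound
    push Not at hbig
    have h1 : (1 : ℝ) / 12 ≤ (2 : ℝ) ^ (q + j) / d := by
      rw [div_le_div_iff₀ (by norm_num) hd0]
      have h2 : (d : ℝ) < 2 ^ (q + j + 2) * 3 := by exact_mod_cast hbig
      rw [pow_add] at h2
      linarith
    have h2 : (1 : ℝ) / 12 ≤ ((2 : ℝ) ^ (q + j) / d) ^ η := by
      calc (1 : ℝ) / 12 = (1 / 12 : ℝ) ^ (1 : ℝ) := (Real.rpow_one _).symm
        _ ≤ (1 / 12 : ℝ) ^ η := Real.rpow_le_rpow_of_exponent_ge (by norm_num) (by norm_num)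
            (by linarith)
        _ ≤ _ := Real.rpow_le_rpow (by norm_num) h1 hη.le
    have h3 : 24 * C5 * (1 / 12) ≤ 24 * C5 * ((2 : ℝ) ^ (q + j) / d) ^ η :=
      mul_le_mul_of_nonneg_left h2 (by linarith)
    linarith
  · by_cases hne : {ω | b ∈ Rev (m.near q) (fun v ω => m.F J ω v ≤ l) (Tree n u t) ω} = ∅
    · have : rvl m q J n u t l b = 0 := by
        unfold rvl
        rw [hne]
        simp
      rw [this]
      exact mul_nonneg (by linarith) hrpow0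
    · obtain ⟨ω0, v0, hv0, hb0⟩ := Set.nonempty_iff_ne_empty.mpr hne
      have hmem : ∀ v : V, b ∈ m.near q v → v ∈ Sq (m.pos b) (2 ^ (q + j + 1)) := by
        intro v hv
        simp only [Mdl.near, Finset.mem_filter, Finset.mem_univ, true_and] at hv
        exact hv
      have hv0' := hmem v0 hb0
      have hspec := Classical.choose_spec (expl n u t) {v | m.F J ω0 v ≤ l}
      change (((Tree n u t).asked {v | m.F J ω0 v ≤ l}) ⊆ Box 0 n 0 n) ∧ _ at hspec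
      have hbox := hspec.1 hv0
      obtain ⟨⟨b1, b2⟩, b3, b4⟩ := hbox
      obtain ⟨⟨v1, v2⟩, v3, v4⟩ := hv0'
      have hR2 : (2 : ℤ) ^ (q + j + 1) ≤ 2 * n := by
        rw [pow_succ]; linarith
      have hd3n : d ≤ 3 * n := by
        refine le_trans hd1 ?_
        rw [abs_le]
        constructor <;> linarith
      -- the scale e2
      set N := d.toNat / 3 with hN
      have hdn : ((d.toNat : ℕ) : ℤ) = d := Int.toNat_of_nonneg (by omega)
      have hN0 : N ≠ 0 := by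
        have h1 : (1 : ℤ) ≤ 2 ^ (q + j + 2) := one_le_pow₀ (by norm_num)
        omega
      set e2 := Nat.log 2 N with he2
      have hl1 : 2 ^ e2 ≤ N := Nat.pow_log_le_self 2 hN0
      have hl2 : N < 2 ^ (e2 + 1) := Nat.lt_pow_succ_log_self (by norm_num) N
      have hz1 : 3 * (2 : ℤ) ^ e2 ≤ d := by
        have : ((2 ^ e2 : ℕ) : ℤ) ≤ N := by exact_mod_cast hl1
        push_cast at this
        have h3 : 3 * (N : ℤ) ≤ d := by omega
        linarith
      have hz2 : d < 6 * (2 : ℤ) ^ e2 := by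
        have : (N : ℤ) + 1 ≤ ((2 ^ (e2 + 1) : ℕ) : ℤ) := by exact_mod_cast hl2
        push_cast at this
        rw [pow_succ] at this
        have h3 : d < 3 * ((N : ℤ) + 1) := by omega
        linarith
      have he12 : q + j + 2 ≤ e2 := by
        have h1 : 2 ^ (q + j + 2) ≤ N := by
          have : ((2 ^ (q + j + 2) : ℕ) : ℤ) ≤ N := by
            push_cast
            omega
          exact_mod_cast this
        exact Nat.le_log_of_pow_le (by norm_num) h1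
      have hn2 : (2 : ℤ) ^ e2 ≤ n := by linarith
      have hs3 : (2 : ℤ) ^ (s1 + 3) * n = 2 ^ s1 * n * 8 := by rw [pow_add]; ring
      have hs1 : (1 : ℤ) ≤ 2 ^ s1 := one_le_pow₀ (by norm_num)
      have hsn : n ≤ 2 ^ s1 * n := by nlinarith
      rw [hs3] at hnJ hnD
      have hJ : e2 + s1 ≤ q + J := by
        have h1 : (2 : ℤ) ^ (e2 + s1) ≤ 2 ^ (q + J) := by
          rw [pow_add]
          nlinarith
        exact (pow_le_pow_iff_right₀ (by norm_num : (1 : ℤ) < 2)).mp h1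
      have hD : (2 : ℤ) ^ (e2 + s1) ≤ D := by
        rw [pow_add]
        nlinarith
      have hSq : Sq (m.pos b) (2 ^ (e2 + 2)) ⊆ Sq 0 D := by
        have h4 : (2 : ℤ) ^ (e2 + 2) = 4 * 2 ^ e2 := by rw [pow_add]; ring
        rw [h4]
        rintro ⟨y1, y2⟩ ⟨⟨c1, c2⟩, c3, c4⟩
        simp only at c1 c2 c3 c4
        refine ⟨⟨?_, ?_⟩, ?_, ?_⟩ <;> simp only [Prod.fst_zero, Prod.snd_zero] <;> linarith
      have ha := harms α q J D κ m h hq0 (q + j + 2) e2 (by omega) he12 hJ hD (m.pos b)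
        (h.pos_even b) hSq l
      have hsub : {ω | b ∈ Rev (m.near q) (fun v ω => m.F J ω v ≤ l) (Tree n u t) ω} ⊆
          {ω | ∀ e, q + j + 2 ≤ e → e ≤ e2 → ω ∉ Mono m J e (m.pos b) l} := by
        rintro ω ⟨v, hv, hb⟩ e h1 h2
        have h3 : 3 * (2 : ℤ) ^ e ≤ d := by
          have : (2 : ℤ) ^ e ≤ 2 ^ e2 := pow_le_pow_right₀ (by norm_num) h2
          linarith
        exact o3_geom hd1 hd2 hv (hmem v hb) h1 h3
      have hle : rvl m q J n u t l b ≤ C5 * (2 : ℝ) ^ (-(η * ((e2 : ℝ) - ((q + j + 2 : ℕ) : ℝ)))) :=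
        le_trans (o3_meas_le hsub) ha
      refine le_trans hle ?_
      -- real arithmetic
      have hpw : (2 : ℝ) ^ (-(η * ((e2 : ℝ) - ((q + j + 2 : ℕ) : ℝ)))) =
          ((2 : ℝ) ^ (q + j + 2) / 2 ^ e2) ^ η := by
        rw [Real.div_rpow (by positivity) (by positivity), ← Real.rpow_natCast, ← Real.rpow_natCast,
          ← Real.rpow_mul (by norm_num), ← Real.rpow_mul (by norm_num), ← Real.rpow_sub (by norm_num)]
        congr 1
        ring
      rw [hpw]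
      have hle2 : (2 : ℝ) ^ (q + j + 2) / 2 ^ e2 ≤ 24 * ((2 : ℝ) ^ (q + j) / d) := by
        have h6 : (d : ℝ) < 6 * 2 ^ e2 := by exact_mod_cast hz2
        rw [pow_add, ← mul_div_assoc, div_le_div_iff₀ (by positivity) hd0]
        nlinarith
      have h24 : ((24 : ℝ)) ^ η ≤ 24 := by
        calc (24 : ℝ) ^ η ≤ 24 ^ (1 : ℝ) := Real.rpow_le_rpow_of_exponent_le (by norm_num)
              (by linarith)
          _ = 24 := Real.rpow_one _
      calc C5 * ((2 : ℝ) ^ (q + j + 2) / 2 ^ e2) ^ η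
          ≤ C5 * (24 * ((2 : ℝ) ^ (q + j) / d)) ^ η := by
            apply mul_le_mul_of_nonneg_left _ (by linarith)
            exact Real.rpow_le_rpow (by positivity) hle2 hη.le
        _ = C5 * (24 ^ η * ((2 : ℝ) ^ (q + j) / d) ^ η) := by
            rw [Real.mul_rpow (by norm_num) hx0.le]
        _ ≤ C5 * (24 * ((2 : ℝ) ^ (q + j) / d) ^ η) := by
            apply mul_le_mul_of_nonneg_left _ (by linarith)
            exact mul_le_mul_of_nonneg_right h24 hrpow0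
        _ = 24 * C5 * ((2 : ℝ) ^ (q + j) / d) ^ η := by ring

end NU53
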