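import Pool.Agent.LibNU53.O3

/-! Row O4. Average of the revealment over the lines.
PLAN. `d = min(|x.1-u|, |x.2-t|)` or the trivial bound if it is `0`:
`rvl ≤ C5 ((R/d1)^η + (R/d2)^η)` with `d_i` replaced by `max 1 d_i` (`R = 2^(q+j) ≥ 1`, so the trivial
bound `1` is included), and `∑_{u=0}^n (1/max(1,|x-u|))^η ≤ 2 ∑_{k=0}^{n} (1/max(1,k))^η ≤ 2(1 + 2 n^(1-η)) ≤
6 n^(1-η)` (`η ≤ 1/2`). So the average over `(n+1)²` is `≤ C6 (R/n)^η`. For `2^(q+j) > n` use `rvl ≤ 1`.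
MEDIUM. -/

open MeasureTheory ProbabilityTheory

namespace NU53

private theorem o4_point {η R n D : ℝ} (h0 : 0 < η) (h1 : η ≤ 1 / 2) (hR : 0 ≤ R) (hn : 1 ≤ n)
    (hD : 1 ≤ D) : (R / D) ^ η ≤ (R / n) ^ η * (1 + Real.sqrt n * (1 / Real.sqrt D)) := by
  have hn0 : 0 < n := by linarith
  have hD0 : 0 < D := by linarith
  have e : R / D = R / n * (n / D) := by field_simp
  rw [e, Real.mul_rpow (by positivity) (by positivity)]
  apply mul_le_mul_of_nonneg_left _ (by positivity)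
  have e2 : Real.sqrt n * (1 / Real.sqrt D) = Real.sqrt (n / D) := by
    rw [Real.sqrt_div hn0.le, mul_one_div]
  rw [e2]
  rcases le_total (n / D) 1 with h | h
  · have := Real.rpow_le_one (by positivity) h h0.le
    have h3 := Real.sqrt_nonneg (n / D)
    linarith
  · have h3 := Real.rpow_le_rpow_of_exponent_le h h1
    rw [← Real.sqrt_eq_rpow] at h3
    linarith

private noncomputable def o4g (k : ℤ) : ℝ := 1 / Real.sqrt (max 1 (k : ℝ))

private theorem o4g_nonneg (k : ℤ) : 0 ≤ o4g k := by unfold o4g; positivity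

private theorem o4g_anti {k k' : ℤ} (h : k ≤ k') : o4g k' ≤ o4g k := by
  unfold o4g
  have h1 : (k : ℝ) ≤ k' := by exact_mod_cast h
  have h2 : (1 : ℝ) ≤ max 1 (k : ℝ) := le_max_left _ _
  apply one_div_le_one_div_of_le (Real.sqrt_pos.2 (by linarith))
  exact Real.sqrt_le_sqrt (max_le_max le_rfl h1)

private theorem o4_G (N : ℕ) : ∑ k ∈ Finset.Icc (0 : ℤ) N, o4g k ≤ 1 + 2 * Real.sqrt N := by
  induction N with
  | zero => simp [o4g]
  | succ N ih =>
    have e : Finset.Icc (0 : ℤ) ((N + 1 : ℕ) : ℤ) =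
        insert ((N + 1 : ℕ) : ℤ) (Finset.Icc (0 : ℤ) N) := by
      ext k
      simp only [Finset.mem_Icc, Finset.mem_insert]
      push_cast
      omega
    have hni : ((N + 1 : ℕ) : ℤ) ∉ Finset.Icc (0 : ℤ) N := by
      simp only [Finset.mem_Icc]
      push_cast
      omega
    rw [e, Finset.sum_insert hni]
    have hN0 : (0 : ℝ) ≤ N := Nat.cast_nonneg _
    have hg : o4g ((N + 1 : ℕ) : ℤ) = 1 / Real.sqrt ((N : ℝ) + 1) := by
      unfold o4g
      push_cast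
      rw [max_eq_right (by linarith)]
    have hs : 0 < Real.sqrt ((N : ℝ) + 1) := Real.sqrt_pos.2 (by linarith)
    have hs1 : Real.sqrt ((N : ℝ) + 1) ^ 2 = N + 1 := Real.sq_sqrt (by linarith)
    have hs2 : Real.sqrt (N : ℝ) ^ 2 = N := Real.sq_sqrt hN0
    have hs3 : 0 ≤ Real.sqrt (N : ℝ) := Real.sqrt_nonneg _
    have key : 1 / Real.sqrt ((N : ℝ) + 1) ≤
        2 * Real.sqrt ((N : ℝ) + 1) - 2 * Real.sqrt (N : ℝ) := by
      rw [div_le_iff₀ hs]
      nlinarith [sq_nonneg (Real.sqrt ((N : ℝ) + 1) - Real.sqrt (N : ℝ))]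
    rw [hg]
    push_cast
    linarith

private theorem o4_inj {n : ℤ} (A : Finset ℤ) (f : ℤ → ℤ)
    (hf : ∀ u ∈ A, f u ∈ Finset.Icc 0 n) (hinj : Set.InjOn f A) :
    ∑ u ∈ A, o4g (f u) ≤ ∑ k ∈ Finset.Icc (0 : ℤ) n, o4g k := by
  rw [← Finset.sum_image hinj]
  apply Finset.sum_le_sum_of_subset_of_nonneg
  · intro k hk
    obtain ⟨u, hu, rfl⟩ := Finset.mem_image.1 hk
    exact hf u hu
  · intro k _ _
    exact o4g_nonneg k

private theorem o4_line (y : ℤ) {n : ℤ} (hn : 1 ≤ n) :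
    ∑ u ∈ Finset.Icc (0 : ℤ) n, o4g |y - u| ≤ 6 * Real.sqrt n := by
  have hG : ∑ k ∈ Finset.Icc (0 : ℤ) n, o4g k ≤ 3 * Real.sqrt n := by
    obtain ⟨N, rfl⟩ := Int.eq_ofNat_of_zero_le (by omega : 0 ≤ n)
    have h1 := o4_G N
    have h2 : (1 : ℝ) ≤ Real.sqrt ((N : ℤ) : ℝ) := by
      rw [Real.one_le_sqrt]
      exact_mod_cast hn
    have h3 : (((N : ℤ)) : ℝ) = (N : ℝ) := by norm_cast
    rw [h3] at h2 ⊢
    linarith
  rw [← Finset.sum_filter_add_sum_filter_not (Finset.Icc (0 : ℤ) n) (fun u => y ≤ u)]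
  have hA : ∑ u ∈ (Finset.Icc (0 : ℤ) n).filter (fun u => y ≤ u), o4g |y - u| ≤
      ∑ k ∈ Finset.Icc (0 : ℤ) n, o4g k := by
    refine le_trans (Finset.sum_le_sum (g := fun u => o4g (u - max y 0)) ?_) ?_
    · intro u hu
      rw [Finset.mem_filter, Finset.mem_Icc] at hu
      apply o4g_anti
      rw [abs_sub_comm, abs_of_nonneg (by omega)]
      omega
    · apply o4_inj
      · intro u hu
        rw [Finset.mem_filter, Finset.mem_Icc] at hu
        rw [Finset.mem_Icc]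
        omega
      · intro u _ v _ huv
        have huv' : u - max y 0 = v - max y 0 := huv
        omega
  have hB : ∑ u ∈ (Finset.Icc (0 : ℤ) n).filter (fun u => ¬ y ≤ u), o4g |y - u| ≤
      ∑ k ∈ Finset.Icc (0 : ℤ) n, o4g k := by
    refine le_trans (Finset.sum_le_sum (g := fun u => o4g (min y n - u)) ?_) ?_
    · intro u hu
      rw [Finset.mem_filter, Finset.mem_Icc] at hu
      apply o4g_anti
      rw [abs_of_nonneg (by omega)]
      omega
    · apply o4_inj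
      · intro u hu
        rw [Finset.mem_filter, Finset.mem_Icc] at hu
        rw [Finset.mem_Icc]
        omega
      · intro u _ v _ huv
        have huv' : min y n - u = min y n - v := huv
        omega
  linarith

private theorem o4_line' {η R : ℝ} {n : ℤ} (h0 : 0 < η) (h1 : η ≤ 1 / 2) (hR : 0 ≤ R)
    (hn : 1 ≤ n) (y : ℤ) :
    ∑ u ∈ Finset.Icc (0 : ℤ) n, (R / max 1 ((|y - u| : ℤ) : ℝ)) ^ η ≤
      7 * (n + 1) * (R / n) ^ η := by
  have hnR : (1 : ℝ) ≤ n := by exact_mod_cast hn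
  have h2 : ∑ u ∈ Finset.Icc (0 : ℤ) n, (R / max 1 ((|y - u| : ℤ) : ℝ)) ^ η ≤
      ∑ u ∈ Finset.Icc (0 : ℤ) n, (R / n) ^ η * (1 + Real.sqrt n * o4g |y - u|) :=
    Finset.sum_le_sum fun u _ => o4_point h0 h1 hR hnR (le_max_left _ _)
  refine h2.trans ?_
  rw [← Finset.mul_sum, Finset.sum_add_distrib, ← Finset.mul_sum, Finset.sum_const, nsmul_eq_mul,
    mul_one, Int.card_Icc]
  have h3 := o4_line y hn
  have h4 : (((n + 1 - 0).toNat : ℕ) : ℝ) = n + 1 := by
    have : (((n + 1 - 0).toNat : ℕ) : ℤ) = n + 1 := by omega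
    exact_mod_cast this
  rw [h4]
  have h5 : Real.sqrt n * ∑ u ∈ Finset.Icc (0 : ℤ) n, o4g |y - u| ≤ 6 * n := by
    calc Real.sqrt n * ∑ u ∈ Finset.Icc (0 : ℤ) n, o4g |y - u|
        ≤ Real.sqrt n * (6 * Real.sqrt n) := mul_le_mul_of_nonneg_left h3 (Real.sqrt_nonneg _)
      _ = 6 * (Real.sqrt n * Real.sqrt n) := by ring
      _ = 6 * n := by rw [Real.mul_self_sqrt (by linarith)]
  have h6 : 0 ≤ (R / n) ^ η := by positivity
  nlinarith

theorem rvl_avg (C c : ℝ) (hc : 0 < c) : ∃ (η C6 : ℝ) (s1 q0 : ℕ), 0 < η ∧ η ≤ 1 / 2 ∧ 1 ≤ C6 ∧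
    ∀ (α : ℝ) (q J : ℕ) (D : ℤ) (κ : ℕ → V → ℝ) (m : Mdl), IsMdl C c α q J D κ m → q0 ≤ q →
    ∀ n : ℤ, 1 ≤ n → 2 ^ s1 * n ≤ 2 ^ (q + J) → 2 ^ s1 * n ≤ D → ∀ (b : m.B) (l : ℝ),
    ∑ p ∈ BoxF n, rvl m q J n p.1 p.2 l b ≤
      (n + 1) ^ 2 * (C6 * min 1 (((2 : ℝ) ^ (q + m.lev b) / n) ^ η)) := by
  obtain ⟨η, C5, s1, q0, h1, h2, h3, H⟩ := rvl_le C c hc
  refine ⟨η, 14 * C5, s1, q0, h1, h2, by linarith, ?_⟩
  intro α q J D κ m hm hq n hn hJ hD b l
  have hnR : (1 : ℝ) ≤ n := by exact_mod_cast hn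
  have hR1 : (1 : ℝ) ≤ (2 : ℝ) ^ (q + m.lev b) := one_le_pow₀ (by norm_num)
  have htriv : ∀ u t, rvl m q J n u t l b ≤ 1 := fun u t => measureReal_le_one
  have hcard : ((BoxF n).card : ℝ) = (n + 1) ^ 2 := by
    unfold BoxF
    rw [Finset.card_product, Int.card_Icc]
    have h4 : (((n + 1 - 0).toNat : ℕ) : ℝ) = n + 1 := by
      have : (((n + 1 - 0).toNat : ℕ) : ℤ) = n + 1 := by omega
      exact_mod_cast this
    push_cast
    rw [h4]
    ring
  by_cases hRn : (2 : ℤ) ^ (q + m.lev b) ≤ n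
  · have hRnR : (2 : ℝ) ^ (q + m.lev b) ≤ n := by exact_mod_cast hRn
    set R : ℝ := (2 : ℝ) ^ (q + m.lev b) with hRdef
    have hmin : min 1 ((R / n) ^ η) = (R / n) ^ η := by
      apply min_eq_right
      apply Real.rpow_le_one (by positivity) _ h1.le
      rw [div_le_one (by linarith)]
      exact hRnR
    rw [hmin]
    have hp : ∀ p ∈ BoxF n, rvl m q J n p.1 p.2 l b ≤
        C5 * (R / max 1 ((|(m.pos b).1 - p.1| : ℤ) : ℝ)) ^ η +
          C5 * (R / max 1 ((|(m.pos b).2 - p.2| : ℤ) : ℝ)) ^ η := by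
      intro p hp
      unfold BoxF at hp
      rw [Finset.mem_product, Finset.mem_Icc, Finset.mem_Icc] at hp
      obtain ⟨⟨p1, p2⟩, p3, p4⟩ := hp
      have hpos : ∀ z : ℤ, 0 ≤ C5 * (R / max 1 (z : ℝ)) ^ η := by
        intro z
        have : (0 : ℝ) < max 1 (z : ℝ) := lt_max_of_lt_left one_pos
        positivity
      have hbig : ∀ z : ℤ, z ≤ 0 → 1 ≤ C5 * (R / max 1 (z : ℝ)) ^ η := by
        intro z hz
        have hz' : (z : ℝ) ≤ 1 := by
          have : (z : ℝ) ≤ 0 := by exact_mod_cast hz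
          linarith
        rw [max_eq_left hz', div_one]
        exact one_le_mul_of_one_le_of_one_le h3 (Real.one_le_rpow hR1 h1.le)
      by_cases hz1 : |(m.pos b).1 - p.1| ≤ 0
      · linarith [hbig _ hz1, hpos |(m.pos b).2 - p.2|, htriv p.1 p.2]
      · by_cases hz2 : |(m.pos b).2 - p.2| ≤ 0
        · linarith [hbig _ hz2, hpos |(m.pos b).1 - p.1|, htriv p.1 p.2]
        · push Not at hz1 hz2
          have key : ∀ d : ℤ, 1 ≤ d → d ≤ |(m.pos b).1 - p.1| → d ≤ |(m.pos b).2 - p.2| →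
              rvl m q J n p.1 p.2 l b ≤ C5 * (R / max 1 (d : ℝ)) ^ η := by
            intro d hd hd1 hd2
            have hd' : (1 : ℝ) ≤ d := by exact_mod_cast hd
            rw [max_eq_right hd']
            exact H α q J D κ m hm hq n hn hJ hD b hRn p.1 p.2 p1 p2 p3 p4 d hd hd1 hd2 l
          rcases le_total |(m.pos b).1 - p.1| |(m.pos b).2 - p.2| with hle | hle
          · linarith [key _ (by omega) le_rfl hle, hpos |(m.pos b).2 - p.2|]
          · linarith [key _ (by omega) hle le_rfl, hpos |(m.pos b).1 - p.1|]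
    refine (Finset.sum_le_sum hp).trans ?_
    have hN : ∀ f : ℤ → ℝ, ∑ p ∈ BoxF n, f p.1 = (n + 1) * ∑ u ∈ Finset.Icc (0 : ℤ) n, f u := by
      intro f
      unfold BoxF
      rw [Finset.sum_product, Finset.mul_sum]
      apply Finset.sum_congr rfl
      intro u _
      simp only
      rw [Finset.sum_const, nsmul_eq_mul, Int.card_Icc]
      have h4 : (((n + 1 - 0).toNat : ℕ) : ℝ) = n + 1 := by
        have : (((n + 1 - 0).toNat : ℕ) : ℤ) = n + 1 := by omega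
        exact_mod_cast this
      rw [h4]
    have hN' : ∀ f : ℤ → ℝ, ∑ p ∈ BoxF n, f p.2 = (n + 1) * ∑ u ∈ Finset.Icc (0 : ℤ) n, f u := by
      intro f
      unfold BoxF
      rw [Finset.sum_product_right, Finset.mul_sum]
      apply Finset.sum_congr rfl
      intro u _
      simp only
      rw [Finset.sum_const, nsmul_eq_mul, Int.card_Icc]
      have h4 : (((n + 1 - 0).toNat : ℕ) : ℝ) = n + 1 := by
        have : (((n + 1 - 0).toNat : ℕ) : ℤ) = n + 1 := by omega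
        exact_mod_cast this
      rw [h4]
    rw [Finset.sum_add_distrib,
      hN (fun u => C5 * (R / max 1 ((|(m.pos b).1 - u| : ℤ) : ℝ)) ^ η),
      hN' (fun u => C5 * (R / max 1 ((|(m.pos b).2 - u| : ℤ) : ℝ)) ^ η),
      ← Finset.mul_sum, ← Finset.mul_sum]
    have hR0 : 0 ≤ R := by linarith
    have hA := o4_line' h1 h2 hR0 hn (m.pos b).1
    have hB := o4_line' h1 h2 hR0 hn (m.pos b).2
    have hn1 : (0 : ℝ) ≤ n + 1 := by linarith
    have hC0 : (0 : ℝ) ≤ (n + 1) * C5 := by positivity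
    have hA' := mul_le_mul_of_nonneg_left hA hC0
    have hB' := mul_le_mul_of_nonneg_left hB hC0
    calc _ = (n + 1) * C5 * (∑ u ∈ Finset.Icc (0 : ℤ) n,
            (R / max 1 ((|(m.pos b).1 - u| : ℤ) : ℝ)) ^ η) +
          (n + 1) * C5 * (∑ u ∈ Finset.Icc (0 : ℤ) n,
            (R / max 1 ((|(m.pos b).2 - u| : ℤ) : ℝ)) ^ η) := by ring
      _ ≤ (n + 1) * C5 * (7 * (n + 1) * (R / n) ^ η) +
          (n + 1) * C5 * (7 * (n + 1) * (R / n) ^ η) := add_le_add hA' hB'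
      _ = _ := by ring
  · push Not at hRn
    have hRnR : (n : ℝ) ≤ (2 : ℝ) ^ (q + m.lev b) := by exact_mod_cast hRn.le
    have hmin : min 1 (((2 : ℝ) ^ (q + m.lev b) / n) ^ η) = 1 := by
      apply min_eq_left
      apply Real.one_le_rpow _ h1.le
      rw [one_le_div (by linarith)]
      exact hRnR
    rw [hmin, mul_one]
    calc ∑ p ∈ BoxF n, rvl m q J n p.1 p.2 l b ≤ ∑ p ∈ BoxF n, (1 : ℝ) :=
          Finset.sum_le_sum fun p _ => htriv _ _
      _ = (n + 1) ^ 2 := by rw [Finset.sum_const, nsmul_eq_mul, mul_one, hcard]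
      _ ≤ (n + 1) ^ 2 * (14 * C5) := le_mul_of_one_le_right (by positivity) (by linarith)

end NU53
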