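import Pool.Agent.LibNU53.Mod

/-! Row R0. Measurability and Gaussianity.
`meas_gt`, `meas_le`: the set `{v | t < g v ω}` intersected with the finite set `Λ` takes finitely many
values; `E` depends on it only. (`{ω | E {v | t < g v ω}}` is the finite union over subsets `T ⊆ Λ` with
`E T` of `{ω | {v | t < g v ω} ∩ Λ = T}`.)
`gauss_fl`: a finite family of linear combinations of independent standard Gaussians has a Gaussian
law (`HasGaussianLaw`); `HasGaussianLaw` is preserved by continuous linear maps; the product measure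
`Measure.pi` of Gaussian measures is Gaussian (look at `Mathlib/Probability/Distributions/Gaussian`).
`cov_fl`: covariance formula. MEDIUM. -/

open MeasureTheory ProbabilityTheory

namespace NU53

private theorem r0_meas {Ω : Type*} [MeasurableSpace Ω] {Λ : Set V} (hΛ : Λ.Finite)
    {E : Set V → Prop} (hE : Loc Λ E) (P : V → Ω → Prop)
    (hP : ∀ v ∈ Λ, MeasurableSet {ω | P v ω}) :
    MeasurableSet {ω | E {v | P v ω}} := by
  classical
  have key : {ω | E {v | P v ω}} = ⋃ T ∈ (hΛ.toFinset.powerset : Finset (Finset V)),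
      ⋃ (_ : E (↑T : Set V)), ⋂ v ∈ hΛ.toFinset, {ω | v ∈ T ↔ P v ω} := by
    ext ω
    simp only [Set.mem_ofPred_eq, Set.mem_iUnion, Set.mem_iInter, exists_prop]
    constructor
    · intro h
      refine ⟨hΛ.toFinset.filter (fun v => P v ω), ?_, ?_, ?_⟩
      · exact Finset.mem_powerset.mpr (Finset.filter_subset _ _)
      · refine hE _ _ ?_ h
        ext v
        simp only [Set.mem_inter_iff, Set.mem_ofPred_eq, Finset.coe_filter,
          Set.Finite.mem_toFinset]
        tauto
      · intro v hv
        simp only [Finset.mem_filter]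
        tauto
    · rintro ⟨T, hT, hET, h⟩
      refine hE _ _ ?_ hET
      ext v
      simp only [Set.mem_inter_iff, Set.mem_ofPred_eq, Finset.mem_coe]
      constructor
      · rintro ⟨h1, h2⟩
        exact ⟨(h v (hΛ.mem_toFinset.mpr h2)).mp h1, h2⟩
      · rintro ⟨h1, h2⟩
        exact ⟨(h v (hΛ.mem_toFinset.mpr h2)).mpr h1, h2⟩
  rw [key]
  refine Finset.measurableSet_biUnion _ fun T _ => MeasurableSet.iUnion fun _ =>
    Finset.measurableSet_biInter _ fun v hv => ?_
  have hPv := hP v (hΛ.mem_toFinset.mp hv)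
  by_cases hvT : v ∈ T
  · have : {ω | v ∈ T ↔ P v ω} = {ω | P v ω} := by
      ext ω
      simp [hvT]
    rw [this]
    exact hPv
  · have : {ω | v ∈ T ↔ P v ω} = {ω | P v ω}ᶜ := by
      ext ω
      simp [hvT]
    rw [this]
    exact hPv.compl

theorem meas_gt {Ω : Type*} [MeasurableSpace Ω] {Λ : Set V} (hΛ : Λ.Finite) {E : Set V → Prop}
    (hE : Loc Λ E) (g : V → Ω → ℝ) (hg : ∀ v ∈ Λ, Measurable (g v)) (t : ℝ) :
    MeasurableSet {ω | E {v | t < g v ω}} :=
  r0_meas hΛ hE (fun v ω => t < g v ω) fun v hv => measurableSet_lt measurable_const (hg v hv)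

theorem meas_le {Ω : Type*} [MeasurableSpace Ω] {Λ : Set V} (hΛ : Λ.Finite) {E : Set V → Prop}
    (hE : Loc Λ E) (g : V → Ω → ℝ) (hg : ∀ v ∈ Λ, Measurable (g v)) (t : ℝ) :
    MeasurableSet {ω | E {v | g v ω ≤ t}} :=
  r0_meas hΛ hE (fun v ω => g v ω ≤ t) fun v hv => measurableSet_le (hg v hv) measurable_const

theorem meas_fl (m : Mdl) (A : Finset m.B) (v : V) : Measurable (fun ω => m.fl A ω v) := by
  unfold Mdl.fl
  fun_prop

private theorem r0_law (M : ℕ) (i : Fin M) :
    (gam M).map (fun x => x i) = gaussianReal 0 1 :=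
  (measurePreserving_eval (fun _ : Fin M => gaussianReal 0 1) i).map_eq

private theorem r0_gam (M : ℕ) : HasGaussianLaw (fun x : Fin M → ℝ => (x · )) (gam M) := by
  refine iIndepFun.hasGaussianLaw (X := fun i (x : Fin M → ℝ) => x i) ?_ ?_
  · intro i
    refine ⟨?_⟩
    rw [r0_law]
    infer_instance
  · exact iIndepFun_pi (μ := fun _ : Fin M => gaussianReal 0 1)
      (X := fun _ => (id : ℝ → ℝ)) (fun _ => aemeasurable_id)

private theorem r0_lawB (m : Mdl) (b : m.B) : m.mu.map (fun ω => ω b) = gam m.M :=
  (measurePreserving_eval (fun _ : m.B => gam m.M) b).map_eq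

private theorem r0_mu (m : Mdl) : HasGaussianLaw (fun ω : m.Om => (ω · )) m.mu := by
  refine iIndepFun.hasGaussianLaw (X := fun b (ω : m.Om) => ω b) ?_ ?_
  · intro b
    refine ⟨?_⟩
    rw [r0_lawB]
    have := (r0_gam m.M).isGaussian_map
    simpa using this
  · exact iIndepFun_pi (μ := fun _ : m.B => gam m.M)
      (X := fun _ => (id : (Fin m.M → ℝ) → (Fin m.M → ℝ))) (fun _ => aemeasurable_id)

private noncomputable def r0_lin (m : Mdl) {ι : Type*} (A : ι → Finset m.B) (p : ι → V) :
    m.Om →ₗ[ℝ] (ι → ℝ) where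
  toFun ω i := m.fl (A i) ω (p i)
  map_add' ω ω' := by
    funext i
    simp only [Mdl.fl, Pi.add_apply, mul_add, Finset.sum_add_distrib]
  map_smul' r ω := by
    funext i
    simp only [Mdl.fl, Pi.smul_apply, smul_eq_mul, RingHom.id_apply, Finset.mul_sum]
    refine Finset.sum_congr rfl fun b _ => Finset.sum_congr rfl fun j _ => ?_
    ring

theorem gauss_fl (m : Mdl) {ι : Type*} [Fintype ι] (A : ι → Finset m.B) (p : ι → V) :
    HasGaussianLaw (fun ω i => m.fl (A i) ω (p i)) m.mu := by
  have h := (r0_mu m).map_fun (LinearMap.toContinuousLinearMap (r0_lin m A p))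
  exact h

private theorem r0_glc (m : Mdl) (b : m.B) (i : Fin m.M) :
    HasGaussianLaw (fun ω : m.Om => ω b i) m.mu := by
  refine ⟨?_⟩
  have h1 : m.mu.map (fun ω => ω b i) = gaussianReal 0 1 := by
    rw [← r0_law m.M i, ← r0_lawB m b, Measure.map_map (measurable_pi_apply i)
      (measurable_pi_apply b)]
    rfl
  rw [h1]
  infer_instance

private theorem r0_mean (m : Mdl) (b : m.B) (i : Fin m.M) : ∫ ω, ω b i ∂m.mu = 0 := by
  have h1 : m.mu.map (fun ω => ω b i) = gaussianReal 0 1 := by
    rw [← r0_law m.M i, ← r0_lawB m b, Measure.map_map (measurable_pi_apply i)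
      (measurable_pi_apply b)]
    rfl
  have hm : Measurable (fun ω : m.Om => ω b i) :=
    (measurable_pi_apply i).comp (measurable_pi_apply b)
  have h2 := integral_map (μ := m.mu) hm.aemeasurable (f := fun x : ℝ => x)
    measurable_id.aestronglyMeasurable
  rw [h1, integral_id_gaussianReal] at h2
  exact h2.symm

theorem mean_fl (m : Mdl) (A : Finset m.B) (v : V) : ∫ ω, m.fl A ω v ∂m.mu = 0 := by
  unfold Mdl.fl
  rw [integral_finsetSum]
  · refine Finset.sum_eq_zero fun b _ => ?_
    rw [integral_finsetSum]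
    · refine Finset.sum_eq_zero fun i _ => ?_
      rw [integral_const_mul, r0_mean, mul_zero]
    · intro i _
      exact (r0_glc m b i).integrable.const_mul _
  · intro b _
    exact integrable_finsetSum _ fun i _ => (r0_glc m b i).integrable.const_mul _

private theorem r0_cov (m : Mdl) (b b' : m.B) (i i' : Fin m.M) :
    covariance (fun ω => ω b i) (fun ω => ω b' i') m.mu = if b = b' ∧ i = i' then 1 else 0 := by
  by_cases hb : b = b'
  · subst hb
    have h1 : covariance (fun ω : m.Om => ω b i) (fun ω => ω b i') m.mu =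
        covariance (fun x : Fin m.M → ℝ => x i) (fun x => x i') (gam m.M) := by
      have h := covariance_map_fun (μ := m.mu) (Z := fun ω : m.Om => ω b)
        (X := fun x : Fin m.M → ℝ => x i) (Y := fun x : Fin m.M → ℝ => x i')
        (measurable_pi_apply i).aestronglyMeasurable (measurable_pi_apply i').aestronglyMeasurable
        (measurable_pi_apply b).aemeasurable
      rw [r0_lawB] at h
      exact h.symm
    rw [h1]
    by_cases hi : i = i'
    · subst hi
      simp only [and_self, if_true]
      have h2 : covariance (fun x : Fin m.M → ℝ => x i) (fun x => x i) (gam m.M) =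
          covariance (fun y : ℝ => y) (fun y => y) (gaussianReal 0 1) := by
        have h := covariance_map_fun (μ := gam m.M) (Z := fun x : Fin m.M → ℝ => x i)
          (X := fun y : ℝ => y) (Y := fun y : ℝ => y) measurable_id.aestronglyMeasurable
          measurable_id.aestronglyMeasurable (measurable_pi_apply i).aemeasurable
        rw [r0_law] at h
        exact h.symm
      rw [h2, covariance_self (by fun_prop), variance_fun_id_gaussianReal]
      simp
    · simp only [true_and, hi, if_false]
      have hind : IndepFun (fun x : Fin m.M → ℝ => x i) (fun x => x i') (gam m.M) :=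
        (iIndepFun_pi (μ := fun _ : Fin m.M => gaussianReal 0 1)
          (X := fun _ => (id : ℝ → ℝ)) (fun _ => aemeasurable_id)).indepFun hi
      exact hind.covariance_eq_zero ((r0_gam m.M).eval i).memLp_two
        ((r0_gam m.M).eval i').memLp_two
  · simp only [hb, false_and, if_false]
    have hind : IndepFun (fun ω : m.Om => ω b) (fun ω => ω b') m.mu :=
      (iIndepFun_pi (μ := fun _ : m.B => gam m.M)
        (X := fun _ => (id : (Fin m.M → ℝ) → (Fin m.M → ℝ))) (fun _ => aemeasurable_id)).indepFun hb
    have h2 := hind.comp (measurable_pi_apply i) (measurable_pi_apply i')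
    exact h2.covariance_eq_zero (r0_glc m b i).memLp_two (r0_glc m b' i').memLp_two

theorem cov_fl (m : Mdl) (A A' : Finset m.B) (u v : V) :
    covariance (fun ω => m.fl A ω u) (fun ω => m.fl A' ω v) m.mu =
      ∑ b ∈ A ∩ A', ∑ i, m.a b i u * m.a b i v := by
  have hL : ∀ (b : m.B) (i : Fin m.M) (r : ℝ), MemLp (fun ω : m.Om => r * ω b i) 2 m.mu :=
    fun b i r => (r0_glc m b i).memLp_two.const_mul r
  unfold Mdl.fl
  rw [covariance_fun_sum_fun_sum' (fun b _ => memLp_finsetSum _ fun i _ => hL b i _)
    (fun b _ => memLp_finsetSum _ fun i _ => hL b i _)]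
  have h1 : ∀ b ∈ A, ∑ b' ∈ A', covariance (fun ω : m.Om => ∑ i, m.a b i u * ω b i)
      (fun ω => ∑ i, m.a b' i v * ω b' i) m.mu =
      if b ∈ A' then ∑ i, m.a b i u * m.a b i v else 0 := by
    intro b _
    have h2 : ∀ b' ∈ A', covariance (fun ω : m.Om => ∑ i, m.a b i u * ω b i)
      (fun ω => ∑ i, m.a b' i v * ω b' i) m.mu =
        if b = b' then ∑ i, m.a b i u * m.a b i v else 0 := by
      intro b' _
      rw [covariance_fun_sum_fun_sum (fun i => hL b i _) (fun i => hL b' i _)]
      simp only [covariance_const_mul_left, covariance_const_mul_right, r0_cov]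
      by_cases hb : b = b'
      · subst hb
        simp [mul_comm]
      · simp [hb]
    rw [Finset.sum_congr rfl h2, Finset.sum_ite_eq]
  rw [Finset.sum_congr rfl h1, Finset.sum_ite_mem]

end NU53
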