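import Pool.Agent.LibNU53.R2
import Pool.Agent.LibNU53.Sym
import Pool.Agent.LibNU53.HexE
import Pool.Agent.LibNU53.HexU

/-! Row R3 (SELF-DUALITY). `P(LR of [-r,r]² in {F_k > 0}) = 1/2`.
PLAN. Exactly one of `LR {F > 0}`, `TB {F > 0}ᶜ` (`hex_exists`, `hex_unique`); `{F > 0}ᶜ = {F < 0}` on the box
a.s. (`no_val`); `P(TB {F < 0}) = P(TB {F > 0})` (`pr_neg`), and `P(TB) = P(LR)` by `tb_swap`, `pr_map` with
`τ = Prod.swap`. Second statement: for `P(TB)`. Third: the box `[0,2r]²` (translation by `(r,r)`). MEDIUM. -/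

open MeasureTheory ProbabilityTheory

namespace NU53

variable {C c α : ℝ} {q J : ℕ} {D : ℤ} {κ : ℕ → V → ℝ} {m : Mdl}

private theorem r3_box_sub {r D : ℤ} (hrD : r ≤ D) : Box (-r) r (-r) r ⊆ Sq 0 D := by
  rintro v ⟨⟨h1, h2⟩, h3, h4⟩
  simp only [Sq, Prod.fst_zero, Prod.snd_zero]
  exact ⟨⟨by omega, by omega⟩, by omega, by omega⟩

/-- the events with `≤` and `<` have the same probability -/
private theorem r3_le_lt (h : IsMdl C c α q J D κ m) {k : ℕ} (hk : k ≤ J) {Λ : Set V}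
    (hfin : Λ.Finite) {E : Set V → Prop} (hE : Loc Λ E) (hΛ : Λ ⊆ Sq 0 D) :
    m.mu.real {ω | E {v | m.F k ω v ≤ 0}} = m.mu.real {ω | E {v | m.F k ω v < 0}} := by
  have hnull : ∀ᵐ ω ∂m.mu, ∀ v ∈ Λ, m.F k ω v ≠ 0 := by
    rw [ae_ball_iff hfin.countable]
    intro v hv
    have := no_val h hk 0 (hΛ hv)
    rw [ae_iff]
    simpa using this
  apply measureReal_congr
  filter_upwards [hnull] with ω hω
  have he : {v | m.F k ω v ≤ 0} ∩ Λ = {v | m.F k ω v < 0} ∩ Λ := by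
    ext v
    constructor
    · rintro ⟨h1, h2⟩
      exact ⟨lt_of_le_of_ne h1 (hω v h2), h2⟩
    · rintro ⟨h1, h2⟩
      have h1' : m.F k ω v < 0 := h1
      exact ⟨h1'.le, h2⟩
  exact propext (hE.iff he)

private theorem r3_tb_lr (h : IsMdl C c α q J D κ m) {k : ℕ} (hk : k ≤ J) {r : ℤ}
    (hrD : r ≤ D) : m.Pr k 0 (TB (-r) r (-r) r) = m.Pr k 0 (LR (-r) r (-r) r) := by
  have hΛ : Box (-r) r (-r) r ⊆ Sq 0 D := r3_box_sub hrD
  have hLR : Loc (Box (-r) r (-r) r) (LR (-r) r (-r) r) := LR.loc subset_rfl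
  have e : TB (-r) r (-r) r = fun S => LR (-r) r (-r) r (Prod.swap ⁻¹' S) := by
    funext S
    exact propext (tb_swap (-r) r (-r) r S)
  rw [e]
  apply pr_map h hk 0 hLR hΛ
  · intro u hu
    obtain ⟨⟨h1, h2⟩, h3, h4⟩ := hΛ hu
    exact ⟨⟨h3, h4⟩, h1, h2⟩
  · intro j u _ v _
    exact h.swap j (u.1 - v.1) (u.2 - v.2)

theorem half_lr (h : IsMdl C c α q J D κ m) {k : ℕ} (hk : k ≤ J) {r : ℤ} (hr : 0 ≤ r)
    (hrD : r ≤ D) : m.Pr k 0 (LR (-r) r (-r) r) = 1 / 2 := by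
  have hΛ : Box (-r) r (-r) r ⊆ Sq 0 D := r3_box_sub hrD
  have hfin : (Box (-r) r (-r) r).Finite := Box_finite _ _ _ _
  have hLR : Loc (Box (-r) r (-r) r) (LR (-r) r (-r) r) := LR.loc subset_rfl
  have hTB : Loc (Box (-r) r (-r) r) (TB (-r) r (-r) r) := TB.loc subset_rfl
  have hmeas : MeasurableSet {ω | LR (-r) r (-r) r (m.Sk k 0 ω)} :=
    meas_gt hfin hLR (fun v ω => m.F k ω v) (fun v _ => meas_fl m (m.le k) v) 0
  have hcompl : {ω | LR (-r) r (-r) r (m.Sk k 0 ω)}ᶜ =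
      {ω | TB (-r) r (-r) r {v | m.F k ω v ≤ 0}} := by
    ext ω
    have hS : (m.Sk k 0 ω)ᶜ = {v | m.F k ω v ≤ 0} := by
      ext v
      exact not_lt (a := (0 : ℝ)) (b := m.F k ω v)
    constructor
    · intro hω
      rcases hex_exists (a := -r) (b := r) (c := -r) (d := r) (by omega) (by omega)
        (m.Sk k 0 ω) with h1 | h1
      · exact absurd h1 hω
      · rw [hS] at h1
        exact h1
    · intro hω h1
      refine hex_unique (m.Sk k 0 ω) h1 ?_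
      rw [hS]
      exact hω
  have h1 : m.mu.real {ω | LR (-r) r (-r) r (m.Sk k 0 ω)}ᶜ = m.Pr k 0 (LR (-r) r (-r) r) := by
    rw [hcompl, r3_le_lt h hk hfin hTB hΛ, ← r3_tb_lr h hk hrD, ← pr_neg h hk 0 hTB hΛ, neg_zero]
  have h2 : m.mu.real {ω | LR (-r) r (-r) r (m.Sk k 0 ω)}ᶜ =
      1 - m.mu.real {ω | LR (-r) r (-r) r (m.Sk k 0 ω)} := by
    rw [measureReal_compl hmeas]
    simp
  rw [h2] at h1
  have h3 : m.Pr k 0 (LR (-r) r (-r) r) = m.mu.real {ω | LR (-r) r (-r) r (m.Sk k 0 ω)} := rfl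
  linarith

theorem half_tb (h : IsMdl C c α q J D κ m) {k : ℕ} (hk : k ≤ J) {r : ℤ} (hr : 0 ≤ r)
    (hrD : r ≤ D) : m.Pr k 0 (TB (-r) r (-r) r) = 1 / 2 := by
  rw [r3_tb_lr h hk hrD, half_lr h hk hr hrD]

/-- for the box `[0,2r]²`, and for the complementary event at level `0` -/
theorem half_box (h : IsMdl C c α q J D κ m) {k : ℕ} (hk : k ≤ J) {r : ℤ} (hr : 0 ≤ r)
    (hrD : 2 * r ≤ D) : m.mu.real {ω | LR 0 (2 * r) 0 (2 * r) {v | m.F k ω v < 0}} = 1 / 2 := by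
  have hΛ : Box 0 (2 * r) 0 (2 * r) ⊆ Sq 0 D := by
    rintro v ⟨⟨h1, h2⟩, h3, h4⟩
    simp only [Sq, Prod.fst_zero, Prod.snd_zero]
    exact ⟨⟨by omega, by omega⟩, by omega, by omega⟩
  have hLR : Loc (Box 0 (2 * r) 0 (2 * r)) (LR 0 (2 * r) 0 (2 * r)) := LR.loc subset_rfl
  have h1 := pr_neg h hk 0 hLR hΛ
  rw [neg_zero] at h1
  rw [h1]
  have hw : Ev (r, r) := ⟨r, rfl⟩
  have e : LR 0 (2 * r) 0 (2 * r) = fun S => LR (-r) r (-r) r (tr (r, r) ⁻¹' S) := by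
    funext S
    have := lr_tr hw (-r) r (-r) r S
    rw [neg_add_cancel, ← two_mul] at this
    exact propext this
  rw [e, pr_map h hk 0 (LR.loc subset_rfl) (r3_box_sub (r := r) (D := D) (by omega)) (tr (r, r))]
  · exact half_lr h hk hr (by omega)
  · rintro u ⟨⟨h1, h2⟩, h3, h4⟩
    simp only [Sq, Prod.fst_zero, Prod.snd_zero, tr]
    refine ⟨⟨?_, ?_⟩, ?_, ?_⟩
    · rw [Prod.fst_add]; omega
    · rw [Prod.fst_add]; omega
    · rw [Prod.snd_add]; omega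
    · rw [Prod.snd_add]; omega
  · intro j u _ v _
    unfold tr
    rw [add_sub_add_right_eq_sub]

end NU53
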