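import Pool.Agent.LibNU53.O4
import Pool.Agent.LibNU53.R3
import Pool.Agent.LibNU53.R0
import Pool.Agent.LibNU53.T10

/-! Row O5 (DISCRETE THEOREM). PLAN. `osss_T` with `δ b = C6 min 1 (…)`, group the blocks by level
(`lev_le`), `infl_level` with `K = J`: `E|T-T'| ≤ ∑_j C6 √(π/2) C² σ_j min(1, …)`. Then
`|T-T'| ≥ t` on `{T(ω) ≥ 0} × {T(ω') ≤ -t}`, independent; `P(T ≥ 0) = 1 - P(T < 0) ≥ 1/2`:
`{T < 0} = {LR {F < 0}}` (finite box), `half_box` with `n = 2r`. MEDIUM. -/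

open MeasureTheory ProbabilityTheory

namespace NU53

private theorem o5_meas (m : Mdl) {n : ℤ} (hn : 0 ≤ n) (J : ℕ) :
    Measurable fun ω => Tn n (m.F J ω) :=
  tn_meas hn (fun v ω => m.F J ω v) fun v => meas_fl m (m.le J) v

private theorem o5_int1 (m : Mdl) (J : ℕ) (v : V) : Integrable (fun ω => m.F J ω v) m.mu :=
  ((gauss_fl m (ι := Unit) (fun _ => m.le J) fun _ => v).eval ()).integrable

private theorem o5_int (m : Mdl) {n : ℤ} (hn : 0 ≤ n) (J : ℕ) :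
    Integrable (fun ω => Tn n (m.F J ω)) m.mu := by
  refine Integrable.mono' (g := fun ω => ∑ v ∈ BoxF n, |m.F J ω v|)
    (integrable_finsetSum _ fun v _ => (o5_int1 m J v).abs)
    (o5_meas m hn J).aestronglyMeasurable (ae_of_all _ fun ω => ?_)
  obtain ⟨v, hv, h⟩ := tn_val hn (m.F J ω)
  rw [Real.norm_eq_abs, ← h]
  have hv' : v ∈ BoxF n := by
    unfold BoxF
    rw [Finset.mem_product, Finset.mem_Icc, Finset.mem_Icc]
    exact hv
  exact Finset.single_le_sum (f := fun v => |m.F J ω v|) (fun _ _ => abs_nonneg _) hv'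

private theorem o5_half {C c α : ℝ} {q J : ℕ} {D : ℤ} {κ : ℕ → V → ℝ} {m : Mdl}
    (h : IsMdl C c α q J D κ m) {n : ℤ} (hn : 0 ≤ n) (he : Even n) (hD : n ≤ D) :
    1 / 2 ≤ m.mu.real {ω | 0 ≤ Tn n (m.F J ω)} := by
  obtain ⟨r, hr⟩ := he
  have hr2 : n = 2 * r := by omega
  have h1 := half_box h (le_refl J) (r := r) (by omega) (by omega)
  rw [← hr2] at h1
  have h2 : MeasurableSet {ω | 0 ≤ Tn n (m.F J ω)} :=
    measurableSet_le measurable_const (o5_meas m hn J)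
  have h3 : {ω | 0 ≤ Tn n (m.F J ω)}ᶜ ⊆ {ω | LR 0 n 0 n {v | m.F J ω v < 0}} := by
    intro ω hω
    have h4 : Tn n (m.F J ω) < 0 := not_le.1 hω
    refine LR.mono (fun v hv => ?_) ((lr_iff hn (m.F J ω) _).2 (le_refl (Tn n (m.F J ω))))
    exact lt_of_le_of_lt hv h4
  have h4 : m.mu.real {ω | 0 ≤ Tn n (m.F J ω)}ᶜ ≤ 1 / 2 := by
    rw [← h1]
    exact measureReal_mono h3
  have h5 := probReal_compl_eq_one_sub (μ := m.mu) h2
  linarith

private theorem o5_low (m : Mdl) {n : ℤ} (hn : 0 ≤ n) (J : ℕ) {t : ℝ} (ht : 0 < t)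
    (hh : 1 / 2 ≤ m.mu.real {ω | 0 ≤ Tn n (m.F J ω)}) :
    t * m.mu.real {ω | Tn n (m.F J ω) ≤ -t} / 2 ≤
      ∫ ω, ∫ ω', |Tn n (m.F J ω) - Tn n (m.F J ω')| ∂m.mu ∂m.mu := by
  have hint : Integrable (fun z : m.Om × m.Om => |Tn n (m.F J z.1) - Tn n (m.F J z.2)|)
      (m.mu.prod m.mu) :=
    (((o5_int m hn J).comp_fst m.mu).sub ((o5_int m hn J).comp_snd m.mu)).abs
  rw [← integral_prod (fun z : m.Om × m.Om => |Tn n (m.F J z.1) - Tn n (m.F J z.2)|) hint]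
  have h1 := mul_meas_ge_le_integral_of_nonneg (ae_of_all _ fun z => abs_nonneg _) hint t
  have h2 : {ω | 0 ≤ Tn n (m.F J ω)} ×ˢ {ω | Tn n (m.F J ω) ≤ -t} ⊆
      {z : m.Om × m.Om | t ≤ |Tn n (m.F J z.1) - Tn n (m.F J z.2)|} := by
    rintro ⟨ω, ω'⟩ ⟨h3, h4⟩
    have h3' : 0 ≤ Tn n (m.F J ω) := h3
    have h4' : Tn n (m.F J ω') ≤ -t := h4
    show t ≤ |Tn n (m.F J ω) - Tn n (m.F J ω')|
    refine le_trans ?_ (le_abs_self _)
    linarith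
  have h3 := measureReal_mono (μ := m.mu.prod m.mu) h2
  rw [measureReal_prod_prod] at h3
  have h4 : m.mu.real {ω | Tn n (m.F J ω) ≤ -t} / 2 ≤
      m.mu.real {ω | 0 ≤ Tn n (m.F J ω)} * m.mu.real {ω | Tn n (m.F J ω) ≤ -t} := by
    nlinarith [measureReal_nonneg (μ := m.mu) (s := {ω | Tn n (m.F J ω) ≤ -t})]
  calc t * m.mu.real {ω | Tn n (m.F J ω) ≤ -t} / 2
      = t * (m.mu.real {ω | Tn n (m.F J ω) ≤ -t} / 2) := by ring
    _ ≤ t * (m.mu.prod m.mu).real {z | t ≤ |Tn n (m.F J z.1) - Tn n (m.F J z.2)|} :=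
        mul_le_mul_of_nonneg_left (h4.trans h3) ht.le
    _ ≤ _ := h1

theorem disc (C c : ℝ) (hc : 0 < c) : ∃ (η C7 : ℝ) (s1 q0 : ℕ), 0 < η ∧ η ≤ 1 / 2 ∧ 0 < C7 ∧
    ∀ (α : ℝ) (q J : ℕ) (D : ℤ) (κ : ℕ → V → ℝ) (m : Mdl), IsMdl C c α q J D κ m → q0 ≤ q →
    ∀ n : ℤ, 1 ≤ n → Even n → 2 ^ s1 * n ≤ 2 ^ (q + J) → 2 ^ s1 * n ≤ D → ∀ t : ℝ, 0 < t →
    m.mu.real {ω | Tn n (m.F J ω) ≤ -t} ≤ C7 / t *
      ∑ j ∈ Finset.range (J + 1), sg α j * min 1 (((2 : ℝ) ^ (q + j) / n) ^ η) := by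
  obtain ⟨η, C6, s1, q0, hη, hη2, hC6, hr⟩ := rvl_avg C c hc
  refine ⟨η, 2 * C6 * Real.sqrt (Real.pi / 2) * C ^ 2 + 1, s1, q0, hη, hη2, by positivity, ?_⟩
  intro α q J D κ m hm hq n hn he hn1 hn2 t ht
  have hn0 : 0 ≤ n := by omega
  have hnD : n ≤ D := by
    refine le_trans ?_ hn2
    have h1 : (1 : ℤ) ≤ 2 ^ s1 := one_le_pow₀ (by norm_num)
    nlinarith
  have hBox : Box 0 n 0 n ⊆ Sq 0 D := by
    rintro v ⟨⟨h1, h2⟩, h3, h4⟩
    refine ⟨⟨?_, ?_⟩, ?_, ?_⟩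
    · show (0 : ℤ) - D ≤ v.1
      omega
    · show v.1 ≤ (0 : ℤ) + D
      omega
    · show (0 : ℤ) - D ≤ v.2
      omega
    · show v.2 ≤ (0 : ℤ) + D
      omega
  set θ : ℕ → ℝ := fun j => min 1 (((2 : ℝ) ^ (q + j) / n) ^ η) with hθ
  have hnR : (0 : ℝ) < n := by exact_mod_cast hn
  have hθ0 : ∀ j, 0 ≤ θ j := by
    intro j
    refine le_min zero_le_one ?_
    positivity
  have hsg : ∀ j, 0 ≤ sg α j := by
    intro j
    unfold sg
    positivity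
  have h1 := osss_T hm hn0 hBox (fun b => C6 * θ (m.lev b))
    (fun l b => hr α q J D κ m hm hq n hn hn1 hn2 b l)
  set I : m.B → ℝ := fun b =>
    ∫ ω, ∫ ω', |Tn n (m.F J ω) - Tn n (m.F J (mg {b} ω ω'))| ∂m.mu ∂m.mu with hI
  have h2 : ∑ b, C6 * θ (m.lev b) * I b = ∑ j ∈ Finset.range (J + 1), C6 * θ j * ∑ b ∈ m.eq j, I b := by
    rw [← Finset.sum_fiberwise_of_maps_to (s := Finset.univ) (t := Finset.range (J + 1))
      (g := m.lev) (fun b _ => Finset.mem_range.2 (by have := hm.lev_le b; omega))]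
    refine Finset.sum_congr rfl fun j _ => ?_
    rw [Finset.mul_sum]
    refine Finset.sum_congr rfl fun b hb => ?_
    rw [(Finset.mem_filter.1 hb).2]
  have h3 : ∑ j ∈ Finset.range (J + 1), C6 * θ j * ∑ b ∈ m.eq j, I b ≤
      ∑ j ∈ Finset.range (J + 1), C6 * θ j * (Real.sqrt (Real.pi / 2) * C ^ 2 * sg α j) := by
    refine Finset.sum_le_sum fun j hj => ?_
    refine mul_le_mul_of_nonneg_left ?_ (mul_nonneg (by linarith) (hθ0 j))
    exact infl_level hm hn0 hBox le_rfl (by have := Finset.mem_range.1 hj; omega)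
  have h4 := o5_low m hn0 J ht (o5_half hm hn0 he hnD)
  have h5 : ∑ j ∈ Finset.range (J + 1), C6 * θ j * (Real.sqrt (Real.pi / 2) * C ^ 2 * sg α j) =
      C6 * Real.sqrt (Real.pi / 2) * C ^ 2 * ∑ j ∈ Finset.range (J + 1), sg α j * θ j := by
    rw [Finset.mul_sum]
    refine Finset.sum_congr rfl fun j _ => ?_
    ring
  have h6 : 0 ≤ ∑ j ∈ Finset.range (J + 1), sg α j * θ j :=
    Finset.sum_nonneg fun j _ => mul_nonneg (hsg j) (hθ0 j)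
  have h7 : t * m.mu.real {ω | Tn n (m.F J ω) ≤ -t} / 2 ≤
      C6 * Real.sqrt (Real.pi / 2) * C ^ 2 * ∑ j ∈ Finset.range (J + 1), sg α j * θ j := by
    rw [← h5]
    refine h4.trans (h1.trans ?_)
    rw [h2]
    exact h3
  show m.mu.real {ω | Tn n (m.F J ω) ≤ -t} ≤
    (2 * C6 * Real.sqrt (Real.pi / 2) * C ^ 2 + 1) / t * ∑ j ∈ Finset.range (J + 1), sg α j * θ j
  rw [div_mul_eq_mul_div, le_div_iff₀ ht]
  nlinarith

end NU53
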