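import Pool.Agent.LibNU53.R5

/-! Row P1 (SUPERMARTINGALE). Finite product space, sets of coordinates `G 0 ⊆ G 1 ⊆ …`; `Ev i` does not
depend on the coordinates of `G (i-1)` (`i ≥ 1`), `O i` does not depend on `G i`, and for `ω ∈ O i` the
probability, over fresh coordinates in `G i`, of `Ev i` is at least `p`. Then
`P(no Ev i, at least k of the O i) ≤ (1-p)^k`.
PLAN. `W_i = ∏_{l ≥ i} 1(Ev_l^c) (1-p)^{-1(O_l)}`; `∫ W_i ≤ ∫ W_{i+1}` by `mg_int` with `G = G i`:
`W_{i+1}` and `1(O_i)` do not depend on `G i` (for `l ≥ i+1`, `Ev l` does not depend on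
`G (l-1) ⊇ G i`, `O l` not on `G l ⊇ G i`), and the inner integral of
`1(Ev_i^c)` is `≤ (1-p)^{1(O_i)}`. On the event, `W_0 ≥ (1-p)^{-k}`. MEDIUM/STRONG. -/

open MeasureTheory ProbabilityTheory

namespace NU53

variable {B E : Type*} [Fintype B] [DecidableEq B] [MeasurableSpace E]

open Classical in
/-- one factor of the weight -/
private noncomputable def p1_w (Y O : ℕ → Set (B → E)) (q : ℝ) (i : ℕ) (ω : B → E) : ℝ :=
  if ω ∈ Y i then 0 else if ω ∈ O i then q⁻¹ else 1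

open Classical in
private theorem p1_w_meas (Y O : ℕ → Set (B → E)) (hY : ∀ i, MeasurableSet (Y i))
    (hO : ∀ i, MeasurableSet (O i)) (q : ℝ) (i : ℕ) : Measurable (p1_w Y O q i) := by
  unfold p1_w
  exact Measurable.ite (hY i) measurable_const (Measurable.ite (hO i) measurable_const
    measurable_const)

private theorem p1_w_nonneg (Y O : ℕ → Set (B → E)) {q : ℝ} (hq : 0 < q) (i : ℕ) (ω : B → E) :
    0 ≤ p1_w Y O q i ω := by
  unfold p1_w
  split_ifs
  · exact le_rfl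
  · positivity
  · exact zero_le_one

private theorem p1_w_le (Y O : ℕ → Set (B → E)) {q : ℝ} (hq : 0 < q) (hq1 : q ≤ 1) (i : ℕ)
    (ω : B → E) : p1_w Y O q i ω ≤ q⁻¹ := by
  have h1 : 1 ≤ q⁻¹ := (one_le_inv₀ hq).2 hq1
  unfold p1_w
  split_ifs
  · positivity
  · exact le_rfl
  · exact h1

private theorem p1_w_congr (Y O : ℕ → Set (B → E)) (q : ℝ) (i : ℕ) {ω ω' : B → E}
    (h1 : ω ∈ Y i ↔ ω' ∈ Y i) (h2 : ω ∈ O i ↔ ω' ∈ O i) : p1_w Y O q i ω = p1_w Y O q i ω' := by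
  unfold p1_w
  by_cases g1 : ω' ∈ Y i
  · rw [if_pos (h1.2 g1), if_pos g1]
  · rw [if_neg (fun h => g1 (h1.1 h)), if_neg g1]
    by_cases g2 : ω' ∈ O i
    · rw [if_pos (h2.2 g2), if_pos g2]
    · rw [if_neg (fun h => g2 (h2.1 h)), if_neg g2]

/-- the product of the factors `i, …, n-1` -/
private noncomputable def p1_W (Y O : ℕ → Set (B → E)) (q : ℝ) (n i : ℕ) (ω : B → E) : ℝ :=
  ∏ l ∈ Finset.Ico i n, p1_w Y O q l ω

private theorem p1_W_meas (Y O : ℕ → Set (B → E)) (hY : ∀ i, MeasurableSet (Y i))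
    (hO : ∀ i, MeasurableSet (O i)) (q : ℝ) (n i : ℕ) : Measurable (p1_W Y O q n i) := by
  unfold p1_W
  exact Finset.measurable_prod _ fun l _ => p1_w_meas Y O hY hO q l

private theorem p1_W_nonneg (Y O : ℕ → Set (B → E)) {q : ℝ} (hq : 0 < q) (n i : ℕ) (ω : B → E) :
    0 ≤ p1_W Y O q n i ω :=
  Finset.prod_nonneg fun l _ => p1_w_nonneg Y O hq l ω

private theorem p1_W_le (Y O : ℕ → Set (B → E)) {q : ℝ} (hq : 0 < q) (hq1 : q ≤ 1) (n i : ℕ)
    (ω : B → E) : p1_W Y O q n i ω ≤ (q⁻¹) ^ (n - i) := by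
  unfold p1_W
  calc ∏ l ∈ Finset.Ico i n, p1_w Y O q l ω ≤ ∏ _l ∈ Finset.Ico i n, q⁻¹ :=
        Finset.prod_le_prod (fun l _ => p1_w_nonneg Y O hq l ω) fun l _ => p1_w_le Y O hq hq1 l ω
    _ = (q⁻¹) ^ (n - i) := by rw [Finset.prod_const, Nat.card_Ico]

private theorem p1_W_int (ν : Measure E) [IsProbabilityMeasure ν] (Y O : ℕ → Set (B → E))
    (hY : ∀ i, MeasurableSet (Y i))
    (hO : ∀ i, MeasurableSet (O i)) {q : ℝ} (hq : 0 < q) (hq1 : q ≤ 1) (n i : ℕ) :
    Integrable (p1_W Y O q n i) (Measure.pi fun _ : B => ν) :=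
  Integrable.of_bound (p1_W_meas Y O hY hO q n i).aestronglyMeasurable ((q⁻¹) ^ (n - i))
    (Filter.Eventually.of_forall fun ω => by
      rw [Real.norm_eq_abs, abs_of_nonneg (p1_W_nonneg Y O hq n i ω)]
      exact p1_W_le Y O hq hq1 n i ω)

private theorem p1_mg_meas (G : Finset B) (ω : B → E) :
    Measurable (fun ω' : B → E => mg G ω ω') := by
  rw [measurable_pi_iff]
  intro b
  unfold mg
  by_cases hb : b ∈ G
  · simp only [hb, if_true]
    exact measurable_pi_apply b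
  · simp only [hb, if_false]
    exact measurable_const

private theorem p1_mg_off (G G' : Finset B) (hG : G ⊆ G') (ω ω' : B → E) :
    ∀ b, b ∉ G' → mg G ω ω' b = ω b := by
  intro b hb
  unfold mg
  rw [if_neg fun h => hb (hG h)]

private theorem p1_step (ν : Measure E) [IsProbabilityMeasure ν] (n : ℕ) (G : ℕ → Finset B)
    (hG : Monotone G) (Y O : ℕ → Set (B → E)) (hY : ∀ i, MeasurableSet (Y i))
    (hO : ∀ i, MeasurableSet (O i))
    (dY : ∀ i, i + 1 < n → ∀ ω ω' : B → E, (∀ b, b ∉ G i → ω b = ω' b) →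
      (ω ∈ Y (i + 1) ↔ ω' ∈ Y (i + 1)))
    (dO : ∀ i, i < n → ∀ ω ω' : B → E, (∀ b, b ∉ G i → ω b = ω' b) → (ω ∈ O i ↔ ω' ∈ O i))
    {p : ℝ} (hp : 0 < p) (hp1 : p < 1)
    (hYO : ∀ i, i < n → ∀ ω ∈ O i,
      p ≤ (Measure.pi fun _ : B => ν).real {ω' | mg (G i) ω ω' ∈ Y i}) (i : ℕ) (hi : i < n) :
    ∫ ω, p1_W Y O (1 - p) n i ω ∂(Measure.pi fun _ : B => ν) ≤
      ∫ ω, p1_W Y O (1 - p) n (i + 1) ω ∂(Measure.pi fun _ : B => ν) := by
  have hq : 0 < 1 - p := by linarith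
  have hq1 : 1 - p ≤ 1 := by linarith
  rw [mg_int ν (G i) _ (p1_W_int ν Y O hY hO hq hq1 n i)]
  apply integral_mono_of_nonneg
  · exact Filter.Eventually.of_forall fun ω => integral_nonneg fun ω' => p1_W_nonneg Y O hq n i _
  · exact p1_W_int ν Y O hY hO hq hq1 n (i + 1)
  · apply Filter.Eventually.of_forall
    intro ω
    dsimp only
    have hsplit : ∀ ω' : B → E, p1_W Y O (1 - p) n i (mg (G i) ω ω') =
        p1_W Y O (1 - p) n (i + 1) ω * p1_w Y O (1 - p) i (mg (G i) ω ω') := by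
      intro ω'
      unfold p1_W
      rw [Finset.prod_eq_prod_Ico_succ_bot hi, mul_comm]
      congr 1
      apply Finset.prod_congr rfl
      intro l hl
      rw [Finset.mem_Ico] at hl
      obtain ⟨j, rfl⟩ : ∃ j, l = j + 1 := ⟨l - 1, by omega⟩
      have h1 : mg (G i) ω ω' ∈ Y (j + 1) ↔ ω ∈ Y (j + 1) :=
        dY j hl.2 _ _ (p1_mg_off (G i) (G j) (hG (by omega)) ω ω')
      have h2 : mg (G i) ω ω' ∈ O (j + 1) ↔ ω ∈ O (j + 1) :=
        dO (j + 1) hl.2 _ _ (p1_mg_off (G i) (G (j + 1)) (hG (by omega)) ω ω')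
      exact p1_w_congr Y O (1 - p) (j + 1) h1 h2
    simp_rw [hsplit]
    rw [integral_const_mul]
    have hS : MeasurableSet {ω' : B → E | mg (G i) ω ω' ∈ Y i} :=
      (p1_mg_meas (G i) ω) (hY i)
    have hO' : ∀ ω' : B → E, mg (G i) ω ω' ∈ O i ↔ ω ∈ O i := fun ω' =>
      dO i hi _ _ (p1_mg_off (G i) (G i) le_rfl ω ω')
    have hcompl : (Measure.pi fun _ : B => ν).real {ω' : B → E | mg (G i) ω ω' ∈ Y i}ᶜ =
        1 - (Measure.pi fun _ : B => ν).real {ω' : B → E | mg (G i) ω ω' ∈ Y i} :=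
      probReal_compl_eq_one_sub hS
    have hone : ∫ ω', p1_w Y O (1 - p) i (mg (G i) ω ω') ∂(Measure.pi fun _ : B => ν) ≤ 1 := by
      classical
      by_cases hω : ω ∈ O i
      · have e1 : (fun ω' : B → E => p1_w Y O (1 - p) i (mg (G i) ω ω')) =
            ({ω' : B → E | mg (G i) ω ω' ∈ Y i}ᶜ).indicator (fun _ => (1 - p)⁻¹) := by
          funext ω'
          unfold p1_w
          by_cases h1 : mg (G i) ω ω' ∈ Y i
          · rw [if_pos h1, Set.indicator_of_notMem]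
            simpa using h1
          · rw [if_neg h1, if_pos ((hO' ω').2 hω), Set.indicator_of_mem]
            simpa using h1
        rw [e1, integral_indicator_const _ hS.compl, hcompl, smul_eq_mul]
        have h2 := hYO i hi ω hω
        have h3 : (1 - (Measure.pi fun _ : B => ν).real {ω' : B → E | mg (G i) ω ω' ∈ Y i}) *
            (1 - p)⁻¹ ≤ (1 - p) * (1 - p)⁻¹ :=
          mul_le_mul_of_nonneg_right (by linarith) (by positivity)
        rwa [mul_inv_cancel₀ hq.ne'] at h3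
      · have h2 : ∀ ω' : B → E, p1_w Y O (1 - p) i (mg (G i) ω ω') ≤ 1 := by
          intro ω'
          unfold p1_w
          rw [if_neg (fun h => hω ((hO' ω').1 h))]
          split_ifs
          · exact zero_le_one
          · exact le_rfl
        calc ∫ ω', p1_w Y O (1 - p) i (mg (G i) ω ω') ∂(Measure.pi fun _ : B => ν)
            ≤ ∫ _ω' : B → E, (1 : ℝ) ∂(Measure.pi fun _ : B => ν) := by
              apply integral_mono_of_nonneg
              · exact Filter.Eventually.of_forall fun ω' => p1_w_nonneg Y O hq i _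
              · exact integrable_const _
              · exact Filter.Eventually.of_forall h2
          _ = 1 := by simp
    calc p1_W Y O (1 - p) n (i + 1) ω *
          ∫ ω', p1_w Y O (1 - p) i (mg (G i) ω ω') ∂(Measure.pi fun _ : B => ν)
        ≤ p1_W Y O (1 - p) n (i + 1) ω * 1 :=
          mul_le_mul_of_nonneg_left hone (p1_W_nonneg Y O hq n (i + 1) ω)
      _ = p1_W Y O (1 - p) n (i + 1) ω := mul_one _

open Classical in
theorem supermart (ν : Measure E) [IsProbabilityMeasure ν] (n : ℕ) (G : ℕ → Finset B)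
    (hG : Monotone G) (Y O : ℕ → Set (B → E)) (hY : ∀ i, MeasurableSet (Y i))
    (hO : ∀ i, MeasurableSet (O i))
    (dY : ∀ i, i + 1 < n → ∀ ω ω' : B → E, (∀ b, b ∉ G i → ω b = ω' b) →
      (ω ∈ Y (i + 1) ↔ ω' ∈ Y (i + 1)))
    (dO : ∀ i, i < n → ∀ ω ω' : B → E, (∀ b, b ∉ G i → ω b = ω' b) → (ω ∈ O i ↔ ω' ∈ O i))
    {p : ℝ} (hp : 0 < p) (hp1 : p < 1)
    (hYO : ∀ i, i < n → ∀ ω ∈ O i,
      p ≤ (Measure.pi fun _ : B => ν).real {ω' | mg (G i) ω ω' ∈ Y i}) (k : ℕ) :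
    (Measure.pi fun _ : B => ν).real {ω | (∀ i < n, ω ∉ Y i) ∧
      k ≤ ((Finset.range n).filter fun i => ω ∈ O i).card} ≤ (1 - p) ^ k := by
  have hq : 0 < 1 - p := by linarith
  have hq1 : 1 - p ≤ 1 := by linarith
  have hchain : ∀ j, j ≤ n → ∫ ω, p1_W Y O (1 - p) n (n - j) ω ∂(Measure.pi fun _ : B => ν) ≤ 1 := by
    intro j
    induction j with
    | zero =>
      intro _
      unfold p1_W
      simp
    | succ j ih =>
      intro hj
      have h1 := p1_step ν n G hG Y O hY hO dY dO hp hp1 hYO (n - (j + 1)) (by omega)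
      have h2 : n - (j + 1) + 1 = n - j := by omega
      rw [h2] at h1
      exact h1.trans (ih (by omega))
  have h0 := hchain n le_rfl
  rw [Nat.sub_self] at h0
  have hmk := mul_meas_ge_le_integral_of_nonneg (μ := Measure.pi fun _ : B => ν)
    (f := p1_W Y O (1 - p) n 0)
    (Filter.Eventually.of_forall fun ω => p1_W_nonneg Y O hq n 0 ω)
    (p1_W_int ν Y O hY hO hq hq1 n 0) (((1 - p)⁻¹) ^ k)
  have hsub : {ω : B → E | (∀ i < n, ω ∉ Y i) ∧
      k ≤ ((Finset.range n).filter fun i => ω ∈ O i).card} ⊆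
      {ω | ((1 - p)⁻¹) ^ k ≤ p1_W Y O (1 - p) n 0 ω} := by
    intro ω hω
    obtain ⟨h1, h2⟩ := hω
    have h3 : p1_W Y O (1 - p) n 0 ω =
        ((1 - p)⁻¹) ^ ((Finset.range n).filter fun i => ω ∈ O i).card := by
      unfold p1_W
      rw [← Finset.range_eq_Ico, ← Finset.prod_const, Finset.prod_filter]
      apply Finset.prod_congr rfl
      intro l hl
      rw [Finset.mem_range] at hl
      unfold p1_w
      rw [if_neg (h1 l hl)]
    rw [Set.mem_ofPred_eq, h3]
    exact pow_le_pow_right₀ ((one_le_inv₀ hq).2 hq1) h2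
  have h4 := measureReal_mono (μ := Measure.pi fun _ : B => ν) hsub
  have h5 : ((1 - p)⁻¹) ^ k * (Measure.pi fun _ : B => ν).real {ω | (∀ i < n, ω ∉ Y i) ∧
      k ≤ ((Finset.range n).filter fun i => ω ∈ O i).card} ≤ 1 :=
    (mul_le_mul_of_nonneg_left h4 (by positivity)).trans (hmk.trans h0)
  rw [inv_pow, inv_mul_le_iff₀ (by positivity), mul_one] at h5
  exact h5

end NU53
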