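import Pool.Agent.LibNU53.R0

/-! Row R1 (HARRIS). Product measures on the line are positively associated.
PLAN. Say that a probability measure `ν` on a preorder is associated if `∫ f * ∫ g ≤ ∫ f*g` for monotone
bounded measurable `f g : E → ℝ`. (1) Every probability measure on `ℝ` is (integrate
`(f x - f y)(g x - g y) ≥ 0`). (2) A product of two associated measures is associated (Fubini; the partial
integrals are monotone). (3) `Measure.pi` over a `Fintype` of associated measures is associated
(induction, `MeasurableEquiv.piFinSuccAbove` or `Fintype.induction_empty_option`). Apply (3) twice. The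
indicator of `{ω | E (Sk k t ω)}` is monotone because `a ≥ 0`. STRONG/MEDIUM. -/

open MeasureTheory ProbabilityTheory

namespace NU53

/-- associated measure -/
def R1As {E : Type*} [MeasurableSpace E] [Preorder E] (ν : Measure E) : Prop :=
  ∀ f g : E → ℝ, Monotone f → Monotone g → Measurable f → Measurable g → ∀ C : ℝ,
    (∀ x, |f x| ≤ C) → (∀ x, |g x| ≤ C) → (∫ x, f x ∂ν) * (∫ x, g x ∂ν) ≤ ∫ x, f x * g x ∂ν

private theorem r1_int {E : Type*} [MeasurableSpace E] (ν : Measure E) [IsProbabilityMeasure ν]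
    (f : E → ℝ) (hf : Measurable f) (C : ℝ) (h : ∀ x, |f x| ≤ C) : Integrable f ν :=
  Integrable.of_bound hf.aestronglyMeasurable C (Filter.Eventually.of_forall fun x => by
    rw [Real.norm_eq_abs]
    exact h x)

private theorem r1_abs {a b C : ℝ} (ha : |a| ≤ C) (hb : |b| ≤ C) : |a * b| ≤ C * C := by
  rw [abs_mul]
  exact mul_le_mul ha hb (abs_nonneg _) ((abs_nonneg _).trans ha)

private theorem r1_real (ν : Measure ℝ) [IsProbabilityMeasure ν] : R1As ν := by
  intro f g hf hg mf mg C hC hC'
  have i1 : Integrable (fun p : ℝ × ℝ => f p.1 * g p.1) (ν.prod ν) :=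
    r1_int _ _ ((mf.comp measurable_fst).mul (mg.comp measurable_fst)) (C * C)
      fun p => r1_abs (hC _) (hC' _)
  have i2 : Integrable (fun p : ℝ × ℝ => f p.1 * g p.2) (ν.prod ν) :=
    r1_int _ _ ((mf.comp measurable_fst).mul (mg.comp measurable_snd)) (C * C)
      fun p => r1_abs (hC _) (hC' _)
  have i3 : Integrable (fun p : ℝ × ℝ => f p.2 * g p.1) (ν.prod ν) :=
    r1_int _ _ ((mf.comp measurable_snd).mul (mg.comp measurable_fst)) (C * C)
      fun p => r1_abs (hC _) (hC' _)
  have i4 : Integrable (fun p : ℝ × ℝ => f p.2 * g p.2) (ν.prod ν) :=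
    r1_int _ _ ((mf.comp measurable_snd).mul (mg.comp measurable_snd)) (C * C)
      fun p => r1_abs (hC _) (hC' _)
  have e1 : ∫ p, f p.1 * g p.1 ∂(ν.prod ν) = ∫ x, f x * g x ∂ν := by
    rw [integral_prod _ i1]
    simp
  have e4 : ∫ p, f p.2 * g p.2 ∂(ν.prod ν) = ∫ x, f x * g x ∂ν := by
    rw [integral_prod _ i4]
    simp
  have e2 : ∫ p, f p.1 * g p.2 ∂(ν.prod ν) = (∫ x, f x ∂ν) * (∫ x, g x ∂ν) :=
    integral_prod_mul f g
  have e3 : ∫ p, f p.2 * g p.1 ∂(ν.prod ν) = (∫ x, f x ∂ν) * (∫ x, g x ∂ν) := by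
    have : (fun p : ℝ × ℝ => f p.2 * g p.1) = fun p : ℝ × ℝ => g p.1 * f p.2 := by
      funext p
      ring
    rw [this, integral_prod_mul g f]
    ring
  have h0 : 0 ≤ ∫ p, (f p.1 * g p.1 - f p.1 * g p.2 - f p.2 * g p.1 + f p.2 * g p.2) ∂(ν.prod ν) := by
    apply integral_nonneg
    intro p
    have : f p.1 * g p.1 - f p.1 * g p.2 - f p.2 * g p.1 + f p.2 * g p.2 =
        (f p.1 - f p.2) * (g p.1 - g p.2) := by ring
    change (0 : ℝ) ≤ f p.1 * g p.1 - f p.1 * g p.2 - f p.2 * g p.1 + f p.2 * g p.2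
    rw [this]
    rcases le_total p.1 p.2 with h | h
    · have h1 := hf h
      have h2 := hg h
      nlinarith
    · have h1 := hf h
      have h2 := hg h
      nlinarith
  have i12 : Integrable (fun p : ℝ × ℝ => f p.1 * g p.1 - f p.1 * g p.2) (ν.prod ν) := i1.sub i2
  have i123 : Integrable (fun p : ℝ × ℝ => f p.1 * g p.1 - f p.1 * g p.2 - f p.2 * g p.1)
      (ν.prod ν) := i12.sub i3
  rw [integral_add i123 i4, integral_sub i12 i3, integral_sub i1 i2, e1, e2, e3, e4] at h0
  linarith

private theorem r1_prod {E F : Type*} [MeasurableSpace E] [Preorder E] [MeasurableSpace F]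
    [Preorder F] (ν : Measure E) (ν' : Measure F) [IsProbabilityMeasure ν]
    [IsProbabilityMeasure ν'] (h : R1As ν) (h' : R1As ν') : R1As (ν.prod ν') := by
  intro f g hf hg mf mg C hC hC'
  have if_ : Integrable f (ν.prod ν') := r1_int _ _ mf C hC
  have ig_ : Integrable g (ν.prod ν') := r1_int _ _ mg C hC'
  have ifg : Integrable (fun p => f p * g p) (ν.prod ν') :=
    r1_int _ _ (mf.mul mg) (C * C) fun p => r1_abs (hC _) (hC' _)
  have is1 : ∀ x, Integrable (fun y => f (x, y)) ν' := fun x =>
    r1_int _ _ (mf.comp measurable_prodMk_left) C fun y => hC _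
  have is2 : ∀ x, Integrable (fun y => g (x, y)) ν' := fun x =>
    r1_int _ _ (mg.comp measurable_prodMk_left) C fun y => hC' _
  have bd : ∀ (u : E × F → ℝ), (∀ p, |u p| ≤ C) → ∀ x, |∫ y, u (x, y) ∂ν'| ≤ C := by
    intro u hu x
    have := norm_integral_le_of_norm_le_const (μ := ν') (f := fun y => u (x, y)) (C := C)
      (Filter.Eventually.of_forall fun y => by
        rw [Real.norm_eq_abs]
        exact hu _)
    simpa using this
  rw [integral_prod _ if_, integral_prod _ ig_, integral_prod _ ifg]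
  refine (h (fun x => ∫ y, f (x, y) ∂ν') (fun x => ∫ y, g (x, y) ∂ν') ?_ ?_ ?_ ?_ C
    (bd f hC) (bd g hC')).trans ?_
  · intro x x' hx
    exact integral_mono (is1 x) (is1 x') fun y => hf (Prod.mk_le_mk.2 ⟨hx, le_rfl⟩)
  · intro x x' hx
    exact integral_mono (is2 x) (is2 x') fun y => hg (Prod.mk_le_mk.2 ⟨hx, le_rfl⟩)
  · exact (StronglyMeasurable.integral_prod_right' (ν := ν') mf.stronglyMeasurable).measurable
  · exact (StronglyMeasurable.integral_prod_right' (ν := ν') mg.stronglyMeasurable).measurable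
  · apply integral_mono
    · exact r1_int _ _ ((StronglyMeasurable.integral_prod_right' (ν := ν')
        mf.stronglyMeasurable).measurable.mul (StronglyMeasurable.integral_prod_right' (ν := ν')
        mg.stronglyMeasurable).measurable) (C * C) fun x => r1_abs (bd f hC x) (bd g hC' x)
    · exact ifg.integral_prod_left
    · intro x
      exact h' (fun y => f (x, y)) (fun y => g (x, y))
        (fun y y' hy => hf (Prod.mk_le_mk.2 ⟨le_rfl, hy⟩))
        (fun y y' hy => hg (Prod.mk_le_mk.2 ⟨le_rfl, hy⟩))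
        (mf.comp measurable_prodMk_left) (mg.comp measurable_prodMk_left) C
        (fun y => hC _) (fun y => hC' _)

private theorem r1_map {E F : Type*} [MeasurableSpace E] [Preorder E] [MeasurableSpace F]
    [Preorder F] (ν : Measure E) (ν' : Measure F) (h : R1As ν) (e : E ≃ᵐ F) (he : Monotone e)
    (hm : MeasurePreserving e ν ν') : R1As ν' := by
  intro f g hf hg mf mg C hC hC'
  have := h (fun x => f (e x)) (fun x => g (e x)) (hf.comp he) (hg.comp he)
    (mf.comp e.measurable) (mg.comp e.measurable) C (fun x => hC _) (fun x => hC' _)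
  rw [hm.integral_comp' f, hm.integral_comp' g, hm.integral_comp' (fun y => f y * g y)] at this
  exact this

private theorem r1_fin {E : Type*} [MeasurableSpace E] [Preorder E] (ν : Measure E)
    [IsProbabilityMeasure ν] (h : R1As ν) (n : ℕ) : R1As (Measure.pi fun _ : Fin n => ν) := by
  induction n with
  | zero =>
    intro f g _ _ _ _ C _ _
    have hf : f = fun _ => f default := by
      funext x
      rw [Subsingleton.elim x default]
    have hg : g = fun _ => g default := by
      funext x
      rw [Subsingleton.elim x default]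
    rw [hf, hg]
    simp
  | succ n ih =>
    have h1 := r1_prod ν (Measure.pi fun _ : Fin n => ν) h ih
    have h2 := (measurePreserving_piFinSuccAbove (fun _ : Fin (n + 1) => ν) 0).symm
    refine r1_map _ _ h1 _ ?_ h2
    intro p p' hp i
    refine Fin.cases ?_ (fun j => ?_) i
    · exact hp.1
    · exact hp.2 j

private theorem r1_pi {B E : Type*} [Fintype B] [MeasurableSpace E] [Preorder E] (ν : Measure E)
    [IsProbabilityMeasure ν] (h : R1As ν) : R1As (Measure.pi fun _ : B => ν) := by
  have h1 := r1_fin ν h (Fintype.card B)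
  have h2 := measurePreserving_arrowCongr' (fun _ : Fin (Fintype.card B) => ν)
    (fun _ : B => ν) (Fintype.equivFin B).symm (MeasurableEquiv.refl E)
    (fun _ => MeasurePreserving.id ν)
  refine r1_map _ _ h1 _ ?_ h2
  intro p p' hp b
  exact hp _

/-- Association for increasing events of the noise. -/
theorem harris_mu (m : Mdl) {A A' : Set m.Om} (hA : MeasurableSet A) (hA' : MeasurableSet A')
    (h : ∀ ω ω' : m.Om, (∀ b i, ω b i ≤ ω' b i) → ω ∈ A → ω' ∈ A)
    (h' : ∀ ω ω' : m.Om, (∀ b i, ω b i ≤ ω' b i) → ω ∈ A' → ω' ∈ A') :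
    m.mu.real A * m.mu.real A' ≤ m.mu.real (A ∩ A') := by
  have has : R1As m.mu := by
    unfold Mdl.mu
    apply r1_pi
    unfold gam
    apply r1_fin
    exact r1_real _
  have hmono : ∀ A : Set m.Om, (∀ ω ω' : m.Om, (∀ b i, ω b i ≤ ω' b i) → ω ∈ A → ω' ∈ A) →
      Monotone (A.indicator (fun _ => (1 : ℝ))) := by
    intro A h ω ω' hω
    by_cases h1 : ω ∈ A
    · rw [Set.indicator_of_mem h1, Set.indicator_of_mem (h ω ω' (fun b i => hω b i) h1)]
    · rw [Set.indicator_of_notMem h1]
      exact Set.indicator_nonneg (fun _ _ => zero_le_one) _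
  have hbd : ∀ A : Set m.Om, ∀ x, |A.indicator (fun _ => (1 : ℝ)) x| ≤ 1 := by
    intro A x
    by_cases h1 : x ∈ A
    · rw [Set.indicator_of_mem h1]
      simp
    · rw [Set.indicator_of_notMem h1]
      simp
  have h1 := has (A.indicator (fun _ => (1 : ℝ))) (A'.indicator (fun _ => (1 : ℝ)))
    (hmono A h) (hmono A' h') (measurable_const.indicator hA) (measurable_const.indicator hA') 1
    (hbd A) (hbd A')
  have e1 : (fun x => A.indicator (fun _ => (1 : ℝ)) x * A'.indicator (fun _ => (1 : ℝ)) x) =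
      (A ∩ A').indicator (fun _ => (1 : ℝ)) := by
    funext x
    by_cases h1 : x ∈ A
    · by_cases h2 : x ∈ A'
      · rw [Set.indicator_of_mem h1, Set.indicator_of_mem h2, Set.indicator_of_mem (Set.mem_inter h1 h2)]
        ring
      · rw [Set.indicator_of_notMem h2, Set.indicator_of_notMem (fun hh : x ∈ A ∩ A' => h2 hh.2)]
        ring
    · rw [Set.indicator_of_notMem h1, Set.indicator_of_notMem (fun hh : x ∈ A ∩ A' => h1 hh.1)]
      ring
  rw [e1, integral_indicator hA, integral_indicator hA', integral_indicator (hA.inter hA')] at h1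
  simpa using h1

theorem harris (m : Mdl) (hm : ∀ b i v, 0 ≤ m.a b i v) (k : ℕ) (t : ℝ) {Λ : Set V}
    (hΛ : Λ.Finite) {E E' : Set V → Prop} (hE : Loc Λ E) (hE' : Loc Λ E') (hi : Inc E)
    (hi' : Inc E') : m.Pr k t E * m.Pr k t E' ≤ m.Pr k t (fun S => E S ∧ E' S) := by
  have hmono : ∀ ω ω' : m.Om, (∀ b i, ω b i ≤ ω' b i) → m.Sk k t ω ⊆ m.Sk k t ω' := by
    intro ω ω' hω v hv
    have hv' : t < m.F k ω v := hv
    have h1 : m.F k ω v ≤ m.F k ω' v := by
      unfold Mdl.F Mdl.fl
      refine Finset.sum_le_sum fun b _ => Finset.sum_le_sum fun i _ => ?_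
      exact mul_le_mul_of_nonneg_left (hω b i) (hm b i v)
    exact hv'.trans_le h1
  have hmeas : ∀ E : Set V → Prop, Loc Λ E → MeasurableSet {ω | E (m.Sk k t ω)} := by
    intro E hE
    exact meas_gt hΛ hE (fun v ω => m.F k ω v) (fun v _ => meas_fl m _ v) t
  exact harris_mu m (hmeas E hE) (hmeas E' hE')
    (fun ω ω' hω h => hi _ _ (hmono ω ω' hω) h) (fun ω ω' hω h => hi' _ _ (hmono ω ω' hω) h)

end NU53
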