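import Pool.Agent.LibNU53.R0
import Pool.Agent.LibGFPerc.Shift

/-! Row R2 (SYMMETRY). The law of the field on a finite set is determined by the covariance:
`GFPerc.gaussian_map_eq` (file `LibGFPerc/Shift.lean`, landed). `F k` has covariance
`∑_{j ≤ k} κ j (u - v)` on `Sq 0 D` (`IsMdl.cov`, `cov_fl`, split `m.le k` by levels).
`pr_map` : apply it to `F k ∘ τ` and `F k` on `Λ`, then transport the event (`meas_gt`).
`pr_neg` : `-F k` has the same law as `F k`. MEDIUM. -/

open MeasureTheory ProbabilityTheory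

namespace NU53

variable {C c α : ℝ} {q J : ℕ} {D : ℤ} {κ : ℕ → V → ℝ} {m : Mdl}

theorem cov_F (h : IsMdl C c α q J D κ m) {k : ℕ} (hk : k ≤ J) {u v : V} (hu : u ∈ Sq 0 D)
    (hv : v ∈ Sq 0 D) : covariance (fun ω => m.F k ω u) (fun ω => m.F k ω v) m.mu =
      ∑ j ∈ Finset.range (k + 1), κ j (u - v) := by
  unfold Mdl.F
  rw [cov_fl, Finset.inter_self, ← Finset.sum_fiberwise_of_maps_to (s := m.le k)
    (t := Finset.range (k + 1)) (g := m.lev)]
  · refine Finset.sum_congr rfl fun j hj => ?_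
    have hjk : j ≤ k := Nat.lt_succ_iff.mp (Finset.mem_range.mp hj)
    rw [← h.cov j (hjk.trans hk) u hu v hv]
    refine Finset.sum_congr ?_ fun _ _ => rfl
    ext b
    simp only [Mdl.le, Mdl.eq, Finset.mem_filter, Finset.mem_univ, true_and]
    constructor
    · exact fun h' => h'.2
    · exact fun h' => ⟨by omega, h'⟩
  · intro b hb
    have := (Finset.mem_filter.mp hb).2
    exact Finset.mem_range.mpr (by omega)

private theorem r2_gen {Λ : Set V} (hΛ : Λ.Finite) {E : Set V → Prop} (hE : Loc Λ E) (t : ℝ)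
    (X Y : V → m.Om → ℝ)
    (hX : HasGaussianLaw (fun ω (i : hΛ.toFinset) => X i.1 ω) m.mu)
    (hY : HasGaussianLaw (fun ω (i : hΛ.toFinset) => Y i.1 ω) m.mu)
    (hX0 : ∀ v ∈ Λ, ∫ ω, X v ω ∂m.mu = 0) (hY0 : ∀ v ∈ Λ, ∫ ω, Y v ω ∂m.mu = 0)
    (hXm : ∀ v, Measurable (X v)) (hYm : ∀ v, Measurable (Y v))
    (hcov : ∀ u ∈ Λ, ∀ v ∈ Λ, covariance (X u) (X v) m.mu = covariance (Y u) (Y v) m.mu) :
    m.mu.real {ω | E {v | t < X v ω}} = m.mu.real {ω | E {v | t < Y v ω}} := by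
  classical
  have hmap : m.mu.map (fun ω (i : hΛ.toFinset) => X i.1 ω) =
      m.mu.map (fun ω (i : hΛ.toFinset) => Y i.1 ω) := by
    refine GFPerc.gaussian_map_eq (F := fun (i : hΛ.toFinset) ω => X i.1 ω)
      (G := fun (i : hΛ.toFinset) ω => Y i.1 ω) hX hY ?_ ?_ ?_
    · intro i
      exact hX0 i.1 (hΛ.mem_toFinset.mp i.2)
    · intro i
      exact hY0 i.1 (hΛ.mem_toFinset.mp i.2)
    · intro i j
      exact hcov i.1 (hΛ.mem_toFinset.mp i.2) j.1 (hΛ.mem_toFinset.mp j.2)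
  set g : V → (hΛ.toFinset → ℝ) → ℝ := fun v x =>
    if h : v ∈ hΛ.toFinset then x ⟨v, h⟩ else t with hg
  have hgm : ∀ v ∈ Λ, Measurable (g v) := by
    intro v hv
    have hv' : v ∈ hΛ.toFinset := hΛ.mem_toFinset.mpr hv
    have : g v = fun x => x ⟨v, hv'⟩ := by
      funext x
      simp only [hg, hv', dif_pos]
    rw [this]
    exact measurable_pi_apply _
  have hms : MeasurableSet {x : hΛ.toFinset → ℝ | E {v | t < g v x}} := meas_gt hΛ hE g hgm t
  have key : ∀ Z : V → m.Om → ℝ, {ω | E {v | t < Z v ω}} =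
      (fun ω (i : hΛ.toFinset) => Z i.1 ω) ⁻¹' {x | E {v | t < g v x}} := by
    intro Z
    ext ω
    simp only [Set.mem_preimage, Set.mem_ofPred_eq]
    have hset : {v | t < Z v ω} ∩ Λ =
        {v | t < g v (fun i : hΛ.toFinset => Z i.1 ω)} ∩ Λ := by
      ext v
      simp only [Set.mem_inter_iff, Set.mem_ofPred_eq]
      constructor
      · rintro ⟨h1, h2⟩
        refine ⟨?_, h2⟩
        simp only [hg, hΛ.mem_toFinset.mpr h2, dif_pos]
        exact h1
      · rintro ⟨h1, h2⟩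
        refine ⟨?_, h2⟩
        simp only [hg, hΛ.mem_toFinset.mpr h2, dif_pos] at h1
        exact h1
    exact ⟨hE _ _ hset, hE _ _ hset.symm⟩
  have hXm' : Measurable (fun ω (i : hΛ.toFinset) => X i.1 ω) :=
    measurable_pi_lambda _ fun i => hXm i.1
  have hYm' : Measurable (fun ω (i : hΛ.toFinset) => Y i.1 ω) :=
    measurable_pi_lambda _ fun i => hYm i.1
  rw [key X, key Y, measureReal_def, measureReal_def, ← Measure.map_apply hXm' hms,
    ← Measure.map_apply hYm' hms, hmap]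

private theorem r2_fin (D : ℤ) {Λ : Set V} (hΛ : Λ ⊆ Sq 0 D) : Λ.Finite := by
  refine Set.Finite.subset (s := ((Finset.Icc (-D) D ×ˢ Finset.Icc (-D) D : Finset V) : Set V))
    (Finset.finite_toSet _) ?_
  intro v hv
  have h1 := hΛ hv
  simp only [Sq, Box, Set.mem_ofPred_eq, Prod.fst_zero, Prod.snd_zero, zero_sub, zero_add] at h1
  rw [Finset.mem_coe, Finset.mem_product, Finset.mem_Icc, Finset.mem_Icc]
  exact ⟨h1.1, h1.2⟩

theorem pr_map (h : IsMdl C c α q J D κ m) {k : ℕ} (hk : k ≤ J) (t : ℝ) {Λ : Set V}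
    {E : Set V → Prop} (hE : Loc Λ E) (hΛ : Λ ⊆ Sq 0 D) (τ : V → V)
    (hτ : ∀ u ∈ Λ, τ u ∈ Sq 0 D)
    (hκ : ∀ j, ∀ u ∈ Λ, ∀ v ∈ Λ, κ j (τ u - τ v) = κ j (u - v)) :
    m.Pr k t (fun S => E (τ ⁻¹' S)) = m.Pr k t E := by
  unfold Mdl.Pr Mdl.Sk
  exact r2_gen (r2_fin D hΛ) hE t (fun v ω => m.F k ω (τ v)) (fun v ω => m.F k ω v)
    (gauss_fl m (fun _ => m.le k) (fun i : (r2_fin D hΛ).toFinset => τ i.1))
    (gauss_fl m (fun _ => m.le k) (fun i : (r2_fin D hΛ).toFinset => i.1))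
    (fun v _ => mean_fl m _ _) (fun v _ => mean_fl m _ _) (fun v => meas_fl m _ _)
    (fun v => meas_fl m _ _) (fun u hu v hv => by
      rw [cov_F h hk (hτ u hu) (hτ v hv), cov_F h hk (hΛ hu) (hΛ hv)]
      exact Finset.sum_congr rfl fun j _ => hκ j u hu v hv)

theorem pr_neg (h : IsMdl C c α q J D κ m) {k : ℕ} (hk : k ≤ J) (t : ℝ) {Λ : Set V}
    {E : Set V → Prop} (hE : Loc Λ E) (hΛ : Λ ⊆ Sq 0 D) :
    m.mu.real {ω | E {v | m.F k ω v < -t}} = m.Pr k t E := by
  unfold Mdl.Pr Mdl.Sk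
  have h1 : {ω | E {v | m.F k ω v < -t}} = {ω | E {v | t < -m.F k ω v}} := by
    ext ω
    have : {v | m.F k ω v < -t} = {v | t < -m.F k ω v} := by
      ext v
      simp only [Set.mem_ofPred_eq]
      constructor <;> intro h' <;> linarith
    simp only [Set.mem_ofPred_eq]
    rw [this]
  rw [h1]
  exact r2_gen (r2_fin D hΛ) hE t (fun v ω => -m.F k ω v) (fun v ω => m.F k ω v)
    (gauss_fl m (fun _ => m.le k) (fun i : (r2_fin D hΛ).toFinset => i.1)).fun_neg
    (gauss_fl m (fun _ => m.le k) (fun i : (r2_fin D hΛ).toFinset => i.1))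
    (fun v _ => by
      rw [integral_neg]
      exact neg_eq_zero.mpr (mean_fl m _ _)) (fun v _ => mean_fl m _ _)
    (fun v => (meas_fl m _ _).neg)
    (fun v => meas_fl m _ _) (fun u hu v hv => by
      rw [covariance_fun_neg_left, covariance_fun_neg_right, neg_neg])

private theorem r2_null {X : m.Om → ℝ} (hX : HasGaussianLaw X m.mu) (hm : Measurable X)
    (hv : 0 < Var[X; m.mu]) (t : ℝ) : m.mu {ω | X ω = t} = 0 := by
  have h1 : {ω | X ω = t} = X ⁻¹' {t} := rfl
  rw [h1, ← Measure.map_apply hm (measurableSet_singleton t), hX.map_eq_gaussianReal]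
  have h2 : Var[X; m.mu].toNNReal ≠ 0 := (Real.toNNReal_pos.mpr hv).ne'
  have := nullSingletonClass_gaussianReal (μ := ∫ ω, X ω ∂m.mu) h2
  exact measure_singleton t

private theorem r2_sg_pos (α : ℝ) (j : ℕ) : 0 < sg α j := by
  unfold sg
  positivity

/-- the field takes a given value with probability zero -/
theorem no_val (h : IsMdl C c α q J D κ m) {k : ℕ} (hk : k ≤ J) (t : ℝ) {v : V}
    (hv : v ∈ Sq 0 D) : m.mu {ω | m.F k ω v = t} = 0 := by
  have hg : HasGaussianLaw (fun ω => m.F k ω v) m.mu :=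
    (gauss_fl m (fun _ : Unit => m.le k) (fun _ => v)).eval ()
  refine r2_null hg (meas_fl m _ _) ?_ t
  rw [← covariance_self hg.aemeasurable, cov_F h hk hv hv, sub_self]
  refine Finset.sum_pos (fun j hj => ?_) ⟨0, by simp⟩
  have hjk : j ≤ k := Nat.lt_succ_iff.mp (Finset.mem_range.mp hj)
  have h1 := h.cov_ge j (hjk.trans hk) 0 (by
    simp only [Prod.fst_zero, Int.cast_zero, abs_zero]
    have := h.hc.1
    positivity) (by
    simp only [Prod.snd_zero, Int.cast_zero, abs_zero]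
    have := h.hc.1
    positivity)
  have h2 := r2_sg_pos α j
  have h3 := h.hc.1
  have : 0 < c * sg α j ^ 2 := by positivity
  linarith

/-- no ties -/
theorem no_tie (h : IsMdl C c α q J D κ m) {k : ℕ} (hk : k ≤ J) {u v : V}
    (hu : u ∈ Sq 0 D) (hv : v ∈ Sq 0 D) (huv : u ≠ v) :
    m.mu {ω | m.F k ω u = m.F k ω v} = 0 := by
  have hg0 := gauss_fl m (fun _ : Bool => m.le k) (fun i => if i then u else v)
  have hg : HasGaussianLaw (fun ω => m.F k ω u - m.F k ω v) m.mu := by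
    have h1 : HasGaussianLaw (fun ω => m.fl (m.le k) ω u - m.fl (m.le k) ω v) m.mu := by
      simpa using (hg0.prodMk true false).fun_sub
    exact h1
  have hgu : HasGaussianLaw (fun ω => m.F k ω u) m.mu :=
    (gauss_fl m (fun _ : Unit => m.le k) (fun _ => u)).eval ()
  have hgv : HasGaussianLaw (fun ω => m.F k ω v) m.mu :=
    (gauss_fl m (fun _ : Unit => m.le k) (fun _ => v)).eval ()
  have h1 : {ω | m.F k ω u = m.F k ω v} = {ω | m.F k ω u - m.F k ω v = 0} := by
    ext ω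
    simp only [Set.mem_ofPred_eq, sub_eq_zero]
  rw [h1]
  refine r2_null hg ((meas_fl m _ _).sub (meas_fl m _ _)) ?_ 0
  rw [variance_fun_sub hgu.memLp_two hgv.memLp_two, ← covariance_self hgu.aemeasurable,
    ← covariance_self hgv.aemeasurable]
  unfold Mdl.F
  rw [cov_fl, cov_fl, cov_fl, Finset.inter_self]
  have h2 : ∑ b ∈ m.le k, ∑ i, m.a b i u * m.a b i u -
      2 * ∑ b ∈ m.le k, ∑ i, m.a b i u * m.a b i v + ∑ b ∈ m.le k, ∑ i, m.a b i v * m.a b i v =
      ∑ b ∈ m.le k, ∑ i, (m.a b i u - m.a b i v) ^ 2 := by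
    rw [Finset.mul_sum, ← Finset.sum_sub_distrib, ← Finset.sum_add_distrib]
    refine Finset.sum_congr rfl fun b _ => ?_
    rw [Finset.mul_sum, ← Finset.sum_sub_distrib, ← Finset.sum_add_distrib]
    exact Finset.sum_congr rfl fun i _ => by ring
  rw [h2]
  obtain ⟨b, hb, i, hi⟩ := h.nd u hu v hv huv
  have hbk : b ∈ m.le k := by
    have := (Finset.mem_filter.mp hb).2
    exact Finset.mem_filter.mpr ⟨Finset.mem_univ _, by omega⟩
  have h3 : 0 < (m.a b i u - m.a b i v) ^ 2 := by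
    have := sub_ne_zero.mpr hi
    positivity
  calc 0 < (m.a b i u - m.a b i v) ^ 2 := h3
    _ ≤ ∑ i, (m.a b i u - m.a b i v) ^ 2 :=
        Finset.single_le_sum (f := fun i => (m.a b i u - m.a b i v) ^ 2)
          (fun i _ => sq_nonneg _) (Finset.mem_univ i)
    _ ≤ _ := Finset.single_le_sum (f := fun b => ∑ i, (m.a b i u - m.a b i v) ^ 2)
          (fun b _ => Finset.sum_nonneg fun i _ => sq_nonneg _) hbk

end NU53
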