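import Pool.Agent.LibNU53.R2

/-! Row R4 (LOCAL SHIFT). Changing the level by `t` changes the probability of an increasing event which
depends on a square `Sq x N`, `N ≤ c 2^(q+k)`, by at most `C₄ t / σ_k`.
PLAN. `GFPerc.shift_le` (file `LibGFPerc/Shift.lean`) with the vector `-F k` on `Sq x N` (finite), the
variable `Z = - f k ω x`, `q := c σ_k²` (`IsMdl.cov_ge`: `Cov(F_k(v), f_k(x)) = κ k (v - x)`), variance
`v = κ k 0 ≤ C σ_k²`, `d = t`, and the lower set `T = {y | E {v | 0 < - y v}}` (so that `-F + t ∈ T` iff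
`E {F > t}`). `C₄ = √C/(c √(2π)) + 1` works. MEDIUM/SHORT. -/

open MeasureTheory ProbabilityTheory

namespace NU53

open Classical in
/-- the value `-y v` on the square, `0` off it -/
private noncomputable def r4g (Λ : Set V) (v : V) (y : Λ → ℝ) : ℝ :=
  if h : v ∈ Λ then - y ⟨v, h⟩ else 0

private lemma r4g_meas (Λ : Set V) (v : V) : Measurable (r4g Λ v) := by
  unfold r4g
  by_cases h : v ∈ Λ
  · simp only [h, dif_pos]
    exact (measurable_pi_apply _).neg
  · simp only [h, dif_neg, not_false_eq_true]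
    exact measurable_const

private lemma r4g_pos {Λ : Set V} {v : V} (h : v ∈ Λ) (y : Λ → ℝ) : r4g Λ v y = - y ⟨v, h⟩ := by
  unfold r4g
  rw [dif_pos h]

theorem shift (C c : ℝ) : ∃ C4 : ℝ, 0 < C4 ∧ ∀ (α : ℝ) (q J : ℕ) (D : ℤ) (κ : ℕ → V → ℝ)
    (m : Mdl), IsMdl C c α q J D κ m → ∀ (k : ℕ), k ≤ J → ∀ (x : V) (N : ℤ),
    (N : ℝ) ≤ c * 2 ^ (q + k) → Sq x N ⊆ Sq 0 D → x ∈ Sq 0 D → ∀ (E : Set V → Prop), Inc E →
    Loc (Sq x N) E → ∀ t : ℝ, 0 ≤ t → m.Pr k 0 E ≤ m.Pr k t E + C4 * (t / sg α k) := by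
  refine ⟨|√C / (c * √(2 * Real.pi))| + 1, by positivity, ?_⟩
  intro α q J D κ m hm k hk x N hN hsub hx E hinc hloc t ht
  classical
  have hfin : (Sq x N).Finite := Sq_finite x N
  have : Fintype (Sq x N) := hfin.fintype
  have hσ : 0 < sg α k := Real.rpow_pos_of_pos (by norm_num) _
  have hc := hm.hc.1
  have hC : 0 < C := lt_of_lt_of_le one_pos hm.hC
  -- joint law
  have hlaw : HasGaussianLaw (fun ω => ((fun v : Sq x N => - m.F k ω v), - m.f k ω x)) m.mu := by
    have h1 := gauss_fl m (ι := Option (Sq x N)) (fun o => o.elim (m.eq k) fun _ => m.le k)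
      (fun o => o.elim x fun v => v)
    let L : (Option (Sq x N) → ℝ) →L[ℝ] ((Sq x N → ℝ) × ℝ) :=
      LinearMap.toContinuousLinearMap
      { toFun := fun y => ((fun v => - y (some v)), - y none)
        map_add' := by
          intro a b
          ext v
          · simp; ring
          · simp; ring
        map_smul' := by
          intro a b
          ext v
          · simp
          · simp }
    exact h1.map_fun L
  have hcov1 : ∀ (A A' : Finset m.B) (u v : V),
      covariance (fun ω => - m.fl A ω u) (fun ω => - m.fl A' ω v) m.mu =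
        ∑ b ∈ A ∩ A', ∑ i, m.a b i u * m.a b i v := by
    intro A A' u v
    rw [covariance_fun_neg_left, covariance_fun_neg_right, neg_neg, cov_fl]
  have hval0 : covariance (fun ω => - m.f k ω x) (fun ω => - m.f k ω x) m.mu = κ k 0 := by
    have h1 := hcov1 (m.eq k) (m.eq k) x x
    rw [Finset.inter_self, hm.cov k hk x hx x hx, sub_self] at h1
    exact h1
  have hkap : c * sg α k ^ 2 ≤ κ k 0 := hm.cov_ge k hk 0 (by
    simp only [Prod.fst_zero, Int.cast_zero, abs_zero]; positivity) (by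
    simp only [Prod.snd_zero, Int.cast_zero, abs_zero]; positivity)
  have hkap0 : 0 < κ k 0 := lt_of_lt_of_le (by positivity) hkap
  have hmain := GFPerc.shift_le (P := m.mu) (F := fun (v : Sq x N) ω => - m.F k ω v)
    (Z := fun ω => - m.f k ω x) hlaw (by
      rw [integral_neg]
      have h1 := mean_fl m (m.eq k) x
      show - ∫ ω, m.fl (m.eq k) ω x ∂m.mu = 0
      rw [h1, neg_zero]) hkap0 hval0 (q := c * sg α k ^ 2) (by positivity) (by
      rintro ⟨v, hv⟩
      have h1 := hcov1 (m.le k) (m.eq k) v x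
      have h2 : m.le k ∩ m.eq k = m.eq k := by
        apply Finset.inter_eq_right.2
        intro b hb
        unfold Mdl.eq at hb
        unfold Mdl.le
        rw [Finset.mem_filter] at hb ⊢
        exact ⟨hb.1, hb.2.le⟩
      rw [h2, hm.cov k hk v (hsub hv) x hx] at h1
      show c * sg α k ^ 2 ≤ covariance (fun ω => - m.fl (m.le k) ω v)
        (fun ω => - m.fl (m.eq k) ω x) m.mu
      rw [h1]
      obtain ⟨⟨v1, v2⟩, v3, v4⟩ := hv
      apply hm.cov_ge k hk
      · refine le_trans ?_ hN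
        have h3 : |v.1 - x.1| ≤ N := abs_le.2 ⟨by omega, by omega⟩
        have h4 : (((v - x).1 : ℤ) : ℝ) = ((v.1 - x.1 : ℤ) : ℝ) := rfl
        rw [h4]
        exact_mod_cast h3
      · refine le_trans ?_ hN
        have h3 : |v.2 - x.2| ≤ N := abs_le.2 ⟨by omega, by omega⟩
        have h4 : (((v - x).2 : ℤ) : ℝ) = ((v.2 - x.2 : ℤ) : ℝ) := rfl
        rw [h4]
        exact_mod_cast h3)
    (T := {y | E {v | 0 < r4g (Sq x N) v y}})
    (meas_gt hfin hloc (fun v y => r4g (Sq x N) v y) (fun v _ => r4g_meas _ v) 0)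
    (by
      intro y y' hyy hy
      refine hinc _ _ ?_ hy
      intro v hv
      by_cases h : v ∈ Sq x N
      · have h1 : 0 < r4g (Sq x N) v y := hv
        rw [r4g_pos h] at h1
        show 0 < r4g (Sq x N) v y'
        rw [r4g_pos h]
        have := hyy ⟨v, h⟩
        linarith
      · have h1 : 0 < r4g (Sq x N) v y := hv
        unfold r4g at h1
        rw [dif_neg h] at h1
        exact absurd h1 (lt_irrefl _)) ht
  have hset : ∀ s : ℝ, {ω | (fun v : Sq x N => - m.F k ω v + s) ∈
      {y | E {v | 0 < r4g (Sq x N) v y}}} = {ω | E (m.Sk k s ω)} := by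
    intro s
    ext ω
    apply hloc.iff
    ext v
    constructor
    · rintro ⟨h1, h2⟩
      refine ⟨?_, h2⟩
      have h3 : 0 < r4g (Sq x N) v (fun v : Sq x N => - m.F k ω v + s) := h1
      rw [r4g_pos h2] at h3
      show s < m.F k ω v
      linarith
    · rintro ⟨h1, h2⟩
      refine ⟨?_, h2⟩
      show 0 < r4g (Sq x N) v (fun v : Sq x N => - m.F k ω v + s)
      rw [r4g_pos h2]
      have h3 : s < m.F k ω v := h1
      linarith
  have hset0 := hset 0
  simp only [add_zero] at hset0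
  rw [hset0, hset t] at hmain
  have hr : 0 ≤ t * √(κ k 0) / (c * sg α k ^ 2 * √(2 * Real.pi)) := by positivity
  have h5 : m.Pr k 0 E ≤ m.Pr k t E + t * √(κ k 0) / (c * sg α k ^ 2 * √(2 * Real.pi)) := by
    unfold Mdl.Pr
    rw [measureReal_def, measureReal_def]
    have h6 := ENNReal.toReal_mono (by
      exact ENNReal.add_ne_top.2 ⟨measure_ne_top _ _, ENNReal.ofReal_ne_top⟩) hmain
    rwa [ENNReal.toReal_add (measure_ne_top _ _) ENNReal.ofReal_ne_top,
      ENNReal.toReal_ofReal hr] at h6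
  refine h5.trans (add_le_add_right ?_ _)
  have h7 : √(κ k 0) ≤ √C * sg α k := by
    rw [← Real.sqrt_sq hσ.le, ← Real.sqrt_mul hC.le]
    exact Real.sqrt_le_sqrt (hm.var_le k hk)
  have h8 : 0 < √(2 * Real.pi) := Real.sqrt_pos.2 (by positivity)
  calc t * √(κ k 0) / (c * sg α k ^ 2 * √(2 * Real.pi))
      ≤ t * (√C * sg α k) / (c * sg α k ^ 2 * √(2 * Real.pi)) := by gcongr
    _ = √C / (c * √(2 * Real.pi)) * (t / sg α k) := by field_simp
    _ ≤ (|√C / (c * √(2 * Real.pi))| + 1) * (t / sg α k) := by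
      apply mul_le_mul_of_nonneg_right _ (by positivity)
      linarith [le_abs_self (√C / (c * √(2 * Real.pi)))]

end NU53
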