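import Pool.Agent.LibNU53.R2

/-! Row R6 (OSCILLATION).
`Osc g x N` = sum of differences over the square; `osc_le`: deterministic bound
`|g v - g x| ≤ Osc g x N` on `Sq x N`: go from `x` to `(x.1, v.2)` and then to `v`; for every step
`|g(u+e1) - g(u)|` at height `w2` compare with the average over the `2N+1` heights (differences `D₁D₂`).
`osc_exp`: `Osc (f_j) x (3·2^e)` divided by `2^e/2^(q+j) σ_j` has an exponential moment: it is at most
`112 √C` times an average of absolute values of Gaussians of variance `≤ 1` (`d1`, `d12`, `swap`, `e ≤ q+j`),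
and `exp` of an average is at most the average of `exp` (Jensen, `convexOn_exp`).
`osc_mean`: consequence for the expectation (`x ≤ exp x`). MEDIUM/STRONG. -/

open MeasureTheory ProbabilityTheory

namespace NU53

/-- The square as a finite set. -/
noncomputable def SqF (x : V) (N : ℕ) : Finset V :=
  Finset.Icc (x.1 - N) (x.1 + N) ×ˢ Finset.Icc (x.2 - N) (x.2 + N)

/-- Mixed second difference. -/
def dd (g : V → ℝ) (v : V) : ℝ := g (v + (1, 1)) - g (v + (1, 0)) - g (v + (0, 1)) + g v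

/-- Bound for the oscillation. -/
noncomputable def Osc (g : V → ℝ) (x : V) (N : ℕ) : ℝ :=
  (∑ v ∈ SqF x N, (|g (v + (1, 0)) - g v| + |g (v + (0, 1)) - g v|)) / (2 * N + 1) +
    2 * ∑ v ∈ SqF x N, |dd g v|

theorem osc_nonneg (g : V → ℝ) (x : V) (N : ℕ) : 0 ≤ Osc g x N := by
  unfold Osc
  positivity

private lemma r6_1d (f : ℤ → ℝ) (a b : ℤ) (h : b ≤ a) :
    |f a - f b| ≤ ∑ i ∈ Finset.Ico b a, |f (i + 1) - f i| := by
  induction a, h using Int.leInduction with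
  | base => simp
  | succ n hn ih =>
    have e : Finset.Ico b (n + 1) = insert n (Finset.Ico b n) := by
      ext t
      simp only [Finset.mem_Ico, Finset.mem_insert]
      omega
    rw [e, Finset.sum_insert (by simp)]
    have h1 : f (n + 1) - f b = (f (n + 1) - f n) + (f n - f b) := by ring
    rw [h1]
    exact (abs_add_le _ _).trans (add_le_add le_rfl ih)

private lemma r6_1d' (f : ℤ → ℝ) (lo hi a b : ℤ) (ha : a ∈ Finset.Icc lo hi)
    (hb : b ∈ Finset.Icc lo hi) : |f a - f b| ≤ ∑ i ∈ Finset.Icc lo hi, |f (i + 1) - f i| := by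
  rw [Finset.mem_Icc] at ha hb
  have key : ∀ a b : ℤ, lo ≤ b → a ≤ hi → b ≤ a →
      |f a - f b| ≤ ∑ i ∈ Finset.Icc lo hi, |f (i + 1) - f i| := by
    intro a b h1 h2 h3
    refine (r6_1d f a b h3).trans (Finset.sum_le_sum_of_subset_of_nonneg ?_ ?_)
    · intro t ht
      rw [Finset.mem_Ico] at ht
      rw [Finset.mem_Icc]
      omega
    · intro i _ _
      exact abs_nonneg _
  rcases le_total b a with h | h
  · exact key a b hb.1 ha.2 h
  · rw [abs_sub_comm]
    exact key b a ha.1 hb.2 h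

private lemma r6_avg (N : ℕ) (c : ℤ) (F G : ℤ → ℝ)
    (hFG : ∀ t, |F (t + 1) - F t| = G t) (h : ℤ) (hh : h ∈ Finset.Icc (c - N) (c + N)) :
    |F h| ≤ (∑ t ∈ Finset.Icc (c - (N : ℤ)) (c + N), |F t|) / (2 * N + 1) +
      ∑ t ∈ Finset.Icc (c - (N : ℤ)) (c + N), G t := by
  have hcard : ((Finset.Icc (c - (N : ℤ)) (c + N)).card : ℝ) = 2 * N + 1 := by
    rw [Int.card_Icc]
    have : (c + (N : ℤ) + 1 - (c - N)).toNat = 2 * N + 1 := by omega
    rw [this]
    push_cast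
    ring
  have h1 : ∀ t ∈ Finset.Icc (c - (N : ℤ)) (c + N), |F h| ≤ |F t| +
      ∑ t ∈ Finset.Icc (c - (N : ℤ)) (c + N), G t := by
    intro t ht
    have h2 := r6_1d' F (c - N) (c + N) h t hh ht
    have h3 : |F h| ≤ |F t| + |F h - F t| := by
      have := abs_add_le (F t) (F h - F t)
      have e : F t + (F h - F t) = F h := by ring
      rw [e] at this
      exact this
    refine h3.trans (add_le_add le_rfl (h2.trans (le_of_eq ?_)))
    exact Finset.sum_congr rfl fun i _ => hFG i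
  have h4 := Finset.sum_le_sum h1
  rw [Finset.sum_const, Finset.sum_add_distrib, Finset.sum_const, nsmul_eq_mul, nsmul_eq_mul,
    hcard] at h4
  have hpos : (0 : ℝ) < 2 * N + 1 := by positivity
  have h5 : |F h| ≤ (∑ t ∈ Finset.Icc (c - (N : ℤ)) (c + N), |F t| +
      (2 * N + 1) * ∑ t ∈ Finset.Icc (c - (N : ℤ)) (c + N), G t) / (2 * N + 1) := by
    rw [le_div_iff₀ hpos]
    linarith
  refine h5.trans (le_of_eq ?_)
  field_simp

theorem osc_le (g : V → ℝ) (x : V) (N : ℕ) {v : V} (hv : v ∈ Sq x N) :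
    |g v - g x| ≤ Osc g x N := by
  obtain ⟨⟨hv1, hv2⟩, hv3, hv4⟩ := hv
  have hm1 : v.1 ∈ Finset.Icc (x.1 - (N : ℤ)) (x.1 + N) := by
    rw [Finset.mem_Icc]; exact ⟨hv1, hv2⟩
  have hm2 : v.2 ∈ Finset.Icc (x.2 - (N : ℤ)) (x.2 + N) := by
    rw [Finset.mem_Icc]; exact ⟨hv3, hv4⟩
  have hx1 : x.1 ∈ Finset.Icc (x.1 - (N : ℤ)) (x.1 + N) := by
    rw [Finset.mem_Icc]; omega
  have hx2 : x.2 ∈ Finset.Icc (x.2 - (N : ℤ)) (x.2 + N) := by
    rw [Finset.mem_Icc]; omega
  -- horizontal part, at height `v.2`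
  have hH : |g (v.1, v.2) - g (x.1, v.2)| ≤
      (∑ w ∈ SqF x N, |g (w + (1, 0)) - g w|) / (2 * N + 1) + ∑ w ∈ SqF x N, |dd g w| := by
    refine (r6_1d' (fun i => g (i, v.2)) _ _ _ _ hm1 hx1).trans ?_
    have h1 : ∀ i ∈ Finset.Icc (x.1 - (N : ℤ)) (x.1 + N), |g (i + 1, v.2) - g (i, v.2)| ≤
        (∑ t ∈ Finset.Icc (x.2 - (N : ℤ)) (x.2 + N), |g (i + 1, t) - g (i, t)|) / (2 * N + 1) +
          ∑ t ∈ Finset.Icc (x.2 - (N : ℤ)) (x.2 + N), |dd g (i, t)| := by
      intro i _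
      refine r6_avg N x.2 (fun t => g (i + 1, t) - g (i, t)) (fun t => |dd g (i, t)|) ?_ v.2 hm2
      intro t
      simp only [dd, Prod.mk_add_mk, add_zero]
      congr 1
      ring
    refine (Finset.sum_le_sum h1).trans (le_of_eq ?_)
    rw [Finset.sum_add_distrib, ← Finset.sum_div]
    unfold SqF
    rw [Finset.sum_product, Finset.sum_product]
    simp only [Prod.mk_add_mk, add_zero]
  -- vertical part, at abscissa `x.1`
  have hV : |g (x.1, v.2) - g (x.1, x.2)| ≤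
      (∑ w ∈ SqF x N, |g (w + (0, 1)) - g w|) / (2 * N + 1) + ∑ w ∈ SqF x N, |dd g w| := by
    refine (r6_1d' (fun i => g (x.1, i)) _ _ _ _ hm2 hx2).trans ?_
    have h1 : ∀ i ∈ Finset.Icc (x.2 - (N : ℤ)) (x.2 + N), |g (x.1, i + 1) - g (x.1, i)| ≤
        (∑ t ∈ Finset.Icc (x.1 - (N : ℤ)) (x.1 + N), |g (t, i + 1) - g (t, i)|) / (2 * N + 1) +
          ∑ t ∈ Finset.Icc (x.1 - (N : ℤ)) (x.1 + N), |dd g (t, i)| := by
      intro i _
      refine r6_avg N x.1 (fun t => g (t, i + 1) - g (t, i)) (fun t => |dd g (t, i)|) ?_ x.1 hx1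
      intro t
      simp only [dd, Prod.mk_add_mk, add_zero]
      congr 1
      ring
    refine (Finset.sum_le_sum h1).trans (le_of_eq ?_)
    rw [Finset.sum_add_distrib, ← Finset.sum_div]
    unfold SqF
    rw [Finset.sum_product_right, Finset.sum_product_right]
    simp only [Prod.mk_add_mk, add_zero]
  have h1 : g v - g x = (g (v.1, v.2) - g (x.1, v.2)) + (g (x.1, v.2) - g (x.1, x.2)) := by ring
  rw [h1]
  refine (abs_add_le _ _).trans ((add_le_add hH hV).trans (le_of_eq ?_))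
  unfold Osc
  rw [Finset.sum_add_distrib]
  ring

/-! exponential moments of linear forms -/

private lemma r6_lin (m : Mdl) (c : m.B → Fin m.M → ℝ) :
    Integrable (fun ω : m.Om => Real.exp (∑ b, ∑ i, c b i * ω b i)) m.mu ∧
    ∫ ω, Real.exp (∑ b, ∑ i, c b i * ω b i) ∂m.mu = Real.exp ((∑ b, ∑ i, c b i ^ 2) / 2) := by
  have e0 : ∀ ω : m.Om, Real.exp (∑ b, ∑ i, c b i * ω b i) =
      ∏ b, (fun y : Fin m.M → ℝ => ∏ i, Real.exp (c b i * y i)) (ω b) := by
    intro ω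
    rw [Real.exp_sum]
    refine Finset.prod_congr rfl fun b _ => ?_
    rw [Real.exp_sum]
  have hint1 : ∀ t : ℝ, Integrable (fun x => Real.exp (t * x)) (gaussianReal 0 1) := by
    intro t
    exact integrable_exp_mul_gaussianReal t
  have hval1 : ∀ t : ℝ, ∫ x, Real.exp (t * x) ∂(gaussianReal 0 1) = Real.exp (t ^ 2 / 2) := by
    intro t
    have h := congrFun (mgf_id_gaussianReal (μ := 0) (v := 1)) t
    simpa [mgf] using h
  have hint2 : ∀ b, Integrable (fun y : Fin m.M → ℝ => ∏ i, Real.exp (c b i * y i)) (gam m.M) := by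
    intro b
    unfold gam
    exact Integrable.fintype_prod (f := fun i x => Real.exp (c b i * x)) fun i => hint1 (c b i)
  have hval2 : ∀ b, ∫ y : Fin m.M → ℝ, ∏ i, Real.exp (c b i * y i) ∂(gam m.M) =
      Real.exp ((∑ i, c b i ^ 2) / 2) := by
    intro b
    unfold gam
    rw [integral_fintype_prod_eq_prod (f := fun i x => Real.exp (c b i * x))]
    simp only [hval1]
    rw [← Real.exp_sum, Finset.sum_div]
  constructor
  · simp only [e0]
    unfold Mdl.mu
    exact Integrable.fintype_prod (f := fun b (y : Fin m.M → ℝ) => ∏ i, Real.exp (c b i * y i)) hint2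
  · simp only [e0]
    unfold Mdl.mu
    rw [integral_fintype_prod_eq_prod
      (f := fun b (y : Fin m.M → ℝ) => ∏ i, Real.exp (c b i * y i))]
    simp only [hval2]
    rw [← Real.exp_sum, Finset.sum_div]

private lemma r6_abs (m : Mdl) (c : m.B → Fin m.M → ℝ) (t τ : ℝ)
    (hτ : ∑ b, ∑ i, c b i ^ 2 ≤ τ) :
    Integrable (fun ω : m.Om => Real.exp (t * |∑ b, ∑ i, c b i * ω b i|)) m.mu ∧
    ∫ ω, Real.exp (t * |∑ b, ∑ i, c b i * ω b i|) ∂m.mu ≤ 2 * Real.exp (t ^ 2 * τ / 2) := by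
  have hl : ∀ s : ℝ, ∀ ω : m.Om, s * ∑ b, ∑ i, c b i * ω b i =
      ∑ b, ∑ i, (s * c b i) * ω b i := by
    intro s ω
    rw [Finset.mul_sum]
    refine Finset.sum_congr rfl fun b _ => ?_
    rw [Finset.mul_sum]
    refine Finset.sum_congr rfl fun i _ => ?_
    ring
  have hq : ∀ s : ℝ, ∑ b, ∑ i, (s * c b i) ^ 2 = s ^ 2 * ∑ b, ∑ i, c b i ^ 2 := by
    intro s
    rw [Finset.mul_sum]
    refine Finset.sum_congr rfl fun b _ => ?_
    rw [Finset.mul_sum]
    refine Finset.sum_congr rfl fun i _ => ?_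
    ring
  have hA := r6_lin m (fun b i => t * c b i)
  have hB := r6_lin m (fun b i => -t * c b i)
  simp only [← hl] at hA hB
  rw [hq] at hA hB
  have hle : ∀ ω : m.Om, Real.exp (t * |∑ b, ∑ i, c b i * ω b i|) ≤
      Real.exp (t * ∑ b, ∑ i, c b i * ω b i) + Real.exp (-t * ∑ b, ∑ i, c b i * ω b i) := by
    intro ω
    rcases abs_cases (∑ b, ∑ i, c b i * ω b i) with ⟨h, _⟩ | ⟨h, _⟩
    · rw [h]
      have := Real.exp_pos (-t * ∑ b, ∑ i, c b i * ω b i)
      linarith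
    · rw [h]
      have h1 : t * -∑ b, ∑ i, c b i * ω b i = -t * ∑ b, ∑ i, c b i * ω b i := by ring
      rw [h1]
      have := Real.exp_pos (t * ∑ b, ∑ i, c b i * ω b i)
      linarith
  have hmeas : Measurable (fun ω : m.Om => Real.exp (t * |∑ b, ∑ i, c b i * ω b i|)) := by
    have h1 : Measurable (fun ω : m.Om => ∑ b, ∑ i, c b i * ω b i) := by
      refine Finset.measurable_sum _ fun b _ => Finset.measurable_sum _ fun i _ => ?_
      have h2 : Measurable (fun ω : m.Om => ω b i) :=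
        measurable_pi_iff.mp (measurable_pi_apply b) i
      exact h2.const_mul _
    exact (h1.abs.const_mul t).exp
  have hint : Integrable (fun ω : m.Om => Real.exp (t * |∑ b, ∑ i, c b i * ω b i|)) m.mu := by
    refine (hA.1.add hB.1).mono' hmeas.aestronglyMeasurable ?_
    refine Filter.Eventually.of_forall fun ω => ?_
    rw [Real.norm_eq_abs, abs_of_pos (Real.exp_pos _)]
    exact hle ω
  refine ⟨hint, ?_⟩
  calc ∫ ω, Real.exp (t * |∑ b, ∑ i, c b i * ω b i|) ∂m.mu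
      ≤ ∫ ω, (Real.exp (t * ∑ b, ∑ i, c b i * ω b i) +
          Real.exp (-t * ∑ b, ∑ i, c b i * ω b i)) ∂m.mu :=
        integral_mono hint (hA.1.add hB.1) hle
    _ = Real.exp (t ^ 2 * (∑ b, ∑ i, c b i ^ 2) / 2) +
          Real.exp ((-t) ^ 2 * (∑ b, ∑ i, c b i ^ 2) / 2) := by
        rw [integral_add hA.1 hB.1, hA.2, hB.2]
    _ ≤ 2 * Real.exp (t ^ 2 * τ / 2) := by
        rw [neg_sq]
        have h1 : Real.exp (t ^ 2 * (∑ b, ∑ i, c b i ^ 2) / 2) ≤ Real.exp (t ^ 2 * τ / 2) := by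
          apply Real.exp_le_exp.mpr
          have : t ^ 2 * (∑ b, ∑ i, c b i ^ 2) ≤ t ^ 2 * τ :=
            mul_le_mul_of_nonneg_left hτ (sq_nonneg t)
          linarith
        linarith

open Classical in
/-- a linear combination of the field of the level `j` as a linear form on the noise -/
private lemma r6_form (m : Mdl) (j : ℕ) (d : m.B → Fin m.M → ℝ) (ω : m.Om) :
    ∑ b ∈ m.eq j, ∑ i, d b i * ω b i =
      ∑ b, ∑ i, (if b ∈ m.eq j then d b i else 0) * ω b i := by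
  rw [← Finset.sum_subset (Finset.subset_univ (m.eq j))]
  · refine Finset.sum_congr rfl fun b hb => Finset.sum_congr rfl fun i _ => ?_
    rw [if_pos hb]
  · intro b _ hb
    refine Finset.sum_eq_zero fun i _ => ?_
    rw [if_neg hb, zero_mul]

open Classical in
private lemma r6_form_sq (m : Mdl) (j : ℕ) (d : m.B → Fin m.M → ℝ) :
    ∑ b, ∑ i, (if b ∈ m.eq j then d b i else 0) ^ 2 = ∑ b ∈ m.eq j, ∑ i, d b i ^ 2 := by
  rw [← Finset.sum_subset (Finset.subset_univ (m.eq j))]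
  · refine Finset.sum_congr rfl fun b hb => Finset.sum_congr rfl fun i _ => ?_
    rw [if_pos hb]
  · intro b _ hb
    refine Finset.sum_eq_zero fun i _ => ?_
    rw [if_neg hb]
    ring

private lemma r6_abs_form (m : Mdl) (j : ℕ) (d : m.B → Fin m.M → ℝ) (t τ : ℝ)
    (hτ : ∑ b ∈ m.eq j, ∑ i, d b i ^ 2 ≤ τ) :
    Integrable (fun ω : m.Om => Real.exp (t * |∑ b ∈ m.eq j, ∑ i, d b i * ω b i|)) m.mu ∧
    ∫ ω, Real.exp (t * |∑ b ∈ m.eq j, ∑ i, d b i * ω b i|) ∂m.mu ≤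
      2 * Real.exp (t ^ 2 * τ / 2) := by
  classical
  simp only [r6_form m j d]
  refine r6_abs m _ t τ ?_
  rw [r6_form_sq]
  exact hτ

theorem osc_exp (C c : ℝ) : ∃ C6 : ℝ, 1 ≤ C6 ∧ ∀ (α : ℝ) (q J : ℕ) (D : ℤ) (κ : ℕ → V → ℝ)
    (m : Mdl), IsMdl C c α q J D κ m → ∀ (j e : ℕ), j ≤ J → e ≤ q + j → ∀ x : V,
    Sq x (3 * 2 ^ e + 1) ⊆ Sq 0 D →
    Integrable (fun ω => Real.exp (Osc (m.f j ω) x (3 * 2 ^ e) /
      (2 ^ e / 2 ^ (q + j) * sg α j))) m.mu ∧
    ∫ ω, Real.exp (Osc (m.f j ω) x (3 * 2 ^ e) / (2 ^ e / 2 ^ (q + j) * sg α j)) ∂m.mu ≤ C6 := by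
  refine ⟨2 * Real.exp (294 ^ 2 * |C| / 2), ?_, ?_⟩
  · have h1 : (1 : ℝ) ≤ Real.exp (294 ^ 2 * |C| / 2) := Real.one_le_exp (by positivity)
    linarith
  intro α q J D κ m h j e hj he x hx
  have hC0 : 0 ≤ C := le_trans zero_le_one h.hC
  rw [abs_of_nonneg hC0]
  set σ : ℝ := sg α j with hσ
  have hσ0 : 0 < σ := by
    rw [hσ]
    unfold sg
    positivity
  set r : ℝ := (2 : ℝ) ^ e with hr
  set s : ℝ := (2 : ℝ) ^ (q + j) with hs
  have hr1 : 1 ≤ r := one_le_pow₀ (by norm_num)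
  have hr0 : 0 < r := by linarith
  have hs0 : 0 < s := by positivity
  have hrs : r ≤ s := pow_le_pow_right₀ (by norm_num) he
  have hs4 : (4 : ℝ) ^ (q + j) = s ^ 2 := by
    rw [hs, ← pow_mul, mul_comm, pow_mul]
    norm_num
  have hs16 : (16 : ℝ) ^ (q + j) = s ^ 4 := by
    rw [hs, ← pow_mul, mul_comm, pow_mul]
    norm_num
  set N : ℕ := 3 * 2 ^ e with hN
  have hNr : (N : ℝ) = 3 * r := by
    rw [hN]
    push_cast
    ring
  -- the three linear forms
  set d1 : V → m.B → Fin m.M → ℝ := fun v b i => m.a b i (v + (1, 0)) - m.a b i v with hd1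
  set d2 : V → m.B → Fin m.M → ℝ := fun v b i => m.a b i (v + (0, 1)) - m.a b i v with hd2
  set d3 : V → m.B → Fin m.M → ℝ := fun v b i =>
    m.a b i (v + (1, 1)) - m.a b i (v + (1, 0)) - m.a b i (v + (0, 1)) + m.a b i v with hd3
  have hf1 : ∀ (ω : m.Om) (v : V), m.f j ω (v + (1, 0)) - m.f j ω v =
      ∑ b ∈ m.eq j, ∑ i, d1 v b i * ω b i := by
    intro ω v
    simp only [Mdl.f, Mdl.fl, hd1]
    rw [← Finset.sum_sub_distrib]
    refine Finset.sum_congr rfl fun b _ => ?_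
    rw [← Finset.sum_sub_distrib]
    refine Finset.sum_congr rfl fun i _ => ?_
    ring
  have hf2 : ∀ (ω : m.Om) (v : V), m.f j ω (v + (0, 1)) - m.f j ω v =
      ∑ b ∈ m.eq j, ∑ i, d2 v b i * ω b i := by
    intro ω v
    simp only [Mdl.f, Mdl.fl, hd2]
    rw [← Finset.sum_sub_distrib]
    refine Finset.sum_congr rfl fun b _ => ?_
    rw [← Finset.sum_sub_distrib]
    refine Finset.sum_congr rfl fun i _ => ?_
    ring
  have hf3 : ∀ (ω : m.Om) (v : V), dd (m.f j ω) v =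
      ∑ b ∈ m.eq j, ∑ i, d3 v b i * ω b i := by
    intro ω v
    simp only [dd, Mdl.f, Mdl.fl, hd3]
    rw [← Finset.sum_sub_distrib, ← Finset.sum_sub_distrib, ← Finset.sum_add_distrib]
    refine Finset.sum_congr rfl fun b _ => ?_
    rw [← Finset.sum_sub_distrib, ← Finset.sum_sub_distrib, ← Finset.sum_add_distrib]
    refine Finset.sum_congr rfl fun i _ => ?_
    ring
  -- memberships
  have hmem : ∀ v ∈ SqF x N, v ∈ Sq 0 D ∧ v + (1, 0) ∈ Sq 0 D ∧ v + (0, 1) ∈ Sq 0 D := by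
    intro v hv
    unfold SqF at hv
    rw [Finset.mem_product, Finset.mem_Icc, Finset.mem_Icc] at hv
    have hN' : (N : ℤ) = 3 * 2 ^ e := by
      rw [hN]
      push_cast
      ring
    rw [hN'] at hv
    obtain ⟨⟨h1, h2⟩, h3, h4⟩ := hv
    refine ⟨hx ⟨⟨?_, ?_⟩, ?_, ?_⟩, hx ⟨⟨?_, ?_⟩, ?_, ?_⟩, hx ⟨⟨?_, ?_⟩, ?_, ?_⟩⟩ <;>
      (try simp only [Prod.fst_add, Prod.snd_add]) <;> omega
  -- variances
  have hsymm : ∀ u ∈ Sq 0 D, ∀ v ∈ Sq 0 D, κ j (u - v) = κ j (v - u) := by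
    intro u hu v hv
    rw [← h.cov j hj u hu v hv, ← h.cov j hj v hv u hu]
    refine Finset.sum_congr rfl fun b _ => Finset.sum_congr rfl fun i _ => ?_
    ring
  have hvar : ∀ u ∈ Sq 0 D, ∀ v ∈ Sq 0 D, ∑ b ∈ m.eq j, ∑ i, (m.a b i u - m.a b i v) ^ 2 =
      2 * (κ j 0 - κ j (u - v)) := by
    intro u hu v hv
    have e1 := h.cov j hj u hu u hu
    have e2 := h.cov j hj v hv v hv
    have e3 := h.cov j hj u hu v hv
    rw [sub_self] at e1 e2
    have e4 : ∑ b ∈ m.eq j, ∑ i, (m.a b i u - m.a b i v) ^ 2 =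
        ∑ b ∈ m.eq j, ∑ i, m.a b i u * m.a b i u + ∑ b ∈ m.eq j, ∑ i, m.a b i v * m.a b i v -
          2 * ∑ b ∈ m.eq j, ∑ i, m.a b i u * m.a b i v := by
      rw [Finset.mul_sum, ← Finset.sum_add_distrib, ← Finset.sum_sub_distrib]
      refine Finset.sum_congr rfl fun b _ => ?_
      rw [Finset.mul_sum, ← Finset.sum_add_distrib, ← Finset.sum_sub_distrib]
      refine Finset.sum_congr rfl fun i _ => ?_
      ring
    rw [e4, e1, e2, e3]
    ring
  have hv1 : ∀ v ∈ SqF x N, ∑ b ∈ m.eq j, ∑ i, d1 v b i ^ 2 ≤ C * σ ^ 2 / s ^ 2 := by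
    intro v hv
    obtain ⟨h1, h2, _⟩ := hmem v hv
    have e1 := hvar _ h2 v h1
    have e2 : v + (1, 0) - v = ((1, 0) : V) := by abel
    rw [e2] at e1
    simp only [hd1]
    rw [e1, ← hs4]
    exact h.d1 j hj
  have hv2 : ∀ v ∈ SqF x N, ∑ b ∈ m.eq j, ∑ i, d2 v b i ^ 2 ≤ C * σ ^ 2 / s ^ 2 := by
    intro v hv
    obtain ⟨h1, _, h2⟩ := hmem v hv
    have e1 := hvar _ h2 v h1
    have e2 : v + (0, 1) - v = ((0, 1) : V) := by abel
    rw [e2] at e1
    simp only [hd2]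
    rw [e1, ← hs4]
    have e3 : κ j ((0, 1) : V) = κ j (1, 0) := h.swap j 1 0
    rw [e3]
    exact h.d1 j hj
  have hv3 : ∀ v ∈ SqF x N, ∑ b ∈ m.eq j, ∑ i, d3 v b i ^ 2 ≤ C * σ ^ 2 / s ^ 4 := by
    intro v _
    rw [← hs16]
    exact h.d12 j hj v
  -- the factors
  set t1 : ℝ := 21 * s / σ with ht1
  set t3 : ℝ := 294 * s ^ 2 / σ with ht3
  have hE1 : ∀ v ∈ SqF x N,
      Integrable (fun ω : m.Om => Real.exp (t1 * |m.f j ω (v + (1, 0)) - m.f j ω v|)) m.mu ∧
      ∫ ω, Real.exp (t1 * |m.f j ω (v + (1, 0)) - m.f j ω v|) ∂m.mu ≤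
        2 * Real.exp (294 ^ 2 * C / 2) := by
    intro v hv
    simp only [hf1]
    have h1 := r6_abs_form m j (d1 v) t1 _ (hv1 v hv)
    refine ⟨h1.1, h1.2.trans ?_⟩
    have e1 : t1 ^ 2 * (C * σ ^ 2 / s ^ 2) = 21 ^ 2 * C := by
      rw [ht1]
      field_simp
    rw [e1]
    have : Real.exp (21 ^ 2 * C / 2) ≤ Real.exp (294 ^ 2 * C / 2) := by
      apply Real.exp_le_exp.mpr
      nlinarith
    linarith
  have hE2 : ∀ v ∈ SqF x N,
      Integrable (fun ω : m.Om => Real.exp (t1 * |m.f j ω (v + (0, 1)) - m.f j ω v|)) m.mu ∧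
      ∫ ω, Real.exp (t1 * |m.f j ω (v + (0, 1)) - m.f j ω v|) ∂m.mu ≤
        2 * Real.exp (294 ^ 2 * C / 2) := by
    intro v hv
    simp only [hf2]
    have h1 := r6_abs_form m j (d2 v) t1 _ (hv2 v hv)
    refine ⟨h1.1, h1.2.trans ?_⟩
    have e1 : t1 ^ 2 * (C * σ ^ 2 / s ^ 2) = 21 ^ 2 * C := by
      rw [ht1]
      field_simp
    rw [e1]
    have : Real.exp (21 ^ 2 * C / 2) ≤ Real.exp (294 ^ 2 * C / 2) := by
      apply Real.exp_le_exp.mpr
      nlinarith
    linarith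
  have hE3 : ∀ v ∈ SqF x N,
      Integrable (fun ω : m.Om => Real.exp (t3 * |dd (m.f j ω) v|)) m.mu ∧
      ∫ ω, Real.exp (t3 * |dd (m.f j ω) v|) ∂m.mu ≤ 2 * Real.exp (294 ^ 2 * C / 2) := by
    intro v hv
    simp only [hf3]
    have h1 := r6_abs_form m j (d3 v) t3 _ (hv3 v hv)
    refine ⟨h1.1, h1.2.trans ?_⟩
    have e1 : t3 ^ 2 * (C * σ ^ 2 / s ^ 4) = 294 ^ 2 * C := by
      rw [ht3]
      field_simp
    rw [e1]
  -- cardinality
  have hcard : ((SqF x N).card : ℝ) = (2 * N + 1) ^ 2 := by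
    unfold SqF
    rw [Finset.card_product, Int.card_Icc, Int.card_Icc]
    have e1 : (x.1 + (N : ℤ) + 1 - (x.1 - N)).toNat = 2 * N + 1 := by omega
    have e2 : (x.2 + (N : ℤ) + 1 - (x.2 - N)).toNat = 2 * N + 1 := by omega
    rw [e1, e2]
    push_cast
    ring
  set K : ℝ := 2 * N + 1 with hK
  have hK0 : 0 < K := by rw [hK]; positivity
  have hK7 : K ≤ 7 * r := by rw [hK, hNr]; linarith
  -- pointwise bound
  have hpt : ∀ ω : m.Om, Real.exp (Osc (m.f j ω) x N / (r / s * σ)) ≤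
      ∑ v ∈ SqF x N, (1 / K ^ 2) * ((1 / 3) * (Real.exp (t1 * |m.f j ω (v + (1, 0)) - m.f j ω v|) +
        Real.exp (t1 * |m.f j ω (v + (0, 1)) - m.f j ω v|) +
        Real.exp (t3 * |dd (m.f j ω) v|))) := by
    intro ω
    set A : V → ℝ := fun v => |m.f j ω (v + (1, 0)) - m.f j ω v| with hA
    set B : V → ℝ := fun v => |m.f j ω (v + (0, 1)) - m.f j ω v| with hB
    set E : V → ℝ := fun v => |dd (m.f j ω) v| with hE
    have hA0 : ∀ v, 0 ≤ A v := fun v => abs_nonneg _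
    have hB0 : ∀ v, 0 ≤ B v := fun v => abs_nonneg _
    have hE0 : ∀ v, 0 ≤ E v := fun v => abs_nonneg _
    have h1 : Osc (m.f j ω) x N / (r / s * σ) ≤
        ∑ v ∈ SqF x N, (1 / K ^ 2) * ((1 / 3) * (t1 * A v) + (1 / 3) * (t1 * B v) +
          (1 / 3) * (t3 * E v)) := by
      have e1 : Osc (m.f j ω) x N = (∑ v ∈ SqF x N, (A v + B v)) / K + 2 * ∑ v ∈ SqF x N, E v := rfl
      rw [e1, div_le_iff₀ (by positivity), Finset.sum_div, Finset.mul_sum, Finset.sum_mul,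
        ← Finset.sum_add_distrib]
      refine Finset.sum_le_sum fun v _ => ?_
      have e2 : 1 / K ^ 2 * (1 / 3 * (t1 * A v) + 1 / 3 * (t1 * B v) + 1 / 3 * (t3 * E v)) *
          (r / s * σ) = (A v + B v) * (7 * r / K ^ 2) + E v * (98 * r * s / K ^ 2) := by
        rw [ht1, ht3]
        field_simp
        ring
      rw [e2]
      refine add_le_add ?_ ?_
      · rw [div_eq_mul_one_div]
        refine mul_le_mul_of_nonneg_left ?_ (add_nonneg (hA0 v) (hB0 v))
        rw [div_le_div_iff₀ hK0 (by positivity)]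
        nlinarith
      · rw [mul_comm]
        refine mul_le_mul_of_nonneg_left ?_ (hE0 v)
        rw [le_div_iff₀ (by positivity)]
        nlinarith [mul_le_mul hK7 hK7 hK0.le (by positivity), mul_le_mul_of_nonneg_left hrs hr0.le]
    refine (Real.exp_le_exp.mpr h1).trans ?_
    have hJ := convexOn_exp.map_sum_le (t := SqF x N) (w := fun _ => 1 / K ^ 2)
      (p := fun v => (1 / 3) * (t1 * A v) + (1 / 3) * (t1 * B v) + (1 / 3) * (t3 * E v))
      (fun _ _ => by positivity)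
      (by
        rw [Finset.sum_const, nsmul_eq_mul, hcard, mul_one_div, div_self (by positivity)])
      (fun _ _ => Set.mem_univ _)
    simp only [smul_eq_mul] at hJ
    refine hJ.trans (Finset.sum_le_sum fun v _ => ?_)
    refine mul_le_mul_of_nonneg_left ?_ (by positivity)
    have hJ2 := convexOn_exp.map_sum_le (t := (Finset.univ : Finset (Fin 3)))
      (w := fun _ => (1 / 3 : ℝ)) (p := ![t1 * A v, t1 * B v, t3 * E v])
      (fun _ _ => by positivity) (by simp)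
      (fun _ _ => Set.mem_univ _)
    simp only [smul_eq_mul, Fin.sum_univ_three, Matrix.cons_val_zero, Matrix.cons_val_one,
      Matrix.cons_val_two, Matrix.head_cons, Matrix.tail_cons] at hJ2
    refine hJ2.trans (le_of_eq ?_)
    ring
  have hI : ∀ v ∈ SqF x N, Integrable (fun ω : m.Om => (1 / K ^ 2) *
      ((1 / 3) * (Real.exp (t1 * |m.f j ω (v + (1, 0)) - m.f j ω v|) +
        Real.exp (t1 * |m.f j ω (v + (0, 1)) - m.f j ω v|) +
        Real.exp (t3 * |dd (m.f j ω) v|)))) m.mu := by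
    intro v hv
    exact ((((hE1 v hv).1.add (hE2 v hv).1).add (hE3 v hv).1).const_mul _).const_mul _
  have hdom : Integrable (fun ω : m.Om => ∑ v ∈ SqF x N, (1 / K ^ 2) *
      ((1 / 3) * (Real.exp (t1 * |m.f j ω (v + (1, 0)) - m.f j ω v|) +
        Real.exp (t1 * |m.f j ω (v + (0, 1)) - m.f j ω v|) +
        Real.exp (t3 * |dd (m.f j ω) v|)))) m.mu := integrable_finsetSum _ hI
  have hmf : ∀ v : V, Measurable (fun ω : m.Om => m.f j ω v) := fun v => meas_fl m (m.eq j) v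
  have hmeas : Measurable (fun ω : m.Om => Real.exp (Osc (m.f j ω) x N / (r / s * σ))) := by
    have h1 : Measurable (fun ω : m.Om => Osc (m.f j ω) x N) := by
      unfold Osc dd
      refine Measurable.add (Measurable.div_const (Finset.measurable_sum _ fun v _ => ?_) _)
        (Measurable.const_mul (Finset.measurable_sum _ fun v _ => ?_) _)
      · exact (((hmf _).sub (hmf _)).abs).add (((hmf _).sub (hmf _)).abs)
      · exact ((((hmf _).sub (hmf _)).sub (hmf _)).add (hmf _)).abs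
    exact (h1.div_const _).exp
  have hint : Integrable (fun ω : m.Om => Real.exp (Osc (m.f j ω) x N / (r / s * σ))) m.mu := by
    refine hdom.mono' hmeas.aestronglyMeasurable (Filter.Eventually.of_forall fun ω => ?_)
    rw [Real.norm_eq_abs, abs_of_pos (Real.exp_pos _)]
    exact hpt ω
  refine ⟨hint, ?_⟩
  refine (integral_mono hint hdom hpt).trans ?_
  rw [integral_finsetSum _ hI]
  have hterm : ∀ v ∈ SqF x N, ∫ ω, (1 / K ^ 2) *
      ((1 / 3) * (Real.exp (t1 * |m.f j ω (v + (1, 0)) - m.f j ω v|) +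
        Real.exp (t1 * |m.f j ω (v + (0, 1)) - m.f j ω v|) +
        Real.exp (t3 * |dd (m.f j ω) v|))) ∂m.mu ≤ (1 / K ^ 2) * (2 * Real.exp (294 ^ 2 * C / 2)) := by
    intro v hv
    rw [integral_const_mul, integral_const_mul]
    refine mul_le_mul_of_nonneg_left ?_ (by positivity)
    have e1 : ∫ ω, (Real.exp (t1 * |m.f j ω (v + (1, 0)) - m.f j ω v|) +
        Real.exp (t1 * |m.f j ω (v + (0, 1)) - m.f j ω v|) +
        Real.exp (t3 * |dd (m.f j ω) v|)) ∂m.mu =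
        ∫ ω, Real.exp (t1 * |m.f j ω (v + (1, 0)) - m.f j ω v|) ∂m.mu +
        ∫ ω, Real.exp (t1 * |m.f j ω (v + (0, 1)) - m.f j ω v|) ∂m.mu +
        ∫ ω, Real.exp (t3 * |dd (m.f j ω) v|) ∂m.mu := by
      have h12 : Integrable (fun ω : m.Om => Real.exp (t1 * |m.f j ω (v + (1, 0)) - m.f j ω v|) +
          Real.exp (t1 * |m.f j ω (v + (0, 1)) - m.f j ω v|)) m.mu := (hE1 v hv).1.add (hE2 v hv).1
      rw [integral_add h12 (hE3 v hv).1, integral_add (hE1 v hv).1 (hE2 v hv).1]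
    rw [e1]
    have := (hE1 v hv).2
    have := (hE2 v hv).2
    have := (hE3 v hv).2
    linarith
  refine (Finset.sum_le_sum hterm).trans (le_of_eq ?_)
  rw [Finset.sum_const, nsmul_eq_mul, hcard]
  field_simp

end NU53
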