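import Pool.Agent.LibNU53.R6b
import Pool.Agent.LibNU53.R4
import Pool.Agent.LibNU53.R5

/-! Row R7 (CHANGE OF FIELD). For an increasing event which depends on `Sq x (3·2^e)`, and levels
`k = e+s0-q ≤ K`: `P_K(E) ≥ P_k(E)/2 - ε` (`s0` large).
PLAN. `F_K = F_k + H`, `H` = levels in `(k,K]`, independent of `F_k` (they use different blocks: `mg_mul` with
`G = m.le k`); `P(H(x) ≥ 0) ≥ 1/2` (centred Gaussian: symmetric); on
`{H(x) ≥ 0, OscS ≤ δσ_k}`: `F_K ≥ F_k - δ σ_k` on the square (`osc_le` for every level), so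
`{F_K > 0} ⊇ {F_k > δσ_k}` there. `P_K(E) ≥ P(H(x) ≥ 0, OscS ≤ δσ_k) · P_k^{δσ_k}(E) ≥ (1/2 - ε₁)(P_k(E) - C₄δ)`
(`shift` with `N = 3·2^e ≤ c 2^(q+k) = c 2^(e+s0)`, `s0` large). MEDIUM. -/

open MeasureTheory ProbabilityTheory

namespace NU53

/-- the field of the levels in `(k, K]` -/
private noncomputable def r7H (m : Mdl) (k K : ℕ) (ω : m.Om) (v : V) : ℝ :=
  m.fl (m.le K \ m.le k) ω v

private lemma r7_mem_le {m : Mdl} {k : ℕ} {b : m.B} : b ∈ m.le k ↔ m.lev b ≤ k := by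
  unfold Mdl.le
  rw [Finset.mem_filter]
  exact ⟨fun h => h.2, fun h => ⟨Finset.mem_univ _, h⟩⟩

private lemma r7_mem_eq {m : Mdl} {k : ℕ} {b : m.B} : b ∈ m.eq k ↔ m.lev b = k := by
  unfold Mdl.eq
  rw [Finset.mem_filter]
  exact ⟨fun h => h.2, fun h => ⟨Finset.mem_univ _, h⟩⟩

private lemma r7_sum (m : Mdl) (k K : ℕ) (ω : m.Om) (v : V) :
    r7H m k K ω v = ∑ j ∈ Finset.Ioc k K, m.f j ω v := by
  unfold r7H Mdl.f Mdl.fl
  have hmaps : ∀ b ∈ m.le K \ m.le k, m.lev b ∈ Finset.Ioc k K := by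
    intro b hb
    obtain ⟨h1, h2⟩ := Finset.mem_sdiff.1 hb
    rw [r7_mem_le] at h1 h2
    exact Finset.mem_Ioc.2 ⟨by omega, h1⟩
  rw [← Finset.sum_fiberwise_of_maps_to hmaps]
  refine Finset.sum_congr rfl fun j hj => ?_
  have h3 : (m.le K \ m.le k).filter (fun b => m.lev b = j) = m.eq j := by
    ext b
    rw [Finset.mem_filter, Finset.mem_sdiff, r7_mem_le, r7_mem_le, r7_mem_eq]
    have h4 := Finset.mem_Ioc.1 hj
    constructor
    · exact fun h => h.2
    · intro h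
      exact ⟨⟨by omega, by omega⟩, h⟩
  rw [h3]

private lemma r7_osc (m : Mdl) (k K : ℕ) (ω : m.Om) {x v : V} {N : ℕ} (hv : v ∈ Sq x N) :
    |r7H m k K ω v - r7H m k K ω x| ≤ OscS m k K ω x N := by
  rw [r7_sum, r7_sum, ← Finset.sum_sub_distrib]
  exact (Finset.abs_sum_le_sum_abs _ _).trans (Finset.sum_le_sum fun j _ => osc_le _ _ _ hv)

private lemma r7_split (m : Mdl) {k K : ℕ} (hk : k ≤ K) (ω : m.Om) (v : V) :
    m.F K ω v = r7H m k K ω v + m.F k ω v := by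
  have hsub : m.le k ⊆ m.le K := fun b hb => r7_mem_le.2 ((r7_mem_le.1 hb).trans hk)
  unfold r7H Mdl.F Mdl.fl
  rw [Finset.sum_sdiff hsub]

private lemma r7_H_indep (m : Mdl) {k K : ℕ} {ω ω' : m.Om}
    (h : ∀ b, b ∉ m.le k → ω b = ω' b) (v : V) : r7H m k K ω v = r7H m k K ω' v := by
  unfold r7H Mdl.fl
  refine Finset.sum_congr rfl fun b hb => ?_
  rw [h b (Finset.mem_sdiff.1 hb).2]

private lemma r7_F_indep (m : Mdl) {k : ℕ} {ω ω' : m.Om}
    (h : ∀ b, b ∈ m.le k → ω b = ω' b) (v : V) : m.F k ω v = m.F k ω' v := by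
  unfold Mdl.F Mdl.fl
  refine Finset.sum_congr rfl fun b hb => ?_
  rw [h b hb]

private lemma r7_osc_indep (m : Mdl) {k K : ℕ} {ω ω' : m.Om}
    (h : ∀ b, b ∉ m.le k → ω b = ω' b) (x : V) (N : ℕ) :
    OscS m k K ω x N = OscS m k K ω' x N := by
  unfold OscS
  refine Finset.sum_congr rfl fun j hj => ?_
  have h1 : m.f j ω = m.f j ω' := by
    funext v
    unfold Mdl.f Mdl.fl
    refine Finset.sum_congr rfl fun b hbj => ?_
    have h2 : b ∉ m.le k := by
      rw [r7_mem_le]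
      rw [r7_mem_eq] at hbj
      have := (Finset.mem_Ioc.1 hj).1
      omega
    rw [h b h2]
  rw [h1]

private lemma r7_osc_meas (m : Mdl) (k K : ℕ) (x : V) (N : ℕ) :
    Measurable (fun ω => OscS m k K ω x N) := by
  have hf : ∀ j v, Measurable (fun ω => m.f j ω v) := fun j v => meas_fl m (m.eq j) v
  unfold OscS Osc dd
  refine Finset.measurable_sum _ fun j _ => Measurable.add (Measurable.div_const ?_ _)
    (Measurable.const_mul ?_ _)
  · refine Finset.measurable_sum _ fun v _ => Measurable.add ?_ ?_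
    · exact measurable_norm.comp ((hf j _).sub (hf j _))
    · exact measurable_norm.comp ((hf j _).sub (hf j _))
  · refine Finset.measurable_sum _ fun v _ => ?_
    exact measurable_norm.comp ((((hf j _).sub (hf j _)).sub (hf j _)).add (hf j _))

/-- a centred Gaussian variable is nonnegative with probability at least one half -/
private lemma r7_half (m : Mdl) (A : Finset m.B) (x : V) :
    1 / 2 ≤ m.mu.real {ω | 0 ≤ m.fl A ω x} := by
  have hm := meas_fl m A x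
  have h1 := gauss_fl m (ι := Unit) (fun _ => A) (fun _ => x)
  have h2 : HasGaussianLaw (fun ω (_ : Unit) => - m.fl A ω x) m.mu := by
    let L : (Unit → ℝ) →L[ℝ] (Unit → ℝ) := -ContinuousLinearMap.id ℝ (Unit → ℝ)
    exact h1.map_fun L
  have h3 := GFPerc.gaussian_map_eq (F := fun (_ : Unit) ω => m.fl A ω x)
    (G := fun (_ : Unit) ω => - m.fl A ω x) h1 h2 (fun _ => mean_fl m A x) (fun _ => by
      rw [integral_neg, mean_fl, neg_zero]) (fun _ _ => by
      rw [covariance_fun_neg_left, covariance_fun_neg_right, neg_neg])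
  have hS : MeasurableSet {y : Unit → ℝ | 0 ≤ y ()} :=
    measurableSet_le measurable_const (measurable_pi_apply _)
  have h4 : m.mu {ω | 0 ≤ m.fl A ω x} = m.mu {ω | 0 ≤ - m.fl A ω x} := by
    have h5 := congrArg (fun μ => μ {y : Unit → ℝ | 0 ≤ y ()}) h3
    have hn : Measurable (fun ω (_ : Unit) => - m.fl A ω x) :=
      measurable_pi_lambda _ fun _ => hm.neg
    rw [Measure.map_apply (measurable_pi_lambda _ fun _ => hm) hS,
      Measure.map_apply hn hS] at h5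
    exact h5
  have h6 : {ω | 0 ≤ m.fl A ω x} ∪ {ω | 0 ≤ - m.fl A ω x} = Set.univ := by
    ext ω
    simp only [Set.mem_union, Set.mem_univ, iff_true]
    rcases le_total 0 (m.fl A ω x) with h | h
    · exact Or.inl h
    · exact Or.inr (neg_nonneg.2 h)
  have h7 : (1 : ℝ) ≤ m.mu.real {ω | 0 ≤ m.fl A ω x} + m.mu.real {ω | 0 ≤ - m.fl A ω x} := by
    have h8 := measureReal_union_le (μ := m.mu) {ω | 0 ≤ m.fl A ω x} {ω | 0 ≤ - m.fl A ω x}
    rw [h6, probReal_univ] at h8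
    exact h8
  have h9 : m.mu.real {ω | 0 ≤ - m.fl A ω x} = m.mu.real {ω | 0 ≤ m.fl A ω x} := by
    rw [measureReal_def, measureReal_def, h4]
  linarith

/-- events of disjoint sets of blocks are independent -/
private lemma r7_mul (m : Mdl) (G : Finset m.B) {A A' : Set m.Om} (hA : MeasurableSet A)
    (hA' : MeasurableSet A')
    (h : ∀ ω ω' : m.Om, (∀ b, b ∉ G → ω b = ω' b) → ω ∈ A → ω' ∈ A)
    (h' : ∀ ω ω' : m.Om, (∀ b, b ∈ G → ω b = ω' b) → ω ∈ A' → ω' ∈ A') :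
    m.mu.real (A ∩ A') = m.mu.real A * m.mu.real A' := by
  classical
  have h1 := mg_mul (gam m.M) G (A.indicator fun _ => (1 : ℝ)) (A'.indicator fun _ => (1 : ℝ))
    ((integrable_const (1 : ℝ)).indicator hA) ((integrable_const (1 : ℝ)).indicator hA')
    (fun ω ω' hω => by
      have h2 : ω ∈ A ↔ ω' ∈ A := ⟨h ω ω' hω, h ω' ω fun b hb => (hω b hb).symm⟩
      by_cases h3 : ω ∈ A
      · rw [Set.indicator_of_mem h3, Set.indicator_of_mem (h2.1 h3)]
      · rw [Set.indicator_of_notMem h3, Set.indicator_of_notMem fun h4 => h3 (h2.2 h4)])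
    (fun ω ω' hω => by
      have h2 : ω ∈ A' ↔ ω' ∈ A' := ⟨h' ω ω' hω, h' ω' ω fun b hb => (hω b hb).symm⟩
      by_cases h3 : ω ∈ A'
      · rw [Set.indicator_of_mem h3, Set.indicator_of_mem (h2.1 h3)]
      · rw [Set.indicator_of_notMem h3, Set.indicator_of_notMem fun h4 => h3 (h2.2 h4)])
  have h5 : (fun ω => A.indicator (fun _ => (1 : ℝ)) ω * A'.indicator (fun _ => (1 : ℝ)) ω) =
      (A ∩ A').indicator fun _ => (1 : ℝ) := by
    funext ω
    rw [← Set.inter_indicator_mul (fun _ => (1 : ℝ)) (fun _ => (1 : ℝ)), mul_one]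
  rw [h5, integral_indicator_const _ (hA.inter hA'), integral_indicator_const _ hA,
    integral_indicator_const _ hA', smul_eq_mul, smul_eq_mul, smul_eq_mul, mul_one, mul_one,
    mul_one] at h1
  exact h1

theorem change (C c ε : ℝ) (hc : 0 < c) (hε : 0 < ε) : ∃ s00 : ℕ, ∀ s0 : ℕ, s00 ≤ s0 →
    ∀ (α : ℝ) (q J : ℕ) (D : ℤ) (κ : ℕ → V → ℝ) (m : Mdl), IsMdl C c α q J D κ m →
    ∀ (e K : ℕ), q ≤ e + s0 → e + s0 - q ≤ K → K ≤ J → ∀ x : V,
    Sq x (3 * 2 ^ e + 1) ⊆ Sq 0 D → ∀ E : Set V → Prop, Inc E → Loc (Sq x (3 * 2 ^ e)) E →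
    m.Pr (e + s0 - q) 0 E / 2 - ε ≤ m.Pr K 0 E := by
  obtain ⟨C4, hC4, hshift⟩ := shift C c
  obtain ⟨n, hn⟩ := pow_unbounded_of_one_lt (3 / c) (by norm_num : (1 : ℝ) < 2)
  obtain ⟨δ, hδ⟩ : ∃ δ : ℝ, δ = ε / (2 * C4) := ⟨_, rfl⟩
  have hδ0 : 0 < δ := by rw [hδ]; positivity
  have hC4δ : C4 * δ = ε / 2 := by rw [hδ]; field_simp
  obtain ⟨s1, hs1⟩ := oscS_small C c (ε / 2) δ (by positivity) hδ0
  refine ⟨max n s1, ?_⟩
  intro s0 hs0 α q J D κ m hm e K hq hK hKJ x hxD E hinc hloc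
  obtain ⟨k, hk⟩ : ∃ k : ℕ, k = e + s0 - q := ⟨_, rfl⟩
  have hosc := hs1 s0 ((le_max_right _ _).trans hs0) α q J D κ m hm e K hq hKJ x hxD
  rw [← hk] at hosc hK ⊢
  have hkJ : k ≤ J := hK.trans hKJ
  have hσ : 0 < sg α k := Real.rpow_pos_of_pos (by norm_num) _
  have h3e : (0 : ℤ) < 3 * 2 ^ e := by positivity
  have hxD' : Sq x (3 * 2 ^ e) ⊆ Sq 0 D :=
    (Box_subset (by omega) (by omega) (by omega) (by omega) :
      Sq x (3 * 2 ^ e) ⊆ Sq x (3 * 2 ^ e + 1)).trans hxD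
  have hx0 : x ∈ Sq 0 D := hxD' ⟨⟨by omega, by omega⟩, by omega, by omega⟩
  have hscale : ((3 * 2 ^ e : ℤ) : ℝ) ≤ c * 2 ^ (q + k) := by
    rw [show q + k = e + s0 by omega]
    push_cast
    have h1 : 3 / c ≤ (2 : ℝ) ^ s0 := hn.le.trans
      (pow_le_pow_right₀ (by norm_num) ((le_max_left _ _).trans hs0))
    rw [div_le_iff₀ hc] at h1
    calc (3 : ℝ) * 2 ^ e ≤ (2 ^ s0 * c) * 2 ^ e := mul_le_mul_of_nonneg_right h1 (by positivity)
      _ = c * 2 ^ (e + s0) := by rw [pow_add]; ring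
  have hsh := hshift α q J D κ m hm k hkJ x (3 * 2 ^ e) hscale hxD' hx0 E hinc hloc (δ * sg α k)
    (by positivity)
  rw [mul_div_assoc, div_self hσ.ne', mul_one, hC4δ] at hsh
  -- the two events
  obtain ⟨A, hA⟩ : ∃ A : Set m.Om, A = {ω | 0 ≤ r7H m k K ω x} ∩
    {ω | OscS m k K ω x (3 * 2 ^ e) ≤ δ * sg α k} := ⟨_, rfl⟩
  obtain ⟨A', hA'⟩ : ∃ A' : Set m.Om, A' = {ω | E (m.Sk k (δ * sg α k) ω)} := ⟨_, rfl⟩
  have mO : MeasurableSet {ω | OscS m k K ω x (3 * 2 ^ e) ≤ δ * sg α k} :=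
    measurableSet_le (r7_osc_meas m k K x _) measurable_const
  have mH : MeasurableSet {ω | 0 ≤ r7H m k K ω x} :=
    measurableSet_le measurable_const (meas_fl m (m.le K \ m.le k) x)
  have mA : MeasurableSet A := by rw [hA]; exact mH.inter mO
  have mA' : MeasurableSet A' := by
    rw [hA']
    exact meas_gt (Sq_finite x (3 * 2 ^ e)) hloc (fun v ω => m.F k ω v)
      (fun v _ => meas_fl m (m.le k) v) _
  have hprod := r7_mul m (m.le k) mA mA' (fun ω ω' h hω => by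
      rw [hA] at hω ⊢
      refine ⟨?_, ?_⟩
      · have h1 : 0 ≤ r7H m k K ω x := hω.1
        show 0 ≤ r7H m k K ω' x
        rwa [← r7_H_indep m h x]
      · have h1 : OscS m k K ω x (3 * 2 ^ e) ≤ δ * sg α k := hω.2
        show OscS m k K ω' x (3 * 2 ^ e) ≤ δ * sg α k
        rwa [← r7_osc_indep m h x]) (fun ω ω' h hω => by
      rw [hA'] at hω ⊢
      have h1 : m.Sk k (δ * sg α k) ω = m.Sk k (δ * sg α k) ω' := by
        unfold Mdl.Sk
        ext v
        show δ * sg α k < m.F k ω v ↔ δ * sg α k < m.F k ω' v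
        rw [r7_F_indep m h v]
      have h2 : E (m.Sk k (δ * sg α k) ω) := hω
      rw [h1] at h2
      exact h2)
  have hincl : A ∩ A' ⊆ {ω | E (m.Sk K 0 ω)} := by
    rintro ω ⟨h1, h2⟩
    rw [hA] at h1
    rw [hA'] at h2
    have h3 : E (m.Sk k (δ * sg α k) ω ∩ Sq x (3 * 2 ^ e)) := hloc _ _ (by
      rw [Set.inter_assoc, Set.inter_self]) h2
    refine hinc _ _ ?_ h3
    rintro v ⟨hv1, hv2⟩
    show 0 < m.F K ω v
    rw [r7_split m hK]
    have h4 : |r7H m k K ω v - r7H m k K ω x| ≤ δ * sg α k :=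
      (r7_osc m k K ω (by push_cast; exact hv2)).trans h1.2
    have h5 := (abs_le.1 h4).1
    have h6 : 0 ≤ r7H m k K ω x := h1.1
    have h7 : δ * sg α k < m.F k ω v := hv1
    linarith
  have hPA : 1 / 2 - ε / 2 ≤ m.mu.real A := by
    have h1 := r7_half m (m.le K \ m.le k) x
    have h2 : {ω | 0 ≤ r7H m k K ω x} ⊆ A ∪ {ω | δ * sg α k < OscS m k K ω x (3 * 2 ^ e)} := by
      intro ω hω
      by_cases h3 : OscS m k K ω x (3 * 2 ^ e) ≤ δ * sg α k
      · left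
        rw [hA]
        exact ⟨hω, h3⟩
      · exact Or.inr (not_le.1 h3)
    have h3 := (measureReal_mono (μ := m.mu) h2).trans (measureReal_union_le _ _)
    have h4 : m.mu.real {ω | 0 ≤ r7H m k K ω x} = m.mu.real {ω | 0 ≤ m.fl (m.le K \ m.le k) ω x} :=
      rfl
    linarith
  have hPA'0 : 0 ≤ m.mu.real A' := measureReal_nonneg
  have hPA'1 : m.mu.real A' ≤ 1 := measureReal_le_one
  have hPA' : m.Pr k 0 E ≤ m.mu.real A' + ε / 2 := by
    rw [hA']
    exact hsh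
  have hfin : m.mu.real A * m.mu.real A' ≤ m.Pr K 0 E := by
    rw [← hprod]
    exact measureReal_mono hincl
  have h8 : (1 / 2 - ε / 2) * m.mu.real A' ≤ m.mu.real A * m.mu.real A' :=
    mul_le_mul_of_nonneg_right hPA hPA'0
  nlinarith

end NU53
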