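import Pool.Agent.LibNU53.HexU

/-! Row T2. In the rectangle `[a,b]×[c,d]`: a path of `S` from the left side to `w = (b, w.2)`, and a
path of `S` between two vertices `p`, `p'` of the right side with `p'.2 ≤ w.2 ≤ p.2`, are connected.
And the mirrored statement.
PLAN. If `w = p` or `w = p'` trivial. Otherwise suppose not connected; `S1` = cluster of `u` in
`S ∩ Box a b c d`, `S' := S1 ∪ {(b+1, w.2)}`. In `Box a (b+1) c d`: LR crossing of `S'` (the path and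
one more step to the right); TB crossing of `S'ᶜ`: column `b+1` from the bottom to height `p'.2`,
step to `p'`, the path to `p`, step to `(b+1, p.2)`, column up to the top. Contradiction with
`hex_unique`. `t2'` by the same proof or by reflection. MEDIUM. -/

namespace NU53

private theorem t2_restrict {T X : Set V} {u v : V} (h : Conn T u v)
    (hX : ∀ w, Conn T u w → w ∈ X) : Conn X u v := by
  induction h with
  | refl h => exact Conn.refl (hX _ (Conn.refl h))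
  | tail hc ha hm ih => exact Conn.tail ih ha (hX _ (Conn.tail hc ha hm))

private theorem t2_col {X : Set V} {x y₀ y₁ : ℤ} (h : y₀ ≤ y₁)
    (hX : ∀ y, y₀ ≤ y → y ≤ y₁ → ((x, y) : V) ∈ X) : Conn X (x, y₀) (x, y₁) := by
  induction y₁, h using Int.le_induction with
  | base => exact Conn.refl (hX _ le_rfl le_rfl)
  | succ y h ih =>
    refine Conn.tail (ih fun z h1 h2 => hX z h1 (by omega)) ?_ (hX _ (by omega) le_rfl)
    exact Or.inr (Or.inl ⟨rfl, Or.inl rfl⟩)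

theorem t2 {a b c d : ℤ} {S : Set V} {u w p p' : V} (hu : u.1 = a) (hw : w.1 = b)
    (h1 : Conn (S ∩ Box a b c d) u w) (hp : p.1 = b) (hp' : p'.1 = b)
    (h2 : Conn (S ∩ Box a b c d) p p') (h3 : p'.2 ≤ w.2) (h4 : w.2 ≤ p.2) :
    Conn (S ∩ Box a b c d) u p := by
  by_contra hn
  have h5 : w.2 ≠ p.2 := fun h => hn ((Prod.ext (hw.trans hp.symm) h : w = p) ▸ h1)
  have h6 : w.2 ≠ p'.2 := fun h =>
    hn (Conn.trans ((Prod.ext (hw.trans hp'.symm) h : w = p') ▸ h1) h2.symm)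
  obtain ⟨⟨hpa, hpb⟩, hpc, hpd⟩ := h2.left_mem.2
  obtain ⟨⟨hpa', hpb'⟩, hpc', hpd'⟩ := h2.right_mem.2
  obtain ⟨⟨hwa, hwb⟩, hwc, hwd⟩ := h1.right_mem.2
  set S1 : Set V := {z | Conn (S ∩ Box a b c d) u z} with hS1
  have hcol : ∀ y, c ≤ y → y ≤ d → y ≠ w.2 →
      ((b + 1, y) : V) ∈ (S1 ∪ {(b + 1, w.2)})ᶜ ∩ Box a (b + 1) c d := by
    intro y hy1 hy2 hy3
    refine ⟨?_, ⟨by omega, le_rfl⟩, hy1, hy2⟩
    rintro (h | h)
    · have h7 := (Conn.right_mem (h : Conn (S ∩ Box a b c d) u (b + 1, y))).2.1.2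
      change b + 1 ≤ b at h7
      omega
    · exact hy3 (congrArg Prod.snd (h : ((b + 1, y) : V) = (b + 1, w.2)))
  refine hex_unique (a := a) (b := b + 1) (c := c) (d := d) (S1 ∪ {(b + 1, w.2)}) ?_ ?_
  · refine ⟨u, (b + 1, w.2), hu, rfl, Conn.tail (t2_restrict h1 fun z hz => ?_) ?_ ?_⟩
    · obtain ⟨⟨hza, hzb⟩, hzc, hzd⟩ := hz.right_mem.2
      exact ⟨Or.inl hz, ⟨hza, by omega⟩, hzc, hzd⟩
    · exact Or.inl ⟨rfl, Or.inl (by rw [hw])⟩
    · exact ⟨Or.inr rfl, ⟨by omega, le_rfl⟩, hwc, hwd⟩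
  · have hc1 : Conn ((S1 ∪ {(b + 1, w.2)})ᶜ ∩ Box a (b + 1) c d) (b + 1, c) (b + 1, p'.2) :=
      t2_col hpc' fun y hy1 hy2 => hcol y hy1 (by omega) (by omega)
    have hc2 : Conn ((S1 ∪ {(b + 1, w.2)})ᶜ ∩ Box a (b + 1) c d) (b + 1, p.2) (b + 1, d) :=
      t2_col hpd fun y hy1 hy2 => hcol y (by omega) hy2 (by omega)
    have hmid : Conn ((S1 ∪ {(b + 1, w.2)})ᶜ ∩ Box a (b + 1) c d) p' p := by
      refine t2_restrict h2.symm fun z hz => ?_
      obtain ⟨⟨hza, hzb⟩, hzc, hzd⟩ := hz.right_mem.2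
      refine ⟨?_, ⟨hza, by omega⟩, hzc, hzd⟩
      rintro (h | h)
      · exact hn (Conn.trans (Conn.trans h hz.symm) h2.symm)
      · have h7 := congrArg Prod.fst (h : z = (b + 1, w.2))
        change z.1 = b + 1 at h7
        omega
    refine ⟨(b + 1, c), (b + 1, d), rfl, rfl, Conn.trans (Conn.tail (Conn.trans
      (Conn.tail hc1 ?_ hmid.left_mem) hmid) ?_ hc2.left_mem) hc2⟩
    · exact Or.inl ⟨rfl, Or.inr (by rw [hp'])⟩
    · exact Or.inl ⟨rfl, Or.inl (by rw [hp])⟩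

theorem t2' {a b c d : ℤ} {S : Set V} {u w p p' : V} (hu : u.1 = b) (hw : w.1 = a)
    (h1 : Conn (S ∩ Box a b c d) u w) (hp : p.1 = a) (hp' : p'.1 = a)
    (h2 : Conn (S ∩ Box a b c d) p p') (h3 : p'.2 ≤ w.2) (h4 : w.2 ≤ p.2) :
    Conn (S ∩ Box a b c d) u p := by
  by_contra hn
  have h5 : w.2 ≠ p.2 := fun h => hn ((Prod.ext (hw.trans hp.symm) h : w = p) ▸ h1)
  have h6 : w.2 ≠ p'.2 := fun h =>
    hn (Conn.trans ((Prod.ext (hw.trans hp'.symm) h : w = p') ▸ h1) h2.symm)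
  obtain ⟨⟨hpa, hpb⟩, hpc, hpd⟩ := h2.left_mem.2
  obtain ⟨⟨hpa', hpb'⟩, hpc', hpd'⟩ := h2.right_mem.2
  obtain ⟨⟨hwa, hwb⟩, hwc, hwd⟩ := h1.right_mem.2
  set S1 : Set V := {z | Conn (S ∩ Box a b c d) u z} with hS1
  have hcol : ∀ y, c ≤ y → y ≤ d → y ≠ w.2 →
      ((a - 1, y) : V) ∈ (S1 ∪ {(a - 1, w.2)})ᶜ ∩ Box (a - 1) b c d := by
    intro y hy1 hy2 hy3
    refine ⟨?_, ⟨le_rfl, by omega⟩, hy1, hy2⟩
    rintro (h | h)
    · have h7 := (Conn.right_mem (h : Conn (S ∩ Box a b c d) u (a - 1, y))).2.1.1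
      change a ≤ a - 1 at h7
      omega
    · exact hy3 (congrArg Prod.snd (h : ((a - 1, y) : V) = (a - 1, w.2)))
  refine hex_unique (a := a - 1) (b := b) (c := c) (d := d) (S1 ∪ {(a - 1, w.2)}) ?_ ?_
  · refine ⟨(a - 1, w.2), u, rfl, hu, Conn.symm (Conn.tail
      (t2_restrict h1 fun z hz => ?_) ?_ ?_)⟩
    · obtain ⟨⟨hza, hzb⟩, hzc, hzd⟩ := hz.right_mem.2
      exact ⟨Or.inl hz, ⟨by omega, hzb⟩, hzc, hzd⟩
    · exact Or.inl ⟨rfl, Or.inr (by change w.1 = a - 1 + 1; omega)⟩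
    · exact ⟨Or.inr rfl, ⟨le_rfl, by omega⟩, hwc, hwd⟩
  · have hc1 : Conn ((S1 ∪ {(a - 1, w.2)})ᶜ ∩ Box (a - 1) b c d) (a - 1, c) (a - 1, p'.2) :=
      t2_col hpc' fun y hy1 hy2 => hcol y hy1 (by omega) (by omega)
    have hc2 : Conn ((S1 ∪ {(a - 1, w.2)})ᶜ ∩ Box (a - 1) b c d) (a - 1, p.2) (a - 1, d) :=
      t2_col hpd fun y hy1 hy2 => hcol y (by omega) hy2 (by omega)
    have hmid : Conn ((S1 ∪ {(a - 1, w.2)})ᶜ ∩ Box (a - 1) b c d) p' p := by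
      refine t2_restrict h2.symm fun z hz => ?_
      obtain ⟨⟨hza, hzb⟩, hzc, hzd⟩ := hz.right_mem.2
      refine ⟨?_, ⟨by omega, hzb⟩, hzc, hzd⟩
      rintro (h | h)
      · exact hn (Conn.trans (Conn.trans h hz.symm) h2.symm)
      · have h7 := congrArg Prod.fst (h : z = (a - 1, w.2))
        change z.1 = a - 1 at h7
        omega
    refine ⟨(a - 1, c), (a - 1, d), rfl, rfl, Conn.trans (Conn.tail (Conn.trans
      (Conn.tail hc1 ?_ hmid.left_mem) hmid) ?_ hc2.left_mem) hc2⟩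
    · exact Or.inl ⟨rfl, Or.inl (by change p'.1 = a - 1 + 1; omega)⟩
    · exact Or.inl ⟨rfl, Or.inr (by change p.1 = a - 1 + 1; omega)⟩

end NU53
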