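import Pool.Agent.LibNU53.HexU

/-! Row T4. Two left-right paths of `S` in the same rectangle whose end points are exchanged
(`u.2 ≤ p.2` on the left, `q.2 ≤ v.2` on the right) are connected.
PLAN. If `u = p` or `v = q` trivial (`u.2 = p.2` means `u = p`). Otherwise suppose not connected;
`S1` = cluster of `u` in `S ∩ Box a b c d`; `S' := S1 ∪ {(a-1, u.2), (b+1, v.2)}`. In
`Box (a-1) (b+1) c d`: LR crossing of `S'`; TB crossing of `S'ᶜ`: column `b+1` from the bottom to
height `q.2 < v.2`, step to `q`, path back to `p`, step to `(a-1, p.2)`, `p.2 > u.2`, column `a-1` up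
to the top. Contradiction with `hex_unique`. MEDIUM. -/

namespace NU53

private lemma t4_col (T : Set V) (x y : ℤ) (n : ℕ)
    (h : ∀ s : ℤ, y ≤ s → s ≤ y + n → ((x, s) : V) ∈ T) : Conn T (x, y) (x, y + n) := by
  induction n with
  | zero =>
    have h0 := h y le_rfl (by simp)
    rw [Nat.cast_zero, add_zero]
    exact Conn.refl h0
  | succ n ih =>
    have h1 := ih fun s hs1 hs2 => h s hs1 (by push_cast; omega)
    refine Conn.tail h1 ?_ (h _ (by push_cast; omega) le_rfl)
    right; left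
    refine ⟨rfl, Or.inl ?_⟩
    show y + ((n + 1 : ℕ) : ℤ) = y + n + 1
    push_cast
    ring

private lemma t4_col' (T : Set V) (x y z : ℤ) (hyz : y ≤ z)
    (h : ∀ s : ℤ, y ≤ s → s ≤ z → ((x, s) : V) ∈ T) : Conn T (x, y) (x, z) := by
  have h1 : y + ((z - y).toNat : ℤ) = z := by
    rw [Int.toNat_of_nonneg (by omega)]
    ring
  have h2 := t4_col T x y (z - y).toNat (fun s hs1 hs2 => h s hs1 (by omega))
  rw [h1] at h2
  exact h2

private lemma t4_lift {S T : Set V} {p w : V} (h : ∀ z, Conn S p z → z ∈ T) (hc : Conn S p w) :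
    Conn T p w := by
  induction hc with
  | refl hm => exact Conn.refl (h _ (Conn.refl hm))
  | tail hc ha hm ih => exact Conn.tail ih ha (h _ (Conn.tail hc ha hm))

theorem t4 {a b c d : ℤ} {S : Set V} {u v p q : V} (hu : u.1 = a) (hv : v.1 = b)
    (h1 : Conn (S ∩ Box a b c d) u v) (hp : p.1 = a) (hq : q.1 = b)
    (h2 : Conn (S ∩ Box a b c d) p q) (h3 : u.2 ≤ p.2) (h4 : q.2 ≤ v.2) :
    Conn (S ∩ Box a b c d) u p := by
  by_contra hcon
  have h3' : u.2 < p.2 := by
    rcases lt_or_eq_of_le h3 with h | h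
    · exact h
    · exfalso
      have hup : u = p := Prod.ext (hu.trans hp.symm) h
      rw [← hup] at hcon
      exact hcon (Conn.refl h1.left_mem)
  have h4' : q.2 < v.2 := by
    rcases lt_or_eq_of_le h4 with h | h
    · exact h
    · exfalso
      have hqv : q = v := Prod.ext (hq.trans hv.symm) h
      rw [hqv] at h2
      exact hcon (h1.trans h2.symm)
  obtain ⟨S', hS'⟩ : ∃ S' : Set V, S' = {w | Conn (S ∩ Box a b c d) u w} ∪
      {((a - 1, u.2) : V), ((b + 1, v.2) : V)} := ⟨_, rfl⟩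
  have hbox : ∀ {x w : V}, Conn (S ∩ Box a b c d) x w → (a ≤ w.1 ∧ w.1 ≤ b) ∧ (c ≤ w.2 ∧ w.2 ≤ d) :=
    fun hc => hc.right_mem.2
  have hub := hbox (Conn.refl h1.left_mem)
  have hvb := hbox h1
  have hpb := hbox (Conn.refl h2.left_mem)
  have hqb := hbox h2
  refine hex_unique (a := a - 1) (b := b + 1) (c := c) (d := d) S' ?_ ?_
  · -- left-right crossing
    refine ⟨(a - 1, u.2), (b + 1, v.2), rfl, rfl, ?_⟩
    have hm1 : ((a - 1, u.2) : V) ∈ S' ∩ Box (a - 1) (b + 1) c d := by
      refine ⟨?_, ⟨by show a - 1 ≤ a - 1; omega, by show a - 1 ≤ b + 1; omega⟩, hub.2.1, hub.2.2⟩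
      rw [hS']
      exact Or.inr (Or.inl rfl)
    have hm2 : ((b + 1, v.2) : V) ∈ S' ∩ Box (a - 1) (b + 1) c d := by
      refine ⟨?_, ⟨by show a - 1 ≤ b + 1; omega, by show b + 1 ≤ b + 1; omega⟩, hvb.2.1, hvb.2.2⟩
      rw [hS']
      exact Or.inr (Or.inr rfl)
    have hin : ∀ z, Conn (S ∩ Box a b c d) u z → z ∈ S' ∩ Box (a - 1) (b + 1) c d := by
      intro z hz
      have hzb := hbox hz
      refine ⟨?_, ⟨by omega, by omega⟩, hzb.2⟩
      rw [hS']
      exact Or.inl hz
    have hmid : Conn (S' ∩ Box (a - 1) (b + 1) c d) u v := t4_lift hin h1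
    refine Conn.tail (Conn.trans (Conn.tail (Conn.refl hm1) ?_ (hin u (Conn.refl h1.left_mem))) hmid)
      ?_ hm2
    · left
      refine ⟨rfl, Or.inl ?_⟩
      show u.1 = a - 1 + 1
      omega
    · left
      refine ⟨rfl, Or.inl ?_⟩
      show b + 1 = v.1 + 1
      omega
  · -- bottom-top crossing
    refine ⟨(b + 1, c), (a - 1, d), rfl, rfl, ?_⟩
    have hnot : ∀ z, Conn (S ∩ Box a b c d) p z → z ∈ S'ᶜ ∩ Box (a - 1) (b + 1) c d := by
      intro z hz
      have hzb := hbox hz
      refine ⟨?_, ⟨by omega, by omega⟩, hzb.2⟩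
      intro hzS
      rw [hS'] at hzS
      rcases hzS with h | h | h
      · exact hcon (Conn.trans h hz.symm)
      · have h5 : z.1 = a - 1 := by rw [h]
        omega
      · have h5 : z.1 = b + 1 := by
          have h6 : z = (b + 1, v.2) := h
          rw [h6]
        omega
    have hright : ∀ s : ℤ, c ≤ s → s ≤ q.2 → ((b + 1, s) : V) ∈ S'ᶜ ∩ Box (a - 1) (b + 1) c d := by
      intro s hs1 hs2
      refine ⟨?_, ⟨by show a - 1 ≤ b + 1; omega, by show b + 1 ≤ b + 1; omega⟩, hs1, ?_⟩
      · intro hzS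
        rw [hS'] at hzS
        rcases hzS with h | h | h
        · have h5 := (hbox h).1.2
          have h6 : b + 1 ≤ b := h5
          omega
        · have h5 : b + 1 = a - 1 := congrArg Prod.fst h
          omega
        · have h6 : ((b + 1, s) : V) = (b + 1, v.2) := h
          have h5 : s = v.2 := congrArg Prod.snd h6
          omega
      · show s ≤ d
        omega
    have hleft : ∀ s : ℤ, p.2 ≤ s → s ≤ d → ((a - 1, s) : V) ∈ S'ᶜ ∩ Box (a - 1) (b + 1) c d := by
      intro s hs1 hs2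
      refine ⟨?_, ⟨by show a - 1 ≤ a - 1; omega, by show a - 1 ≤ b + 1; omega⟩, ?_, hs2⟩
      · intro hzS
        rw [hS'] at hzS
        rcases hzS with h | h | h
        · have h5 := (hbox h).1.1
          have h6 : a ≤ a - 1 := h5
          omega
        · have h5 : s = u.2 := congrArg Prod.snd h
          omega
        · have h6 : ((a - 1, s) : V) = (b + 1, v.2) := h
          have h5 : a - 1 = b + 1 := congrArg Prod.fst h6
          omega
      · show c ≤ s
        omega
    have c1 := t4_col' _ (b + 1) c q.2 hqb.2.1 hright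
    have c2 : Conn (S'ᶜ ∩ Box (a - 1) (b + 1) c d) q p := (t4_lift hnot h2).symm
    have c3 := t4_col' _ (a - 1) p.2 d hpb.2.2 hleft
    have c12 : Conn (S'ᶜ ∩ Box (a - 1) (b + 1) c d) (b + 1, c) q := by
      refine Conn.tail c1 ?_ (hnot q h2)
      left
      refine ⟨rfl, Or.inr ?_⟩
      show b + 1 = q.1 + 1
      omega
    have c23 : Conn (S'ᶜ ∩ Box (a - 1) (b + 1) c d) p (a - 1, p.2) := by
      refine Conn.tail (Conn.refl (hnot p (Conn.refl h2.left_mem))) ?_ (hleft p.2 le_rfl hpb.2.2)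
      left
      refine ⟨rfl, Or.inr ?_⟩
      show p.1 = a - 1 + 1
      omega
    exact c12.trans (c2.trans (c23.trans c3))

end NU53
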