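import Pool.Agent.LibNU53.T5

/-! Row T6. A path from the inner square to the outside of the outer square of an annulus crosses one
of the four rectangles the short way.
PLAN. Last vertex in the closed inner square, then first vertex with `|·-x|_∞ ≥ 3r`; in between the
path is in the open annulus; its end is on one of the four outer sides, say `v.1 = x.1 + 3r`; the
last vertex with `w.1 ≤ x.1 + r` before it (there is one: the starting point) starts a crossing of the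
right rectangle `[x.1+r, x.1+3r] × [x.2-3r, x.2+3r]`. The conclusion keeps the connection (in `S`) of
the crossing to `u`, because it is used for gluing. MEDIUM. -/

namespace NU53

private theorem t6_aux {S : Set V} {r : ℤ} (hr : 0 < r) {x u v : V} (h : Conn S u v)
    (hu : u ∈ Sq x r) :
    (Conn (S ∩ Sq x (3 * r)) u v ∧ |v.1 - x.1| < 3 * r ∧ |v.2 - x.2| < 3 * r) ∨
    ∃ w : V, Conn (S ∩ Sq x (3 * r)) u w ∧
      ((w.1 = x.1 + 3 * r ∨ w.1 = x.1 - 3 * r) ∨ (w.2 = x.2 + 3 * r ∨ w.2 = x.2 - 3 * r)) := by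
  induction h with
  | refl h =>
    left
    obtain ⟨⟨a1, a2⟩, a3, a4⟩ := hu
    refine ⟨Conn.refl ⟨h, ⟨by omega, by omega⟩, by omega, by omega⟩, ?_, ?_⟩
    · rw [abs_lt]; constructor <;> omega
    · rw [abs_lt]; constructor <;> omega
  | @tail v w hc ha hm ih =>
    rcases ih with ⟨h1, h2, h3⟩ | h
    · rw [abs_lt] at h2 h3
      have hstep : (w.1 ≤ v.1 + 1 ∧ v.1 ≤ w.1 + 1) ∧ (w.2 ≤ v.2 + 1 ∧ v.2 ≤ w.2 + 1) := by
        rcases ha with ⟨b1, b2⟩ | ⟨b1, b2⟩ | ⟨_, b1, b2⟩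
        · refine ⟨⟨?_, ?_⟩, ?_, ?_⟩ <;> omega
        · refine ⟨⟨?_, ?_⟩, ?_, ?_⟩ <;> omega
        · refine ⟨⟨?_, ?_⟩, ?_, ?_⟩ <;> omega
      obtain ⟨⟨c1, c2⟩, c3, c4⟩ := hstep
      have hw : w ∈ Sq x (3 * r) := ⟨⟨by omega, by omega⟩, by omega, by omega⟩
      have hcw : Conn (S ∩ Sq x (3 * r)) u w := Conn.tail h1 ha ⟨hm, hw⟩
      by_cases hb : ((w.1 = x.1 + 3 * r ∨ w.1 = x.1 - 3 * r) ∨
        (w.2 = x.2 + 3 * r ∨ w.2 = x.2 - 3 * r))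
      · exact Or.inr ⟨w, hcw, hb⟩
      · left
        refine ⟨hcw, ?_, ?_⟩
        · rw [abs_lt]; constructor <;> omega
        · rw [abs_lt]; constructor <;> omega
    · exact Or.inr h

/-- The four rectangles of the annulus at scale `r` around `x`, crossed the short way by a piece of a
path of `S` which starts at a vertex connected to `u` in `S`. -/
theorem t6 {S : Set V} {r : ℤ} (hr : 0 < r) {x u v : V} (h : Conn S u v) (hu : u ∈ Sq x r)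
    (hv : 3 * r ≤ |v.1 - x.1| ∨ 3 * r ≤ |v.2 - x.2|) :
    ∃ p q : V, Conn S u p ∧ Conn S u q ∧
      ((p.1 = x.1 + r ∧ q.1 = x.1 + 3 * r ∧
          Conn (S ∩ Box (x.1 + r) (x.1 + 3 * r) (x.2 - 3 * r) (x.2 + 3 * r)) p q) ∨
        (p.1 = x.1 - 3 * r ∧ q.1 = x.1 - r ∧
          Conn (S ∩ Box (x.1 - 3 * r) (x.1 - r) (x.2 - 3 * r) (x.2 + 3 * r)) p q) ∨
        (p.2 = x.2 + r ∧ q.2 = x.2 + 3 * r ∧
          Conn (S ∩ Box (x.1 - 3 * r) (x.1 + 3 * r) (x.2 + r) (x.2 + 3 * r)) p q) ∨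
        (p.2 = x.2 - 3 * r ∧ q.2 = x.2 - r ∧
          Conn (S ∩ Box (x.1 - 3 * r) (x.1 + 3 * r) (x.2 - 3 * r) (x.2 - r)) p q)) := by
  have hex : ∃ w : V, Conn (S ∩ Sq x (3 * r)) u w ∧
      ((w.1 = x.1 + 3 * r ∨ w.1 = x.1 - 3 * r) ∨ (w.2 = x.2 + 3 * r ∨ w.2 = x.2 - 3 * r)) := by
    rcases t6_aux hr h hu with ⟨_, h2, h3⟩ | h
    · rcases hv with hv | hv <;> omega
    · exact h
  obtain ⟨w, hw, hcase⟩ := hex
  obtain ⟨⟨a1, a2⟩, a3, a4⟩ := hu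
  have hS : S ∩ Sq x (3 * r) ⊆ S := Set.inter_subset_left
  rcases hcase with (hb | hb) | (hb | hb)
  · obtain ⟨u', v', e1, e2, e3, e4, e5⟩ := t5x (a' := x.1 + r) (b' := x.1 + 3 * r) (by omega) hw
      (by omega) (by omega)
    refine ⟨u', v', e4.mono hS, (e4.mono hS).trans (e3.mono fun z hz => hz.1.1),
      Or.inl ⟨e1, e2, e3.mono ?_⟩⟩
    rintro z ⟨⟨z1, ⟨_, _⟩, z3⟩, z4⟩
    exact ⟨z1, z4, z3⟩
  · obtain ⟨u', v', e1, e2, e3, e4, e5⟩ := t5x (a' := x.1 - 3 * r) (b' := x.1 - r) (by omega)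
      hw.symm (by omega) (by omega)
    refine ⟨u', v', (e5.mono hS).symm.trans (e3.mono fun z hz => hz.1.1).symm,
      (e5.mono hS).symm, Or.inr (Or.inl ⟨e1, e2, e3.mono ?_⟩)⟩
    rintro z ⟨⟨z1, ⟨_, _⟩, z3⟩, z4⟩
    exact ⟨z1, z4, z3⟩
  · obtain ⟨u', v', e1, e2, e3, e4, e5⟩ := t5y (a' := x.2 + r) (b' := x.2 + 3 * r) (by omega) hw
      (by omega) (by omega)
    refine ⟨u', v', e4.mono hS, (e4.mono hS).trans (e3.mono fun z hz => hz.1.1),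
      Or.inr (Or.inr (Or.inl ⟨e1, e2, e3.mono ?_⟩))⟩
    rintro z ⟨⟨z1, z2, _⟩, z4⟩
    exact ⟨z1, z2, z4⟩
  · obtain ⟨u', v', e1, e2, e3, e4, e5⟩ := t5y (a' := x.2 - 3 * r) (b' := x.2 - r) (by omega)
      hw.symm (by omega) (by omega)
    refine ⟨u', v', (e5.mono hS).symm.trans (e3.mono fun z hz => hz.1.1).symm,
      (e5.mono hS).symm, Or.inr (Or.inr (Or.inr ⟨e1, e2, e3.mono ?_⟩))⟩
    rintro z ⟨⟨z1, z2, _⟩, z4⟩
    exact ⟨z1, z2, z4⟩

end NU53
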