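import Pool.Agent.LibNU53.HexE
import Pool.Agent.LibNU53.Mod

/-! Row T8. The min-max functional `Tn n g = inf {t | LR of [0,n]² in {g ≤ t}}`.
All from: the box is finite, `{g ≤ t} ∩ box` takes finitely many values, the crossing exists for
`t = max g` and not for `t < min g`. `tn_order`: if `g'` induces the same order as `g` on the box then
`Tn n g' = g' v` for any `v` with `g v = Tn n g`. SHORT/MEDIUM, many small lemmas. -/

open MeasureTheory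

namespace NU53

/-- the min-max functional of the square `[0,n]²` -/
noncomputable def Tn (n : ℤ) (g : V → ℝ) : ℝ := sInf {t : ℝ | LR 0 n 0 n {v | g v ≤ t}}

private theorem t8_sub {n : ℤ} {S S' : Set V} (h : ∀ v ∈ Box 0 n 0 n, v ∈ S → v ∈ S')
    (hl : LR 0 n 0 n S) : LR 0 n 0 n S' := by
  obtain ⟨u, v, h1, h2, h3⟩ := hl
  refine ⟨u, v, h1, h2, h3.mono ?_⟩
  rintro w ⟨hw1, hw2⟩
  exact ⟨h w hw2 hw1, hw2⟩

private theorem t8_full {n : ℤ} (hn : 0 ≤ n) {S : Set V} (h : ∀ v ∈ Box 0 n 0 n, v ∈ S) :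
    LR 0 n 0 n S := by
  rcases hex_exists hn hn S with h1 | h1
  · exact h1
  · exfalso
    obtain ⟨u, v, -, -, h3⟩ := h1
    exact h3.right_mem.1 (h v h3.right_mem.2)

private theorem t8_mem {n : ℤ} {S : Set V} (h : LR 0 n 0 n S) : ∃ v ∈ Box 0 n 0 n, v ∈ S := by
  obtain ⟨u, v, -, -, h3⟩ := h
  exact ⟨v, h3.right_mem.2, h3.right_mem.1⟩

private theorem t8_main {n : ℤ} (hn : 0 ≤ n) (g : V → ℝ) :
    ∃ v ∈ Box 0 n 0 n, ∀ t : ℝ, LR 0 n 0 n {w | g w ≤ t} ↔ g v ≤ t := by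
  classical
  obtain ⟨Bx, hBx⟩ : ∃ Bx : Finset V, ∀ v, v ∈ Bx ↔ v ∈ Box 0 n 0 n :=
    ⟨(Box_finite 0 n 0 n).toFinset, fun v => Set.Finite.mem_toFinset _⟩
  have h0 : ((0, 0) : V) ∈ Bx := by
    rw [hBx]
    exact ⟨⟨le_rfl, hn⟩, le_rfl, hn⟩
  obtain ⟨v0, hv0, hmax⟩ := Finset.exists_max_image Bx g ⟨_, h0⟩
  have hne : (Bx.filter fun v => LR 0 n 0 n {w | g w ≤ g v}).Nonempty := by
    refine ⟨v0, Finset.mem_filter.2 ⟨hv0, t8_full hn fun v hv => ?_⟩⟩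
    exact hmax v ((hBx v).2 hv)
  obtain ⟨v, hv, hmin⟩ := Finset.exists_min_image _ g hne
  obtain ⟨hv1, hv2⟩ := Finset.mem_filter.1 hv
  refine ⟨v, (hBx v).1 hv1, fun t => ⟨fun ht => ?_, fun ht => ?_⟩⟩
  · obtain ⟨w0, hw0, hw0t⟩ := t8_mem ht
    have hne2 : (Bx.filter fun w => g w ≤ t).Nonempty :=
      ⟨w0, Finset.mem_filter.2 ⟨(hBx w0).2 hw0, hw0t⟩⟩
    obtain ⟨w, hw, hwmax⟩ := Finset.exists_max_image _ g hne2
    obtain ⟨hw1, hw2⟩ := Finset.mem_filter.1 hw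
    have h5 : LR 0 n 0 n {z | g z ≤ g w} := by
      refine t8_sub (fun z hz hzt => ?_) ht
      exact hwmax z (Finset.mem_filter.2 ⟨(hBx z).2 hz, hzt⟩)
    exact (hmin w (Finset.mem_filter.2 ⟨hw1, h5⟩)).trans hw2
  · refine t8_sub (fun z _ hz => ?_) hv2
    have hz' : g z ≤ g v := hz
    exact hz'.trans ht

private theorem t8_eq {n : ℤ} {g : V → ℝ} {v : V}
    (h : ∀ t : ℝ, LR 0 n 0 n {w | g w ≤ t} ↔ g v ≤ t) : Tn n g = g v := by
  have h1 : {t : ℝ | LR 0 n 0 n {w | g w ≤ t}} = Set.Ici (g v) := by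
    ext t
    exact h t
  unfold Tn
  rw [h1, csInf_Ici]

theorem lr_iff {n : ℤ} (hn : 0 ≤ n) (g : V → ℝ) (t : ℝ) :
    LR 0 n 0 n {v | g v ≤ t} ↔ Tn n g ≤ t := by
  obtain ⟨v, -, hv⟩ := t8_main hn g
  rw [hv t, t8_eq hv]

theorem tn_val {n : ℤ} (hn : 0 ≤ n) (g : V → ℝ) : ∃ v ∈ Box 0 n 0 n, g v = Tn n g := by
  obtain ⟨v, hv1, hv⟩ := t8_main hn g
  exact ⟨v, hv1, (t8_eq hv).symm⟩

theorem tn_mono {n : ℤ} (hn : 0 ≤ n) {g g' : V → ℝ} (h : ∀ v ∈ Box 0 n 0 n, g v ≤ g' v) :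
    Tn n g ≤ Tn n g' := by
  rw [← lr_iff hn]
  refine t8_sub (fun z hz hzt => ?_) ((lr_iff hn g' (Tn n g')).2 le_rfl)
  exact (h z hz).trans hzt

theorem tn_congr {n : ℤ} (hn : 0 ≤ n) {g g' : V → ℝ} (h : ∀ v ∈ Box 0 n 0 n, g v = g' v) :
    Tn n g = Tn n g' :=
  le_antisymm (tn_mono hn fun v hv => (h v hv).le) (tn_mono hn fun v hv => (h v hv).ge)

private theorem t8_lip {n : ℤ} (hn : 0 ≤ n) {g g' : V → ℝ} {δ : ℝ}
    (h : ∀ v ∈ Box 0 n 0 n, g v ≤ g' v + δ) : Tn n g ≤ Tn n g' + δ := by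
  rw [← lr_iff hn]
  refine t8_sub (fun z hz hzt => ?_) ((lr_iff hn g' (Tn n g')).2 le_rfl)
  have h1 : g' z ≤ Tn n g' := hzt
  show g z ≤ Tn n g' + δ
  linarith [h z hz]

theorem tn_lip {n : ℤ} (hn : 0 ≤ n) {g g' : V → ℝ} {δ : ℝ}
    (h : ∀ v ∈ Box 0 n 0 n, |g v - g' v| ≤ δ) : |Tn n g - Tn n g'| ≤ δ := by
  have h1 : Tn n g ≤ Tn n g' + δ := t8_lip hn fun v hv => by
    have := (abs_le.1 (h v hv)).2
    linarith
  have h2 : Tn n g' ≤ Tn n g + δ := t8_lip hn fun v hv => by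
    have := (abs_le.1 (h v hv)).1
    linarith
  exact abs_le.2 ⟨by linarith, by linarith⟩

theorem tn_order {n : ℤ} (hn : 0 ≤ n) {g g' : V → ℝ}
    (h : ∀ u ∈ Box 0 n 0 n, ∀ v ∈ Box 0 n 0 n, (g u ≤ g v ↔ g' u ≤ g' v)) {v : V}
    (hv : v ∈ Box 0 n 0 n) (hg : g v = Tn n g) : Tn n g' = g' v := by
  apply le_antisymm
  · rw [← lr_iff hn]
    refine t8_sub (fun z hz hzt => ?_) ((lr_iff hn g (g v)).2 hg.ge)
    exact (h z hz v hv).1 hzt
  · obtain ⟨v', hv', hgv'⟩ := tn_val hn g'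
    have h1 : LR 0 n 0 n {w | g w ≤ g v'} := by
      refine t8_sub (fun z hz hzt => ?_) ((lr_iff hn g' (g' v')).2 hgv'.ge)
      exact (h z hz v' hv').2 hzt
    rw [lr_iff hn, ← hg] at h1
    rw [← hgv']
    exact (h v hv v' hv').1 h1

theorem tn_meas {Ω : Type*} [MeasurableSpace Ω] {n : ℤ} (hn : 0 ≤ n) (g : V → Ω → ℝ)
    (hg : ∀ v, Measurable (g v)) : Measurable (fun ω => Tn n (fun v => g v ω)) := by
  classical
  obtain ⟨Bx, hBx⟩ : ∃ Bx : Finset V, ∀ v, v ∈ Bx ↔ v ∈ Box 0 n 0 n :=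
    ⟨(Box_finite 0 n 0 n).toFinset, fun v => Set.Finite.mem_toFinset _⟩
  refine measurable_of_Iic fun t => ?_
  have hset : (fun ω => Tn n (fun v => g v ω)) ⁻¹' Set.Iic t =
      ⋃ A ∈ Bx.powerset.filter (fun A : Finset V => LR 0 n 0 n (A : Set V)),
        ⋂ v ∈ Bx, {ω | g v ω ≤ t ↔ v ∈ A} := by
    ext ω
    rw [Set.mem_preimage, Set.mem_Iic, ← lr_iff hn]
    simp only [Set.mem_iUnion, Set.mem_iInter, exists_prop]
    constructor
    · intro h1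
      refine ⟨Bx.filter fun v => g v ω ≤ t, Finset.mem_filter.2 ⟨Finset.mem_powerset.2
        (Finset.filter_subset _ _), ?_⟩, fun v hv => ?_⟩
      · refine t8_sub (fun z hz hzt => ?_) h1
        exact Finset.mem_coe.2 (Finset.mem_filter.2 ⟨(hBx z).2 hz, hzt⟩)
      · show g v ω ≤ t ↔ v ∈ Bx.filter fun v => g v ω ≤ t
        rw [Finset.mem_filter]
        exact ⟨fun h => ⟨hv, h⟩, fun h => h.2⟩
    · rintro ⟨A, hA, h2⟩
      refine t8_sub (fun z hz hzA => ?_) (Finset.mem_filter.1 hA).2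
      exact (h2 z ((hBx z).2 hz)).2 (Finset.mem_coe.1 hzA)
  rw [hset]
  refine Finset.measurableSet_biUnion _ fun A _ => Finset.measurableSet_biInter _ fun v _ => ?_
  by_cases hv : v ∈ A
  · have h3 : {ω | g v ω ≤ t ↔ v ∈ A} = {ω | g v ω ≤ t} := by
      ext ω
      exact ⟨fun h => h.2 hv, fun h => ⟨fun _ => hv, fun _ => h⟩⟩
    rw [h3]
    exact measurableSet_le (hg v) measurable_const
  · have h3 : {ω | g v ω ≤ t ↔ v ∈ A} = {ω | g v ω ≤ t}ᶜ := by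
      ext ω
      exact ⟨fun h h4 => hv (h.1 h4), fun h => ⟨fun h4 => absurd h4 h, fun h4 => absurd h4 hv⟩⟩
    rw [h3]
    exact (measurableSet_le (hg v) measurable_const).compl

end NU53
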