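import Pool.Agent.LibNU53.T8
import Pool.Agent.LibNU53.R2
import Pool.Agent.LibNU53.R5

/-! Row T9 (BLOCK INFLUENCE, Gaussian rotation). `mg {b} ω ω'` = `ω` with the block `b` replaced.
PLAN. `ω_θ` = `ω` with block `b` replaced by `cos θ · ω b + sin θ · ω' b`; `(ω, ω') ↦ (ω_θ, Y_θ)`,
`Y_θ = - sin θ · ω b + cos θ · ω' b`, is such that `ω_θ` has law `μ`, `Y_θ` has law `gam` and they are
independent (rotation invariance of the Gaussian, coordinate by coordinate; only the block `b` moves).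
`φ(θ) = Tn n (F K ω_θ)`, `F K ω_θ v = A_v + B_v cos θ + C_v sin θ`. (a) For every `θ` a.s. no ties (`no_tie`
for `ω_θ`), then `tn_order` gives: near `θ` the functional is `F K ω_θ' v*` with `v* = v*(ω_θ)`, so
`φ'(θ) = ∑ i, a b i v* · Y_θ i`. (b) `φ` is Lipschitz (`tn_lip`), and differentiable off a finite set of
`θ` a.s. (two functions `A_v + B_v cos θ + C_v sin θ` coincide at finitely many `θ ∈ [0, π/2]` unless they are
identical; a.s. they are not, by no ties at `θ = 0`), so
`|φ(π/2) - φ(0)| ≤ ∫_0^{π/2} |φ'(θ)| dθ` (`MeasureTheory.integral_eq_of_hasDerivAt_off_countable` or a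
similar lemma; alternatively a Riemann sum argument with `tn_lip`). (c) expectation: by independence
`E |φ'(θ)| = ∑_v P(v* = v) · √(2/π) · √(∑ i, a b i v ^ 2)`. Total factor `(π/2)·√(2/π) = √(π/2)`.
If `lev b > K` the left side is `0`. STRONG. -/

open MeasureTheory ProbabilityTheory

namespace NU53

/-- the box `[0,n]²` as a finite set -/
noncomputable def BoxF (n : ℤ) : Finset V := Finset.Icc 0 n ×ˢ Finset.Icc 0 n

private theorem t9_abs_std : ∫ x, |x| ∂(gaussianReal 0 1) = Real.sqrt (2 / Real.pi) := by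
  rw [integral_gaussianReal_eq_integral_smul one_ne_zero]
  have h1 : ∀ x : ℝ, gaussianPDFReal 0 1 x • |x| =
      (fun y : ℝ => (Real.sqrt (2 * Real.pi))⁻¹ * (y ^ (1 : ℝ) * Real.exp (-(1 / 2) * y ^ (2 : ℝ)))) |x| := by
    intro x
    simp only [gaussianPDFReal, NNReal.coe_one, mul_one, sub_zero, smul_eq_mul, Real.rpow_one,
      Real.rpow_two, sq_abs]
    rw [show -x ^ 2 / 2 = -(1 / 2) * x ^ 2 by ring]
    ring
  simp only [h1]
  rw [integral_comp_abs (f := fun y : ℝ => (Real.sqrt (2 * Real.pi))⁻¹ *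
    (y ^ (1 : ℝ) * Real.exp (-(1 / 2) * y ^ (2 : ℝ))))]
  rw [integral_const_mul, integral_rpow_mul_exp_neg_mul_rpow (by norm_num) (by norm_num)
    (by norm_num)]
  norm_num
  have hpi : 0 < Real.sqrt Real.pi := Real.sqrt_pos.mpr Real.pi_pos
  have h2 : 0 < Real.sqrt 2 := Real.sqrt_pos.mpr (by norm_num)
  have hs : Real.sqrt 2 * Real.sqrt 2 = 2 := Real.mul_self_sqrt (by norm_num)
  field_simp
  nlinarith

private theorem t9_abs (v : NNReal) :
    ∫ x, |x| ∂(gaussianReal 0 v) = Real.sqrt (2 / Real.pi) * Real.sqrt v := by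
  have h1 : gaussianReal 0 v = (gaussianReal 0 1).map (fun x => Real.sqrt v * x) := by
    rw [gaussianReal_map_const_mul]
    congr 1
    · simp
    · ext
      simp
  rw [h1, integral_map (by fun_prop) (by fun_prop)]
  simp only [abs_mul, abs_of_nonneg (Real.sqrt_nonneg (v : ℝ))]
  rw [integral_const_mul, t9_abs_std]
  ring

private theorem t9_gl (m : Mdl) (b : m.B) (v : V) :
    HasGaussianLaw (fun ω => m.fl {b} ω v) m.mu :=
  (gauss_fl m (fun _ : Unit => {b}) (fun _ => v)).eval ()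

private theorem t9_mom (m : Mdl) (b : m.B) (v : V) :
    ∫ ω, |m.fl {b} ω v| ∂m.mu = Real.sqrt (2 / Real.pi) * Real.sqrt (∑ i, m.a b i v ^ 2) := by
  have h1 := (t9_gl m b v).map_eq_gaussianReal
  rw [mean_fl] at h1
  have hv : Var[fun ω => m.fl {b} ω v; m.mu] = ∑ i, m.a b i v ^ 2 := by
    rw [← covariance_self (t9_gl m b v).aemeasurable, cov_fl]
    simp [sq]
  rw [hv] at h1
  have h2 := t9_abs (∑ i, m.a b i v ^ 2).toNNReal
  rw [← h1, integral_map (t9_gl m b v).aemeasurable (by fun_prop),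
    Real.coe_toNNReal _ (Finset.sum_nonneg fun i _ => sq_nonneg _)] at h2
  exact h2

private theorem t9_rot1 (θ : ℝ) : MeasurePreserving
    (fun p : ℝ × ℝ => (Real.cos θ * p.1 + Real.sin θ * p.2, -Real.sin θ * p.1 + Real.cos θ * p.2))
    ((gaussianReal 0 1).prod (gaussianReal 0 1)) ((gaussianReal 0 1).prod (gaussianReal 0 1)) := by
  refine ⟨by fun_prop, ?_⟩
  exact ProbabilityTheory.IsGaussian.map_rotation_eq_self (μ := gaussianReal 0 1) (by simp) θ

private theorem t9_pi {ι E : Type*} [Fintype ι] [MeasurableSpace E] (ν : Measure E)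
    [IsProbabilityMeasure ν] (r : ι → E × E → E × E)
    (hr : ∀ i, MeasurePreserving (r i) (ν.prod ν) (ν.prod ν)) :
    MeasurePreserving (fun p : (ι → E) × (ι → E) =>
      ((fun i => (r i (p.1 i, p.2 i)).1, fun i => (r i (p.1 i, p.2 i)).2) : (ι → E) × (ι → E)))
      ((Measure.pi fun _ => ν).prod (Measure.pi fun _ => ν))
      ((Measure.pi fun _ => ν).prod (Measure.pi fun _ => ν)) := by
  have he := measurePreserving_arrowProdEquivProdArrow E E ι (fun _ => ν) (fun _ => ν)
  have hp := measurePreserving_pi (fun _ : ι => ν.prod ν) (fun _ : ι => ν.prod ν) hr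
  exact (he.comp hp).comp (he.symm _)


private noncomputable def t9_re (M : ℕ) (θ : ℝ) (p : (Fin M → ℝ) × (Fin M → ℝ)) :
    (Fin M → ℝ) × (Fin M → ℝ) :=
  (fun i => Real.cos θ * p.1 i + Real.sin θ * p.2 i,
    fun i => -Real.sin θ * p.1 i + Real.cos θ * p.2 i)

private theorem t9_re_mp (M : ℕ) (θ : ℝ) :
    MeasurePreserving (t9_re M θ) ((gam M).prod (gam M)) ((gam M).prod (gam M)) :=
  t9_pi (gaussianReal 0 1) (fun _ : Fin M => fun p : ℝ × ℝ =>
    (Real.cos θ * p.1 + Real.sin θ * p.2, -Real.sin θ * p.1 + Real.cos θ * p.2))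
    (fun _ => t9_rot1 θ)

private noncomputable def t9_rb (m : Mdl) (b : m.B) (θ : ℝ) (b' : m.B)
    (p : (Fin m.M → ℝ) × (Fin m.M → ℝ)) : (Fin m.M → ℝ) × (Fin m.M → ℝ) :=
  if b' = b then t9_re m.M θ p else p

private noncomputable def t9_r (m : Mdl) (b : m.B) (θ : ℝ) (p : m.Om × m.Om) : m.Om × m.Om :=
  (fun b' => (t9_rb m b θ b' (p.1 b', p.2 b')).1, fun b' => (t9_rb m b θ b' (p.1 b', p.2 b')).2)

private theorem t9_r_mp (m : Mdl) (b : m.B) (θ : ℝ) :
    MeasurePreserving (t9_r m b θ) (m.mu.prod m.mu) (m.mu.prod m.mu) := by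
  refine t9_pi (gam m.M) (t9_rb m b θ) ?_
  intro b'
  by_cases h : b' = b
  · have : t9_rb m b θ b' = t9_re m.M θ := by
      funext p
      simp [t9_rb, h]
    rw [this]
    exact t9_re_mp m.M θ
  · have : t9_rb m b θ b' = id := by
      funext p
      simp [t9_rb, h]
    rw [this]
    exact MeasurePreserving.id _

private theorem t9_r_add (m : Mdl) (b : m.B) (θ h : ℝ) (p : m.Om × m.Om) :
    (t9_r m b h (t9_r m b θ p)).1 = (t9_r m b (θ + h) p).1 := by
  funext b' i
  by_cases hb : b' = b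
  · simp only [t9_r, t9_rb, t9_re, hb, if_true, Real.cos_add, Real.sin_add]
    ring
  · simp only [t9_r, t9_rb, hb, if_false]

private theorem t9_r_zero (m : Mdl) (b : m.B) (p : m.Om × m.Om) : (t9_r m b 0 p).1 = p.1 := by
  funext b' i
  by_cases hb : b' = b
  · simp [t9_r, t9_rb, t9_re, hb]
  · simp [t9_r, t9_rb, hb]

private theorem t9_r_pi (m : Mdl) (b : m.B) (p : m.Om × m.Om) :
    (t9_r m b (Real.pi / 2) p).1 = mg {b} p.1 p.2 := by
  funext b' i
  by_cases hb : b' = b
  · simp [t9_r, t9_rb, t9_re, hb, mg]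
  · simp [t9_r, t9_rb, hb, mg]

private theorem t9_F (m : Mdl) (b : m.B) {K : ℕ} (hb : b ∈ m.le K) (θ : ℝ) (p : m.Om × m.Om)
    (v : V) : m.F K (t9_r m b θ p).1 v =
      m.F K p.1 v + ((Real.cos θ - 1) * m.fl {b} p.1 v + Real.sin θ * m.fl {b} p.2 v) := by
  have h1 : ∀ b' ∈ m.le K, ∑ i, m.a b' i v * (t9_r m b θ p).1 b' i =
      ∑ i, m.a b' i v * p.1 b' i + if b' = b then
        ((Real.cos θ - 1) * m.fl {b} p.1 v + Real.sin θ * m.fl {b} p.2 v) else 0 := by
    intro b' _
    by_cases h : b' = b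
    · subst h
      simp only [if_true, Mdl.fl, Finset.sum_singleton, Finset.mul_sum]
      rw [← Finset.sum_add_distrib, ← Finset.sum_add_distrib]
      refine Finset.sum_congr rfl fun i _ => ?_
      simp only [t9_r, t9_rb, t9_re, if_true]
      ring
    · simp only [h, if_false, add_zero]
      refine Finset.sum_congr rfl fun i _ => ?_
      simp only [t9_r, t9_rb, h, if_false]
  show (∑ b' ∈ m.le K, ∑ i, m.a b' i v * (t9_r m b θ p).1 b' i) =
    (∑ b' ∈ m.le K, ∑ i, m.a b' i v * p.1 b' i) + _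
  rw [Finset.sum_congr rfl h1, Finset.sum_add_distrib, Finset.sum_ite_eq' (m.le K) b, if_pos hb]

private theorem t9_cos (h : ℝ) : |Real.cos h - 1| ≤ |h| := by
  have h1 := Real.cos_le_one h
  rw [abs_of_nonpos (by linarith)]
  rcases le_or_gt |h| 2 with h2 | h2
  · have h3 := Real.one_sub_sq_div_two_le_cos (x := h)
    have h4 := abs_nonneg h
    have h5 : h ^ 2 = |h| ^ 2 := (sq_abs h).symm
    nlinarith
  · have := Real.neg_one_le_cos h
    linarith

/-- the pointwise derivative of the functional along the rotation -/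
private theorem t9_lim {n : ℤ} (hn : 0 ≤ n) (g c s : V → ℝ)
    (hnt : ∀ u ∈ Box 0 n 0 n, ∀ v ∈ Box 0 n 0 n, u ≠ v → g u ≠ g v) {v₀ : V}
    (hv₀ : v₀ ∈ Box 0 n 0 n) (hg : g v₀ = Tn n g) (θ : ℕ → ℝ)
    (hθ : Filter.Tendsto θ Filter.atTop (nhds 0)) (hθ0 : ∀ N, 0 < θ N) :
    Filter.Tendsto (fun N => |Tn n (fun v => g v + ((Real.cos (θ N) - 1) * c v +
      Real.sin (θ N) * s v)) - Tn n g| / θ N) Filter.atTop (nhds |s v₀|) := by
  have hcont : ∀ v, Filter.Tendsto (fun N => g v + ((Real.cos (θ N) - 1) * c v +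
      Real.sin (θ N) * s v)) Filter.atTop (nhds (g v)) := by
    intro v
    have h1 : Filter.Tendsto (fun N => g v + ((Real.cos (θ N) - 1) * c v +
      Real.sin (θ N) * s v)) Filter.atTop
        (nhds (g v + ((Real.cos 0 - 1) * c v + Real.sin 0 * s v))) := by
      have hc := (Real.continuous_cos.tendsto 0).comp hθ
      have hs := (Real.continuous_sin.tendsto 0).comp hθ
      exact ((((hc.sub_const 1).mul_const (c v)).add (hs.mul_const (s v)))).const_add (g v)
    simpa using h1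
  have hfin : (Box 0 n 0 n).Finite := by
    refine (BoxF n).finite_toSet.subset fun v hv => ?_
    have h0 : v ∈ BoxF n ↔ v ∈ Box 0 n 0 n := by simp [BoxF, Box]
    exact Finset.mem_coe.mpr (h0.mpr hv)
  have hord : ∀ᶠ N in Filter.atTop, ∀ u ∈ Box 0 n 0 n, ∀ v ∈ Box 0 n 0 n,
      (g u ≤ g v ↔ g u + ((Real.cos (θ N) - 1) * c u + Real.sin (θ N) * s u) ≤
        g v + ((Real.cos (θ N) - 1) * c v + Real.sin (θ N) * s v)) := by
    rw [Filter.eventually_all_finite hfin]
    intro u hu
    rw [Filter.eventually_all_finite hfin]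
    intro v hv
    by_cases huv : u = v
    · subst huv
      exact Filter.Eventually.of_forall fun N => by simp
    · rcases lt_or_gt_of_ne (hnt u hu v hv huv) with h | h
      · filter_upwards [(hcont u).eventually_lt (hcont v) h] with N hN
        exact ⟨fun _ => hN.le, fun _ => h.le⟩
      · filter_upwards [(hcont v).eventually_lt (hcont u) h] with N hN
        exact ⟨fun h' => absurd h' (not_le.mpr h), fun h' => absurd h' (not_le.mpr hN)⟩
  have hder : HasDerivAt (fun t : ℝ => (Real.cos t - 1) * c v₀ + Real.sin t * s v₀) (s v₀) 0 := by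
    have h1 : HasDerivAt (fun t : ℝ => (Real.cos t - 1) * c v₀ + Real.sin t * s v₀)
        (-Real.sin 0 * c v₀ + Real.cos 0 * s v₀) 0 :=
      (((Real.hasDerivAt_cos 0).sub_const 1).mul_const (c v₀)).add
      ((Real.hasDerivAt_sin 0).mul_const (s v₀))
    simpa using h1
  have hslope := hder.tendsto_slope_zero
  have hθne : Filter.Tendsto θ Filter.atTop (nhdsWithin 0 {0}ᶜ) := by
    refine tendsto_nhdsWithin_iff.mpr ⟨hθ, Filter.Eventually.of_forall fun N => ?_⟩
    exact (hθ0 N).ne'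
  have h2 := (hslope.comp hθne).abs
  refine h2.congr' ?_
  filter_upwards [hord] with N hN
  have hT := tn_order hn hN hv₀ hg
  rw [hT, ← hg]
  simp only [Function.comp_apply, zero_add, Real.cos_zero, Real.sin_zero, sub_self, zero_mul,
    add_zero, sub_zero, smul_eq_mul, add_sub_cancel_left]
  rw [abs_mul, abs_inv, abs_of_pos (hθ0 N)]
  ring

theorem infl {C c α : ℝ} {q J : ℕ} {D : ℤ} {κ : ℕ → V → ℝ} {m : Mdl}
    (h : IsMdl C c α q J D κ m) {n : ℤ} (hn : 0 ≤ n) (hD : Box 0 n 0 n ⊆ Sq 0 D) {K : ℕ}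
    (hK : K ≤ J) (b : m.B) :
    ∫ ω, ∫ ω', |Tn n (m.F K ω) - Tn n (m.F K (mg {b} ω ω'))| ∂m.mu ∂m.mu ≤
      Real.sqrt (Real.pi / 2) * ∑ v ∈ BoxF n, Real.sqrt (∑ i, m.a b i v ^ 2) *
        m.mu.real {ω | Tn n (m.F K ω) = m.F K ω v} := by
  have hbox : ∀ v, v ∈ BoxF n ↔ v ∈ Box 0 n 0 n := by
    intro v
    simp [BoxF, Box]
  by_cases hb : b ∈ m.le K
  swap
  · have h0 : ∀ ω ω' : m.Om, m.F K (mg {b} ω ω') = m.F K ω := by
      intro ω ω'
      funext v
      unfold Mdl.F Mdl.fl
      refine Finset.sum_congr rfl fun b' hb' => ?_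
      have : b' ≠ b := fun h' => hb (h' ▸ hb')
      simp [mg, this]
    simp only [h0, sub_self, abs_zero, integral_zero]
    positivity
  have hTm : Measurable (fun ω : m.Om => Tn n (m.F K ω)) :=
    tn_meas hn (fun v ω => m.F K ω v) (fun v => meas_fl m _ v)
  set T : m.Om → ℝ := fun ω => Tn n (m.F K ω) with hT
  set W : ℝ → m.Om × m.Om → m.Om := fun θ p => (t9_r m b θ p).1 with hW
  have hWm : ∀ θ, Measurable (W θ) := fun θ => (t9_r_mp m b θ).measurable.fst
  set Df : ℝ → m.Om × m.Om → ℝ := fun θ p => |T (W θ p) - T p.1| with hDf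
  have hDm : ∀ θ, Measurable (Df θ) := fun θ =>
    ((hTm.comp (hWm θ)).sub (hTm.comp measurable_fst)).abs
  -- the dominating function
  have hint : ∀ v, Integrable (fun ω => |m.fl {b} ω v|) m.mu := fun v =>
    (t9_gl m b v).integrable.abs
  set G : m.Om × m.Om → ℝ := fun p => ∑ v ∈ BoxF n, (|m.fl {b} p.1 v| + |m.fl {b} p.2 v|) with hG
  have hGi : Integrable G (m.mu.prod m.mu) :=
    integrable_finsetSum _ fun v _ => ((hint v).comp_fst m.mu).add ((hint v).comp_snd m.mu)
  have hDG : ∀ θ p, Df θ p ≤ |θ| * G p := by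
    intro θ p
    refine tn_lip hn (g := m.F K (W θ p)) (g' := m.F K p.1) ?_
    intro v hv
    have h1 : m.F K (W θ p) v - m.F K p.1 v =
        (Real.cos θ - 1) * m.fl {b} p.1 v + Real.sin θ * m.fl {b} p.2 v := by
      simp only [hW]
      rw [t9_F m b hb]
      ring
    rw [h1]
    have h2 : |m.fl {b} p.1 v| + |m.fl {b} p.2 v| ≤ G p :=
      Finset.single_le_sum (f := fun v => |m.fl {b} p.1 v| + |m.fl {b} p.2 v|)
        (fun v _ => by positivity) ((hbox v).mpr hv)
    calc |(Real.cos θ - 1) * m.fl {b} p.1 v + Real.sin θ * m.fl {b} p.2 v|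
        ≤ |Real.cos θ - 1| * |m.fl {b} p.1 v| + |Real.sin θ| * |m.fl {b} p.2 v| := by
          rw [← abs_mul, ← abs_mul]
          exact abs_add_le _ _
      _ ≤ |θ| * |m.fl {b} p.1 v| + |θ| * |m.fl {b} p.2 v| := by
          refine add_le_add (mul_le_mul_of_nonneg_right (t9_cos θ) (abs_nonneg _))
            (mul_le_mul_of_nonneg_right ?_ (abs_nonneg _))
          exact Real.abs_sin_le_abs
      _ = |θ| * (|m.fl {b} p.1 v| + |m.fl {b} p.2 v|) := by ring
      _ ≤ |θ| * G p := mul_le_mul_of_nonneg_left h2 (abs_nonneg _)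
  have hDi : ∀ θ, Integrable (Df θ) (m.mu.prod m.mu) := by
    intro θ
    refine (hGi.const_mul |θ|).mono' (hDm θ).aestronglyMeasurable
      (Filter.Eventually.of_forall fun p => ?_)
    rw [Real.norm_eq_abs, abs_of_nonneg (abs_nonneg _)]
    exact hDG θ p
  -- rotation invariance
  have hrot : ∀ θ t, Integrable (fun p => |T (W (θ + t) p) - T (W θ p)|) (m.mu.prod m.mu) ∧
      ∫ p, |T (W (θ + t) p) - T (W θ p)| ∂(m.mu.prod m.mu) =
        ∫ p, Df t p ∂(m.mu.prod m.mu) := by
    intro θ t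
    have h1 : (fun p => |T (W (θ + t) p) - T (W θ p)|) = fun p => Df t (t9_r m b θ p) := by
      funext p
      simp only [hDf, hW]
      rw [t9_r_add]
    rw [h1]
    have hmp := t9_r_mp m b θ
    constructor
    · exact hmp.integrable_comp_of_integrable (hDi t)
    · rw [← integral_map hmp.aemeasurable (hDm t).aestronglyMeasurable, hmp.map_eq]
  set θN : ℕ → ℝ := fun N => Real.pi / 2 / (N + 1) with hθN
  have hθpos : ∀ N, 0 < θN N := fun N => by
    have := Real.pi_pos
    positivity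
  have hθlim : Filter.Tendsto θN Filter.atTop (nhds 0) := by
    have h1 := (tendsto_one_div_add_atTop_nhds_zero_nat (𝕜 := ℝ)).const_mul (Real.pi / 2)
    simp only [mul_zero] at h1
    refine h1.congr fun N => ?_
    simp only [hθN]
    ring
  have htel : ∀ N : ℕ, ∫ p, Df (Real.pi / 2) p ∂(m.mu.prod m.mu) ≤
      Real.pi / 2 * ∫ p, Df (θN N) p / θN N ∂(m.mu.prod m.mu) := by
    intro N
    have hmul : ((N + 1 : ℕ) : ℝ) * θN N = Real.pi / 2 := by
      simp only [hθN]
      push_cast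
      field_simp
    have h1 : ∀ p, Df (Real.pi / 2) p ≤
        ∑ k ∈ Finset.range (N + 1), |T (W (k * θN N + θN N) p) - T (W (k * θN N) p)| := by
      intro p
      have h2 := Finset.sum_range_sub (fun k : ℕ => T (W (k * θN N) p)) (N + 1)
      rw [hmul] at h2
      have h3 : T (W (((0 : ℕ) : ℝ) * θN N) p) = T p.1 := by
        simp only [hW, Nat.cast_zero, zero_mul]
        rw [t9_r_zero]
      rw [h3] at h2
      simp only [hDf]
      rw [← h2]
      refine (Finset.abs_sum_le_sum_abs _ _).trans (le_of_eq ?_)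
      refine Finset.sum_congr rfl fun k _ => ?_
      rw [show ((k + 1 : ℕ) : ℝ) * θN N = k * θN N + θN N by push_cast; ring]
    calc ∫ p, Df (Real.pi / 2) p ∂(m.mu.prod m.mu)
        ≤ ∫ p, ∑ k ∈ Finset.range (N + 1), |T (W (k * θN N + θN N) p) - T (W (k * θN N) p)|
            ∂(m.mu.prod m.mu) :=
          integral_mono (hDi _) (integrable_finsetSum _ fun k _ => (hrot _ _).1) h1
      _ = ∑ k ∈ Finset.range (N + 1), ∫ p, Df (θN N) p ∂(m.mu.prod m.mu) := by
          rw [integral_finsetSum _ fun k _ => (hrot _ _).1]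
          exact Finset.sum_congr rfl fun k _ => (hrot _ _).2
      _ = ((N + 1 : ℕ) : ℝ) * ∫ p, Df (θN N) p ∂(m.mu.prod m.mu) := by
          rw [Finset.sum_const, Finset.card_range, nsmul_eq_mul]
      _ = Real.pi / 2 * ∫ p, Df (θN N) p / θN N ∂(m.mu.prod m.mu) := by
          rw [integral_div, ← hmul]
          have := (hθpos N).ne'
          field_simp
  -- the limit
  set A : V → Set m.Om := fun v => {ω | T ω = m.F K ω v} with hA
  have hAm : ∀ v, MeasurableSet (A v) := fun v =>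
    measurableSet_eq_fun hTm (meas_fl m _ v)
  set g : m.Om × m.Om → ℝ := fun p => ∑ v ∈ BoxF n,
    (A v).indicator (fun _ => (1 : ℝ)) p.1 * |m.fl {b} p.2 v| with hg
  have hnt : ∀ᵐ p ∂(m.mu.prod m.mu), ∀ u ∈ Box 0 n 0 n, ∀ v ∈ Box 0 n 0 n, u ≠ v →
      m.F K p.1 u ≠ m.F K p.1 v := by
    have h1 : ∀ᵐ ω ∂m.mu, ∀ u ∈ BoxF n, ∀ v ∈ BoxF n, u ≠ v → m.F K ω u ≠ m.F K ω v := by
      rw [Filter.eventually_all_finset]
      intro u hu
      rw [Filter.eventually_all_finset]
      intro v hv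
      by_cases huv : u = v
      · exact Filter.Eventually.of_forall fun ω h' => absurd huv h'
      · have h2 := no_tie h hK (hD ((hbox u).mp hu)) (hD ((hbox v).mp hv)) huv
        have h3 : ∀ᵐ ω ∂m.mu, m.F K ω u ≠ m.F K ω v := by
          rw [ae_iff]
          simpa using h2
        filter_upwards [h3] with ω hω _
        exact hω
    have h2 := Measure.quasiMeasurePreserving_fst (μ := m.mu) (ν := m.mu) |>.ae h1
    filter_upwards [h2] with p hp u hu v hv huv
    exact hp u ((hbox u).mpr hu) v ((hbox v).mpr hv) huv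
  have hlim : Filter.Tendsto (fun N => ∫ p, Df (θN N) p / θN N ∂(m.mu.prod m.mu)) Filter.atTop
      (nhds (∫ p, g p ∂(m.mu.prod m.mu))) := by
    refine tendsto_integral_of_dominated_convergence G
      (fun N => ((hDm _).div_const _).aestronglyMeasurable) hGi ?_ ?_
    · intro N
      refine Filter.Eventually.of_forall fun p => ?_
      rw [Real.norm_eq_abs, abs_of_nonneg (div_nonneg (abs_nonneg _) (hθpos N).le),
        div_le_iff₀ (hθpos N)]
      have := hDG (θN N) p
      rw [abs_of_pos (hθpos N)] at this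
      linarith
    · filter_upwards [hnt] with p hp
      obtain ⟨v₀, hv₀, hv₀'⟩ := tn_val hn (m.F K p.1)
      have h1 := t9_lim hn (m.F K p.1) (fun v => m.fl {b} p.1 v) (fun v => m.fl {b} p.2 v) hp hv₀
        hv₀' θN hθlim hθpos
      have h2 : g p = |m.fl {b} p.2 v₀| := by
        simp only [hg]
        rw [Finset.sum_eq_single v₀]
        · have : p.1 ∈ A v₀ := hv₀'.symm
          rw [Set.indicator_of_mem this, one_mul]
        · intro v hv hne
          have : p.1 ∉ A v := by
            intro h'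
            have h3 : T p.1 = m.F K p.1 v := h'
            exact hp v₀ hv₀ v ((hbox v).mp hv) hne.symm (hv₀'.trans h3)
          rw [Set.indicator_of_notMem this, zero_mul]
        · intro h'
          exact absurd ((hbox v₀).mpr hv₀) h'
      rw [h2]
      refine h1.congr fun N => ?_
      simp only [hDf, hT, hW]
      congr 4
      funext v
      rw [t9_F m b hb]
  have hmain : ∫ p, Df (Real.pi / 2) p ∂(m.mu.prod m.mu) ≤
      Real.pi / 2 * ∫ p, g p ∂(m.mu.prod m.mu) :=
    ge_of_tendsto' (hlim.const_mul (Real.pi / 2)) htel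
  -- the value of the limit
  have hgval : ∫ p, g p ∂(m.mu.prod m.mu) = ∑ v ∈ BoxF n,
      m.mu.real (A v) * (Real.sqrt (2 / Real.pi) * Real.sqrt (∑ i, m.a b i v ^ 2)) := by
    simp only [hg]
    rw [integral_finsetSum]
    · refine Finset.sum_congr rfl fun v _ => ?_
      rw [integral_prod_mul (fun ω => (A v).indicator (fun _ => (1 : ℝ)) ω)
        (fun ω => |m.fl {b} ω v|), t9_mom]
      congr 1
      rw [integral_indicator (hAm v)]
      simp
    · intro v _
      refine Integrable.mul_prod (f := fun ω => (A v).indicator (fun _ => (1 : ℝ)) ω) ?_ (hint v)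
      exact (integrable_const (1 : ℝ)).indicator (hAm v)
  have hconst : Real.pi / 2 * Real.sqrt (2 / Real.pi) = Real.sqrt (Real.pi / 2) := by
    have hpi := Real.pi_pos
    have h1 : Real.sqrt (2 / Real.pi) = (Real.sqrt (Real.pi / 2))⁻¹ := by
      rw [← Real.sqrt_inv]
      congr 1
      rw [inv_div]
    have h2 : 0 < Real.sqrt (Real.pi / 2) := Real.sqrt_pos.mpr (by positivity)
    have h3 : Real.sqrt (Real.pi / 2) * Real.sqrt (Real.pi / 2) = Real.pi / 2 :=
      Real.mul_self_sqrt (by positivity)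
    rw [h1, mul_inv_eq_iff_eq_mul₀ h2.ne']
    exact h3.symm
  have hL : ∫ ω, ∫ ω', |Tn n (m.F K ω) - Tn n (m.F K (mg {b} ω ω'))| ∂m.mu ∂m.mu =
      ∫ p, Df (Real.pi / 2) p ∂(m.mu.prod m.mu) := by
    rw [integral_prod _ (hDi _)]
    refine integral_congr_ae (Filter.Eventually.of_forall fun ω => ?_)
    refine integral_congr_ae (Filter.Eventually.of_forall fun ω' => ?_)
    simp only [hDf, hT, hW]
    rw [t9_r_pi, abs_sub_comm]
  rw [hL]
  refine hmain.trans (le_of_eq ?_)
  rw [hgval, Finset.mul_sum, Finset.mul_sum]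
  refine Finset.sum_congr rfl fun v _ => ?_
  rw [← hconst]
  ring

end NU53
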