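import Pool.Agent.LibNU53.Sym
import Pool.Agent.LibNU53.T1

/-! Row XH. Four symmetric copies of `Hc r s r` and a bottom-top crossing give one cluster which
touches the four windows. PLAN. Each copy is a left-right path of the square `[-r,r]²` (transport it
with `conn_iff`, `fx`, `fy`, `fx ∘ fy`); by `t1` each of them is connected to the bottom-top path.
MEDIUM/SHORT. -/

namespace NU53

private lemma xh_fx2 (v : V) : fx (fx v) = v := by
  unfold fx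
  exact Prod.ext (neg_neg _) rfl

private lemma xh_fy2 (v : V) : fy (fy v) = v := by
  unfold fy
  exact Prod.ext rfl (neg_neg _)

private lemma xh_comm (v : V) : fx (fy v) = fy (fx v) := rfl

private lemma xh_conn {τ : V → V} (h2 : ∀ v, τ (τ v) = v)
    (ha : ∀ u v, Adj u v ↔ Adj (τ u) (τ v)) {r : ℤ}
    (hb : ∀ v : V, τ v ∈ Box (-r) r (-r) r ↔ v ∈ Box (-r) r (-r) r) {S : Set V} {u v : V}
    (h : Conn ((τ ⁻¹' S) ∩ Box (-r) r (-r) r) u v) :
    Conn (S ∩ Box (-r) r (-r) r) (τ u) (τ v) := by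
  have hinj : Function.Injective τ := fun x y hxy => by
    rw [← h2 x, ← h2 y, hxy]
  have hsur : Function.Surjective τ := fun x => ⟨τ x, h2 x⟩
  have hset : (τ ⁻¹' S) ∩ Box (-r) r (-r) r = τ ⁻¹' (S ∩ Box (-r) r (-r) r) := by
    ext w
    constructor
    · rintro ⟨h3, h4⟩
      exact ⟨h3, (hb w).2 h4⟩
    · rintro ⟨h3, h4⟩
      exact ⟨h3, (hb w).1 h4⟩
  rw [hset] at h
  exact (conn_iff hinj ha hsur).1 h

private lemma xh_box_fx (r : ℤ) (v : V) : fx v ∈ Box (-r) r (-r) r ↔ v ∈ Box (-r) r (-r) r := by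
  constructor
  · rintro ⟨⟨h1, h2⟩, h3, h4⟩
    have h1' : -r ≤ -v.1 := h1
    have h2' : -v.1 ≤ r := h2
    exact ⟨⟨by omega, by omega⟩, h3, h4⟩
  · rintro ⟨⟨h1, h2⟩, h3, h4⟩
    refine ⟨⟨?_, ?_⟩, h3, h4⟩
    · show -r ≤ -v.1
      omega
    · show -v.1 ≤ r
      omega

private lemma xh_box_fy (r : ℤ) (v : V) : fy v ∈ Box (-r) r (-r) r ↔ v ∈ Box (-r) r (-r) r := by
  constructor
  · rintro ⟨⟨h1, h2⟩, h3, h4⟩
    have h3' : -r ≤ -v.2 := h3
    have h4' : -v.2 ≤ r := h4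
    exact ⟨⟨h1, h2⟩, by omega, by omega⟩
  · rintro ⟨⟨h1, h2⟩, h3, h4⟩
    refine ⟨⟨h1, h2⟩, ?_, ?_⟩
    · show -r ≤ -v.2
      omega
    · show -v.2 ≤ r
      omega

theorem x_of_h {r s : ℤ} {S : Set V} (h1 : Hc r s r S) (h2 : Hc r s r (fx ⁻¹' S))
    (h3 : Hc r s r (fy ⁻¹' S)) (h4 : Hc r s r ((fun v => fx (fy v)) ⁻¹' S))
    (h5 : TB (-r) r (-r) r S) : Xc r s 0 S := by
  obtain ⟨p, q, hp, hq, hpq⟩ := h5
  obtain ⟨a1, b1, ha1, hb1, hs1, -, hc1⟩ := h1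
  obtain ⟨a2, b2, ha2, hb2, hs2, -, hc2⟩ := h2
  obtain ⟨a3, b3, ha3, hb3, hs3, -, hc3⟩ := h3
  obtain ⟨a4, b4, ha4, hb4, hs4, -, hc4⟩ := h4
  have e2 := xh_conn xh_fx2 adj_fx (xh_box_fx r) hc2
  have e3 := xh_conn xh_fy2 adj_fy (xh_box_fy r) hc3
  have e4 := xh_conn (τ := fun v => fx (fy v))
    (fun v => Prod.ext (neg_neg v.1) (neg_neg v.2))
    (fun u v => (adj_fy u v).trans (adj_fx (fy u) (fy v)))
    (fun v => (xh_box_fx r (fy v)).trans (xh_box_fy r v)) hc4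
  -- all four end points are connected to `p`
  have f3 : Conn (S ∩ Box (-r) r (-r) r) b1 p := hc1.symm.trans (t1 ha1 hb1 hc1 hp hq hpq)
  have f1 : Conn (S ∩ Box (-r) r (-r) r) (fx b2) p := by
    refine t1 (u := fx b2) (v := fx a2) ?_ ?_ e2.symm hp hq hpq
    · show -b2.1 = -r
      rw [hb2]
    · show -a2.1 = r
      rw [ha2, neg_neg]
  have f4 : Conn (S ∩ Box (-r) r (-r) r) (fy b3) p :=
    e3.symm.trans (t1 (u := fy a3) (v := fy b3) ha3 hb3 e3 hp hq hpq)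
  have f2 : Conn (S ∩ Box (-r) r (-r) r) (fx (fy b4)) p := by
    refine t1 (u := fx (fy b4)) (v := fx (fy a4)) ?_ ?_ e4.symm hp hq hpq
    · show -b4.1 = -r
      rw [hb4]
    · show -a4.1 = r
      rw [ha4, neg_neg]
  have hsq : Sq (0 : V) r = Box (-r) r (-r) r := by
    unfold Sq
    have h1 : (0 : V).1 - r = -r := by
      show (0 : ℤ) - r = -r
      omega
    have h2 : (0 : V).1 + r = r := by
      show (0 : ℤ) + r = r
      omega
    have h3 : (0 : V).2 - r = -r := by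
      show (0 : ℤ) - r = -r
      omega
    have h4 : (0 : V).2 + r = r := by
      show (0 : ℤ) + r = r
      omega
    rw [h1, h2, h3, h4]
  refine ⟨fx b2, fx (fy b4), b1, fy b3, ⟨?_, ?_⟩, ⟨?_, ?_⟩, ⟨?_, ?_⟩, ⟨?_, ?_⟩, ?_, ?_, ?_⟩
  · show -b2.1 = (0 : ℤ) - r
    omega
  · show (0 : ℤ) + s ≤ b2.2
    omega
  · show -b4.1 = (0 : ℤ) - r
    omega
  · show -b4.2 ≤ (0 : ℤ) - s
    omega
  · show b1.1 = (0 : ℤ) + r
    omega
  · show (0 : ℤ) + s ≤ b1.2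
    omega
  · show b3.1 = (0 : ℤ) + r
    omega
  · show -b3.2 ≤ (0 : ℤ) - s
    omega
  · rw [hsq]
    exact f1.trans f2.symm
  · rw [hsq]
    exact f1.trans f3.symm
  · rw [hsq]
    exact f1.trans f4.symm

end NU53
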