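import Pool.Agent.LibNU53.R3
import Pool.Agent.LibNU53.R1
import Pool.Agent.LibNU53.XH

/-! Row W0. `P(Hc r 0 r) ≥ 1/4`: a left-right crossing ends in the upper or in the lower half of the right
side, the two have the same probability (`fy`, `pr_map`), `half_lr`, union bound.
`x_ge`: four symmetric copies of `Hc r s r` (same probability by `pr_map` with `fx`, `fy`, `fx ∘ fy`), a TB
crossing (`half_tb`), Harris (four times), `x_of_h`. Definition of `Aw`. MEDIUM. -/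

open MeasureTheory ProbabilityTheory

namespace NU53

variable {C c α : ℝ} {q J : ℕ} {D : ℤ} {κ : ℕ → V → ℝ} {m : Mdl}

private lemma w0_box_sq (r : ℤ) : Box (-r) r (-r) r = Sq 0 r := by
  ext v
  simp [Sq, Box]

private lemma w0_sq_mono {r D : ℤ} (hrD : r ≤ D) : Box (-r) r (-r) r ⊆ Sq 0 D := by
  rw [← w0_box_sq]
  exact Box_subset (by omega) hrD (by omega) hrD

private lemma w0_fy_box (r : ℤ) : fy ⁻¹' (Box (-r) r (-r) r) = Box (-r) r (-r) r := by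
  ext v
  simp only [Set.mem_preimage, Box, fy, Set.mem_ofPred_eq]
  constructor <;> rintro ⟨⟨h1, h2⟩, h3, h4⟩ <;> refine ⟨⟨?_, ?_⟩, ?_, ?_⟩ <;> omega

private lemma w0_fx_box (r : ℤ) : fx ⁻¹' (Box (-r) r (-r) r) = Box (-r) r (-r) r := by
  ext v
  simp only [Set.mem_preimage, Box, fx, Set.mem_ofPred_eq]
  constructor <;> rintro ⟨⟨h1, h2⟩, h3, h4⟩ <;> refine ⟨⟨?_, ?_⟩, ?_, ?_⟩ <;> omega

private lemma w0_fxy_box (r : ℤ) :
    (fun v => fx (fy v)) ⁻¹' (Box (-r) r (-r) r) = Box (-r) r (-r) r := by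
  have h : (fun v => fx (fy v)) ⁻¹' (Box (-r) r (-r) r) = fy ⁻¹' (fx ⁻¹' (Box (-r) r (-r) r)) := rfl
  rw [h, w0_fx_box, w0_fy_box]

private lemma w0_fy_fy (v : V) : fy (fy v) = v := by
  ext <;> simp [fy]

private lemma w0_loc {Λ : Set V} {E : Set V → Prop} (hE : Loc Λ E) {τ : V → V}
    (hτ : τ ⁻¹' Λ = Λ) : Loc Λ (fun S => E (τ ⁻¹' S)) := by
  intro S S' h
  apply hE
  rw [← hτ, ← Set.preimage_inter, ← Set.preimage_inter, h]

private lemma w0_inc {E : Set V → Prop} (hE : Inc E) (τ : V → V) :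
    Inc (fun S => E (τ ⁻¹' S)) := fun _ _ h => hE _ _ (Set.preimage_mono h)

private lemma w0_and_loc {Λ : Set V} {E E' : Set V → Prop} (hE : Loc Λ E) (hE' : Loc Λ E') :
    Loc Λ (fun S => E S ∧ E' S) := fun S S' h hh => ⟨hE S S' h hh.1, hE' S S' h hh.2⟩

private lemma w0_and_inc {E E' : Set V → Prop} (hE : Inc E) (hE' : Inc E') :
    Inc (fun S => E S ∧ E' S) := fun S S' h hh => ⟨hE S S' h hh.1, hE' S S' h hh.2⟩

private lemma w0_flip (h : IsMdl C c α q J D κ m) (j : ℕ) (x y : ℤ) : κ j (x, -y) = κ j (x, y) := by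
  rw [← h.swap j (x) (-y), h.flip j y x, h.swap j x y]

private lemma w0_mono (m : Mdl) (k : ℕ) (t : ℝ) {E E' : Set V → Prop} (h : ∀ S, E S → E' S) :
    m.Pr k t E ≤ m.Pr k t E' := by
  unfold Mdl.Pr
  exact measureReal_mono (fun ω hω => h _ hω) (measure_ne_top _ _)

private lemma w0_or (m : Mdl) (k : ℕ) (t : ℝ) {E E' E'' : Set V → Prop}
    (h : ∀ S, E S → E' S ∨ E'' S) : m.Pr k t E ≤ m.Pr k t E' + m.Pr k t E'' := by
  unfold Mdl.Pr
  refine le_trans (measureReal_mono (s₂ := {ω | E' (m.Sk k t ω)} ∪ {ω | E'' (m.Sk k t ω)})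
    (fun ω hω => h _ hω) (measure_ne_top _ _)) (measureReal_union_le _ _)

private lemma w0_pr_fy (h : IsMdl C c α q J D κ m) {k : ℕ} (hk : k ≤ J) {r s t : ℤ}
    (hrD : r ≤ D) :
    m.Pr k 0 (fun S => Hc r s t (fy ⁻¹' S)) = m.Pr k 0 (Hc r s t) := by
  refine pr_map h hk 0 (Hc.loc (le_refl (Box (-r) r (-r) r))) (w0_sq_mono hrD) fy ?_ ?_
  · intro u hu
    rw [← w0_fy_box] at hu
    exact w0_sq_mono hrD hu
  · intro j u _ v _
    have h1 : fy u - fy v = ((u - v).1, -(u - v).2) := by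
      ext <;> simp [fy]
      ring
    rw [h1, w0_flip h]

private lemma w0_pr_fx (h : IsMdl C c α q J D κ m) {k : ℕ} (hk : k ≤ J) {r s t : ℤ}
    (hrD : r ≤ D) :
    m.Pr k 0 (fun S => Hc r s t (fx ⁻¹' S)) = m.Pr k 0 (Hc r s t) := by
  refine pr_map h hk 0 (Hc.loc (le_refl (Box (-r) r (-r) r))) (w0_sq_mono hrD) fx ?_ ?_
  · intro u hu
    rw [← w0_fx_box] at hu
    exact w0_sq_mono hrD hu
  · intro j u _ v _
    have h1 : fx u - fx v = (-(u - v).1, (u - v).2) := by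
      ext <;> simp [fx]
      ring
    rw [h1, h.flip]

private lemma w0_pr_fxy (h : IsMdl C c α q J D κ m) {k : ℕ} (hk : k ≤ J) {r s t : ℤ}
    (hrD : r ≤ D) :
    m.Pr k 0 (fun S => Hc r s t ((fun v => fx (fy v)) ⁻¹' S)) = m.Pr k 0 (Hc r s t) := by
  refine pr_map h hk 0 (Hc.loc (le_refl (Box (-r) r (-r) r))) (w0_sq_mono hrD)
    (fun v => fx (fy v)) ?_ ?_
  · intro u hu
    rw [← w0_fxy_box] at hu
    exact w0_sq_mono hrD hu
  · intro j u _ v _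
    have h1 : fx (fy u) - fx (fy v) = (-(u - v).1, -(u - v).2) := by
      ext <;> simp [fx, fy] <;> ring
    change κ j (fx (fy u) - fx (fy v)) = _
    rw [h1, w0_flip h, h.flip]

private lemma w0_split {r : ℤ} {S : Set V} (hS : LR (-r) r (-r) r S) :
    Hc r 0 r S ∨ Hc r 0 r (fy ⁻¹' S) := by
  obtain ⟨u, v, h1, h2, h3⟩ := hS
  have hv := h3.right_mem.2
  by_cases h0 : 0 ≤ v.2
  · exact Or.inl ⟨u, v, h1, h2, h0, hv.2.2, h3⟩
  · refine Or.inr ⟨fy u, fy v, h1, h2, ?_, ?_, ?_⟩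
    · change 0 ≤ -v.2
      omega
    · change -v.2 ≤ r
      have := hv.2.1
      omega
    · have h4 : fy ⁻¹' S ∩ Box (-r) r (-r) r = fy ⁻¹' (S ∩ Box (-r) r (-r) r) := by
        rw [Set.preimage_inter, w0_fy_box]
      rw [h4, conn_iff (τ := fy) (Function.LeftInverse.injective (g := fy) w0_fy_fy) adj_fy
        (Function.RightInverse.surjective (g := fy) w0_fy_fy), w0_fy_fy, w0_fy_fy]
      exact h3

theorem h_quarter (h : IsMdl C c α q J D κ m) {k : ℕ} (hk : k ≤ J) {r : ℤ} (hr : 0 ≤ r)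
    (hrD : r ≤ D) : 1 / 4 ≤ m.Pr k 0 (Hc r 0 r) := by
  have h1 := half_lr h hk hr hrD
  have h2 := w0_or m k 0 (E := LR (-r) r (-r) r) (fun S hS => w0_split hS)
  rw [w0_pr_fy h hk hrD] at h2
  linarith

theorem x_ge (h : IsMdl C c α q J D κ m) {k : ℕ} (hk : k ≤ J) {r s : ℤ} (hr : 0 ≤ r)
    (hrD : r ≤ D) : 1 / 2 * m.Pr k 0 (Hc r s r) ^ 4 ≤ m.Pr k 0 (Xc r s 0) := by
  have hfin : (Box (-r) r (-r) r).Finite := Box_finite _ _ _ _
  have l1 : Loc (Box (-r) r (-r) r) (Hc r s r) := Hc.loc (le_refl _)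
  have l2 := w0_loc l1 (w0_fx_box r)
  have l3 := w0_loc l1 (w0_fy_box r)
  have l4 := w0_loc l1 (w0_fxy_box r)
  have l5 : Loc (Box (-r) r (-r) r) (TB (-r) r (-r) r) := TB.loc (le_refl _)
  have i1 : Inc (Hc r s r) := Hc.inc r s r
  have i2 := w0_inc i1 fx
  have i3 := w0_inc i1 fy
  have i4 := w0_inc i1 (fun v => fx (fy v))
  have i5 : Inc (TB (-r) r (-r) r) := TB.inc _ _ _ _
  have H1 := harris m h.nonneg k 0 hfin l5 l1 i5 i1
  have H2 := harris m h.nonneg k 0 hfin (w0_and_loc l5 l1) l2 (w0_and_inc i5 i1) i2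
  have H3 := harris m h.nonneg k 0 hfin (w0_and_loc (w0_and_loc l5 l1) l2) l3
    (w0_and_inc (w0_and_inc i5 i1) i2) i3
  have H4 := harris m h.nonneg k 0 hfin (w0_and_loc (w0_and_loc (w0_and_loc l5 l1) l2) l3) l4
    (w0_and_inc (w0_and_inc (w0_and_inc i5 i1) i2) i3) i4
  rw [half_tb h hk hr hrD] at H1
  rw [w0_pr_fx h hk hrD] at H2
  rw [w0_pr_fy h hk hrD] at H3
  rw [w0_pr_fxy h hk hrD] at H4
  have hp : 0 ≤ m.Pr k 0 (Hc r s r) := measureReal_nonneg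
  have H5 := w0_mono m k 0 (E := fun S => (((TB (-r) r (-r) r S ∧ Hc r s r S) ∧
    Hc r s r (fx ⁻¹' S)) ∧ Hc r s r (fy ⁻¹' S)) ∧ Hc r s r ((fun v => fx (fy v)) ⁻¹' S))
    (E' := Xc r s 0) (fun S hS => x_of_h hS.1.1.1.2 hS.1.1.2 hS.1.2 hS.2 hS.1.1.1.1)
  refine le_trans ?_ (le_trans H4 H5)
  have e1 : 1 / 2 * m.Pr k 0 (Hc r s r) ^ 4 = (((1 / 2 * m.Pr k 0 (Hc r s r)) *
    m.Pr k 0 (Hc r s r)) * m.Pr k 0 (Hc r s r)) * m.Pr k 0 (Hc r s r) := by ring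
  rw [e1]
  refine mul_le_mul_of_nonneg_right (le_trans ?_ H3) hp
  refine mul_le_mul_of_nonneg_right (le_trans ?_ H2) hp
  exact mul_le_mul_of_nonneg_right H1 hp

/-- The threshold ordinate `A`: least `s` with `P(Hc r s r) < 1/16`, `r = 2^e` (`r + 1` if none). -/
noncomputable def Aw (m : Mdl) (k e : ℕ) : ℕ :=
  sInf {s : ℕ | s = 2 ^ e + 1 ∨ m.Pr k 0 (Hc (2 ^ e) s (2 ^ e)) < 1 / 16}

theorem aw_le (m : Mdl) (k e : ℕ) : Aw m k e ≤ 2 ^ e + 1 :=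
  Nat.sInf_le (Or.inl rfl)

theorem aw_lt {m : Mdl} {k e s : ℕ} (hs : s < Aw m k e) :
    1 / 16 ≤ m.Pr k 0 (Hc (2 ^ e) s (2 ^ e)) := by
  have h1 := Nat.notMem_of_lt_sInf hs
  by_contra h2
  exact h1 (Or.inr (not_le.mp h2))

theorem aw_at {m : Mdl} {k e : ℕ} (hs : Aw m k e ≤ 2 ^ e) :
    m.Pr k 0 (Hc (2 ^ e) (Aw m k e) (2 ^ e)) < 1 / 16 := by
  have h1 : Aw m k e ∈ {s : ℕ | s = 2 ^ e + 1 ∨ m.Pr k 0 (Hc (2 ^ e) s (2 ^ e)) < 1 / 16} :=
    Nat.sInf_mem ⟨2 ^ e + 1, Or.inl rfl⟩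
  rcases h1 with h1 | h1
  · omega
  · exact h1

/-- the path lands in `[0, A]` with probability at least `3/16` -/
theorem aw_low (h : IsMdl C c α q J D κ m) {k e : ℕ} (hk : k ≤ J) (hD : (2 : ℤ) ^ e ≤ D) {s : ℕ}
    (hs : Aw m k e ≤ s) (hs2 : Aw m k e ≤ 2 ^ e) : 3 / 16 ≤ m.Pr k 0 (Hc (2 ^ e) 0 s) := by
  have h1 := h_quarter h hk (r := 2 ^ e) (by positivity) hD
  have h2 := aw_at hs2
  have h3 := w0_or m k 0 (E := Hc (2 ^ e) 0 (2 ^ e)) (E' := Hc (2 ^ e) 0 s)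
    (E'' := Hc (2 ^ e) (Aw m k e) (2 ^ e)) (by
      rintro S ⟨u, v, g1, g2, g3, g4, g5⟩
      by_cases hv : v.2 ≤ s
      · exact Or.inl ⟨u, v, g1, g2, g3, hv, g5⟩
      · refine Or.inr ⟨u, v, g1, g2, ?_, g4, g5⟩
        have : (Aw m k e : ℤ) ≤ s := by exact_mod_cast hs
        omega)
  linarith

end NU53
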