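import Pool.Agent.LibNU53.W3
import Pool.Agent.LibNU53.F1b
import Pool.Agent.LibNU53.R7

/-! Row W4 (case `A ≤ r/2`, `A + 16 ≤ 4 A'`, `A'` = threshold of the scale `e-1` in its own level).
PLAN. `r = 2^e`, `h = 2^(e-1)`, `k = e+s0-q`, `k' = (e-1)+s0-q`, `A = Aw m k e ≤ h`, `A' = Aw m k' (e-1)`.
(1) `P_k(Hc r 0 A) ≥ 3/16` (`aw_low`), so one of the windows `[0,t]`, `[t,2t]`, `t = ⌈A/2⌉`, has
`P_k(Hc r t1 t3) ≥ 3/32` (union bound; enlarge the window `[t,A]` to `[t,2t]`).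
(2) `s := A' - 1`: `P_{k'}(Hc h s h) ≥ 1/16` (`aw_lt`), so by `change` (`E = Hc h s h` depends on
`Sq 0 h`, at the scale `e-1`, `ε = 1/32 - 1/40`) `P_k(Hc h s h) ≥ 1/40`, and `x_ge`:
`P_k(Xc h s 0) ≥ 1/2·(1/40)^4`, same for `Xc h s (h, y0)`, `y0` even (translation by `(h,y0)`, `h` even).
(3) choose `y0` even with `[t1,t3] ⊆ [y0-s, y0+s]`: `t ≤ A/2+1 ≤ 2A' - 7 ≤ 2s - 5`, `|y0| ≤ h` because
`A ≤ h`, `e ≥ 5`. (4) mirrored path: `pr_map` with `v ↦ (r - v.1, v.2)`; Harris; `f1b`; translation of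
`LR (-r) (2r) (-r) r` to `LR 0 (3r) 0 (2r)` by `(r,r)`. `(3/32)^2·(1/2)·(1/40)^4 ≥ c2`.
MEDIUM/STRONG. -/

open MeasureTheory ProbabilityTheory

namespace NU53

private theorem w4_mono (m : Mdl) (k : ℕ) (t : ℝ) {E E' : Set V → Prop}
    (h : ∀ S, E S → E' S) : m.Pr k t E ≤ m.Pr k t E' :=
  measureReal_mono fun _ hω => h _ hω

private theorem w4_or (m : Mdl) (k : ℕ) (t : ℝ) {E E₁ E₂ : Set V → Prop}
    (h : ∀ S, E S → E₁ S ∨ E₂ S) : m.Pr k t E ≤ m.Pr k t E₁ + m.Pr k t E₂ :=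
  (w4_mono m k t h).trans (measureReal_union_le _ _)

private theorem w4_sq {v : V} {N : ℤ} :
    v ∈ Sq 0 N ↔ (-N ≤ v.1 ∧ v.1 ≤ N) ∧ (-N ≤ v.2 ∧ v.2 ≤ N) := by
  unfold Sq Box
  simp

private theorem w4_loc {Λ Λ' : Set V} {E : Set V → Prop} (hE : Loc Λ' E) (τ : V → V)
    (hτ : ∀ u ∈ Λ', τ u ∈ Λ) : Loc Λ (fun S => E (τ ⁻¹' S)) := by
  intro S S' h hS
  refine hE (τ ⁻¹' S) (τ ⁻¹' S') ?_ hS
  ext v
  constructor
  · rintro ⟨h1, h2⟩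
    have h3 : τ v ∈ S' ∩ Λ := h ▸ (⟨h1, hτ v h2⟩ : τ v ∈ S ∩ Λ)
    exact ⟨h3.1, h2⟩
  · rintro ⟨h1, h2⟩
    have h3 : τ v ∈ S ∩ Λ := h ▸ (⟨h1, hτ v h2⟩ : τ v ∈ S' ∩ Λ)
    exact ⟨h3.1, h2⟩

private theorem w4_inc {E : Set V → Prop} (hE : Inc E) (τ : V → V) :
    Inc (fun S => E (τ ⁻¹' S)) :=
  fun _ _ hS h => hE _ _ (Set.preimage_mono hS) h

/-- the choice of the ordinate `y0` -/
private theorem w4_y0 {A s h : ℕ} (h1 : A + 12 ≤ 4 * s) (h2 : A ≤ h) (h3 : 16 ≤ h) (b : Bool) :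
    ∃ y0 : ℤ, Even y0 ∧ |y0| ≤ h ∧
      y0 - s ≤ (if b then 0 else (((A + 1) / 2 : ℕ) : ℤ)) ∧
      (if b then (((A + 1) / 2 : ℕ) : ℤ) else 2 * (((A + 1) / 2 : ℕ) : ℤ)) ≤ y0 + s := by
  obtain ⟨t, ht⟩ : ∃ t : ℕ, t = (A + 1) / 2 := ⟨_, rfl⟩
  rw [← ht]
  cases b
  · refine ⟨2 * ((3 * t / 4 : ℕ) : ℤ), even_two_mul _, ?_, ?_, ?_⟩
    · rw [abs_of_nonneg (by positivity)]
      omega
    · simp only [Bool.false_eq_true, if_false]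
      omega
    · simp only [Bool.false_eq_true, if_false]
      omega
  · refine ⟨2 * ((t / 4 : ℕ) : ℤ), even_two_mul _, ?_, ?_, ?_⟩
    · rw [abs_of_nonneg (by positivity)]
      omega
    · simp only [if_true]
      omega
    · simp only [if_true]
      omega

/-- the geometric step -/
private theorem w4_step {C c α : ℝ} {q J : ℕ} {D : ℤ} {κ : ℕ → V → ℝ} {m : Mdl}
    (hm : IsMdl C c α q J D κ m) {k : ℕ} (hk : k ≤ J) {r h s t1 t3 y0 : ℤ} (hr : r = 2 * h)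
    (hh : 0 < h) (he : Even h) (hs : 0 ≤ s) (hyE : Even y0) (hy : |y0| ≤ h)
    (ht1 : y0 - s ≤ t1) (ht2 : t3 ≤ y0 + s) (hD : 3 * r ≤ D)
    (hX : 1 / 2 * (1 / 40) ^ 4 ≤ m.Pr k 0 (Xc h s 0)) (hH : 3 / 32 ≤ m.Pr k 0 (Hc r t1 t3)) :
    c2 ≤ m.Pr k 0 (LR 0 (3 * r) 0 (2 * r)) := by
  obtain ⟨M, hM⟩ : ∃ M : V → V, M = fun v => (r - v.1, v.2) := ⟨_, rfl⟩
  have hyr := abs_le.1 hy
  have hΛ : (Sq (0 : V) (2 * r)).Finite := Sq_finite _ _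
  have hHl : Loc (Sq 0 r) (Hc r t1 t3) := Hc.loc (by
    intro v hv
    rw [w4_sq]
    exact hv)
  have hXl : Loc (Sq 0 h) (Xc h s 0) := Xc.loc (fun v hv => hv)
  -- the mirrored path
  have hM1 : ∀ u ∈ Sq (0 : V) r, M u ∈ Sq (0 : V) (2 * r) := by
    intro u hu
    rw [w4_sq] at hu ⊢
    rw [hM]
    exact ⟨⟨by dsimp only; omega, by dsimp only; omega⟩, by dsimp only; omega,
      by dsimp only; omega⟩
  have hsub : Sq (0 : V) (2 * r) ⊆ Sq 0 D := by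
    intro v hv
    rw [w4_sq] at hv ⊢
    exact ⟨⟨by omega, by omega⟩, by omega, by omega⟩
  have hsub1 : Sq (0 : V) r ⊆ Sq 0 (2 * r) := by
    intro v hv
    rw [w4_sq] at hv ⊢
    exact ⟨⟨by omega, by omega⟩, by omega, by omega⟩
  have hsub2 : Sq (0 : V) h ⊆ Sq 0 (2 * r) := by
    intro v hv
    rw [w4_sq] at hv ⊢
    exact ⟨⟨by omega, by omega⟩, by omega, by omega⟩
  have p2 : m.Pr k 0 (fun S => Hc r t1 t3 (M ⁻¹' S)) = m.Pr k 0 (Hc r t1 t3) := by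
    refine pr_map hm hk 0 hHl (hsub1.trans hsub) M (fun u hu => hsub (hM1 u hu)) ?_
    intro j u _ v _
    have e1 : M u - M v = (-(u - v).1, (u - v).2) := by
      rw [hM]
      refine Prod.ext ?_ rfl
      change r - u.1 - (r - v.1) = -(u.1 - v.1)
      ring
    rw [e1, hm.flip]
  -- the translated cluster
  have hw : Ev (h, y0) := he.add hyE
  have hT : ∀ u ∈ Sq (0 : V) h, tr (h, y0) u ∈ Sq (0 : V) (2 * r) := by
    intro u hu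
    rw [w4_sq] at hu ⊢
    change (-(2 * r) ≤ u.1 + h ∧ u.1 + h ≤ 2 * r) ∧ -(2 * r) ≤ u.2 + y0 ∧ u.2 + y0 ≤ 2 * r
    exact ⟨⟨by omega, by omega⟩, by omega, by omega⟩
  have p3 : m.Pr k 0 (fun S => Xc h s 0 (tr (h, y0) ⁻¹' S)) = m.Pr k 0 (Xc h s 0) := by
    refine pr_map hm hk 0 hXl (hsub2.trans hsub) _ (fun u hu => hsub (hT u hu)) ?_
    intro j u _ v _
    congr 1
    unfold tr
    abel
  -- Harris
  have l1 : Loc (Sq 0 (2 * r)) (Hc r t1 t3) := hHl.mono hsub1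
  have l2 : Loc (Sq 0 (2 * r)) (fun S => Hc r t1 t3 (M ⁻¹' S)) := w4_loc hHl M hM1
  have l3 : Loc (Sq 0 (2 * r)) (fun S => Xc h s 0 (tr (h, y0) ⁻¹' S)) := w4_loc hXl _ hT
  have i1 : Inc (Hc r t1 t3) := Hc.inc _ _ _
  have i2 : Inc (fun S => Hc r t1 t3 (M ⁻¹' S)) := w4_inc i1 M
  have i3 : Inc (fun S => Xc h s 0 (tr (h, y0) ⁻¹' S)) := w4_inc (Xc.inc _ _ _) _
  have q1 := harris m hm.nonneg k 0 hΛ l1 l2 i1 i2
  have l12 : Loc (Sq 0 (2 * r)) (fun S => Hc r t1 t3 S ∧ Hc r t1 t3 (M ⁻¹' S)) :=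
    fun S S' e hS => ⟨l1 S S' e hS.1, l2 S S' e hS.2⟩
  have i12 : Inc (fun S => Hc r t1 t3 S ∧ Hc r t1 t3 (M ⁻¹' S)) :=
    fun S S' e hS => ⟨i1 S S' e hS.1, i2 S S' e hS.2⟩
  have q2 := harris m hm.nonneg k 0 hΛ l12 l3 i12 i3
  have q3 : m.Pr k 0 (fun S => (Hc r t1 t3 S ∧ Hc r t1 t3 (M ⁻¹' S)) ∧
      Xc h s 0 (tr (h, y0) ⁻¹' S)) ≤ m.Pr k 0 (LR (-r) (2 * r) (-r) r) := by
    refine w4_mono m k 0 fun S hS => ?_
    have hX' : Xc h s (h, y0) S := by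
      have h3 := (xc_tr hw h s 0 S).2 hS.2
      rwa [zero_add] at h3
    refine f1b hr hh hs (by omega) ht1 ht2 hX' hS.1.1 ?_
    have h4 := hS.1.2
    rw [hM] at h4
    exact h4
  -- translation of the crossing
  have hwr : Ev ((r, r) : V) := ⟨r, rfl⟩
  have p4 : m.Pr k 0 (LR 0 (3 * r) 0 (2 * r)) = m.Pr k 0 (LR (-r) (2 * r) (-r) r) := by
    have hE : Loc (Box (-r) (2 * r) (-r) r) (LR (-r) (2 * r) (-r) r) := LR.loc (fun v hv => hv)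
    have h5 := pr_map hm hk 0 hE (Λ := Box (-r) (2 * r) (-r) r) (by
      intro v hv
      rw [w4_sq]
      obtain ⟨⟨a1, a2⟩, a3, a4⟩ := hv
      exact ⟨⟨by omega, by omega⟩, by omega, by omega⟩) (tr (r, r)) (by
      intro v hv
      rw [w4_sq]
      obtain ⟨⟨a1, a2⟩, a3, a4⟩ := hv
      change (-D ≤ v.1 + r ∧ v.1 + r ≤ D) ∧ -D ≤ v.2 + r ∧ v.2 + r ≤ D
      exact ⟨⟨by omega, by omega⟩, by omega, by omega⟩) (by
      intro j u _ v _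
      congr 1
      unfold tr
      abel)
    rw [← h5]
    refine congrArg (m.Pr k 0) (funext fun S => propext ?_)
    have h6 := lr_tr hwr (-r) (2 * r) (-r) r S
    have e1 : -r + ((r, r) : V).1 = 0 := by change -r + r = 0; ring
    have e2 : 2 * r + ((r, r) : V).1 = 3 * r := by change 2 * r + r = 3 * r; ring
    have e4 : r + ((r, r) : V).2 = 2 * r := by change r + r = 2 * r; ring
    rw [e1, e2, e4] at h6
    exact h6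
  rw [p4]
  refine le_trans ?_ (q2.trans q3)
  rw [p3]
  have q4 : 3 / 32 * (3 / 32) ≤ m.Pr k 0 (Hc r t1 t3) *
      m.Pr k 0 (fun S => Hc r t1 t3 (M ⁻¹' S)) := by
    rw [p2]
    exact mul_le_mul hH hH (by norm_num) (by linarith)
  have q5 : 3 / 32 * (3 / 32) * (1 / 2 * (1 / 40) ^ 4) ≤
      m.Pr k 0 (fun S => Hc r t1 t3 S ∧ Hc r t1 t3 (M ⁻¹' S)) * m.Pr k 0 (Xc h s 0) :=
    mul_le_mul (q4.trans q1) hX (by norm_num) (by linarith [q4.trans q1])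
  refine le_trans ?_ q5
  unfold c2
  norm_num

theorem f1b_pr (C c : ℝ) (hc : 0 < c) : ∃ s00 : ℕ, ∀ s0 : ℕ, s00 ≤ s0 →
    ∀ (α : ℝ) (q J : ℕ) (D : ℤ) (κ : ℕ → V → ℝ) (m : Mdl), IsMdl C c α q J D κ m →
    ∀ e : ℕ, 5 ≤ e → q + 1 ≤ e + s0 → e + s0 - q ≤ J → (2 : ℤ) ^ (e + 3) ≤ D →
    2 * Aw m (e + s0 - q) e ≤ 2 ^ e →
    Aw m (e + s0 - q) e + 16 ≤ 4 * Aw m (e - 1 + s0 - q) (e - 1) →
    c2 ≤ m.Pr (e + s0 - q) 0 (LR 0 (3 * 2 ^ e) 0 (2 * 2 ^ e)) := by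
  obtain ⟨s00, hs00⟩ := change C c (1 / 160) hc (by norm_num)
  refine ⟨s00, fun s0 hs0 α q J D κ m hm e he hq hk hD hA hA' => ?_⟩
  have hchg := hs00 s0 hs0 α q J D κ m hm (e - 1) (e + s0 - q) (by omega) (by omega) hk 0
  obtain ⟨k, hkd⟩ : ∃ k, k = e + s0 - q := ⟨_, rfl⟩
  obtain ⟨k', hkd'⟩ : ∃ k', k' = e - 1 + s0 - q := ⟨_, rfl⟩
  rw [← hkd] at hk hA hA' hchg ⊢
  rw [← hkd'] at hA' hchg
  obtain ⟨h, hh⟩ : ∃ h : ℕ, h = 2 ^ (e - 1) := ⟨_, rfl⟩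
  have h2 : 2 ^ e = 2 * h := by
    rw [hh, ← pow_succ']
    congr 1
    omega
  have h16 : 16 ≤ h := by
    rw [hh]
    calc 16 = 2 ^ 4 := by norm_num
      _ ≤ 2 ^ (e - 1) := Nat.pow_le_pow_right (by norm_num) (by omega)
  have h2z : (2 : ℤ) ^ e = 2 * (h : ℤ) := by exact_mod_cast h2
  have hhz : (h : ℤ) = 2 ^ (e - 1) := by rw [hh]; push_cast; ring
  have hDz : 16 * (h : ℤ) ≤ D := by
    have e1 : (2 : ℤ) ^ (e + 3) = 16 * (h : ℤ) := by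
      rw [pow_add, h2z]
      ring
    linarith
  have hEv : Even (h : ℤ) := by
    rw [hhz]
    exact even_two.pow_of_ne_zero (by omega)
  obtain ⟨A, hAd⟩ : ∃ A, A = Aw m k e := ⟨_, rfl⟩
  obtain ⟨A', hAd'⟩ : ∃ A', A' = Aw m k' (e - 1) := ⟨_, rfl⟩
  rw [← hAd, ← hAd'] at hA'
  rw [← hAd, h2] at hA
  obtain ⟨s, hs⟩ : ∃ s, s = A' - 1 := ⟨_, rfl⟩
  -- the cluster
  have hX : 1 / 2 * (1 / 40) ^ 4 ≤ m.Pr k 0 (Xc h s 0) := by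
    have a1 : 1 / 16 ≤ m.Pr k' 0 (Hc (2 ^ (e - 1)) s (2 ^ (e - 1))) :=
      aw_lt (by omega)
    rw [← hhz] at a1
    have a2 := hchg (by
      intro v hv
      rw [w4_sq] at hv ⊢
      rw [← hhz] at hv
      exact ⟨⟨by omega, by omega⟩, by omega, by omega⟩) (Hc h s h) (Hc.inc _ _ _) (Hc.loc (by
      intro v hv
      rw [w4_sq, ← hhz]
      obtain ⟨⟨b1, b2⟩, b3, b4⟩ := hv
      exact ⟨⟨by omega, by omega⟩, by omega, by omega⟩))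
    have a3 : 1 / 40 ≤ m.Pr k 0 (Hc h s h) := by linarith
    have a4 := x_ge hm hk (r := h) (s := s) (by omega) (by omega)
    refine le_trans ?_ a4
    have a5 : (1 / 40 : ℝ) ^ 4 ≤ m.Pr k 0 (Hc h s h) ^ 4 := pow_le_pow_left₀ (by norm_num) a3 4
    linarith
  -- the window
  have hl : 3 / 16 ≤ m.Pr k 0 (Hc (2 ^ e) 0 A) := by
    rw [hAd]
    refine aw_low hm hk (by rw [h2z]; omega) le_rfl ?_
    rw [← hAd, h2]
    omega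
  rw [h2z] at hl ⊢
  obtain ⟨t, ht⟩ : ∃ t : ℕ, t = (A + 1) / 2 := ⟨_, rfl⟩
  have hor := w4_or m k 0 (E := Hc (2 * (h : ℤ)) 0 A) (E₁ := Hc (2 * (h : ℤ)) 0 t)
    (E₂ := Hc (2 * (h : ℤ)) t (2 * (t : ℤ))) (by
    rintro S ⟨u, v, g1, g2, g3, g4, g5⟩
    by_cases hv : v.2 ≤ t
    · exact Or.inl ⟨u, v, g1, g2, g3, hv, g5⟩
    · exact Or.inr ⟨u, v, g1, g2, by omega, by omega, g5⟩)
  by_cases hcase : 3 / 32 ≤ m.Pr k 0 (Hc (2 * (h : ℤ)) 0 t)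
  · obtain ⟨y0, y1, y2, y3, y4⟩ := w4_y0 (A := A) (s := s) (h := h) (by omega) (by omega) h16 true
    simp only [if_true] at y3 y4
    rw [← ht] at y4
    exact w4_step hm hk rfl (by omega) hEv (by omega) y1 y2 y3 y4 (by omega) hX hcase
  · obtain ⟨y0, y1, y2, y3, y4⟩ := w4_y0 (A := A) (s := s) (h := h) (by omega) (by omega) h16 false
    simp only [Bool.false_eq_true, if_false] at y3 y4
    rw [← ht] at y3 y4
    exact w4_step hm hk rfl (by omega) hEv (by omega) y1 y2 y3 y4 (by omega) hX (by linarith)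

end NU53
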