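import Pool.Agent.LibNU53.W6
import Pool.Agent.LibNU53.R6

/-! Row W9 (BASE). At a scale `2^(q-b0)` much smaller than the range `2^q` of the level `0` the field
`F_{s0-b0}` is positive on the whole square `Sq 0 (3·2^(q-b0))` with probability `≥ 1/4`, and then
`Circ` holds. PLAN. `Var F_k(0) ≥ κ 0 0 ≥ c`; `P(F_k(0) > δ) ≥ 1/2 - δ/√(2π c)`; the oscillation of `F_k`
is at most `∑_{j ≤ k} Osc(f_j)`, of expectation `≤ C6 ∑_j 2^(-b0-j) ≤ 2 C6 2^(-b0)`; choose
`δ = 2^(-b0/2)` and `b0` large. `Sq 0 (…) ⊆ S` implies the four crossings (straight lines). `cG c2 ≤ 1/4`.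
MEDIUM. -/

open MeasureTheory ProbabilityTheory

namespace NU53

private theorem w9_h {S : Set V} {a y : ℤ} (n : ℕ) (h : ∀ i : ℕ, i ≤ n → (a + i, y) ∈ S) :
    Conn S (a, y) (a + n, y) := by
  induction n with
  | zero =>
    have h0 := h 0 le_rfl
    simp only [Nat.cast_zero, add_zero] at h0 ⊢
    exact Conn.refl h0
  | succ n ih =>
    refine Conn.tail (ih fun i hi => h i (by omega)) (Or.inl ⟨rfl, Or.inl ?_⟩) (h (n + 1) le_rfl)
    change a + ((n + 1 : ℕ) : ℤ) = a + n + 1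
    push_cast
    ring

private theorem w9_v {S : Set V} {a y : ℤ} (n : ℕ) (h : ∀ i : ℕ, i ≤ n → (a, y + i) ∈ S) :
    Conn S (a, y) (a, y + n) := by
  induction n with
  | zero =>
    have h0 := h 0 le_rfl
    simp only [Nat.cast_zero, add_zero] at h0 ⊢
    exact Conn.refl h0
  | succ n ih =>
    refine Conn.tail (ih fun i hi => h i (by omega)) (Or.inr (Or.inl ⟨rfl, Or.inl ?_⟩))
      (h (n + 1) le_rfl)
    change y + ((n + 1 : ℕ) : ℤ) = y + n + 1
    push_cast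
    ring

private theorem w9_lr {a b c d : ℤ} (hab : a ≤ b) (hcd : c ≤ d) {S : Set V}
    (h : Box a b c d ⊆ S) : LR a b c d S := by
  refine ⟨(a, c), (a + ((b - a).toNat : ℤ), c), rfl, ?_, w9_h _ fun i hi => ?_⟩
  · change a + ((b - a).toNat : ℤ) = b
    omega
  · have h1 : ((a + i, c) : V) ∈ Box a b c d := ⟨⟨by dsimp only; omega, by dsimp only; omega⟩,
      by dsimp only; omega, by dsimp only; omega⟩
    exact ⟨h h1, h1⟩

private theorem w9_tb {a b c d : ℤ} (hab : a ≤ b) (hcd : c ≤ d) {S : Set V}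
    (h : Box a b c d ⊆ S) : TB a b c d S := by
  refine ⟨(a, c), (a, c + ((d - c).toNat : ℤ)), rfl, ?_, w9_v _ fun i hi => ?_⟩
  · change c + ((d - c).toNat : ℤ) = d
    omega
  · have h1 : ((a, c + i) : V) ∈ Box a b c d := ⟨⟨by dsimp only; omega, by dsimp only; omega⟩,
      by dsimp only; omega, by dsimp only; omega⟩
    exact ⟨h h1, h1⟩

theorem circ_of_subset {e : ℕ} {x : V} {S : Set V} (h : Sq x (3 * 2 ^ e) ⊆ S) : Circ e x S := by
  have h0 : (0 : ℤ) < 2 ^ e := by positivity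
  refine ⟨w9_lr (by omega) (by omega) fun v hv => h ?_,
    w9_lr (by omega) (by omega) fun v hv => h ?_,
    w9_tb (by omega) (by omega) fun v hv => h ?_,
    w9_tb (by omega) (by omega) fun v hv => h ?_⟩ <;>
  · obtain ⟨⟨x1, x2⟩, x3, x4⟩ := hv
    exact ⟨⟨by omega, by omega⟩, by omega, by omega⟩

private theorem w9_sum (m : Mdl) (k : ℕ) (ω : m.Om) (v : V) :
    m.F k ω v = ∑ j ∈ Finset.range (k + 1), m.f j ω v := by
  unfold Mdl.F Mdl.f Mdl.fl Mdl.le Mdl.eq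
  rw [← Finset.sum_fiberwise_of_maps_to (s := Finset.univ.filter fun b => m.lev b ≤ k)
    (t := Finset.range (k + 1)) (g := m.lev) (fun b hb => by
      rw [Finset.mem_filter] at hb
      rw [Finset.mem_range]
      omega)]
  refine Finset.sum_congr rfl fun j hj => ?_
  rw [Finset.mem_range] at hj
  refine Finset.sum_congr ?_ fun _ _ => rfl
  ext b
  simp only [Finset.mem_filter, Finset.mem_univ, true_and]
  constructor
  · exact fun h => h.2
  · exact fun h => ⟨by omega, h⟩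

/-- the value at the origin is larger than `δ` -/
private theorem w9_val {C c α : ℝ} {q J : ℕ} {D : ℤ} {κ : ℕ → V → ℝ} {m : Mdl}
    (h : IsMdl C c α q J D κ m) {k : ℕ} (hk : k ≤ J) (hD : 0 ≤ D) {δ : ℝ} (hδ : 0 ≤ δ) :
    1 / 2 - δ / √(2 * Real.pi * c) ≤ m.mu.real {ω | δ < m.F k ω 0} := by
  have hc := h.hc.1
  have h0D : (0 : V) ∈ Sq (0 : V) D := by
    unfold Sq Box
    simp [hD]
  have hmeas : Measurable (fun ω => m.F k ω 0) := meas_fl m _ _
  -- the probability of a positive value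
  have hE : Loc ({0} : Set V) (fun S => (0 : V) ∈ S) := by
    intro S S' hS h1
    have h2 : (0 : V) ∈ S' ∩ {0} := hS ▸ (⟨h1, rfl⟩ : (0 : V) ∈ S ∩ {0})
    exact h2.1
  have hneg := pr_neg h hk 0 hE (by
    intro v hv
    rw [Set.mem_singleton_iff] at hv
    rw [hv]
    exact h0D)
  have hpos : 1 / 2 ≤ m.mu.real {ω | 0 < m.F k ω 0} := by
    have h1 : (1 : ℝ) ≤ m.mu.real {ω | 0 < m.F k ω 0} + m.mu.real {ω | m.F k ω 0 < -0} +
        m.mu.real {ω | m.F k ω 0 = 0} := by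
      have h2 : (Set.univ : Set m.Om) ⊆ {ω | 0 < m.F k ω 0} ∪ {ω | m.F k ω 0 < -0} ∪
          {ω | m.F k ω 0 = 0} := by
        intro ω _
        rcases lt_trichotomy (m.F k ω 0) 0 with h3 | h3 | h3
        · left; right
          change m.F k ω 0 < -0
          rwa [neg_zero]
        · right; exact h3
        · left; left; exact h3
      have h4 : m.mu.real Set.univ ≤ _ := measureReal_mono h2
      rw [probReal_univ] at h4
      have h7 := measureReal_union_le (μ := m.mu) {ω | 0 < m.F k ω 0} {ω | m.F k ω 0 < -0}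
      exact h4.trans ((measureReal_union_le _ _).trans (by linarith))
    have h5 : m.mu.real {ω | m.F k ω 0 = 0} = 0 := by
      rw [measureReal_def, no_val h hk 0 h0D]
      rfl
    have h6 : m.mu.real {ω | m.F k ω 0 < -0} = m.mu.real {ω | 0 < m.F k ω 0} := hneg
    rw [h5, h6] at h1
    linarith
  -- the variance
  obtain ⟨v, hv⟩ : ∃ v, v = ∑ j ∈ Finset.range (k + 1), κ j 0 := ⟨_, rfl⟩
  have hcov : covariance (fun ω => m.F k ω 0) (fun ω => m.F k ω 0) m.mu = v := by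
    rw [cov_F h hk h0D h0D, hv]
    simp only [sub_zero]
  have hκ : ∀ j, j ≤ J → c * sg α j ^ 2 ≤ κ j 0 := by
    intro j hj
    refine h.cov_ge j hj 0 ?_ ?_ <;>
    · simp only [Prod.fst_zero, Prod.snd_zero, Int.cast_zero, abs_zero]
      positivity
  have hvc : c ≤ v := by
    have h1 : κ 0 0 ≤ v := by
      rw [hv]
      refine Finset.single_le_sum (f := fun j => κ j 0) (fun j hj => ?_)
        (Finset.mem_range.2 (Nat.succ_pos k))
      rw [Finset.mem_range] at hj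
      exact le_trans (by positivity) (hκ j (by omega))
    have h2 := hκ 0 (Nat.zero_le _)
    have h3 : sg α 0 = 1 := by
      unfold sg
      simp
    rw [h3] at h2
    linarith
  have hv0 : 0 < v := lt_of_lt_of_le hc hvc
  have hlaw : HasGaussianLaw (fun ω => m.F k ω 0) m.mu :=
    (gauss_fl m (ι := Unit) (fun _ => m.le k) (fun _ => 0)).eval ()
  have hmap : m.mu.map (fun ω => m.F k ω 0) = gaussianReal 0 v.toNNReal := by
    have h1 : ∫ ω, m.F k ω 0 ∂m.mu = 0 := mean_fl m _ _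
    rw [hlaw.map_eq_gaussianReal, h1, ← covariance_self hmeas.aemeasurable, hcov]
  have hv' : v.toNNReal ≠ 0 := by
    simp only [ne_eq, Real.toNNReal_eq_zero, not_le]
    exact hv0
  have hsmall : m.mu.real {ω | 0 < m.F k ω 0 ∧ m.F k ω 0 ≤ δ} ≤ δ / √(2 * Real.pi * c) := by
    have h1 : m.mu {ω | 0 < m.F k ω 0 ∧ m.F k ω 0 ≤ δ} =
        gaussianReal 0 v.toNNReal (Set.Ioc 0 δ) := by
      rw [← hmap, Measure.map_apply hmeas measurableSet_Ioc]
      rfl
    have h2 := GFPerc.gaussianReal_le_diam v.toNNReal hv' 0 (Set.Ioc 0 δ) δ (by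
      intro x hx y hy _
      linarith [hx.1, hy.2])
    rw [measureReal_def, h1]
    refine ENNReal.toReal_le_of_le_ofReal (by positivity) (h2.trans ?_)
    refine ENNReal.ofReal_le_ofReal ?_
    rw [div_eq_mul_inv, Real.coe_toNNReal _ hv0.le]
    refine mul_le_mul_of_nonneg_left ?_ hδ
    refine inv_anti₀ (Real.sqrt_pos.2 (by positivity)) (Real.sqrt_le_sqrt ?_)
    exact mul_le_mul_of_nonneg_left hvc (by positivity)
  have hun : m.mu.real {ω | 0 < m.F k ω 0} ≤ m.mu.real {ω | δ < m.F k ω 0} +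
      m.mu.real {ω | 0 < m.F k ω 0 ∧ m.F k ω 0 ≤ δ} := by
    refine le_trans (measureReal_mono ?_) (measureReal_union_le _ _)
    intro ω hω
    by_cases h1 : δ < m.F k ω 0
    · exact Or.inl h1
    · exact Or.inr ⟨hω, not_lt.1 h1⟩
  linarith

private theorem w9_measO (m : Mdl) (j N : ℕ) :
    Measurable (fun ω => Osc (m.f j ω) 0 N) := by
  have h1 : ∀ v, Measurable (fun ω => m.f j ω v) := fun v => meas_fl m _ v
  unfold Osc dd
  refine Measurable.add (Measurable.div_const (Finset.measurable_sum _ fun v _ => ?_) _)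
    ((Finset.measurable_sum _ fun v _ => ?_).const_mul 2)
  · exact ((h1 _).sub (h1 _)).abs.add ((h1 _).sub (h1 _)).abs
  · exact ((((h1 _).sub (h1 _)).sub (h1 _)).add (h1 _)).abs

/-- the mean oscillation -/
private theorem w9_osc {m : Mdl} {j e : ℕ} {a C6 : ℝ} (ha : 0 < a)
    (h1 : Integrable (fun ω => Real.exp (Osc (m.f j ω) 0 (3 * 2 ^ e) / a)) m.mu)
    (h2 : ∫ ω, Real.exp (Osc (m.f j ω) 0 (3 * 2 ^ e) / a) ∂m.mu ≤ C6) :
    Integrable (fun ω => Osc (m.f j ω) 0 (3 * 2 ^ e)) m.mu ∧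
      ∫ ω, Osc (m.f j ω) 0 (3 * 2 ^ e) ∂m.mu ≤ a * C6 := by
  have hle : ∀ ω, Osc (m.f j ω) 0 (3 * 2 ^ e) ≤
      a * Real.exp (Osc (m.f j ω) 0 (3 * 2 ^ e) / a) := by
    intro ω
    have h3 := Real.add_one_le_exp (Osc (m.f j ω) 0 (3 * 2 ^ e) / a)
    have h4 : Osc (m.f j ω) 0 (3 * 2 ^ e) / a ≤ Real.exp (Osc (m.f j ω) 0 (3 * 2 ^ e) / a) := by
      linarith
    rw [div_le_iff₀ ha] at h4
    linarith
  have hint : Integrable (fun ω => Osc (m.f j ω) 0 (3 * 2 ^ e)) m.mu := by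
    refine (h1.const_mul a).mono' (w9_measO m j _).aestronglyMeasurable
      (Filter.Eventually.of_forall fun ω => ?_)
    rw [Real.norm_of_nonneg (osc_nonneg _ _ _)]
    exact hle ω
  refine ⟨hint, ?_⟩
  calc ∫ ω, Osc (m.f j ω) 0 (3 * 2 ^ e) ∂m.mu
      ≤ ∫ ω, a * Real.exp (Osc (m.f j ω) 0 (3 * 2 ^ e) / a) ∂m.mu :=
        integral_mono hint (h1.const_mul a) hle
    _ = a * ∫ ω, Real.exp (Osc (m.f j ω) 0 (3 * 2 ^ e) / a) ∂m.mu := integral_const_mul _ _
    _ ≤ a * C6 := mul_le_mul_of_nonneg_left h2 ha.le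

theorem base_pr (C c : ℝ) (hc : 0 < c) : ∃ b0 : ℕ, ∀ s0 : ℕ, b0 ≤ s0 →
    ∀ (α : ℝ) (q J : ℕ) (D : ℤ) (κ : ℕ → V → ℝ) (m : Mdl), IsMdl C c α q J D κ m →
    b0 + 4 ≤ q → s0 - b0 ≤ J → (2 : ℤ) ^ (q + 2) ≤ D →
    cG c2 ≤ m.Pr (q - b0 + s0 - q) 0 (Circ (q - b0) 0) := by
  obtain ⟨C6, hC6, hosc⟩ := osc_exp C c
  obtain ⟨δ, hδd⟩ : ∃ δ, δ = √(2 * Real.pi * c) / 8 := ⟨_, rfl⟩
  have hsq : 0 < √(2 * Real.pi * c) := Real.sqrt_pos.2 (by positivity)
  have hδ : 0 < δ := by rw [hδd]; positivity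
  obtain ⟨b0, hb0⟩ := pow_unbounded_of_one_lt (16 * C6 / δ) (one_lt_two : (1 : ℝ) < 2)
  refine ⟨b0, fun s0 hs0 α q J D κ m h hq hJ hD => ?_⟩
  obtain ⟨k, hk⟩ : ∃ k, k = q - b0 + s0 - q := ⟨_, rfl⟩
  obtain ⟨e, he⟩ : ∃ e, e = q - b0 := ⟨_, rfl⟩
  rw [← he] at hk ⊢
  rw [← hk]
  have hkJ : k ≤ J := by omega
  have heq : 2 ^ e * 2 ^ b0 = (2 : ℝ) ^ q := by
    rw [← pow_add]
    congr 1
    omega
  have h4e : 4 * (2 : ℤ) ^ e ≤ D := by
    calc 4 * (2 : ℤ) ^ e = 2 ^ (e + 2) := by ring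
      _ ≤ 2 ^ (q + 2) := pow_le_pow_right₀ (by norm_num) (by omega)
      _ ≤ D := hD
  have h1e : (1 : ℤ) ≤ 2 ^ e := one_le_pow₀ (by norm_num)
  have hsub : Sq (0 : V) (3 * 2 ^ e + 1) ⊆ Sq 0 D := by
    intro v hv
    obtain ⟨⟨x1, x2⟩, x3, x4⟩ := hv
    exact ⟨⟨by omega, by omega⟩, by omega, by omega⟩
  have hval := w9_val h hkJ (by omega) hδ.le
  have hδ8 : δ / √(2 * Real.pi * c) = 1 / 8 := by
    rw [hδd]
    field_simp
  rw [hδ8] at hval
  -- the oscillation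
  have hαn := h.hα.1
  have hsg : ∀ j : ℕ, 0 < sg α j ∧ sg α j ≤ 1 := by
    intro j
    unfold sg
    refine ⟨by positivity, ?_⟩
    refine Real.rpow_le_one_of_one_le_of_nonpos (by norm_num) ?_
    have : 0 ≤ α * j / 2 := by positivity
    linarith
  have hO : ∀ j ∈ Finset.range (k + 1),
      Integrable (fun ω => Osc (m.f j ω) 0 (3 * 2 ^ e)) m.mu ∧
      ∫ ω, Osc (m.f j ω) 0 (3 * 2 ^ e) ∂m.mu ≤ C6 / 2 ^ b0 * (1 / 2) ^ j := by
    intro j hj
    rw [Finset.mem_range] at hj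
    obtain ⟨g1, g2⟩ := hosc α q J D κ m h j e (by omega) (by omega) 0 hsub
    have ha : 0 < (2 : ℝ) ^ e / 2 ^ (q + j) * sg α j := mul_pos (by positivity) (hsg j).1
    obtain ⟨g3, g4⟩ := w9_osc ha g1 g2
    refine ⟨g3, g4.trans ?_⟩
    have e1 : (2 : ℝ) ^ e / 2 ^ (q + j) = 1 / 2 ^ b0 * (1 / 2) ^ j := by
      rw [pow_add, ← heq, one_div_pow]
      field_simp
    rw [e1]
    have g5 : 1 / 2 ^ b0 * (1 / 2 : ℝ) ^ j * sg α j ≤ 1 / 2 ^ b0 * (1 / 2) ^ j * 1 :=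
      mul_le_mul_of_nonneg_left (hsg j).2 (by positivity)
    have g6 := mul_le_mul_of_nonneg_right g5 (by linarith : 0 ≤ C6)
    refine g6.trans (le_of_eq ?_)
    ring
  have hInt : Integrable (fun ω => ∑ j ∈ Finset.range (k + 1), Osc (m.f j ω) 0 (3 * 2 ^ e))
      m.mu := integrable_finsetSum _ fun j hj => (hO j hj).1
  have hmean : ∫ ω, ∑ j ∈ Finset.range (k + 1), Osc (m.f j ω) 0 (3 * 2 ^ e) ∂m.mu ≤
      2 * (C6 / 2 ^ b0) := by
    rw [integral_finsetSum _ fun j hj => (hO j hj).1]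
    refine (Finset.sum_le_sum fun j hj => (hO j hj).2).trans ?_
    rw [← Finset.mul_sum]
    have g7 : ∑ j ∈ Finset.range (k + 1), (1 / 2 : ℝ) ^ j ≤ 2 := by
      have g8 := geom_sum_eq (by norm_num : (1 / 2 : ℝ) ≠ 1) (k + 1)
      rw [g8]
      have g9 : (0 : ℝ) < (1 / 2) ^ (k + 1) := by positivity
      rw [div_le_iff_of_neg (by norm_num)]
      linarith
    have g10 : 0 ≤ C6 / 2 ^ b0 := by positivity
    nlinarith
  have hmark : m.mu.real {ω | δ ≤ ∑ j ∈ Finset.range (k + 1), Osc (m.f j ω) 0 (3 * 2 ^ e)} ≤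
      1 / 8 := by
    have g1 := mul_meas_ge_le_integral_of_nonneg (μ := m.mu)
      (f := fun ω => ∑ j ∈ Finset.range (k + 1), Osc (m.f j ω) 0 (3 * 2 ^ e))
      (Filter.Eventually.of_forall fun ω => Finset.sum_nonneg fun j _ => osc_nonneg _ _ _)
      hInt δ
    have g2 : C6 / 2 ^ b0 ≤ δ / 16 := by
      rw [div_le_iff₀ (by positivity)]
      rw [div_lt_iff₀ hδ] at hb0
      linarith
    have g3 : δ * m.mu.real {ω | δ ≤ ∑ j ∈ Finset.range (k + 1),
        Osc (m.f j ω) 0 (3 * 2 ^ e)} ≤ δ * (1 / 8) := by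
      refine g1.trans (hmean.trans ?_)
      linarith
    exact le_of_mul_le_mul_left g3 hδ
  -- the event
  have hincl : {ω | δ < m.F k ω 0} ⊆ {ω | Circ e 0 (m.Sk k 0 ω)} ∪
      {ω | δ ≤ ∑ j ∈ Finset.range (k + 1), Osc (m.f j ω) 0 (3 * 2 ^ e)} := by
    intro ω hω
    by_cases hS : δ ≤ ∑ j ∈ Finset.range (k + 1), Osc (m.f j ω) 0 (3 * 2 ^ e)
    · exact Or.inr hS
    · left
      refine circ_of_subset fun v hv => ?_
      rw [not_le] at hS
      change 0 < m.F k ω v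
      have hω' : δ < m.F k ω 0 := hω
      have g1 : |m.F k ω v - m.F k ω 0| ≤
          ∑ j ∈ Finset.range (k + 1), Osc (m.f j ω) 0 (3 * 2 ^ e) := by
        rw [w9_sum, w9_sum, ← Finset.sum_sub_distrib]
        refine (Finset.abs_sum_le_sum_abs _ _).trans (Finset.sum_le_sum fun j _ => ?_)
        refine osc_le _ _ _ ?_
        push_cast
        exact hv
      have g2 := (abs_le.1 g1).1
      linarith
  have hfin : m.mu.real {ω | δ < m.F k ω 0} ≤ m.Pr k 0 (Circ e 0) +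
      m.mu.real {ω | δ ≤ ∑ j ∈ Finset.range (k + 1), Osc (m.f j ω) 0 (3 * 2 ^ e)} :=
    (measureReal_mono hincl).trans (measureReal_union_le _ _)
  have hcG : cG c2 ≤ 1 / 4 := by
    unfold cG c2
    norm_num
  linarith

end NU53
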