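import Pool.Agent.LibNU53.W8
import Pool.Agent.LibNU53.W9
import Pool.Agent.LibNU53.W4

/-! Row W11 (GOOD SCALES). `good e` means `cG c2 ≤ P_{own level}(Circ e 0)`.
PLAN. (1) `chain` (pure arithmetic): if `A : ℕ → ℕ`, `2^e' < A e`, `e ≤ e' + m1`, `4 ≤ e'`, and for all `i < m1`:
`2 * A (e+i+1) ≤ 2^(e+i+1)` and `4 * A (e+i) < A (e+i+1) + 16` then contradiction
(`A(e+i) - 16/3 > 4^i (2^e' - 16/3) ≥ 4^i 2^(e'-1)` and `A(e+m1) ≤ 2^(e+m1-1) ≤ 2^(e'+2m1-1)`).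
(2) step: `good e'` implies `good e''` for some `e' < e'' ≤ e' + 2 m1`: take `e` from `f3_pr`; by (1) some
`i < m1` has `2^(e+i+1) < 2 * A` (then `f1a_pr`: `h = 2^(e+i)`, `P(Hc r h r) ≥ 1/16` by `aw_lt`) or
`A(e+i+1) + 16 ≤ 4 A(e+i)` with `2A ≤ 2^(e+i+1)` (then `f1b_pr`); `circ_pr` gives `good (e+i+1)`.
(3) start at `e_* = q - b0` (`base_pr`), `s0 ≥ b0` and all other thresholds, `q0 = b0 + 8`, `m0 = 2 m1`:
for `e1 ≥ q` take the largest good `e ≤ e1` among those reached from `e_*` and do one more step.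
MEDIUM/STRONG. -/

open MeasureTheory ProbabilityTheory

namespace NU53

theorem chain {A : ℕ → ℕ} {e e' m1 : ℕ} (h4 : 4 ≤ e') (h0 : 2 ^ e' < A e) (h1 : e ≤ e' + m1)
    (h2 : ∀ i, i < m1 → 2 * A (e + i + 1) ≤ 2 ^ (e + i + 1))
    (h3 : ∀ i, i < m1 → 4 * A (e + i) < A (e + i + 1) + 16) (hm : 1 ≤ m1) : False := by
  have h16 : 16 ≤ 2 ^ e' := by
    calc 16 = 2 ^ 4 := by norm_num
      _ ≤ 2 ^ e' := Nat.pow_le_pow_right (by norm_num) h4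
  have key : ∀ i, i ≤ m1 → 32 + 4 ^ i * (3 * 2 ^ e') ≤ 6 * A (e + i) := by
    intro i
    induction i with
    | zero =>
      intro _
      rw [pow_zero, add_zero]
      omega
    | succ i ih =>
      intro hi
      have g1 := ih (by omega)
      have g2 := h3 i (by omega)
      have g3 : e + (i + 1) = e + i + 1 := rfl
      have g4 : 4 ^ (i + 1) * (3 * 2 ^ e') = 4 * (4 ^ i * (3 * 2 ^ e')) := by ring
      rw [g3, g4]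
      generalize 4 ^ i * (3 * 2 ^ e') = B at g1 ⊢
      omega
  have g1 := key m1 le_rfl
  have g2 := h2 (m1 - 1) (by omega)
  have g3 : e + (m1 - 1) + 1 = e + m1 := by omega
  rw [g3] at g2
  have g4 : 2 ^ (e + m1) ≤ 2 ^ (e' + 2 * m1) := Nat.pow_le_pow_right (by norm_num) (by omega)
  have g5 : 4 ^ m1 * (3 * 2 ^ e') = 3 * 2 ^ (e' + 2 * m1) := by
    have : (4 : ℕ) ^ m1 = 2 ^ (2 * m1) := by
      rw [pow_mul]
      norm_num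
    rw [this, pow_add]
    ring
  rw [g5] at g1
  omega

/-- one step -/
private theorem w11_step {C c : ℝ} {s0 m1 : ℕ} (hm1 : 4 ≤ m1)
    (F3 : ∀ (α : ℝ) (q J : ℕ) (D : ℤ) (κ : ℕ → V → ℝ) (m : Mdl), IsMdl C c α q J D κ m →
      ∀ e' : ℕ, 1 ≤ e' → q ≤ e' + s0 → e' + m1 + s0 - q ≤ J → (2 : ℤ) ^ (e' + m1 + 4) ≤ D →
      cG c2 ≤ m.Pr (e' + s0 - q) 0 (Circ e' 0) →
      ∃ e : ℕ, e' + 4 ≤ e ∧ e ≤ e' + m1 ∧ 2 ^ e' < Aw m (e + s0 - q) e)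
    (F1b : ∀ (α : ℝ) (q J : ℕ) (D : ℤ) (κ : ℕ → V → ℝ) (m : Mdl), IsMdl C c α q J D κ m →
      ∀ e : ℕ, 5 ≤ e → q + 1 ≤ e + s0 → e + s0 - q ≤ J → (2 : ℤ) ^ (e + 3) ≤ D →
      2 * Aw m (e + s0 - q) e ≤ 2 ^ e →
      Aw m (e + s0 - q) e + 16 ≤ 4 * Aw m (e - 1 + s0 - q) (e - 1) →
      c2 ≤ m.Pr (e + s0 - q) 0 (LR 0 (3 * 2 ^ e) 0 (2 * 2 ^ e)))
    {α : ℝ} {q J : ℕ} {D : ℤ} {κ : ℕ → V → ℝ} {m : Mdl} (h : IsMdl C c α q J D κ m) {e' : ℕ}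
    (he' : 4 ≤ e') (hq : q ≤ e' + s0) (hJ : e' + 2 * m1 + s0 ≤ q + J)
    (hD : (2 : ℤ) ^ (e' + 2 * m1 + 4) ≤ D) (hg : cG c2 ≤ m.Pr (e' + s0 - q) 0 (Circ e' 0)) :
    ∃ n : ℕ, e' < n ∧ n ≤ e' + 2 * m1 ∧ cG c2 ≤ m.Pr (n + s0 - q) 0 (Circ n 0) := by
  have hpow : ∀ a b : ℕ, a ≤ b → (2 : ℤ) ^ a ≤ 2 ^ b := fun a b hab =>
    pow_le_pow_right₀ (by norm_num) hab
  obtain ⟨e, k1, k2, k3⟩ := F3 α q J D κ m h e' (by omega) hq (by omega)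
    ((hpow _ _ (by omega)).trans hD) hg
  have hex : ∃ i, i < m1 ∧ (2 ^ (e + i + 1) < 2 * Aw m (e + i + 1 + s0 - q) (e + i + 1) ∨
      Aw m (e + i + 1 + s0 - q) (e + i + 1) + 16 ≤ 4 * Aw m (e + i + s0 - q) (e + i)) := by
    by_contra hno
    push Not at hno
    exact chain (A := fun n => Aw m (n + s0 - q) n) he' k3 k2 (fun i hi => (hno i hi).1)
      (fun i hi => (hno i hi).2) (by omega)
  obtain ⟨i, hi, hor⟩ := hex
  obtain ⟨n, hn⟩ : ∃ n, n = e + i + 1 := ⟨_, rfl⟩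
  have hn1 : n - 1 = e + i := by omega
  have hk : n + s0 - q ≤ J := by omega
  have hn4 : 2 ≤ n := by omega
  have hc2 : 0 ≤ c2 := by
    unfold c2
    positivity
  have hD3 : (2 : ℤ) ^ (n + 3) ≤ D := (hpow _ _ (by omega)).trans hD
  refine ⟨n, by omega, by omega, ?_⟩
  refine circ_pr h hk (by omega) hD3 hc2 ?_
  by_cases hA : 2 * Aw m (n + s0 - q) n ≤ 2 ^ n
  · refine F1b α q J D κ m h n (by omega) (by omega) hk hD3 hA ?_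
    rw [hn1]
    rcases hor with h5 | h5
    · rw [← hn] at h5
      omega
    · rw [← hn] at h5
      exact h5
  · rw [not_le] at hA
    have e1 : (2 : ℕ) ^ n = 2 * 2 ^ (n - 1) := by
      rw [← pow_succ']
      congr 1
      omega
    have e2 : (2 : ℤ) ^ n = 2 * 2 ^ (n - 1) := by
      rw [← pow_succ']
      congr 1
      omega
    have h6 : 2 ^ (n - 1) < Aw m (n + s0 - q) n := by omega
    have h7 := aw_lt h6
    push_cast at h7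
    refine f1a_pr h hk (s := 2 ^ (n - 1)) (by positivity) ?_ e2 ?_ h7
    · exact (even_two).pow_of_ne_zero (by omega)
    · calc 4 * (2 : ℤ) ^ n = 2 ^ (n + 2) := by ring
        _ ≤ 2 ^ (n + 3) := hpow _ _ (by omega)
        _ ≤ D := hD3

theorem good (C c : ℝ) (hc : 0 < c) : ∃ s00 : ℕ, ∀ s0 : ℕ, s00 ≤ s0 → ∃ m0 q0 : ℕ,
    ∀ (α : ℝ) (q J : ℕ) (D : ℤ) (κ : ℕ → V → ℝ) (m : Mdl), IsMdl C c α q J D κ m → q0 ≤ q →
    ∀ e1 : ℕ, q ≤ e1 → e1 + m0 + s0 ≤ q + J → (2 : ℤ) ^ (e1 + m0 + 4) ≤ D →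
    ∃ e : ℕ, e1 ≤ e ∧ e ≤ e1 + m0 ∧ cG c2 ≤ m.Pr (e + s0 - q) 0 (Circ e 0) := by
  obtain ⟨sa, hsa⟩ := f3_pr C c hc
  obtain ⟨sb, hsb⟩ := f1b_pr C c hc
  obtain ⟨b0, hb0⟩ := base_pr C c hc
  refine ⟨sa + sb + b0, fun s0 hs0 => ?_⟩
  obtain ⟨m1, hm1, F3⟩ := hsa s0 (by omega)
  have F1b := hsb s0 (by omega)
  refine ⟨2 * m1, b0 + 8, ?_⟩
  intro α q J D κ m h hq e1 he1 hJ hD
  have hpow : ∀ a b : ℕ, a ≤ b → (2 : ℤ) ^ a ≤ 2 ^ b := fun a b hab =>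
    pow_le_pow_right₀ (by norm_num) hab
  have hbase := hb0 s0 (by omega) α q J D κ m h (by omega) (by omega)
    ((hpow _ _ (by omega)).trans hD)
  have key : ∀ t : ℕ, ∃ e : ℕ, cG c2 ≤ m.Pr (e + s0 - q) 0 (Circ e 0) ∧ q - b0 ≤ e ∧
      e ≤ e1 + 2 * m1 ∧ (e1 ≤ e ∨ q - b0 + t ≤ e) := by
    intro t
    induction t with
    | zero => exact ⟨q - b0, hbase, le_rfl, by omega, Or.inr le_rfl⟩
    | succ t ih =>
      obtain ⟨e, g1, g2, g3, g4⟩ := ih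
      by_cases hlt : e1 ≤ e
      · exact ⟨e, g1, g2, g3, Or.inl hlt⟩
      · rw [not_le] at hlt
        obtain ⟨n, n1, n2, n3⟩ := w11_step hm1 F3 F1b h (e' := e) (by omega) (by omega)
          (by omega) ((hpow _ _ (by omega)).trans hD) g1
        exact ⟨n, n3, by omega, by omega, Or.inr (by omega)⟩
  obtain ⟨e, g1, g2, g3, g4⟩ := key e1
  exact ⟨e, by omega, g3, g1⟩

end NU53
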