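import Pool.Agent.LibNU53.W0
import Pool.Agent.LibNU53.F1a

/-! Row W3 (case `A > r/2`). `r = 2h`, `h` even. If `P(Hc r h r) ≥ 1/16` then the rectangle `3r × 2r` is
crossed in the long direction with probability at least `c2 = (1/2·(1/16)^4)^3`.
PLAN. `x_ge` for the three translates by `(0,0)`, `(0,r)`, `(0,2r)` (`xc_tr`, `pr_map`), Harris, `f1a`:
`TB (-r) r (-h) (5h)`; then `tb_swap`, `lr_tr` and `pr_map` to `LR 0 (3r) 0 (2r)` (translation by `(h, r)`,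
even because `h` is even; `5h + h = 3r`). MEDIUM. -/

open MeasureTheory ProbabilityTheory

namespace NU53

/-- the RSW constant -/
noncomputable def c2 : ℝ := (1 / 2 * (1 / 16) ^ 4) ^ 3

private theorem w3_pr_mono (m : Mdl) (k : ℕ) (t : ℝ) {E E' : Set V → Prop} (h : ∀ S, E S → E' S) :
    m.Pr k t E ≤ m.Pr k t E' := by
  unfold Mdl.Pr
  exact measureReal_mono (fun ω hω => h _ hω) (measure_ne_top _ _)

private theorem w3_pr_nonneg (m : Mdl) (k : ℕ) (t : ℝ) (E : Set V → Prop) : 0 ≤ m.Pr k t E :=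
  measureReal_nonneg

private theorem w3_tr_sub (w u v : V) : tr w u - tr w v = u - v := by
  simp [tr]

private theorem w3_xc {C c α : ℝ} {q J : ℕ} {D : ℤ} {κ : ℕ → V → ℝ} {m : Mdl}
    (h : IsMdl C c α q J D κ m) {k : ℕ} (hk : k ≤ J) {r s y : ℤ} (hr : 0 ≤ r)
    (hrD : r + y ≤ D) (hy : 0 ≤ y) (he : Even y) :
    m.Pr k 0 (Xc r s (0, y)) = m.Pr k 0 (Xc r s 0) := by
  have hw : Ev ((0, y) : V) := by
    show Even ((0 : ℤ) + y)
    rwa [zero_add]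
  have h1 := pr_map h hk 0 (Λ := Sq 0 r) (E := Xc r s 0) (Xc.loc (Set.Subset.refl _)) (by
      apply Box_subset <;> simp <;> omega) (tr (0, y)) (by
      rintro u ⟨⟨x1, x2⟩, x3, x4⟩
      simp only [Prod.fst_zero, Prod.snd_zero, zero_sub, zero_add] at x1 x2 x3 x4
      refine ⟨⟨?_, ?_⟩, ?_, ?_⟩ <;> simp [tr] <;> omega) (by
      intro j u _ v _
      rw [w3_tr_sub])
  rw [← h1]
  unfold Mdl.Pr
  congr 1
  ext ω
  have h2 := xc_tr hw r s 0 (m.Sk k 0 ω)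
  rw [zero_add] at h2
  exact h2

theorem f1a_pr {C c α : ℝ} {q J : ℕ} {D : ℤ} {κ : ℕ → V → ℝ} {m : Mdl}
    (h : IsMdl C c α q J D κ m) {k : ℕ} (hk : k ≤ J) {r s : ℤ} (hs : 0 < s) (he : Even s)
    (hr : r = 2 * s) (hrD : 4 * r ≤ D) (hH : 1 / 16 ≤ m.Pr k 0 (Hc r s r)) :
    c2 ≤ m.Pr k 0 (LR 0 (3 * r) 0 (2 * r)) := by
  have her : Even r := by rw [hr]; exact even_two_mul s
  have her2 : Even (2 * r) := even_two_mul r
  -- the cluster events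
  have hx := x_ge h hk (r := r) (s := s) (by omega) (by omega)
  have hx0 : (1 / 2 : ℝ) * (1 / 16) ^ 4 ≤ m.Pr k 0 (Xc r s 0) := by
    refine le_trans ?_ hx
    have := pow_le_pow_left₀ (by norm_num : (0 : ℝ) ≤ 1 / 16) hH 4
    linarith
  have hx1 := w3_xc h hk (r := r) (s := s) (y := r) (by omega) (by omega) (by omega) her
  have hx2 := w3_xc h hk (r := r) (s := s) (y := 2 * r) (by omega) (by omega) (by omega) her2
  rw [← hx1] at hx0
  have hx1' := hx0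
  rw [hx1, ← hx2] at hx0
  have hx2' := hx0
  rw [hx2] at hx0
  -- Harris
  have hsub : ∀ y : ℤ, 0 ≤ y → y ≤ 2 * r → Sq ((0, y) : V) r ⊆ Sq 0 (3 * r) := by
    intro y hy hy2
    apply Box_subset <;> simp <;> omega
  have hl0 : Loc (Sq 0 (3 * r)) (Xc r s 0) := Xc.loc (hsub 0 (by omega) (by omega))
  have hl1 : Loc (Sq 0 (3 * r)) (Xc r s (0, r)) := Xc.loc (hsub r (by omega) (by omega))
  have hl2 : Loc (Sq 0 (3 * r)) (Xc r s (0, 2 * r)) := Xc.loc (hsub (2 * r) (by omega) (by omega))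
  have H1 := harris m h.nonneg k 0 (Sq_finite 0 (3 * r)) hl0 hl1 (Xc.inc _ _ _) (Xc.inc _ _ _)
  have hl01 : Loc (Sq 0 (3 * r)) (fun S => Xc r s 0 S ∧ Xc r s (0, r) S) :=
    fun S S' hS hE => ⟨hl0 S S' hS hE.1, hl1 S S' hS hE.2⟩
  have hi01 : Inc (fun S => Xc r s 0 S ∧ Xc r s (0, r) S) :=
    fun S S' hS hE => ⟨hE.1.mono hS, hE.2.mono hS⟩
  have H2 := harris m h.nonneg k 0 (Sq_finite 0 (3 * r)) hl01 hl2 hi01 (Xc.inc _ _ _)
  have H3 := w3_pr_mono m k 0 (E := fun S => (Xc r s 0 S ∧ Xc r s (0, r) S) ∧ Xc r s (0, 2 * r) S)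
    (E' := TB (-r) r (-s) (5 * s)) (fun S hS => f1a hr hs hS.1.1 hS.1.2 hS.2)
  -- transport
  have hΛ : Box (-s) (5 * s) (-r) r ⊆ Sq 0 D := by
    apply Box_subset <;> simp <;> omega
  have H4 := pr_map h hk 0 (Λ := Box (-s) (5 * s) (-r) r) (E := LR (-s) (5 * s) (-r) r)
    (LR.loc (Set.Subset.refl _)) hΛ Prod.swap (by
      rintro u ⟨⟨x1, x2⟩, x3, x4⟩
      refine ⟨⟨?_, ?_⟩, ?_, ?_⟩ <;> simp <;> omega) (by
      intro j u _ v _
      exact h.swap j (u.1 - v.1) (u.2 - v.2))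
  have H5 := pr_map h hk 0 (Λ := Box (-s) (5 * s) (-r) r) (E := LR (-s) (5 * s) (-r) r)
    (LR.loc (Set.Subset.refl _)) hΛ (tr (s, r)) (by
      rintro u ⟨⟨x1, x2⟩, x3, x4⟩
      refine ⟨⟨?_, ?_⟩, ?_, ?_⟩ <;> simp [tr] <;> omega) (by
      intro j u _ v _
      rw [w3_tr_sub])
  have hw : Ev ((s, r) : V) := by
    show Even (s + r)
    exact he.add her
  have H6 : m.Pr k 0 (TB (-r) r (-s) (5 * s)) = m.Pr k 0 (LR (-s) (5 * s) (-r) r) := by
    rw [← H4]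
    unfold Mdl.Pr
    congr 1
    ext ω
    exact tb_swap (-r) r (-s) (5 * s) (m.Sk k 0 ω)
  have H7 : m.Pr k 0 (LR 0 (3 * r) 0 (2 * r)) = m.Pr k 0 (LR (-s) (5 * s) (-r) r) := by
    rw [← H5]
    unfold Mdl.Pr
    congr 1
    ext ω
    have h2 := lr_tr hw (-s) (5 * s) (-r) r (m.Sk k 0 ω)
    have e1 : -s + ((s, r) : V).1 = 0 := by simp
    have e2 : 5 * s + ((s, r) : V).1 = 3 * r := by simp; omega
    have e3 : -r + ((s, r) : V).2 = 0 := by simp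
    have e4 : r + ((s, r) : V).2 = 2 * r := by simp; omega
    rw [e1, e2, e3, e4] at h2
    exact h2
  rw [H7, ← H6]
  refine le_trans ?_ H3
  refine le_trans ?_ H2
  have hp : (0 : ℝ) ≤ 1 / 2 * (1 / 16) ^ 4 := by norm_num
  have H8 : (1 / 2 * (1 / 16) ^ 4) * (1 / 2 * (1 / 16) ^ 4) ≤
      m.Pr k 0 (fun S => Xc r s 0 S ∧ Xc r s (0, r) S) :=
    le_trans (mul_le_mul hx0 hx1' hp (w3_pr_nonneg _ _ _ _)) H1
  have H9 := mul_le_mul H8 hx2' hp (w3_pr_nonneg _ _ _ _)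
  refine le_trans (le_of_eq ?_) H9
  rw [c2]
  ring

end NU53
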