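import Pool.Agent.LibNU53.W3
import Pool.Agent.LibNU53.Glue

/-! Row W5. From one crossing of `3r × 2r` (`r = 2^e`) to a circuit: `glue` (four translates by multiples
of `(r,0)`, three square crossings `half_tb` translated), Harris (six times): `LR 0 (6r) 0 (2r)` has
probability `≥ p^4/8`; the four rectangles of `Circ e 0` are images of `[0,6r]×[0,2r]` by translation and
`swap` (`pr_map`), Harris (three times). `e ≥ 1` so that `r` is even. MEDIUM. -/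

open MeasureTheory ProbabilityTheory

namespace NU53

/-- circuit constant from a crossing constant -/
noncomputable def cG (p : ℝ) : ℝ := (p ^ 4 / 8) ^ 4

private theorem w5_mono (m : Mdl) (k : ℕ) (t : ℝ) {E E' : Set V → Prop}
    (h : ∀ S, E S → E' S) : m.Pr k t E ≤ m.Pr k t E' := by
  unfold Mdl.Pr
  exact measureReal_mono (fun ω hω => h _ hω) (measure_ne_top _ _)

/-- local, increasing, of probability at least `x` -/
private def w5P (m : Mdl) (k : ℕ) (Λ : Set V) (E : Set V → Prop) (x : ℝ) : Prop :=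
  Loc Λ E ∧ Inc E ∧ x ≤ m.Pr k 0 E

private theorem w5_and {C c α : ℝ} {q J : ℕ} {D : ℤ} {κ : ℕ → V → ℝ} {m : Mdl}
    (h : IsMdl C c α q J D κ m) {k : ℕ} {Λ : Set V} (hΛ : Λ.Finite) {E E' : Set V → Prop}
    {x y : ℝ} (hx : 0 ≤ x) (hy : 0 ≤ y) (hE : w5P m k Λ E x) (hE' : w5P m k Λ E' y) :
    w5P m k Λ (fun S => E S ∧ E' S) (x * y) := by
  obtain ⟨l1, i1, p1⟩ := hE
  obtain ⟨l2, i2, p2⟩ := hE'
  refine ⟨fun S S' hS hh => ⟨l1 S S' hS hh.1, l2 S S' hS hh.2⟩,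
    fun S S' hS hh => ⟨i1 S S' hS hh.1, i2 S S' hS hh.2⟩, ?_⟩
  exact (mul_le_mul p1 p2 hy (hx.trans p1)).trans (harris m h.nonneg k 0 hΛ l1 l2 i1 i2)

private theorem w5_box {a b c d D : ℤ} (h1 : -D ≤ a) (h2 : b ≤ D) (h3 : -D ≤ c) (h4 : d ≤ D) :
    Box a b c d ⊆ Sq 0 D := by
  rintro v ⟨⟨x1, x2⟩, x3, x4⟩
  refine ⟨⟨?_, ?_⟩, ?_, ?_⟩
  · have : (0 : V).1 = 0 := rfl
    omega
  · have : (0 : V).1 = 0 := rfl
    omega
  · have : (0 : V).2 = 0 := rfl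
    omega
  · have : (0 : V).2 = 0 := rfl
    omega

private theorem w5_tr {w : V} {a b c d : ℤ} {u : V} (hu : u ∈ Box a b c d) :
    tr w u ∈ Box (a + w.1) (b + w.1) (c + w.2) (d + w.2) := by
  obtain ⟨⟨x1, x2⟩, x3, x4⟩ := hu
  have e1 : (tr w u).1 = u.1 + w.1 := rfl
  have e2 : (tr w u).2 = u.2 + w.2 := rfl
  refine ⟨⟨?_, ?_⟩, ?_, ?_⟩ <;> omega

private theorem w5_lr {C c α : ℝ} {q J : ℕ} {D : ℤ} {κ : ℕ → V → ℝ} {m : Mdl}
    (h : IsMdl C c α q J D κ m) {k : ℕ} (hk : k ≤ J) {w : V} (hw : Ev w) {a b c' d : ℤ}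
    (h1 : Box a b c' d ⊆ Sq 0 D)
    (h2 : Box (a + w.1) (b + w.1) (c' + w.2) (d + w.2) ⊆ Sq 0 D) :
    m.Pr k 0 (LR (a + w.1) (b + w.1) (c' + w.2) (d + w.2)) = m.Pr k 0 (LR a b c' d) := by
  have e1 : (LR (a + w.1) (b + w.1) (c' + w.2) (d + w.2)) =
      fun S => LR a b c' d (tr w ⁻¹' S) := by
    funext S
    exact propext (lr_tr hw a b c' d S)
  rw [e1]
  refine pr_map h hk 0 (Λ := Box a b c' d) (LR.loc subset_rfl) h1 (tr w)
    (fun u hu => h2 (w5_tr hu)) fun j u _ v _ => ?_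
  congr 1
  change u + w - (v + w) = u - v
  abel

private theorem w5_tb {C c α : ℝ} {q J : ℕ} {D : ℤ} {κ : ℕ → V → ℝ} {m : Mdl}
    (h : IsMdl C c α q J D κ m) {k : ℕ} (hk : k ≤ J) {w : V} (hw : Ev w) {a b c' d : ℤ}
    (h1 : Box a b c' d ⊆ Sq 0 D)
    (h2 : Box (a + w.1) (b + w.1) (c' + w.2) (d + w.2) ⊆ Sq 0 D) :
    m.Pr k 0 (TB (a + w.1) (b + w.1) (c' + w.2) (d + w.2)) = m.Pr k 0 (TB a b c' d) := by
  have e1 : (TB (a + w.1) (b + w.1) (c' + w.2) (d + w.2)) =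
      fun S => TB a b c' d (tr w ⁻¹' S) := by
    funext S
    exact propext (tb_tr hw a b c' d S)
  rw [e1]
  refine pr_map h hk 0 (Λ := Box a b c' d) (TB.loc subset_rfl) h1 (tr w)
    (fun u hu => h2 (w5_tr hu)) fun j u _ v _ => ?_
  congr 1
  change u + w - (v + w) = u - v
  abel

private theorem w5_swap {C c α : ℝ} {q J : ℕ} {D : ℤ} {κ : ℕ → V → ℝ} {m : Mdl}
    (h : IsMdl C c α q J D κ m) {k : ℕ} (hk : k ≤ J) {a b c' d : ℤ}
    (h1 : Box a b c' d ⊆ Sq 0 D) (h2 : Box c' d a b ⊆ Sq 0 D) :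
    m.Pr k 0 (TB a b c' d) = m.Pr k 0 (LR c' d a b) := by
  have e1 : TB a b c' d = fun S => LR c' d a b (Prod.swap ⁻¹' S) := by
    funext S
    exact propext (tb_swap a b c' d S)
  rw [e1]
  refine pr_map h hk 0 (Λ := Box c' d a b) (LR.loc subset_rfl) h2 Prod.swap
    (fun u hu => h1 ⟨hu.2, hu.1⟩) fun j u _ v _ => ?_
  exact h.swap j (u.1 - v.1) (u.2 - v.2)

theorem circ_pr {C c α : ℝ} {q J : ℕ} {D : ℤ} {κ : ℕ → V → ℝ} {m : Mdl}
    (h : IsMdl C c α q J D κ m) {k e : ℕ} (hk : k ≤ J) (he : 1 ≤ e)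
    (hD : (2 : ℤ) ^ (e + 3) ≤ D) {p : ℝ} (hp : 0 ≤ p)
    (hL : p ≤ m.Pr k 0 (LR 0 (3 * 2 ^ e) 0 (2 * 2 ^ e))) : cG p ≤ m.Pr k 0 (Circ e 0) := by
  obtain ⟨r, hr⟩ : ∃ r : ℤ, r = 2 ^ e := ⟨_, rfl⟩
  have hr0 : 0 < r := by rw [hr]; positivity
  have hrD : 8 * r ≤ D := by
    rw [pow_add] at hD
    rw [hr]
    linarith
  obtain ⟨s, hs⟩ : ∃ s : ℤ, r = 2 * s := by
    obtain ⟨f, rfl⟩ : ∃ f, e = f + 1 := ⟨e - 1, by omega⟩
    exact ⟨2 ^ f, by rw [hr, pow_succ]; ring⟩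
  rw [← hr] at hL
  have ev : ∀ x y n : ℤ, x + y = n * r → Ev (x, y) := by
    intro x y n hxy
    refine ⟨n * s, ?_⟩
    change x + y = _
    rw [hxy, hs]
    ring
  -- the seven events
  have hfin : (Box 0 (6 * r) 0 (2 * r)).Finite := Box_finite _ _ _ _
  have l0 : w5P m k (Box 0 (6 * r) 0 (2 * r)) (LR 0 (3 * r) 0 (2 * r)) p :=
    ⟨LR.loc (Box_subset le_rfl (by omega) le_rfl le_rfl), LR.inc _ _ _ _, hL⟩
  have ll : ∀ n : ℤ, 0 ≤ n → n ≤ 3 → w5P m k (Box 0 (6 * r) 0 (2 * r))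
      (LR (n * r) ((n + 3) * r) 0 (2 * r)) p := by
    intro n hn0 hn3
    have a1 : 0 ≤ n * r := mul_nonneg hn0 hr0.le
    have a2 : n * r ≤ 3 * r := mul_le_mul_of_nonneg_right hn3 hr0.le
    have a3 : (n + 3) * r = n * r + 3 * r := by ring
    refine ⟨LR.loc (Box_subset a1 (by omega) le_rfl le_rfl), LR.inc _ _ _ _, ?_⟩
    have e1 := w5_lr h hk (w := (n * r, 0)) (ev _ _ n (by ring)) (a := 0) (b := 3 * r) (c' := 0)
      (d := 2 * r) (w5_box (by omega) (by omega) (by omega) (by omega))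
      (w5_box (by change -D ≤ 0 + n * r; omega) (by change 3 * r + n * r ≤ D; omega)
        (by change -D ≤ 0 + 0; omega) (by change 2 * r + 0 ≤ D; omega))
    have e2 : LR (n * r) ((n + 3) * r) 0 (2 * r) =
        LR (0 + ((n * r, 0) : V).1) (3 * r + ((n * r, 0) : V).1) (0 + ((n * r, 0) : V).2)
          (2 * r + ((n * r, 0) : V).2) := by
      change _ = LR (0 + n * r) (3 * r + n * r) (0 + 0) (2 * r + 0)
      rw [zero_add, add_zero, add_zero, a3, add_comm (3 * r)]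
    rw [e2, e1]
    exact hL
  have tt : ∀ n : ℤ, 1 ≤ n → n ≤ 3 → w5P m k (Box 0 (6 * r) 0 (2 * r))
      (TB (n * r) ((n + 2) * r) 0 (2 * r)) (1 / 2) := by
    intro n hn0 hn3
    have a1 : 1 * r ≤ n * r := mul_le_mul_of_nonneg_right hn0 hr0.le
    have a2 : n * r ≤ 3 * r := mul_le_mul_of_nonneg_right hn3 hr0.le
    have a3 : (n + 2) * r = n * r + 2 * r := by ring
    refine ⟨TB.loc (Box_subset (by omega) (by omega) le_rfl le_rfl), TB.inc _ _ _ _, ?_⟩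
    have e1 := w5_tb h hk (w := (n * r + r, r)) (ev _ _ (n + 2) (by ring)) (a := -r) (b := r)
      (c' := -r) (d := r) (w5_box (by omega) (by omega) (by omega) (by omega))
      (w5_box (by change -D ≤ -r + (n * r + r); omega) (by change r + (n * r + r) ≤ D; omega)
        (by change -D ≤ -r + r; omega) (by change r + r ≤ D; omega))
    have e2 : TB (n * r) ((n + 2) * r) 0 (2 * r) =
        TB (-r + ((n * r + r, r) : V).1) (r + ((n * r + r, r) : V).1)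
          (-r + ((n * r + r, r) : V).2) (r + ((n * r + r, r) : V).2) := by
      change _ = TB (-r + (n * r + r)) (r + (n * r + r)) (-r + r) (r + r)
      congr 1 <;> ring
    rw [e2, e1, half_tb h hk hr0.le (by omega)]
  have hp2 : (0 : ℝ) ≤ 1 / 2 := by norm_num
  have q1 := w5_and h hfin hp hp (ll 0 le_rfl (by norm_num)) (ll 1 (by norm_num) (by norm_num))
  have q2 := w5_and h hfin (by positivity) hp q1 (ll 2 (by norm_num) (by norm_num))
  have q3 := w5_and h hfin (by positivity) hp q2 (ll 3 (by norm_num) (by norm_num))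
  have q4 := w5_and h hfin (by positivity) hp2 q3 (tt 1 (by norm_num) (by norm_num))
  have q5 := w5_and h hfin (by positivity) hp2 q4 (tt 2 (by norm_num) (by norm_num))
  have q6 := w5_and h hfin (by positivity) hp2 q5 (tt 3 (by norm_num) (by norm_num))
  have hP : p ^ 4 / 8 ≤ m.Pr k 0 (LR 0 (6 * r) 0 (2 * r)) := by
    have e1 : p ^ 4 / 8 = p * p * p * p * (1 / 2) * (1 / 2) * (1 / 2) := by ring
    rw [e1]
    refine q6.2.2.trans (w5_mono m k 0 ?_)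
    rintro S ⟨⟨⟨⟨⟨⟨s0, s1⟩, s2⟩, s3⟩, t1⟩, t2⟩, t3⟩
    refine glue hr0 ?_ ?_ ?_ ?_ ?_ ?_ ?_
    · have e2 : LR (0 * r) ((0 + 3) * r) 0 (2 * r) = LR 0 (3 * r) 0 (2 * r) := by
        congr 1 <;> ring
      rwa [e2] at s0
    · have e2 : LR (1 * r) ((1 + 3) * r) 0 (2 * r) = LR r (4 * r) 0 (2 * r) := by
        congr 1 <;> ring
      rwa [e2] at s1
    · have e2 : LR (2 * r) ((2 + 3) * r) 0 (2 * r) = LR (2 * r) (5 * r) 0 (2 * r) := by
        congr 1 <;> ring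
      rwa [e2] at s2
    · have e2 : LR (3 * r) ((3 + 3) * r) 0 (2 * r) = LR (3 * r) (6 * r) 0 (2 * r) := by
        congr 1 <;> ring
      rwa [e2] at s3
    · have e2 : TB (1 * r) ((1 + 2) * r) 0 (2 * r) = TB r (3 * r) 0 (2 * r) := by
        congr 1 <;> ring
      rwa [e2] at t1
    · have e2 : TB (2 * r) ((2 + 2) * r) 0 (2 * r) = TB (2 * r) (4 * r) 0 (2 * r) := by
        congr 1 <;> ring
      rwa [e2] at t2
    · have e2 : TB (3 * r) ((3 + 2) * r) 0 (2 * r) = TB (3 * r) (5 * r) 0 (2 * r) := by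
        congr 1 <;> ring
      rwa [e2] at t3
  -- the four rectangles
  have hfin2 : (Box (-(3 * r)) (3 * r) (-(3 * r)) (3 * r)).Finite := Box_finite _ _ _ _
  have b6 : Box 0 (6 * r) 0 (2 * r) ⊆ Sq 0 D :=
    w5_box (by omega) (by omega) (by omega) (by omega)
  have A1 : m.Pr k 0 (LR (-(3 * r)) (3 * r) r (3 * r)) = m.Pr k 0 (LR 0 (6 * r) 0 (2 * r)) := by
    have e1 := w5_lr h hk (w := (-(3 * r), r)) (ev _ _ (-2) (by ring)) b6
      (w5_box (by change -D ≤ 0 + -(3 * r); omega) (by change 6 * r + -(3 * r) ≤ D; omega)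
        (by change -D ≤ 0 + r; omega) (by change 2 * r + r ≤ D; omega))
    rw [← e1]
    congr 1
    change _ = LR (0 + -(3 * r)) (6 * r + -(3 * r)) (0 + r) (2 * r + r)
    congr 1 <;> ring
  have A2 : m.Pr k 0 (LR (-(3 * r)) (3 * r) (-(3 * r)) (-r)) =
      m.Pr k 0 (LR 0 (6 * r) 0 (2 * r)) := by
    have e1 := w5_lr h hk (w := (-(3 * r), -(3 * r))) (ev _ _ (-6) (by ring)) b6
      (w5_box (by change -D ≤ 0 + -(3 * r); omega) (by change 6 * r + -(3 * r) ≤ D; omega)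
        (by change -D ≤ 0 + -(3 * r); omega) (by change 2 * r + -(3 * r) ≤ D; omega))
    rw [← e1]
    congr 1
    change _ = LR (0 + -(3 * r)) (6 * r + -(3 * r)) (0 + -(3 * r)) (2 * r + -(3 * r))
    congr 1 <;> ring
  have A3 : m.Pr k 0 (TB (-(3 * r)) (-r) (-(3 * r)) (3 * r)) =
      m.Pr k 0 (LR 0 (6 * r) 0 (2 * r)) := by
    rw [w5_swap h hk (w5_box (by omega) (by omega) (by omega) (by omega))
      (w5_box (by omega) (by omega) (by omega) (by omega)), A2]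
  have A4 : m.Pr k 0 (TB r (3 * r) (-(3 * r)) (3 * r)) =
      m.Pr k 0 (LR 0 (6 * r) 0 (2 * r)) := by
    rw [w5_swap h hk (w5_box (by omega) (by omega) (by omega) (by omega))
      (w5_box (by omega) (by omega) (by omega) (by omega)), A1]
  have B1 : w5P m k (Box (-(3 * r)) (3 * r) (-(3 * r)) (3 * r)) (LR (-(3 * r)) (3 * r) r (3 * r))
      (p ^ 4 / 8) :=
    ⟨LR.loc (Box_subset le_rfl le_rfl (by omega) le_rfl), LR.inc _ _ _ _, A1 ▸ hP⟩
  have B2 : w5P m k (Box (-(3 * r)) (3 * r) (-(3 * r)) (3 * r))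
      (LR (-(3 * r)) (3 * r) (-(3 * r)) (-r)) (p ^ 4 / 8) :=
    ⟨LR.loc (Box_subset le_rfl le_rfl le_rfl (by omega)), LR.inc _ _ _ _, A2 ▸ hP⟩
  have B3 : w5P m k (Box (-(3 * r)) (3 * r) (-(3 * r)) (3 * r))
      (TB (-(3 * r)) (-r) (-(3 * r)) (3 * r)) (p ^ 4 / 8) :=
    ⟨TB.loc (Box_subset le_rfl (by omega) le_rfl le_rfl), TB.inc _ _ _ _, A3 ▸ hP⟩
  have B4 : w5P m k (Box (-(3 * r)) (3 * r) (-(3 * r)) (3 * r))
      (TB r (3 * r) (-(3 * r)) (3 * r)) (p ^ 4 / 8) :=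
    ⟨TB.loc (Box_subset (by omega) le_rfl le_rfl le_rfl), TB.inc _ _ _ _, A4 ▸ hP⟩
  have hx : 0 ≤ p ^ 4 / 8 := by positivity
  have C1 := w5_and h hfin2 hx hx B3 B4
  have C2 := w5_and h hfin2 hx (by positivity) B2 C1
  have C3 := w5_and h hfin2 hx (by positivity) B1 C2
  have e3 : cG p = p ^ 4 / 8 * (p ^ 4 / 8 * (p ^ 4 / 8 * (p ^ 4 / 8))) := by
    unfold cG
    ring
  rw [e3]
  refine C3.2.2.trans (w5_mono m k 0 ?_)
  rintro S ⟨s1, s2, s3, s4⟩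
  refine ⟨?_, ?_, ?_, ?_⟩
  · change LR (0 - 3 * 2 ^ e) (0 + 3 * 2 ^ e) (0 + 2 ^ e) (0 + 3 * 2 ^ e) S
    rw [← hr, zero_sub, zero_add, zero_add]
    exact s1
  · change LR (0 - 3 * 2 ^ e) (0 + 3 * 2 ^ e) (0 - 3 * 2 ^ e) (0 - 2 ^ e) S
    rw [← hr, zero_sub, zero_add, zero_sub]
    exact s2
  · change TB (0 - 3 * 2 ^ e) (0 - 2 ^ e) (0 - 3 * 2 ^ e) (0 + 3 * 2 ^ e) S
    rw [← hr, zero_sub, zero_add, zero_sub]
    exact s3
  · change TB (0 + 2 ^ e) (0 + 3 * 2 ^ e) (0 - 3 * 2 ^ e) (0 + 3 * 2 ^ e) S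
    rw [← hr, zero_sub, zero_add, zero_add]
    exact s4

end NU53
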