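import Pool.Agent.LibNU53.W5
import Pool.Agent.LibNU53.F2t
import Pool.Agent.LibNU53.R7

/-! Row W6 (F2). If the threshold `A` of the scale `e` is at most `2^e'`, `e' + 4 ≤ e`, and circuits at the
scale `e'` in the level `k' = e'+s0-q` have probability `≥ cG c2`, then the crossing of `3r × 2r` has
probability `≥ c3` in the level `k = e+s0-q`.
PLAN. `aw_low` with `s = 2^e'`: `P_k(Hc r 0 (2^e')) ≥ 3/16`, same for the mirrored event (`pr_map` with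
`v ↦ (2r - v.1, v.2)`, image in `Sq 0 D` because `3r ≤ D`). `change` for `Circ e' (r,0)`, or for
`Circ e' 0` and translation by `(r,0)`, with `ε = cG c2 / 4`: `P_k ≥ cG c2/2 - cG c2/4`. Harris (twice),
`f2t`: `LR (-r) (3r) (-r) r`, which contains (`t5x`) a crossing of `[-r,2r]×[-r,r]`; translate by `(r,r)`.
MEDIUM. -/

open MeasureTheory ProbabilityTheory

namespace NU53

/-- second RSW constant -/
noncomputable def c3 : ℝ := (3 / 16) ^ 2 * (cG c2 / 4)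

private theorem w6_mono (m : Mdl) (k : ℕ) (t : ℝ) {E E' : Set V → Prop}
    (h : ∀ S, E S → E' S) : m.Pr k t E ≤ m.Pr k t E' := by
  unfold Mdl.Pr
  exact measureReal_mono (fun ω hω => h _ hω)

private theorem w6_cG : 0 < cG c2 := by
  unfold cG c2
  positivity

private theorem w6_loc {r : ℤ} (hr : 0 ≤ r) (s t : ℤ) :
    Loc (Box (-r) (3 * r) (-r) r)
      (fun S => Hc r s t ((fun v : V => (2 * r - v.1, v.2)) ⁻¹' S)) := by
  intro S S' h
  refine Hc.loc (Λ := Box (-r) r (-r) r) (le_refl _) _ _ ?_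
  ext v
  constructor
  · rintro ⟨h1, h2⟩
    obtain ⟨⟨x1, x2⟩, x3, x4⟩ := h2
    have h3 : ((2 * r - v.1, v.2) : V) ∈ S ∩ Box (-r) (3 * r) (-r) r :=
      ⟨h1, ⟨by simp only; omega, by simp only; omega⟩, x3, x4⟩
    rw [h] at h3
    exact ⟨h3.1, ⟨x1, x2⟩, x3, x4⟩
  · rintro ⟨h1, h2⟩
    obtain ⟨⟨x1, x2⟩, x3, x4⟩ := h2
    have h3 : ((2 * r - v.1, v.2) : V) ∈ S' ∩ Box (-r) (3 * r) (-r) r :=
      ⟨h1, ⟨by simp only; omega, by simp only; omega⟩, x3, x4⟩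
    rw [← h] at h3
    exact ⟨h3.1, ⟨x1, x2⟩, x3, x4⟩

private theorem w6_cut {r : ℤ} (hr : 0 ≤ r) {S : Set V} (h : LR (-r) (3 * r) (-r) r S) :
    LR (-r) (2 * r) (-r) r S := by
  obtain ⟨u, v, h1, h2, h3⟩ := h
  obtain ⟨u', v', h4, h5, h6, -, -⟩ := t5x (a' := -r) (b' := 2 * r) (by omega) h3
    (by omega) (by omega)
  refine ⟨u', v', h4, h5, h6.mono ?_⟩
  rintro w ⟨⟨hw1, ⟨hw2, hw3⟩, hw4, hw5⟩, hw6⟩
  exact ⟨hw1, ⟨hw6.1, hw6.2⟩, hw4, hw5⟩

theorem f2_pr (C c : ℝ) (hc : 0 < c) : ∃ s00 : ℕ, ∀ s0 : ℕ, s00 ≤ s0 →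
    ∀ (α : ℝ) (q J : ℕ) (D : ℤ) (κ : ℕ → V → ℝ) (m : Mdl), IsMdl C c α q J D κ m →
    ∀ e e' : ℕ, 1 ≤ e' → e' + 4 ≤ e → q ≤ e' + s0 → e + s0 - q ≤ J → (2 : ℤ) ^ (e + 3) ≤ D →
    Aw m (e + s0 - q) e ≤ 2 ^ e' → cG c2 ≤ m.Pr (e' + s0 - q) 0 (Circ e' 0) →
    c3 ≤ m.Pr (e + s0 - q) 0 (LR 0 (3 * 2 ^ e) 0 (2 * 2 ^ e)) := by
  obtain ⟨s00, hs00⟩ := change C c (cG c2 / 4) hc (by have := w6_cG; positivity)
  refine ⟨s00, fun s0 hs0 α q J D κ m h e e' he' hee hq hkJ hD hA hcirc => ?_⟩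
  set k : ℕ := e + s0 - q with hk
  set r : ℤ := (2 : ℤ) ^ e with hr
  have hrpos : 0 < r := by rw [hr]; positivity
  have hD8 : 8 * r ≤ D := by
    have : (2 : ℤ) ^ (e + 3) = 8 * r := by rw [hr, pow_add]; ring
    omega
  have hpe : (2 : ℤ) ^ e' * 16 ≤ r := by
    have h1 : (2 : ℤ) ^ (e' + 4) ≤ 2 ^ e := pow_le_pow_right₀ (by norm_num) hee
    rw [pow_add] at h1
    rw [hr]
    norm_num at h1 ⊢
    exact h1
  have hpe0 : 0 < (2 : ℤ) ^ e' := by positivity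
  have hreven : Even r := by
    rw [hr]
    exact (even_two).pow_of_ne_zero (by omega)
  have hsub1 : Box (-r) r (-r) r ⊆ Sq 0 D := by
    rintro v ⟨⟨x1, x2⟩, x3, x4⟩
    refine ⟨⟨?_, ?_⟩, ?_, ?_⟩ <;> simp only [Prod.fst_zero, Prod.snd_zero] <;> omega
  -- the two paths
  have hP1 : 3 / 16 ≤ m.Pr k 0 (Hc r 0 (2 ^ e')) := by
    have h1 := aw_low h (k := k) (e := e) (s := 2 ^ e') hkJ (by omega) hA
      (hA.trans (Nat.pow_le_pow_right (by norm_num) (by omega)))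
    push_cast at h1
    exact h1
  have hP2 : 3 / 16 ≤ m.Pr k 0
      (fun S => Hc r 0 (2 ^ e') ((fun v : V => (2 * r - v.1, v.2)) ⁻¹' S)) := by
    have h1 := pr_map h (k := k) hkJ 0 (Λ := Box (-r) r (-r) r) (E := Hc r 0 (2 ^ e'))
      (Hc.loc (le_refl _)) hsub1 (fun v : V => (2 * r - v.1, v.2)) (by
        rintro v ⟨⟨x1, x2⟩, x3, x4⟩
        refine ⟨⟨?_, ?_⟩, ?_, ?_⟩ <;> simp only [Prod.fst_zero, Prod.snd_zero] <;> omega) (by
        intro j u _ v _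
        have e1 : (((2 * r - u.1, u.2) : V) - (2 * r - v.1, v.2)) =
            (-(u.1 - v.1), u.2 - v.2) := by
          ext
          · simp only [Prod.fst_sub]
            ring
          · simp only [Prod.snd_sub]
        have e2 : u - v = (u.1 - v.1, u.2 - v.2) := rfl
        rw [e1, e2, h.flip])
    rw [h1]
    exact hP1
  -- the circuit
  have hP3 : cG c2 / 4 ≤ m.Pr k 0 (Circ e' (r, 0)) := by
    have h1 := hs00 s0 hs0 α q J D κ m h e' k hq (by omega) hkJ 0 (by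
      rintro v ⟨⟨x1, x2⟩, x3, x4⟩
      simp only [Prod.fst_zero, Prod.snd_zero] at x1 x2 x3 x4
      refine ⟨⟨?_, ?_⟩, ?_, ?_⟩ <;> simp only [Prod.fst_zero, Prod.snd_zero] <;> omega)
      (Circ e' 0) (Circ.inc e' 0) (Circ.loc (le_refl _))
    have h2 : cG c2 / 4 ≤ m.Pr k 0 (Circ e' 0) := by linarith
    have h3 := pr_map h (k := k) hkJ 0 (Λ := Sq 0 (3 * 2 ^ e')) (E := Circ e' 0)
      (Circ.loc (le_refl _)) (by
        rintro v ⟨⟨x1, x2⟩, x3, x4⟩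
        simp only [Prod.fst_zero, Prod.snd_zero] at x1 x2 x3 x4
        refine ⟨⟨?_, ?_⟩, ?_, ?_⟩ <;> simp only [Prod.fst_zero, Prod.snd_zero] <;> omega)
      (tr (r, 0)) (by
        rintro v ⟨⟨x1, x2⟩, x3, x4⟩
        simp only [Prod.fst_zero, Prod.snd_zero] at x1 x2 x3 x4
        unfold tr
        refine ⟨⟨?_, ?_⟩, ?_, ?_⟩ <;>
          simp only [Prod.fst_zero, Prod.snd_zero, Prod.fst_add, Prod.snd_add] <;> omega) (by
        intro j u _ v _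
        unfold tr
        rw [add_sub_add_right_eq_sub])
    have hev : Ev ((r, 0) : V) := by
      unfold Ev
      simp only [add_zero]
      exact hreven
    have h4 : (fun S => Circ e' 0 (tr (r, 0) ⁻¹' S)) = Circ e' (r, 0) := by
      funext S
      have h5 := circ_tr hev e' 0 S
      rw [zero_add] at h5
      exact propext h5.symm
    rw [h4] at h3
    rw [h3]
    exact h2
  have hfin : (Box (-r) (3 * r) (-r) r).Finite := Box_finite _ _ _ _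
  have hl1 : Loc (Box (-r) (3 * r) (-r) r) (Hc r 0 (2 ^ e')) :=
    Hc.loc (Box_subset le_rfl (by omega) le_rfl le_rfl)
  have hl2 : Loc (Box (-r) (3 * r) (-r) r)
      (fun S => Hc r 0 (2 ^ e') ((fun v : V => (2 * r - v.1, v.2)) ⁻¹' S)) :=
    w6_loc hrpos.le 0 (2 ^ e')
  have hl3 : Loc (Box (-r) (3 * r) (-r) r) (Circ e' (r, 0)) := by
    refine Circ.loc (Box_subset ?_ ?_ ?_ ?_) <;> simp only <;> omega
  have hi2 : Inc (fun S => Hc r 0 (2 ^ e') ((fun v : V => (2 * r - v.1, v.2)) ⁻¹' S)) :=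
    fun S S' hS hh => Hc.mono (Set.preimage_mono hS) hh
  have hH1 := harris m h.nonneg k 0 hfin hl2 hl3 hi2 (Circ.inc e' (r, 0))
  have hl23 : Loc (Box (-r) (3 * r) (-r) r) (fun S =>
      Hc r 0 (2 ^ e') ((fun v : V => (2 * r - v.1, v.2)) ⁻¹' S) ∧ Circ e' (r, 0) S) :=
    fun S S' hS hh => ⟨hl2 S S' hS hh.1, hl3 S S' hS hh.2⟩
  have hi23 : Inc (fun S =>
      Hc r 0 (2 ^ e') ((fun v : V => (2 * r - v.1, v.2)) ⁻¹' S) ∧ Circ e' (r, 0) S) :=
    fun S S' hS hh => ⟨hi2 S S' hS hh.1, Circ.inc e' (r, 0) S S' hS hh.2⟩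
  have hH2 := harris m h.nonneg k 0 hfin hl1 hl23 (Hc.inc r 0 (2 ^ e')) hi23
  have hc4 : 0 ≤ cG c2 / 4 := by have := w6_cG; positivity
  have hlow : c3 ≤ m.Pr k 0 (fun S => Hc r 0 (2 ^ e') S ∧
      (Hc r 0 (2 ^ e') ((fun v : V => (2 * r - v.1, v.2)) ⁻¹' S) ∧ Circ e' (r, 0) S)) := by
    refine le_trans ?_ hH2
    have h1 : 3 / 16 * (cG c2 / 4) ≤ m.Pr k 0 (fun S =>
        Hc r 0 (2 ^ e') ((fun v : V => (2 * r - v.1, v.2)) ⁻¹' S) ∧ Circ e' (r, 0) S) := by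
      refine le_trans ?_ hH1
      exact mul_le_mul hP2 hP3 hc4 (le_trans (by norm_num) hP2)
    calc c3 = 3 / 16 * (3 / 16 * (cG c2 / 4)) := by unfold c3; ring
      _ ≤ _ := mul_le_mul hP1 h1 (by positivity) (le_trans (by norm_num) hP1)
  have hmid : c3 ≤ m.Pr k 0 (LR (-r) (2 * r) (-r) r) := by
    refine hlow.trans (w6_mono m k 0 fun S hS => w6_cut hrpos.le ?_)
    exact f2t (by omega) hS.2.2 hS.1 hS.2.1
  have hlast := pr_map h (k := k) hkJ 0 (Λ := Box (-r) (2 * r) (-r) r)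
    (E := LR (-r) (2 * r) (-r) r) (LR.loc (le_refl _)) (by
      rintro v ⟨⟨x1, x2⟩, x3, x4⟩
      refine ⟨⟨?_, ?_⟩, ?_, ?_⟩ <;> simp only [Prod.fst_zero, Prod.snd_zero] <;> omega)
    (tr (r, r)) (by
      rintro v ⟨⟨x1, x2⟩, x3, x4⟩
      unfold tr
      refine ⟨⟨?_, ?_⟩, ?_, ?_⟩ <;>
        simp only [Prod.fst_zero, Prod.snd_zero, Prod.fst_add, Prod.snd_add] <;> omega) (by
      intro j u _ v _
      unfold tr
      rw [add_sub_add_right_eq_sub])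
  have hev2 : Ev ((r, r) : V) := by
    unfold Ev
    exact Even.add hreven hreven
  have h6 : (fun S => LR (-r) (2 * r) (-r) r (tr (r, r) ⁻¹' S)) =
      LR 0 (3 * r) 0 (2 * r) := by
    funext S
    have h7 := lr_tr hev2 (-r) (2 * r) (-r) r S
    simp only [neg_add_cancel] at h7
    have e1 : 2 * r + r = 3 * r := by ring
    have e2 : r + r = 2 * r := by ring
    rw [e1, e2] at h7
    exact propext h7.symm
  rw [h6] at hlast
  rw [hlast]
  exact hmid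

end NU53
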