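import Pool.Agent.LibNU53.W6
import Pool.Agent.LibNU53.P4
import Pool.Agent.LibNU53.F3t

/-! Row W8 (F3). If circuits at scale `e'` are good then `A > 2^e'` for some scale
`e ∈ [e'+4, e'+m1]`. PLAN. `ρ = cG c3 ≤ cG c2`; take `s0` beyond the thresholds of `f2_pr` and of
`poly C c ρ`; `n` with `(1-ρ/2)^(n/2) + exp(-n) < 1/8`; `m1 = (s0+4)(n+1) + 8`. Suppose `A ≤ 2^e'` for
all these `e`. Then `f2_pr` and `circ_pr` give `P(Circ e 0) ≥ ρ` in the own level of every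
`e ∈ [e'+4, e'+m1]`. Take `e = e'+m1`, `r = 2^e`, `K = e+s0-q`, the scales `e_i = e'+4+(s0+4) i`
(`i < n`, all `≤ e - 2`), the centre `x = (r,0)`, `l = 0` in `poly`. The event
`Hc r 0 A ∧ ¬ Hc r A r` for `S = {F_K > 0}` has probability `≥ 3/16 - 1/16 = 1/8` (`aw_low` with `s = A`,
`aw_at`), and it excludes `Mono m K (e_i) x 0` for all `i` (`f3_black` with `t = A ≤ 2^e' ≤ 2^(e_i)`,
`f3_white` for `{F ≤ 0} = {F > 0}ᶜ`). Contradiction. MEDIUM/STRONG. -/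

open MeasureTheory ProbabilityTheory

namespace NU53

private lemma w8_c2_pos : 0 < c2 := by unfold c2; positivity

private lemma w8_cG_pos {p : ℝ} (hp : 0 < p) : 0 < cG p := by unfold cG; positivity

private lemma w8_cG_le {p : ℝ} (hp : 0 ≤ p) (hp1 : p ≤ 1) : cG p ≤ 1 := by
  unfold cG
  have h1 : p ^ 4 ≤ 1 := pow_le_one₀ hp hp1
  have h2 : 0 ≤ p ^ 4 := by positivity
  exact pow_le_one₀ (by positivity) (by linarith)

private lemma w8_c2_le : c2 ≤ 1 := by unfold c2; norm_num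

private lemma w8_c3_pos : 0 < c3 := by
  have := w8_cG_pos w8_c2_pos
  unfold c3
  positivity

private lemma w8_c3_le : c3 ≤ 1 := by
  have h1 := w8_cG_pos w8_c2_pos
  have h2 := w8_cG_le w8_c2_pos.le w8_c2_le
  unfold c3
  have : (3 / 16 : ℝ) ^ 2 ≤ 1 := by norm_num
  nlinarith

private lemma w8_n {ρ : ℝ} (h0 : 0 < ρ) (h1 : ρ ≤ 1) :
    ∃ n : ℕ, (1 - ρ / 2) ^ (n / 2) + Real.exp (-n) < 1 / 8 := by
  have t1 : Filter.Tendsto (fun k : ℕ => (1 - ρ / 2) ^ k) Filter.atTop (nhds 0) :=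
    tendsto_pow_atTop_nhds_zero_of_lt_one (by linarith) (by linarith)
  have t2 : Filter.Tendsto (fun k : ℕ => (Real.exp (-2)) ^ k) Filter.atTop (nhds 0) :=
    tendsto_pow_atTop_nhds_zero_of_lt_one (Real.exp_pos _).le (by
      rw [Real.exp_lt_one_iff]; norm_num)
  have t3 := t1.add t2
  rw [add_zero] at t3
  obtain ⟨k, hk⟩ := (t3.eventually (gt_mem_nhds (show (0 : ℝ) < 1 / 8 by norm_num))).exists
  refine ⟨2 * k, ?_⟩
  have e1 : 2 * k / 2 = k := by omega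
  have e2 : Real.exp (-((2 * k : ℕ) : ℝ)) = (Real.exp (-2)) ^ k := by
    rw [← Real.exp_nat_mul]
    congr 1
    push_cast
    ring
  rw [e1, e2]
  exact hk

theorem f3_pr (C c : ℝ) (hc : 0 < c) : ∃ s00 : ℕ, ∀ s0 : ℕ, s00 ≤ s0 → ∃ m1 : ℕ, 4 ≤ m1 ∧
    ∀ (α : ℝ) (q J : ℕ) (D : ℤ) (κ : ℕ → V → ℝ) (m : Mdl), IsMdl C c α q J D κ m →
    ∀ e' : ℕ, 1 ≤ e' → q ≤ e' + s0 → e' + m1 + s0 - q ≤ J → (2 : ℤ) ^ (e' + m1 + 4) ≤ D →
    cG c2 ≤ m.Pr (e' + s0 - q) 0 (Circ e' 0) →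
    ∃ e : ℕ, e' + 4 ≤ e ∧ e ≤ e' + m1 ∧ 2 ^ e' < Aw m (e + s0 - q) e := by
  have hρ : 0 < cG c3 := w8_cG_pos w8_c3_pos
  have hρ1 : cG c3 ≤ 1 := w8_cG_le w8_c3_pos.le w8_c3_le
  obtain ⟨sa, ha⟩ := f2_pr C c hc
  obtain ⟨sb, hb⟩ := poly C c (cG c3) hc hρ hρ1
  obtain ⟨n, hn⟩ := w8_n hρ hρ1
  refine ⟨max sa sb, fun s0 hs0 => ⟨(s0 + 4) * (n + 1) + 8, by omega, ?_⟩⟩
  intro α q J D κ m h e' he' hq hJ hD hci
  set m1 := (s0 + 4) * (n + 1) + 8 with hm1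
  by_contra hcon
  push Not at hcon
  have hcirc : ∀ e, e' + 4 ≤ e → e ≤ e' + m1 → cG c3 ≤ m.Pr (e + s0 - q) 0 (Circ e 0) := by
    intro e h1 h2
    have hD1 : (2 : ℤ) ^ (e + 3) ≤ D :=
      le_trans (pow_le_pow_right₀ (by norm_num) (by omega)) hD
    have h3 := ha s0 (le_trans (le_max_left _ _) hs0) α q J D κ m h e e' he' h1 hq (by omega) hD1
      (hcon e h1 h2) hci
    exact circ_pr h (by omega) (by omega) hD1 w8_c3_pos.le h3
  set e := e' + m1 with he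
  set K := e + s0 - q with hK
  set r : ℤ := 2 ^ e with hr
  set A := Aw m K e with hA
  have hAle : A ≤ 2 ^ e' := hcon e (by omega) le_rfl
  have hAle2 : A ≤ 2 ^ e := le_trans hAle (Nat.pow_le_pow_right (by norm_num) (by omega))
  have hDe : (2 : ℤ) ^ e ≤ D := le_trans (pow_le_pow_right₀ (by norm_num) (by omega)) hD
  have hDe4 : 16 * r ≤ D := by
    have : (2 : ℤ) ^ (e + 4) = 16 * r := by rw [hr, pow_add]; ring
    rw [← this]; exact hD
  have hlow := aw_low h (k := K) (e := e) (by omega) hDe (s := A) le_rfl hAle2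
  have hat := aw_at (m := m) (k := K) (e := e) hAle2
  rw [← hA] at hat
  have hei : ∀ i, i < n → e' + 4 + (s0 + 4) * i + 2 ≤ e := by
    intro i hi
    have : (s0 + 4) * i ≤ (s0 + 4) * (n + 1) := Nat.mul_le_mul_left _ (by omega)
    omega
  have hri : ∀ i, i < n → 4 * (2 : ℤ) ^ (e' + 4 + (s0 + 4) * i) ≤ r := by
    intro i hi
    have h1 : (2 : ℤ) ^ (e' + 4 + (s0 + 4) * i + 2) ≤ 2 ^ e :=
      pow_le_pow_right₀ (by norm_num) (hei i hi)
    rw [pow_add] at h1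
    rw [hr]
    linarith
  have hp1 : ∀ j : ℕ, (1 : ℤ) ≤ 2 ^ j := fun j => one_le_pow₀ (by norm_num)
  have hpoly := hb s0 (le_trans (le_max_right _ _) hs0) α q J D κ m h n
    (fun i => e' + 4 + (s0 + 4) * i) (fun i => by
      show e' + 4 + (s0 + 4) * i + (s0 + 4) ≤ e' + 4 + (s0 + 4) * (i + 1)
      rw [mul_add, mul_one]; omega)
    (by show q ≤ e' + 4 + (s0 + 4) * 0 + s0; omega) K (by omega)
    (fun i hi => by
      have := hei i hi
      show e' + 4 + (s0 + 4) * i + s0 - q ≤ K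
      omega) (r, 0) (by
      show Even (r + 0)
      rw [add_zero, hr]
      exact (even_two).pow_of_ne_zero (by omega))
    (fun i hi => by
      have h1 := hri i hi
      have h2 := hp1 (e' + 4 + (s0 + 4) * i)
      rintro ⟨a, b⟩ ⟨⟨h3, h4⟩, h5, h6⟩
      simp only at h3 h4 h5 h6
      refine ⟨⟨?_, ?_⟩, ?_, ?_⟩ <;> simp only [Prod.fst_zero, Prod.snd_zero] <;> linarith)
    (fun i hi => by
      have h1 := hri i hi
      have h2 := hp1 (e' + 4 + (s0 + 4) * i)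
      rintro ⟨a, b⟩ ⟨⟨h3, h4⟩, h5, h6⟩
      simp only [Prod.fst_zero, Prod.snd_zero] at h3 h4 h5 h6
      refine ⟨⟨?_, ?_⟩, ?_, ?_⟩ <;> simp only [Prod.fst_zero, Prod.snd_zero] <;> linarith)
    (fun i hi => by
      have := hei i hi
      exact hcirc _ (by omega) (by omega)) 0
  have hsub : {ω | Hc r 0 A (m.Sk K 0 ω)} ⊆ {ω | ∀ i, i < n →
      ω ∉ Mono m K (e' + 4 + (s0 + 4) * i) (r, 0) 0} ∪ {ω | Hc r A r (m.Sk K 0 ω)} := by
    intro ω hω
    by_cases h2 : Hc r A r (m.Sk K 0 ω)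
    · exact Or.inr h2
    · left
      intro i hi hmono
      have h3 : 3 * (2 : ℤ) ^ (e' + 4 + (s0 + 4) * i) ≤ r := by
        have h1 := hri i hi
        have h2 := hp1 (e' + 4 + (s0 + 4) * i)
        linarith
      have h4 : (A : ℤ) ≤ 2 ^ (e' + 4 + (s0 + 4) * i) := by
        have : A ≤ 2 ^ (e' + 4 + (s0 + 4) * i) :=
          le_trans hAle (Nat.pow_le_pow_right (by norm_num) (by omega))
        exact_mod_cast this
      rcases hmono with hm | hm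
      · exact h2 (f3_black h3 (by positivity) h4 hm hω)
      · have e1 : {v | m.F K ω v ≤ 0} = (m.Sk K 0 ω)ᶜ := by
          ext v
          simp [Mdl.Sk]
        rw [e1] at hm
        exact f3_white h3 h4 hm hω
  have hfin := (measureReal_mono hsub (μ := m.mu)).trans (measureReal_union_le _ _)
  have e1 : m.Pr K 0 (Hc (2 ^ e) 0 A) = m.mu.real {ω | Hc r 0 A (m.Sk K 0 ω)} := rfl
  have e2 : m.Pr K 0 (Hc (2 ^ e) A (2 ^ e)) = m.mu.real {ω | Hc r A r (m.Sk K 0 ω)} := rfl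
  rw [e1] at hlow
  rw [e2] at hat
  linarith

end NU53
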